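import Pool.Agent.HFT.CS2

/-! # HFT/CS3: every locally indicable group has a Conradian system (helper49)

PROOF. Take `ν` from `exists_nu`. Write (finite) for `≠ ⊤, ≠ ⊥`. For `g, h ≠ 1`:
`ν h h = 1`. (a) If `ν h g = 0` then `ν g h` is `⊤` or `⊥`: otherwise `mul` (h, g, h) gives
`1 = ν h h = 0 * ν g h = 0`. (b) If `ν h g` is `⊤` or `⊥` then `ν g h = 0`: otherwise
`1 = ν h g * ν g h` is infinite or.. (a product of `⊤` or `⊥` with a nonzero element is `⊤` or `⊥`).
(c) If `ν h g` is finite and nonzero then `ν g h = (ν h g)⁻¹`: apply `mul` (h, g, h): the hypotheses hold,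
`1 = ν h g * ν g h`, so `ν g h` is finite nonzero.
Define `g ≼ h` by `ν h g` finite. Reflexive (`1`), transitive: `ν l g = ν l h * ν h g` by `mul`
(both finite), total: by (b). Let `X := {g : G // g ≠ 1}` with this preorder and let `I` be its
antisymmetrization (`Antisymmetrization X (· ≤ ·)`, a linear order), `Type u`.
`lev g := ⊥` if `g = 1`, else the class of `g`. `lev_inv`: `ν g g⁻¹ = -1` by `inv` and `one`,
`ν g⁻¹ g = - ν g⁻¹ g⁻¹ = -1`. `lev_mul`: for `g, g', g g' ≠ 1`: let `h` be the larger one of `g, g'`; `ν h g`,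
`ν h g'` are finite, so `ν h (g g')` is finite by `add`.
For `i : I` let `h i : X` be a representative and `τ i g := (ν (h i) g).toReal`.
`τ_mul`: `lev g ≤ i` means `g = 1` or `ν (h i) g` finite; `ν (h i) 1 = 0` is finite as well; `add`.
`τ_zero`: for `g = 1` both sides hold. For `g ≠ 1` with `ν (h i) g` finite: `lev g < i` iff not
`h i ≼ g` iff `ν g (h i)` infinite iff `ν (h i) g = 0` ((a), (b), (c)). -/

set_option autoImplicit false

universe u

namespace Pool.Agent.HFT

variable {G : Type u} [Group G]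

private def Fn (x : EReal) : Prop := x ≠ ⊤ ∧ x ≠ ⊥

private theorem Fn_coe (x : ℝ) : Fn (x : EReal) := ⟨EReal.coe_ne_top x, EReal.coe_ne_bot x⟩

private theorem Fn_zero : Fn 0 := by
  have := Fn_coe 0
  rwa [EReal.coe_zero] at this

private theorem Fn_one : Fn 1 := by
  have := Fn_coe 1
  rwa [EReal.coe_one] at this

private theorem Fn.lift {x : EReal} (h : Fn x) : ∃ r : ℝ, x = (r : EReal) :=
  ⟨x.toReal, (EReal.coe_toReal h.1 h.2).symm⟩

private theorem Fn.neg {x : EReal} (h : Fn x) : Fn (-x) := by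
  obtain ⟨r, rfl⟩ := h.lift
  rw [← EReal.coe_neg]
  exact Fn_coe _

private theorem Fn.add {x y : EReal} (h : Fn x) (h' : Fn y) : Fn (x + y) := by
  obtain ⟨r, rfl⟩ := h.lift
  obtain ⟨s, rfl⟩ := h'.lift
  rw [← EReal.coe_add]
  exact Fn_coe _

private theorem Fn.mul {x y : EReal} (h : Fn x) (h' : Fn y) : Fn (x * y) := by
  obtain ⟨r, rfl⟩ := h.lift
  obtain ⟨s, rfl⟩ := h'.lift
  rw [← EReal.coe_mul]
  exact Fn_coe _

/-- an infinite element times a nonzero element is not one -/
private theorem inf_mul_ne {x y : EReal} (h : ¬ Fn x) (h' : y ≠ 0) : x * y ≠ 1 := by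
  have h1 : x = ⊤ ∨ x = ⊥ := by
    unfold Fn at h
    by_contra hc
    rw [not_or] at hc
    exact h hc
  have hn : (1 : EReal) ≠ ⊤ := Fn_one.1
  have hm : (1 : EReal) ≠ ⊥ := Fn_one.2
  rcases lt_or_gt_of_ne h' with h2 | h2
  · rcases h1 with rfl | rfl
    · rw [EReal.top_mul_of_neg h2]
      exact hm.symm
    · rw [EReal.bot_mul_of_neg h2]
      exact hn.symm
  · rcases h1 with rfl | rfl
    · rw [EReal.top_mul_of_pos h2]
      exact hn.symm
    · rw [EReal.bot_mul_of_pos h2]
      exact hm.symm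

section

variable {ν : G → G → EReal} (N : LocNu Set.univ ν)

include N

private theorem nu_one {h : G} (hh : h ≠ 1) : ν h h = 1 := N.one h trivial hh

private theorem nu_a {g h : G} (hg : g ≠ 1) (hh : h ≠ 1) (h0 : ν h g = 0) : ¬ Fn (ν g h) := by
  intro hf
  have h1 := N.mul h trivial g trivial h trivial hh hg (Or.inr hf) (Or.inl (by rw [h0]; exact Fn_zero))
  rw [nu_one N hh, h0, zero_mul] at h1
  exact one_ne_zero h1

private theorem nu_b {g h : G} (hg : g ≠ 1) (hh : h ≠ 1) (h0 : ¬ Fn (ν h g)) : ν g h = 0 := by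
  by_contra hne
  have h1 := N.mul h trivial g trivial h trivial hh hg
    (Or.inl (fun h2 => h0 (by rw [h2]; exact Fn_zero))) (Or.inr hne)
  rw [nu_one N hh] at h1
  exact inf_mul_ne h0 hne h1.symm

private theorem nu_z {g h : G} (hg : g ≠ 1) (hh : h ≠ 1) : ν h g = 0 ↔ ¬ Fn (ν g h) :=
  ⟨nu_a N hg hh, nu_b N hh hg⟩

private theorem nu_trans {g h l : G} (hh : h ≠ 1) (hl : l ≠ 1) (h1 : Fn (ν h g))
    (h2 : Fn (ν l h)) : Fn (ν l g) := by
  rw [N.mul l trivial h trivial g trivial hl hh (Or.inr h1) (Or.inl h2)]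
  exact h2.mul h1

private theorem nu_total {g h : G} (hg : g ≠ 1) (hh : h ≠ 1) : Fn (ν h g) ∨ Fn (ν g h) := by
  by_cases h1 : Fn (ν h g)
  · exact Or.inl h1
  · right
    rw [nu_b N hg hh h1]
    exact Fn_zero

private theorem nu_add {h g g' : G} (hh : h ≠ 1) (h1 : Fn (ν h g)) (h2 : Fn (ν h g')) :
    ν h (g * g') = ν h g + ν h g' :=
  N.add h trivial g trivial g' trivial trivial hh h1.1 h1.2 h2.1 h2.2

private theorem nu_inv {h g : G} (hh : h ≠ 1) : ν h g⁻¹ = - ν h g :=
  N.inv h trivial g trivial trivial hh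

/-- the preorder of the nontrivial elements -/
@[reducible] private def preX : Preorder {g : G // g ≠ 1} where
  le g h := Fn (ν h g)
  le_refl g := by
    show Fn (ν g g)
    rw [nu_one N g.2]
    exact Fn_one
  le_trans g h l h1 h2 := nu_trans N h.2 l.2 h1 h2

private theorem exists_aux : Nonempty (ConradSys G) := by
  classical
  letI P : Preorder {g : G // g ≠ 1} := preX N
  have hle : ∀ g h : {g : G // g ≠ 1}, g ≤ h ↔ Fn (ν h g) := fun _ _ => Iff.rfl
  haveI : @Std.Total {g : G // g ≠ 1} (· ≤ ·) := ⟨fun g h => nu_total N g.2 h.2⟩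
  letI LO : LinearOrder (Antisymmetrization {g : G // g ≠ 1} (· ≤ ·)) := inferInstance
  let I : Type u := Antisymmetrization {g : G // g ≠ 1} (· ≤ ·)
  let cls : {g : G // g ≠ 1} → I := toAntisymmetrization (· ≤ ·)
  let rep : I → {g : G // g ≠ 1} := ofAntisymmetrization (· ≤ ·)
  have hrep : ∀ i, cls (rep i) = i := fun i => toAntisymmetrization_ofAntisymmetrization (· ≤ ·) i
  have hcls : ∀ g h : {g : G // g ≠ 1}, cls g ≤ cls h ↔ Fn (ν h g) := fun g h =>
    toAntisymmetrization_le_toAntisymmetrization_iff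
  let lev : G → WithBot I := fun g => if h : g = 1 then ⊥ else ((cls ⟨g, h⟩ : I) : WithBot I)
  have hlev1 : lev 1 = ⊥ := dif_pos rfl
  have hlev : ∀ (g : G) (h : g ≠ 1), lev g = ((cls ⟨g, h⟩ : I) : WithBot I) := fun g h => dif_neg h
  have hle_iff : ∀ (g : G) (i : I), lev g ≤ (i : WithBot I) ↔ Fn (ν (rep i) g) := by
    intro g i
    by_cases hg : g = 1
    · subst hg
      rw [hlev1, N.triv _ trivial (rep i).2]
      exact ⟨fun _ => Fn_zero, fun _ => bot_le⟩
    · rw [hlev g hg, WithBot.coe_le_coe]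
      have h1 := hcls ⟨g, hg⟩ (rep i)
      rw [hrep] at h1
      exact h1
  have hlt_iff : ∀ (g : G) (i : I), lev g < (i : WithBot I) ↔ ν (rep i) g = 0 := by
    intro g i
    by_cases hg : g = 1
    · subst hg
      rw [hlev1, N.triv _ trivial (rep i).2]
      exact ⟨fun _ => rfl, fun _ => WithBot.bot_lt_coe i⟩
    · rw [hlev g hg, WithBot.coe_lt_coe, ← not_le]
      have h1 := hcls (rep i) ⟨g, hg⟩
      rw [hrep] at h1
      rw [h1]
      exact (nu_z N hg (rep i).2).symm
  have hbot : ∀ g, lev g = ⊥ ↔ g = 1 := by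
    intro g
    refine ⟨fun h => ?_, fun h => by rw [h, hlev1]⟩
    by_contra hg
    rw [hlev g hg] at h
    exact WithBot.coe_ne_bot h
  have hinv : ∀ g, lev g⁻¹ ≤ lev g := by
    intro g
    by_cases hg : lev g = ⊥
    · have h1 := (hbot g).1 hg
      rw [h1, inv_one]
    · obtain ⟨i, hi⟩ := WithBot.ne_bot_iff_exists.1 hg
      have h1 := (hle_iff g i).1 hi.symm.le
      rw [← hi, hle_iff, nu_inv N (rep i).2]
      exact h1.neg
  exact ⟨{
    I := I
    ord := LO
    lev := lev
    τ := fun i g => (ν (rep i) g).toReal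
    lev_bot := hbot
    lev_inv := fun g => le_antisymm (hinv g) (by
      have h := hinv g⁻¹
      rwa [inv_inv] at h)
    lev_mul := by
      intro g h
      by_cases hm : max (lev g) (lev h) = ⊥
      · have h1 : lev g = ⊥ := le_bot_iff.1 (hm ▸ le_max_left _ _)
        have h2 : lev h = ⊥ := le_bot_iff.1 (hm ▸ le_max_right _ _)
        rw [(hbot g).1 h1, (hbot h).1 h2, one_mul, hlev1]
        exact bot_le
      · obtain ⟨i, hi⟩ := WithBot.ne_bot_iff_exists.1 hm
        have h1 : lev g ≤ (i : WithBot I) := by rw [hi]; exact le_max_left _ _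
        have h2 : lev h ≤ (i : WithBot I) := by rw [hi]; exact le_max_right _ _
        rw [hle_iff] at h1 h2
        rw [← hi, hle_iff, nu_add N (rep i).2 h1 h2]
        exact h1.add h2
    τ_mul := by
      intro i g h h1 h2
      rw [hle_iff] at h1 h2
      show (ν (rep i) (g * h)).toReal = (ν (rep i) g).toReal + (ν (rep i) h).toReal
      rw [nu_add N (rep i).2 h1 h2, EReal.toReal_add h1.1 h1.2 h2.1 h2.2]
    τ_zero := by
      intro i g h1
      rw [hlt_iff]
      rw [hle_iff] at h1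
      show (ν (rep i) g).toReal = 0 ↔ _
      obtain ⟨r, hr⟩ := h1.lift
      rw [hr, EReal.toReal_coe, EReal.coe_eq_zero] }⟩

end

theorem exists_conradSys (hG : LocIndic G) : Nonempty (ConradSys G) := by
  obtain ⟨ν, N⟩ := exists_nu hG
  exact exists_aux N

end Pool.Agent.HFT
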