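import Pool.Agent.HFT.Basic

/-! # HFT/Lev: group theory of a Conradian system (helper49)

PROOF. Everything follows from the axioms of `ConradSys`. `τ i 1 = 0` and `τ i g⁻¹ = - τ i g` for
`lev g ≤ i` by `τ_mul`. If `lev c ≤ i` then for `lev g ≤ i` the element `c⁻¹ g c` has level `≤ i` and
`τ i (c⁻¹ g c) = τ i g`, so by `τ_zero` also `lev g < i ↔ lev (c⁻¹ g c) < i`; this gives `coset_*`
(`k'⁻¹ g k' = c⁻¹ (k⁻¹ g k) c` with `c = k⁻¹ k'`; the inclusions the other way use `c⁻¹`).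
`lt`: for `g ≠ 1` put `i = lev g`; `τ i g ≠ 0` by `τ_zero`, so `g` or `g⁻¹` is positive and not both.
If `g`, `h` are positive of levels `i`, `j` then `g h` is positive: if `i = j` then
`τ i (g h) > 0`, so `lev (g h) = i`; if `i < j` then `τ j (g h) = 0 + τ j h > 0` and `lev (g h) = j`
(level `≤ j`, not `< j` by `τ_zero`); similarly `j < i`. The same computation gives the statements
about `ltj j`: `g h` is positive of level `≥ j` as soon as one of `g, h` is positive of level `≥ j`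
and the other one is positive of level `≥ j` or has level `< j`. -/

set_option autoImplicit false

universe u

namespace Pool.Agent.HFT

namespace ConradSys

variable {G : Type u} [Group G] (S : ConradSys G)

theorem tau_one (i : S.I) : S.τ i 1 = 0 := by
  have h1 : S.lev (1 : G) ≤ (i : WithBot S.I) := by
    rw [(S.lev_bot 1).2 rfl]; exact bot_le
  have h := S.τ_mul i 1 1 h1 h1
  rw [mul_one] at h
  linarith

theorem tau_inv {i : S.I} {g : G} (hg : S.lev g ≤ (i : WithBot S.I)) :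
    S.τ i g⁻¹ = - S.τ i g := by
  have h := S.τ_mul i g g⁻¹ hg (by rw [S.lev_inv]; exact hg)
  rw [mul_inv_cancel, S.tau_one] at h
  linarith

private theorem conj_le {c x : G} {i : S.I} (hc : S.lev c ≤ (i : WithBot S.I))
    (hx : S.lev x ≤ (i : WithBot S.I)) : S.lev (c⁻¹ * x * c) ≤ (i : WithBot S.I) := by
  refine le_trans (S.lev_mul _ _) (max_le (le_trans (S.lev_mul _ _) (max_le ?_ hx)) hc)
  rw [S.lev_inv]; exact hc

private theorem conj_tau {c x : G} {i : S.I} (hc : S.lev c ≤ (i : WithBot S.I))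
    (hx : S.lev x ≤ (i : WithBot S.I)) : S.τ i (c⁻¹ * x * c) = S.τ i x := by
  have hc' : S.lev c⁻¹ ≤ (i : WithBot S.I) := by rw [S.lev_inv]; exact hc
  rw [S.τ_mul i (c⁻¹ * x) c (le_trans (S.lev_mul _ _) (max_le hc' hx)) hc,
    S.τ_mul i c⁻¹ x hc' hx, S.tau_inv hc]
  ring

private theorem conj_lt {c x : G} {i : S.I} (hc : S.lev c ≤ (i : WithBot S.I))
    (hx : S.lev x < (i : WithBot S.I)) : S.lev (c⁻¹ * x * c) < (i : WithBot S.I) := by
  rw [← S.τ_zero i _ (S.conj_le hc hx.le), S.conj_tau hc hx.le, S.τ_zero i x hx.le]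
  exact hx

private theorem conj_le_iff {c x : G} {i : S.I} (hc : S.lev c ≤ (i : WithBot S.I)) :
    S.lev (c⁻¹ * x * c) ≤ (i : WithBot S.I) ↔ S.lev x ≤ (i : WithBot S.I) := by
  refine ⟨fun h => ?_, S.conj_le hc⟩
  have h1 := S.conj_le (c := c⁻¹) (by rw [S.lev_inv]; exact hc) h
  have e : c⁻¹⁻¹ * (c⁻¹ * x * c) * c⁻¹ = x := by group
  rwa [e] at h1

private theorem conj_lt_iff {c x : G} {i : S.I} (hc : S.lev c ≤ (i : WithBot S.I)) :
    S.lev (c⁻¹ * x * c) < (i : WithBot S.I) ↔ S.lev x < (i : WithBot S.I) := by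
  refine ⟨fun h => ?_, S.conj_lt hc⟩
  have h1 := S.conj_lt (c := c⁻¹) (by rw [S.lev_inv]; exact hc) h
  have e : c⁻¹⁻¹ * (c⁻¹ * x * c) * c⁻¹ = x := by group
  rwa [e] at h1

private theorem lev_eq_of_tau {g : G} {i : S.I} (hg : S.lev g ≤ (i : WithBot S.I))
    (h : S.τ i g ≠ 0) : S.lev g = (i : WithBot S.I) := by
  rcases hg.lt_or_eq with h1 | h1
  · exact absurd ((S.τ_zero i g hg).2 h1) h
  · exact h1

private theorem tau_ne {g : G} {i : S.I} (hg : S.lev g = (i : WithBot S.I)) : S.τ i g ≠ 0 := by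
  intro h
  have := (S.τ_zero i g hg.le).1 h
  rw [hg] at this
  exact lt_irrefl _ this

/-- positive of level at least `j` -/
private def posj (j : S.I) (g : G) : Prop :=
  ∃ i : S.I, j ≤ i ∧ S.lev g = (i : WithBot S.I) ∧ 0 < S.τ i g

private theorem mul_aux {g h : G} {i : S.I} (hg : S.lev g ≤ (i : WithBot S.I))
    (hh : S.lev h ≤ (i : WithBot S.I)) (hp : 0 < S.τ i g + S.τ i h) :
    S.lev (g * h) = (i : WithBot S.I) ∧ 0 < S.τ i (g * h) := by
  have e := S.τ_mul i g h hg hh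
  rw [← e] at hp
  exact ⟨S.lev_eq_of_tau (le_trans (S.lev_mul _ _) (max_le hg hh)) hp.ne', hp⟩

private theorem posj_mul_pos {j : S.I} {g h : G} (hg : S.posj j g) (hh : S.pos h) :
    S.posj j (g * h) := by
  obtain ⟨i, h1, h2, h3⟩ := hg
  obtain ⟨i', h4, h5⟩ := hh
  rcases lt_trichotomy i i' with h6 | h6 | h6
  · have h7 : S.lev g < (i' : WithBot S.I) := by rw [h2]; exact WithBot.coe_lt_coe.2 h6
    exact ⟨i', h1.trans h6.le, S.mul_aux h7.le h4.le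
      (by rw [(S.τ_zero i' g h7.le).2 h7]; linarith)⟩
  · subst h6
    exact ⟨i, h1, S.mul_aux h2.le h4.le (by linarith)⟩
  · have h7 : S.lev h < (i : WithBot S.I) := by rw [h4]; exact WithBot.coe_lt_coe.2 h6
    exact ⟨i, h1, S.mul_aux h2.le h7.le (by rw [(S.τ_zero i h h7.le).2 h7]; linarith)⟩

private theorem pos_mul_posj {j : S.I} {g h : G} (hg : S.pos g) (hh : S.posj j h) :
    S.posj j (g * h) := by
  obtain ⟨i, h1, h2, h3⟩ := hh
  obtain ⟨i', h4, h5⟩ := hg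
  rcases lt_trichotomy i i' with h6 | h6 | h6
  · have h7 : S.lev h < (i' : WithBot S.I) := by rw [h2]; exact WithBot.coe_lt_coe.2 h6
    exact ⟨i', h1.trans h6.le, S.mul_aux h4.le h7.le
      (by rw [(S.τ_zero i' h h7.le).2 h7]; linarith)⟩
  · subst h6
    exact ⟨i, h1, S.mul_aux h4.le h2.le (by linarith)⟩
  · have h7 : S.lev g < (i : WithBot S.I) := by rw [h4]; exact WithBot.coe_lt_coe.2 h6
    exact ⟨i, h1, S.mul_aux h7.le h2.le (by rw [(S.τ_zero i g h7.le).2 h7]; linarith)⟩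

private theorem posj_mul_small {j : S.I} {g h : G} (hg : S.posj j g)
    (hh : S.lev h < (j : WithBot S.I)) : S.posj j (g * h) := by
  obtain ⟨i, h1, h2, h3⟩ := hg
  have h7 : S.lev h < (i : WithBot S.I) := lt_of_lt_of_le hh (WithBot.coe_le_coe.2 h1)
  exact ⟨i, h1, S.mul_aux h2.le h7.le (by rw [(S.τ_zero i h h7.le).2 h7]; linarith)⟩

private theorem small_mul_posj {j : S.I} {g h : G} (hg : S.lev g < (j : WithBot S.I))
    (hh : S.posj j h) : S.posj j (g * h) := by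
  obtain ⟨i, h1, h2, h3⟩ := hh
  have h7 : S.lev g < (i : WithBot S.I) := lt_of_lt_of_le hg (WithBot.coe_le_coe.2 h1)
  exact ⟨i, h1, S.mul_aux h7.le h2.le (by rw [(S.τ_zero i g h7.le).2 h7]; linarith)⟩

private theorem pos_of_posj {j : S.I} {g : G} (h : S.posj j g) : S.pos g := by
  obtain ⟨i, _, h1, h2⟩ := h
  exact ⟨i, h1, h2⟩

private theorem pos_mul {g h : G} (hg : S.pos g) (hh : S.pos h) : S.pos (g * h) := by
  obtain ⟨i, h1, h2⟩ := hg
  exact S.pos_of_posj (S.posj_mul_pos (j := i) ⟨i, le_rfl, h1, h2⟩ hh)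

private theorem tele (g h l : G) : g⁻¹ * l = (g⁻¹ * h) * (h⁻¹ * l) := by group

private theorem flip (g h : G) : h⁻¹ * g = (g⁻¹ * h)⁻¹ := by group

private theorem cancl (b g h : G) : (b * g)⁻¹ * (b * h) = g⁻¹ * h := by group

theorem mem_Le {k g : G} {i : S.I} : g ∈ S.Le k i ↔ S.lev (k⁻¹ * g * k) ≤ (i : WithBot S.I) :=
  Iff.rfl

theorem mem_Lt {k g : G} {i : S.I} : g ∈ S.Lt k i ↔ S.lev (k⁻¹ * g * k) < (i : WithBot S.I) :=
  Iff.rfl

theorem Lt_le_Le (k : G) (i : S.I) : S.Lt k i ≤ S.Le k i := fun _ h => le_of_lt (S.mem_Lt.1 h)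

theorem Le_le_Lt (k : G) {i i' : S.I} (h : i < i') : S.Le k i ≤ S.Lt k i' := by
  intro g hg
  exact lt_of_le_of_lt (S.mem_Le.1 hg) (WithBot.coe_lt_coe.2 h)

theorem Lt_le_Lt (k : G) {i i' : S.I} (h : i ≤ i') : S.Lt k i ≤ S.Lt k i' := by
  intro g hg
  exact lt_of_lt_of_le (S.mem_Lt.1 hg) (WithBot.coe_le_coe.2 h)

theorem Le_le_Le (k : G) {i i' : S.I} (h : i ≤ i') : S.Le k i ≤ S.Le k i' := by
  intro g hg
  exact le_trans (S.mem_Le.1 hg) (WithBot.coe_le_coe.2 h)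

theorem deg_mul {k g h : G} {i : S.I} (hg : g ∈ S.Le k i) (hh : h ∈ S.Le k i) :
    S.deg k i (g * h) = S.deg k i g + S.deg k i h := by
  have e : k⁻¹ * (g * h) * k = (k⁻¹ * g * k) * (k⁻¹ * h * k) := by group
  unfold deg
  rw [e, S.τ_mul i _ _ hg hh]

theorem deg_inv {k g : G} {i : S.I} (hg : g ∈ S.Le k i) :
    S.deg k i g⁻¹ = - S.deg k i g := by
  have e : k⁻¹ * g⁻¹ * k = (k⁻¹ * g * k)⁻¹ := by group
  unfold deg
  rw [e, S.tau_inv hg]

theorem deg_one (k : G) (i : S.I) : S.deg k i 1 = 0 := by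
  have e : k⁻¹ * 1 * k = 1 := by group
  unfold deg
  rw [e, S.tau_one]

theorem deg_zero_iff {k g : G} {i : S.I} (hg : g ∈ S.Le k i) :
    S.deg k i g = 0 ↔ g ∈ S.Lt k i := by
  exact S.τ_zero i _ hg

/-- `Lt k i` is normalized by `Le k i` -/
theorem Lt_norm {k g h : G} {i : S.I} (hg : g ∈ S.Lt k i) (hh : h ∈ S.Le k i) :
    h * g * h⁻¹ ∈ S.Lt k i := by
  have e : k⁻¹ * (h * g * h⁻¹) * k = (k⁻¹ * h⁻¹ * k)⁻¹ * (k⁻¹ * g * k) * (k⁻¹ * h⁻¹ * k) := by
    group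
  rw [mem_Lt, e]
  exact S.conj_lt ((S.Le k i).inv_mem hh) hg

/-- every nontrivial element has a level seen from `k` -/
theorem exists_level (k : G) {g : G} (hg : g ≠ 1) :
    ∃ i : S.I, g ∈ S.Le k i ∧ g ∉ S.Lt k i ∧ S.lev (k⁻¹ * g * k) = (i : WithBot S.I) := by
  have h1 : k⁻¹ * g * k ≠ 1 := by
    intro h
    apply hg
    have : g = k * (k⁻¹ * g * k) * k⁻¹ := by group
    rw [this, h]
    group
  have h2 : S.lev (k⁻¹ * g * k) ≠ ⊥ := fun h => h1 ((S.lev_bot _).1 h)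
  obtain ⟨i, hi⟩ := WithBot.ne_bot_iff_exists.1 h2
  refine ⟨i, ?_, ?_, hi.symm⟩
  · rw [mem_Le, ← hi]
  · rw [mem_Lt, ← hi]
    exact _root_.lt_irrefl _

theorem Le_conj {k g b : G} {i : S.I} : g ∈ S.Le (b⁻¹ * k) i ↔ b * g * b⁻¹ ∈ S.Le k i := by
  have e : (b⁻¹ * k)⁻¹ * g * (b⁻¹ * k) = k⁻¹ * (b * g * b⁻¹) * k := by group
  rw [mem_Le, mem_Le, e]

theorem Lt_conj {k g b : G} {i : S.I} : g ∈ S.Lt (b⁻¹ * k) i ↔ b * g * b⁻¹ ∈ S.Lt k i := by
  have e : (b⁻¹ * k)⁻¹ * g * (b⁻¹ * k) = k⁻¹ * (b * g * b⁻¹) * k := by group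
  rw [mem_Lt, mem_Lt, e]

theorem deg_conj (k g b : G) (i : S.I) : S.deg (b⁻¹ * k) i g = S.deg k i (b * g * b⁻¹) := by
  have e : (b⁻¹ * k)⁻¹ * g * (b⁻¹ * k) = k⁻¹ * (b * g * b⁻¹) * k := by group
  unfold deg
  rw [e]

theorem coset_Le {k k' : G} {i : S.I} (h : S.lev (k⁻¹ * k') ≤ (i : WithBot S.I)) :
    S.Le k' i = S.Le k i := by
  ext g
  have e : k'⁻¹ * g * k' = (k⁻¹ * k')⁻¹ * (k⁻¹ * g * k) * (k⁻¹ * k') := by group
  rw [mem_Le, mem_Le, e, S.conj_le_iff h]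

theorem coset_Lt {k k' : G} {i : S.I} (h : S.lev (k⁻¹ * k') ≤ (i : WithBot S.I)) :
    S.Lt k' i = S.Lt k i := by
  ext g
  have e : k'⁻¹ * g * k' = (k⁻¹ * k')⁻¹ * (k⁻¹ * g * k) * (k⁻¹ * k') := by group
  rw [mem_Lt, mem_Lt, e, S.conj_lt_iff h]

theorem coset_deg {k k' : G} {i : S.I} (h : S.lev (k⁻¹ * k') ≤ (i : WithBot S.I)) {g : G}
    (hg : g ∈ S.Le k i) : S.deg k' i g = S.deg k i g := by
  have e : k'⁻¹ * g * k' = (k⁻¹ * k')⁻¹ * (k⁻¹ * g * k) * (k⁻¹ * k') := by group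
  unfold deg
  rw [e, S.conj_tau h hg]

theorem coset_move {k b : G} {i : S.I} (hb : b ∈ S.Le k i) :
    S.lev (k⁻¹ * (b⁻¹ * k)) ≤ (i : WithBot S.I) ∧ S.lev (k⁻¹ * (b * k)) ≤ (i : WithBot S.I) := by
  have e1 : k⁻¹ * (b⁻¹ * k) = (k⁻¹ * b * k)⁻¹ := by group
  have e2 : k⁻¹ * (b * k) = k⁻¹ * b * k := by group
  rw [e1, e2, S.lev_inv]
  exact ⟨hb, hb⟩

/-! ### the order -/

theorem lt_irrefl (g : G) : ¬ S.lt g g := by
  rintro ⟨i, h1, _⟩
  rw [inv_mul_cancel, (S.lev_bot 1).2 rfl] at h1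
  exact WithBot.bot_ne_coe h1

theorem lt_trans {g h l : G} (h1 : S.lt g h) (h2 : S.lt h l) : S.lt g l := by
  show S.pos _
  rw [tele g h l]
  exact S.pos_mul h1 h2

theorem lt_asymm {g h : G} (h1 : S.lt g h) : ¬ S.lt h g := by
  exact fun h2 => S.lt_irrefl g (S.lt_trans h1 h2)

theorem lt_tri (g h : G) : S.lt g h ∨ g = h ∨ S.lt h g := by
  by_cases h1 : g⁻¹ * h = 1
  · right; left
    exact inv_mul_eq_one.1 h1
  · have h2 : S.lev (g⁻¹ * h) ≠ ⊥ := fun h => h1 ((S.lev_bot _).1 h)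
    obtain ⟨i, hi⟩ := WithBot.ne_bot_iff_exists.1 h2
    rcases lt_or_gt_of_ne (S.tau_ne hi.symm) with h3 | h3
    · right; right
      refine ⟨i, ?_, ?_⟩
      · rw [flip g h, S.lev_inv, ← hi]
      · rw [flip g h, S.tau_inv hi.symm.le]
        linarith
    · left
      exact ⟨i, hi.symm, h3⟩

theorem lt_left {g h : G} (b : G) (h1 : S.lt g h) : S.lt (b * g) (b * h) := by
  show S.pos _
  rw [cancl]
  exact h1

theorem ltj_lt {j : S.I} {g h : G} (h1 : S.ltj j g h) : S.lt g h := by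
  exact S.pos_of_posj h1

theorem ltj_or_eqj_of_lt {j : S.I} {g h : G} (h1 : S.lt g h) : S.ltj j g h ∨ S.eqj j g h := by
  obtain ⟨i, h2, h3⟩ := h1
  rcases le_or_gt j i with h4 | h4
  · exact Or.inl ⟨i, h4, h2, h3⟩
  · right
    show S.lev (g⁻¹ * h) < (j : WithBot S.I)
    rw [h2]
    exact WithBot.coe_lt_coe.2 h4

theorem eqj_refl (j : S.I) (g : G) : S.eqj j g g := by
  show S.lev (g⁻¹ * g) < (j : WithBot S.I)
  rw [inv_mul_cancel, (S.lev_bot 1).2 rfl]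
  exact WithBot.bot_lt_coe j

theorem eqj_symm {j : S.I} {g h : G} (h1 : S.eqj j g h) : S.eqj j h g := by
  show S.lev (h⁻¹ * g) < (j : WithBot S.I)
  rw [flip g h, S.lev_inv]
  exact h1

theorem eqj_trans {j : S.I} {g h l : G} (h1 : S.eqj j g h) (h2 : S.eqj j h l) : S.eqj j g l := by
  show S.lev (g⁻¹ * l) < (j : WithBot S.I)
  rw [tele g h l]
  exact lt_of_le_of_lt (S.lev_mul _ _) (max_lt h1 h2)

theorem ltj_trans {j : S.I} {g h l : G} (h1 : S.ltj j g h) (h2 : S.ltj j h l) : S.ltj j g l := by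
  show S.posj j _
  rw [tele g h l]
  exact S.posj_mul_pos h1 (S.pos_of_posj h2)

theorem ltj_of_eqj_of_ltj {j : S.I} {g h l : G} (h1 : S.eqj j g h) (h2 : S.ltj j h l) :
    S.ltj j g l := by
  show S.posj j _
  rw [tele g h l]
  exact S.small_mul_posj h1 h2

theorem ltj_of_ltj_of_eqj {j : S.I} {g h l : G} (h1 : S.ltj j g h) (h2 : S.eqj j h l) :
    S.ltj j g l := by
  show S.posj j _
  rw [tele g h l]
  exact S.posj_mul_small h1 h2

theorem ltj_of_ltj_of_lt {j : S.I} {g h l : G} (h1 : S.ltj j g h) (h2 : S.lt h l) :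
    S.ltj j g l := by
  show S.posj j _
  rw [tele g h l]
  exact S.posj_mul_pos h1 h2

theorem ltj_tri (j : S.I) (g h : G) : S.ltj j g h ∨ S.eqj j g h ∨ S.ltj j h g := by
  rcases S.lt_tri g h with h1 | h1 | h1
  · rcases S.ltj_or_eqj_of_lt (j := j) h1 with h2 | h2
    · exact Or.inl h2
    · exact Or.inr (Or.inl h2)
  · subst h1
    exact Or.inr (Or.inl (S.eqj_refl j g))
  · rcases S.ltj_or_eqj_of_lt (j := j) h1 with h2 | h2
    · exact Or.inr (Or.inr h2)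
    · exact Or.inr (Or.inl (S.eqj_symm h2))

theorem not_ltj_of_eqj {j : S.I} {g h : G} (h1 : S.eqj j g h) : ¬ S.ltj j g h := by
  rintro ⟨i, h2, h3, _⟩
  have h4 : S.lev (g⁻¹ * h) < (j : WithBot S.I) := h1
  rw [h3] at h4
  exact absurd (WithBot.coe_lt_coe.1 h4) (not_lt.2 h2)

theorem not_ltj_of_ltj {j : S.I} {g h : G} (h1 : S.ltj j g h) : ¬ S.ltj j h g := by
  exact fun h2 => S.lt_asymm (S.ltj_lt h1) (S.ltj_lt h2)

theorem ltj_left {j : S.I} {g h : G} (b : G) (h1 : S.ltj j g h) : S.ltj j (b * g) (b * h) := by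
  show S.posj j _
  rw [cancl]
  exact h1

theorem eqj_left {j : S.I} {g h : G} (b : G) (h1 : S.eqj j g h) : S.eqj j (b * g) (b * h) := by
  show S.lev ((b * g)⁻¹ * (b * h)) < (j : WithBot S.I)
  rw [cancl]
  exact h1

/-- an element of positive degree at level `i` moves `k` up, by more than the elements of level
`< i` -/
theorem ltj_of_deg_pos {k b : G} {i j : S.I} (hb : b ∈ S.Le k i) (hd : 0 < S.deg k i b)
    (hj : j ≤ i) : S.ltj j k (b * k) := by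
  have e : k⁻¹ * (b * k) = k⁻¹ * b * k := by group
  show S.posj j _
  rw [e]
  exact ⟨i, hj, S.lev_eq_of_tau hb (ne_of_gt hd), hd⟩

theorem ltj_of_deg_neg {k b : G} {i j : S.I} (hb : b ∈ S.Le k i) (hd : S.deg k i b < 0)
    (hj : j ≤ i) : S.ltj j (b * k) k := by
  have e : (b * k)⁻¹ * k = (k⁻¹ * b * k)⁻¹ := by group
  show S.posj j _
  rw [e]
  have h1 : S.lev (k⁻¹ * b * k) = (i : WithBot S.I) := S.lev_eq_of_tau hb (ne_of_lt hd)
  refine ⟨i, hj, by rw [S.lev_inv]; exact h1, ?_⟩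
  rw [S.tau_inv hb]
  have hd' : S.τ i (k⁻¹ * b * k) < 0 := hd
  linarith

theorem eqj_of_mem_Lt {k b : G} {j : S.I} (hb : b ∈ S.Lt k j) : S.eqj j k (b * k) := by
  have e : k⁻¹ * (b * k) = k⁻¹ * b * k := by group
  show S.lev (k⁻¹ * (b * k)) < (j : WithBot S.I)
  rw [e]
  exact hb

theorem mem_Lt_of_eqj {k b : G} {j : S.I} (hb : S.eqj j k (b * k)) : b ∈ S.Lt k j := by
  have e : k⁻¹ * (b * k) = k⁻¹ * b * k := by group
  have h1 : S.lev (k⁻¹ * (b * k)) < (j : WithBot S.I) := hb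
  rw [e] at h1
  exact h1

end ConradSys

end Pool.Agent.HFT
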