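import Pool.Agent.HFT.HFb
import Pool.Agent.HFT.Lev

/-! # HFT/HFt: Hughes-free division rings are free along every Conradian system (helper49)

PROOF. `jfHF` : apply `hf_char` to `A0` with `N := {b : A0 | j b ∈ S.Le k i}` (the subgroup
`(S.Le k i).comap j`), `τ b := ofAdd (S.deg k i (j b))` (`S.deg_mul`; `deg_one`), the elements
`a' l := (ofInjective hj).symm (a l)` and the `c l`: the elements `αHF b = φ (single b' 1)` with
`b ∈ j.range`, `b ∈ S.Lt k i`, satisfy `τ b' = 1` (`deg_zero_iff`, `Lt_le_Le`), and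
`ρHF r = φ (single 1 r)`; so `Subfield.closure` of `range ρ ∪ {αHF b}` is contained in
the closure of the set in `hf_char` (`Subfield.closure_mono`). -/

set_option autoImplicit false

universe u w

namespace Pool.Agent.HFT

variable {G : Type u} [Group G] {R : Type u} [DivisionRing R] {A0 : Type u} [Group A0]
  {D : Type w} [DivisionRing D]

/-- the embedding of the image of a subgroup `A0` of `G` in the Hughes-free division ring -/
noncomputable def αHF {j : A0 →* G} (hj : Function.Injective j) (φ : MonoidAlgebra R A0 →+* D) :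
    j.range →* D :=
  ((φ : MonoidAlgebra R A0 →* D).comp (MonoidAlgebra.of R A0)).comp
    (MonoidHom.ofInjective hj).symm.toMonoidHom

/-- the embedding of `R` -/
noncomputable def ρHF (φ : MonoidAlgebra R A0 →+* D) : R →+* D :=
  φ.comp MonoidAlgebra.singleOneRingHom

theorem αHF_apply {j : A0 →* G} (hj : Function.Injective j) (φ : MonoidAlgebra R A0 →+* D)
    (b : A0) : αHF hj φ ⟨j b, ⟨b, rfl⟩⟩ = φ (MonoidAlgebra.single b 1) := by
  have h1 : (MonoidHom.ofInjective hj).symm ⟨j b, ⟨b, rfl⟩⟩ = b := by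
    rw [MulEquiv.symm_apply_eq]
    exact Subtype.ext rfl
  show φ (MonoidAlgebra.of R A0 ((MonoidHom.ofInjective hj).symm ⟨j b, ⟨b, rfl⟩⟩)) = _
  rw [h1]
  rfl

theorem ρHF_apply (φ : MonoidAlgebra R A0 →+* D) (r : R) :
    ρHF φ r = φ (MonoidAlgebra.single 1 r) := rfl

theorem commHF {j : A0 →* G} (hj : Function.Injective j) (φ : MonoidAlgebra R A0 →+* D) (r : R)
    (a : j.range) : ρHF φ r * αHF hj φ a = αHF hj φ a * ρHF φ r := by
  obtain ⟨_, b, rfl⟩ := a
  rw [αHF_apply, ρHF_apply]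
  exact (HFbAux.comm_rho φ b r).symm

theorem jfHF (S : ConradSys G) {j : A0 →* G} (hj : Function.Injective j)
    {φ : MonoidAlgebra R A0 →+* D} (h : HughesFree R A0 D φ) (k : G) (i : S.I) (n : ℕ)
    (a : Fin n → j.range) (c : Fin n → D) (ha : ∀ l, (a l : G) ∈ S.Le k i)
    (hd : Function.Injective (fun l => S.deg k i (a l)))
    (hc : ∀ l, c l ∈ Subfield.closure
      (Set.range (ρHF φ) ∪ {x | ∃ b : j.range, (b : G) ∈ S.Lt k i ∧ αHF hj φ b = x}))
    (hs : ∑ l, αHF hj φ (a l) * c l = 0) : ∀ l, c l = 0 := by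
  have h0 : ∀ l, ∃ b : A0, a l = ⟨j b, ⟨b, rfl⟩⟩ := by
    intro l
    obtain ⟨x, b, hb⟩ := a l
    exact ⟨b, Subtype.ext hb.symm⟩
  choose b hb using h0
  have hbl : ∀ l, j (b l) ∈ S.Le k i := by
    intro l
    have h1 := ha l
    rw [hb l] at h1
    exact h1
  obtain ⟨τ, hτ⟩ : ∃ τ : (S.Le k i).comap j →* Multiplicative ℝ,
      ∀ x, τ x = Multiplicative.ofAdd (S.deg k i (j (x : A0))) :=
    ⟨{ toFun := fun x => Multiplicative.ofAdd (S.deg k i (j (x : A0)))
       map_one' := by
        show Multiplicative.ofAdd (S.deg k i (j 1)) = 1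
        rw [map_one, S.deg_one, ofAdd_zero]
       map_mul' := fun x y => by
        show Multiplicative.ofAdd (S.deg k i (j (x * y : A0))) = _
        rw [map_mul, S.deg_mul (Subgroup.mem_comap.1 x.2) (Subgroup.mem_comap.1 y.2), ofAdd_add] },
      fun _ => rfl⟩
  refine hf_char h ((S.Le k i).comap j) τ (fun l => ⟨b l, hbl l⟩) c ?_ ?_ ?_
  · intro l l' hll
    apply hd
    simp only [hτ] at hll
    have h1 := Multiplicative.ofAdd.injective hll
    simp only [hb]
    exact h1
  · intro l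
    refine Subfield.closure_mono ?_ (hc l)
    rintro x (⟨r, rfl⟩ | ⟨⟨_, b', rfl⟩, hb', rfl⟩)
    · exact ⟨1, r, map_one τ, rfl⟩
    · have h1 : j b' ∈ S.Lt k i := hb'
      refine ⟨⟨b', S.Lt_le_Le k i h1⟩, 1, ?_, αHF_apply hj φ b'⟩
      rw [hτ]
      show Multiplicative.ofAdd (S.deg k i (j b')) = 1
      rw [(S.deg_zero_iff (S.Lt_le_Le k i h1)).2 h1, ofAdd_zero]
  · rw [← hs]
    refine Finset.sum_congr rfl fun l _ => ?_
    rw [hb l, αHF_apply]

/-- the family of one division ring given by a Hughes-free division ring -/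
noncomputable def hfTSet (S : ConradSys G) {j : A0 →* G} (hj : Function.Injective j)
    {φ : MonoidAlgebra R A0 →+* D} (h : HughesFree R A0 D φ) : TSet.{u, w} S R j.range Unit where
  D _ := D
  dr _ := inferInstance
  α _ := αHF hj φ
  ρ _ := ρHF φ
  comm _ r a := commHF hj φ r a
  jf _ k i n a c ha hd hc hs := jfHF S hj h k i n a c ha hd hc hs

end Pool.Agent.HFT
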