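import Pool.Agent.HFT.JFU
import Pool.Agent.HFT.HFt
import Pool.Agent.HFT.CS3

/-! # HFT/Asm: assembly for a one-edge graph of groups (helper49)

WARNING: instance search for `𝒯.D ()` (with a literal `()`) is extremely slow in Mathlib (it goes through
`littleWedderburn` and category theory on `PUnit`); keep the index abstract (`o q : κ q`), as below, or use
`attribute [-instance] littleWedderburn` locally.

PROOF. `pairT`: the family over `C` with the components `(𝒯 q).D (o q)` and `c ↦ (𝒯 q).α (o q) ((w q)⁻¹ c (w q))`.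
`jf` for the component `q`: from `(𝒯 q).jf (o q)` at the position `(w q)⁻¹ k` for the elements
`(w q)⁻¹ (a l) (w q)`: `((w q)⁻¹k)⁻¹ ((w q)⁻¹ a (w q)) ((w q)⁻¹k) = k⁻¹ a k`, so the memberships in `Le`, `Lt` and
the degrees are the same, and the closure for `C` is contained in the one for `A' q`
(`Subfield.closure_mono`).
`asm`: `GData` with `sp := {Vt, DV ν := (𝒯 ν).EC, DC := (pairT ..).EC, s, t, σ := (mor false).mapE,
τ := (mor true).mapE}`, where the family over `C` is `pairT` for `ι := Bool`, `κ q := Unit`, `o q := ()`, the subgroups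
`A (vt s t q)` (`vt s t false = s`, `vt s t true = t`) and `w false = 1`, `w true = tt`,
`αV ν := (𝒯 ν).αE`, `ρV ν := (𝒯 ν).ρE`, `αC := αE`, `ρC := ρE`, `LV ν := (𝒯 ν).leadSys`, `LC := leadSys`,
`commV`, `commC`: `commE`; `σα`, `σρ`, `τα`, `τρ`: `mapE_al`, `mapE_ro` (with `1⁻¹ * c * 1 = c`, `Subtype.ext`);
`σL`, `τL`: `mapE_Ld` (`1⁻¹ * k = k`). The other fields are the hypotheses. Then `GData.hasHF`. -/

set_option autoImplicit false

universe u

namespace Pool.Agent.HFT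

variable {G : Type u} [Group G] {S : ConradSys G} {R : Type u} [DivisionRing R]

/-- conjugation `c ↦ t⁻¹ c t` from `C` to `At` -/
def conjHom (C At : Subgroup G) (tt : G) (hT : ∀ c ∈ C, tt⁻¹ * c * tt ∈ At) : C →* At where
  toFun c := ⟨tt⁻¹ * c * tt, hT c c.2⟩
  map_one' := by ext; simp
  map_mul' a b := by ext; simp [mul_assoc]

section

variable {ι : Type} {A' : ι → Subgroup G} {κ : ι → Type} (𝒯 : ∀ q, TSet.{u, u} S R (A' q) (κ q))
  (o : ∀ q, κ q) (C : Subgroup G) (w : ι → G) (hw : ∀ q, ∀ c ∈ C, (w q)⁻¹ * c * (w q) ∈ A' q)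

theorem pairT_jf (q : ι) (k : G) (i : S.I) (n : ℕ) (a : Fin n → C) (c : Fin n → (𝒯 q).D (o q))
    (ha : ∀ l, (a l : G) ∈ S.Le k i) (hd : Function.Injective (fun l => S.deg k i (a l)))
    (hc : ∀ l, c l ∈ Subfield.closure
      (Set.range ((𝒯 q).ρ (o q)) ∪ {x | ∃ b : C, (b : G) ∈ S.Lt k i ∧
        (((𝒯 q).α (o q)).comp (conjHom C (A' q) (w q) (hw q))) b = x}))
    (hs : ∑ l, (((𝒯 q).α (o q)).comp (conjHom C (A' q) (w q) (hw q))) (a l) * c l = 0) :
    ∀ l, c l = 0 := by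
  have key : ∀ g : G, ((w q)⁻¹ * k)⁻¹ * ((w q)⁻¹ * g * w q) * ((w q)⁻¹ * k) = k⁻¹ * g * k := by
    intro g
    group
  refine (𝒯 q).jf (o q) ((w q)⁻¹ * k) i n (fun l => conjHom C (A' q) (w q) (hw q) (a l)) c
    ?_ ?_ ?_ hs
  · intro l
    show S.lev (((w q)⁻¹ * k)⁻¹ * ((w q)⁻¹ * (a l : G) * w q) * ((w q)⁻¹ * k)) ≤ _
    rw [key]
    exact ha l
  · have h1 : (fun l => S.deg ((w q)⁻¹ * k) i (conjHom C (A' q) (w q) (hw q) (a l) : G)) =
        fun l => S.deg k i (a l) := by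
      funext l
      show S.τ i (((w q)⁻¹ * k)⁻¹ * ((w q)⁻¹ * (a l : G) * w q) * ((w q)⁻¹ * k)) = _
      rw [key]
      rfl
    rw [h1]
    exact hd
  · intro l
    refine Subfield.closure_mono ?_ (hc l)
    rintro x (hx | ⟨b, hb, rfl⟩)
    · exact Or.inl hx
    · refine Or.inr ⟨conjHom C (A' q) (w q) (hw q) b, ?_, rfl⟩
      show S.lev (((w q)⁻¹ * k)⁻¹ * ((w q)⁻¹ * (b : G) * w q) * ((w q)⁻¹ * k)) < _
      rw [key]
      exact hb

/-- the family of the edge group -/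
def pairT : TSet.{u, u} S R C ι where
  D q := (𝒯 q).D (o q)
  dr q := (𝒯 q).dr (o q)
  α q := ((𝒯 q).α (o q)).comp (conjHom C (A' q) (w q) (hw q))
  ρ q := (𝒯 q).ρ (o q)
  comm q r a := (𝒯 q).comm (o q) r _
  jf q k i n a c ha hd hc hs := pairT_jf 𝒯 o C w hw q k i n a c ha hd hc hs

/-- transport between equal components -/
def castHom {κ : Type} {D : κ → Type u} [∀ q, DivisionRing (D q)] {x y : κ} (h : x = y) :
    D x →+* D y := h ▸ RingHom.id (D x)

/-- the morphism to a component -/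
def pairMor [∀ q, Subsingleton (κ q)] (q : ι) : TMor (pairT 𝒯 o C w hw) (𝒯 q) where
  s := w q
  β := conjHom C (A' q) (w q) (hw q)
  hβ _ := rfl
  f _ := q
  ψ x := castHom (D := (𝒯 q).D) (Subsingleton.elim (o q) x)
  hα x a := by
    obtain rfl : o q = x := Subsingleton.elim _ _
    rfl
  hρ x r := by
    obtain rfl : o q = x := Subsingleton.elim _ _
    rfl

end

/-- the vertex type of an end of the edge -/
def vt {Vt : Type} (s t : Vt) (q : Bool) : Vt := cond q t s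

/-- the conjugating element of an end of the edge -/
def vw (tt : G) (q : Bool) : G := cond q tt 1

/-- the data of the one-edge graph of groups -/
private noncomputable def gd {Vt : Type} [Fintype Vt] [DecidableEq Vt] (A : Vt → Subgroup G)
    (𝒯 : ∀ ν, TSet.{u, u} S R (A ν) Unit) (s t : Vt) (C : Subgroup G) (tt : G) (hS : C ≤ A s)
    (hT : ∀ c ∈ C, tt⁻¹ * c * tt ∈ A t)
    (hw : ∀ q, ∀ c ∈ C, (vw tt q)⁻¹ * c * (vw tt q) ∈ A (vt s t q))
    (types : ∀ ν, ν = s ∨ ν = t) (hst : s ≠ t → tt = 1)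
    (hgen : Subgroup.closure (((A s : Set G) ∪ (A t : Set G)) ∪ {tt}) = ⊤)
    (univ : ∀ (H : Type (u + 1)) [Group H] (F : ∀ ν, A ν →* H) (h : H),
      (∀ c : C, F s ⟨c, hS c.2⟩ * h = h * F t ⟨tt⁻¹ * c * tt, hT c c.2⟩) →
      (s ≠ t → h = 1) → ∃ φ : G →* H, (∀ ν (a : A ν), φ a = F ν a) ∧ φ tt = h) :
    GData S R where
  sp :=
    { Vt := Vt
      DV := fun ν => (𝒯 ν).EC
      DC := (pairT (fun q : Bool => 𝒯 (vt s t q)) (fun _ => ()) C (vw tt) hw).EC
      s := s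
      t := t
      σ := (pairMor (fun q : Bool => 𝒯 (vt s t q)) (fun _ => ()) C (vw tt) hw false).mapE
      τ := (pairMor (fun q : Bool => 𝒯 (vt s t q)) (fun _ => ()) C (vw tt) hw true).mapE }
  A := A
  Cc := C
  tt := tt
  hS := hS
  hT := hT
  αV ν := (𝒯 ν).αE
  ρV ν := (𝒯 ν).ρE
  αC := (pairT (fun q : Bool => 𝒯 (vt s t q)) (fun _ => ()) C (vw tt) hw).αE
  ρC := (pairT (fun q : Bool => 𝒯 (vt s t q)) (fun _ => ()) C (vw tt) hw).ρE
  commV ν r a := (𝒯 ν).commE r a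
  commC r a := (pairT (fun q : Bool => 𝒯 (vt s t q)) (fun _ => ()) C (vw tt) hw).commE r a
  LV ν := (𝒯 ν).leadSys
  LC := (pairT (fun q : Bool => 𝒯 (vt s t q)) (fun _ => ()) C (vw tt) hw).leadSys
  σα c := by
    have h1 := (pairMor (fun q : Bool => 𝒯 (vt s t q)) (fun _ => ()) C (vw tt) hw false).mapE_al c
    refine h1.trans ?_
    have h2 : (pairMor (fun q : Bool => 𝒯 (vt s t q)) (fun _ => ()) C (vw tt) hw false).β c =
        (⟨c, hS c.2⟩ : A s) := by
      apply Subtype.ext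
      show (1 : G)⁻¹ * c * 1 = c
      simp
    rw [h2]
    rfl
  σρ r := (pairMor (fun q : Bool => 𝒯 (vt s t q)) (fun _ => ()) C (vw tt) hw false).mapE_ro r
  τα c := (pairMor (fun q : Bool => 𝒯 (vt s t q)) (fun _ => ()) C (vw tt) hw true).mapE_al c
  τρ r := (pairMor (fun q : Bool => 𝒯 (vt s t q)) (fun _ => ()) C (vw tt) hw true).mapE_ro r
  σL {x k h} hL := by
    have h1 := (pairMor (fun q : Bool => 𝒯 (vt s t q)) (fun _ => ()) C (vw tt) hw false).mapE_Ld hL
    have h2 : ∀ g : G,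
        (pairMor (fun q : Bool => 𝒯 (vt s t q)) (fun _ => ()) C (vw tt) hw false).s⁻¹ * g = g := by
      intro g
      show (1 : G)⁻¹ * g = g
      simp
    rw [h2, h2] at h1
    exact h1
  τL {x k h} hL :=
    (pairMor (fun q : Bool => 𝒯 (vt s t q)) (fun _ => ()) C (vw tt) hw true).mapE_Ld hL
  types := types
  hst := hst
  gen := hgen
  univ := univ

theorem asm {Vt : Type} [Fintype Vt] [DecidableEq Vt] (A : Vt → Subgroup G)
    (𝒯 : ∀ ν, TSet.{u, u} S R (A ν) Unit) (s t : Vt) (C : Subgroup G) (tt : G) (hS : C ≤ A s)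
    (hT : ∀ c ∈ C, tt⁻¹ * c * tt ∈ A t) (types : ∀ ν, ν = s ∨ ν = t) (hst : s ≠ t → tt = 1)
    (hgen : Subgroup.closure (((A s : Set G) ∪ (A t : Set G)) ∪ {tt}) = ⊤)
    (univ : ∀ (H : Type (u + 1)) [Group H] (F : ∀ ν, A ν →* H) (h : H),
      (∀ c : C, F s ⟨c, hS c.2⟩ * h = h * F t ⟨tt⁻¹ * c * tt, hT c c.2⟩) →
      (s ≠ t → h = 1) → ∃ φ : G →* H, (∀ ν (a : A ν), φ a = F ν a) ∧ φ tt = h) :
    HasHF R G := by
  have hw : ∀ q, ∀ c ∈ C, (vw tt q)⁻¹ * c * (vw tt q) ∈ A (vt s t q) := by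
    intro q c hc
    cases q
    · have h1 : (vw tt false)⁻¹ * c * (vw tt false) = c := by
        show (1 : G)⁻¹ * c * 1 = c
        simp
      rw [h1]
      exact hS hc
    · exact hT c hc
  exact (gd A 𝒯 s t C tt hS hT hw types hst hgen univ).hasHF

end Pool.Agent.HFT
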