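import Pool.Agent.HFT.Asm

/-! # HFT/AsmA: amalgams (helper49)

PROOF. `G := Monoid.PushoutI φ`, `of i : K i →* G` injective (`Monoid.PushoutI.of_injective`). Let `S` be a
Conradian system on `G` (`exists_conradSys`). For every `i : Bool` take `D i`, `φ_i` from
`HasHF R (K i)` and `𝒯 i := hfTSet S (of_injective i) h_i : TSet S R (of i).range Unit`. Apply `asm` with
`Vt := Bool`, `A i := (of i).range`, `s := false`, `t := true`, `C := (base φ).range`
(`Monoid.PushoutI.base`; `(of i).comp (φ i) = base`, `Monoid.PushoutI.of_comp_eq_base`), `tt := 1`.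
`gen`: the images of the `K i` generate `G` (`Monoid.PushoutI.induction_on`). `univ`: given `F` and `h = 1`
take `Monoid.PushoutI.lift (fun i => (F i).comp (of i).rangeRestrict) (k) _` with
`k := (F false).comp (base restricted to the range of of false)`; the compatibility for
`i = true` is the relation for `c = base x`, `h = 1`, `tt = 1`. -/

set_option autoImplicit false

universe u

namespace Pool.Agent.HFT

theorem hasHF_amalgam {R : Type u} [DivisionRing R] {H : Type u} [Group H] {K : Bool → Type u}
    [∀ i, Group (K i)] (φ : ∀ i, H →* K i) (hφ : ∀ i, Function.Injective (φ i))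
    (hG : LocIndic (Monoid.PushoutI φ)) (hK : ∀ i, HasHF R (K i)) :
    HasHF R (Monoid.PushoutI φ) := by
  obtain ⟨S⟩ := exists_conradSys hG
  choose D dr ψ hψ using hK
  have hbase : ∀ (i : Bool) (x : H), (Monoid.PushoutI.base φ x : Monoid.PushoutI φ) =
      Monoid.PushoutI.of i (φ i x) := fun i x => (Monoid.PushoutI.of_apply_eq_base φ i x).symm
  have hmem : ∀ (i : Bool), (Monoid.PushoutI.base φ).range ≤
      (Monoid.PushoutI.of (φ := φ) i).range := by
    rintro i _ ⟨x, rfl⟩
    exact ⟨φ i x, (hbase i x).symm⟩
  have hconj : ∀ c ∈ (Monoid.PushoutI.base φ).range,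
      (1 : Monoid.PushoutI φ)⁻¹ * c * 1 ∈ (Monoid.PushoutI.of (φ := φ) true).range := by
    intro c hc
    rw [inv_one, one_mul, mul_one]
    exact hmem true hc
  refine asm (Vt := Bool) (S := S) (R := R)
    (fun i => (Monoid.PushoutI.of (φ := φ) i).range)
    (fun i => hfTSet S (Monoid.PushoutI.of_injective hφ i) (hψ i)) false true
    (Monoid.PushoutI.base φ).range 1 (hmem false) hconj
    (fun ν => by cases ν <;> simp) (fun _ => rfl) ?_ ?_
  · rw [eq_top_iff]
    intro x _
    induction x using Monoid.PushoutI.induction_on with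
    | of i g =>
      cases i
      · exact Subgroup.subset_closure (Or.inl (Or.inl ⟨g, rfl⟩))
      · exact Subgroup.subset_closure (Or.inl (Or.inr ⟨g, rfl⟩))
    | base h =>
      rw [hbase false]
      exact Subgroup.subset_closure (Or.inl (Or.inl ⟨_, rfl⟩))
    | mul x y hx hy => exact Subgroup.mul_mem _ (hx trivial) (hy trivial)
  · intro H' _ F h hF hh
    have h1 : h = 1 := hh (by simp)
    subst h1
    have hk : ∀ i, ((F i).comp (Monoid.PushoutI.of (φ := φ) i).rangeRestrict).comp (φ i) =
        ((F false).comp (Monoid.PushoutI.of (φ := φ) false).rangeRestrict).comp (φ false) := by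
      intro i
      cases i
      · rfl
      · ext x
        have h2 := hF ⟨Monoid.PushoutI.base φ x, ⟨x, rfl⟩⟩
        rw [mul_one, one_mul] at h2
        have e1 : (⟨Monoid.PushoutI.base φ x, hmem false ⟨x, rfl⟩⟩ :
            (Monoid.PushoutI.of (φ := φ) false).range) =
            (Monoid.PushoutI.of (φ := φ) false).rangeRestrict (φ false x) :=
          Subtype.ext (hbase false x)
        have e2 : (⟨(1 : Monoid.PushoutI φ)⁻¹ * Monoid.PushoutI.base φ x * 1,
            hconj _ ⟨x, rfl⟩⟩ : (Monoid.PushoutI.of (φ := φ) true).range) =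
            (Monoid.PushoutI.of (φ := φ) true).rangeRestrict (φ true x) := by
          apply Subtype.ext
          show (1 : Monoid.PushoutI φ)⁻¹ * Monoid.PushoutI.base φ x * 1 = _
          rw [inv_one, one_mul, mul_one]
          exact hbase true x
        have h3 : F false ((Monoid.PushoutI.of (φ := φ) false).rangeRestrict (φ false x)) =
            F true ((Monoid.PushoutI.of (φ := φ) true).rangeRestrict (φ true x)) := by
          rw [← e1, ← e2]
          exact h2
        exact h3.symm
    refine ⟨Monoid.PushoutI.lift
      (fun i => (F i).comp (Monoid.PushoutI.of (φ := φ) i).rangeRestrict) _ hk, ?_, ?_⟩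
    · rintro i ⟨_, a, rfl⟩
      exact Monoid.PushoutI.lift_of _ _ hk a
    · rw [map_one]

end Pool.Agent.HFT
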