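import Pool.Agent.HFT.Asm

/-! # HFT/AsmH: HNN extensions (helper49)

PROOF. `G := HNNExtension K A B φ`, `of : K →* G` injective (`HNNExtension.of_injective`), the stable letter
`t` of Mathlib satisfies `t * of a = of (φ a) * t` for `a : A` (`HNNExtension.t_mul_of`), i.e.
`t * of a * t⁻¹ = of (φ a)`. Apply `asm` with `Vt := Unit`, `A () := of.range`, `C := A.map of`, `tt := t⁻¹`:
`tt⁻¹ * of a * tt = t * of a * t⁻¹ = of (φ a)`. `gen`: `HNNExtension.induction_on`. `univ`: given `F () :
of.range →* H`, `h` with `F (of a) * h = h * F (of (φ a))`: `HNNExtension.lift ((F ()).comp of.rangeRestrict) h⁻¹ _`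
(needs `h⁻¹ * f a = f (φ a) * h⁻¹`), and `tt = t⁻¹ ↦ h`. `S` from `exists_conradSys`, the family
`hfTSet S of_injective h_K`. -/

set_option autoImplicit false

universe u

namespace Pool.Agent.HFT

theorem hasHF_hnn {R : Type u} [DivisionRing R] {K : Type u} [Group K] (A B : Subgroup K)
    (φ : A ≃* B) (hG : LocIndic (HNNExtension K A B φ)) (hK : HasHF R K) :
    HasHF R (HNNExtension K A B φ) := by
  obtain ⟨S⟩ := exists_conradSys hG
  obtain ⟨D, _, ψ, hψ⟩ := hK
  have hconj : ∀ c ∈ A.map (HNNExtension.of : K →* HNNExtension K A B φ),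
      ((HNNExtension.t : HNNExtension K A B φ)⁻¹)⁻¹ * c * (HNNExtension.t)⁻¹ ∈
        (HNNExtension.of : K →* HNNExtension K A B φ).range := by
    rintro _ ⟨a, ha, rfl⟩
    refine ⟨(φ ⟨a, ha⟩ : K), ?_⟩
    rw [inv_inv]
    exact HNNExtension.equiv_eq_conj ⟨a, ha⟩
  refine asm (Vt := Unit) (S := S) (R := R)
    (fun _ => (HNNExtension.of : K →* HNNExtension K A B φ).range)
    (fun _ => hfTSet S (HNNExtension.of_injective (A := A) (B := B) φ) hψ) () ()
    (A.map (HNNExtension.of : K →* HNNExtension K A B φ)) (HNNExtension.t)⁻¹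
    (Subgroup.map_le_range _ _) hconj (fun ν => Or.inl rfl) (fun h => absurd rfl h) ?_ ?_
  · rw [eq_top_iff]
    intro x _
    induction x using HNNExtension.induction_on with
    | of g => exact Subgroup.subset_closure (Or.inl (Or.inl ⟨g, rfl⟩))
    | t =>
      have h1 : (HNNExtension.t : HNNExtension K A B φ) = ((HNNExtension.t)⁻¹)⁻¹ :=
        (inv_inv _).symm
      rw [h1]
      exact Subgroup.inv_mem _ (Subgroup.subset_closure (Or.inr rfl))
    | mul x y hx hy => exact Subgroup.mul_mem _ (hx trivial) (hy trivial)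
    | inv x hx => exact Subgroup.inv_mem _ (hx trivial)
  · intro H _ F h hF _
    have hx : ∀ a : A, h⁻¹ * ((F ()).comp
        (HNNExtension.of : K →* HNNExtension K A B φ).rangeRestrict) ↑a =
        ((F ()).comp (HNNExtension.of : K →* HNNExtension K A B φ).rangeRestrict) (φ a : K) *
          h⁻¹ := by
      intro a
      have h1 := hF ⟨HNNExtension.of (a : K), ⟨a, a.2, rfl⟩⟩
      have h2 : (⟨((HNNExtension.t : HNNExtension K A B φ)⁻¹)⁻¹ * HNNExtension.of (a : K) *
          (HNNExtension.t)⁻¹, hconj _ ⟨a, a.2, rfl⟩⟩ :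
          (HNNExtension.of : K →* HNNExtension K A B φ).range) =
          (HNNExtension.of : K →* HNNExtension K A B φ).rangeRestrict (φ a : K) := by
        apply Subtype.ext
        show ((HNNExtension.t : HNNExtension K A B φ)⁻¹)⁻¹ * HNNExtension.of (a : K) *
          (HNNExtension.t)⁻¹ = HNNExtension.of (φ a : K)
        rw [inv_inv]
        exact (HNNExtension.equiv_eq_conj a).symm
      rw [h2] at h1
      have h3 : (F ()) ((HNNExtension.of : K →* HNNExtension K A B φ).rangeRestrict (a : K)) * h =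
          h * (F ()) ((HNNExtension.of : K →* HNNExtension K A B φ).rangeRestrict (φ a : K)) := h1
      rw [MonoidHom.comp_apply, MonoidHom.comp_apply, eq_mul_inv_iff_mul_eq, mul_assoc, h3,
        inv_mul_cancel_left]
    refine ⟨HNNExtension.lift ((F ()).comp
      (HNNExtension.of : K →* HNNExtension K A B φ).rangeRestrict) h⁻¹ hx, ?_, ?_⟩
    · rintro ⟨⟩ ⟨_, a, rfl⟩
      exact HNNExtension.lift_of _ _ hx a
    · rw [map_inv, HNNExtension.lift_t, inv_inv]

end Pool.Agent.HFT
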