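import Pool.Agent.HFT.FinHF

/-! # HFT/BCa: leading coefficients (helper49)

PROOF. `Nrm_coef`: as `Nrm_res` in `TR`, induction on `Nrm T k u`. `scal`: the coefficient is `r`.
`step i u u0`: the induction hypothesis for `u0` gives `r ≠ 0`. Let `n = u - u0`; if `n = 0` nothing to do.
Otherwise `Ld n k l1` (`Ld_ex`) and by `App_lead` `l1 = b k` with `b ∈ Le k i` of positive degree, so `lt k l1`
(`ltj_of_deg_pos`, `ltj_lt`). If `u0 = ro r` then `u - ro r = n`. Otherwise `u - ro r = n + (u0 - ro r)` with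
`Ld (u0 - ro r) k l0`, `lt k l0`. If the sum is zero then `u = ro r`. Otherwise `Ld (u - ro r) k l`, and by
`Ld_add` `l1 ≤ l` or `l0 ≤ l`, so `lt k l` (`lt_trans`).
`Ld_coef`: `h = a k`, `Nrm T k (al a⁻¹ * x)`, multiply with `al a` (`Ld_mul`, `Ld_al`, `lt_left`).
`coefE`: the same in `EC`. -/

set_option autoImplicit false

universe u w

namespace Pool.Agent.HFT

namespace TSet

variable {G : Type u} [Group G] {S : ConradSys G} {R : Type u} [DivisionRing R] {A : Subgroup G}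
  {ι : Type} (𝒯 : TSet.{u, w} S R A ι)

private theorem Gen_sub' {B : Subgroup G} {x y : ∀ q, 𝒯.D q} (hx : 𝒯.Gen B x) (hy : 𝒯.Gen B y) :
    𝒯.Gen B (x - y) := by
  rw [sub_eq_add_neg]
  exact .add _ _ hx (.neg _ hy)

theorem Nrm_coef [Nonempty ι] {k : G} {x : ∀ q, 𝒯.D q} (h : 𝒯.Nrm 𝒯.T k x) (hx : 𝒯.Gen ⊤ x) :
    ∃ r : R, r ≠ 0 ∧ (x = 𝒯.ro r ∨ ∃ l, 𝒯.Ld (x - 𝒯.ro r) k l ∧ S.lt k l) := by
  induction h with
  | scal r hr => exact ⟨r, hr, Or.inl rfl⟩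
  | step i u u0 huc h0 hP _ hA ih =>
    have hu0 : 𝒯.Gen ⊤ u0 := 𝒯.T_gen hP
    obtain ⟨r, hr, hδ'⟩ := ih hu0
    refine ⟨r, hr, ?_⟩
    by_cases hn : u - u0 = 0
    · rw [sub_eq_zero.1 hn]
      exact hδ'
    · have hng : 𝒯.Gen ⊤ (u - u0) := 𝒯.Gen_sub' hx hu0
      obtain ⟨l1, hl1⟩ := 𝒯.Ld_ex hng hn k
      obtain ⟨b, hb1, hb2, hb3⟩ := 𝒯.App_lead hA hl1
      have hj1 : S.lt k l1 := by
        rw [hb1]; exact S.ltj_lt (S.ltj_of_deg_pos hb2 hb3 (le_refl i))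
      rcases hδ' with hδ' | ⟨l0, hl0, hj0⟩
      · right
        refine ⟨l1, ?_, hj1⟩
        rw [← hδ']
        exact hl1
      · by_cases hd : u - 𝒯.ro r = 0
        · left; exact sub_eq_zero.1 hd
        · right
          have hδg : 𝒯.Gen ⊤ (𝒯.ro r) := .ro r
          obtain ⟨l, hl⟩ := 𝒯.Ld_ex (𝒯.Gen_sub' hx hδg) hd k
          refine ⟨l, hl, ?_⟩
          have e : u - 𝒯.ro r = (u - u0) + (u0 - 𝒯.ro r) := by rw [sub_add_sub_cancel]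
          have hl' := hl
          rw [e] at hl'
          have h3 := 𝒯.Ld_add hng (𝒯.Gen_sub' hu0 hδg) hl1 hl0 hl'
          by_cases h4 : S.lt l l1
          · have h5 : ¬ S.lt l l0 := fun h5 => h3 ⟨h4, h5⟩
            rcases S.lt_tri l0 l with h6 | h6 | h6
            · exact S.lt_trans hj0 h6
            · rw [← h6]; exact hj0
            · exact absurd h6 h5
          · rcases S.lt_tri l1 l with h6 | h6 | h6
            · exact S.lt_trans hj1 h6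
            · rw [← h6]; exact hj1
            · exact absurd h6 h4

theorem Ld_coef [Nonempty ι] {k h : G} {x : ∀ q, 𝒯.D q} (hx : 𝒯.Gen ⊤ x) (h1 : 𝒯.Ld x k h) :
    ∃ a : A, h = a * k ∧ ∃ r : R, r ≠ 0 ∧
      (x = 𝒯.al a * 𝒯.ro r ∨ ∃ l, 𝒯.Ld (x - 𝒯.al a * 𝒯.ro r) k l ∧ S.lt h l) := by
  obtain ⟨a, rfl, ha⟩ := h1
  have hg : 𝒯.Gen ⊤ (𝒯.al a⁻¹ * x) := .mul _ _ (.al _ (Subgroup.mem_top _)) hx
  obtain ⟨r, hr, hδ'⟩ := 𝒯.Nrm_coef ha hg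
  refine ⟨a, rfl, r, hr, ?_⟩
  rcases hδ' with h2 | ⟨l, hl, hj⟩
  · left
    rw [← h2, 𝒯.al_mul_inv]
  · right
    refine ⟨a * l, ?_, S.lt_left (a : G) hj⟩
    have e : x - 𝒯.al a * 𝒯.ro r = 𝒯.al a * (𝒯.al a⁻¹ * x - 𝒯.ro r) := by
      rw [mul_sub, 𝒯.al_mul_inv]
    rw [e]
    exact 𝒯.Ld_mul (.al _ (Subgroup.mem_top _)) (𝒯.Gen_sub' hg (.ro r)) hl
      (𝒯.Ld_al a l)

theorem coefE [Nonempty ι] {k h : G} {x : 𝒯.EC} (h1 : 𝒯.leadSys.Ld x k h) :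
    ∃ a : A, h = a * k ∧ ∃ r : R, r ≠ 0 ∧
      (x = 𝒯.αE a * 𝒯.ρE r ∨ ∃ l, 𝒯.leadSys.Ld (x - 𝒯.αE a * 𝒯.ρE r) k l ∧ S.lt h l) := by
  obtain ⟨a, ha, r, hr, h2⟩ := 𝒯.Ld_coef x.gen h1
  refine ⟨a, ha, r, hr, ?_⟩
  rcases h2 with h2 | ⟨l, hl, hl'⟩
  · left
    exact EC.ext' h2
  · right
    exact ⟨l, hl, hl'⟩

end TSet

end Pool.Agent.HFT
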