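import Pool.Agent.HFT.BCa

/-! # HFT/BCb: tensor products of a Hughes-free division ring with division algebras (helper49)

`K` is a field, `𝒯` a family of one division ring for the whole group over `K`, `R` a division algebra over
`K`; `D = 𝒯.EC`. THEOREM: `D ⊗[K] R` has no zero divisors.

PROOF. `central`: `ρE c` commutes with `ρE c'` (`K` is commutative) and `αE a` (`commE`), so with all of `D`
(`Gen` induction, or the centralizer is a division subring; inverses).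
`V k h` is the `K`-subspace of the `y ∈ D` which are zero or have `Ld y k m` with `h < m`: sums by `add` (compare
with the smaller position, `lt_tri`, `lt_trans`), scalars: `c • y = ρE c * y`, `ro`, `mul`.
`HiE k h` is the image of `V k h ⊗ R`, spanned by the `y ⊗ s`.
`LD_ex`: let `b` be a basis of `R` over `K` (`Module.Basis.ofVectorSpace`) and `x = ∑_{j ∈ J} d j ⊗ b j`, a finite sum
with all `d j ≠ 0`, `J ≠ ∅` (every element of a tensor product with a free module). Let `h` be the minimum of the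
positions `l j`, `Ld (d j) k (l j)` (total order `S.lt`). By `coefE` `d j = αE (a j) * ρE (c j) + (higher than l j)`,
`l j = a j k`; for the `j` with `l j = h` all `a j` are the same `a = h k⁻¹`, `c j ≠ 0`. Put `r = ∑_{l j = h} c j • b j ≠ 0`
(`b` is linearly independent). `x - αE a ⊗ r = ∑_{l j = h} (d j - αE a * ρE (c j)) ⊗ b j + ∑_{l j > h} d j ⊗ b j ∈ HiE k h`
(`αE a ⊗ (c • b j) = (αE a * ρE c) ⊗ b j`).
`LD_ne`: if `x = 0` then `αE a ⊗ r ∈ HiE k h`. Let `λ : R → K` be linear with `λ r = 1` (`r ≠ 0`) and apply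
`id ⊗ λ : D ⊗ R → D ⊗ K = D` (`TensorProduct.rid`, `LinearMap.lTensor`), which maps `HiE k h` into `V k h`: so
`αE a ∈ V k h`. But `αE a ≠ 0` and `Ld (αE a) k (a k)`, `a k = h`, contradiction to `lt_irrefl` (`uq`).
`LD_mul`: `x = αE a ⊗ r + x'`, `y = αE b ⊗ s + y'`, `x y = αE (a b) ⊗ (r s) + (αE a ⊗ r) y' + x' (αE b ⊗ s) + x' y'`; for
generators: `αE a * y ∈ V k (a h)` for `y ∈ V k h` (`lt_left`), `y * αE b ∈ V k l` for `y ∈ V (b k) l`, and `y * y' ∈ V k l` for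
`y ∈ V h l`, `y' ∈ V k h` (`Ld y' k m`, `h < m`; `Ld y h n`, `l < n`; `Ld y m n'` has `n < n'` by `mono`).
`no_zero_div`: `y ≠ 0`, `x ≠ 0`: `LD y k h s`, `LD x h l r`, `LD (x * y) k l (r * s)`, `r * s ≠ 0`, so `x * y ≠ 0`. -/

set_option autoImplicit false

universe u w

open scoped TensorProduct

namespace Pool.Agent.HFT

namespace TSet

variable {G : Type u} [Group G] {S : ConradSys G} {K : Type u} [Field K]
  (𝒯 : TSet.{u, w} S K (⊤ : Subgroup G) Unit)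

theorem central (c : K) (x : 𝒯.EC) : 𝒯.ρE c * x = x * 𝒯.ρE c := by
  have hx' : x ∈ Subfield.closure
      (Set.range 𝒯.ρE ∪ {x | ∃ b : (⊤ : Subgroup G), (b : G) ∈ (⊤ : Subgroup G) ∧ 𝒯.αE b = x}) :=
    𝒯.gen_iff.2 x.gen
  show Commute (𝒯.ρE c) x
  induction hx' using Subfield.closure_induction with
  | mem x hx =>
    rcases hx with ⟨r, rfl⟩ | ⟨b, hb, rfl⟩
    · show 𝒯.ρE c * 𝒯.ρE r = 𝒯.ρE r * 𝒯.ρE c
      rw [← map_mul, ← map_mul, mul_comm]
    · exact 𝒯.commE c b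
  | one => exact Commute.one_right _
  | add x y hx hy ihx ihy => exact ihx.add_right ihy
  | neg x hx ihx => exact ihx.neg_right
  | inv x hx ihx => exact ihx.inv_right₀
  | mul x y hx hy ihx ihy => exact ihx.mul_right ihy

noncomputable instance instAlgEC : Algebra K 𝒯.EC := (𝒯.ρE).toAlgebra' (fun c x => 𝒯.central c x)

/-- the elements leading from `k` to a position higher than `h` -/
noncomputable def V (k h : G) : Submodule K 𝒯.EC where
  carrier := {y | y = 0 ∨ ∃ m, 𝒯.leadSys.Ld y k m ∧ S.lt h m}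
  add_mem' := by
    rintro y z (rfl | ⟨m, h1, h2⟩) hz
    · rw [zero_add]; exact hz
    rcases hz with rfl | ⟨n, h3, h4⟩
    · rw [add_zero]; exact Or.inr ⟨m, h1, h2⟩
    by_cases h0 : y + z = 0
    · exact Or.inl h0
    · obtain ⟨l, h5⟩ := 𝒯.leadSys.ex _ h0 k
      refine Or.inr ⟨l, h5, ?_⟩
      have h6 := 𝒯.leadSys.add h1 h3 h5
      rcases S.lt_tri h l with h7 | h7 | h7
      · exact h7
      · subst h7
        exact absurd ⟨h2, h4⟩ h6
      · exact absurd ⟨S.lt_trans h7 h2, S.lt_trans h7 h4⟩ h6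
  zero_mem' := Or.inl rfl
  smul_mem' := by
    rintro c y (rfl | ⟨m, h1, h2⟩)
    · rw [smul_zero]; exact Or.inl rfl
    by_cases hc : c = 0
    · rw [hc, zero_smul]; exact Or.inl rfl
    · refine Or.inr ⟨m, ?_, h2⟩
      have h3 : c • y = 𝒯.ρE c * y := Algebra.smul_def c y
      rw [h3]
      exact 𝒯.leadSys.mul h1 (𝒯.leadSys.ro c m hc)

variable {R : Type u} [DivisionRing R] [Algebra K R]

variable (R) in
/-- the image of `V k h ⊗ R` -/
noncomputable def HiE (k h : G) : Submodule K (𝒯.EC ⊗[K] R) :=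
  Submodule.span K {z | ∃ y ∈ 𝒯.V k h, ∃ s : R, z = y ⊗ₜ[K] s}

/-- `x` leads from `k` to `h` with coefficient `r` -/
def LD (x : 𝒯.EC ⊗[K] R) (k h : G) (r : R) : Prop :=
  ∃ a : (⊤ : Subgroup G), h = a * k ∧ x - (𝒯.αE a) ⊗ₜ[K] r ∈ 𝒯.HiE R k h

variable {𝒯}

private theorem mem_V {k h : G} {y : 𝒯.EC} :
    y ∈ 𝒯.V k h ↔ y = 0 ∨ ∃ m, 𝒯.leadSys.Ld y k m ∧ S.lt h m := Iff.rfl

private theorem tmul_mem {k h : G} {y : 𝒯.EC} (hy : y ∈ 𝒯.V k h) (s : R) :
    y ⊗ₜ[K] s ∈ 𝒯.HiE R k h := Submodule.subset_span ⟨y, hy, s, rfl⟩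

private theorem HiE_map {M : Type*} [AddCommGroup M] [Module K M] {k h : G} (N : Submodule K M)
    (f : 𝒯.EC ⊗[K] R →ₗ[K] M)
    (hf : ∀ y ∈ 𝒯.V k h, ∀ s : R, f (y ⊗ₜ[K] s) ∈ N) {z : 𝒯.EC ⊗[K] R}
    (hz : z ∈ 𝒯.HiE R k h) : f z ∈ N := by
  have h1 : 𝒯.HiE R k h ≤ N.comap f := by
    unfold HiE
    rw [Submodule.span_le]
    rintro z ⟨y, hy, s, rfl⟩
    exact hf y hy s
  exact h1 hz

private theorem exists_min {κ : Type*} [DecidableEq κ] (S : ConradSys G) (s : Finset κ)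
    (hs : s.Nonempty) (f : κ → G) : ∃ i ∈ s, ∀ j ∈ s, f j = f i ∨ S.lt (f i) (f j) := by
  induction s using Finset.induction_on with
  | empty => exact absurd hs (by simp)
  | insert a s ha ih =>
    rcases s.eq_empty_or_nonempty with h0 | h0
    · subst h0
      refine ⟨a, by simp, ?_⟩
      intro j hj
      left
      have : j = a := by simpa using hj
      rw [this]
    · obtain ⟨i, hi, h1⟩ := ih h0
      rcases S.lt_tri (f a) (f i) with h3 | h3 | h3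
      · refine ⟨a, Finset.mem_insert_self _ _, ?_⟩
        intro j hj
        rcases Finset.mem_insert.1 hj with rfl | hj
        · exact Or.inl rfl
        · rcases h1 j hj with h4 | h4
          · right; rw [h4]; exact h3
          · right; exact S.lt_trans h3 h4
      · refine ⟨i, Finset.mem_insert_of_mem hi, ?_⟩
        intro j hj
        rcases Finset.mem_insert.1 hj with rfl | hj
        · exact Or.inl h3
        · exact h1 j hj
      · refine ⟨i, Finset.mem_insert_of_mem hi, ?_⟩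
        intro j hj
        rcases Finset.mem_insert.1 hj with rfl | hj
        · exact Or.inr h3
        · exact h1 j hj

private theorem coefV {y : 𝒯.EC} (hy : y ≠ 0) (k : G) : ∃ a : (⊤ : Subgroup G), ∃ c : K, c ≠ 0 ∧
    𝒯.leadSys.Ld y k (a * k) ∧ y - 𝒯.αE a * 𝒯.ρE c ∈ 𝒯.V k (a * k) := by
  obtain ⟨h, h1⟩ := 𝒯.leadSys.ex y hy k
  obtain ⟨a, h2, c, hc, h3⟩ := 𝒯.coefE h1
  rw [h2] at h1 h3
  refine ⟨a, c, hc, h1, ?_⟩
  rcases h3 with h3 | ⟨l, h3, h4⟩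
  · rw [mem_V]
    left
    rw [sub_eq_zero]
    exact h3
  · exact Or.inr ⟨l, h3, h4⟩

private theorem tmul_smul_eq (a : (⊤ : Subgroup G)) (c : K) (s : R) :
    (𝒯.αE a) ⊗ₜ[K] (c • s) = (𝒯.αE a * 𝒯.ρE c) ⊗ₜ[K] s := by
  rw [← TensorProduct.smul_tmul]
  have h3 : c • 𝒯.αE a = 𝒯.ρE c * 𝒯.αE a := Algebra.smul_def c _
  rw [h3, 𝒯.central]

theorem LD_ex {x : 𝒯.EC ⊗[K] R} (hx : x ≠ 0) (k : G) : ∃ h, ∃ r : R, r ≠ 0 ∧ 𝒯.LD x k h r := by
  classical
  obtain ⟨b, -⟩ : ∃ b : Module.Basis (Module.Basis.ofVectorSpaceIndex K R) K R, True :=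
    ⟨Module.Basis.ofVectorSpace K R, trivial⟩
  obtain ⟨d, hd⟩ := TensorProduct.eq_repr_basis_right b x
  have hne : d.support.Nonempty := by
    rw [Finset.nonempty_iff_ne_empty]
    intro h0
    apply hx
    rw [← hd, Finsupp.sum, h0, Finset.sum_empty]
  have hc : ∀ j : Module.Basis.ofVectorSpaceIndex K R, ∃ a : (⊤ : Subgroup G), ∃ c : K,
      j ∈ d.support → c ≠ 0 ∧ 𝒯.leadSys.Ld (d j) k (a * k) ∧
        d j - 𝒯.αE a * 𝒯.ρE c ∈ 𝒯.V k (a * k) := by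
    intro j
    by_cases hj : j ∈ d.support
    · obtain ⟨a, c, h1⟩ := coefV (Finsupp.mem_support_iff.1 hj) k
      exact ⟨a, c, fun _ => h1⟩
    · exact ⟨1, 1, fun h => absurd h hj⟩
  choose a c hac using hc
  obtain ⟨i, hi, hmin⟩ := exists_min S d.support hne (fun j => (a j : G) * k)
  refine ⟨a i * k, ∑ j ∈ d.support.filter (fun j => (a j : G) * k = a i * k), c j • b j, ?_,
    a i, rfl, ?_⟩
  · intro h0
    have h1 := (linearIndependent_iff'.1 b.linearIndependent) _ _ h0 i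
      (Finset.mem_filter.2 ⟨hi, rfl⟩)
    exact (hac i hi).1 h1
  · rw [← hd, Finsupp.sum, TensorProduct.tmul_sum, Finset.sum_filter, ← Finset.sum_sub_distrib]
    refine Submodule.sum_mem _ ?_
    intro j hj
    by_cases hj2 : (a j : G) * k = a i * k
    · have h2 : a j = a i := Subtype.ext (mul_right_cancel hj2)
      rw [if_pos hj2, tmul_smul_eq, ← TensorProduct.sub_tmul]
      apply tmul_mem
      have h3 := (hac j hj).2.2
      rw [h2] at h3
      exact h3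
    · rw [if_neg hj2, sub_zero]
      apply tmul_mem
      refine Or.inr ⟨_, (hac j hj).2.1, ?_⟩
      rcases hmin j hj with h4 | h4
      · exact absurd h4 hj2
      · exact h4

theorem LD_ne {x : 𝒯.EC ⊗[K] R} {k h : G} {r : R} (hr : r ≠ 0) (h1 : 𝒯.LD x k h r) : x ≠ 0 := by
  rintro rfl
  obtain ⟨a, ha, h2⟩ := h1
  rw [zero_sub, Submodule.neg_mem_iff] at h2
  obtain ⟨φ, hφ⟩ : ∃ φ : Module.Dual K R, φ r ≠ 0 := by
    by_contra hcon
    push Not at hcon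
    exact hr ((Module.forall_dual_apply_eq_zero_iff K r).1 hcon)
  have h3 := HiE_map (𝒯.V k h)
    ((TensorProduct.rid K 𝒯.EC).toLinearMap ∘ₗ LinearMap.lTensor 𝒯.EC φ) (by
      intro y hy s
      have h4 : ((TensorProduct.rid K 𝒯.EC).toLinearMap ∘ₗ LinearMap.lTensor 𝒯.EC φ)
          (y ⊗ₜ[K] s) = φ s • y := by
        simp
      rw [h4]
      exact Submodule.smul_mem _ _ hy) h2
  have h5 : ((TensorProduct.rid K 𝒯.EC).toLinearMap ∘ₗ LinearMap.lTensor 𝒯.EC φ)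
      ((𝒯.αE a) ⊗ₜ[K] r) = φ r • 𝒯.αE a := by
    simp
  rw [h5] at h3
  have h6 : 𝒯.αE a ∈ 𝒯.V k h := by
    have h7 := Submodule.smul_mem _ (φ r)⁻¹ h3
    rwa [smul_smul, inv_mul_cancel₀ hφ, one_smul] at h7
  have h8 := 𝒯.leadSys.al a k
  rcases h6 with h6 | ⟨m, h6, h7⟩
  · exact 𝒯.leadSys.ne h8 h6
  · have h9 := 𝒯.leadSys.uq h6 h8
    rw [h9, ha] at h7
    exact S.lt_irrefl _ h7

theorem LD_mul {x y : 𝒯.EC ⊗[K] R} {k h l : G} {r s : R} (hy : 𝒯.LD y k h s)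
    (hx : 𝒯.LD x h l r) : 𝒯.LD (x * y) k l (r * s) := by
  obtain ⟨b, hb, hy⟩ := hy
  obtain ⟨a, ha, hx⟩ := hx
  refine ⟨a * b, ?_, ?_⟩
  · rw [ha, hb, Subgroup.coe_mul, mul_assoc]
  have e1 : (𝒯.αE (a * b)) ⊗ₜ[K] (r * s) = (𝒯.αE a) ⊗ₜ[K] r * (𝒯.αE b) ⊗ₜ[K] s := by
    rw [Algebra.TensorProduct.tmul_mul_tmul, map_mul]
  obtain ⟨x', hx'⟩ : ∃ x', x' = x - (𝒯.αE a) ⊗ₜ[K] r := ⟨_, rfl⟩
  obtain ⟨y', hy'⟩ : ∃ y', y' = y - (𝒯.αE b) ⊗ₜ[K] s := ⟨_, rfl⟩
  rw [← hx'] at hx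
  rw [← hy'] at hy
  have e2 : x * y - (𝒯.αE (a * b)) ⊗ₜ[K] (r * s) =
      (𝒯.αE a) ⊗ₜ[K] r * y' + x' * (𝒯.αE b) ⊗ₜ[K] s + x' * y' := by
    rw [e1, hx', hy']
    noncomm_ring
  rw [e2]
  refine Submodule.add_mem _ (Submodule.add_mem _ ?_ ?_) ?_
  · refine HiE_map (𝒯.HiE R k l) (LinearMap.mulLeft K ((𝒯.αE a) ⊗ₜ[K] r)) ?_ hy
    intro v hv t
    rw [LinearMap.mulLeft_apply, Algebra.TensorProduct.tmul_mul_tmul]
    apply tmul_mem
    rcases hv with rfl | ⟨m, h1, h2⟩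
    · rw [mul_zero]; exact Or.inl rfl
    · refine Or.inr ⟨a * m, 𝒯.leadSys.mul h1 (𝒯.leadSys.al a m), ?_⟩
      rw [ha]
      exact S.lt_left _ h2
  · refine HiE_map (𝒯.HiE R k l) (LinearMap.mulRight K ((𝒯.αE b) ⊗ₜ[K] s)) ?_ hx
    intro v hv t
    rw [LinearMap.mulRight_apply, Algebra.TensorProduct.tmul_mul_tmul]
    apply tmul_mem
    rcases hv with rfl | ⟨m, h1, h2⟩
    · rw [zero_mul]; exact Or.inl rfl
    · have h3 := 𝒯.leadSys.al b k
      rw [← hb] at h3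
      exact Or.inr ⟨m, 𝒯.leadSys.mul h3 h1, h2⟩
  · refine HiE_map (𝒯.HiE R k l) (LinearMap.mulRight K y') ?_ hx
    intro v hv t
    rw [LinearMap.mulRight_apply]
    refine HiE_map (𝒯.HiE R k l) (LinearMap.mulLeft K (v ⊗ₜ[K] t)) ?_ hy
    intro v' hv' t'
    rw [LinearMap.mulLeft_apply, Algebra.TensorProduct.tmul_mul_tmul]
    apply tmul_mem
    rcases hv with rfl | ⟨n, h1, h2⟩
    · rw [zero_mul]; exact Or.inl rfl
    rcases hv' with rfl | ⟨m, h3, h4⟩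
    · rw [mul_zero]; exact Or.inl rfl
    obtain ⟨n', h5⟩ := 𝒯.leadSys.ex v (𝒯.leadSys.ne h1) m
    exact Or.inr ⟨n', 𝒯.leadSys.mul h3 h5, S.lt_trans h2 (𝒯.leadSys.mono h1 h5 h4)⟩

theorem no_zero_div {x y : 𝒯.EC ⊗[K] R} (hx : x ≠ 0) (hy : y ≠ 0) : x * y ≠ 0 := by
  obtain ⟨h, s, hs, h1⟩ := LD_ex hy 1
  obtain ⟨l, r, hr, h2⟩ := LD_ex hx h
  exact LD_ne (mul_ne_zero hr hs) (LD_mul h1 h2)

end TSet

end Pool.Agent.HFT
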