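import Pool.Agent.HFT.Basic

/-! # HFT/Shr: smallness (helper49)

PROOF. `small_of_hughesFree`: `D = closure (range φ)`; let `Tm` be the inductive type (in `Type u`) of
formal expressions: `el (x : MonoidAlgebra R G)`, `add`, `neg`, `mul`, `inv`; the evaluation
`Tm → D` is surjective, since its range is a division subring containing `range φ`
(`Subfield.closure_le`, or `Subfield.closure_induction`); so `D` is `u`-small (`small_of_surjective`).
`HughesFree.transport`: apply the ring isomorphism `e : D ≃+* D'`: injectivity is clear, the closure of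
`range (e ∘ φ)` is the image of the closure (`RingHom.map_field_closure` or by hand), for the third clause
pull back `d` by `e.symm` (`e.symm` maps the closure of the image set into the closure).
`hasHF_of_hughesFree`: `D' := Shrink.{u} D` with the structure of division ring transported by
`equivShrink D` (`Equiv.divisionRing`, `Equiv.ringEquiv`). -/

set_option autoImplicit false

universe u w w'

namespace Pool.Agent.HFT

variable {R : Type u} [DivisionRing R] {G : Type u} [Group G]

/-- formal rational expressions -/
private inductive Tm (X : Type u) : Type u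
  | el : X → Tm X
  | add : Tm X → Tm X → Tm X
  | neg : Tm X → Tm X
  | mul : Tm X → Tm X → Tm X
  | inv : Tm X → Tm X

private def Tm.eval {X : Type u} {D : Type w} [DivisionRing D] (f : X → D) : Tm X → D
  | .el x => f x
  | .add s t => s.eval f + t.eval f
  | .neg s => -s.eval f
  | .mul s t => s.eval f * t.eval f
  | .inv s => (s.eval f)⁻¹

theorem small_of_hughesFree {D : Type w} [DivisionRing D] {φ : MonoidAlgebra R G →+* D}
    (h : HughesFree R G D φ) : Small.{u} D := by
  have hsurj : Function.Surjective (Tm.eval (fun x : MonoidAlgebra R G => φ x)) := by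
    intro z
    have hz : z ∈ Subfield.closure (Set.range φ) := by
      rw [h.2.1]
      exact Subfield.mem_top z
    induction hz using Subfield.closure_induction with
    | mem x hx =>
      obtain ⟨y, rfl⟩ := hx
      exact ⟨.el y, rfl⟩
    | one => exact ⟨.el 1, map_one φ⟩
    | add x y _ _ ihx ihy =>
      obtain ⟨s, rfl⟩ := ihx
      obtain ⟨t, rfl⟩ := ihy
      exact ⟨.add s t, rfl⟩
    | neg x _ ihx =>
      obtain ⟨s, rfl⟩ := ihx
      exact ⟨.neg s, rfl⟩
    | inv x _ ihx =>
      obtain ⟨s, rfl⟩ := ihx
      exact ⟨.inv s, rfl⟩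
    | mul x y _ _ ihx ihy =>
      obtain ⟨s, rfl⟩ := ihx
      obtain ⟨t, rfl⟩ := ihy
      exact ⟨.mul s t, rfl⟩
  exact small_of_surjective hsurj

theorem HughesFree.transport {D : Type w} [DivisionRing D] {D' : Type w'} [DivisionRing D']
    {φ : MonoidAlgebra R G →+* D} (h : HughesFree R G D φ) (e : D ≃+* D') :
    HughesFree R G D' ((e : D →+* D').comp φ) := by
  obtain ⟨hinj, htop, hfree⟩ := h
  refine ⟨fun x y hxy => hinj (e.injective hxy), ?_, ?_⟩
  · rw [eq_top_iff]
    intro z _
    have h1 : Subfield.closure (Set.range φ) ≤
        (Subfield.closure (Set.range ((e : D →+* D').comp φ))).comap (e : D →+* D') := by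
      rw [Subfield.closure_le]
      rintro x ⟨y, rfl⟩
      exact Subfield.subset_closure ⟨y, rfl⟩
    have h2 : e.symm z ∈ Subfield.closure (Set.range φ) := by
      rw [htop]
      exact Subfield.mem_top _
    have h3 : e (e.symm z) ∈ Subfield.closure (Set.range ((e : D →+* D').comp φ)) := h1 h2
    rwa [e.apply_symm_apply] at h3
  · intro H hH f hf t ht s d hd hsum i hi
    have h1 : ∀ i ∈ s, e.symm (d i) ∈ Subfield.closure
        {x : D | ∃ (n : H) (r : R), f n = 1 ∧ x = φ (MonoidAlgebra.single (n : G) r)} := by
      intro i hi
      have h2 : Subfield.closure {x : D' | ∃ (n : H) (r : R), f n = 1 ∧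
          x = ((e : D →+* D').comp φ) (MonoidAlgebra.single (n : G) r)} ≤
          (Subfield.closure {x : D | ∃ (n : H) (r : R), f n = 1 ∧
            x = φ (MonoidAlgebra.single (n : G) r)}).comap (e.symm : D' →+* D) := by
        rw [Subfield.closure_le]
        rintro x ⟨n, r, hn, rfl⟩
        refine Subfield.subset_closure ⟨n, r, hn, ?_⟩
        exact e.symm_apply_apply _
      exact h2 (hd i hi)
    have h2 : ∑ i ∈ s, e.symm (d i) * (φ (MonoidAlgebra.single (t : G) 1)) ^ i = 0 := by
      have h3 := congrArg e.symm hsum
      rw [map_sum, map_zero] at h3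
      rw [← h3]
      refine Finset.sum_congr rfl fun i _ => ?_
      rw [map_mul, map_zpow₀]
      congr 2
      exact (e.symm_apply_apply _).symm
    have h3 := hfree H hH f hf t ht s (fun i => e.symm (d i)) h1 h2 i hi
    exact (map_eq_zero_iff e.symm e.symm.injective).1 h3

theorem hasHF_of_hughesFree {D : Type w} [DivisionRing D] {φ : MonoidAlgebra R G →+* D}
    (h : HughesFree R G D φ) : HasHF R G := by
  have : Small.{u} D := small_of_hughesFree h
  exact ⟨Shrink.{u} D, inferInstance, _, h.transport (Shrink.ringEquiv D).symm⟩

end Pool.Agent.HFT
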