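import Pool.Agent.HFT.BCb
import Pool.Agent.HFT.Shr
import Pool.Agent.HFT.HFt
import Pool.Agent.HFT.CS3

/-! # HFT/BCc: finite dimensional division algebras as coefficients (helper49)

THEOREM `hasHF_fd`: if `K G` has a Hughes-free division ring and `R` is a division algebra of finite dimension
over the field `K` then `R G` has a Hughes-free division ring.

PROOF. Let `D = 𝒯.EC`, `E = D ⊗[K] R`, `b j` (`j : Fin n`) a basis of `R` over `K`, `n = dim R`. Every element of `E` is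
`∑ j, c j ⊗ b j` with unique `c j ∈ D` (`exists_coord`, `coord_unique`: `Algebra.TensorProduct.basis` gives a basis of
`E` over `D`, or `TensorProduct.piScalarRight` etc.).
`tens B` := the set of the elements with all coordinates in the division subring `gen αE ρE B`; it is closed under
sums, negatives and products (`(c ⊗ b i)(c' ⊗ b j) = (c c') ⊗ (b i b j)`, `b i b j = ∑ γ l • b l`, `γ l ∈ K`, and
`ρE γ ∈ gen B`), contains `1 ⊗ s` and `αE a ⊗ 1` for `a ∈ B`.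
`exists_inv`: let `0 ≠ x ∈ tens B`. The map `(Fin n → Δ) → (Fin n → Δ)`, `Δ = gen αE ρE B`, sending `c` to the coordinates of
`(∑ c j ⊗ b j) * x` is linear for the left action of `Δ` and injective (`no_zero_div`), hence surjective
(`LinearMap.injective_iff_surjective` for finite dimensional spaces over a division ring): there is
`y ∈ tens B` with `y * x = 1`; then `(x * y - 1) * x = 0`, so `x * y = 1`.
`E` is a division ring (`DivisionRing.ofIsUnitOrEqZero`), `φ : R G →+* E`, `single g r ↦ αE g ⊗ r`. It is injective: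
`x = ∑ g, single g (r g)`, `r g = ∑ j, γ g j • b j`, `φ x = ∑ j, (∑ g, αE g * ρE (γ g j)) ⊗ b j`; if it is zero then
`∑ g, αE g * ρE (γ g j) = φE (∑ g, single g (γ g j)) = 0` for all `j`, so all `γ g j = 0` (injectivity of `φE`).
`closure (range φ) = ⊤`: it contains `1 ⊗ R`, `αE g ⊗ 1`, `ρE c ⊗ 1 = 1 ⊗ (c • 1)`; the set of the `d ∈ D` with
`d ⊗ 1` in the closure is a division subring of `D` containing `ρE`, `αE`, so it is everything (`gen_iff` for `⊤`), and
`c ⊗ s = (c ⊗ 1)(1 ⊗ s)`.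
Third clause: let `H, f, t, s, d` be given, `B := f.ker.map H.subtype`. The closure of `{φ (single n r) | n ∈ ker f}` is
contained in `tens B` (`Subfield.closure_induction`: generators, operations, inverses by `exists_inv`). So
`d i = ∑ j, c i j ⊗ b j` with `c i j ∈ gen αE ρE B`, `φ (single t 1) ^ i = αE (t^i) ⊗ 1`, and
`∑ i, d i * φ (single t 1) ^ i = ∑ j, (∑ i, c i j * αE t ^ i) ⊗ b j = 0`, so `∑ i, c i j * αE t ^ i = 0` for all `j`, and
`c i j = 0` by the third clause for `φE` (`hughesFree_φE`; `gen αE ρE B` is the closure of the set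
`{φE (single n r) | n ∈ ker f}`).
`hasHF_fd`: take a Conradian system `S` (`exists_conradSys`) and `𝒯 := hfTSet S (j := id) ..`, a family for
`j.range = ⊤`; to have the type `TSet S K ⊤ Unit` use `exists_tset_top` (transport along `j.range = ⊤`). -/

set_option autoImplicit false

universe u w

open scoped TensorProduct

namespace Pool.Agent.HFT

theorem exists_tset_top {G : Type u} [Group G] (S : ConradSys G) {R : Type u} [DivisionRing R]
    (h : HasHF R G) : Nonempty (TSet.{u, u} S R (⊤ : Subgroup G) Unit) := by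
  obtain ⟨D, _, φ, hφ⟩ := h
  have h1 : Nonempty (TSet.{u, u} S R (MonoidHom.id G).range Unit) :=
    ⟨hfTSet S (j := MonoidHom.id G) (fun _ _ h => h) hφ⟩
  rwa [MonoidHom.range_eq_top_of_surjective (MonoidHom.id G) (fun x => ⟨x, rfl⟩)] at h1

namespace TSet

variable {G : Type u} [Group G] {S : ConradSys G} {K : Type u} [Field K]
  (𝒯 : TSet.{u, w} S K (⊤ : Subgroup G) Unit) {R : Type u} [DivisionRing R] [Algebra K R]
  {n : ℕ} (b : Module.Basis (Fin n) K R)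

theorem exists_coord (x : 𝒯.EC ⊗[K] R) : ∃ c : Fin n → 𝒯.EC, x = ∑ j, c j ⊗ₜ[K] b j := by
  induction x using TensorProduct.induction_on with
  | zero =>
    refine ⟨fun _ => 0, ?_⟩
    simp
  | tmul d r =>
    refine ⟨fun j => b.repr r j • d, ?_⟩
    conv_lhs => rw [← b.sum_repr r]
    rw [TensorProduct.tmul_sum]
    refine Finset.sum_congr rfl fun j _ => ?_
    rw [TensorProduct.smul_tmul]
  | add x y hx hy =>
    obtain ⟨c, hc⟩ := hx
    obtain ⟨c', hc'⟩ := hy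
    refine ⟨fun j => c j + c' j, ?_⟩
    rw [hc, hc', ← Finset.sum_add_distrib]
    refine Finset.sum_congr rfl fun j _ => ?_
    rw [TensorProduct.add_tmul]

private theorem sum_eq (c : Fin n → 𝒯.EC) :
    ∑ j, c j ⊗ₜ[K] b j = ∑ j, c j • Algebra.TensorProduct.basis 𝒯.EC b j := by
  refine Finset.sum_congr rfl fun j _ => ?_
  rw [Algebra.TensorProduct.basis_apply, TensorProduct.smul_tmul', smul_eq_mul, mul_one]

theorem coord_unique {c c' : Fin n → 𝒯.EC} (h : ∑ j, c j ⊗ₜ[K] b j = ∑ j, c' j ⊗ₜ[K] b j) :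
    c = c' := by
  rw [sum_eq, sum_eq] at h
  have h1 := (Algebra.TensorProduct.basis 𝒯.EC b).repr_sum_self c
  have h2 := (Algebra.TensorProduct.basis 𝒯.EC b).repr_sum_self c'
  rw [← h1, ← h2, h]

/-- elements with coordinates generated by `K` and `B` -/
def tens (B : Subgroup G) : Set (𝒯.EC ⊗[K] R) :=
  {x | ∃ c : Fin n → 𝒯.EC, (∀ j, c j ∈ gen 𝒯.αE 𝒯.ρE B) ∧ x = ∑ j, c j ⊗ₜ[K] b j}

private theorem smul_gen {B : Subgroup G} (γ : K) {d : 𝒯.EC} (hd : d ∈ gen 𝒯.αE 𝒯.ρE B) :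
    γ • d ∈ gen 𝒯.αE 𝒯.ρE B := by
  rw [Algebra.smul_def]
  exact mul_mem (Subfield.subset_closure (Or.inl ⟨γ, rfl⟩)) hd

private theorem tens_zero {B : Subgroup G} : (0 : 𝒯.EC ⊗[K] R) ∈ 𝒯.tens b B :=
  ⟨fun _ => 0, fun _ => zero_mem _, by simp⟩

theorem tens_add {B : Subgroup G} {x y : 𝒯.EC ⊗[K] R} (hx : x ∈ 𝒯.tens b B)
    (hy : y ∈ 𝒯.tens b B) : x + y ∈ 𝒯.tens b B := by
  obtain ⟨c, hc, rfl⟩ := hx
  obtain ⟨c', hc', rfl⟩ := hy
  refine ⟨fun j => c j + c' j, fun j => add_mem (hc j) (hc' j), ?_⟩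
  rw [← Finset.sum_add_distrib]
  refine Finset.sum_congr rfl fun j _ => ?_
  rw [TensorProduct.add_tmul]

theorem tens_neg {B : Subgroup G} {x : 𝒯.EC ⊗[K] R} (hx : x ∈ 𝒯.tens b B) :
    -x ∈ 𝒯.tens b B := by
  obtain ⟨c, hc, rfl⟩ := hx
  refine ⟨fun j => - c j, fun j => neg_mem (hc j), ?_⟩
  rw [← Finset.sum_neg_distrib]
  refine Finset.sum_congr rfl fun j _ => ?_
  rw [TensorProduct.neg_tmul]

private theorem tens_tmul {B : Subgroup G} {d : 𝒯.EC} (hd : d ∈ gen 𝒯.αE 𝒯.ρE B) (s : R) :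
    d ⊗ₜ[K] s ∈ 𝒯.tens b B := by
  refine ⟨fun j => b.repr s j • d, fun j => 𝒯.smul_gen _ hd, ?_⟩
  conv_lhs => rw [← b.sum_repr s]
  rw [TensorProduct.tmul_sum]
  refine Finset.sum_congr rfl fun j _ => ?_
  rw [TensorProduct.smul_tmul]

private theorem tens_sum {B : Subgroup G} {κ : Type*} (s : Finset κ) (x : κ → 𝒯.EC ⊗[K] R)
    (hx : ∀ i ∈ s, x i ∈ 𝒯.tens b B) : ∑ i ∈ s, x i ∈ 𝒯.tens b B := by
  classical
  induction s using Finset.induction_on with
  | empty =>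
    rw [Finset.sum_empty]
    exact 𝒯.tens_zero b
  | insert a s ha ih =>
    rw [Finset.sum_insert ha]
    exact 𝒯.tens_add b (hx a (Finset.mem_insert_self a s))
      (ih fun i hi => hx i (Finset.mem_insert_of_mem hi))

theorem tens_mul {B : Subgroup G} {x y : 𝒯.EC ⊗[K] R} (hx : x ∈ 𝒯.tens b B)
    (hy : y ∈ 𝒯.tens b B) : x * y ∈ 𝒯.tens b B := by
  obtain ⟨c, hc, rfl⟩ := hx
  obtain ⟨c', hc', rfl⟩ := hy
  rw [Finset.sum_mul_sum]
  refine 𝒯.tens_sum b _ _ fun i _ => 𝒯.tens_sum b _ _ fun j _ => ?_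
  rw [Algebra.TensorProduct.tmul_mul_tmul]
  exact 𝒯.tens_tmul b (mul_mem (hc i) (hc' j)) _

theorem tens_ro {B : Subgroup G} (s : R) : (1 : 𝒯.EC) ⊗ₜ[K] s ∈ 𝒯.tens b B :=
  𝒯.tens_tmul b (one_mem _) s

theorem tens_al {B : Subgroup G} {a : (⊤ : Subgroup G)} (ha : (a : G) ∈ B) :
    (𝒯.αE a) ⊗ₜ[K] (1 : R) ∈ 𝒯.tens b B :=
  𝒯.tens_tmul b (Subfield.subset_closure (Or.inr ⟨a, ha, rfl⟩)) 1

/-- the coordinates -/
private noncomputable def coo : (𝒯.EC ⊗[K] R) ≃ₗ[𝒯.EC] (Fin n → 𝒯.EC) :=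
  (Algebra.TensorProduct.basis 𝒯.EC b).equivFun

private theorem coo_sum (c : Fin n → 𝒯.EC) : 𝒯.coo b (∑ j, c j ⊗ₜ[K] b j) = c := by
  rw [sum_eq]
  unfold coo
  rw [Module.Basis.equivFun_apply]
  exact (Algebra.TensorProduct.basis 𝒯.EC b).repr_sum_self c

private theorem coo_mem {B : Subgroup G} {x : 𝒯.EC ⊗[K] R} (hx : x ∈ 𝒯.tens b B) (j : Fin n) :
    𝒯.coo b x j ∈ gen 𝒯.αE 𝒯.ρE B := by
  obtain ⟨c, hc, rfl⟩ := hx
  rw [coo_sum]
  exact hc j

theorem exists_inv {B : Subgroup G} {x : 𝒯.EC ⊗[K] R} (hx : x ∈ 𝒯.tens b B) (h0 : x ≠ 0) :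
    ∃ y ∈ 𝒯.tens b B, y * x = 1 ∧ x * y = 1 := by
  have hmem : ∀ c : Fin n → gen 𝒯.αE 𝒯.ρE B,
      (∑ i, (c i : 𝒯.EC) ⊗ₜ[K] b i) ∈ 𝒯.tens b B := fun c =>
    ⟨fun i => (c i : 𝒯.EC), fun i => (c i).2, rfl⟩
  let L : (Fin n → gen 𝒯.αE 𝒯.ρE B) →ₗ[gen 𝒯.αE 𝒯.ρE B] (Fin n → gen 𝒯.αE 𝒯.ρE B) :=
    { toFun := fun c j => ⟨𝒯.coo b ((∑ i, (c i : 𝒯.EC) ⊗ₜ[K] b i) * x) j,
        𝒯.coo_mem b (𝒯.tens_mul b (hmem c) hx) j⟩
      map_add' := by
        intro c c'
        funext j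
        apply Subtype.ext
        show 𝒯.coo b ((∑ i, ((c i : 𝒯.EC) + (c' i : 𝒯.EC)) ⊗ₜ[K] b i) * x) j =
          𝒯.coo b ((∑ i, (c i : 𝒯.EC) ⊗ₜ[K] b i) * x) j +
          𝒯.coo b ((∑ i, (c' i : 𝒯.EC) ⊗ₜ[K] b i) * x) j
        rw [← Pi.add_apply, ← map_add, ← add_mul, ← Finset.sum_add_distrib]
        simp only [TensorProduct.add_tmul]
      map_smul' := by
        intro a c
        funext j
        apply Subtype.ext
        show 𝒯.coo b ((∑ i, ((a : 𝒯.EC) * (c i : 𝒯.EC)) ⊗ₜ[K] b i) * x) j =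
          (a : 𝒯.EC) * 𝒯.coo b ((∑ i, (c i : 𝒯.EC) ⊗ₜ[K] b i) * x) j
        rw [← smul_eq_mul (a : 𝒯.EC) (𝒯.coo b _ j), ← Pi.smul_apply, ← map_smul,
          ← smul_mul_assoc, Finset.smul_sum]
        simp only [TensorProduct.smul_tmul', smul_eq_mul] }
  have hL : ∀ c j, ((L c j : gen 𝒯.αE 𝒯.ρE B) : 𝒯.EC) =
      𝒯.coo b ((∑ i, (c i : 𝒯.EC) ⊗ₜ[K] b i) * x) j := fun c j => rfl
  have hinj : Function.Injective L := by
    rw [← LinearMap.ker_eq_bot, LinearMap.ker_eq_bot']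
    intro c hc
    have h1 : 𝒯.coo b ((∑ i, (c i : 𝒯.EC) ⊗ₜ[K] b i) * x) = 0 := by
      funext j
      rw [← hL, hc]
      rfl
    have h2 : (∑ i, (c i : 𝒯.EC) ⊗ₜ[K] b i) * x = 0 :=
      (LinearEquiv.map_eq_zero_iff _).1 h1
    have h3 : ∑ i, (c i : 𝒯.EC) ⊗ₜ[K] b i = 0 := by
      by_contra h4
      exact no_zero_div h4 h0 h2
    have h4 : (fun i => (c i : 𝒯.EC)) = fun _ => 0 := by
      apply 𝒯.coord_unique b
      rw [h3]
      simp
    funext i
    exact Subtype.ext (congrFun h4 i)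
  obtain ⟨c, hc⟩ := LinearMap.injective_iff_surjective.1 hinj
    (fun j => ⟨𝒯.coo b 1 j, 𝒯.coo_mem b (𝒯.tens_ro b 1) j⟩)
  have h1 : (∑ i, (c i : 𝒯.EC) ⊗ₜ[K] b i) * x = 1 := by
    apply (𝒯.coo b).injective
    funext j
    rw [← hL, hc]
  refine ⟨_, hmem c, h1, ?_⟩
  by_contra h2
  have h3 : x * (∑ i, (c i : 𝒯.EC) ⊗ₜ[K] b i) - 1 ≠ 0 := sub_ne_zero.2 h2
  refine no_zero_div h3 h0 ?_
  rw [sub_mul, mul_assoc, h1, mul_one, one_mul, sub_self]

/-- the ring homomorphism from the group ring -/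
private noncomputable def psi : MonoidAlgebra R G →+* 𝒯.EC ⊗[K] R :=
  MonoidAlgebra.liftNCRingHom
    ((Algebra.TensorProduct.includeRight : R →ₐ[K] 𝒯.EC ⊗[K] R) : R →+* 𝒯.EC ⊗[K] R)
    (((Algebra.TensorProduct.includeLeftRingHom : 𝒯.EC →+* 𝒯.EC ⊗[K] R) :
      𝒯.EC →* 𝒯.EC ⊗[K] R).comp (𝒯.αE.comp (Subgroup.topEquiv.symm.toMonoidHom)))
    (fun r g => by
      show ((1 : 𝒯.EC) ⊗ₜ[K] r) * ((𝒯.αE (Subgroup.topEquiv.symm g)) ⊗ₜ[K] (1 : R)) =
        ((𝒯.αE (Subgroup.topEquiv.symm g)) ⊗ₜ[K] (1 : R)) * ((1 : 𝒯.EC) ⊗ₜ[K] r)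
      rw [Algebra.TensorProduct.tmul_mul_tmul, Algebra.TensorProduct.tmul_mul_tmul, one_mul,
        mul_one, one_mul, mul_one])

private theorem psi_single (g : G) (r : R) :
    𝒯.psi (MonoidAlgebra.single g r) = (𝒯.αE ⟨g, Subgroup.mem_top g⟩) ⊗ₜ[K] r := by
  have h1 : 𝒯.psi (MonoidAlgebra.single g r) = ((1 : 𝒯.EC) ⊗ₜ[K] r) *
      ((𝒯.αE ⟨g, Subgroup.mem_top g⟩) ⊗ₜ[K] (1 : R)) := MonoidAlgebra.liftNC_single _ _ _ _
  rw [h1, Algebra.TensorProduct.tmul_mul_tmul, one_mul, mul_one]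

private theorem smul_eq (γ : K) (x : 𝒯.EC) : γ • x = 𝒯.ρE γ * x := Algebra.smul_def _ _

private theorem φE_single' (g : G) (γ : K) :
    𝒯.φE (MonoidAlgebra.single g γ) = γ • 𝒯.αE ⟨g, Subgroup.mem_top g⟩ := by
  rw [φE_single, smul_eq]

include b in
private theorem psi_injective : Function.Injective (𝒯.psi (R := R)) := by
  classical
  rw [injective_iff_map_eq_zero]
  intro x hx
  have h1 : ∑ g ∈ x.coeff.support, MonoidAlgebra.single g (x.coeff g) = x :=
    MonoidAlgebra.sum_coeff_single x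
  have h2 : ∑ g ∈ x.coeff.support, (𝒯.αE ⟨g, Subgroup.mem_top g⟩) ⊗ₜ[K] (x.coeff g) = 0 := by
    rw [← hx]
    conv_rhs => rw [← h1]
    rw [map_sum]
    exact Finset.sum_congr rfl fun g _ => (𝒯.psi_single g _).symm
  have h3 : ∑ j, (∑ g ∈ x.coeff.support, b.repr (x.coeff g) j •
      𝒯.αE ⟨g, Subgroup.mem_top g⟩) ⊗ₜ[K] b j = ∑ j, (0 : 𝒯.EC) ⊗ₜ[K] b j := by
    have h4 : ∑ j, (0 : 𝒯.EC) ⊗ₜ[K] b j = 0 := by simp
    rw [h4, ← h2]
    simp only [TensorProduct.sum_tmul]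
    rw [Finset.sum_comm]
    refine Finset.sum_congr rfl fun g _ => ?_
    conv_rhs => rw [← b.sum_repr (x.coeff g)]
    rw [TensorProduct.tmul_sum]
    refine Finset.sum_congr rfl fun j _ => ?_
    rw [TensorProduct.smul_tmul]
  have h4 := 𝒯.coord_unique b h3
  by_contra h0
  have h5 : x.coeff.support.Nonempty := by
    rw [Finset.nonempty_iff_ne_empty]
    intro h
    apply h0
    have h3 := Finsupp.support_eq_empty.1 h
    exact MonoidAlgebra.ext (h3.trans rfl)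
  obtain ⟨g0, hg0⟩ := h5
  apply Finsupp.mem_support_iff.1 hg0
  apply b.repr.injective
  rw [map_zero]
  ext j
  have h6 := congrFun h4 j
  have h7 : 𝒯.φE (∑ g ∈ x.coeff.support, MonoidAlgebra.single g (b.repr (x.coeff g) j)) = 0 := by
    rw [map_sum, ← h6]
    exact Finset.sum_congr rfl fun g _ => 𝒯.φE_single' g _
  have h8 := (injective_iff_map_eq_zero 𝒯.φE).1 𝒯.φE_injective _ h7
  have h9 := congrArg (fun z : MonoidAlgebra K G => z.coeff g0) h8
  simp only [MonoidAlgebra.coeff_sum, MonoidAlgebra.coeff_single, Finsupp.finset_sum_apply,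
    Finsupp.single_apply, MonoidAlgebra.coeff_zero, Finsupp.zero_apply] at h9
  rw [Finset.sum_ite_eq' x.coeff.support g0, if_pos hg0] at h9
  rw [h9]
  rfl

include b in
private theorem nontriv : Nontrivial (𝒯.EC ⊗[K] R) := by
  have : Nonempty (Fin n) := b.index_nonempty
  exact (𝒯.coo b).toEquiv.nontrivial

include b in
private theorem unit_or (x : 𝒯.EC ⊗[K] R) : IsUnit x ∨ x = 0 := by
  by_cases h0 : x = 0
  · exact Or.inr h0
  · left
    have hx : x ∈ 𝒯.tens b ⊤ := by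
      obtain ⟨c, hc⟩ := 𝒯.exists_coord b x
      exact ⟨c, fun j => 𝒯.gen_iff.2 (c j).gen, hc⟩
    obtain ⟨y, _, h1, h2⟩ := 𝒯.exists_inv b hx h0
    exact ⟨⟨x, y, h2, h1⟩, rfl⟩

variable {E : Type*} [DivisionRing E] (e : 𝒯.EC ⊗[K] R ≃+* E)

/-- the map to the division ring -/
private noncomputable def inl : 𝒯.EC →+* E :=
  (e : 𝒯.EC ⊗[K] R →+* E).comp Algebra.TensorProduct.includeLeftRingHom

private theorem inl_apply (d : 𝒯.EC) : 𝒯.inl e d = e (d ⊗ₜ[K] 1) := rfl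

include b in
private theorem hughesFree_psi : HughesFree R G E ((e : 𝒯.EC ⊗[K] R →+* E).comp 𝒯.psi) := by
  obtain ⟨φ, hφ⟩ : ∃ φ : MonoidAlgebra R G →+* E, φ = (e : 𝒯.EC ⊗[K] R →+* E).comp 𝒯.psi :=
    ⟨_, rfl⟩
  have hs : ∀ g r, φ (MonoidAlgebra.single g r) =
      e ((𝒯.αE ⟨g, Subgroup.mem_top g⟩) ⊗ₜ[K] r) := by
    intro g r
    rw [← psi_single, hφ]
    rfl
  rw [← hφ]
  refine ⟨?_, ?_, ?_⟩
  · rw [hφ]
    exact e.injective.comp (𝒯.psi_injective b)
  · rw [eq_top_iff]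
    intro x _
    have hr : ∀ r : R, e ((1 : 𝒯.EC) ⊗ₜ[K] r) ∈ Subfield.closure (Set.range φ) := by
      intro r
      refine Subfield.subset_closure ⟨MonoidAlgebra.single 1 r, ?_⟩
      rw [hs]
      have h2 : (⟨1, Subgroup.mem_top 1⟩ : (⊤ : Subgroup G)) = 1 := rfl
      rw [h2, map_one]
    have hl : Subfield.closure (Set.range 𝒯.φE) ≤
        (Subfield.closure (Set.range φ)).comap (𝒯.inl e) := by
      rw [Subfield.closure_le]
      rintro _ ⟨z, rfl⟩
      show 𝒯.inl e (𝒯.φE z) ∈ Subfield.closure (Set.range φ)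
      induction z using MonoidAlgebra.induction_linear with
      | zero =>
        rw [map_zero, map_zero]
        exact zero_mem _
      | add x y hx hy =>
        rw [map_add, map_add]
        exact add_mem hx hy
      | single g γ =>
        refine Subfield.subset_closure ⟨MonoidAlgebra.single g (γ • (1 : R)), ?_⟩
        rw [hs, inl_apply, φE_single', TensorProduct.smul_tmul]
    obtain ⟨c, hc⟩ := 𝒯.exists_coord b (e.symm x)
    have hx : x = ∑ j, 𝒯.inl e (c j) * e ((1 : 𝒯.EC) ⊗ₜ[K] b j) := by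
      rw [← e.apply_symm_apply x, hc, map_sum]
      refine Finset.sum_congr rfl fun j _ => ?_
      rw [inl_apply, ← map_mul, Algebra.TensorProduct.tmul_mul_tmul, one_mul, mul_one]
    rw [hx]
    refine sum_mem fun j _ => mul_mem ?_ (hr _)
    have h1 : c j ∈ Subfield.closure (Set.range 𝒯.φE) := by
      rw [𝒯.closure_φE]
      exact Subfield.mem_top _
    exact hl h1
  · intro H hH f hf t ht s d hd hsum i0 hi0
    obtain ⟨B, hB⟩ : ∃ B : Subgroup G, B = f.ker.map H.subtype := ⟨_, rfl⟩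
    have hcl : ∀ z ∈ Subfield.closure {x : E | ∃ (n : H) (r : R), f n = 1 ∧
        x = φ (MonoidAlgebra.single (n : G) r)}, e.symm z ∈ 𝒯.tens b B := by
      intro z hz
      induction hz using Subfield.closure_induction with
      | mem x hx =>
        obtain ⟨n, r, hn, rfl⟩ := hx
        rw [hs, e.symm_apply_apply]
        refine 𝒯.tens_tmul b (Subfield.subset_closure (Or.inr ⟨_, ?_, rfl⟩)) r
        rw [hB]
        exact ⟨n, hn, rfl⟩
      | one =>
        rw [map_one]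
        exact 𝒯.tens_ro b 1
      | add x y _ _ hx hy =>
        rw [map_add]
        exact 𝒯.tens_add b hx hy
      | neg x _ hx =>
        rw [map_neg]
        exact 𝒯.tens_neg b hx
      | inv x _ hx =>
        by_cases h0 : x = 0
        · rw [h0, inv_zero, map_zero]
          exact 𝒯.tens_zero b
        · have h1 : e.symm x ≠ 0 := fun h => h0 ((map_eq_zero_iff e.symm e.symm.injective).1 h)
          obtain ⟨y, hy, h2, _⟩ := 𝒯.exists_inv b hx h1
          have h3 : e y * x = 1 := by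
            have h4 := congrArg e h2
            rw [map_mul, map_one, e.apply_symm_apply] at h4
            exact h4
          have h4 : x⁻¹ = e y := (eq_inv_of_mul_eq_one_left h3).symm
          rw [h4, e.symm_apply_apply]
          exact hy
      | mul x y _ _ hx hy =>
        rw [map_mul]
        exact 𝒯.tens_mul b hx hy
    have hex : ∀ i, ∃ c : Fin n → 𝒯.EC, i ∈ s → (∀ j, c j ∈ gen 𝒯.αE 𝒯.ρE B) ∧
        d i = e (∑ j, c j ⊗ₜ[K] b j) := by
      intro i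
      by_cases hi : i ∈ s
      · obtain ⟨c, h1, h2⟩ := hcl (d i) (hd i hi)
        exact ⟨c, fun _ => ⟨h1, by rw [← h2, e.apply_symm_apply]⟩⟩
      · exact ⟨fun _ => 0, fun h => absurd h hi⟩
    choose c hc using hex
    have hgen : gen 𝒯.αE 𝒯.ρE B ≤ Subfield.closure {x : 𝒯.EC | ∃ (n : H) (r : K), f n = 1 ∧
        x = 𝒯.φE (MonoidAlgebra.single (n : G) r)} := by
      refine Subfield.closure_le.2 ?_
      rintro y (⟨r, rfl⟩ | ⟨a, ha, rfl⟩)
      · refine Subfield.subset_closure ⟨1, r, map_one f, ?_⟩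
        rw [φE_single]
        have h2 : (⟨((1 : H) : G), Subgroup.mem_top _⟩ : (⊤ : Subgroup G)) = 1 := rfl
        rw [h2, map_one, mul_one]
      · rw [hB] at ha
        obtain ⟨n, hn, h2⟩ := ha
        refine Subfield.subset_closure ⟨n, 1, hn, ?_⟩
        rw [φE_single, map_one, one_mul]
        congr 1
        exact Subtype.ext h2.symm
    have hsum2 : ∑ j, (∑ i ∈ s, c i j * (𝒯.φE (MonoidAlgebra.single (t : G) 1)) ^ i) ⊗ₜ[K] b j =
        ∑ j, (0 : 𝒯.EC) ⊗ₜ[K] b j := by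
      have h4 : ∑ j, (0 : 𝒯.EC) ⊗ₜ[K] b j = 0 := by simp
      rw [h4]
      apply e.injective
      rw [map_zero, ← hsum]
      simp only [TensorProduct.sum_tmul]
      rw [Finset.sum_comm, map_sum]
      refine Finset.sum_congr rfl fun i hi => ?_
      have h5 : φ (MonoidAlgebra.single (t : G) 1) =
          𝒯.inl e (𝒯.φE (MonoidAlgebra.single (t : G) 1)) := by
        rw [hs, inl_apply, φE_single, map_one, one_mul]
      rw [h5, ← map_zpow₀ (𝒯.inl e), (hc i hi).2, inl_apply, ← map_mul, Finset.sum_mul]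
      congr 1
      refine Finset.sum_congr rfl fun j _ => ?_
      rw [Algebra.TensorProduct.tmul_mul_tmul, mul_one]
    have h6 := 𝒯.coord_unique b hsum2
    have h7 : ∀ j, c i0 j = 0 := fun j =>
      𝒯.hughesFree_φE.2.2 H hH f hf t ht s (fun i => c i j) (fun i hi => hgen ((hc i hi).1 j))
        (congrFun h6 j) i0 hi0
    rw [(hc i0 hi0).2]
    simp only [h7]
    simp

end TSet

theorem hasHF_fd {K : Type u} [Field K] {R : Type u} [DivisionRing R] [Algebra K R]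
    [Module.Finite K R] {G : Type u} [Group G] (hG : LocIndic G) (h : HasHF K G) :
    HasHF R G := by
  obtain ⟨S⟩ := exists_conradSys hG
  obtain ⟨𝒯⟩ := exists_tset_top S h
  have : Nontrivial (𝒯.EC ⊗[K] R) := 𝒯.nontriv (Module.finBasis K R)
  let dr : DivisionRing (𝒯.EC ⊗[K] R) :=
    DivisionRing.ofIsUnitOrEqZero (𝒯.unit_or (Module.finBasis K R))
  exact @hasHF_of_hughesFree R _ G _ (𝒯.EC ⊗[K] R) dr _
    (@TSet.hughesFree_psi G _ S K _ 𝒯 R _ _ _ (Module.finBasis K R) (𝒯.EC ⊗[K] R) dr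
      (RingEquiv.refl _))

end Pool.Agent.HFT
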