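import Pool.Agent.HFT.Shr

/-! # HFT/SubHF: subgroups and the trivial group (helper49)

PROOF. `LocIndic.of_injective`: a nontrivial finitely generated subgroup `K` of `H` is isomorphic to its image
`K.map j`, again finitely generated and nontrivial (`Subgroup.equivMapOfInjective`).
`hasHF_of_injective`: let `φ : R G →+* D` be Hughes-free and `j : H →* G` injective.
`φ' := φ ∘ MonoidAlgebra.mapDomainRingHom R j : R H →+* D` is injective (`Finsupp.mapDomain` is injective for
injective `j`). `D' := Subfield.closure (range φ')` with the corestriction of `φ'`; `closure (range ..) = ⊤` in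
`D'`. Third clause: for `K ≤ H` finitely generated, `f : K →* Multiplicative ℤ` surjective, transport to `K.map j`
(`Subgroup.equivMapOfInjective`), and use the clause for `φ`: an element of `D'` in the closure of
`{φ' (single n r)}` in `D'` has image in `D` in the closure of `{φ (single (j n) r)}`
(`Subfield.closure_induction`). `D'` is a subtype of `D : Type u`, so it is in `Type u`.
`hasHF_trivial`: for a group with one element take `D = R`, `φ` = the augmentation
(`MonoidAlgebra.lift..` or `x ↦ x.coeff 1`), an isomorphism; there is no surjective homomorphism from a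
subgroup onto `Multiplicative ℤ`. -/

set_option autoImplicit false

universe u w

namespace Pool.Agent.HFT

private theorem fg_map {G H : Type u} [Group G] [Group H] (j : H →* G) {K : Subgroup H}
    (hK : K.FG) : (K.map j).FG := by
  classical
  obtain ⟨S, hS⟩ := hK
  refine ⟨S.image j, ?_⟩
  rw [← hS, MonoidHom.map_closure, Finset.coe_image]

theorem LocIndic.of_injective {G H : Type u} [Group G] [Group H] (hG : LocIndic G) (j : H →* G)
    (hj : Function.Injective j) : LocIndic H := by
  intro K hK hne
  obtain ⟨f, hf⟩ := hG (K.map j) (fg_map j hK)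
    (fun h => hne ((Subgroup.map_eq_bot_iff_of_injective K hj).1 h))
  exact ⟨f.comp (K.equivMapOfInjective j hj).toMonoidHom,
    hf.comp (K.equivMapOfInjective j hj).surjective⟩

theorem hasHF_of_injective {R : Type u} [DivisionRing R] {G H : Type u} [Group G] [Group H]
    (hG : HasHF R G) (j : H →* G) (hj : Function.Injective j) : HasHF R H := by
  obtain ⟨D, _, φ, h1, h2, h3⟩ := hG
  set φ1 : MonoidAlgebra R H →+* D := φ.comp (MonoidAlgebra.mapDomainRingHom R j) with hφ1
  have hmem : ∀ x, φ1 x ∈ Subfield.closure (Set.range φ1) := fun x =>
    Subfield.subset_closure ⟨x, rfl⟩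
  set φ2 : MonoidAlgebra R H →+* Subfield.closure (Set.range φ1) :=
    φ1.codRestrict (Subfield.closure (Set.range φ1)) hmem with hφ2
  have hval : ∀ x, ((φ2 x : Subfield.closure (Set.range φ1)) : D) = φ1 x := fun x => rfl
  have hsingle : ∀ (n : H) (r : R), φ1 (MonoidAlgebra.single n r) =
      φ (MonoidAlgebra.single (j n) r) := by
    intro n r
    rw [hφ1, RingHom.comp_apply]
    congr 1
    exact MonoidAlgebra.mapDomain_single
  refine ⟨Subfield.closure (Set.range φ1), inferInstance, φ2, ?_, ?_, ?_⟩
  · intro x y hxy
    have h4 : φ1 x = φ1 y := congrArg Subtype.val hxy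
    exact MonoidAlgebra.mapDomain_injective hj (h1 h4)
  · rw [eq_top_iff]
    rintro ⟨x, hx⟩ _
    have h4 : (Subfield.closure (Set.range φ2)).map (Subfield.closure (Set.range φ1)).subtype =
        Subfield.closure (Set.range φ1) := by
      rw [RingHom.map_field_closure, ← Set.range_comp]
      rfl
    have h5 : x ∈ (Subfield.closure (Set.range φ2)).map
        (Subfield.closure (Set.range φ1)).subtype := by
      rw [h4]
      exact hx
    obtain ⟨y, hy, hyx⟩ := Subfield.mem_map.1 h5
    have h6 : y = ⟨x, hx⟩ := Subtype.ext hyx
    rw [← h6]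
    exact hy
  · intro K hK f hf t ht s d hd hsum i hi
    have he : ∀ n : K, ((K.equivMapOfInjective j hj n : K.map j) : G) = j n := fun n =>
      Subgroup.coe_equivMapOfInjective_apply K j hj n
    have h4 := h3 (K.map j) (fg_map j hK) (f.comp (K.equivMapOfInjective j hj).symm.toMonoidHom)
      (hf.comp (K.equivMapOfInjective j hj).symm.surjective) (K.equivMapOfInjective j hj t)
      (by
        show f ((K.equivMapOfInjective j hj).symm (K.equivMapOfInjective j hj t)) = _
        rw [MulEquiv.symm_apply_apply, ht]) s (fun i => ((d i : Subfield.closure _) : D))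
      (by
        intro i hi
        have h5 : ((d i : Subfield.closure (Set.range φ1)) : D) ∈
            (Subfield.closure {x | ∃ (n : K) (r : R), f n = 1 ∧
              x = φ2 (MonoidAlgebra.single (n : H) r)}).map
              (Subfield.closure (Set.range φ1)).subtype :=
          Subfield.mem_map.2 ⟨d i, hd i hi, rfl⟩
        rw [RingHom.map_field_closure] at h5
        refine Subfield.closure_mono ?_ h5
        rintro _ ⟨_, ⟨n, r, hn, rfl⟩, rfl⟩
        refine ⟨K.equivMapOfInjective j hj n, r, ?_, ?_⟩
        · show f ((K.equivMapOfInjective j hj).symm (K.equivMapOfInjective j hj n)) = 1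
          rw [MulEquiv.symm_apply_apply, hn]
        · rw [he]
          exact hsingle n r)
      (by
        have h5 := congrArg (Subfield.closure (Set.range φ1)).subtype hsum
        rw [map_sum, map_zero] at h5
        rw [← h5]
        refine Finset.sum_congr rfl fun i _ => ?_
        rw [map_mul, map_zpow₀, he, ← hsingle]
        rfl) i hi
    exact Subtype.ext h4

theorem hasHF_trivial {R : Type u} [DivisionRing R] {G : Type u} [Group G] [Subsingleton G] :
    HasHF R G := by
  refine ⟨R, inferInstance, (MonoidAlgebra.uniqueRingEquiv G).toRingHom, ?_, ?_, ?_⟩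
  · exact (MonoidAlgebra.uniqueRingEquiv G).injective
  · have h1 : Set.range (MonoidAlgebra.uniqueRingEquiv (R := R) G).toRingHom = Set.univ :=
      (MonoidAlgebra.uniqueRingEquiv (R := R) G).surjective.range_eq
    rw [h1, eq_top_iff]
    intro x _
    exact Subfield.subset_closure (Set.mem_univ x)
  · intro K _ f hf
    obtain ⟨x, hx⟩ := hf (Multiplicative.ofAdd 1)
    have h1 : x = 1 := Subtype.ext (Subsingleton.elim _ _)
    rw [h1, map_one] at hx
    exact absurd (congrArg Multiplicative.toAdd hx) (by decide)

end Pool.Agent.HFT
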