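import Pool.Agent.HFT.AsmH
import Pool.Agent.HFT.SubHF

/-! # HFT/BCd: smaller scalars, direct products with free abelian groups, rational functions (helper49)

PROOF. `hasHF_scalars`: let `φ : R G →+* D` be Hughes-free and `j : R' →+* R` (injective). `φ' := φ ∘ (change of
coefficients)` (`MonoidAlgebra.mapRangeRingHom` or `liftNCRingHom`), injective; `D' := Subfield.closure (range φ')`, a
division ring in `Type u`, with the corestriction of `φ'`. The third clause follows from the one for `φ`: the elements
of the closure of `{φ' (single n r)}` in `D'` map into the closure of `{φ (single n r)}` in `D`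
(`Subfield.closure_induction`).
`locIndic_prod`: let `H ≤ G × Multiplicative ℤ` be finitely generated and nontrivial. If the image of `H` in `G` is
nontrivial it is finitely generated and maps onto `ℤ`. Otherwise the second projection is injective on `H`, its image
is a nontrivial subgroup of `ℤ`, infinite cyclic, and `H` is isomorphic to `ℤ`.
`hasHF_prod_int`: let `E := HNNExtension G ⊤ ⊤ (MulEquiv.refl _)`. The homomorphism
`p : E →* G × Multiplicative ℤ` (`HNNExtension.lift`, `of g ↦ (g, 1)`, `t ↦ (1, ofAdd 1)`) is injective: as `t` commutes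
with all `of g`, every element of `E` is `of g * t ^ n` (`HNNExtension.induction_on`). So `E` is locally indicable
(`LocIndic.of_injective`, `locIndic_prod`) and `HasHF R E` by `hasHF_hnn`. The homomorphism
`(g, n) ↦ of g * t ^ n` from `G × Multiplicative ℤ` to `E` is injective (`p` is a left inverse), so
`hasHF_of_injective` applies. (`ULift`: `G × ULift (Multiplicative ℤ)` embeds in it; the statement is for the group
`G × ULift (Multiplicative ℤ)` in order to be in `Type u`.)
`hasHF_prod_free`: induction on `n`: `G × ULift (Multiplicative (Fin (n+1) → ℤ))` embeds in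
`(G × ULift (Multiplicative (Fin n → ℤ))) × ULift (Multiplicative ℤ)`. For `n = 0` the group embeds in `G`. -/

set_option autoImplicit false

universe u w

namespace Pool.Agent.HFT

variable {G : Type u} [Group G]

private theorem fg_map' {G H : Type u} [Group G] [Group H] (j : H →* G) {K : Subgroup H}
    (hK : K.FG) : (K.map j).FG := by
  classical
  obtain ⟨S, hS⟩ := hK
  refine ⟨S.image j, ?_⟩
  rw [← hS, MonoidHom.map_closure, Finset.coe_image]

theorem hasHF_scalars {R R' : Type u} [DivisionRing R] [DivisionRing R'] (j : R' →+* R)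
    (h : HasHF R G) : HasHF R' G := by
  obtain ⟨D, _, φ, h1, h2, h3⟩ := h
  set φ1 : MonoidAlgebra R' G →+* D := φ.comp (MonoidAlgebra.mapRingHom G j) with hφ1
  have hmem : ∀ x, φ1 x ∈ Subfield.closure (Set.range φ1) := fun x =>
    Subfield.subset_closure ⟨x, rfl⟩
  set φ2 : MonoidAlgebra R' G →+* Subfield.closure (Set.range φ1) :=
    φ1.codRestrict (Subfield.closure (Set.range φ1)) hmem with hφ2
  have hsingle : ∀ (n : G) (r : R'), φ1 (MonoidAlgebra.single n r) =
      φ (MonoidAlgebra.single n (j r)) := by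
    intro n r
    rw [hφ1, RingHom.comp_apply, MonoidAlgebra.mapRingHom_single]
  refine ⟨Subfield.closure (Set.range φ1), inferInstance, φ2, ?_, ?_, ?_⟩
  · intro x y hxy
    have h4 : φ1 x = φ1 y := congrArg Subtype.val hxy
    have h5 : MonoidAlgebra.mapRingHom G j x = MonoidAlgebra.mapRingHom G j y := h1 h4
    ext m
    apply j.injective
    rw [← MonoidAlgebra.coeff_mapRingHom, ← MonoidAlgebra.coeff_mapRingHom, h5]
  · rw [eq_top_iff]
    rintro ⟨x, hx⟩ _
    have h4 : (Subfield.closure (Set.range φ2)).map (Subfield.closure (Set.range φ1)).subtype =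
        Subfield.closure (Set.range φ1) := by
      rw [RingHom.map_field_closure, ← Set.range_comp]
      rfl
    have h5 : x ∈ (Subfield.closure (Set.range φ2)).map
        (Subfield.closure (Set.range φ1)).subtype := by
      rw [h4]
      exact hx
    obtain ⟨y, hy, hyx⟩ := Subfield.mem_map.1 h5
    have h6 : y = ⟨x, hx⟩ := Subtype.ext hyx
    rw [← h6]
    exact hy
  · intro K hK f hf t ht s d hd hsum i hi
    have h4 := h3 K hK f hf t ht s (fun i => ((d i : Subfield.closure _) : D))
      (by
        intro i hi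
        have h5 : ((d i : Subfield.closure (Set.range φ1)) : D) ∈
            (Subfield.closure {x | ∃ (n : K) (r : R'), f n = 1 ∧
              x = φ2 (MonoidAlgebra.single (n : G) r)}).map
              (Subfield.closure (Set.range φ1)).subtype :=
          Subfield.mem_map.2 ⟨d i, hd i hi, rfl⟩
        rw [RingHom.map_field_closure] at h5
        refine Subfield.closure_mono ?_ h5
        rintro _ ⟨_, ⟨n, r, hn, rfl⟩, rfl⟩
        exact ⟨n, j r, hn, hsingle n r⟩)
      (by
        have h5 := congrArg (Subfield.closure (Set.range φ1)).subtype hsum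
        rw [map_sum, map_zero] at h5
        rw [← h5]
        refine Finset.sum_congr rfl fun i _ => ?_
        rw [map_mul, map_zpow₀]
        have h6 : (Subfield.closure (Set.range φ1)).subtype
            (φ2 (MonoidAlgebra.single (t : G) (1 : R'))) =
            φ (MonoidAlgebra.single (t : G) (1 : R)) := by
          have h7 := hsingle (t : G) (1 : R')
          rw [map_one] at h7
          exact h7
        rw [h6]
        rfl) i hi
    exact Subtype.ext h4

private theorem exists_surj {H : Type u} [Group H] (q : H →* Multiplicative ℤ)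
    (hq : ∃ h, q h ≠ 1) : ∃ f : H →* Multiplicative ℤ, Function.Surjective f := by
  let S : AddSubgroup ℤ :=
    { carrier := {z | ∃ h : H, q h = Multiplicative.ofAdd z}
      add_mem' := by
        rintro a b ⟨x, hx⟩ ⟨y, hy⟩
        exact ⟨x * y, by rw [map_mul, hx, hy]; rfl⟩
      zero_mem' := ⟨1, by rw [map_one]; rfl⟩
      neg_mem' := by
        rintro a ⟨x, hx⟩
        exact ⟨x⁻¹, by rw [map_inv, hx]; rfl⟩ }
  obtain ⟨a, ha⟩ := Int.subgroup_cyclic S
  have hdvd : ∀ h : H, a ∣ Multiplicative.toAdd (q h) := by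
    intro h
    have h1 : Multiplicative.toAdd (q h) ∈ S := ⟨h, rfl⟩
    rw [ha, AddSubgroup.mem_closure_singleton] at h1
    obtain ⟨n, hn⟩ := h1
    exact ⟨n, by rw [← hn, smul_eq_mul, mul_comm]⟩
  have haS : a ∈ S := by
    rw [ha]
    exact AddSubgroup.subset_closure (Set.mem_singleton a)
  obtain ⟨h0, hh0⟩ := haS
  have ha0 : a ≠ 0 := by
    rintro rfl
    obtain ⟨h, hh⟩ := hq
    apply hh
    have h1 := hdvd h
    rw [zero_dvd_iff] at h1
    exact Multiplicative.toAdd.injective h1
  refine ⟨MonoidHom.mk' (fun h => Multiplicative.ofAdd (Multiplicative.toAdd (q h) / a)) ?_, ?_⟩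
  · intro x y
    rw [map_mul, toAdd_mul, Int.add_ediv_of_dvd_left (hdvd x), ofAdd_add]
  · intro z
    refine ⟨h0 ^ (Multiplicative.toAdd z), ?_⟩
    show Multiplicative.ofAdd (Multiplicative.toAdd (q (h0 ^ (Multiplicative.toAdd z))) / a) = z
    rw [map_zpow, hh0, toAdd_zpow, toAdd_ofAdd, smul_eq_mul, Int.mul_ediv_cancel _ ha0]
    rfl

theorem locIndic_prod (hG : LocIndic G) : LocIndic (G × ULift.{u} (Multiplicative ℤ)) := by
  intro H hH hne
  set P : (G × ULift.{u} (Multiplicative ℤ)) →* G := MonoidHom.fst _ _ with hP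
  by_cases hK : H.map P = ⊥
  · set Q : (G × ULift.{u} (Multiplicative ℤ)) →* Multiplicative ℤ :=
      (MulEquiv.ulift (α := Multiplicative ℤ)).toMonoidHom.comp (MonoidHom.snd _ _) with hQ
    apply exists_surj (Q.comp H.subtype)
    obtain ⟨x, hx1⟩ := Subgroup.ne_bot_iff_exists_ne_one.1 hne
    refine ⟨x, fun h => hx1 ?_⟩
    have h1 : (x : G × ULift.{u} (Multiplicative ℤ)).1 = 1 := by
      have h2 : P x ∈ H.map P := Subgroup.mem_map_of_mem P x.2
      rw [hK, Subgroup.mem_bot] at h2
      exact h2
    have h2 : (x : G × ULift.{u} (Multiplicative ℤ)).2 = 1 := by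
      apply MulEquiv.ulift.injective
      rw [map_one]
      exact h
    exact Subtype.ext (Prod.ext h1 h2)
  · obtain ⟨f, hf⟩ := hG (H.map P) (fg_map' P hH) hK
    refine ⟨f.comp (P.subgroupMap H), hf.comp (MonoidHom.subgroupMap_surjective P H)⟩

theorem hasHF_prod_int {R : Type u} [DivisionRing R] (hG : LocIndic G) (h : HasHF R G) :
    HasHF R (G × ULift.{u} (Multiplicative ℤ)) := by
  set E := HNNExtension G ⊤ ⊤ (MulEquiv.refl _) with hE
  set of' : G →* E := HNNExtension.of with hof
  set t' : E := HNNExtension.t with ht'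
  have hcomm : ∀ g : G, Commute (of' g) t' := by
    intro g
    have h1 := HNNExtension.t_mul_of (φ := MulEquiv.refl (⊤ : Subgroup G)) ⟨g, trivial⟩
    exact h1.symm
  set τ : G × ULift.{u} (Multiplicative ℤ) := (1, ⟨Multiplicative.ofAdd 1⟩) with hτ
  have hx : ∀ a : (⊤ : Subgroup G), τ * (MonoidHom.inl G (ULift.{u} (Multiplicative ℤ))) ↑a =
      (MonoidHom.inl G (ULift.{u} (Multiplicative ℤ))) (MulEquiv.refl (⊤ : Subgroup G) a : G) *
        τ := by
    intro a
    rw [hτ]
    ext <;> simp
  set p : E →* G × ULift.{u} (Multiplicative ℤ) :=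
    HNNExtension.lift (MonoidHom.inl G (ULift.{u} (Multiplicative ℤ))) τ hx with hp
  have hpof : ∀ g, p (of' g) = (g, 1) := fun g => HNNExtension.lift_of _ _ hx g
  have hpt : p t' = τ := HNNExtension.lift_t _ _ hx
  have hpz : ∀ (g : G) (n : ℤ), p (of' g * t' ^ n) = (g, ⟨Multiplicative.ofAdd n⟩) := by
    intro g n
    rw [map_mul, map_zpow, hpof, hpt, hτ, Prod.pow_mk, Prod.mk_mul_mk, one_zpow, mul_one, one_mul]
    congr 1
    apply ULift.ext
    show (Multiplicative.ofAdd (1 : ℤ)) ^ n = Multiplicative.ofAdd n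
    rw [← ofAdd_zsmul, smul_eq_mul, mul_one]
  have hform : ∀ x : E, ∃ (g : G) (n : ℤ), x = of' g * t' ^ n := by
    intro x
    induction x using HNNExtension.induction_on with
    | of g => exact ⟨g, 0, by rw [zpow_zero, mul_one]⟩
    | t => exact ⟨1, 1, by rw [map_one, one_mul, zpow_one]⟩
    | mul x y hx hy =>
      obtain ⟨g, n, rfl⟩ := hx
      obtain ⟨g', n', rfl⟩ := hy
      refine ⟨g * g', n + n', ?_⟩
      rw [map_mul, zpow_add]
      have h1 : t' ^ n * of' g' = of' g' * t' ^ n := ((hcomm g').zpow_right n).symm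
      rw [mul_assoc, ← mul_assoc (t' ^ n), h1]
      group
    | inv x hx =>
      obtain ⟨g, n, rfl⟩ := hx
      refine ⟨g⁻¹, -n, ?_⟩
      rw [mul_inv_rev, map_inv, zpow_neg]
      exact ((hcomm g).zpow_right n).symm.inv_inv.eq
  have hpinj : Function.Injective p := by
    rw [injective_iff_map_eq_one]
    intro x hx1
    obtain ⟨g, n, rfl⟩ := hform x
    rw [hpz] at hx1
    have h1 : g = 1 := congrArg Prod.fst hx1
    have h2 : Multiplicative.ofAdd n = 1 := congrArg ULift.down (congrArg Prod.snd hx1)
    have h3 : n = 0 := ofAdd_eq_one.1 h2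
    rw [h1, h3, map_one, one_mul, zpow_zero]
  have hEloc : LocIndic E := LocIndic.of_injective (locIndic_prod hG) p hpinj
  have hEHF : HasHF R E := hasHF_hnn ⊤ ⊤ (MulEquiv.refl _) hEloc h
  set q : G × ULift.{u} (Multiplicative ℤ) →* E := MonoidHom.mk'
    (fun x => of' x.1 * t' ^ (Multiplicative.toAdd x.2.down)) (by
      intro x y
      have h1 : t' ^ (Multiplicative.toAdd x.2.down) * of' y.1 =
          of' y.1 * t' ^ (Multiplicative.toAdd x.2.down) := ((hcomm y.1).zpow_right _).symm
      show of' (x.1 * y.1) * t' ^ (Multiplicative.toAdd x.2.down + Multiplicative.toAdd y.2.down) =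
        (of' x.1 * t' ^ (Multiplicative.toAdd x.2.down)) *
          (of' y.1 * t' ^ (Multiplicative.toAdd y.2.down))
      rw [map_mul, zpow_add, mul_assoc (of' x.1) (t' ^ _), ← mul_assoc (t' ^ _) (of' y.1), h1]
      group) with hq
  apply hasHF_of_injective hEHF q
  apply Function.LeftInverse.injective (g := p)
  intro x
  exact hpz x.1 (Multiplicative.toAdd x.2.down)

private theorem prod_free_aux {R : Type u} [DivisionRing R] (hG : LocIndic G) (h : HasHF R G)
    (n : ℕ) : LocIndic (G × ULift.{u} (Multiplicative (Fin n → ℤ))) ∧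
      HasHF R (G × ULift.{u} (Multiplicative (Fin n → ℤ))) := by
  induction n with
  | zero =>
    have hinj : Function.Injective
        (MonoidHom.fst G (ULift.{u} (Multiplicative (Fin 0 → ℤ)))) := by
      rintro ⟨x, ⟨a⟩⟩ ⟨y, ⟨b⟩⟩ hxy
      have h1 : x = y := hxy
      have h2 : a = b := Multiplicative.toAdd.injective (Subsingleton.elim _ _)
      rw [h1, h2]
    exact ⟨LocIndic.of_injective hG _ hinj, hasHF_of_injective h _ hinj⟩
  | succ n ih =>
    let e : G × ULift.{u} (Multiplicative (Fin (n + 1) → ℤ)) →*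
        (G × ULift.{u} (Multiplicative (Fin n → ℤ))) × ULift.{u} (Multiplicative ℤ) :=
      MonoidHom.mk' (fun x => ((x.1, ⟨Multiplicative.ofAdd
        (fun i : Fin n => (Multiplicative.toAdd x.2.down) i.succ)⟩),
        ⟨Multiplicative.ofAdd ((Multiplicative.toAdd x.2.down) 0)⟩)) (fun x y => rfl)
    have hinj : Function.Injective e := by
      rintro ⟨x, ⟨a⟩⟩ ⟨y, ⟨b⟩⟩ hxy
      have h1 : x = y := congrArg (fun z : (G × ULift.{u} (Multiplicative (Fin n → ℤ))) ×
        ULift.{u} (Multiplicative ℤ) => z.1.1) hxy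
      have h2 : (fun i : Fin n => (Multiplicative.toAdd a) i.succ) =
          (fun i : Fin n => (Multiplicative.toAdd b) i.succ) :=
        congrArg (fun z : (G × ULift.{u} (Multiplicative (Fin n → ℤ))) ×
          ULift.{u} (Multiplicative ℤ) => Multiplicative.toAdd z.1.2.down) hxy
      have h3 : (Multiplicative.toAdd a) 0 = (Multiplicative.toAdd b) 0 :=
        congrArg (fun z : (G × ULift.{u} (Multiplicative (Fin n → ℤ))) ×
          ULift.{u} (Multiplicative ℤ) => Multiplicative.toAdd z.2.down) hxy
      have h4 : a = b := by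
        apply Multiplicative.toAdd.injective
        funext i
        refine Fin.cases h3 (fun i => ?_) i
        exact congrFun h2 i
      rw [h1, h4]
    exact ⟨LocIndic.of_injective (locIndic_prod ih.1) e hinj,
      hasHF_of_injective (hasHF_prod_int ih.1 ih.2) e hinj⟩

theorem hasHF_prod_free {R : Type u} [DivisionRing R] (hG : LocIndic G) (h : HasHF R G) (n : ℕ) :
    HasHF R (G × ULift.{u} (Multiplicative (Fin n → ℤ))) :=
  (prod_free_aux hG h n).2

end Pool.Agent.HFT
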