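import Pool.Agent.HFT.Ult
import Pool.Agent.HFT.Shr

/-! # HFT/BCe: local coefficients (helper49)

THEOREM: if every finite subset of the division ring `R` lies in the image of a division ring `R'` (by a ring
homomorphism) such that `R' G` has a Hughes-free division ring then so has `R G`.

PROOF, as for `hasHF_of_local` in `LocHF` (ultraproducts), with the coefficients in place of the group. For a finite
set `F ⊆ R` choose `R_F`, `j_F : R_F →+* R` with `F ⊆ range j_F`, and a Hughes-free `φ_F : R_F G →+* D_F`.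
`𝒰` := an ultrafilter on `Finset R` with `𝒰 ≤ atTop`, `E := UProd 𝒰 D`. `ρ : R →+* E`: the class of the family
`F ↦ φ_F (single 1 r')` if `r = j_F r'` (unique since `j_F` is injective), `0` if `r ∉ range j_F`; additive and multiplicative
because for almost all `F` the elements `r, r', r + r', r r'` (and `1`) are in the range. `α : G →* E`: the class of
`F ↦ φ_F (single g 1)`. They commute, so there is `Φ₀ : R G →+* E`, and for every `x : R G` and almost all `F` the
coefficients of `x` are in the range of `j_F` and `Φ₀ x` is represented at `F` by `φ_F x'`, where `x' : R_F G` is mapped to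
`x`. `D := Subfield.closure (range Φ₀)`. Injective: if `x ≠ 0` then `x' ≠ 0`, `φ_F x' ≠ 0` for almost all `F`.
Third clause: let `H, f, t, s, d` be given. `T` := the set of the families `F ↦ φ_F (single n (r' F))`, with `n ∈ ker f` and
arbitrary `r' F : R_F`; `Φ (single n r)` is the class of such a family. By `mkU_closure` `d i` is the class of a
family `e i` with `e i F ∈ closure {φ_F (single n r') | n ∈ ker f}` for all `F`. For almost all `F`
`∑ i ∈ s, e i F * φ_F (single t 1) ^ i = 0`, so `e i F = 0` for `i ∈ s`, so `d i = 0`. `hasHF_of_hughesFree`. -/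

set_option autoImplicit false

universe u w

namespace Pool.Agent.HFT

open MonoidAlgebra

private theorem mapR_inj {R R' : Type u} [DivisionRing R] [DivisionRing R'] {G : Type u} [Group G]
    (j : R' →+* R) : Function.Injective (mapRingHom G j) := by
  intro x y hxy
  rw [coe_mapRingHom] at hxy
  exact MonoidAlgebra.map_injective (j : R' →+ R) j.injective hxy

private theorem mkU_zpow' {I : Type u} {𝒰 : Ultrafilter I} {D : I → Type w} [∀ i, DivisionRing (D i)]
    (x : ∀ i, D i) (n : ℤ) : (mkU 𝒰 D x) ^ n = mkU 𝒰 D (fun i => x i ^ n) := by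
  have h1 : (fun i => x i ^ n) = x ^ n := rfl
  rw [h1]
  cases n with
  | ofNat n =>
    rw [Int.ofNat_eq_natCast, zpow_natCast, zpow_natCast, map_pow]
  | negSucc n =>
    rw [zpow_negSucc, zpow_negSucc, mkU_inv, map_pow]

theorem hasHF_of_local_scalars {R : Type u} [DivisionRing R] {G : Type u} [Group G]
    (h : ∀ F : Finset R, ∃ (R' : Type u) (_ : DivisionRing R') (j : R' →+* R),
      (∀ x ∈ F, x ∈ Set.range j) ∧ HasHF R' G) : HasHF R G := by
  classical
  choose R' instR j hj hHF using h
  choose D instD φ hφ using hHF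
  let 𝒰 : Ultrafilter (Finset R) := Ultrafilter.of Filter.atTop
  have h𝒰 : ∀ F₀ : Finset R, ∀ᶠ F in (𝒰 : Filter (Finset R)), F₀ ⊆ F := fun F₀ =>
    Ultrafilter.of_le _ (Filter.eventually_ge_atTop F₀)
  have hr : ∀ r : R, ∀ᶠ F in (𝒰 : Filter (Finset R)), ∃ r', j F r' = r := by
    intro r
    filter_upwards [h𝒰 {r}] with F hF
    exact hj F r (hF (Finset.mem_singleton_self r))
  -- every element is eventually in the image
  have hev : ∀ x : MonoidAlgebra R G, ∀ᶠ F in (𝒰 : Filter (Finset R)),
      ∃ x', mapRingHom G (j F) x' = x := by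
    intro x
    refine MonoidAlgebra.induction_linear x ?_ ?_ ?_
    · exact Filter.Eventually.of_forall fun F => ⟨0, map_zero _⟩
    · intro x y hx hy
      filter_upwards [hx, hy] with F hx hy
      obtain ⟨x', hx'⟩ := hx
      obtain ⟨y', hy'⟩ := hy
      exact ⟨x' + y', by rw [map_add, hx', hy']⟩
    · intro g r
      filter_upwards [hr r] with F hF
      obtain ⟨r', hr'⟩ := hF
      exact ⟨single g r', by rw [mapRingHom_single, hr']⟩
  let fam : MonoidAlgebra R G → ∀ F : Finset R, D F := fun x F =>
    if hx : ∃ x', mapRingHom G (j F) x' = x then φ F hx.choose else 0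
  have hfam : ∀ (F : Finset R) (x' : MonoidAlgebra (R' F) G) (x : MonoidAlgebra R G),
      mapRingHom G (j F) x' = x → fam x F = φ F x' := by
    intro F x' x hx
    have hex : ∃ x', mapRingHom G (j F) x' = x := ⟨x', hx⟩
    simp only [fam]
    rw [dif_pos hex]
    congr 1
    exact mapR_inj _ (hex.choose_spec.trans hx.symm)
  let Φ₀ : MonoidAlgebra R G →+* UProd 𝒰 D :=
    { toFun := fun x => mkU 𝒰 D (fam x)
      map_one' := by
        rw [← map_one (mkU 𝒰 D), mkU_eq_iff]
        refine Filter.Eventually.of_forall fun F => ?_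
        rw [hfam F 1 1 (map_one _), map_one]
        rfl
      map_zero' := by
        rw [← map_zero (mkU 𝒰 D), mkU_eq_iff]
        refine Filter.Eventually.of_forall fun F => ?_
        rw [hfam F 0 0 (map_zero _), map_zero]
        rfl
      map_mul' := by
        intro x y
        rw [← map_mul (mkU 𝒰 D), mkU_eq_iff]
        filter_upwards [hev x, hev y] with F hx hy
        obtain ⟨x', hx'⟩ := hx
        obtain ⟨y', hy'⟩ := hy
        rw [hfam F (x' * y') (x * y) (by rw [map_mul, hx', hy']), Pi.mul_apply, hfam F x' x hx',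
          hfam F y' y hy', map_mul]
      map_add' := by
        intro x y
        rw [← map_add (mkU 𝒰 D), mkU_eq_iff]
        filter_upwards [hev x, hev y] with F hx hy
        obtain ⟨x', hx'⟩ := hx
        obtain ⟨y', hy'⟩ := hy
        rw [hfam F (x' + y') (x + y) (by rw [map_add, hx', hy']), Pi.add_apply, hfam F x' x hx',
          hfam F y' y hy', map_add] }
  have hΦ₀ : ∀ x, Φ₀ x = mkU 𝒰 D (fam x) := fun x => rfl
  have hinj : Function.Injective Φ₀ := by
    rw [injective_iff_map_eq_zero]
    intro x hx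
    rw [hΦ₀, ← map_zero (mkU 𝒰 D), mkU_eq_iff] at hx
    obtain ⟨F, hF1, x', hx'⟩ := (hx.and (hev x)).exists
    rw [hfam F x' x hx'] at hF1
    have h1 : x' = 0 := (hφ F).1 (by rw [map_zero]; exact hF1)
    rw [← hx', h1, map_zero]
  let D₀ : Subfield (UProd 𝒰 D) := Subfield.closure (Set.range Φ₀)
  let Φ : MonoidAlgebra R G →+* D₀ :=
    Φ₀.codRestrict D₀ (fun x => Subfield.subset_closure ⟨x, rfl⟩)
  have hΦ : ∀ x, ((Φ x : D₀) : UProd 𝒰 D) = Φ₀ x := fun x => rfl
  refine hasHF_of_hughesFree (D := D₀) (φ := Φ) ⟨?_, ?_, ?_⟩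
  · intro x y hxy
    exact hinj (congrArg Subtype.val hxy)
  · rw [eq_top_iff]
    rintro z -
    have h1 : (z : UProd 𝒰 D) ∈ (Subfield.closure (Set.range Φ)).map D₀.subtype := by
      rw [RingHom.map_field_closure, ← Set.range_comp]
      exact z.2
    obtain ⟨w, hw, hwz⟩ := h1
    have h2 : w = z := Subtype.ext hwz
    rw [← h2]
    exact hw
  · intro H hH f hf t ht s d hd hsum i hi
    let T : Set (∀ F, D F) := {y | ∃ (n : H) (r' : ∀ F, R' F), f n = 1 ∧ y = fun F =>
      φ F (single (n : G) (r' F))}
    have hz : ∀ k ∈ s, ((d k : D₀) : UProd 𝒰 D) ∈ Subfield.closure (mkU 𝒰 D '' T) := by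
      intro k hk
      have h1 : ((d k : D₀) : UProd 𝒰 D) ∈ (Subfield.closure
          {x : D₀ | ∃ (n : H) (r : R), f n = 1 ∧ x = Φ (single (n : G) r)}).map D₀.subtype :=
        ⟨d k, hd k hk, rfl⟩
      rw [RingHom.map_field_closure] at h1
      refine Subfield.closure_mono ?_ h1
      rintro _ ⟨_, ⟨n, r, hn, rfl⟩, rfl⟩
      refine ⟨_, ⟨n, fun F => if hF : ∃ r', j F r' = r then hF.choose else 0, hn, rfl⟩, ?_⟩
      change _ = Φ₀ (single (n : G) r)
      rw [hΦ₀, mkU_eq_iff]
      filter_upwards [hr r] with F hF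
      rw [dif_pos hF, hfam F (single (n : G) hF.choose) _ (by rw [mapRingHom_single, hF.choose_spec])]
    have he : ∀ k, ∃ e : ∀ F, D F, k ∈ s → mkU 𝒰 D e = d k ∧
        ∀ F, e F ∈ Subfield.closure ((fun y : ∀ F, D F => y F) '' T) := by
      intro k
      by_cases hk : k ∈ s
      · obtain ⟨e, he1, he2⟩ := mkU_closure (hz k hk)
        exact ⟨e, fun _ => ⟨he1, he2⟩⟩
      · exact ⟨0, fun hk' => absurd hk' hk⟩
    choose e he using he
    have hsum2 : mkU 𝒰 D (∑ k ∈ s, e k * (fun F => fam (single (t : G) 1) F ^ k)) = mkU 𝒰 D 0 := by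
      rw [map_sum, map_zero]
      have h1 := congrArg D₀.subtype hsum
      rw [map_sum, map_zero] at h1
      rw [← h1]
      refine Finset.sum_congr rfl fun k hk => ?_
      rw [map_mul, (he k hk).1, ← mkU_zpow', map_mul, map_zpow₀]
      rfl
    rw [mkU_eq_iff] at hsum2
    have hfin : ∀ᶠ F in (𝒰 : Filter (Finset R)), e i F = (0 : ∀ F, D F) F := by
      filter_upwards [hsum2] with F hF1
      have hfree := (hφ F).2.2 H hH f hf t ht s (fun k => e k F) (by
          intro k hk
          refine Subfield.closure_mono ?_ ((he k hk).2 F)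
          rintro _ ⟨_, ⟨n, r', hn, rfl⟩, rfl⟩
          exact ⟨n, r' F, hn, rfl⟩) (by
          rw [Finset.sum_apply] at hF1
          refine Eq.trans (Finset.sum_congr rfl fun k hk => ?_) hF1
          rw [Pi.mul_apply]
          congr 2
          exact (hfam F (single (t : G) 1) _ (by rw [mapRingHom_single, map_one])).symm)
      exact hfree i hi
    have h3 : mkU 𝒰 D (e i) = mkU 𝒰 D 0 := mkU_eq_iff.2 hfin
    rw [(he i hi).1, map_zero] at h3
    exact Subtype.ext h3

end Pool.Agent.HFT
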