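import Mathlib

/-! # HFT/BCf: division rings of finite dimension over their centre, locally (helper49)

THEOREM `exists_fd_sub`: let `k` be a field, `R` a division ring with `k` in its centre `Z`, of finite dimension
over `Z`, and `F` a finite subset of `R`. Then `F` lies in the image of a division ring `R'` that is a
finite dimensional algebra over a rational function field `k(x_1, …, x_n)`.

PROOF. `Z := Subring.center R` is a field (Mathlib: `Subring.instField` for the centre of a division ring) and contains
the image of `k`. Let `b_1, …, b_m` be a basis of `R` over `Z` (`m` finite). Let `Σ ⊆ Z` be the finite set of the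
coordinates of all the products `b_i b_j`, of `1` and of the elements of `F`. Let `Z' := IntermediateField.adjoin k Σ ⊆ Z` (`Z` is an
algebra over `k`). There is a subset `X ⊆ Σ` which is a transcendence basis of `Z'` over `k`
(`exists_isTranscendenceBasis_subset` or similar: a maximal algebraically independent subset of `Σ`), finite, say with `n`
elements; `Z'` is algebraic over `K' := IntermediateField.adjoin k X` and generated by finitely many elements, so finite
dimensional over `K'`. `K'` is isomorphic to `FractionRing (MvPolynomial (Fin n) k)`
(`AlgebraicIndependent.aevalEquivField` and a numbering of `X`). Let `R' := ∑ Z' b_i` (the `Z'`-span, a subring of `R` by the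
choice of `Σ`, containing `1` and `F`, and `Z'` in its centre). It is finite dimensional over `Z'`, hence over `K'`, and
it is a domain, so a division ring (left multiplication by a nonzero element is injective, hence surjective). It is an
algebra over `FractionRing (MvPolynomial (Fin n) k)` via the isomorphism with `K'`. -/

set_option autoImplicit false

universe u

namespace Pool.Agent.HFT

/-- A finitely generated field extension is finite over a rational function field. -/
theorem bcf_exists_finite_ratFun (k L : Type u) [Field k] [Field L] [Algebra k L]
    [Algebra.EssFiniteType k L] :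
    ∃ (n : ℕ) (_ : Algebra (FractionRing (MvPolynomial (Fin n) k)) L),
      Module.Finite (FractionRing (MvPolynomial (Fin n) k)) L := by
  classical
  obtain ⟨s, hs⟩ := IntermediateField.fg_top k L
  have halg : Algebra.IsAlgebraic (Algebra.adjoin k (s : Set L)) L := by
    rw [← IntermediateField.isAlgebraic_adjoin_iff_top, hs, Algebra.isAlgebraic_iff_isIntegral]
    exact Algebra.isIntegral_of_surjective IntermediateField.topEquiv.surjective
  obtain ⟨t, hts, ht⟩ := exists_isTranscendenceBasis_subset (R := k) (s : Set L)
  have htf : t.Finite := s.finite_toSet.subset hts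
  have hfin : Finite t := htf
  obtain ⟨n, ⟨e⟩⟩ := Finite.exists_equiv_fin t
  have hx : AlgebraicIndependent k (fun i : Fin n => ((e.symm i : t) : L)) := by
    have := ht.1
    exact this.comp e.symm e.symm.injective
  have hrange : Set.range (fun i : Fin n => ((e.symm i : t) : L)) = t := by
    ext y
    constructor
    · rintro ⟨i, rfl⟩
      exact (e.symm i).2
    · intro hy
      exact ⟨e ⟨y, hy⟩, by simp⟩
  have hfinite : Module.Finite
      (IntermediateField.adjoin k (Set.range (fun i : Fin n => ((e.symm i : t) : L)))) L := by
    rw [hrange]
    apply +allowSynthFailures Algebra.finite_of_essFiniteType_of_isAlgebraic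
    · exact .of_comp k _ _
    · have := ht.isAlgebraic_field
      rwa [Subtype.range_coe] at this
  let f : FractionRing (MvPolynomial (Fin n) k) →+*
      (IntermediateField.adjoin k (Set.range (fun i : Fin n => ((e.symm i : t) : L)))) :=
    (hx.aevalEquivField : _ ≃ₐ[k] _).toAlgHom.toRingHom
  have hf : Function.Surjective f := hx.aevalEquivField.surjective
  refine ⟨n, ((algebraMap (IntermediateField.adjoin k (Set.range (fun i : Fin n => ((e.symm i : t) : L)))) L).comp f).toAlgebra, ?_⟩
  let a1 : Algebra (FractionRing (MvPolynomial (Fin n) k))
    (IntermediateField.adjoin k (Set.range (fun i : Fin n => ((e.symm i : t) : L)))) := f.toAlgebra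
  let a2 : Algebra (FractionRing (MvPolynomial (Fin n) k)) L := ((algebraMap (IntermediateField.adjoin k (Set.range (fun i : Fin n => ((e.symm i : t) : L)))) L).comp f).toAlgebra
  have : IsScalarTower (FractionRing (MvPolynomial (Fin n) k))
    (IntermediateField.adjoin k (Set.range (fun i : Fin n => ((e.symm i : t) : L)))) L :=
    IsScalarTower.of_algebraMap_eq (fun x => rfl)
  have : Module.Finite (FractionRing (MvPolynomial (Fin n) k))
    (IntermediateField.adjoin k (Set.range (fun i : Fin n => ((e.symm i : t) : L)))) := 
    Module.Finite.of_surjective (Algebra.linearMap _ _) hf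
  exact Module.Finite.trans (IntermediateField.adjoin k (Set.range (fun i : Fin n => ((e.symm i : t) : L)))) L


/-- The coordinates of a product. -/
theorem bcf_repr_mul {R : Type u} [DivisionRing R] {m : ℕ}
    (b : Module.Basis (Fin m) (Subring.center R) R) (r s : R) (l : Fin m) :
    b.repr (r * s) l = ∑ i, ∑ j, (b.repr r i * b.repr s j) * b.repr (b i * b j) l := by
  have h : r * s = ∑ i, ∑ j, (b.repr r i * b.repr s j) • (b i * b j) := by
    conv_lhs => rw [← b.sum_repr r, ← b.sum_repr s]
    rw [Finset.sum_mul]
    refine Finset.sum_congr rfl fun i _ => ?_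
    rw [Finset.mul_sum]
    refine Finset.sum_congr rfl fun j _ => ?_
    rw [smul_mul_smul_comm]
  rw [h]
  simp only [map_sum, map_smul, Finsupp.coe_finsetSum, Finset.sum_apply, Finsupp.smul_apply,
    smul_eq_mul]

theorem exists_fd_sub {k : Type u} [Field k] {R : Type u} [DivisionRing R] [Algebra k R]
    (hfin : Module.Finite (Subring.center R) R) (F : Finset R) :
    ∃ (n : ℕ) (R' : Type u) (_ : DivisionRing R')
      (_ : Algebra (FractionRing (MvPolynomial (Fin n) k)) R') (j : R' →+* R),
      Module.Finite (FractionRing (MvPolynomial (Fin n) k)) R' ∧ ∀ x ∈ F, x ∈ Set.range j := by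
  classical
  let φ : k →+* Subring.center R := (algebraMap k R).codRestrict (Subring.center R)
    (fun x => Subring.mem_center_iff.2 (fun g => (Algebra.commutes x g).symm))
  let aZ : Algebra k (Subring.center R) := φ.toAlgebra
  let b := Module.finBasis (Subring.center R) R
  set m := Module.finrank (Subring.center R) R with hm
  let S : Finset (Subring.center R) :=
    (Finset.univ.image (fun p : Fin m × Fin m × Fin m => b.repr (b p.1 * b p.2.1) p.2.2)) ∪
    (Finset.univ.image (fun l : Fin m => b.repr 1 l)) ∪
    (F.biUnion (fun x => Finset.univ.image (fun l : Fin m => b.repr x l)))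
  let L : IntermediateField k (Subring.center R) := IntermediateField.adjoin k (S : Set (Subring.center R))
  have hSL : ∀ z ∈ S, z ∈ L := fun z hz => IntermediateField.subset_adjoin k _ (by exact_mod_cast hz)
  have hmulL : ∀ i j l, b.repr (b i * b j) l ∈ L := fun i j l => hSL _ (by
    simp only [S, Finset.mem_union, Finset.mem_image, Finset.mem_univ, true_and]
    exact Or.inl (Or.inl ⟨(i, j, l), rfl⟩))
  have honeL : ∀ l, b.repr 1 l ∈ L := fun l => hSL _ (by
    simp only [S, Finset.mem_union, Finset.mem_image, Finset.mem_univ, true_and]
    exact Or.inl (Or.inr ⟨l, rfl⟩))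
  have hFL : ∀ x ∈ F, ∀ l, b.repr x l ∈ L := fun x hx l => hSL _ (by
    simp only [S, Finset.mem_union, Finset.mem_biUnion, Finset.mem_image, Finset.mem_univ, true_and]
    exact Or.inr ⟨x, hx, l, rfl⟩)
  let R' : Subring R :=
    { carrier := {r | ∀ l, b.repr r l ∈ L}
      mul_mem' := by
        intro r s hr hs l
        rw [bcf_repr_mul]
        exact sum_mem fun i _ => sum_mem fun j _ => mul_mem (mul_mem (hr i) (hs j)) (hmulL i j l)
      one_mem' := honeL
      add_mem' := by
        intro r s hr hs l
        rw [map_add, Finsupp.add_apply]
        exact add_mem (hr l) (hs l)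
      zero_mem' := by
        intro l
        rw [map_zero, Finsupp.zero_apply]
        exact zero_mem L
      neg_mem' := by
        intro r hr l
        rw [map_neg, Finsupp.neg_apply]
        exact neg_mem (hr l) }
  have hscal : ∀ (z : Subring.center R) (r : R) (l : Fin m), b.repr ((z : R) * r) l = z * b.repr r l := by
    intro z r l
    have : (z : R) * r = z • r := rfl
    rw [this, map_smul, Finsupp.smul_apply, smul_eq_mul]
  have hLR : ∀ z : L, ((z : Subring.center R) : R) ∈ R' := by
    intro z l
    have := hscal (z : Subring.center R) 1 l
    rw [mul_one] at this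
    rw [this]
    exact mul_mem z.2 (honeL l)
  let ψ : L →+* R' := ((Subring.center R).subtype.comp L.val.toRingHom).codRestrict R' hLR
  have hψ : ∀ (z : L) (r : R'), ψ z * r = r * ψ z := by
    intro z r
    apply Subtype.ext
    exact ((Subring.mem_center_iff.1 (z : Subring.center R).2) (r : R)).symm
  let aL : Algebra L R' := RingHom.toAlgebra' ψ hψ
  have hfinL : Module.Finite L R' := by
    let g : R' →ₗ[L] (Fin m → L) :=
      { toFun := fun r l => ⟨b.repr (r : R) l, r.2 l⟩
        map_add' := by
          intro r s
          funext l
          apply Subtype.ext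
          change b.repr ((r : R) + (s : R)) l = b.repr (r : R) l + b.repr (s : R) l
          rw [map_add, Finsupp.add_apply]
        map_smul' := by
          intro z r
          funext l
          apply Subtype.ext
          exact hscal (z : Subring.center R) (r : R) l }
    refine Module.Finite.of_injective g ?_
    intro r s hrs
    apply Subtype.ext
    apply b.repr.injective
    ext l
    have := congrFun hrs l
    have h2 := congrArg (fun z : L => (z : Subring.center R)) this
    exact congrArg (fun z : Subring.center R => (z : R)) h2
  have hess : Algebra.EssFiniteType k L := by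
    rw [IntermediateField.essFiniteType_iff]
    exact ⟨S, rfl⟩
  obtain ⟨n, aK, hK⟩ := bcf_exists_finite_ratFun k L
  let ψ' : FractionRing (MvPolynomial (Fin n) k) →+* R' :=
    ψ.comp (algebraMap (FractionRing (MvPolynomial (Fin n) k)) L)
  let aR : Algebra (FractionRing (MvPolynomial (Fin n) k)) R' :=
    RingHom.toAlgebra' ψ' (fun z r => hψ _ r)
  have hst : IsScalarTower (FractionRing (MvPolynomial (Fin n) k)) L R' := by
    constructor
    intro x y z
    have h1 : (x • y) • z = ψ (x • y) * z := rfl
    have h2 : x • (y • z) = ψ' x * (ψ y * z) := rfl
    rw [h1, h2, Algebra.smul_def, map_mul, mul_assoc]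
    rfl
  have hfinK : Module.Finite (FractionRing (MvPolynomial (Fin n) k)) R' := Module.Finite.trans L R'
  have hdom : IsDomain R' := inferInstance
  refine ⟨n, R', divisionRingOfFiniteDimensional (FractionRing (MvPolynomial (Fin n) k)) R', aR,
    R'.subtype, hfinK, ?_⟩
  intro x hx
  exact ⟨⟨x, hFL x hx⟩, rfl⟩

end Pool.Agent.HFT
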