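import Pool.Agent.HFT.BCd

/-! # HFT/BCg: coefficients from a direct factor, rational functions (helper49)

PROOF. `hasHF_coef`: let `φ : R (G × P) →+* D` be Hughes-free. `R' := Subfield.closure {φ (single (1, p) r)}`, a division ring,
`ψ : R P →+* R'` the obvious injective homomorphism. `R'` commutes with the `φ (single (g, 1) 1)` (generators do;
`Subfield.closure_induction`), so there is `φ' : R' G →+* D`, `single g x ↦ x * φ (single (g, 1) 1)`
(`liftNCRingHom`), with the closure of the range everything. Third clause for `φ'`: let `H ≤ G` be finitely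
generated, `f, t, s, d` as usual. Apply the third clause for `φ` to `H' := H.prod ⊤ ≤ G × P` (finitely generated as `P` is)
and `f' (h, p) := f h`, `t' = (t, 1)`: the closure of `{φ' (single n x) | n ∈ ker f, x ∈ R'}` is contained in the closure of
`{φ (single m r) | m ∈ ker f'}`. Injectivity of `φ'` on `R' G`: let `x = ∑ x_g g` be a nonzero element of the kernel with
minimal number `m` of elements in the support. Multiplying by a group element on the right one may suppose that
`1` is in the support. If the support is `{1}` then `x_1 = 0`, contradiction. Otherwise the subgroup `H` generated by the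
support is finitely generated and not trivial, so (`G` is locally indicable) there is a surjective `f : H → ℤ`, not constant
on the support (`f 1 = 0` and the support generates `H`); choose `t` with `f t = 1` and write
`φ' x = ∑_i (∑_{f g = i} x_g g t^-i) t^i`; by the third clause each inner sum is zero; it comes from an element of
`R' G` with smaller support, nonzero for at least one `i`, contradiction.
`hasHF_rat`: by `hasHF_coef` for `P := ULift (Multiplicative (Fin n → ℤ))` there are `R'` and an injective
`ψ : MonoidAlgebra K P →+* R'`. `MvPolynomial (Fin n) K →+* MonoidAlgebra K P` (`X i ↦ single (e i) 1`; `MvPolynomial.eval₂Hom`)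
is injective (different monomials go to different group elements). The composition to the division ring `R'` is
injective, so it extends to `FractionRing (MvPolynomial (Fin n) K)` (`OreLocalization.universalHom`; or embed the
commutative closure). Then `hasHF_scalars`. -/

set_option autoImplicit false

universe u w

namespace Pool.Agent.HFT

variable {G : Type u} [Group G]

open MonoidAlgebra

private theorem single_zpow {R : Type u} [DivisionRing R] {D : Type w} [DivisionRing D]
    (φ : MonoidAlgebra R G →+* D) (t : G) (i : ℤ) :
    φ (single t 1) ^ i = φ (single (t ^ i) 1) := by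
  have h : ∀ g : G, φ (single g 1) = ((φ : MonoidAlgebra R G →* D).comp (MonoidAlgebra.of R G)) g :=
    fun g => rfl
  rw [h, h, map_zpow]

private theorem inj_of_free {R : Type u} [DivisionRing R] {D : Type w} [DivisionRing D]
    (hG : LocIndic G) (φ : MonoidAlgebra R G →+* D)
    (h3 : ∀ H : Subgroup G, H.FG → ∀ f : H →* Multiplicative ℤ, Function.Surjective f →
      ∀ t : H, f t = Multiplicative.ofAdd 1 →
        ∀ (s : Finset ℤ) (d : ℤ → D),
          (∀ i ∈ s, d i ∈ Subfield.closure
            {x : D | ∃ (n : H) (r : R), f n = 1 ∧ x = φ (MonoidAlgebra.single (n : G) r)}) →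
          ∑ i ∈ s, d i * (φ (MonoidAlgebra.single (t : G) 1)) ^ i = 0 →
          ∀ i ∈ s, d i = 0) : Function.Injective φ := by
  classical
  have key : ∀ (n : ℕ) (x : MonoidAlgebra R G), x.coeff.support.card = n → φ x = 0 → x = 0 := by
    intro n
    induction n using Nat.strong_induction_on with
    | _ n ih =>
      intro x hn hx
      by_contra hne
      have hc : x.coeff ≠ 0 := fun h => hne (coeff_eq_zero.1 h)
      obtain ⟨g0, hg0⟩ := Finsupp.support_nonempty_iff.2 hc
      set y : MonoidAlgebra R G := x * single g0⁻¹ 1 with hy
      have hyc : ∀ g, y.coeff g = x.coeff (g * g0) := by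
        intro g
        rw [hy, coeff_mul_single_apply, mul_one, inv_inv]
      have hys : y.coeff.support = x.coeff.support.image (fun g => g * g0⁻¹) := by
        ext g
        rw [Finsupp.mem_support_iff, hyc, Finset.mem_image]
        constructor
        · intro h
          exact ⟨g * g0, Finsupp.mem_support_iff.2 h, by group⟩
        · rintro ⟨g', hg', rfl⟩
          rw [inv_mul_cancel_right]
          exact Finsupp.mem_support_iff.1 hg'
      have hcard : y.coeff.support.card = n := by
        rw [hys, Finset.card_image_of_injective _ (mul_left_injective g0⁻¹), hn]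
      have hφy : φ y = 0 := by rw [hy, map_mul, hx, zero_mul]
      have h1 : y.coeff 1 ≠ 0 := by
        rw [hyc, one_mul]
        exact Finsupp.mem_support_iff.1 hg0
      have h1s : (1 : G) ∈ y.coeff.support := Finsupp.mem_support_iff.2 h1
      have hysum : y = ∑ g ∈ y.coeff.support, single g (y.coeff g) := by
        conv_lhs => rw [← sum_coeff_single y]
        rfl
      set H : Subgroup G := Subgroup.closure (y.coeff.support : Set G) with hH
      have hsub : ∀ g ∈ y.coeff.support, g ∈ H := fun g hg => Subgroup.subset_closure hg
      by_cases hbot : H = ⊥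
      · have h2 : y = single 1 (y.coeff 1) := by
          have h3 : y.coeff.support = {1} := by
            ext g
            rw [Finset.mem_singleton]
            constructor
            · intro hg
              have := hsub g hg
              rw [hbot] at this
              exact Subgroup.mem_bot.1 this
            · rintro rfl
              exact h1s
          conv_lhs => rw [hysum]
          rw [h3, Finset.sum_singleton]
        have h4 : y * single 1 (y.coeff 1)⁻¹ = 1 := by
          conv_lhs => rw [h2]
          rw [single_mul_single, one_def, mul_one, coeff_single, Finsupp.single_eq_same,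
            mul_inv_cancel₀ h1]
        have h5 : φ (y * single 1 (y.coeff 1)⁻¹) = 0 := by rw [map_mul, hφy, zero_mul]
        rw [h4, map_one] at h5
        exact one_ne_zero h5
      · obtain ⟨f, hf⟩ := hG H ⟨_, hH.symm⟩ hbot
        obtain ⟨t, ht⟩ := hf (Multiplicative.ofAdd 1)
        let val : G → ℤ := fun g => if hg : g ∈ H then Multiplicative.toAdd (f ⟨g, hg⟩) else 0
        have hval : ∀ (g : G) (hg : g ∈ H), f ⟨g, hg⟩ = Multiplicative.ofAdd (val g) := by
          intro g hg
          simp only [val]
          rw [dif_pos hg]
          rfl
        have hval1 : val 1 = 0 := by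
          have h2 := hval 1 (one_mem H)
          have h3 : (⟨1, one_mem H⟩ : H) = 1 := rfl
          rw [h3, map_one] at h2
          exact (congrArg Multiplicative.toAdd h2).symm
        let d : ℤ → D := fun i => ∑ g ∈ y.coeff.support with val g = i,
          φ (single (g * (t : G) ^ (-i)) (y.coeff g))
        have hd0 : d 0 = 0 := by
          refine h3 H ⟨_, hH.symm⟩ f hf t ht (y.coeff.support.image val) d ?_ ?_ 0
            (Finset.mem_image.2 ⟨1, h1s, hval1⟩)
          · intro i _
            refine sum_mem fun g hg => ?_
            rw [Finset.mem_filter] at hg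
            refine Subfield.subset_closure ⟨⟨g, hsub g hg.1⟩ * t ^ (-i), y.coeff g, ?_, ?_⟩
            · rw [map_mul, map_zpow, ht, hval, hg.2, ← ofAdd_zsmul, ← ofAdd_add]
              simp
            · rfl
          · have h2 : φ y = ∑ i ∈ y.coeff.support.image val,
                ∑ g ∈ y.coeff.support with val g = i, φ (single g (y.coeff g)) := by
              conv_lhs => rw [hysum]
              rw [map_sum, Finset.sum_fiberwise_of_maps_to]
              intro g hg
              exact Finset.mem_image_of_mem _ hg
            rw [← hφy, h2]
            refine Finset.sum_congr rfl fun i _ => ?_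
            simp only [d]
            rw [Finset.sum_mul]
            refine Finset.sum_congr rfl fun g _ => ?_
            rw [single_zpow, ← map_mul, single_mul_single, mul_one, mul_assoc, ← zpow_add,
              neg_add_cancel, zpow_zero, mul_one]
        set z : MonoidAlgebra R G := ∑ g ∈ y.coeff.support with val g = 0, single g (y.coeff g)
          with hz
        have hφz : φ z = 0 := by
          rw [← hd0, hz, map_sum]
          simp only [d]
          refine Finset.sum_congr rfl fun g _ => ?_
          rw [neg_zero, zpow_zero, mul_one]
        have hzc : ∀ g, z.coeff g = if g ∈ y.coeff.support.filter (fun g => val g = 0) then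
            y.coeff g else 0 := by
          intro g
          rw [hz, coeff_sum, Finsupp.finsetSum_apply]
          simp only [coeff_single, Finsupp.single_apply]
          rw [Finset.sum_ite_eq']
        have hz1 : z.coeff 1 ≠ 0 := by
          rw [hzc, if_pos (Finset.mem_filter.2 ⟨h1s, hval1⟩)]
          exact h1
        have hzs : z.coeff.support ⊆ y.coeff.support.filter (fun g => val g = 0) := by
          intro g hg
          by_contra h2
          rw [Finsupp.mem_support_iff, hzc, if_neg h2] at hg
          exact hg rfl
        have hex : ∃ g ∈ y.coeff.support, val g ≠ 0 := by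
          by_contra hall
          push Not at hall
          have h2 : H ≤ f.ker.map H.subtype := by
            refine (Subgroup.closure_le _).2 ?_
            intro g hg
            refine ⟨⟨g, hsub g hg⟩, ?_, rfl⟩
            show f ⟨g, hsub g hg⟩ = 1
            rw [hval, hall g hg]
            rfl
          obtain ⟨t', ht', htt⟩ := h2 t.2
          have h3 : t' = t := Subtype.ext htt
          have h4 : f t' = 1 := ht'
          rw [h3, ht] at h4
          exact absurd (congrArg Multiplicative.toAdd h4) (by decide)
        obtain ⟨g1, hg1, hg1'⟩ := hex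
        have hlt : z.coeff.support.card < n := by
          refine lt_of_le_of_lt (Finset.card_le_card hzs) ?_
          rw [← hcard]
          refine Finset.card_lt_card ⟨Finset.filter_subset _ _, fun h => ?_⟩
          exact hg1' (Finset.mem_filter.1 (h hg1)).2
        have hz0 := ih _ hlt z rfl hφz
        rw [hz0] at hz1
        exact hz1 rfl
  rw [injective_iff_map_eq_zero]
  intro x hx
  exact key _ x rfl hx

theorem hasHF_coef {R : Type u} [DivisionRing R] {P : Type u} [Group P] (hP : Group.FG P)
    (hG : LocIndic G) (h : HasHF R (G × P)) :
    ∃ (R' : Type u) (_ : DivisionRing R') (ψ : MonoidAlgebra R P →+* R'),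
      Function.Injective ψ ∧ HasHF R' G := by
  obtain ⟨D, _, φ, h1, h2, h3⟩ := h
  set φ1 : MonoidAlgebra R P →+* D :=
    φ.comp (MonoidAlgebra.mapDomainRingHom R (MonoidHom.inr G P)) with hφ1
  have hmem : ∀ x, φ1 x ∈ Subfield.closure (Set.range φ1) := fun x =>
    Subfield.subset_closure ⟨x, rfl⟩
  have hsingle : ∀ (p : P) (r : R), φ1 (single p r) = φ (single ((1, p) : G × P) r) := by
    intro p r
    rw [hφ1, RingHom.comp_apply]
    congr 1
    exact MonoidAlgebra.mapDomain_single
  let al : G →* D := ((φ : MonoidAlgebra R (G × P) →* D).comp (MonoidAlgebra.of R (G × P))).comp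
    (MonoidHom.inl G P)
  have hal : ∀ g, al g = φ (single ((g, 1) : G × P) 1) := fun g => rfl
  have hcom1 : ∀ (y : MonoidAlgebra R P) (g : G), φ1 y * al g = al g * φ1 y := by
    intro y g
    refine MonoidAlgebra.induction_linear y ?_ ?_ ?_
    · rw [map_zero, zero_mul, mul_zero]
    · intro a b ha hb
      rw [map_add, add_mul, mul_add, ha, hb]
    · intro p r
      rw [hsingle, hal, ← map_mul, ← map_mul, single_mul_single, single_mul_single, mul_one,
        one_mul]
      simp
  have hcom : ∀ x ∈ Subfield.closure (Set.range φ1), ∀ g : G, x * al g = al g * x := by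
    intro x hx
    induction hx using Subfield.closure_induction with
    | mem x hx =>
      obtain ⟨y, rfl⟩ := hx
      exact hcom1 y
    | one => intro g; rw [one_mul, mul_one]
    | add x y _ _ ihx ihy => intro g; rw [add_mul, mul_add, ihx, ihy]
    | neg x _ ihx => intro g; rw [neg_mul, mul_neg, ihx]
    | inv x _ ihx => intro g; exact (Commute.inv_left₀ (ihx g : Commute x (al g))).eq
    | mul x y _ _ ihx ihy => intro g; rw [mul_assoc, ihy, ← mul_assoc, ihx, mul_assoc]
  let φ' : MonoidAlgebra (Subfield.closure (Set.range φ1)) G →+* D :=
    liftNCRingHom (Subfield.closure (Set.range φ1)).subtype al (fun x g => hcom x x.2 g)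
  have hφ' : ∀ (g : G) (x : Subfield.closure (Set.range φ1)), φ' (single g x) = x * al g :=
    fun g x => liftNCRingHom_single _ _ _ _ _
  have hfree : ∀ H : Subgroup G, H.FG → ∀ f : H →* Multiplicative ℤ, Function.Surjective f →
      ∀ t : H, f t = Multiplicative.ofAdd 1 →
        ∀ (s : Finset ℤ) (d : ℤ → D),
          (∀ i ∈ s, d i ∈ Subfield.closure
            {x : D | ∃ (n : H) (r : Subfield.closure (Set.range φ1)), f n = 1 ∧
              x = φ' (MonoidAlgebra.single (n : G) r)}) →
          ∑ i ∈ s, d i * (φ' (MonoidAlgebra.single (t : G) 1)) ^ i = 0 →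
          ∀ i ∈ s, d i = 0 := by
    intro H hH f hf t ht s d hd hsum
    let q : H.prod (⊤ : Subgroup P) →* H := (MonoidHom.fst H (⊤ : Subgroup P)).comp
      (Subgroup.prodEquiv H (⊤ : Subgroup P)).toMonoidHom
    have hq : ∀ (g : G) (hg : g ∈ H) (p : P), q ⟨(g, p), ⟨hg, Subgroup.mem_top p⟩⟩ = ⟨g, hg⟩ :=
      fun g hg p => rfl
    refine h3 (H.prod ⊤) (hH.prod hP.out) (f.comp q) ?_ ⟨(t, 1), ⟨t.2, Subgroup.mem_top _⟩⟩ ?_ s d
      ?_ ?_
    · intro z
      obtain ⟨g, rfl⟩ := hf z
      exact ⟨⟨(g, 1), ⟨g.2, Subgroup.mem_top _⟩⟩, rfl⟩
    · exact ht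
    · intro i hi
      refine (Subfield.closure_le.2 ?_) (hd i hi)
      rintro _ ⟨n, r, hn, rfl⟩
      rw [hφ']
      refine mul_mem ?_ (Subfield.subset_closure ⟨⟨(n, 1), ⟨n.2, Subgroup.mem_top _⟩⟩, 1, hn, rfl⟩)
      refine (Subfield.closure_le.2 ?_) r.2
      rintro _ ⟨y, rfl⟩
      refine MonoidAlgebra.induction_linear y ?_ ?_ ?_
      · rw [map_zero]
        exact zero_mem _
      · intro a b ha hb
        rw [map_add]
        exact add_mem ha hb
      · intro p r
        rw [hsingle]
        refine Subfield.subset_closure ⟨⟨(1, p), ⟨one_mem H, Subgroup.mem_top _⟩⟩, r, ?_, rfl⟩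
        show f (q ⟨((1 : G), p), _⟩) = 1
        rw [hq 1 (one_mem H) p]
        exact map_one f
    · rw [← hsum]
      refine Finset.sum_congr rfl fun i _ => ?_
      rw [hφ']
      have h4 : ((1 : Subfield.closure (Set.range φ1)) : D) = 1 := rfl
      rw [h4, one_mul]
      rfl
  refine ⟨Subfield.closure (Set.range φ1), inferInstance,
    φ1.codRestrict (Subfield.closure (Set.range φ1)) hmem, ?_, D, inferInstance, φ', ?_, ?_, hfree⟩
  · intro x y hxy
    have h4 : φ1 x = φ1 y := congrArg Subtype.val hxy
    refine MonoidAlgebra.mapDomain_injective (f := MonoidHom.inr G P) ?_ (h1 h4)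
    intro a b hab
    exact congrArg Prod.snd hab
  · exact inj_of_free hG φ' hfree
  · rw [eq_top_iff, ← h2, Subfield.closure_le]
    rintro _ ⟨y, rfl⟩
    refine MonoidAlgebra.induction_linear y ?_ ?_ ?_
    · rw [map_zero]
      exact zero_mem _
    · intro a b ha hb
      rw [map_add]
      exact add_mem ha hb
    · rintro ⟨g, p⟩ r
      refine Subfield.subset_closure ⟨single g ⟨φ1 (single p r), hmem _⟩, ?_⟩
      rw [hφ']
      show φ1 (single p r) * al g = _
      rw [hsingle, hal, ← map_mul, single_mul_single, mul_one]
      simp

theorem hasHF_rat {K : Type u} [Field K] (hG : LocIndic G) (h : HasHF K G) (n : ℕ) :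
    HasHF (FractionRing (MvPolynomial (Fin n) K)) G := by
  have hP : Group.FG (ULift.{u} (Multiplicative (Fin n → ℤ))) := by
    have h1 : Group.FG (Multiplicative (Fin n → ℤ)) := by
      rw [← AddGroup.fg_iff_mul_fg]
      infer_instance
    exact Group.fg_of_surjective (f := (MulEquiv.ulift (α := Multiplicative (Fin n → ℤ))).symm.toMonoidHom)
      (MulEquiv.ulift).symm.surjective
  obtain ⟨R', _, ψ, hψ, hR⟩ := hasHF_coef hP hG (hasHF_prod_free hG h n)
  let j : Multiplicative (Fin n →₀ ℕ) →* ULift.{u} (Multiplicative (Fin n → ℤ)) :=
    { toFun := fun x => ⟨Multiplicative.ofAdd (fun i => ((Multiplicative.toAdd x i : ℕ) : ℤ))⟩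
      map_one' := rfl
      map_mul' := fun x y => by
        apply ULift.ext
        apply Multiplicative.toAdd.injective
        funext i
        exact Nat.cast_add _ _ }
  have hj : Function.Injective j := by
    intro x y hxy
    apply Multiplicative.toAdd.injective
    ext i
    have h1 := congrFun (congrArg Multiplicative.toAdd (congrArg ULift.down hxy)) i
    exact Int.ofNat.inj h1
  let g : MvPolynomial (Fin n) K →+* R' :=
    ψ.comp ((MonoidAlgebra.mapDomainRingHom K j).comp
      (AddMonoidAlgebra.toMultiplicative K (Fin n →₀ ℕ)).toRingHom)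
  have hg : Function.Injective g := by
    intro x y hxy
    have h1 := hψ hxy
    have h2 := MonoidAlgebra.mapDomain_injective hj h1
    exact (AddMonoidAlgebra.toMultiplicative K (Fin n →₀ ℕ)).injective h2
  have hu : ∀ s : nonZeroDivisors (MvPolynomial (Fin n) K), g s ≠ 0 := by
    intro s hs
    exact nonZeroDivisors.ne_zero s.2 (hg (by rw [hs, map_zero]))
  let gS : nonZeroDivisors (MvPolynomial (Fin n) K) →* R'ˣ :=
    { toFun := fun s => Units.mk0 (g s) (hu s)
      map_one' := by
        apply Units.ext
        exact map_one g
      map_mul' := fun a b => by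
        apply Units.ext
        exact map_mul g _ _ }
  let F : FractionRing (MvPolynomial (Fin n) K) →+* R' :=
    OreLocalization.universalHom g gS (fun s => rfl)
  exact hasHF_scalars F hR

end Pool.Agent.HFT
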