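import Pool.Agent.HFT.BCc
import Pool.Agent.HFT.BCe
import Pool.Agent.HFT.BCf
import Pool.Agent.HFT.BCg

/-! # HFT/BCh: base change (helper49) -/

set_option autoImplicit false

universe u

namespace Pool.Agent.HFT

/-- Every finite subset of `R` lies in a division subring that contains `k` and is finite
dimensional over its centre. -/
def LocFD (k R : Type u) [Field k] [DivisionRing R] [Algebra k R] : Prop :=
  ∀ F : Finset R, ∃ D : Subfield R, (∀ x ∈ F, x ∈ D) ∧ (∀ c : k, algebraMap k R c ∈ D) ∧
    Module.Finite (Subring.center D) D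

theorem hasHF_of_fdCenter {k R : Type u} [Field k] [DivisionRing R] [Algebra k R]
    (hfin : Module.Finite (Subring.center R) R) {G : Type u} [Group G] (hG : LocIndic G)
    (h : HasHF k G) : HasHF R G := by
  apply hasHF_of_local_scalars
  intro F
  obtain ⟨n, R', i1, i2, j, hf, hj⟩ := exists_fd_sub (k := k) hfin F
  refine ⟨R', i1, j, hj, ?_⟩
  exact hasHF_fd (K := FractionRing (MvPolynomial (Fin n) k)) hG (hasHF_rat hG h n)

theorem baseChange {k R : Type u} [Field k] [DivisionRing R] [Algebra k R] (hR : LocFD k R)
    {G : Type u} [Group G] (hG : LocIndic G) : HasHF R G ↔ HasHF k G := by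
  constructor
  · intro h
    exact hasHF_scalars (algebraMap k R) h
  · intro h
    apply hasHF_of_local_scalars
    intro F
    obtain ⟨D, hF, hk, hfin⟩ := hR F
    refine ⟨D, inferInstance, D.subtype, fun x hx => ⟨⟨x, hF x hx⟩, rfl⟩, ?_⟩
    let φ : k →+* D :=
      { toFun := fun c => ⟨algebraMap k R c, hk c⟩
        map_one' := Subtype.ext (map_one _)
        map_mul' := fun a b => Subtype.ext (map_mul _ a b)
        map_zero' := Subtype.ext (map_zero _)
        map_add' := fun a b => Subtype.ext (map_add _ a b) }
    letI : Algebra k D := φ.toAlgebra' (fun c x => Subtype.ext (Algebra.commutes c (x : R)))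
    exact hasHF_of_fdCenter (k := k) hfin hG h

end Pool.Agent.HFT
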