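import Mathlib

/-! # HFT: Hughes-free division rings and trees (helper49). Basic definitions -/

set_option autoImplicit false

universe u w

namespace Pool.Agent.HFT

/-- Locally indicable group. -/
def LocIndic (G : Type u) [Group G] : Prop :=
  ∀ H : Subgroup G, H.FG → H ≠ ⊥ → ∃ f : H →* Multiplicative ℤ, Function.Surjective f

/-- Hughes-free epic embedding of the group ring `R G` in the division ring `D`
(wording of the frozen statement S00627). -/
def HughesFree (R : Type u) [DivisionRing R] (G : Type u) [Group G] (D : Type w) [DivisionRing D]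
    (φ : MonoidAlgebra R G →+* D) : Prop :=
  Function.Injective φ ∧
  Subfield.closure (Set.range φ) = ⊤ ∧
  ∀ H : Subgroup G, H.FG → ∀ f : H →* Multiplicative ℤ, Function.Surjective f →
    ∀ t : H, f t = Multiplicative.ofAdd 1 →
      ∀ (s : Finset ℤ) (d : ℤ → D),
        (∀ i ∈ s, d i ∈ Subfield.closure
          {x : D | ∃ (n : H) (r : R), f n = 1 ∧ x = φ (MonoidAlgebra.single (n : G) r)}) →
        ∑ i ∈ s, d i * (φ (MonoidAlgebra.single (t : G) 1)) ^ i = 0 →
        ∀ i ∈ s, d i = 0

/-- `R G` has a Hughes-free division ring. -/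
def HasHF (R : Type u) [DivisionRing R] (G : Type u) [Group G] : Prop :=
  ∃ (D : Type u) (_ : DivisionRing D) (φ : MonoidAlgebra R G →+* D), HughesFree R G D φ

/-- A Conradian system on a group: every nontrivial element `g` has a level `lev g`; the elements
of level at most `i` form a subgroup, on which `τ i` is a real character whose kernel is the
subgroup of elements of level less than `i`. -/
structure ConradSys (G : Type u) [Group G] where
  I : Type u
  [ord : LinearOrder I]
  lev : G → WithBot I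
  τ : I → G → ℝ
  lev_bot : ∀ g, lev g = ⊥ ↔ g = 1
  lev_inv : ∀ g, lev g⁻¹ = lev g
  lev_mul : ∀ g h, lev (g * h) ≤ max (lev g) (lev h)
  τ_mul : ∀ (i : I) (g h : G), lev g ≤ (i : WithBot I) → lev h ≤ (i : WithBot I) →
    τ i (g * h) = τ i g + τ i h
  τ_zero : ∀ (i : I) (g : G), lev g ≤ (i : WithBot I) → (τ i g = 0 ↔ lev g < (i : WithBot I))

attribute [instance] ConradSys.ord

namespace ConradSys

variable {G : Type u} [Group G] (S : ConradSys G)

/-- conjugate of the subgroup of elements of level at most `i` -/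
def Le (k : G) (i : S.I) : Subgroup G where
  carrier := {g | S.lev (k⁻¹ * g * k) ≤ (i : WithBot S.I)}
  one_mem' := by
    have h : S.lev (k⁻¹ * 1 * k) = ⊥ := by rw [S.lev_bot]; group
    show S.lev (k⁻¹ * 1 * k) ≤ _
    rw [h]; exact bot_le
  mul_mem' := by
    intro a b ha hb
    have h : k⁻¹ * (a * b) * k = (k⁻¹ * a * k) * (k⁻¹ * b * k) := by group
    show S.lev (k⁻¹ * (a * b) * k) ≤ _
    rw [h]
    exact le_trans (S.lev_mul _ _) (max_le ha hb)
  inv_mem' := by
    intro a ha
    have h : k⁻¹ * a⁻¹ * k = (k⁻¹ * a * k)⁻¹ := by group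
    show S.lev (k⁻¹ * a⁻¹ * k) ≤ _
    rw [h, S.lev_inv]; exact ha

/-- conjugate of the subgroup of elements of level less than `i` -/
def Lt (k : G) (i : S.I) : Subgroup G where
  carrier := {g | S.lev (k⁻¹ * g * k) < (i : WithBot S.I)}
  one_mem' := by
    have h : S.lev (k⁻¹ * 1 * k) = ⊥ := by rw [S.lev_bot]; group
    show S.lev (k⁻¹ * 1 * k) < _
    rw [h]; exact WithBot.bot_lt_coe i
  mul_mem' := by
    intro a b ha hb
    have h : k⁻¹ * (a * b) * k = (k⁻¹ * a * k) * (k⁻¹ * b * k) := by group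
    show S.lev (k⁻¹ * (a * b) * k) < _
    rw [h]
    exact lt_of_le_of_lt (S.lev_mul _ _) (max_lt ha hb)
  inv_mem' := by
    intro a ha
    have h : k⁻¹ * a⁻¹ * k = (k⁻¹ * a * k)⁻¹ := by group
    show S.lev (k⁻¹ * a⁻¹ * k) < _
    rw [h, S.lev_inv]; exact ha

/-- degree of `g` seen from `k` at level `i` -/
def deg (k : G) (i : S.I) (g : G) : ℝ := S.τ i (k⁻¹ * g * k)

/-- positive elements -/
def pos (g : G) : Prop := ∃ i : S.I, S.lev g = (i : WithBot S.I) ∧ 0 < S.τ i g

/-- the left order of the system -/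
def lt (g h : G) : Prop := S.pos (g⁻¹ * h)

/-- `g < h` at level at least `j`, that is, in the cosets modulo the elements of level `< j` -/
def ltj (j : S.I) (g h : G) : Prop :=
  ∃ i : S.I, j ≤ i ∧ S.lev (g⁻¹ * h) = (i : WithBot S.I) ∧ 0 < S.τ i (g⁻¹ * h)

/-- same coset modulo the elements of level `< j` -/
def eqj (j : S.I) (g h : G) : Prop := S.lev (g⁻¹ * h) < (j : WithBot S.I)

end ConradSys

/-- A family of division rings, each with compatible embeddings of a division ring `R` and of
a subgroup `A` of `G`, that is free along the Conradian system (in all positions `k`). -/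
structure TSet {G : Type u} [Group G] (S : ConradSys G) (R : Type u) [DivisionRing R]
    (A : Subgroup G) (ι : Type) where
  D : ι → Type w
  [dr : ∀ q, DivisionRing (D q)]
  α : ∀ q, A →* D q
  ρ : ∀ q, R →+* D q
  comm : ∀ q r a, ρ q r * α q a = α q a * ρ q r
  jf : ∀ (q : ι) (k : G) (i : S.I) (n : ℕ) (a : Fin n → A) (c : Fin n → D q),
    (∀ l, (a l : G) ∈ S.Le k i) → Function.Injective (fun l => S.deg k i (a l)) →
    (∀ l, c l ∈ Subfield.closure
      (Set.range (ρ q) ∪ {x | ∃ b : A, (b : G) ∈ S.Lt k i ∧ α q b = x})) →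
    ∑ l, α q (a l) * c l = 0 → ∀ l, c l = 0

attribute [instance] TSet.dr

/-- the division subring generated by `R` and the elements of `A` lying in `B` -/
def gen {G : Type u} [Group G] {A : Subgroup G} {R : Type u} [DivisionRing R] {D : Type w}
    [DivisionRing D] (α : A →* D) (ρ : R →+* D) (B : Subgroup G) : Subfield D :=
  Subfield.closure (Set.range ρ ∪ {x | ∃ b : A, (b : G) ∈ B ∧ α b = x})

/-- Leading positions on a division ring `D` containing `R` and `A ≤ G`: `Ld x k h` says that
`x` moves the position `k` to the position `h`. -/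
structure LeadSys {G : Type u} [Group G] (S : ConradSys G) (R : Type u) [DivisionRing R]
    (A : Subgroup G) (D : Type w) [DivisionRing D] (α : A →* D) (ρ : R →+* D) where
  Ld : D → G → G → Prop
  ex : ∀ x : D, x ≠ 0 → ∀ k, ∃ h, Ld x k h
  ne : ∀ {x : D} {k h : G}, Ld x k h → x ≠ 0
  uq : ∀ {x : D} {k h h' : G}, Ld x k h → Ld x k h' → h = h'
  al : ∀ (a : A) (k : G), Ld (α a) k (a * k)
  ro : ∀ (r : R) (k : G), r ≠ 0 → Ld (ρ r) k k
  mul : ∀ {x y : D} {k h l : G}, Ld y k h → Ld x h l → Ld (x * y) k l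
  mono : ∀ {x : D} {k h k' h' : G}, Ld x k h → Ld x k' h' → S.lt k k' → S.lt h h'
  add : ∀ {x y : D} {k h h' l : G}, Ld x k h → Ld y k h' → Ld (x + y) k l →
    ¬ (S.lt l h ∧ S.lt l h')
  coset : ∀ {x : D} {k h k' h' : G} {j : S.I}, Ld x k h → Ld x k' h' → S.eqj j k k' → S.eqj j h h'
  res : ∀ {x : D} {k h : G}, Ld x k h → ∀ j : S.I, ∃ a : A, h = a * k ∧
    ∃ δ ∈ gen α ρ (S.Lt k j), x = α a * δ ∨ ∃ l, Ld (x - α a * δ) k l ∧ S.ltj j h l
  supp : ∀ {x : D} {k h : G} {B : Subgroup G}, x ∈ gen α ρ B → Ld x k h →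
    ∃ a : A, (a : G) ∈ B ∧ h = a * k

end Pool.Agent.HFT
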