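import Pool.Agent.HFT.Basic

/-! # HFT/CS1: comparison functions on finite subsets of a locally indicable group (helper49)

PROOF. `exists_levels`: strong induction on the number of elements `≠ 1` of `F`. If there is none, all is
vacuous (take `H = ⊥`, `ψ = 1`). Otherwise `H₀ := Subgroup.closure F` is finitely generated and not
trivial; let `ψ₀ : H₀ →* Multiplicative ℤ` be surjective (`LocIndic`). Let
`F' := {g ∈ F | g = 1 or ψ₀ g = 1}`; some element of `F` has `ψ₀ g ≠ 1` (otherwise `ψ₀ = 1`, as `F`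
generates), so the induction hypothesis applies to `F'`: `ℓ'`, `v'`. Put `ℓ g = ℓ' g + 1`, `v g = v' g` for
`g ∈ F'`, and `ℓ g = 0`, `v g = ψ₀ g` for `g ∈ F`, `g ∉ F'`. For `n = 0` take `H₀`, `ψ₀`. For `n + 1` take
`(H, ψ)` belonging to `n` for `F'` and intersect/restrict `H` to `closure F'` (the statement `lev_le`
includes that `H` is contained in `ker`..): to be precise, the induction proves in addition
`H ≤ Subgroup.closure F`; for `g ∈ F ∖ F'`, `g ∉ closure F'` because `closure F'` is contained in the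
kernel of `ψ₀` (in the image of the kernel in `G`), so `n + 1 ≤ ℓ g ↔ g ∈ H` holds for them too
(both sides false).
`exists_locNu`: with `ℓ, v` put for `h, g`: `ν h g = 0` if `g = 1` or `ℓ h < ℓ g`; `ν h g = v g / v h` (a real
number) if `g ≠ 1` and `ℓ g = ℓ h`; `ν h g = ⊤` or `⊥` according to the sign of `v g * v h` if `g ≠ 1` and
`ℓ g < ℓ h`. (Nonzero integers `v` for elements `≠ 1` of `F`.)
`one`, `triv` clear. `add`: finiteness of `ν h g` means `g = 1` or `ℓ h ≤ ℓ g`, so `g, g'` are in the group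
`H` belonging to `n = ℓ h`, so `g g' ∈ H`, and with `ψ_n g := if ℓ g = n then v g else 0` the homomorphism
`ψ` gives `ψ_n (g g') = ψ_n g + ψ_n g'`; `ν h g = ψ_n g / v h`. `inv`: if `ℓ h ≤ ℓ g` the same with
`ψ (g⁻¹)`; if `ℓ g < ℓ h`, then with `n = ℓ g`, `ψ_n (g⁻¹) = - v g ≠ 0`, so `ℓ (g⁻¹) = ℓ g`,
`v (g⁻¹) = - v g` (from the equivalence `n ≤ ℓ ↔ ∈ H` for `n` and the value of `ψ_n`: `ψ_n ≠ 0` forces
`ℓ = n`). `mul`: case distinction on the levels `ℓ h, ℓ h', ℓ g`: real ratios multiply; the sign of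
`ν h g` is the product of the signs of `v h` and `v g`; excluded are exactly the cases
`ℓ h < ℓ h'`, `ℓ g < ℓ h'` (`0 * ±∞`) and `ℓ h' < ℓ h`, (`ℓ h' < ℓ g` or `g = 1`) (`±∞ * 0`). -/

set_option autoImplicit false

universe u

namespace Pool.Agent.HFT

variable {G : Type u} [Group G]

theorem exists_levels (hG : LocIndic G) (F : Finset G) :
    ∃ (ℓ : G → ℕ) (v : G → ℤ), (∀ g ∈ F, g ≠ 1 → v g ≠ 0) ∧
      ∀ n : ℕ, ∃ (H : Subgroup G) (ψ : H →* Multiplicative ℤ),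
        H ≤ Subgroup.closure (F : Set G) ∧
        (∀ g ∈ F, g ≠ 1 → (n ≤ ℓ g ↔ g ∈ H)) ∧
        ∀ g ∈ F, g ≠ 1 → ∀ hg : g ∈ H,
          ψ ⟨g, hg⟩ = Multiplicative.ofAdd (if ℓ g = n then v g else 0) := by
  classical
  induction F using Finset.strongInduction with
  | H F ih =>
    by_cases hF : ∀ g ∈ F, g = 1
    · refine ⟨fun _ => 0, fun _ => 0, fun g hg h1 => absurd (hF g hg) h1, fun n =>
        ⟨⊥, 1, bot_le, fun g hg h1 => absurd (hF g hg) h1, fun g hg h1 => absurd (hF g hg) h1⟩⟩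
    push Not at hF
    obtain ⟨g₀, hg₀, hg₀1⟩ := hF
    obtain ⟨H₀, hH₀⟩ : ∃ H₀ : Subgroup G, H₀ = Subgroup.closure (F : Set G) := ⟨_, rfl⟩
    have hFH : ∀ g ∈ F, g ∈ H₀ := by
      intro g hg
      rw [hH₀]
      exact Subgroup.subset_closure hg
    have hfg : H₀.FG := ⟨F, hH₀.symm⟩
    have hne : H₀ ≠ ⊥ := by
      intro h
      have := hFH g₀ hg₀
      rw [h, Subgroup.mem_bot] at this
      exact hg₀1 this
    obtain ⟨ψ₀, hψ₀⟩ := hG H₀ hfg hne
    obtain ⟨p, hp⟩ : ∃ p : G → Prop, ∀ g, p g ↔ ∃ hg : g ∈ H₀, ψ₀ ⟨g, hg⟩ = 1 :=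
      ⟨_, fun _ => Iff.rfl⟩
    have hK : ∀ T : Set G, (∀ g ∈ T, p g) → ∀ g ∈ Subgroup.closure T, p g := by
      intro T hT g hg
      have h1 : Subgroup.closure T ≤ (ψ₀.ker).map H₀.subtype := by
        rw [Subgroup.closure_le]
        intro x hx
        obtain ⟨hx1, hx2⟩ := (hp x).1 (hT x hx)
        exact ⟨⟨x, hx1⟩, hx2, rfl⟩
      obtain ⟨y, hy, rfl⟩ := h1 hg
      exact (hp _).2 ⟨y.2, hy⟩
    have hss : F.filter p ⊂ F := by
      rw [Finset.filter_ssubset]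
      by_contra hcon
      push Not at hcon
      obtain ⟨y, hy⟩ := hψ₀ (Multiplicative.ofAdd 1)
      have h1 : p y := hK (F : Set G) hcon y (by rw [← hH₀]; exact y.2)
      obtain ⟨h2, h3⟩ := (hp _).1 h1
      have h4 : (Multiplicative.ofAdd (1 : ℤ)) = 1 := by
        rw [← hy]
        exact h3
      rw [← ofAdd_zero] at h4
      have h5 := Multiplicative.ofAdd.injective h4
      exact one_ne_zero h5
    obtain ⟨ℓ', v', h1, h2⟩ := ih (F.filter p) hss
    obtain ⟨ℓ, hℓ⟩ : ∃ ℓ : G → ℕ, ∀ g, ℓ g = if p g then ℓ' g + 1 else 0 := ⟨_, fun _ => rfl⟩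
    obtain ⟨v, hv⟩ : ∃ v : G → ℤ, ∀ g, v g = if p g then v' g else
      (if hg : g ∈ H₀ then Multiplicative.toAdd (ψ₀ ⟨g, hg⟩) else 0) := ⟨_, fun _ => rfl⟩
    have hℓ1 : ∀ g, p g → ℓ g = ℓ' g + 1 := fun g h => by rw [hℓ, if_pos h]
    have hℓ2 : ∀ g, ¬ p g → ℓ g = 0 := fun g h => by rw [hℓ, if_neg h]
    have hv1 : ∀ g, p g → v g = v' g := fun g h => by rw [hv, if_pos h]
    have hv2 : ∀ g (hg : g ∈ H₀), ¬ p g → v g = Multiplicative.toAdd (ψ₀ ⟨g, hg⟩) := fun g hg h => by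
      rw [hv, if_neg h, dif_pos hg]
    refine ⟨ℓ, v, ?_, ?_⟩
    · intro g hg hg1
      by_cases hpg : p g
      · rw [hv1 g hpg]
        exact h1 g (Finset.mem_filter.2 ⟨hg, hpg⟩) hg1
      · rw [hv2 g (hFH g hg) hpg]
        intro h3
        apply hpg
        rw [hp]
        refine ⟨hFH g hg, ?_⟩
        apply Multiplicative.toAdd.injective
        rw [h3, toAdd_one]
    · intro n
      rcases n with _ | n
      · refine ⟨H₀, ψ₀, hH₀.le, fun g hg hg1 => ?_, fun g hg hg1 hgH => ?_⟩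
        · exact iff_of_true (Nat.zero_le _) (hFH g hg)
        · by_cases hpg : p g
          · rw [if_neg (by rw [hℓ1 g hpg]; omega)]
            obtain ⟨h3, h4⟩ := (hp g).1 hpg
            rw [h4, ofAdd_zero]
          · rw [if_pos (hℓ2 g hpg), hv2 g hgH hpg, ofAdd_toAdd]
      · obtain ⟨H, ψ, h3, h4, h5⟩ := h2 n
        have h6 : H ≤ Subgroup.closure (F : Set G) := h3.trans (Subgroup.closure_mono (by
          intro x hx
          exact (Finset.mem_filter.1 hx).1))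
        have h7 : ∀ g ∈ H, p g := by
          intro g hg
          exact hK _ (fun x hx => (Finset.mem_filter.1 hx).2) g (h3 hg)
        refine ⟨H, ψ, h6, fun g hg hg1 => ?_, fun g hg hg1 hgH => ?_⟩
        · by_cases hpg : p g
          · rw [hℓ1 g hpg, ← h4 g (Finset.mem_filter.2 ⟨hg, hpg⟩) hg1]
            omega
          · rw [hℓ2 g hpg]
            exact iff_of_false (by omega) (fun h => hpg (h7 g h))
        · have hpg := h7 g hgH
          rw [h5 g (Finset.mem_filter.2 ⟨hg, hpg⟩) hg1 hgH]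
          congr 1
          have h9 := hℓ1 g hpg
          by_cases h8 : ℓ' g = n
          · rw [if_pos h8, if_pos (by omega), hv1 g hpg]
          · rw [if_neg h8, if_neg (by omega)]

/-- a comparison function on a subset of a group -/
structure LocNu (F : Set G) (ν : G → G → EReal) : Prop where
  one : ∀ h ∈ F, h ≠ 1 → ν h h = 1
  triv : ∀ h ∈ F, h ≠ 1 → ν h 1 = 0
  add : ∀ h ∈ F, ∀ g ∈ F, ∀ g' ∈ F, g * g' ∈ F → h ≠ 1 → ν h g ≠ ⊤ → ν h g ≠ ⊥ →
    ν h g' ≠ ⊤ → ν h g' ≠ ⊥ → ν h (g * g') = ν h g + ν h g'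
  inv : ∀ h ∈ F, ∀ g ∈ F, g⁻¹ ∈ F → h ≠ 1 → ν h g⁻¹ = - ν h g
  mul : ∀ h ∈ F, ∀ h' ∈ F, ∀ g ∈ F, h ≠ 1 → h' ≠ 1 →
    (ν h h' ≠ 0 ∨ (ν h' g ≠ ⊤ ∧ ν h' g ≠ ⊥)) → ((ν h h' ≠ ⊤ ∧ ν h h' ≠ ⊥) ∨ ν h' g ≠ 0) →
    ν h g = ν h h' * ν h' g

private noncomputable def cs1_sI (r : ℝ) : EReal := if 0 < r then ⊤ else ⊥

private theorem cs1_pos {r : ℝ} (h : 0 < r) : cs1_sI r = ⊤ := by
  unfold cs1_sI
  rw [if_pos h]

private theorem cs1_neg {r : ℝ} (h : r < 0) : cs1_sI r = ⊥ := by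
  unfold cs1_sI
  rw [if_neg (not_lt.2 h.le)]

private theorem cs1_sI_or (r : ℝ) : cs1_sI r = ⊤ ∨ cs1_sI r = ⊥ := by
  unfold cs1_sI
  split_ifs
  · left; rfl
  · right; rfl

private theorem cs1_sI_neg {r : ℝ} (h : r ≠ 0) : cs1_sI (-r) = -cs1_sI r := by
  rcases lt_or_gt_of_ne h with h1 | h1
  · rw [cs1_pos (by linarith : 0 < -r), cs1_neg h1, EReal.neg_bot]
  · rw [cs1_neg (by linarith : -r < 0), cs1_pos h1, EReal.neg_top]

private theorem cs1_key {x y z : ℝ} (hy : y ≠ 0) {r : ℝ} (hr : (y * x) * (z * y) = r) :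
    (0 < r → 0 < z * x) ∧ (r < 0 → z * x < 0) := by
  have h1 : y ^ 2 * (z * x) = r := by rw [← hr]; ring
  have hy2 : 0 < y ^ 2 := by positivity
  constructor
  · intro h2
    rw [← h1] at h2
    exact (mul_pos_iff_of_pos_left hy2).1 h2
  · intro h2
    rw [← h1] at h2
    by_contra h3
    have := mul_nonneg hy2.le (not_lt.1 h3)
    linarith

private theorem cs1_sI_mul {x y z : ℝ} (hx : x ≠ 0) (hy : y ≠ 0) (hz : z ≠ 0) :
    cs1_sI (z * x) = cs1_sI (y * x) * cs1_sI (z * y) := by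
  have hk := cs1_key (x := x) (z := z) hy rfl
  rcases lt_or_gt_of_ne (mul_ne_zero hy hx) with b1 | b1 <;>
    rcases lt_or_gt_of_ne (mul_ne_zero hz hy) with b2 | b2
  · rw [cs1_pos (hk.1 (mul_pos_of_neg_of_neg b1 b2)), cs1_neg b1, cs1_neg b2, EReal.bot_mul_bot]
  · rw [cs1_neg (hk.2 (mul_neg_of_neg_of_pos b1 b2)), cs1_neg b1, cs1_pos b2, EReal.bot_mul_top]
  · rw [cs1_neg (hk.2 (mul_neg_of_pos_of_neg b1 b2)), cs1_pos b1, cs1_neg b2, EReal.top_mul_bot]
  · rw [cs1_pos (hk.1 (mul_pos b1 b2)), cs1_pos b1, cs1_pos b2, EReal.top_mul_top]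

private theorem cs1_div {x y : ℝ} (hx : x ≠ 0) : y / x = (y * x) / x ^ 2 := by
  field_simp

private theorem cs1_sI_left {x y z : ℝ} (hx : x ≠ 0) (hy : y ≠ 0) (hz : z ≠ 0) :
    cs1_sI (z * x) = ((y / x : ℝ) : EReal) * cs1_sI (z * y) := by
  have hk := cs1_key (x := x) (z := z) hy rfl
  have hx2 : 0 < x ^ 2 := by positivity
  rcases lt_or_gt_of_ne (mul_ne_zero hy hx) with b1 | b1
  · have b3 : y / x < 0 := by
      rw [cs1_div hx]
      exact div_neg_of_neg_of_pos b1 hx2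
    rcases lt_or_gt_of_ne (mul_ne_zero hz hy) with b2 | b2
    · rw [cs1_pos (hk.1 (mul_pos_of_neg_of_neg b1 b2)), cs1_neg b2, EReal.coe_mul_bot_of_neg b3]
    · rw [cs1_neg (hk.2 (mul_neg_of_neg_of_pos b1 b2)), cs1_pos b2, EReal.coe_mul_top_of_neg b3]
  · have b3 : 0 < y / x := by
      rw [cs1_div hx]
      exact div_pos b1 hx2
    rcases lt_or_gt_of_ne (mul_ne_zero hz hy) with b2 | b2
    · rw [cs1_neg (hk.2 (mul_neg_of_pos_of_neg b1 b2)), cs1_neg b2, EReal.coe_mul_bot_of_pos b3]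
    · rw [cs1_pos (hk.1 (mul_pos b1 b2)), cs1_pos b2, EReal.coe_mul_top_of_pos b3]

private theorem cs1_sI_right {x y z : ℝ} (hx : x ≠ 0) (hy : y ≠ 0) (hz : z ≠ 0) :
    cs1_sI (z * x) = cs1_sI (y * x) * ((z / y : ℝ) : EReal) := by
  have hk := cs1_key (x := x) (z := z) hy rfl
  have hy2 : 0 < y ^ 2 := by positivity
  rcases lt_or_gt_of_ne (mul_ne_zero hz hy) with b2 | b2
  · have b3 : z / y < 0 := by
      rw [cs1_div hy]
      exact div_neg_of_neg_of_pos b2 hy2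
    rcases lt_or_gt_of_ne (mul_ne_zero hy hx) with b1 | b1
    · rw [cs1_pos (hk.1 (mul_pos_of_neg_of_neg b1 b2)), cs1_neg b1, EReal.bot_mul_coe_of_neg b3]
    · rw [cs1_neg (hk.2 (mul_neg_of_pos_of_neg b1 b2)), cs1_pos b1, EReal.top_mul_coe_of_neg b3]
  · have b3 : 0 < z / y := by
      rw [cs1_div hy]
      exact div_pos b2 hy2
    rcases lt_or_gt_of_ne (mul_ne_zero hy hx) with b1 | b1
    · rw [cs1_neg (hk.2 (mul_neg_of_neg_of_pos b1 b2)), cs1_neg b1, EReal.bot_mul_coe_of_pos b3]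
    · rw [cs1_pos (hk.1 (mul_pos b1 b2)), cs1_pos b1, EReal.top_mul_coe_of_pos b3]

theorem exists_locNu (hG : LocIndic G) (F : Finset G) : ∃ ν, LocNu (F : Set G) ν := by
  classical
  obtain ⟨ℓ, v, hv, hH⟩ := exists_levels hG F
  obtain ⟨ν, hν⟩ : ∃ ν : G → G → EReal, ∀ h g, ν h g = if g = 1 ∨ ℓ h < ℓ g then 0 else
      if ℓ g = ℓ h then (((v g : ℝ) / (v h : ℝ) : ℝ) : EReal) else cs1_sI ((v g : ℝ) * (v h : ℝ)) :=
    ⟨_, fun _ _ => rfl⟩
  have hvr : ∀ g ∈ F, g ≠ 1 → (v g : ℝ) ≠ 0 := by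
    intro g hg hg1
    exact_mod_cast hv g hg hg1
  have n0 : ∀ h g, g = 1 ∨ ℓ h < ℓ g → ν h g = 0 := by
    intro h g hc
    rw [hν, if_pos hc]
  have n1 : ∀ h g, g ≠ 1 → ℓ g = ℓ h → ν h g = (((v g : ℝ) / (v h : ℝ) : ℝ) : EReal) := by
    intro h g hg1 hc
    rw [hν, if_neg (by rintro (h1 | h1); exacts [hg1 h1, by omega]), if_pos hc]
  have n2 : ∀ h g, g ≠ 1 → ℓ g < ℓ h → ν h g = cs1_sI ((v g : ℝ) * (v h : ℝ)) := by
    intro h g hg1 hc
    rw [hν, if_neg (by rintro (h1 | h1); exacts [hg1 h1, by omega]), if_neg (by omega)]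
  -- the value of the homomorphism of level `n`
  obtain ⟨w, hw⟩ : ∃ w : ℕ → G → ℤ, ∀ n g, w n g = if g ≠ 1 ∧ ℓ g = n then v g else 0 :=
    ⟨_, fun _ _ => rfl⟩
  have key : ∀ n, ∃ (H : Subgroup G) (ψ : H →* Multiplicative ℤ),
      (∀ g ∈ F, (g = 1 ∨ n ≤ ℓ g) ↔ g ∈ H) ∧
      ∀ g ∈ F, ∀ hg : g ∈ H, ψ ⟨g, hg⟩ = Multiplicative.ofAdd (w n g) := by
    intro n
    obtain ⟨H, ψ, -, h1, h2⟩ := hH n
    refine ⟨H, ψ, fun g hg => ?_, fun g hg hgH => ?_⟩
    · by_cases hg1 : g = 1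
      · subst hg1
        exact iff_of_true (Or.inl rfl) H.one_mem
      · rw [← h1 g hg hg1]
        constructor
        · rintro (h3 | h3)
          · exact absurd h3 hg1
          · exact h3
        · exact Or.inr
    · by_cases hg1 : g = 1
      · subst hg1
        rw [hw, if_neg (fun h => h.1 rfl), ofAdd_zero]
        exact map_one ψ
      · rw [h2 g hg hg1 hgH, hw]
        congr 1
        by_cases h3 : ℓ g = n
        · rw [if_pos h3, if_pos ⟨hg1, h3⟩]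
        · rw [if_neg h3, if_neg (fun h => h3 h.2)]
  have hνw : ∀ h g, (g = 1 ∨ ℓ h ≤ ℓ g) →
      ν h g = (((w (ℓ h) g : ℝ) / (v h : ℝ) : ℝ) : EReal) := by
    intro h g hc
    by_cases hg1 : g = 1
    · rw [n0 h g (Or.inl hg1), hw, if_neg (fun h => h.1 hg1)]
      simp
    · rcases hc with hc | hc
      · exact absurd hc hg1
      rcases hc.lt_or_eq with h3 | h3
      · rw [n0 h g (Or.inr h3), hw, if_neg (fun h => by omega)]
        simp
      · rw [n1 h g hg1 h3.symm, hw, if_pos ⟨hg1, h3.symm⟩]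
  have hfin : ∀ h g, ν h g ≠ ⊤ → ν h g ≠ ⊥ → g = 1 ∨ ℓ h ≤ ℓ g := by
    intro h g h1 h2
    by_contra hcon
    rw [not_or, not_le] at hcon
    rw [n2 h g hcon.1 hcon.2] at h1 h2
    rcases cs1_sI_or ((v g : ℝ) * (v h : ℝ)) with h3 | h3
    · exact h1 h3
    · exact h2 h3
  refine ⟨ν, ?_, ?_, ?_, ?_, ?_⟩
  · -- one
    intro h hh h1
    rw [n1 h h h1 rfl, div_self (hvr h hh h1)]
    rfl
  · -- triv
    intro h _ _
    exact n0 h 1 (Or.inl rfl)
  · -- add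
    intro h hh g hg g' hg' hgg' h1 f1 f2 f3 f4
    have c1 := hfin h g f1 f2
    have c2 := hfin h g' f3 f4
    obtain ⟨H, ψ, k1, k2⟩ := key (ℓ h)
    have m1 := (k1 g hg).1 c1
    have m2 := (k1 g' hg').1 c2
    have m3 := H.mul_mem m1 m2
    have c3 := (k1 _ hgg').2 m3
    have e1 := k2 g hg m1
    have e2 := k2 g' hg' m2
    have e3 := k2 _ hgg' m3
    have e4 : ψ ⟨g * g', m3⟩ = ψ ⟨g, m1⟩ * ψ ⟨g', m2⟩ := by
      rw [← map_mul]
      rfl
    rw [e1, e2, e3, ← ofAdd_add] at e4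
    have e5 := Multiplicative.ofAdd.injective e4
    rw [hνw h g c1, hνw h g' c2, hνw h _ c3, e5, ← EReal.coe_add]
    congr 1
    push_cast
    ring
  · -- inv
    intro h hh g hg hgi h1
    by_cases hg1 : g = 1
    · subst hg1
      rw [inv_one, n0 h 1 (Or.inl rfl), neg_zero]
    rcases le_or_gt (ℓ h) (ℓ g) with hc | hc
    · obtain ⟨H, ψ, k1, k2⟩ := key (ℓ h)
      have m1 := (k1 g hg).1 (Or.inr hc)
      have m3 := H.inv_mem m1
      have c3 := (k1 _ hgi).2 m3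
      have e1 := k2 g hg m1
      have e3 := k2 _ hgi m3
      have e4 : ψ ⟨g⁻¹, m3⟩ = (ψ ⟨g, m1⟩)⁻¹ := by
        rw [← map_inv]
        rfl
      rw [e1, e3, ← ofAdd_neg] at e4
      have e5 := Multiplicative.ofAdd.injective e4
      rw [hνw h g (Or.inr hc), hνw h _ c3, e5, ← EReal.coe_neg]
      congr 1
      push_cast
      ring
    · obtain ⟨H, ψ, k1, k2⟩ := key (ℓ g)
      have m1 := (k1 g hg).1 (Or.inr le_rfl)
      have m3 := H.inv_mem m1
      have e1 := k2 g hg m1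
      have e3 := k2 _ hgi m3
      have e4 : ψ ⟨g⁻¹, m3⟩ = (ψ ⟨g, m1⟩)⁻¹ := by
        rw [← map_inv]
        rfl
      rw [e1, e3, ← ofAdd_neg] at e4
      have e5 := Multiplicative.ofAdd.injective e4
      rw [hw (ℓ g) g, if_pos ⟨hg1, rfl⟩, hw] at e5
      have hv0 := hv g hg hg1
      have hc2 : g⁻¹ ≠ 1 ∧ ℓ g⁻¹ = ℓ g := by
        by_contra hcon
        rw [if_neg hcon] at e5
        omega
      rw [if_pos hc2] at e5
      rw [n2 h g hg1 hc, n2 h _ hc2.1 (by omega), e5]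
      have e6 : ((-v g : ℤ) : ℝ) * (v h : ℝ) = -((v g : ℝ) * (v h : ℝ)) := by
        push_cast
        ring
      rw [e6]
      exact cs1_sI_neg (mul_ne_zero (hvr g hg hg1) (hvr h hh h1))
  · -- mul
    intro h hh h' hh' g hg h1 h1' c1 c2
    by_cases hg1 : g = 1
    · rw [n0 h g (Or.inl hg1), n0 h' g (Or.inl hg1), mul_zero]
    have hx := hvr h hh h1
    have hy := hvr h' hh' h1'
    have hz := hvr g hg hg1
    rcases lt_trichotomy (ℓ h) (ℓ h') with hab | hab | hab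
    · have e1 := n0 h h' (Or.inr hab)
      rcases c1 with c1 | c1
      · exact absurd e1 c1
      rcases hfin h' g c1.1 c1.2 with h3 | h3
      · exact absurd h3 hg1
      rw [e1, zero_mul, n0 h g (Or.inr (by omega))]
    · rw [n1 h h' h1' hab.symm]
      rcases lt_trichotomy (ℓ h') (ℓ g) with hbc | hbc | hbc
      · rw [n0 h' g (Or.inr hbc), n0 h g (Or.inr (by omega)), mul_zero]
      · rw [n1 h' g hg1 hbc.symm, n1 h g hg1 (by omega), ← EReal.coe_mul]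
        congr 1
        field_simp
      · rw [n2 h' g hg1 hbc, n2 h g hg1 (by omega)]
        exact cs1_sI_left hx hy hz
    · rw [n2 h h' h1' hab]
      have hne : ¬ ((ν h h' ≠ ⊤) ∧ (ν h h' ≠ ⊥)) := by
        rintro ⟨h3, h4⟩
        rcases hfin h h' h3 h4 with h5 | h5
        · exact h1' h5
        · omega
      rcases c2 with c2 | c2
      · exact absurd c2 hne
      rcases lt_trichotomy (ℓ h') (ℓ g) with hbc | hbc | hbc
      · exact absurd (n0 h' g (Or.inr hbc)) c2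
      · rw [n1 h' g hg1 hbc.symm, n2 h g hg1 (by omega)]
        exact cs1_sI_right hx hy hz
      · rw [n2 h' g hg1 hbc, n2 h g hg1 (by omega)]
        exact cs1_sI_mul hx hy hz

end Pool.Agent.HFT
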