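import Pool.Agent.HFT.CS1

/-! # HFT/CS2: a global comparison function on a locally indicable group (helper49)

PROOF. For every finite `F` choose `ν_F` with `LocNu F ν_F` (`exists_locNu`). Let `U` be an ultrafilter on
`Finset G` with `U ≤ atTop` (so every fixed element of `G` belongs to `U`-almost all `F`). As `EReal` is
compact, for all `h, g` the function `F ↦ ν_F h g` has a limit `ν h g` along `U`
(`isCompact_univ.ultrafilter_le_nhds` for the image ultrafilter). `one`, `triv`: constant functions
(limits are unique, `EReal` is Hausdorff). `add`: if `ν h g` and `ν h g'` are finite (neither `⊤` nor `⊥`)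
then `U`-almost surely `ν_F h g`, `ν_F h g'` are finite (the finite elements form an open set) and
`ν_F h (g g') = ν_F h g + ν_F h g'`; the addition is continuous at a pair of finite elements
(`EReal.continuousAt_add`). `inv`: the negation is continuous. `mul`: under the two hypotheses on the
pair `(ν h h', ν h' g)` the multiplication of `EReal` is continuous at this pair
(`EReal.continuousAt_mul`), and the two hypotheses for the pair `(ν_F h h', ν_F h' g)` hold `U`-almost
surely: e.g. if `ν h h' ≠ 0` then `ν_F h h' ≠ 0` almost surely (open condition), all four conditions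
`≠ 0`, `≠ ⊤`, `≠ ⊥` are open. So `ν_F h g = ν_F h h' * ν_F h' g` almost surely and one passes to
the limit. -/

set_option autoImplicit false

universe u

namespace Pool.Agent.HFT

variable {G : Type u} [Group G]

theorem exists_nu (hG : LocIndic G) : ∃ ν : G → G → EReal, LocNu Set.univ ν := by
  classical
  have h0 : ∀ F : Finset G, ∃ ν : G → G → EReal, LocNu (F : Set G) ν := fun F => exists_locNu hG F
  choose ν' hν' using h0
  obtain ⟨U, hU⟩ : ∃ U : Ultrafilter (Finset G), (U : Filter (Finset G)) ≤ Filter.atTop :=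
    ⟨Ultrafilter.of Filter.atTop, Ultrafilter.of_le _⟩
  have hmem : ∀ g : G, ∀ᶠ F : Finset G in (U : Filter (Finset G)), g ∈ (F : Set G) := by
    intro g
    refine hU ?_
    filter_upwards [Filter.eventually_ge_atTop ({g} : Finset G)] with F hF
    exact hF (Finset.mem_singleton_self g)
  have hlim : ∀ h g : G, ∃ x : EReal, Filter.Tendsto (fun F => ν' F h g) U (nhds x) := by
    intro h g
    obtain ⟨x, -, hx⟩ := (isCompact_univ (X := EReal)).ultrafilter_le_nhds
      (U.map (fun F => ν' F h g)) (by simp)
    exact ⟨x, hx⟩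
  choose ν hν using hlim
  have hne : ∀ {h g : G} {c : EReal}, ν h g ≠ c →
      ∀ᶠ F in (U : Filter (Finset G)), ν' F h g ≠ c := fun {h g c} hc =>
    (hν h g).eventually (isOpen_ne.mem_nhds hc)
  refine ⟨ν, ?_, ?_, ?_, ?_, ?_⟩
  · intro h _ h1
    refine tendsto_nhds_unique_of_eventuallyEq (hν h h) tendsto_const_nhds ?_
    filter_upwards [hmem h] with F hF
    exact (hν' F).one h hF h1
  · intro h _ h1
    refine tendsto_nhds_unique_of_eventuallyEq (hν h 1) tendsto_const_nhds ?_
    filter_upwards [hmem h] with F hF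
    exact (hν' F).triv h hF h1
  · intro h _ g _ g' _ _ h1 a1 a2 a3 a4
    have h2 : Filter.Tendsto (fun F => ν' F h g + ν' F h g') U (nhds (ν h g + ν h g')) := by
      have h3 := EReal.continuousAt_add (p := (ν h g, ν h g')) (Or.inl a1) (Or.inl a2)
      exact h3.tendsto.comp ((hν h g).prodMk_nhds (hν h g'))
    refine tendsto_nhds_unique_of_eventuallyEq (hν h (g * g')) h2 ?_
    filter_upwards [hmem h, hmem g, hmem g', hmem (g * g'), hne a1, hne a2, hne a3, hne a4] with
      F b1 b2 b3 b4 b5 b6 b7 b8
    exact (hν' F).add h b1 g b2 g' b3 b4 h1 b5 b6 b7 b8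
  · intro h _ g _ _ h1
    have h2 : Filter.Tendsto (fun F => -ν' F h g) U (nhds (-ν h g)) :=
      (continuous_neg.tendsto _).comp (hν h g)
    refine tendsto_nhds_unique_of_eventuallyEq (hν h g⁻¹) h2 ?_
    filter_upwards [hmem h, hmem g, hmem g⁻¹] with F b1 b2 b3
    exact (hν' F).inv h b1 g b2 b3 h1
  · intro h _ h' _ g _ h1 h1' c1 c2
    have h2 : Filter.Tendsto (fun F => ν' F h h' * ν' F h' g) U (nhds (ν h h' * ν h' g)) := by
      have h3 := EReal.continuousAt_mul (p := (ν h h', ν h' g))
        (c1.imp_right fun x => x.2) (c1.imp_right fun x => x.1)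
        (c2.imp_left fun x => x.2) (c2.imp_left fun x => x.1)
      exact h3.tendsto.comp ((hν h h').prodMk_nhds (hν h' g))
    have e1 : ∀ᶠ F in (U : Filter (Finset G)),
        (ν' F h h' ≠ 0 ∨ (ν' F h' g ≠ ⊤ ∧ ν' F h' g ≠ ⊥)) := by
      rcases c1 with c | ⟨c, c'⟩
      · exact (hne c).mono fun F hF => Or.inl hF
      · filter_upwards [hne c, hne c'] with F b1 b2
        exact Or.inr ⟨b1, b2⟩
    have e2 : ∀ᶠ F in (U : Filter (Finset G)),
        ((ν' F h h' ≠ ⊤ ∧ ν' F h h' ≠ ⊥) ∨ ν' F h' g ≠ 0) := by
      rcases c2 with ⟨c, c'⟩ | c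
      · filter_upwards [hne c, hne c'] with F b1 b2
        exact Or.inl ⟨b1, b2⟩
      · exact (hne c).mono fun F hF => Or.inr hF
    refine tendsto_nhds_unique_of_eventuallyEq (hν h g) h2 ?_
    filter_upwards [hmem h, hmem h', hmem g, e1, e2] with F b1 b2 b3 b4 b5
    exact (hν' F).mul h b1 h' b2 g b3 h1 h1' b4 b5

end Pool.Agent.HFT
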