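import Pool.Agent.HFT.TLead

/-! # HFT/FinHF: a family for the whole group gives a Hughes-free division ring (helper49)

PROOF. `φE` is the ring homomorphism with `φE (single g r) = ρE r * αE g` (`MonoidAlgebra.liftNCRingHom`,
the images commute by `commE`).
`min_lead`: induction on the finite set `s`, for a family `x : κ → EC` of elements with leading
positions `Ld (x i) 1 (h i)`, the `h i` pairwise different: the sum over a nonempty set `s` has as
leading position at `1` the smallest one of the `h i`. For one element clear. For `x + y` with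
`Ld x 1 h`, `Ld y 1 h'`, `h < h'`: `x + y ≠ 0`, because otherwise `x = -y` and `Ld (-y) 1 h'` (`-1 = ρE (-1)`,
`ro`, `mul`), `h = h'` by `uq`. So `Ld (x + y) 1 l` (`ex`), `¬ (l < h ∧ l < h')` so `¬ l < h` (`lt_trans`);
`x = (x + y) + (-y)`: `¬ (h < l ∧ h < h')`, so `¬ h < l`, and `l = h` (`lt_tri`).
`sum_ne_zero` follows. Injectivity of `φE`: for `x ≠ 0`, `φE x = ∑ g ∈ x.support, ρE (x g) * αE g` and
`Ld (ρE (x g) * αE g) 1 g` (`al`, `ro`, `mul`), the positions `g` are different.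
`closure (range φE) = ⊤`: by `gen_iff` for `B = ⊤` every element is in `gen αE ρE ⊤`, and `ρE r`, `αE g`
are in the range of `φE`.
Third clause: let `H, f, t, s, d` be as in `HughesFree`, `B` := the image in `G` of the kernel of `f`
(subgroup `f.ker.map H.subtype`). `d i ∈ closure {φE (single n r) | n ∈ ker f} ⊆ gen αE ρE B`.
Suppose that some `d i ≠ 0`; let `s' = {i ∈ s | d i ≠ 0}`. For `i ∈ s'`: `Ld (φE (single t 1) ^ i) 1 (t^i)`
(`φE (single t 1) ^ i = αE (t^i)`, zpow), `Ld (d i) (t^i) h` for some `h`, and by `supp` `h = b t^i` with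
`b ∈ B`; so `Ld (d i * φE (single t 1) ^ i) 1 (b_i t^i)`. For `i ≠ i'` the elements `b_i t^i`, `b_i' t^i'` of `H`
are different since their images under `f` are `i ≠ i'`. So `∑_{s'} ≠ 0` by `sum_ne_zero`, a
contradiction. -/

set_option autoImplicit false

universe u w

namespace Pool.Agent.HFT

variable {G : Type u} [Group G] {S : ConradSys G} {R : Type u} [DivisionRing R]

namespace LeadSys

variable {A : Subgroup G} {D : Type w} [DivisionRing D] {α : A →* D} {ρ : R →+* D}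
  (L : LeadSys S R A D α ρ)

theorem Ld_neg' {x : D} {k h : G} (h1 : L.Ld x k h) : L.Ld (-x) k h := by
  have h2 : L.Ld (ρ (-1)) h h := L.ro (-1) h (by simp)
  have h3 := L.mul h1 h2
  rw [map_neg, map_one, neg_one_mul] at h3
  exact h3

theorem add_lt {x y : D} {k h h' : G} (h1 : L.Ld x k h) (h2 : L.Ld y k h') (hl : S.lt h h') :
    L.Ld (x + y) k h := by
  have h0 : x + y ≠ 0 := by
    intro h0
    have h3 : y = -x := by rw [eq_neg_iff_add_eq_zero, add_comm]; exact h0
    have h4 := L.Ld_neg' h1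
    rw [← h3] at h4
    have h5 := L.uq h4 h2
    rw [h5] at hl
    exact S.lt_irrefl _ hl
  obtain ⟨l, h3⟩ := L.ex _ h0 k
  have h4 := L.add h1 h2 h3
  have h5 : ¬ S.lt l h := fun c => h4 ⟨c, S.lt_trans c hl⟩
  have h6 : L.Ld (x + y + -y) k h := by rw [add_neg_cancel_right]; exact h1
  have h7 := L.add h3 (L.Ld_neg' h2) h6
  have h8 : ¬ S.lt h l := fun c => h7 ⟨c, hl⟩
  rcases S.lt_tri l h with h9 | h9 | h9
  · exact absurd h9 h5
  · rw [← h9]; exact h3
  · exact absurd h9 h8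

/-- a nonempty sum of elements with pairwise different leading positions at `k` has one of them
as leading position -/
theorem min_lead {κ : Type*} [DecidableEq κ] (s : Finset κ) (hs : s.Nonempty) (x : κ → D)
    (h : κ → G) (k : G) (hL : ∀ i ∈ s, L.Ld (x i) k (h i)) (hh : Set.InjOn h (s : Set κ)) :
    ∃ i ∈ s, L.Ld (∑ i ∈ s, x i) k (h i) := by
  induction s using Finset.induction_on with
  | empty => exact absurd hs (by simp)
  | insert a s ha ih =>
    rcases s.eq_empty_or_nonempty with h0 | h0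
    · subst h0
      refine ⟨a, by simp, ?_⟩
      have h1 := hL a (by simp)
      simpa using h1
    · obtain ⟨i, hi, h1⟩ := ih h0 (fun i hi => hL i (Finset.mem_insert_of_mem hi))
        (hh.mono (by
          intro i hi
          exact Finset.mem_coe.2 (Finset.mem_insert_of_mem (Finset.mem_coe.1 hi))))
      have h2 := hL a (Finset.mem_insert_self _ _)
      rw [Finset.sum_insert ha]
      rcases S.lt_tri (h a) (h i) with h3 | h3 | h3
      · exact ⟨a, Finset.mem_insert_self _ _, L.add_lt h2 h1 h3⟩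
      · have h4 := hh (Finset.mem_coe.2 (Finset.mem_insert_self a s))
          (Finset.mem_coe.2 (Finset.mem_insert_of_mem hi)) h3
        rw [h4] at ha
        exact absurd hi ha
      · refine ⟨i, Finset.mem_insert_of_mem hi, ?_⟩
        rw [add_comm]
        exact L.add_lt h1 h2 h3

theorem sum_ne_zero {κ : Type*} [DecidableEq κ] (s : Finset κ) (hs : s.Nonempty) (x : κ → D)
    (h : κ → G) (k : G) (hL : ∀ i ∈ s, L.Ld (x i) k (h i)) (hh : Set.InjOn h (s : Set κ)) :
    ∑ i ∈ s, x i ≠ 0 := by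
  obtain ⟨i, _, h1⟩ := L.min_lead s hs x h k hL hh
  exact L.ne h1

end LeadSys

namespace TSet

variable (𝒯 : TSet.{u, w} S R (⊤ : Subgroup G) Unit)

/-- the ring homomorphism from the group ring -/
noncomputable def φE : MonoidAlgebra R G →+* 𝒯.EC :=
  MonoidAlgebra.liftNCRingHom 𝒯.ρE (𝒯.αE.comp (Subgroup.topEquiv.symm.toMonoidHom))
    (fun r g => 𝒯.commE r _)

theorem φE_single (g : G) (r : R) :
    𝒯.φE (MonoidAlgebra.single g r) = 𝒯.ρE r * 𝒯.αE ⟨g, Subgroup.mem_top g⟩ :=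
  MonoidAlgebra.liftNC_single _ _ _ _

theorem Ld_φE_single (g : G) {r : R} (hr : r ≠ 0) :
    𝒯.leadSys.Ld (𝒯.φE (MonoidAlgebra.single g r)) 1 g := by
  rw [φE_single]
  have h1 := 𝒯.leadSys.al ⟨g, Subgroup.mem_top g⟩ 1
  rw [mul_one] at h1
  exact 𝒯.leadSys.mul h1 (𝒯.leadSys.ro r _ hr)

theorem φE_injective : Function.Injective 𝒯.φE := by
  classical
  rw [injective_iff_map_eq_zero]
  intro x hx
  by_contra h0
  have h1 : (∑ g ∈ x.coeff.support, 𝒯.φE (MonoidAlgebra.single g (x.coeff g))) = 0 := by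
    rw [← map_sum]
    have h2 : (∑ g ∈ x.coeff.support, (MonoidAlgebra.single g (x.coeff g) : MonoidAlgebra R G)) =
        x := MonoidAlgebra.sum_coeff_single x
    rw [h2]
    exact hx
  refine 𝒯.leadSys.sum_ne_zero x.coeff.support ?_
    (fun g => 𝒯.φE (MonoidAlgebra.single g (x.coeff g))) id 1 ?_ (Set.injOn_id _) h1
  · rw [Finset.nonempty_iff_ne_empty]
    intro h2
    apply h0
    have h3 := Finsupp.support_eq_empty.1 h2
    exact MonoidAlgebra.ext (h3.trans rfl)
  · intro g hg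
    exact 𝒯.Ld_φE_single g (Finsupp.mem_support_iff.1 hg)

theorem φE_single_mem {B : Subgroup G} {g : G} (hg : g ∈ B) (r : R) :
    𝒯.φE (MonoidAlgebra.single g r) ∈ gen 𝒯.αE 𝒯.ρE B := by
  rw [φE_single]
  refine mul_mem (Subfield.subset_closure (Or.inl ⟨r, rfl⟩))
    (Subfield.subset_closure (Or.inr ⟨⟨g, Subgroup.mem_top g⟩, hg, rfl⟩))

theorem closure_φE : Subfield.closure (Set.range 𝒯.φE) = ⊤ := by
  rw [eq_top_iff]
  intro x _
  have h1 : x ∈ gen 𝒯.αE 𝒯.ρE ⊤ := 𝒯.gen_iff.2 x.gen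
  refine (Subfield.closure_le.2 ?_ : gen 𝒯.αE 𝒯.ρE ⊤ ≤ _) h1
  rintro y (⟨r, rfl⟩ | ⟨b, _, rfl⟩)
  · refine Subfield.subset_closure ⟨MonoidAlgebra.single 1 r, ?_⟩
    rw [φE_single]
    have h2 : (⟨1, Subgroup.mem_top 1⟩ : (⊤ : Subgroup G)) = 1 := rfl
    rw [h2, map_one, mul_one]
  · refine Subfield.subset_closure ⟨MonoidAlgebra.single (b : G) 1, ?_⟩
    rw [φE_single, map_one, one_mul]

theorem hughesFree_φE : HughesFree R G 𝒯.EC 𝒯.φE := by
  classical
  refine ⟨𝒯.φE_injective, 𝒯.closure_φE, ?_⟩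
  intro H _ f _ t ht s d hd hsum i0 hi0
  by_contra hne
  obtain ⟨B, hB⟩ : ∃ B : Subgroup G, B = f.ker.map H.subtype := ⟨_, rfl⟩
  have hdB : ∀ i ∈ s, d i ∈ gen 𝒯.αE 𝒯.ρE B := by
    intro i hi
    refine (Subfield.closure_le.2 ?_ : _ ≤ gen 𝒯.αE 𝒯.ρE B) (hd i hi)
    rintro y ⟨n, r, hn, rfl⟩
    apply 𝒯.φE_single_mem
    rw [hB]
    exact ⟨n, hn, rfl⟩
  have hT : ∀ i : ℤ, 𝒯.leadSys.Ld ((𝒯.φE (MonoidAlgebra.single (t : G) 1)) ^ i) 1
      ((t : G) ^ i) := by
    intro i
    rw [φE_single, map_one, one_mul, ← map_zpow]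
    have h1 := 𝒯.leadSys.al ((⟨(t : G), Subgroup.mem_top _⟩ : (⊤ : Subgroup G)) ^ i) 1
    rw [mul_one] at h1
    exact h1
  have hex : ∀ i : ℤ, ∃ n : H, i ∈ s.filter (fun i => d i ≠ 0) → f n = 1 ∧
      𝒯.leadSys.Ld (d i * (𝒯.φE (MonoidAlgebra.single (t : G) 1)) ^ i) 1
        ((n : G) * (t : G) ^ i) := by
    intro i
    by_cases hi : i ∈ s.filter (fun i => d i ≠ 0)
    · obtain ⟨h1, h2⟩ := Finset.mem_filter.1 hi
      obtain ⟨l, h3⟩ := 𝒯.leadSys.ex (d i) h2 ((t : G) ^ i)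
      obtain ⟨a, h4, h5⟩ := 𝒯.leadSys.supp (hdB i h1) h3
      rw [hB] at h4
      obtain ⟨n, h6, h7⟩ := h4
      refine ⟨n, fun _ => ⟨h6, ?_⟩⟩
      have h8 : (n : G) = a := h7
      rw [h8, ← h5]
      exact 𝒯.leadSys.mul (hT i) h3
    · exact ⟨1, fun h => absurd h hi⟩
  choose n hn using hex
  refine 𝒯.leadSys.sum_ne_zero (s.filter (fun i => d i ≠ 0)) ⟨i0, Finset.mem_filter.2 ⟨hi0, hne⟩⟩
    (fun i => d i * (𝒯.φE (MonoidAlgebra.single (t : G) 1)) ^ i)
    (fun i => (n i : G) * (t : G) ^ i) 1 (fun i hi => (hn i hi).2) ?_ ?_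
  · intro i hi j hj hij
    have h1 := (hn i (Finset.mem_coe.1 hi)).1
    have h2 := (hn j (Finset.mem_coe.1 hj)).1
    have h3 : n i * t ^ i = n j * t ^ j := by
      apply Subtype.ext
      simpa using hij
    have h4 := congrArg f h3
    rw [map_mul, map_mul, h1, h2, one_mul, one_mul, map_zpow, map_zpow, ht, ← ofAdd_zsmul,
      ← ofAdd_zsmul, smul_eq_mul, smul_eq_mul, mul_one, mul_one] at h4
    exact Multiplicative.ofAdd.injective h4
  · refine (Finset.sum_subset (Finset.filter_subset _ _) fun i hi hi' => ?_).trans hsum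
    have h1 : d i = 0 := by
      by_contra h2
      exact hi' (Finset.mem_filter.2 ⟨hi, h2⟩)
    rw [h1, zero_mul]

end TSet

end Pool.Agent.HFT
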