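import Mathlib

/-! # HFT/SpDef: trees of vector spaces, definitions (helper49)

Objects: finite dimensional left vector spaces `V ν` over the division rings `DV ν` of the vertex types and
`C` over the division ring `DC` of the edges, with two semilinear maps `f : C → V s`, `g : C → V t`. -/

set_option autoImplicit false

universe u

open CategoryTheory

namespace Pool.Agent.HFT

/-- division rings for the vertex types and for the edges -/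
structure SpData where
  Vt : Type
  [ft : Fintype Vt]
  [de : DecidableEq Vt]
  DV : Vt → Type u
  [dv : ∀ ν, DivisionRing (DV ν)]
  DC : Type u
  [dc : DivisionRing DC]
  s : Vt
  t : Vt
  σ : DC →+* DV s
  τ : DC →+* DV t

attribute [instance] SpData.ft SpData.de SpData.dv SpData.dc

/-- a representation -/
structure SpObj (𝒮 : SpData.{u}) where
  V : 𝒮.Vt → Type u
  C : Type u
  [aV : ∀ ν, AddCommGroup (V ν)]
  [mV : ∀ ν, Module (𝒮.DV ν) (V ν)]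
  [fV : ∀ ν, Module.Finite (𝒮.DV ν) (V ν)]
  [aC : AddCommGroup C]
  [mC : Module 𝒮.DC C]
  [fC : Module.Finite 𝒮.DC C]
  f : C →ₛₗ[𝒮.σ] V 𝒮.s
  g : C →ₛₗ[𝒮.τ] V 𝒮.t

attribute [instance] SpObj.aV SpObj.mV SpObj.fV SpObj.aC SpObj.mC SpObj.fC

variable {𝒮 : SpData.{u}}

/-- morphisms -/
@[ext] structure SpHom (X Y : SpObj 𝒮) where
  v : ∀ ν, X.V ν →ₗ[𝒮.DV ν] Y.V ν
  c : X.C →ₗ[𝒮.DC] Y.C
  hf : ∀ x, v 𝒮.s (X.f x) = Y.f (c x)
  hg : ∀ x, v 𝒮.t (X.g x) = Y.g (c x)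

namespace SpHom

instance instZero (X Y : SpObj 𝒮) : Zero (SpHom X Y) :=
  ⟨⟨0, 0, fun x => by simp, fun x => by simp⟩⟩

instance instAdd (X Y : SpObj 𝒮) : Add (SpHom X Y) :=
  ⟨fun a b => ⟨a.v + b.v, a.c + b.c, fun x => by simp [a.hf, b.hf], fun x => by simp [a.hg, b.hg]⟩⟩

instance instNeg (X Y : SpObj 𝒮) : Neg (SpHom X Y) :=
  ⟨fun a => ⟨-a.v, -a.c, fun x => by simp [a.hf], fun x => by simp [a.hg]⟩⟩

@[simp] theorem zero_v {X Y : SpObj 𝒮} (ν : 𝒮.Vt) : (0 : SpHom X Y).v ν = 0 := rfl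
@[simp] theorem zero_c {X Y : SpObj 𝒮} : (0 : SpHom X Y).c = 0 := rfl
@[simp] theorem add_v {X Y : SpObj 𝒮} (a b : SpHom X Y) (ν : 𝒮.Vt) : (a + b).v ν = a.v ν + b.v ν := rfl
@[simp] theorem add_c {X Y : SpObj 𝒮} (a b : SpHom X Y) : (a + b).c = a.c + b.c := rfl
@[simp] theorem neg_v {X Y : SpObj 𝒮} (a : SpHom X Y) (ν : 𝒮.Vt) : (-a).v ν = -a.v ν := rfl
@[simp] theorem neg_c {X Y : SpObj 𝒮} (a : SpHom X Y) : (-a).c = -a.c := rfl

theorem ext' {X Y : SpObj 𝒮} {a b : SpHom X Y} (h : ∀ ν x, a.v ν x = b.v ν x)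
    (h' : ∀ x, a.c x = b.c x) : a = b := by
  apply SpHom.ext
  · funext ν; exact LinearMap.ext (h ν)
  · exact LinearMap.ext h'

instance instAddCommGroup (X Y : SpObj 𝒮) : AddCommGroup (SpHom X Y) where
  add_assoc a b c := by
    apply ext' <;> intros <;> simp [add_assoc]
  zero_add a := by
    apply ext' <;> intros <;> simp
  add_zero a := by
    apply ext' <;> intros <;> simp
  add_comm a b := by
    apply ext' <;> intros <;> simp [add_comm]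
  neg_add_cancel a := by
    apply ext' <;> intros <;> simp
  nsmul := nsmulRec
  zsmul := zsmulRec

end SpHom

instance SpObj.category : Category (SpObj 𝒮) where
  Hom X Y := SpHom X Y
  id X := ⟨fun _ => LinearMap.id, LinearMap.id, fun _ => rfl, fun _ => rfl⟩
  comp a b := ⟨fun ν => (b.v ν).comp (a.v ν), b.c.comp a.c,
    fun x => by simp [a.hf, b.hf], fun x => by simp [a.hg, b.hg]⟩

/-- the vertex components of a morphism -/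
def SpObj.v {X Y : SpObj 𝒮} (a : X ⟶ Y) (ν : 𝒮.Vt) : X.V ν →ₗ[𝒮.DV ν] Y.V ν := SpHom.v a ν

/-- the edge component of a morphism -/
def SpObj.c {X Y : SpObj 𝒮} (a : X ⟶ Y) : X.C →ₗ[𝒮.DC] Y.C := SpHom.c a

/-- a morphism from its components -/
def SpObj.mkHom {X Y : SpObj 𝒮} (v : ∀ ν, X.V ν →ₗ[𝒮.DV ν] Y.V ν) (c : X.C →ₗ[𝒮.DC] Y.C)
    (hf : ∀ x, v 𝒮.s (X.f x) = Y.f (c x)) (hg : ∀ x, v 𝒮.t (X.g x) = Y.g (c x)) : X ⟶ Y :=
  SpHom.mk v c hf hg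

namespace SpObj

@[simp] theorem mkHom_v {X Y : SpObj 𝒮} (v : ∀ ν, X.V ν →ₗ[𝒮.DV ν] Y.V ν)
    (c : X.C →ₗ[𝒮.DC] Y.C) (hf : ∀ x, v 𝒮.s (X.f x) = Y.f (c x))
    (hg : ∀ x, v 𝒮.t (X.g x) = Y.g (c x)) (ν : 𝒮.Vt) :
    SpObj.v (mkHom v c hf hg) ν = v ν := rfl

@[simp] theorem mkHom_c {X Y : SpObj 𝒮} (v : ∀ ν, X.V ν →ₗ[𝒮.DV ν] Y.V ν)
    (c : X.C →ₗ[𝒮.DC] Y.C) (hf : ∀ x, v 𝒮.s (X.f x) = Y.f (c x))
    (hg : ∀ x, v 𝒮.t (X.g x) = Y.g (c x)) : SpObj.c (mkHom v c hf hg) = c := rfl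

theorem hom_ext {X Y : SpObj 𝒮} {a b : X ⟶ Y} (h : ∀ ν x, SpObj.v a ν x = SpObj.v b ν x)
    (h' : ∀ x, SpObj.c a x = SpObj.c b x) : a = b := SpHom.ext' h h'

theorem v_f {X Y : SpObj 𝒮} (a : X ⟶ Y) (x : X.C) :
    SpObj.v a 𝒮.s (X.f x) = Y.f (SpObj.c a x) := SpHom.hf a x

theorem v_g {X Y : SpObj 𝒮} (a : X ⟶ Y) (x : X.C) :
    SpObj.v a 𝒮.t (X.g x) = Y.g (SpObj.c a x) := SpHom.hg a x

@[simp] theorem id_v (X : SpObj 𝒮) (ν : 𝒮.Vt) : SpObj.v (𝟙 X) ν = LinearMap.id := rfl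
@[simp] theorem id_c (X : SpObj 𝒮) : SpObj.c (𝟙 X) = LinearMap.id := rfl
@[simp] theorem comp_v {X Y Z : SpObj 𝒮} (a : X ⟶ Y) (b : Y ⟶ Z) (ν : 𝒮.Vt) :
    SpObj.v (a ≫ b) ν = (SpObj.v b ν).comp (SpObj.v a ν) := rfl
@[simp] theorem comp_c {X Y Z : SpObj 𝒮} (a : X ⟶ Y) (b : Y ⟶ Z) :
    SpObj.c (a ≫ b) = (SpObj.c b).comp (SpObj.c a) := rfl

instance preadd : Preadditive (SpObj 𝒮) where
  homGroup X Y := SpHom.instAddCommGroup X Y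
  add_comp X Y Z a a' b := hom_ext (fun ν x => map_add (SpHom.v b ν) _ _)
    (fun x => map_add (SpHom.c b) _ _)
  comp_add X Y Z a b b' := hom_ext (fun ν x => rfl) (fun x => rfl)

@[simp] theorem hadd_v {X Y : SpObj 𝒮} (a b : X ⟶ Y) (ν : 𝒮.Vt) :
    SpObj.v (a + b) ν = SpObj.v a ν + SpObj.v b ν := rfl
@[simp] theorem hadd_c {X Y : SpObj 𝒮} (a b : X ⟶ Y) :
    SpObj.c (a + b) = SpObj.c a + SpObj.c b := rfl
@[simp] theorem hneg_v {X Y : SpObj 𝒮} (a : X ⟶ Y) (ν : 𝒮.Vt) :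
    SpObj.v (-a) ν = -SpObj.v a ν := rfl
@[simp] theorem hneg_c {X Y : SpObj 𝒮} (a : X ⟶ Y) : SpObj.c (-a) = -SpObj.c a := rfl
@[simp] theorem hzero_v {X Y : SpObj 𝒮} (ν : 𝒮.Vt) : SpObj.v (0 : X ⟶ Y) ν = 0 := rfl
@[simp] theorem hzero_c {X Y : SpObj 𝒮} : SpObj.c (0 : X ⟶ Y) = 0 := rfl

end SpObj

/-- subobjects -/
@[ext] structure SpSub (X : SpObj 𝒮) where
  v : ∀ ν, Submodule (𝒮.DV ν) (X.V ν)
  c : Submodule 𝒮.DC X.C
  hf : ∀ x ∈ c, X.f x ∈ v 𝒮.s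
  hg : ∀ x ∈ c, X.g x ∈ v 𝒮.t

namespace SpSub

instance (X : SpObj 𝒮) : Top (SpSub X) :=
  ⟨⟨fun _ => ⊤, ⊤, fun _ _ => trivial, fun _ _ => trivial⟩⟩

instance (X : SpObj 𝒮) : Bot (SpSub X) :=
  ⟨⟨fun _ => ⊥, ⊥, fun x hx => by
      have h : x = 0 := hx
      rw [h, map_zero]; exact Submodule.zero_mem _, fun x hx => by
      have h : x = 0 := hx
      rw [h, map_zero]; exact Submodule.zero_mem _⟩⟩

/-- the quotient by a subobject -/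
def quo {X : SpObj 𝒮} (K : SpSub X) : SpObj 𝒮 where
  V ν := X.V ν ⧸ K.v ν
  C := X.C ⧸ K.c
  f := Submodule.mapQ K.c (K.v 𝒮.s) X.f (fun x hx => K.hf x hx)
  g := Submodule.mapQ K.c (K.v 𝒮.t) X.g (fun x hx => K.hg x hx)

/-- the projection -/
def proj {X : SpObj 𝒮} (K : SpSub X) : X ⟶ K.quo :=
  SpObj.mkHom (fun ν => (K.v ν).mkQ) K.c.mkQ (fun _ => rfl) (fun _ => rfl)

/-- morphisms from the quotient -/
def desc {X Z : SpObj 𝒮} (K : SpSub X) (a : X ⟶ Z) (hv : ∀ ν, ∀ x ∈ K.v ν, SpObj.v a ν x = 0)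
    (hc : ∀ x ∈ K.c, SpObj.c a x = 0) : K.quo ⟶ Z :=
  SpObj.mkHom (fun ν => (K.v ν).liftQ (SpObj.v a ν) (fun x hx => hv ν x hx))
    (K.c.liftQ (SpObj.c a) (fun x hx => hc x hx))
    (fun x => by
      obtain ⟨y, rfl⟩ := Submodule.mkQ_surjective K.c x
      exact SpObj.v_f a y)
    (fun x => by
      obtain ⟨y, rfl⟩ := Submodule.mkQ_surjective K.c x
      exact SpObj.v_g a y)

/-- the range of a morphism -/
def range {X Y : SpObj 𝒮} (a : X ⟶ Y) : SpSub Y where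
  v ν := LinearMap.range (SpObj.v a ν)
  c := LinearMap.range (SpObj.c a)
  hf := by
    rintro _ ⟨x, rfl⟩
    exact ⟨X.f x, SpObj.v_f a x⟩
  hg := by
    rintro _ ⟨x, rfl⟩
    exact ⟨X.g x, SpObj.v_g a x⟩

/-- the preimage of a subobject -/
def comap {X Y : SpObj 𝒮} (a : X ⟶ Y) (K : SpSub Y) : SpSub X where
  v ν := (K.v ν).comap (SpObj.v a ν)
  c := K.c.comap (SpObj.c a)
  hf x hx := by
    show SpObj.v a 𝒮.s (X.f x) ∈ K.v 𝒮.s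
    rw [SpObj.v_f]; exact K.hf _ hx
  hg x hx := by
    show SpObj.v a 𝒮.t (X.g x) ∈ K.v 𝒮.t
    rw [SpObj.v_g]; exact K.hg _ hx

/-- the image of a subobject -/
def map {X Y : SpObj 𝒮} (a : X ⟶ Y) (K : SpSub X) : SpSub Y where
  v ν := (K.v ν).map (SpObj.v a ν)
  c := K.c.map (SpObj.c a)
  hf := by
    rintro _ ⟨x, hx, rfl⟩
    exact ⟨X.f x, K.hf x hx, SpObj.v_f a x⟩
  hg := by
    rintro _ ⟨x, hx, rfl⟩
    exact ⟨X.g x, K.hg x hx, SpObj.v_g a x⟩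

/-- the Euler characteristic of a subobject -/
noncomputable def chi {X : SpObj 𝒮} (K : SpSub X) : ℤ :=
  (∑ ν, (Module.finrank (𝒮.DV ν) (K.v ν) : ℤ)) - (Module.finrank 𝒮.DC K.c : ℤ)

end SpSub

namespace SpObj

/-- the Euler characteristic -/
noncomputable def chi (X : SpObj 𝒮) : ℤ :=
  (∑ ν, (Module.finrank (𝒮.DV ν) (X.V ν) : ℤ)) - (Module.finrank 𝒮.DC X.C : ℤ)

/-- the rank: the largest Euler characteristic of a quotient -/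
noncomputable def rho (X : SpObj 𝒮) : ℕ :=
  sSup {n : ℕ | ∃ K : SpSub X, (n : ℤ) ≤ X.chi - K.chi}

end SpObj

end Pool.Agent.HFT
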