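import Pool.Agent.HFT.Basic
import Pool.Agent.HFT.SpDef

/-! # HFT/GDef: one-edge graphs of groups with division rings, and labelled graphs (helper49)

Definitions. The group `G` is an amalgam (`s ≠ t`, `tt = 1`) or an HNN extension (`s = t`, `tt` the
stable letter); `univ` is its universal property. -/

set_option autoImplicit false

universe u

open CategoryTheory

namespace Pool.Agent.HFT

/-- division rings with leading positions for a one-edge graph of groups -/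
structure GData {G : Type u} [Group G] (S : ConradSys G) (R : Type u) [DivisionRing R] where
  sp : SpData.{u}
  A : sp.Vt → Subgroup G
  Cc : Subgroup G
  tt : G
  hS : Cc ≤ A sp.s
  hT : ∀ c ∈ Cc, tt⁻¹ * c * tt ∈ A sp.t
  αV : ∀ ν, A ν →* sp.DV ν
  ρV : ∀ ν, R →+* sp.DV ν
  αC : Cc →* sp.DC
  ρC : R →+* sp.DC
  commV : ∀ ν r a, ρV ν r * αV ν a = αV ν a * ρV ν r
  commC : ∀ r a, ρC r * αC a = αC a * ρC r
  LV : ∀ ν, LeadSys S R (A ν) (sp.DV ν) (αV ν) (ρV ν)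
  LC : LeadSys S R Cc sp.DC αC ρC
  σα : ∀ c : Cc, sp.σ (αC c) = αV sp.s ⟨c, hS c.2⟩
  σρ : ∀ r, sp.σ (ρC r) = ρV sp.s r
  τα : ∀ c : Cc, sp.τ (αC c) = αV sp.t ⟨tt⁻¹ * c * tt, hT c c.2⟩
  τρ : ∀ r, sp.τ (ρC r) = ρV sp.t r
  σL : ∀ {x : sp.DC} {k h : G}, LC.Ld x k h → (LV sp.s).Ld (sp.σ x) k h
  τL : ∀ {x : sp.DC} {k h : G}, LC.Ld x k h → (LV sp.t).Ld (sp.τ x) (tt⁻¹ * k) (tt⁻¹ * h)
  types : ∀ ν, ν = sp.s ∨ ν = sp.t
  hst : sp.s ≠ sp.t → tt = 1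
  gen : Subgroup.closure (((A sp.s : Set G) ∪ (A sp.t : Set G)) ∪ {tt}) = ⊤
  univ : ∀ (H : Type (u + 1)) [Group H] (F : ∀ ν, A ν →* H) (h : H),
    (∀ c : Cc, F sp.s ⟨c, hS c.2⟩ * h = h * F sp.t ⟨tt⁻¹ * c * tt, hT c c.2⟩) →
    (sp.s ≠ sp.t → h = 1) →
    ∃ φ : G →* H, (∀ ν (a : A ν), φ a = F ν a) ∧ φ tt = h

variable {G : Type u} [Group G] {S : ConradSys G} {R : Type u} [DivisionRing R]

/-- labelled graphs -/
structure LG (𝒢 : GData S R) where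
  V : 𝒢.sp.Vt → Type
  E : Type
  [fV : ∀ ν, Fintype (V ν)]
  [fE : Fintype E]
  [dV : ∀ ν, DecidableEq (V ν)]
  [dE : DecidableEq E]
  gV : ∀ ν, V ν → G
  gE : E → G
  sE : E → V 𝒢.sp.s
  tE : E → V 𝒢.sp.t
  mS : ∀ e, gE e * (gV _ (sE e))⁻¹ ∈ 𝒢.A 𝒢.sp.s
  mT : ∀ e, 𝒢.tt⁻¹ * gE e * (gV _ (tE e))⁻¹ ∈ 𝒢.A 𝒢.sp.t

attribute [instance] LG.fV LG.fE LG.dV LG.dE

namespace LG

variable {𝒢 : GData S R} (T : LG 𝒢)

/-- coefficient of an edge at its source -/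
def cS (e : T.E) : 𝒢.sp.DV 𝒢.sp.s := 𝒢.αV 𝒢.sp.s ⟨_, T.mS e⟩

/-- coefficient of an edge at its target -/
def cT (e : T.E) : 𝒢.sp.DV 𝒢.sp.t := 𝒢.αV 𝒢.sp.t ⟨_, T.mT e⟩

/-- the representation of a labelled graph -/
def obj : SpObj 𝒢.sp where
  V ν := T.V ν → 𝒢.sp.DV ν
  C := T.E → 𝒢.sp.DC
  f := { toFun := fun x v => ∑ e, if T.sE e = v then 𝒢.sp.σ (x e) * T.cS e else 0
         map_add' := fun x y => by
           funext v
           simp only [Pi.add_apply, map_add, add_mul]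
           rw [← Finset.sum_add_distrib]
           exact Finset.sum_congr rfl (fun e _ => by split_ifs <;> simp)
         map_smul' := fun c x => by
           funext v
           simp only [Pi.smul_apply, smul_eq_mul, map_mul, Finset.mul_sum]
           exact Finset.sum_congr rfl (fun e _ => by split_ifs <;> simp [mul_assoc]) }
  g := { toFun := fun x v => ∑ e, if T.tE e = v then 𝒢.sp.τ (x e) * T.cT e else 0
         map_add' := fun x y => by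
           funext v
           simp only [Pi.add_apply, map_add, add_mul]
           rw [← Finset.sum_add_distrib]
           exact Finset.sum_congr rfl (fun e _ => by split_ifs <;> simp)
         map_smul' := fun c x => by
           funext v
           simp only [Pi.smul_apply, smul_eq_mul, map_mul, Finset.mul_sum]
           exact Finset.sum_congr rfl (fun e _ => by split_ifs <;> simp [mul_assoc]) }

theorem obj_f (x : T.E → 𝒢.sp.DC) (v : T.V 𝒢.sp.s) :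
    T.obj.f x v = ∑ e, if T.sE e = v then 𝒢.sp.σ (x e) * T.cS e else 0 := rfl

theorem obj_g (x : T.E → 𝒢.sp.DC) (v : T.V 𝒢.sp.t) :
    T.obj.g x v = ∑ e, if T.tE e = v then 𝒢.sp.τ (x e) * T.cT e else 0 := rfl

/-- basis vector of a vertex -/
def eV {ν : 𝒢.sp.Vt} (v : T.V ν) : T.obj.V ν := (Pi.single v 1 : T.V ν → 𝒢.sp.DV ν)

/-- basis vector of an edge -/
def eE (e : T.E) : T.obj.C := (Pi.single e 1 : T.E → 𝒢.sp.DC)

/-- a single vertex of type `ν` with label `g` -/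
def pt (𝒢 : GData S R) (ν : 𝒢.sp.Vt) (g : G) : LG 𝒢 where
  V μ := PLift (ν = μ)
  E := Empty
  gV _ _ := g
  gE e := e.elim
  sE e := e.elim
  tE e := e.elim
  mS e := e.elim
  mT e := e.elim

/-- a single edge with label `1` -/
def edge (𝒢 : GData S R) : LG 𝒢 where
  V μ := PLift (𝒢.sp.s = μ) ⊕ PLift (𝒢.sp.t = μ)
  E := Unit
  gV _ := Sum.elim (fun _ => 1) (fun _ => 𝒢.tt⁻¹)
  gE _ := 1
  sE _ := Sum.inl ⟨rfl⟩
  tE _ := Sum.inr ⟨rfl⟩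
  mS _ := by simp
  mT _ := by simp

/-- attach a new edge with a new target vertex -/
def addT (v : T.V 𝒢.sp.s) (ge gw : G) (h1 : ge * (T.gV _ v)⁻¹ ∈ 𝒢.A 𝒢.sp.s)
    (h2 : 𝒢.tt⁻¹ * ge * gw⁻¹ ∈ 𝒢.A 𝒢.sp.t) : LG 𝒢 where
  V μ := T.V μ ⊕ PLift (𝒢.sp.t = μ)
  E := T.E ⊕ Unit
  gV μ := Sum.elim (T.gV μ) (fun _ => gw)
  gE := Sum.elim T.gE (fun _ => ge)
  sE := Sum.elim (fun e => Sum.inl (T.sE e)) (fun _ => Sum.inl v)
  tE := Sum.elim (fun e => Sum.inl (T.tE e)) (fun _ => Sum.inr ⟨rfl⟩)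
  mS e := by
    rcases e with e | e
    · exact T.mS e
    · exact h1
  mT e := by
    rcases e with e | e
    · exact T.mT e
    · exact h2

/-- attach a new edge with a new source vertex -/
def addS (w : T.V 𝒢.sp.t) (ge gv : G) (h1 : ge * gv⁻¹ ∈ 𝒢.A 𝒢.sp.s)
    (h2 : 𝒢.tt⁻¹ * ge * (T.gV _ w)⁻¹ ∈ 𝒢.A 𝒢.sp.t) : LG 𝒢 where
  V μ := T.V μ ⊕ PLift (𝒢.sp.s = μ)
  E := T.E ⊕ Unit
  gV μ := Sum.elim (T.gV μ) (fun _ => gv)
  gE := Sum.elim T.gE (fun _ => ge)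
  sE := Sum.elim (fun e => Sum.inl (T.sE e)) (fun _ => Sum.inr ⟨rfl⟩)
  tE := Sum.elim (fun e => Sum.inl (T.tE e)) (fun _ => Sum.inl w)
  mS e := by
    rcases e with e | e
    · exact T.mS e
    · exact h1
  mT e := by
    rcases e with e | e
    · exact T.mT e
    · exact h2

/-- disjoint copies -/
def copies (J : Type) [Fintype J] [DecidableEq J] : LG 𝒢 where
  V μ := T.V μ × J
  E := T.E × J
  gV μ p := T.gV μ p.1
  gE p := T.gE p.1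
  sE p := (T.sE p.1, p.2)
  tE p := (T.tE p.1, p.2)
  mS p := T.mS p.1
  mT p := T.mT p.1

/-- labelled trees -/
inductive Tree : LG 𝒢 → Prop
  | pt (ν : 𝒢.sp.Vt) (g : G) : Tree (pt 𝒢 ν g)
  | addT (T : LG 𝒢) (hT : Tree T) (v : T.V 𝒢.sp.s) (ge gw : G)
      (h1 : ge * (T.gV _ v)⁻¹ ∈ 𝒢.A 𝒢.sp.s) (h2 : 𝒢.tt⁻¹ * ge * gw⁻¹ ∈ 𝒢.A 𝒢.sp.t) :
      Tree (T.addT v ge gw h1 h2)
  | addS (T : LG 𝒢) (hT : Tree T) (w : T.V 𝒢.sp.t) (ge gv : G)
      (h1 : ge * gv⁻¹ ∈ 𝒢.A 𝒢.sp.s) (h2 : 𝒢.tt⁻¹ * ge * (T.gV _ w)⁻¹ ∈ 𝒢.A 𝒢.sp.t) :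
      Tree (T.addS w ge gv h1 h2)

end LG

end Pool.Agent.HFT
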