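import Pool.Agent.HFT.GTree

/-! # HFT/GF1: invertibility over `U` in terms of subobjects (helper49)

PROOF. `copiesPow`: the injections put a vector in the `j`-th copy (`Pi.single`-like:
`fun p => if p.2 = j then x p.1 else 0`), the projections restrict to the `j`-th copy; both commute with
`f`, `g`, since edges `(e, j)` end in vertices `(·, j)` with the same coefficients (`cS (e, j) = cS e`).
`homC_mem`: if `x ∈ K.c` then the components of `homC x` have values in `K` (`K.hf`, `K.hg`;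
the components are sums of `w • (h ▸ f x)`, `w • (h ▸ g x)`, `w • x`).
`map_row`: `rowC x = ∑ g ∈ x.coeff.support, ρC (x.coeff g) • eE (ε g)`, so `homC (rowC x) = ∑ rC (ρC (x g)) ≫ homC (eE (ε g))`
(`rC_comp`, `homC_add`), `L` of it is `∑ toMor (θ (single 1 (x g))) ≫ toMor (θ (single g 1)) ≫ Ψ` (`θR`, `tree_iso`),
i.e. `toMor (θ x) ≫ Ψ` since `x = ∑ single 1 (x g) * single g 1`.
`F1`: let `p := copiesPow (edge 𝒢)`, `q := copiesPow T`, `PCJ := ((edge 𝒢).copies J).obj`,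
`Y := (T.copies J).obj` and `m := ∑ i, p.proj i ≫ homC (rowsJ i) : PCJ ⟶ Y`. `rowsJ i = ∑ j, c (q.incl j) (rowC (M i j))`,
so `homC (rowsJ i) = ∑ j, homC (rowC (M i j)) ≫ q.incl j` (`homC_comp`) and
`L m = ∑ i, ∑ j, L (p.proj i) ≫ toMor (θ (M i j)) ≫ Ψ ≫ L (q.incl j) = (p.map L).mor (q.map L) Ψ (M.map θ)`. By
`Pow.isIso_iff` `IsUnit (M.map θ)` iff `L m` is an isomorphism iff `W m` (`RankFn.isIso_iff`) iff
(`rk_W_iff`) for all `K` containing the ranges of the components of `m`, `Y.chi ≤ K.chi`, and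
`rho PCJ = rho Y`. `Y.chi = card J * T.chi = card J` (`chi_obj`, `Tree.chi_eq`). `K` contains the ranges iff
`rowsJ i ∈ K.c` for all `i`: if so, use `homC_mem` for every summand; conversely
`rowsJ i = c m (basis vector)`: `p.incl i ≫ m = homC (rowsJ i)` and `homC_one`.
`rho_copies`: `rho ((pt s 1).copies J).obj = card J` (no edges: `X.chi - K.chi = card J - dim K_s ≤ card J`, `K = ⊥`);
`L T.obj ≅ L PC ≅ L (P s)` by `tree_iso` and `b s`, so `L Y ≅ L ((pt s 1).copies J).obj` by `Pow.iso` (applied to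
the images under `L` of the powers) and `rho_eq_of_iso`; the same for `PCJ`. -/

set_option autoImplicit false

universe u

open CategoryTheory CategoryTheory.Limits

namespace Pool.Agent.HFT

variable {G : Type u} [Group G] {S : ConradSys G} {R : Type u} [DivisionRing R]

namespace LG

variable {𝒢 : GData S R} (T : LG 𝒢)

/-- the vector of an element of the group ring, for a choice `ε g` of edges with label `g` -/
noncomputable def rowC (ε : G → T.E) (x : MonoidAlgebra R G) : T.obj.C :=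
  ∑ g ∈ x.coeff.support, 𝒢.ρC (x.coeff g) • T.eE (ε g)

/-- the rows of a matrix over the group ring -/
noncomputable def rowsJ {J : Type} [Fintype J] [DecidableEq J] (ε : G → T.E)
    (M : Matrix J J (MonoidAlgebra R G)) (i : J) : (T.copies J).obj.C :=
  (fun p => (T.rowC ε (M i p.2) : T.E → 𝒢.sp.DC) p.1 : T.E × J → 𝒢.sp.DC)

private def fI (𝕜 : Type u) [DivisionRing 𝕜] (V : Type) {J : Type} [DecidableEq J] (j : J) :
    (V → 𝕜) →ₗ[𝕜] (V × J → 𝕜) where
  toFun x p := if p.2 = j then x p.1 else 0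
  map_add' x y := by
    funext p
    by_cases h : p.2 = j <;> simp [h]
  map_smul' c x := by
    funext p
    by_cases h : p.2 = j <;> simp [h]

private def fP (𝕜 : Type u) [DivisionRing 𝕜] (V : Type) {J : Type} (j : J) :
    (V × J → 𝕜) →ₗ[𝕜] (V → 𝕜) where
  toFun x v := x (v, j)
  map_add' x y := rfl
  map_smul' c x := rfl

private theorem fPI {𝕜 : Type u} [DivisionRing 𝕜] {V : Type} {J : Type} [DecidableEq J] (i : J)
    (x : V → 𝕜) : fP 𝕜 V i (fI 𝕜 V i x) = x := by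
  funext v
  show (if i = i then x v else 0) = _
  rw [if_pos rfl]

private theorem fPI' {𝕜 : Type u} [DivisionRing 𝕜] {V : Type} {J : Type} [DecidableEq J] {i j : J}
    (h : i ≠ j) (x : V → 𝕜) : fP 𝕜 V j (fI 𝕜 V i x) = 0 := by
  funext v
  show (if j = i then x v else 0) = _
  rw [if_neg (fun h' => h h'.symm)]; rfl

private theorem fIP {𝕜 : Type u} [DivisionRing 𝕜] {V : Type} {J : Type} [Fintype J]
    [DecidableEq J] (x : V × J → 𝕜) : ∑ j, fI 𝕜 V j (fP 𝕜 V j x) = x := by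
  funext p
  rw [Finset.sum_apply]
  show ∑ j, (if p.2 = j then x (p.1, j) else 0) = x p
  rw [Finset.sum_ite_eq]
  simp

private theorem sum_pair {E V J : Type} [Fintype E] [DecidableEq V] [Fintype J] [DecidableEq J]
    {M : Type u} [AddCommMonoid M] (a : E → V) (v : V) (k : J) (F : E × J → M) :
    ∑ p : E × J, (if (a p.1, p.2) = (v, k) then F p else 0) =
      ∑ e, if a e = v then F (e, k) else 0 := by
  rw [Fintype.sum_prod_type]
  refine Finset.sum_congr rfl fun e _ => ?_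
  rw [Finset.sum_eq_single k]
  · by_cases h : a e = v
    · rw [if_pos h, if_pos (by rw [h])]
    · rw [if_neg h, if_neg (fun h' => h (congrArg Prod.fst h'))]
  · intro k' _ hk
    rw [if_neg (fun h' => hk (congrArg Prod.snd h'))]
  · intro h
    exact absurd (Finset.mem_univ _) h

private theorem copies_f (J : Type) [Fintype J] [DecidableEq J] (x : T.E × J → 𝒢.sp.DC)
    (v : T.V 𝒢.sp.s) (k : J) : (T.copies J).obj.f x (v, k) =
      ∑ e, if T.sE e = v then 𝒢.sp.σ (x (e, k)) * T.cS e else 0 :=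
  sum_pair T.sE v k (fun p => 𝒢.sp.σ (x p) * T.cS p.1)

private theorem copies_g (J : Type) [Fintype J] [DecidableEq J] (x : T.E × J → 𝒢.sp.DC)
    (v : T.V 𝒢.sp.t) (k : J) : (T.copies J).obj.g x (v, k) =
      ∑ e, if T.tE e = v then 𝒢.sp.τ (x (e, k)) * T.cT e else 0 :=
  sum_pair T.tE v k (fun p => 𝒢.sp.τ (x p) * T.cT p.1)

private def cInc (J : Type) [Fintype J] [DecidableEq J] (j : J) : T.obj ⟶ (T.copies J).obj :=
  SpObj.mkHom (fun ν => fI (𝒢.sp.DV ν) (T.V ν) j) (fI 𝒢.sp.DC T.E j)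
    (fun x => by
      funext p
      obtain ⟨v, k⟩ := p
      refine Eq.trans ?_ (T.copies_f J (fI 𝒢.sp.DC T.E j x) v k).symm
      show (if k = j then T.obj.f x v else 0) =
        ∑ e, if T.sE e = v then 𝒢.sp.σ (if k = j then x e else 0) * T.cS e else 0
      by_cases h : k = j
      · simp only [h, if_true]
        exact T.obj_f x v
      · simp only [h, if_false, map_zero, zero_mul, ite_self, Finset.sum_const_zero])
    (fun x => by
      funext p
      obtain ⟨v, k⟩ := p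
      refine Eq.trans ?_ (T.copies_g J (fI 𝒢.sp.DC T.E j x) v k).symm
      show (if k = j then T.obj.g x v else 0) =
        ∑ e, if T.tE e = v then 𝒢.sp.τ (if k = j then x e else 0) * T.cT e else 0
      by_cases h : k = j
      · simp only [h, if_true]
        exact T.obj_g x v
      · simp only [h, if_false, map_zero, zero_mul, ite_self, Finset.sum_const_zero])

private def cPrj (J : Type) [Fintype J] [DecidableEq J] (j : J) : (T.copies J).obj ⟶ T.obj :=
  SpObj.mkHom (fun ν => fP (𝒢.sp.DV ν) (T.V ν) j) (fP 𝒢.sp.DC T.E j)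
    (fun x => by
      funext v
      exact (T.copies_f J x v j).trans (T.obj_f (fun e => x (e, j)) v).symm)
    (fun x => by
      funext v
      exact (T.copies_g J x v j).trans (T.obj_g (fun e => x (e, j)) v).symm)

end LG

namespace SpObj

variable {𝒮 : SpData.{u}}

private def vHom {X Y : SpObj 𝒮} (ν : 𝒮.Vt) : (X ⟶ Y) →+ (X.V ν →ₗ[𝒮.DV ν] Y.V ν) where
  toFun a := SpObj.v a ν
  map_zero' := rfl
  map_add' _ _ := rfl

private def cHom {X Y : SpObj 𝒮} : (X ⟶ Y) →+ (X.C →ₗ[𝒮.DC] Y.C) where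
  toFun a := SpObj.c a
  map_zero' := rfl
  map_add' _ _ := rfl

private theorem v_sum {X Y : SpObj 𝒮} {I : Type} (F : Finset I) (a : I → (X ⟶ Y)) (ν : 𝒮.Vt)
    (x : X.V ν) : SpObj.v (∑ i ∈ F, a i) ν x = ∑ i ∈ F, SpObj.v (a i) ν x := by
  have h : SpObj.v (∑ i ∈ F, a i) ν = ∑ i ∈ F, SpObj.v (a i) ν := map_sum (vHom ν) a F
  rw [h, LinearMap.sum_apply]

private theorem c_sum {X Y : SpObj 𝒮} {I : Type} (F : Finset I) (a : I → (X ⟶ Y))
    (x : X.C) : SpObj.c (∑ i ∈ F, a i) x = ∑ i ∈ F, SpObj.c (a i) x := by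
  have h : SpObj.c (∑ i ∈ F, a i) = ∑ i ∈ F, SpObj.c (a i) := map_sum cHom a F
  rw [h, LinearMap.sum_apply]

end SpObj

namespace LG

variable {𝒢 : GData S R} (T : LG 𝒢)

theorem copiesPow (J : Type) [Fintype J] [DecidableEq J] :
    ∃ q : Pow T.obj (T.copies J).obj J,
      (∀ (j : J) (x : T.E → 𝒢.sp.DC), (SpObj.c (q.incl j) x : T.E × J → 𝒢.sp.DC) =
        fun p => if p.2 = j then x p.1 else 0) ∧
      (∀ (j : J) (x : T.E × J → 𝒢.sp.DC), (SpObj.c (q.proj j) x : T.E → 𝒢.sp.DC) =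
        fun e => x (e, j)) := by
  refine ⟨⟨T.cInc J, T.cPrj J, ?_, ?_⟩, fun j x => rfl, fun j x => rfl⟩
  · intro i j
    by_cases h : i = j
    · subst h
      rw [if_pos rfl]
      exact SpObj.hom_ext (fun ν x => fPI (𝕜 := 𝒢.sp.DV ν) (V := T.V ν) i x)
        (fun x => fPI (𝕜 := 𝒢.sp.DC) (V := T.E) i x)
    · rw [if_neg h]
      exact SpObj.hom_ext (fun ν x => fPI' (𝕜 := 𝒢.sp.DV ν) (V := T.V ν) h x)
        (fun x => fPI' (𝕜 := 𝒢.sp.DC) (V := T.E) h x)
  · refine SpObj.hom_ext (fun ν x => ?_) (fun x => ?_)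
    · rw [SpObj.v_sum]
      exact fIP (𝕜 := 𝒢.sp.DV ν) (V := T.V ν) x
    · rw [SpObj.c_sum]
      exact fIP (𝕜 := 𝒢.sp.DC) (V := T.E) x

end LG

namespace GData

variable {𝒢 : GData S R}

private theorem homCv_mem {X : SpObj 𝒢.sp} {x : X.C} (K : SpSub X) (hx : x ∈ K.c) (ν : 𝒢.sp.Vt)
    (w : (PLift (𝒢.sp.s = ν) ⊕ PLift (𝒢.sp.t = ν)) → 𝒢.sp.DV ν) : homCv x ν w ∈ K.v ν := by
  unfold homCv
  rw [LinearMap.add_apply, LinearMap.sum_apply, LinearMap.sum_apply]
  refine (K.v ν).add_mem ((K.v ν).sum_mem fun h _ => ?_) ((K.v ν).sum_mem fun h _ => ?_)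
  · obtain ⟨h⟩ := h
    subst h
    exact (K.v 𝒢.sp.s).smul_mem _ (K.hf x hx)
  · obtain ⟨h⟩ := h
    subst h
    exact (K.v 𝒢.sp.t).smul_mem _ (K.hg x hx)

theorem homC_mem {X : SpObj 𝒢.sp} {x : X.C} (K : SpSub X) (hx : x ∈ K.c) :
    (∀ ν, LinearMap.range (SpObj.v (homC x) ν) ≤ K.v ν) ∧
      LinearMap.range (SpObj.c (homC x)) ≤ K.c := by
  constructor
  · intro ν
    rintro _ ⟨w, rfl⟩
    exact homCv_mem K hx ν w
  · rintro _ ⟨w, rfl⟩
    exact K.c.smul_mem _ hx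

private theorem homC_sum {X : SpObj 𝒢.sp} {I : Type*} (F : Finset I) (x : I → X.C) :
    homC (∑ i ∈ F, x i) = ∑ i ∈ F, homC (x i) := by
  classical
  induction F using Finset.induction_on with
  | empty => rw [Finset.sum_empty, Finset.sum_empty, homC_zero]
  | insert a s ha ih => rw [Finset.sum_insert ha, Finset.sum_insert ha, homC_add, ih]

private theorem chi_copies (T : LG 𝒢) (J : Type) [Fintype J] [DecidableEq J] :
    (T.copies J).obj.chi = T.obj.chi * Fintype.card J := by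
  rw [LG.chi_obj, LG.chi_obj]
  have h1 : ∀ ν, (Fintype.card ((T.copies J).V ν) : ℤ) = Fintype.card (T.V ν) * Fintype.card J := by
    intro ν
    have h2 : Fintype.card ((T.copies J).V ν) = Fintype.card (T.V ν × J) := rfl
    rw [h2, Fintype.card_prod]
    push_cast
    ring
  have h3 : (Fintype.card (T.copies J).E : ℤ) = Fintype.card T.E * Fintype.card J := by
    have h2 : Fintype.card (T.copies J).E = Fintype.card (T.E × J) := rfl
    rw [h2, Fintype.card_prod]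
    push_cast
    ring
  rw [h3, sub_mul, Finset.sum_mul]
  simp only [h1]

private theorem rho_pt_copies (J : Type) [Fintype J] [DecidableEq J] :
    ((LG.pt 𝒢 𝒢.sp.s 1).copies J).obj.rho = Fintype.card J := by
  have h1 : (LG.pt 𝒢 𝒢.sp.s 1).obj.chi = 1 := (LG.Tree.pt 𝒢.sp.s 1).chi_eq
  have h2 := chi_copies (LG.pt 𝒢 𝒢.sp.s 1) J
  rw [h1, one_mul] at h2
  have hE : Subsingleton ((LG.pt 𝒢 𝒢.sp.s 1).copies J).obj.C := by
    refine ⟨fun a b => ?_⟩
    funext e
    exact (e : Empty × J).1.elim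
  apply le_antisymm
  · rw [SpObj.rho_le_iff]
    intro K
    rw [h2]
    have h3 : 0 ≤ K.chi := by
      unfold SpSub.chi
      have h4 : Module.finrank 𝒢.sp.DC K.c = 0 := Module.finrank_zero_of_subsingleton
      rw [h4]
      simp only [Nat.cast_zero, sub_zero]
      exact Finset.sum_nonneg fun ν _ => Nat.cast_nonneg _
    push_cast
    linarith
  · have h3 := SpObj.le_rho (⊥ : SpSub ((LG.pt 𝒢 𝒢.sp.s 1).copies J).obj)
    rw [h2, SpObj.chi_bot, sub_zero] at h3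
    exact_mod_cast h3

private theorem rho_of_iso {T T' : LG 𝒢} (e : 𝒢.L.obj T.obj ≅ 𝒢.L.obj T'.obj)
    (J : Type) [Fintype J] [DecidableEq J] : (T.copies J).obj.rho = (T'.copies J).obj.rho := by
  obtain ⟨q, _, _⟩ := T.copiesPow J
  obtain ⟨q', _, _⟩ := T'.copiesPow J
  obtain ⟨f⟩ := (q.map 𝒢.L).iso (q'.map 𝒢.L) e
  exact (SpObj.rk 𝒢.sp).rho_eq_of_iso 𝒢.L f

theorem rho_copies (Θ : 𝒢.Theta) {T : LG 𝒢} (hT : T.Tree) (J : Type) [Fintype J]
    [DecidableEq J] : (T.copies J).obj.rho = Fintype.card J := by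
  obtain ⟨Ψ, _, _⟩ := tree_iso Θ hT
  rw [← rho_pt_copies (𝒢 := 𝒢) J]
  exact rho_of_iso (Ψ.symm ≪≫ (Θ.b 𝒢.sp.s).symm) J

theorem rho_edge_copies (Θ : 𝒢.Theta) (J : Type) [Fintype J]
    [DecidableEq J] : ((LG.edge 𝒢).copies J).obj.rho = Fintype.card J := by
  rw [← rho_pt_copies (𝒢 := 𝒢) J]
  exact rho_of_iso (T := LG.edge 𝒢) (T' := LG.pt 𝒢 𝒢.sp.s 1) (Θ.b 𝒢.sp.s).symm J

private theorem map_row (Θ : 𝒢.Theta) {T : LG 𝒢}
    (Ψ : 𝒢.L.obj 𝒢.PC ≅ 𝒢.L.obj T.obj)
    (hΨ : ∀ e : T.E, 𝒢.L.map (homC (T.eE e)) =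
        𝒢.toMor (Θ.θ (MonoidAlgebra.single (T.gE e) 1)) ≫ Ψ.hom)
    (ε : G → T.E) (x : MonoidAlgebra R G) (hε : ∀ g ∈ x.coeff.support, T.gE (ε g) = g) :
    𝒢.L.map (homC (T.rowC ε x)) = 𝒢.toMor (Θ.θ x) ≫ Ψ.hom := by
  have hx : x = ∑ g ∈ x.coeff.support, MonoidAlgebra.single 1 (x.coeff g) *
      MonoidAlgebra.single g 1 := by
    apply MonoidAlgebra.ext
    rw [MonoidAlgebra.coeff_sum]
    conv_lhs => rw [← Finsupp.sum_single x.coeff]
    refine Finset.sum_congr rfl fun g _ => ?_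
    rw [MonoidAlgebra.single_mul_single, one_mul, mul_one]
    rfl
  have hr : ∀ g ∈ x.coeff.support, 𝒢.L.map (homC (𝒢.ρC (x.coeff g) • T.eE (ε g))) =
      𝒢.toMor (Θ.θ (MonoidAlgebra.single 1 (x.coeff g) * MonoidAlgebra.single g 1)) ≫ Ψ.hom := by
    intro g hg
    rw [← rC_comp, Functor.map_comp, hΨ, hε g hg, map_mul, 𝒢.toMor_mul, Θ.θR, Category.assoc]
  unfold LG.rowC
  rw [homC_sum, Functor.map_sum, Finset.sum_congr rfl hr]
  conv_rhs => rw [hx]
  rw [map_sum]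
  have h3 : 𝒢.toMor (∑ g ∈ x.coeff.support, Θ.θ (MonoidAlgebra.single 1 (x.coeff g) *
      MonoidAlgebra.single g 1)) = ∑ g ∈ x.coeff.support, 𝒢.toMor (Θ.θ
      (MonoidAlgebra.single 1 (x.coeff g) * MonoidAlgebra.single g 1)) := by
    have h4 := map_sum (⟨⟨𝒢.toMor, rfl⟩, 𝒢.toMor_add⟩ : 𝒢.U →+ (𝒢.L.obj 𝒢.PC ⟶ 𝒢.L.obj 𝒢.PC))
      (fun g => Θ.θ (MonoidAlgebra.single 1 (x.coeff g) * MonoidAlgebra.single g 1))
      x.coeff.support
    exact h4
  rw [h3, Preadditive.sum_comp]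

theorem F1 (Θ : 𝒢.Theta) {T : LG 𝒢} (hT : T.Tree) (ε : G → T.E) {J : Type} [Fintype J]
    [DecidableEq J] (M : Matrix J J (MonoidAlgebra R G))
    (hε : ∀ i j, ∀ g ∈ (M i j).coeff.support, T.gE (ε g) = g) :
    IsUnit (M.map Θ.θ) ↔ ∀ K : SpSub (T.copies J).obj, (∀ i, T.rowsJ ε M i ∈ K.c) →
      (Fintype.card J : ℤ) ≤ K.chi := by
  obtain ⟨Ψ, _, hΨ⟩ := tree_iso Θ hT
  obtain ⟨p, _, _⟩ := (LG.edge 𝒢).copiesPow J
  obtain ⟨q, hq, _⟩ := T.copiesPow J
  obtain ⟨m, hm⟩ : ∃ m : ((LG.edge 𝒢).copies J).obj ⟶ (T.copies J).obj,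
      m = ∑ i, p.proj i ≫ homC (T.rowsJ ε M i) := ⟨_, rfl⟩
  have hrow : ∀ i, T.rowsJ ε M i = ∑ j, SpObj.c (q.incl j) (T.rowC ε (M i j)) := by
    intro i
    funext e
    have h1 : (∑ j, SpObj.c (q.incl j) (T.rowC ε (M i j)) : (T.copies J).obj.C) e =
        ∑ j, (if e.2 = j then (T.rowC ε (M i j) : T.E → 𝒢.sp.DC) e.1 else 0) := by
      refine (Finset.sum_apply (M := fun _ : T.E × J => 𝒢.sp.DC) e Finset.univ
        (fun j => (SpObj.c (q.incl j) (T.rowC ε (M i j)) : T.E × J → 𝒢.sp.DC))).trans ?_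
      refine Finset.sum_congr rfl fun j _ => ?_
      exact congrFun (hq j (T.rowC ε (M i j))) e
    refine Eq.trans ?_ h1.symm
    rw [Finset.sum_ite_eq, if_pos (Finset.mem_univ _)]
    rfl
  have hLm : 𝒢.L.map m = (p.map 𝒢.L).mor (q.map 𝒢.L) Ψ (M.map Θ.θ) := by
    rw [hm, Functor.map_sum]
    unfold Pow.mor
    refine Finset.sum_congr rfl fun i _ => ?_
    rw [hrow i, homC_sum, Preadditive.comp_sum, Functor.map_sum]
    refine Finset.sum_congr rfl fun j _ => ?_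
    rw [← homC_comp, Functor.map_comp, Functor.map_comp,
      map_row Θ Ψ hΨ ε (M i j) (hε i j), Category.assoc]
    rfl
  rw [← Pow.isIso_iff (p.map 𝒢.L) (q.map 𝒢.L) Ψ (M.map Θ.θ), ← hLm,
    (SpObj.rk 𝒢.sp).isIso_iff 𝒢.L, SpObj.rk_W_iff]
  have hY : (T.copies J).obj.chi = Fintype.card J := by
    rw [chi_copies, hT.chi_eq, one_mul]
  have hrho : ((LG.edge 𝒢).copies J).obj.rho = (T.copies J).obj.rho := by
    rw [rho_edge_copies Θ, rho_copies Θ hT]
  have hincl : ∀ i, p.incl i ≫ m = homC (T.rowsJ ε M i) := by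
    intro i
    rw [hm, Preadditive.comp_sum, Finset.sum_eq_single i]
    · rw [← Category.assoc, p.rel, if_pos rfl, Category.id_comp]
    · intro j _ hj
      rw [← Category.assoc, p.rel, if_neg (fun h => hj h.symm), zero_comp]
    · intro h
      exact absurd (Finset.mem_univ _) h
  have hmem : ∀ K : SpSub (T.copies J).obj, ((∀ ν, LinearMap.range (SpObj.v m ν) ≤ K.v ν) ∧
      LinearMap.range (SpObj.c m) ≤ K.c) ↔ ∀ i, T.rowsJ ε M i ∈ K.c := by
    intro K
    constructor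
    · rintro ⟨_, h2⟩ i
      have h3 : T.rowsJ ε M i = SpObj.c m (SpObj.c (p.incl i) 𝒢.oneC) := by
        have h4 : SpObj.c (p.incl i ≫ m) 𝒢.oneC = SpObj.c m (SpObj.c (p.incl i) 𝒢.oneC) := rfl
        rw [← h4, hincl i, homC_one]
      rw [h3]
      exact h2 ⟨_, rfl⟩
    · intro h
      constructor
      · intro ν
        rintro _ ⟨x, rfl⟩
        rw [hm, SpObj.v_sum]
        exact (K.v ν).sum_mem fun i _ => (homC_mem K (h i)).1 ν ⟨_, rfl⟩
      · rintro _ ⟨x, rfl⟩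
        rw [hm, SpObj.c_sum]
        exact K.c.sum_mem fun i _ => (homC_mem K (h i)).2 ⟨_, rfl⟩
  rw [hY]
  constructor
  · rintro ⟨h1, _⟩ K hK
    exact h1 K ((hmem K).2 hK).1 ((hmem K).2 hK).2
  · intro h
    exact ⟨fun K h1 h2 => h K ((hmem K).1 ⟨h1, h2⟩), hrho⟩

end GData

end Pool.Agent.HFT
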