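import Pool.Agent.HFT.GDef

/-! # HFT/GHom: morphisms from a vertex object and from the edge object (helper49)

PROOF. `homV x : P ν ⟶ X` is the morphism `1 ↦ x`, `homC x : PC ⟶ X` the one with `1_e ↦ x` (and
`1 ↦ X.f x`, `X.g x` on the two vertices). All statements are checked on components with `hom_ext`; the
casts `h.down ▸ _` disappear after `subst`/`cases` on `h`, sums over `PLift (ν = μ)` have one or no
term (`Fintype.sum_unique`-like after a case distinction `ν = μ`; if `ν ≠ μ` the type is empty).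
`homV_unique`: a morphism `P ν ⟶ X` is determined by the image of the basis vector, since the other
components of `P ν` are zero spaces and `P ν` has no edges. `homC_unique`: the edge component of `PC` is
one dimensional, and the vertex component at `μ` is spanned by the images of the edge vector under
`f` (if `μ = s`) and `g` (if `μ = t`). -/

set_option autoImplicit false

universe u

open CategoryTheory

namespace Pool.Agent.HFT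

variable {G : Type u} [Group G] {S : ConradSys G} {R : Type u} [DivisionRing R]

namespace GData

variable (𝒢 : GData S R)

/-- the vertex object of type `ν` -/
abbrev P (ν : 𝒢.sp.Vt) : SpObj 𝒢.sp := (LG.pt 𝒢 ν 1).obj

/-- the edge object -/
abbrev PC : SpObj 𝒢.sp := (LG.edge 𝒢).obj

/-- the basis vector of the vertex object -/
def oneV (ν : 𝒢.sp.Vt) : (𝒢.P ν).V ν := (fun _ => 1 : PLift (ν = ν) → 𝒢.sp.DV ν)

/-- the edge vector of the edge object -/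
def oneC : 𝒢.PC.C := (fun _ => 1 : Unit → 𝒢.sp.DC)

/-- the vertex vectors of the edge object -/
def oneS : 𝒢.PC.V 𝒢.sp.s :=
  (Pi.single (Sum.inl ⟨rfl⟩) 1 : (PLift (𝒢.sp.s = 𝒢.sp.s) ⊕ PLift (𝒢.sp.t = 𝒢.sp.s)) → 𝒢.sp.DV 𝒢.sp.s)

def oneT : 𝒢.PC.V 𝒢.sp.t :=
  (Pi.single (Sum.inr ⟨rfl⟩) 1 : (PLift (𝒢.sp.s = 𝒢.sp.t) ⊕ PLift (𝒢.sp.t = 𝒢.sp.t)) → 𝒢.sp.DV 𝒢.sp.t)

variable {𝒢}

/-- the vertex components of `homV` -/
def homVv {X : SpObj 𝒢.sp} {ν : 𝒢.sp.Vt} (x : X.V ν) (μ : 𝒢.sp.Vt) :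
    (PLift (ν = μ) → 𝒢.sp.DV μ) →ₗ[𝒢.sp.DV μ] X.V μ :=
  ∑ h : PLift (ν = μ), (LinearMap.toSpanSingleton (𝒢.sp.DV μ) (X.V μ) (h.down ▸ x)).comp
    (LinearMap.proj h)

/-- the morphism from the vertex object given by a vector -/
def homV {X : SpObj 𝒢.sp} {ν : 𝒢.sp.Vt} (x : X.V ν) : 𝒢.P ν ⟶ X :=
  SpObj.mkHom (fun μ => homVv x μ) 0
    (fun w => by
      have h : w = 0 := (inferInstance : Subsingleton (Empty → 𝒢.sp.DC)).elim _ _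
      subst h
      simp only [map_zero])
    (fun w => by
      have h : w = 0 := (inferInstance : Subsingleton (Empty → 𝒢.sp.DC)).elim _ _
      subst h
      simp only [map_zero])

/-- the vertex components of `homC` -/
def homCv {X : SpObj 𝒢.sp} (x : X.C) (μ : 𝒢.sp.Vt) :
    ((PLift (𝒢.sp.s = μ) ⊕ PLift (𝒢.sp.t = μ)) → 𝒢.sp.DV μ) →ₗ[𝒢.sp.DV μ] X.V μ :=
  (∑ h : PLift (𝒢.sp.s = μ), (LinearMap.toSpanSingleton (𝒢.sp.DV μ) (X.V μ)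
      (h.down ▸ X.f x)).comp (LinearMap.proj (Sum.inl h))) +
    ∑ h : PLift (𝒢.sp.t = μ), (LinearMap.toSpanSingleton (𝒢.sp.DV μ) (X.V μ)
      (h.down ▸ X.g x)).comp (LinearMap.proj (Sum.inr h))

/-- the edge component of `homC` -/
def homCc {X : SpObj 𝒢.sp} (x : X.C) : (Unit → 𝒢.sp.DC) →ₗ[𝒢.sp.DC] X.C :=
  (LinearMap.toSpanSingleton 𝒢.sp.DC X.C x).comp (LinearMap.proj ())

theorem homVv_self {X : SpObj 𝒢.sp} {ν : 𝒢.sp.Vt} (x : X.V ν) (w : PLift (ν = ν) → 𝒢.sp.DV ν) :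
    homVv x ν w = w ⟨rfl⟩ • x := by
  unfold homVv
  rw [LinearMap.sum_apply, Finset.sum_eq_single (⟨rfl⟩ : PLift (ν = ν))]
  · rfl
  · intro b _ hb
    exact absurd rfl hb
  · intro h
    exact absurd (Finset.mem_univ _) h

theorem edge_cS (e : (LG.edge 𝒢).E) : (LG.edge 𝒢).cS e = 1 := by
  unfold LG.cS
  have h : (⟨(LG.edge 𝒢).gE e * ((LG.edge 𝒢).gV _ ((LG.edge 𝒢).sE e))⁻¹, (LG.edge 𝒢).mS e⟩ :
      𝒢.A 𝒢.sp.s) = 1 := by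
    apply Subtype.ext
    show (1 : G) * (1 : G)⁻¹ = 1
    simp
  rw [h, map_one]

theorem edge_cT (e : (LG.edge 𝒢).E) : (LG.edge 𝒢).cT e = 1 := by
  unfold LG.cT
  have h : (⟨𝒢.tt⁻¹ * (LG.edge 𝒢).gE e * ((LG.edge 𝒢).gV _ ((LG.edge 𝒢).tE e))⁻¹,
      (LG.edge 𝒢).mT e⟩ : 𝒢.A 𝒢.sp.t) = 1 := by
    apply Subtype.ext
    show 𝒢.tt⁻¹ * (1 : G) * (𝒢.tt⁻¹ : G)⁻¹ = 1
    simp
  rw [h, map_one]

theorem PC_f (w : Unit → 𝒢.sp.DC) : 𝒢.PC.f w = 𝒢.sp.σ (w ()) • 𝒢.oneS := by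
  funext v
  have h1 : 𝒢.PC.f w v = ∑ e : Unit, if (LG.edge 𝒢).sE e = v then
      𝒢.sp.σ (w e) * (LG.edge 𝒢).cS e else 0 := rfl
  rw [h1, Fintype.sum_unique, edge_cS, mul_one]
  show (if (Sum.inl ⟨rfl⟩ : PLift (𝒢.sp.s = 𝒢.sp.s) ⊕ PLift (𝒢.sp.t = 𝒢.sp.s)) = v then
    𝒢.sp.σ (w ()) else 0) = 𝒢.sp.σ (w ()) * (Pi.single (Sum.inl ⟨rfl⟩) 1 :
    (PLift (𝒢.sp.s = 𝒢.sp.s) ⊕ PLift (𝒢.sp.t = 𝒢.sp.s)) → 𝒢.sp.DV 𝒢.sp.s) v
  rw [Pi.single_apply]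
  by_cases h : (Sum.inl ⟨rfl⟩ : PLift (𝒢.sp.s = 𝒢.sp.s) ⊕ PLift (𝒢.sp.t = 𝒢.sp.s)) = v
  · rw [if_pos h, if_pos h.symm, mul_one]
  · rw [if_neg h, if_neg (fun h' => h h'.symm), mul_zero]

theorem PC_g (w : Unit → 𝒢.sp.DC) : 𝒢.PC.g w = 𝒢.sp.τ (w ()) • 𝒢.oneT := by
  funext v
  have h1 : 𝒢.PC.g w v = ∑ e : Unit, if (LG.edge 𝒢).tE e = v then
      𝒢.sp.τ (w e) * (LG.edge 𝒢).cT e else 0 := rfl
  rw [h1, Fintype.sum_unique, edge_cT, mul_one]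
  show (if (Sum.inr ⟨rfl⟩ : PLift (𝒢.sp.s = 𝒢.sp.t) ⊕ PLift (𝒢.sp.t = 𝒢.sp.t)) = v then
    𝒢.sp.τ (w ()) else 0) = 𝒢.sp.τ (w ()) * (Pi.single (Sum.inr ⟨rfl⟩) 1 :
    (PLift (𝒢.sp.s = 𝒢.sp.t) ⊕ PLift (𝒢.sp.t = 𝒢.sp.t)) → 𝒢.sp.DV 𝒢.sp.t) v
  rw [Pi.single_apply]
  by_cases h : (Sum.inr ⟨rfl⟩ : PLift (𝒢.sp.s = 𝒢.sp.t) ⊕ PLift (𝒢.sp.t = 𝒢.sp.t)) = v
  · rw [if_pos h, if_pos h.symm, mul_one]
  · rw [if_neg h, if_neg (fun h' => h h'.symm), mul_zero]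

theorem homCv_oneS {X : SpObj 𝒢.sp} (x : X.C) : homCv x 𝒢.sp.s 𝒢.oneS = X.f x := by
  unfold homCv
  rw [LinearMap.add_apply, LinearMap.sum_apply, LinearMap.sum_apply,
    Finset.sum_eq_single (⟨rfl⟩ : PLift (𝒢.sp.s = 𝒢.sp.s)), Finset.sum_eq_zero, add_zero]
  · show (Pi.single (Sum.inl ⟨rfl⟩) 1 : (PLift (𝒢.sp.s = 𝒢.sp.s) ⊕ PLift (𝒢.sp.t = 𝒢.sp.s)) →
      𝒢.sp.DV 𝒢.sp.s) (Sum.inl ⟨rfl⟩) • X.f x = X.f x
    rw [Pi.single_eq_same, one_smul]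
  · intro h _
    show (Pi.single (Sum.inl ⟨rfl⟩) 1 : (PLift (𝒢.sp.s = 𝒢.sp.s) ⊕ PLift (𝒢.sp.t = 𝒢.sp.s)) →
      𝒢.sp.DV 𝒢.sp.s) (Sum.inr h) • _ = (0 : X.V 𝒢.sp.s)
    rw [Pi.single_eq_of_ne (by simp), zero_smul]
  · intro b _ hb
    exact absurd rfl hb
  · intro h
    exact absurd (Finset.mem_univ _) h

theorem homCv_oneT {X : SpObj 𝒢.sp} (x : X.C) : homCv x 𝒢.sp.t 𝒢.oneT = X.g x := by
  unfold homCv
  rw [LinearMap.add_apply, LinearMap.sum_apply, LinearMap.sum_apply,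
    Finset.sum_eq_single (⟨rfl⟩ : PLift (𝒢.sp.t = 𝒢.sp.t)), Finset.sum_eq_zero, zero_add]
  · show (Pi.single (Sum.inr ⟨rfl⟩) 1 : (PLift (𝒢.sp.s = 𝒢.sp.t) ⊕ PLift (𝒢.sp.t = 𝒢.sp.t)) →
      𝒢.sp.DV 𝒢.sp.t) (Sum.inr ⟨rfl⟩) • X.g x = X.g x
    rw [Pi.single_eq_same, one_smul]
  · intro h _
    show (Pi.single (Sum.inr ⟨rfl⟩) 1 : (PLift (𝒢.sp.s = 𝒢.sp.t) ⊕ PLift (𝒢.sp.t = 𝒢.sp.t)) →
      𝒢.sp.DV 𝒢.sp.t) (Sum.inl h) • _ = (0 : X.V 𝒢.sp.t)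
    rw [Pi.single_eq_of_ne (by simp), zero_smul]
  · intro b _ hb
    exact absurd rfl hb
  · intro h
    exact absurd (Finset.mem_univ _) h

theorem homC_hf {X : SpObj 𝒢.sp} (x : X.C) (w : 𝒢.PC.C) :
    homCv x 𝒢.sp.s (𝒢.PC.f w) = X.f (homCc x w) := by
  have h1 : 𝒢.PC.f w = 𝒢.sp.σ ((w : Unit → 𝒢.sp.DC) ()) • 𝒢.oneS := PC_f w
  have h2 : homCc x w = (w : Unit → 𝒢.sp.DC) () • x := rfl
  rw [h1, h2]
  refine (map_smul (homCv x 𝒢.sp.s) _ _).trans ?_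
  rw [homCv_oneS, LinearMap.map_smulₛₗ]

theorem homC_hg {X : SpObj 𝒢.sp} (x : X.C) (w : 𝒢.PC.C) :
    homCv x 𝒢.sp.t (𝒢.PC.g w) = X.g (homCc x w) := by
  have h1 : 𝒢.PC.g w = 𝒢.sp.τ ((w : Unit → 𝒢.sp.DC) ()) • 𝒢.oneT := PC_g w
  have h2 : homCc x w = (w : Unit → 𝒢.sp.DC) () • x := rfl
  rw [h1, h2]
  refine (map_smul (homCv x 𝒢.sp.t) _ _).trans ?_
  rw [homCv_oneT, LinearMap.map_smulₛₗ]

/-- the morphism from the edge object given by a vector -/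
def homC {X : SpObj 𝒢.sp} (x : X.C) : 𝒢.PC ⟶ X :=
  SpObj.mkHom (fun μ => homCv x μ) (homCc x) (fun w => homC_hf x w) (fun w => homC_hg x w)

theorem homV_one {X : SpObj 𝒢.sp} {ν : 𝒢.sp.Vt} (x : X.V ν) :
    SpObj.v (homV x) ν (𝒢.oneV ν) = x := by
  refine (homVv_self x _).trans ?_
  exact one_smul _ x

theorem homV_unique {X : SpObj 𝒢.sp} {ν : 𝒢.sp.Vt} {a b : 𝒢.P ν ⟶ X}
    (h : SpObj.v a ν (𝒢.oneV ν) = SpObj.v b ν (𝒢.oneV ν)) : a = b := by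
  refine SpObj.hom_ext (fun μ w => ?_) (fun w => ?_)
  · by_cases hμ : ν = μ
    · subst hμ
      have h1 : w = (w : PLift (ν = ν) → 𝒢.sp.DV ν) ⟨rfl⟩ • 𝒢.oneV ν := by
        funext i
        show (w : PLift (ν = ν) → 𝒢.sp.DV ν) i = (w : PLift (ν = ν) → 𝒢.sp.DV ν) ⟨rfl⟩ * 1
        rw [mul_one]
        rfl
      rw [h1, map_smul, map_smul, h]
    · have h1 : w = 0 := by
        funext i
        exact absurd (PLift.down i) hμ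
      rw [h1, map_zero, map_zero]
  · have h1 : w = 0 := (inferInstance : Subsingleton (Empty → 𝒢.sp.DC)).elim _ _
    rw [h1, map_zero, map_zero]

theorem homC_one {X : SpObj 𝒢.sp} (x : X.C) : SpObj.c (homC x) 𝒢.oneC = x := one_smul _ x

theorem oneC_f : 𝒢.PC.f 𝒢.oneC = 𝒢.oneS := by
  refine (PC_f (fun _ => 1)).trans ?_
  rw [map_one, one_smul]

theorem oneC_g : 𝒢.PC.g 𝒢.oneC = 𝒢.oneT := by
  refine (PC_g (fun _ => 1)).trans ?_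
  rw [map_one, one_smul]

theorem single_s (y : 𝒢.sp.DV 𝒢.sp.s) :
    (Pi.single (Sum.inl ⟨rfl⟩) y : (PLift (𝒢.sp.s = 𝒢.sp.s) ⊕ PLift (𝒢.sp.t = 𝒢.sp.s)) →
      𝒢.sp.DV 𝒢.sp.s) = (y • 𝒢.oneS : 𝒢.PC.V 𝒢.sp.s) := by
  funext i
  show _ = y * (Pi.single (Sum.inl ⟨rfl⟩) 1 :
    (PLift (𝒢.sp.s = 𝒢.sp.s) ⊕ PLift (𝒢.sp.t = 𝒢.sp.s)) → 𝒢.sp.DV 𝒢.sp.s) i
  rw [Pi.single_apply, Pi.single_apply, mul_ite, mul_one, mul_zero]

theorem single_t (y : 𝒢.sp.DV 𝒢.sp.t) :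
    (Pi.single (Sum.inr ⟨rfl⟩) y : (PLift (𝒢.sp.s = 𝒢.sp.t) ⊕ PLift (𝒢.sp.t = 𝒢.sp.t)) →
      𝒢.sp.DV 𝒢.sp.t) = (y • 𝒢.oneT : 𝒢.PC.V 𝒢.sp.t) := by
  funext i
  show _ = y * (Pi.single (Sum.inr ⟨rfl⟩) 1 :
    (PLift (𝒢.sp.s = 𝒢.sp.t) ⊕ PLift (𝒢.sp.t = 𝒢.sp.t)) → 𝒢.sp.DV 𝒢.sp.t) i
  rw [Pi.single_apply, Pi.single_apply, mul_ite, mul_one, mul_zero]

theorem homC_unique {X : SpObj 𝒢.sp} {a b : 𝒢.PC ⟶ X}
    (h : SpObj.c a 𝒢.oneC = SpObj.c b 𝒢.oneC) : a = b := by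
  refine SpObj.hom_ext (fun μ w => ?_) (fun w => ?_)
  · have h1 : ∀ (i : PLift (𝒢.sp.s = μ) ⊕ PLift (𝒢.sp.t = μ)) (y : 𝒢.sp.DV μ),
        SpObj.v a μ (Pi.single i y : (PLift (𝒢.sp.s = μ) ⊕ PLift (𝒢.sp.t = μ)) → 𝒢.sp.DV μ) =
        SpObj.v b μ (Pi.single i y : (PLift (𝒢.sp.s = μ) ⊕ PLift (𝒢.sp.t = μ)) → 𝒢.sp.DV μ) := by
      rintro (⟨⟨rfl⟩⟩ | ⟨⟨rfl⟩⟩) y
      · rw [single_s, map_smul, map_smul, ← oneC_f, SpObj.v_f, SpObj.v_f, h]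
      · rw [single_t, map_smul, map_smul, ← oneC_g, SpObj.v_g, SpObj.v_g, h]
    have h2 : (SpObj.v a μ : ((PLift (𝒢.sp.s = μ) ⊕ PLift (𝒢.sp.t = μ)) → 𝒢.sp.DV μ)
        →ₗ[𝒢.sp.DV μ] X.V μ) = SpObj.v b μ := LinearMap.pi_ext h1
    exact LinearMap.congr_fun h2 w
  · have h1 : w = (w : Unit → 𝒢.sp.DC) () • 𝒢.oneC := by
      funext i
      show (w : Unit → 𝒢.sp.DC) i = (w : Unit → 𝒢.sp.DC) () * 1
      rw [mul_one]
      rfl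
    rw [h1, map_smul, map_smul, h]

theorem homV_comp {X Y : SpObj 𝒢.sp} {ν : 𝒢.sp.Vt} (x : X.V ν) (a : X ⟶ Y) :
    homV x ≫ a = homV (SpObj.v a ν x) := by
  apply homV_unique
  rw [homV_one]
  show SpObj.v a ν (SpObj.v (homV x) ν (𝒢.oneV ν)) = _
  rw [homV_one]

theorem homC_comp {X Y : SpObj 𝒢.sp} (x : X.C) (a : X ⟶ Y) :
    homC x ≫ a = homC (SpObj.c a x) := by
  apply homC_unique
  rw [homC_one]
  show SpObj.c a (SpObj.c (homC x) 𝒢.oneC) = _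
  rw [homC_one]

theorem homV_add {X : SpObj 𝒢.sp} {ν : 𝒢.sp.Vt} (x y : X.V ν) :
    homV (x + y) = homV x + homV y := by
  apply homV_unique
  rw [homV_one, SpObj.hadd_v, LinearMap.add_apply, homV_one, homV_one]

theorem homC_add {X : SpObj 𝒢.sp} (x y : X.C) : homC (x + y) = homC x + homC y := by
  apply homC_unique
  rw [homC_one, SpObj.hadd_c, LinearMap.add_apply, homC_one, homC_one]

theorem homC_zero {X : SpObj 𝒢.sp} : homC (0 : X.C) = 0 := by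
  apply homC_unique
  rw [homC_one, SpObj.hzero_c, LinearMap.zero_apply]

/-- right multiplication on the vertex object -/
def rV (ν : 𝒢.sp.Vt) (d : 𝒢.sp.DV ν) : 𝒢.P ν ⟶ 𝒢.P ν := homV (d • 𝒢.oneV ν)

/-- right multiplication on the edge object -/
def rC (d : 𝒢.sp.DC) : 𝒢.PC ⟶ 𝒢.PC := homC (d • 𝒢.oneC)

variable (𝒢) in
/-- the two inclusions of vertex objects in the edge object -/
def iS : 𝒢.P 𝒢.sp.s ⟶ 𝒢.PC := homV 𝒢.oneS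

variable (𝒢) in
def iT : 𝒢.P 𝒢.sp.t ⟶ 𝒢.PC := homV 𝒢.oneT

theorem rV_comp {X : SpObj 𝒢.sp} {ν : 𝒢.sp.Vt} (d : 𝒢.sp.DV ν) (x : X.V ν) :
    rV ν d ≫ homV x = homV (d • x) := by
  unfold rV
  rw [homV_comp, map_smul, homV_one]

theorem rC_comp {X : SpObj 𝒢.sp} (d : 𝒢.sp.DC) (x : X.C) : rC d ≫ homC x = homC (d • x) := by
  unfold rC
  rw [homC_comp, map_smul, homC_one]

theorem iS_comp {X : SpObj 𝒢.sp} (x : X.C) : iS 𝒢 ≫ homC x = homV (X.f x) := by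
  unfold iS
  rw [homV_comp, ← oneC_f, SpObj.v_f, homC_one]

theorem iT_comp {X : SpObj 𝒢.sp} (x : X.C) : iT 𝒢 ≫ homC x = homV (X.g x) := by
  unfold iT
  rw [homV_comp, ← oneC_g, SpObj.v_g, homC_one]

theorem rV_one (ν : 𝒢.sp.Vt) : rV ν (1 : 𝒢.sp.DV ν) = 𝟙 (𝒢.P ν) := by
  apply homV_unique
  unfold rV
  rw [homV_one, one_smul]
  rfl

theorem rV_mul (ν : 𝒢.sp.Vt) (d d' : 𝒢.sp.DV ν) : rV ν (d * d') = rV ν d ≫ rV ν d' := by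
  have h : rV ν d' = homV (d' • 𝒢.oneV ν) := rfl
  rw [h, rV_comp, smul_smul]
  rfl

theorem rV_add (ν : 𝒢.sp.Vt) (d d' : 𝒢.sp.DV ν) : rV ν (d + d') = rV ν d + rV ν d' := by
  unfold rV
  rw [add_smul, homV_add]

theorem rC_one : rC (1 : 𝒢.sp.DC) = 𝟙 𝒢.PC := by
  apply homC_unique
  unfold rC
  rw [homC_one, one_smul]
  rfl

theorem rC_mul (d d' : 𝒢.sp.DC) : rC (d * d') = rC d ≫ rC d' := by
  have h : rC d' = homC (d' • 𝒢.oneC) := rfl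
  rw [h, rC_comp, smul_smul]
  rfl

theorem rC_add (d d' : 𝒢.sp.DC) : rC (d + d') = rC d + rC d' := by
  unfold rC
  rw [add_smul, homC_add]

theorem iS_rC (d : 𝒢.sp.DC) : iS 𝒢 ≫ rC d = rV _ (𝒢.sp.σ d) ≫ iS 𝒢 := by
  unfold rC
  rw [iS_comp, LinearMap.map_smulₛₗ, oneC_f]
  unfold iS
  rw [rV_comp]

theorem iT_rC (d : 𝒢.sp.DC) : iT 𝒢 ≫ rC d = rV _ (𝒢.sp.τ d) ≫ iT 𝒢 := by
  unfold rC
  rw [iT_comp, LinearMap.map_smulₛₗ, oneC_g]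
  unfold iT
  rw [rV_comp]

end GData

namespace LG

variable {𝒢 : GData S R} (T : LG 𝒢)

theorem f_eE (e : T.E) : T.obj.f (T.eE e) = T.cS e • T.eV (T.sE e) := by
  funext v
  have h1 : T.obj.f (T.eE e) v = ∑ e', if T.sE e' = v then
      𝒢.sp.σ ((Pi.single e 1 : T.E → 𝒢.sp.DC) e') * T.cS e' else 0 := rfl
  rw [h1, Finset.sum_eq_single e]
  · show _ = T.cS e * (Pi.single (T.sE e) 1 : T.V 𝒢.sp.s → 𝒢.sp.DV 𝒢.sp.s) v
    rw [Pi.single_eq_same, map_one, one_mul, Pi.single_apply]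
    by_cases h : T.sE e = v
    · rw [if_pos h, if_pos h.symm, mul_one]
    · rw [if_neg h, if_neg (fun h' => h h'.symm), mul_zero]
  · intro e' _ he'
    rw [Pi.single_eq_of_ne he', map_zero, zero_mul, ite_self]
  · intro h
    exact absurd (Finset.mem_univ _) h

theorem g_eE (e : T.E) : T.obj.g (T.eE e) = T.cT e • T.eV (T.tE e) := by
  funext v
  have h1 : T.obj.g (T.eE e) v = ∑ e', if T.tE e' = v then
      𝒢.sp.τ ((Pi.single e 1 : T.E → 𝒢.sp.DC) e') * T.cT e' else 0 := rfl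
  rw [h1, Finset.sum_eq_single e]
  · show _ = T.cT e * (Pi.single (T.tE e) 1 : T.V 𝒢.sp.t → 𝒢.sp.DV 𝒢.sp.t) v
    rw [Pi.single_eq_same, map_one, one_mul, Pi.single_apply]
    by_cases h : T.tE e = v
    · rw [if_pos h, if_pos h.symm, mul_one]
    · rw [if_neg h, if_neg (fun h' => h h'.symm), mul_zero]
  · intro e' _ he'
    rw [Pi.single_eq_of_ne he', map_zero, zero_mul, ite_self]
  · intro h
    exact absurd (Finset.mem_univ _) h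

/-- a vector is the combination of the basis vectors -/
theorem sum_eE (x : T.obj.C) : x = ∑ e, (x : T.E → 𝒢.sp.DC) e • T.eE e := by
  funext i
  have h1 : (∑ e, (x : T.E → 𝒢.sp.DC) e • T.eE e : T.obj.C) i =
      ∑ e, (x : T.E → 𝒢.sp.DC) e * (Pi.single e 1 : T.E → 𝒢.sp.DC) i :=
    Finset.sum_apply (M := fun _ : T.E => 𝒢.sp.DC) i Finset.univ
      (fun e => (x : T.E → 𝒢.sp.DC) e • (Pi.single e 1 : T.E → 𝒢.sp.DC))
  rw [h1, Finset.sum_eq_single i]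
  · rw [Pi.single_eq_same, mul_one]
  · intro e _ he
    rw [Pi.single_eq_of_ne (fun h => he h.symm), mul_zero]
  · intro h
    exact absurd (Finset.mem_univ _) h

theorem sum_eV {ν : 𝒢.sp.Vt} (x : T.obj.V ν) :
    x = ∑ v, (x : T.V ν → 𝒢.sp.DV ν) v • T.eV v := by
  funext i
  have h1 : (∑ v, (x : T.V ν → 𝒢.sp.DV ν) v • T.eV v : T.obj.V ν) i =
      ∑ v, (x : T.V ν → 𝒢.sp.DV ν) v * (Pi.single v 1 : T.V ν → 𝒢.sp.DV ν) i :=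
    Finset.sum_apply (M := fun _ : T.V ν => 𝒢.sp.DV ν) i Finset.univ
      (fun v => (x : T.V ν → 𝒢.sp.DV ν) v • (Pi.single v 1 : T.V ν → 𝒢.sp.DV ν))
  rw [h1, Finset.sum_eq_single i]
  · rw [Pi.single_eq_same, mul_one]
  · intro e _ he
    rw [Pi.single_eq_of_ne (fun h => he h.symm), mul_zero]
  · intro h
    exact absurd (Finset.mem_univ _) h

theorem chi_obj : T.obj.chi = (∑ ν, (Fintype.card (T.V ν) : ℤ)) - Fintype.card T.E := by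
  unfold SpObj.chi
  have h1 : ∀ ν, Module.finrank (𝒢.sp.DV ν) (T.obj.V ν) = Fintype.card (T.V ν) := fun ν =>
    Module.finrank_fintype_fun_eq_card (𝒢.sp.DV ν) (η := T.V ν)
  have h2 : Module.finrank 𝒢.sp.DC T.obj.C = Fintype.card T.E :=
    Module.finrank_fintype_fun_eq_card 𝒢.sp.DC (η := T.E)
  rw [h2]
  simp only [h1]

end LG

end Pool.Agent.HFT
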