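import Pool.Agent.HFT.VDF
import Pool.Agent.HFT.GF1

/-! # HFT/GStar: invertibility of leading parts (helper49)

PROOF. `lfSub`: for a subobject `K` of `T.obj` the leading forms (level `j`) of its components form a
subobject. Let `VPart (LC) κ_E h w z`, `w ∈ K.c`, with `κ_E e = gE e`. Then for every edge `e`
`Part (gE e) h (σ (w e)) (σ (z e))` for `LV s` (`part_σ`), and with `a := gE e (gV (sE e))⁻¹`, `gE e = a (gV v)` for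
`v = sE e`: `Part (gV v) h (σ (w e) * cS e) (σ (z e) * cS e)` by `Part_al` (`cS e = αV a`). Summing over the `e`
with `sE e = v` (`Part_sum`, `Part_zero`; `obj_f`): `VPart (LV s) κ_V h (f w) (f z)`, `f w ∈ K.v s`, so
`f z ∈ lfSpan (K.v s)`; the span: `Submodule.span_induction` (`f` is semilinear).
For `g`: `part_τ`: `Part (tt⁻¹ gE e) (tt⁻¹ h) (τ (w e)) (τ (z e))`, and `tt⁻¹ gE e = a (gV v)` with
`a = tt⁻¹ gE e (gV (tE e))⁻¹`, `v = tE e`; so `VPart (LV t) κ_V (tt⁻¹ h) (g w) (g z)`.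
`part_σ`: `σ` maps `Hom k h` to `Hom k h` (`σ (αC a * δ) = αV a * σ δ`, and `σ` maps `gen αC ρC B` into
`gen αV ρV B`: `Subfield.closure_induction` with `σα`, `σρ`) and `Hi` to `Hi` (`σL`). `part_τ`: `τ` maps
`αC a` to `αV (tt⁻¹ a tt)`, `gen αC ρC (Lt k j)` into `gen αV ρV (Lt (tt⁻¹ k) j)`
(`(tt⁻¹k)⁻¹ (tt⁻¹ b tt) (tt⁻¹ k) = k⁻¹ b k`), `(tt⁻¹ a tt) (tt⁻¹ k) = tt⁻¹ (a k)`, and `eqj`, `ltj` are
invariant under left translation (`eqj_left`, `ltj_left`, `τL`).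
`lfSub_chi`: `finrank_lfSpan` for all components.
`star`: let `F` be the finite set of all `g` in the supports of the entries of `M`; `exists_tree` gives a tree
`T` and a choice `ε : G → T.E` with `gE (ε g) = g` for `g ∈ F` (if `F` is empty and `T` has no edge: use
`exists_tree` for `insert 1 F` so that there is an edge). `F1` holds for `M` and for `M0` with the
same `T, ε` (the support of `M0 i j` is contained in the one of `M i j`). By `F1` for `M` let `K` be a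
subobject of `(T.copies J).obj` containing the `rowsJ ε M i`. `K' := lfSub K` (for the labelled graph
`T.copies J`, with labels `gV v`, `gE e`). Claim: `VPart 1 (rowsJ ε M i) (rowsJ ε M0 i)`: the coordinate at
`(e, j')` of `rowsJ ε M i` is the sum of the `ρC ((M i j').coeff g)` over the `g` in the support with
`ε g = e`; since `gE (ε g) = g` there is at most one such `g`, namely `g = gE e`. If there is none, both
coordinates are `0` (`Part_zero`). Otherwise the coordinate is `ρC r` at the label `gE e = g`; if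
`eqj j 1 g` the coordinate of `M0` is the same, `Part_ro_low`; if `ltj j 1 g` the one of `M0` is zero,
`Part_ro_high`. So `rowsJ ε M0 i ∈ K'.c`, and `F1` for `M0` gives `card J ≤ K'.chi = K.chi`. -/

set_option autoImplicit false

universe u

open CategoryTheory CategoryTheory.Limits

namespace Pool.Agent.HFT

variable {G : Type u} [Group G] {S : ConradSys G} {R : Type u} [DivisionRing R]

namespace GData

variable {𝒢 : GData S R}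

private theorem gen_σ {B : Subgroup G} {x : 𝒢.sp.DC} (hx : x ∈ HFT.gen 𝒢.αC 𝒢.ρC B) :
    𝒢.sp.σ x ∈ HFT.gen (𝒢.αV 𝒢.sp.s) (𝒢.ρV 𝒢.sp.s) B := by
  have h1 : HFT.gen 𝒢.αC 𝒢.ρC B ≤ (HFT.gen (𝒢.αV 𝒢.sp.s) (𝒢.ρV 𝒢.sp.s) B).comap 𝒢.sp.σ := by
    refine Subfield.closure_le.2 ?_
    rintro y (⟨r, rfl⟩ | ⟨b, hb, rfl⟩)
    · show 𝒢.sp.σ (𝒢.ρC r) ∈ HFT.gen (𝒢.αV 𝒢.sp.s) (𝒢.ρV 𝒢.sp.s) B
      rw [𝒢.σρ]
      exact Subfield.subset_closure (Or.inl ⟨r, rfl⟩)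
    · show 𝒢.sp.σ (𝒢.αC b) ∈ HFT.gen (𝒢.αV 𝒢.sp.s) (𝒢.ρV 𝒢.sp.s) B
      rw [𝒢.σα]
      exact Subfield.subset_closure (Or.inr ⟨⟨b, 𝒢.hS b.2⟩, hb, rfl⟩)
  exact h1 hx

private theorem gen_τ {k : G} {j : S.I} {x : 𝒢.sp.DC} (hx : x ∈ HFT.gen 𝒢.αC 𝒢.ρC (S.Lt k j)) :
    𝒢.sp.τ x ∈ HFT.gen (𝒢.αV 𝒢.sp.t) (𝒢.ρV 𝒢.sp.t) (S.Lt (𝒢.tt⁻¹ * k) j) := by
  have h1 : HFT.gen 𝒢.αC 𝒢.ρC (S.Lt k j) ≤
      (HFT.gen (𝒢.αV 𝒢.sp.t) (𝒢.ρV 𝒢.sp.t) (S.Lt (𝒢.tt⁻¹ * k) j)).comap 𝒢.sp.τ := by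
    refine Subfield.closure_le.2 ?_
    rintro y (⟨r, rfl⟩ | ⟨b, hb, rfl⟩)
    · show 𝒢.sp.τ (𝒢.ρC r) ∈ HFT.gen (𝒢.αV 𝒢.sp.t) (𝒢.ρV 𝒢.sp.t) _
      rw [𝒢.τρ]
      exact Subfield.subset_closure (Or.inl ⟨r, rfl⟩)
    · show 𝒢.sp.τ (𝒢.αC b) ∈ HFT.gen (𝒢.αV 𝒢.sp.t) (𝒢.ρV 𝒢.sp.t) _
      rw [𝒢.τα]
      refine Subfield.subset_closure (Or.inr ⟨⟨𝒢.tt⁻¹ * b * 𝒢.tt, 𝒢.hT b b.2⟩, ?_, rfl⟩)
      have e : (𝒢.tt⁻¹ * k)⁻¹ * (𝒢.tt⁻¹ * (b : G) * 𝒢.tt) * (𝒢.tt⁻¹ * k) = k⁻¹ * (b : G) * k := by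
        group
      show S.lev _ < _
      rw [e]
      exact hb
  exact h1 hx

theorem part_σ {j : S.I} {k h : G} {x z : 𝒢.sp.DC} (h1 : 𝒢.LC.Part j k h x z) :
    (𝒢.LV 𝒢.sp.s).Part j k h (𝒢.sp.σ x) (𝒢.sp.σ z) := by
  obtain ⟨h2, h3⟩ := h1
  constructor
  · rcases h2 with h2 | ⟨a, ha, δ, hδ, h2⟩
    · left
      rw [h2, map_zero]
    · right
      refine ⟨⟨a, 𝒢.hS a.2⟩, ha, 𝒢.sp.σ δ, gen_σ hδ, ?_⟩
      rw [h2, map_mul, 𝒢.σα]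
  · rw [← map_sub]
    rcases h3 with h3 | ⟨m, hm1, hm2⟩
    · left
      rw [h3, map_zero]
    · right
      exact ⟨m, 𝒢.σL hm1, hm2⟩

theorem part_τ {j : S.I} {k h : G} {x z : 𝒢.sp.DC} (h1 : 𝒢.LC.Part j k h x z) :
    (𝒢.LV 𝒢.sp.t).Part j (𝒢.tt⁻¹ * k) (𝒢.tt⁻¹ * h) (𝒢.sp.τ x) (𝒢.sp.τ z) := by
  obtain ⟨h2, h3⟩ := h1
  constructor
  · rcases h2 with h2 | ⟨a, ha, δ, hδ, h2⟩
    · left
      rw [h2, map_zero]
    · right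
      refine ⟨⟨𝒢.tt⁻¹ * a * 𝒢.tt, 𝒢.hT a a.2⟩, ?_, 𝒢.sp.τ δ, gen_τ hδ, ?_⟩
      · have e : (𝒢.tt⁻¹ * (a : G) * 𝒢.tt) * (𝒢.tt⁻¹ * k) = 𝒢.tt⁻¹ * ((a : G) * k) := by group
        show S.eqj j _ ((𝒢.tt⁻¹ * (a : G) * 𝒢.tt) * (𝒢.tt⁻¹ * k))
        rw [e]
        exact S.eqj_left _ ha
      · rw [h2, map_mul, 𝒢.τα]
  · rw [← map_sub]
    rcases h3 with h3 | ⟨m, hm1, hm2⟩
    · left
      rw [h3, map_zero]
    · right
      exact ⟨_, 𝒢.τL hm1, S.ltj_left _ hm2⟩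

private theorem vpart_f {j : S.I} {T : LG 𝒢} {h : G} {w z : T.E → 𝒢.sp.DC}
    (h1 : 𝒢.LC.VPart j T.gE h w z) :
    (𝒢.LV 𝒢.sp.s).VPart j (T.gV 𝒢.sp.s) h (T.obj.f w) (T.obj.f z) := by
  intro v
  show (𝒢.LV 𝒢.sp.s).Part j (T.gV 𝒢.sp.s v) h
    (∑ e, if T.sE e = v then 𝒢.sp.σ (w e) * T.cS e else 0)
    (∑ e, if T.sE e = v then 𝒢.sp.σ (z e) * T.cS e else 0)
  refine LeadSys.Part_sum _ _ _ fun e _ => ?_
  by_cases hv : T.sE e = v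
  · rw [if_pos hv, if_pos hv]
    subst hv
    refine LeadSys.Part_al (𝒢.commV _) (⟨_, T.mS e⟩ : 𝒢.A 𝒢.sp.s) ?_
    have e1 : ((⟨_, T.mS e⟩ : 𝒢.A 𝒢.sp.s) : G) * T.gV 𝒢.sp.s (T.sE e) = T.gE e := by
      show T.gE e * (T.gV 𝒢.sp.s (T.sE e))⁻¹ * T.gV 𝒢.sp.s (T.sE e) = T.gE e
      rw [inv_mul_cancel_right]
    rw [e1]
    exact part_σ (h1 e)
  · rw [if_neg hv, if_neg hv]
    exact LeadSys.Part_zero _ _

private theorem vpart_g {j : S.I} {T : LG 𝒢} {h : G} {w z : T.E → 𝒢.sp.DC}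
    (h1 : 𝒢.LC.VPart j T.gE h w z) :
    (𝒢.LV 𝒢.sp.t).VPart j (T.gV 𝒢.sp.t) (𝒢.tt⁻¹ * h) (T.obj.g w) (T.obj.g z) := by
  intro v
  show (𝒢.LV 𝒢.sp.t).Part j (T.gV 𝒢.sp.t v) (𝒢.tt⁻¹ * h)
    (∑ e, if T.tE e = v then 𝒢.sp.τ (w e) * T.cT e else 0)
    (∑ e, if T.tE e = v then 𝒢.sp.τ (z e) * T.cT e else 0)
  refine LeadSys.Part_sum _ _ _ fun e _ => ?_
  by_cases hv : T.tE e = v
  · rw [if_pos hv, if_pos hv]
    subst hv
    refine LeadSys.Part_al (𝒢.commV _) (⟨_, T.mT e⟩ : 𝒢.A 𝒢.sp.t) ?_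
    have e1 : ((⟨_, T.mT e⟩ : 𝒢.A 𝒢.sp.t) : G) * T.gV 𝒢.sp.t (T.tE e) = 𝒢.tt⁻¹ * T.gE e := by
      show 𝒢.tt⁻¹ * T.gE e * (T.gV 𝒢.sp.t (T.tE e))⁻¹ * T.gV 𝒢.sp.t (T.tE e) = 𝒢.tt⁻¹ * T.gE e
      rw [inv_mul_cancel_right]
    rw [e1]
    exact part_τ (h1 e)
  · rw [if_neg hv, if_neg hv]
    exact LeadSys.Part_zero _ _

private theorem lf_hf (j : S.I) (T : LG 𝒢) (K : SpSub T.obj) :
    ∀ x ∈ 𝒢.LC.lfSpan j T.gE K.c,
      T.obj.f x ∈ (𝒢.LV 𝒢.sp.s).lfSpan j (T.gV 𝒢.sp.s) (K.v 𝒢.sp.s) := by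
  intro x hx
  have h1 : 𝒢.LC.lfSpan j T.gE K.c ≤ Submodule.comap T.obj.f
      ((𝒢.LV 𝒢.sp.s).lfSpan j (T.gV 𝒢.sp.s) (K.v 𝒢.sp.s) : Submodule _ (T.obj.V 𝒢.sp.s)) := by
    refine Submodule.span_le.2 ?_
    rintro z ⟨h, w, hw, h2⟩
    exact Submodule.subset_span ⟨h, T.obj.f w, K.hf w hw, vpart_f h2⟩
  exact h1 hx

private theorem lf_hg (j : S.I) (T : LG 𝒢) (K : SpSub T.obj) :
    ∀ x ∈ 𝒢.LC.lfSpan j T.gE K.c,
      T.obj.g x ∈ (𝒢.LV 𝒢.sp.t).lfSpan j (T.gV 𝒢.sp.t) (K.v 𝒢.sp.t) := by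
  intro x hx
  have h1 : 𝒢.LC.lfSpan j T.gE K.c ≤ Submodule.comap T.obj.g
      ((𝒢.LV 𝒢.sp.t).lfSpan j (T.gV 𝒢.sp.t) (K.v 𝒢.sp.t) : Submodule _ (T.obj.V 𝒢.sp.t)) := by
    refine Submodule.span_le.2 ?_
    rintro z ⟨h, w, hw, h2⟩
    exact Submodule.subset_span ⟨𝒢.tt⁻¹ * h, T.obj.g w, K.hg w hw, vpart_g h2⟩
  exact h1 hx

/-- the subobject of leading forms -/
def lfSub (j : S.I) (T : LG 𝒢) (K : SpSub T.obj) : SpSub T.obj where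
  v ν := (𝒢.LV ν).lfSpan j (T.gV ν) (K.v ν)
  c := 𝒢.LC.lfSpan j T.gE K.c
  hf := lf_hf j T K
  hg := lf_hg j T K

theorem lfSub_chi (j : S.I) (T : LG 𝒢) (K : SpSub T.obj) : (lfSub j T K).chi = K.chi := by
  unfold SpSub.chi
  have h1 : ∀ ν, Module.finrank (𝒢.sp.DV ν) ((lfSub j T K).v ν) =
      Module.finrank (𝒢.sp.DV ν) (K.v ν) := fun ν =>
    LeadSys.finrank_lfSpan (L := 𝒢.LV ν) (j := j) (𝒢.commV ν) (T.gV ν) (K.v ν)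
  have h2 : Module.finrank 𝒢.sp.DC (lfSub j T K).c = Module.finrank 𝒢.sp.DC K.c :=
    LeadSys.finrank_lfSpan (L := 𝒢.LC) (j := j) 𝒢.commC T.gE K.c
  rw [h2]
  simp only [h1]

private theorem rowC_apply {T : LG 𝒢} (ε : G → T.E) (x : MonoidAlgebra R G)
    (hε : ∀ g ∈ x.coeff.support, T.gE (ε g) = g) (e : T.E) :
    (T.rowC ε x : T.E → 𝒢.sp.DC) e =
      if ε (T.gE e) = e then 𝒢.ρC (x.coeff (T.gE e)) else 0 := by
  have h1 : (T.rowC ε x : T.E → 𝒢.sp.DC) e =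
      ∑ g ∈ x.coeff.support, 𝒢.ρC (x.coeff g) * (Pi.single (ε g) 1 : T.E → 𝒢.sp.DC) e :=
    Finset.sum_apply (M := fun _ : T.E => 𝒢.sp.DC) e x.coeff.support
      (fun g => 𝒢.ρC (x.coeff g) • (Pi.single (ε g) 1 : T.E → 𝒢.sp.DC))
  rw [h1]
  by_cases he : ε (T.gE e) = e
  · rw [if_pos he, Finset.sum_eq_single (T.gE e)]
    · rw [he, Pi.single_eq_same, mul_one]
    · intro g hg hne
      rw [Pi.single_eq_of_ne, mul_zero]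
      intro h2
      apply hne
      rw [h2]
      exact (hε g hg).symm
    · intro hg
      rw [Finsupp.notMem_support_iff.1 hg, map_zero, zero_mul]
  · rw [if_neg he]
    refine Finset.sum_eq_zero fun g hg => ?_
    rw [Pi.single_eq_of_ne, mul_zero]
    intro h2
    apply he
    have h3 := hε g hg
    rw [← h2] at h3
    rw [h3]
    exact h2.symm

theorem star (Θ : 𝒢.Theta) {J : Type} [Fintype J] [DecidableEq J]
    (M M0 : Matrix J J (MonoidAlgebra R G)) (j : S.I)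
    (h1 : ∀ a b, ∀ g ∈ (M a b).coeff.support, S.ltj j 1 g ∨ S.eqj j 1 g)
    (h2 : ∀ a b g, S.eqj j 1 g → (M0 a b).coeff g = (M a b).coeff g)
    (h3 : ∀ a b g, ¬ S.eqj j 1 g → (M0 a b).coeff g = 0)
    (h : IsUnit (M0.map Θ.θ)) : IsUnit (M.map Θ.θ) := by
  classical
  obtain ⟨F, hF⟩ : ∃ F : Finset G, F = insert 1 (Finset.univ.biUnion fun a : J =>
      Finset.univ.biUnion fun b : J => (M a b).coeff.support) := ⟨_, rfl⟩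
  obtain ⟨T, hT, hTF⟩ := exists_tree (𝒢 := 𝒢) F
  obtain ⟨e1, _⟩ := hTF 1 (by rw [hF]; exact Finset.mem_insert_self _ _)
  obtain ⟨ε, hε⟩ : ∃ ε : G → T.E, ∀ g ∈ F, T.gE (ε g) = g := by
    refine ⟨fun g => if hg : ∃ e : T.E, T.gE e = g then hg.choose else e1, fun g hg => ?_⟩
    have h4 := hTF g hg
    show T.gE (if hg : ∃ e : T.E, T.gE e = g then hg.choose else e1) = g
    rw [dif_pos h4]
    exact h4.choose_spec
  have hεM : ∀ a b, ∀ g ∈ (M a b).coeff.support, T.gE (ε g) = g := by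
    intro a b g hg
    apply hε
    rw [hF]
    exact Finset.mem_insert_of_mem (Finset.mem_biUnion.2 ⟨a, Finset.mem_univ _,
      Finset.mem_biUnion.2 ⟨b, Finset.mem_univ _, hg⟩⟩)
  have hεM0 : ∀ a b, ∀ g ∈ (M0 a b).coeff.support, T.gE (ε g) = g := by
    intro a b g hg
    apply hεM a b
    rw [Finsupp.mem_support_iff] at hg ⊢
    by_cases h4 : S.eqj j 1 g
    · rwa [h2 a b g h4] at hg
    · exact absurd (h3 a b g h4) hg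
  rw [F1 Θ hT ε M hεM]
  intro K hK
  rw [← lfSub_chi j (T.copies J) K]
  refine (F1 Θ hT ε M0 hεM0).1 h (lfSub j (T.copies J) K) fun i => ?_
  have hv : 𝒢.LC.VPart j (T.copies J).gE 1 (T.rowsJ ε M i) (T.rowsJ ε M0 i) := ?_
  · have h6 : T.rowsJ ε M0 i ∈ (𝒢.LC.lfSpan j (T.copies J).gE K.c :
        Submodule 𝒢.sp.DC ((T.copies J).E → 𝒢.sp.DC)) :=
      Submodule.subset_span ⟨1, T.rowsJ ε M i, hK i, hv⟩
    exact h6
  intro p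
  show 𝒢.LC.Part j (T.gE p.1) 1 ((T.rowC ε (M i p.2) : T.E → 𝒢.sp.DC) p.1)
    ((T.rowC ε (M0 i p.2) : T.E → 𝒢.sp.DC) p.1)
  rw [rowC_apply ε (M i p.2) (hεM i p.2), rowC_apply ε (M0 i p.2) (hεM0 i p.2)]
  by_cases h4 : ε (T.gE p.1) = p.1
  · rw [if_pos h4, if_pos h4]
    by_cases h5 : S.eqj j 1 (T.gE p.1)
    · rw [h2 i p.2 _ h5]
      exact LeadSys.Part_ro_low _ h5
    · rw [h3 i p.2 _ h5, map_zero]
      by_cases h6 : T.gE p.1 ∈ (M i p.2).coeff.support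
      · exact LeadSys.Part_ro_high _ ((h1 i p.2 _ h6).resolve_right h5)
      · rw [Finsupp.notMem_support_iff.1 h6, map_zero]
        exact LeadSys.Part_zero _ _
  · rw [if_neg h4, if_neg h4]
    exact LeadSys.Part_zero _ _

end GData

end Pool.Agent.HFT
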