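import Pool.Agent.HFT.RKb

/-! # HFT/RKc: isomorphic localizations, finite powers and matrices (helper49)

PROOF. `rho_eq_of_iso`: write the isomorphism `x : L.obj X ⟶ L.obj Y` as a left fraction `f : X ⟶ Z`,
`s : Y ⟶ Z`, `s ∈ W`: `x ≫ L.map s = L.map f` is an isomorphism, so `f ∈ W` (`isIso_iff`) and
`ρ X = ρ Z = ρ Y`.
`Pow.iso`: two powers of isomorphic objects are isomorphic: `∑ j, proj j ≫ e.hom ≫ incl j` with inverse
`∑ j, proj j ≫ e.inv ≫ incl j` (use `incl i ≫ proj j = if i = j then 𝟙 else 0` and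
`∑ j, proj j ≫ incl j = 𝟙`).
`Pow.isIso_iff`: let `m := ∑ i, ∑ j, p.proj i ≫ (A i j).unop ≫ e.hom ≫ q.incl j`. The map
`B ↦ ∑ i, ∑ j, q.proj i ≫ e.inv ≫ (B i j).unop ≫ p.incl j` from matrices to morphisms `QJ ⟶ PJ` is bijective
(inverse: `B i j = op (e.hom ≫ q.incl i ≫ y ≫ p.proj j)`), and the compositions of the morphism of `A` with the
morphism of `B` in the two orders are the endomorphisms of `PJ` and `QJ` with the matrices `A * B` and `B * A`
(`(a * b).unop = a.unop ≫ b.unop`, since the multiplication of `End` is the reversed composition). The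
endomorphism with matrix `1` is the identity. So `m` is an isomorphism iff `A` has a two-sided inverse
matrix. -/

set_option autoImplicit false

universe v u v' u'

open CategoryTheory CategoryTheory.Limits

namespace Pool.Agent.HFT

namespace RankFn

variable {C : Type u} [Category.{v} C] [Preadditive C] [HasCokernels C]
    [HasBinaryBiproducts C] (r : RankFn C)
    {D : Type u'} [Category.{v'} D] [Preadditive D] (L : C ⥤ D) [L.IsLocalization r.W] [L.Additive]

theorem rho_eq_of_iso {X Y : C} (e : L.obj X ≅ L.obj Y) : r.ρ X = r.ρ Y := by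
  obtain ⟨φ, hφ⟩ := Localization.exists_leftFraction L r.W e.hom
  have h1 : e.hom ≫ L.map φ.s = L.map φ.f := by
    rw [hφ]
    exact φ.map_comp_map_s L _
  have hs : IsIso (L.map φ.s) := Localization.inverts L r.W _ φ.hs
  have hf : IsIso (L.map φ.f) := by
    rw [← h1]
    infer_instance
  have h2 := (isIso_iff r L φ.f).1 hf
  have h3 := φ.hs
  rw [W_iff] at h2 h3
  exact h2.2.trans h3.2.symm

end RankFn

/-- the object `PJ` is the direct sum of copies of `P` indexed by `J` -/
structure Pow {D : Type u'} [Category.{v'} D] [Preadditive D] (P PJ : D) (J : Type) [Fintype J]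
    [DecidableEq J] where
  incl : J → (P ⟶ PJ)
  proj : J → (PJ ⟶ P)
  rel : ∀ i j, incl i ≫ proj j = if i = j then 𝟙 P else 0
  tot : ∑ j, proj j ≫ incl j = 𝟙 PJ

namespace Pow

variable {D : Type u'} [Category.{v'} D] [Preadditive D] {P PJ Q QJ : D} {J : Type} [Fintype J]
    [DecidableEq J]

/-- image of a power under an additive functor -/
def map {E : Type u} [Category.{v} E] [Preadditive E] (L : D ⥤ E) [L.Additive] (p : Pow P PJ J) :
    Pow (L.obj P) (L.obj PJ) J where
  incl j := L.map (p.incl j)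
  proj j := L.map (p.proj j)
  rel i j := by rw [← L.map_comp, p.rel]; split_ifs <;> simp
  tot := by simp only [← L.map_comp, ← L.map_sum, p.tot, L.map_id]

private theorem rel_assoc (p : Pow P PJ J) (i j : J) {Z : D} (h : P ⟶ Z) :
    p.incl i ≫ p.proj j ≫ h = if i = j then h else 0 := by
  rw [← Category.assoc, p.rel]
  split_ifs <;> simp

private theorem iso_aux (p : Pow P PJ J) (q : Pow Q QJ J) (e : P ≅ Q) :
    (∑ j, p.proj j ≫ e.hom ≫ q.incl j) ≫ (∑ j, q.proj j ≫ e.inv ≫ p.incl j) = 𝟙 PJ := by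
  rw [Preadditive.sum_comp]
  simp only [Preadditive.comp_sum, Category.assoc, rel_assoc]
  rw [← p.tot]
  refine Finset.sum_congr rfl fun i _ => ?_
  rw [Finset.sum_eq_single i]
  · rw [if_pos rfl, e.hom_inv_id_assoc]
  · intro j _ hj
    rw [if_neg (Ne.symm hj), comp_zero, comp_zero]
  · intro h
    exact absurd (Finset.mem_univ _) h

theorem iso (p : Pow P PJ J) (q : Pow Q QJ J) (e : P ≅ Q) : Nonempty (PJ ≅ QJ) :=
  ⟨⟨∑ j, p.proj j ≫ e.hom ≫ q.incl j, ∑ j, q.proj j ≫ e.inv ≫ p.incl j, iso_aux p q e,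
    iso_aux q p e.symm⟩⟩

/-- the morphism given by a matrix of endomorphisms of `P` -/
def mor (p : Pow P PJ J) (q : Pow Q QJ J) (e : P ≅ Q) (A : Matrix J J (End P)ᵐᵒᵖ) : PJ ⟶ QJ :=
  ∑ i, ∑ j, p.proj i ≫ (show P ⟶ P from (A i j).unop) ≫ e.hom ≫ q.incl j

/-- the morphism back -/
private def back (p : Pow P PJ J) (q : Pow Q QJ J) (e : P ≅ Q) (B : Matrix J J (End P)ᵐᵒᵖ) : QJ ⟶ PJ :=
  ∑ i, ∑ j, q.proj i ≫ e.inv ≫ (show P ⟶ P from (B i j).unop) ≫ p.incl j

/-- a linear endomorphism of `PJ` -/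
private def lin (p : Pow P PJ J) (A : Matrix J J (End P)ᵐᵒᵖ) : PJ ⟶ PJ :=
  ∑ i, ∑ j, p.proj i ≫ (show P ⟶ P from (A i j).unop) ≫ p.incl j

/-- a linear endomorphism of `QJ` -/
private def linq (q : Pow Q QJ J) (e : P ≅ Q) (A : Matrix J J (End P)ᵐᵒᵖ) : QJ ⟶ QJ :=
  ∑ i, ∑ j, q.proj i ≫ e.inv ≫ (show P ⟶ P from (A i j).unop) ≫ e.hom ≫ q.incl j

private theorem unop_mul_mat (A B : Matrix J J (End P)ᵐᵒᵖ) (i j : J) :
    (show P ⟶ P from ((A * B) i j).unop) =
      ∑ k, (show P ⟶ P from (A i k).unop) ≫ (show P ⟶ P from (B k j).unop) := by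
  rw [Matrix.mul_apply]
  have := map_sum (MulOpposite.opAddEquiv (α := End P)).symm (fun k => A i k * B k j) Finset.univ
  refine this.trans ?_
  rfl

private theorem mor_back (p : Pow P PJ J) (q : Pow Q QJ J) (e : P ≅ Q)
    (A B : Matrix J J (End P)ᵐᵒᵖ) : p.mor q e A ≫ back p q e B = lin p (A * B) := by
  unfold mor back lin
  simp only [Preadditive.sum_comp, Preadditive.comp_sum, Category.assoc, rel_assoc, unop_mul_mat]
  simp only [comp_ite, comp_zero, Finset.sum_ite_eq, Finset.sum_ite_eq', Finset.mem_univ, if_true,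
    e.hom_inv_id_assoc]
  rw [Finset.sum_comm]
  conv_rhs => rw [Finset.sum_comm]
  refine Finset.sum_congr rfl fun x _ => ?_
  exact Finset.sum_comm

private theorem back_mor (p : Pow P PJ J) (q : Pow Q QJ J) (e : P ≅ Q)
    (A B : Matrix J J (End P)ᵐᵒᵖ) : back p q e B ≫ p.mor q e A = linq q e (B * A) := by
  unfold mor back linq
  simp only [Preadditive.sum_comp, Preadditive.comp_sum, Category.assoc, rel_assoc, unop_mul_mat]
  simp only [comp_ite, comp_zero, Finset.sum_ite_eq, Finset.sum_ite_eq', Finset.mem_univ, if_true]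
  rw [Finset.sum_comm]
  conv_rhs => rw [Finset.sum_comm]
  refine Finset.sum_congr rfl fun x _ => ?_
  exact Finset.sum_comm

private theorem incl_lin_proj (p : Pow P PJ J) (A : Matrix J J (End P)ᵐᵒᵖ) (i j : J) :
    p.incl i ≫ lin p A ≫ p.proj j = (show P ⟶ P from (A i j).unop) := by
  unfold lin
  simp only [Preadditive.sum_comp, Preadditive.comp_sum, Category.assoc, rel_assoc, p.rel]
  simp only [comp_ite, comp_zero, Category.comp_id, Finset.sum_ite_eq, Finset.sum_ite_eq',
    Finset.mem_univ, if_true]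
  rw [Finset.sum_comm]
  simp only [Finset.sum_ite_eq, Finset.sum_ite_eq', Finset.mem_univ, if_true]

private theorem incl_linq_proj (q : Pow Q QJ J) (e : P ≅ Q) (A : Matrix J J (End P)ᵐᵒᵖ) (i j : J) :
    e.hom ≫ q.incl i ≫ linq q e A ≫ q.proj j ≫ e.inv = (show P ⟶ P from (A i j).unop) := by
  unfold linq
  simp only [Preadditive.sum_comp, Preadditive.comp_sum, Category.assoc, rel_assoc]
  simp only [comp_ite, comp_zero, Category.comp_id, Finset.sum_ite_eq, Finset.sum_ite_eq',
    Finset.mem_univ, if_true, e.hom_inv_id, e.hom_inv_id_assoc]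
  rw [Finset.sum_comm]
  simp only [Finset.sum_ite_eq, Finset.sum_ite_eq', Finset.mem_univ, if_true, e.hom_inv_id_assoc,
    e.hom_inv_id, Category.comp_id]

private theorem unop_one_mat (i j : J) :
    (show P ⟶ P from ((1 : Matrix J J (End P)ᵐᵒᵖ) i j).unop) = if i = j then 𝟙 P else 0 := by
  rw [Matrix.one_apply]
  split_ifs <;> rfl

private theorem lin_one (p : Pow P PJ J) : lin p 1 = 𝟙 PJ := by
  unfold lin
  simp only [unop_one_mat, ite_comp, comp_ite, zero_comp, comp_zero, Category.id_comp,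
    Finset.sum_ite_eq, Finset.sum_ite_eq', Finset.mem_univ, if_true]
  exact p.tot

private theorem linq_one (q : Pow Q QJ J) (e : P ≅ Q) : linq q e 1 = 𝟙 QJ := by
  unfold linq
  simp only [unop_one_mat, ite_comp, comp_ite, zero_comp, comp_zero, Category.id_comp,
    Finset.sum_ite_eq, Finset.sum_ite_eq', Finset.mem_univ, if_true, e.inv_hom_id_assoc]
  exact q.tot

private theorem lin_inj (p : Pow P PJ J) (A B : Matrix J J (End P)ᵐᵒᵖ) (h : lin p A = lin p B) :
    A = B := by
  ext i j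
  have h1 := incl_lin_proj p A i j
  rw [h, incl_lin_proj p B i j] at h1
  exact MulOpposite.unop_injective h1.symm

private theorem linq_inj (q : Pow Q QJ J) (e : P ≅ Q) (A B : Matrix J J (End P)ᵐᵒᵖ)
    (h : linq q e A = linq q e B) : A = B := by
  ext i j
  have h1 := incl_linq_proj q e A i j
  rw [h, incl_linq_proj q e B i j] at h1
  exact MulOpposite.unop_injective h1.symm

private theorem back_surj (p : Pow P PJ J) (q : Pow Q QJ J) (e : P ≅ Q) (y : QJ ⟶ PJ) :
    ∃ B : Matrix J J (End P)ᵐᵒᵖ, back p q e B = y := by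
  refine ⟨fun i j => MulOpposite.op (show End P from e.hom ≫ q.incl i ≫ y ≫ p.proj j), ?_⟩
  have h1 : y = (∑ j, q.proj j ≫ q.incl j) ≫ y ≫ (∑ j, p.proj j ≫ p.incl j) := by
    rw [q.tot, p.tot, Category.id_comp, Category.comp_id]
  conv_rhs => rw [h1]
  unfold back
  simp only [Preadditive.sum_comp, Preadditive.comp_sum, Category.assoc]
  conv_rhs => rw [Finset.sum_comm]
  refine Finset.sum_congr rfl fun i _ => Finset.sum_congr rfl fun j _ => ?_
  change q.proj i ≫ e.inv ≫ (e.hom ≫ q.incl i ≫ y ≫ p.proj j) ≫ p.incl j = _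
  simp only [Category.assoc, e.inv_hom_id_assoc]

theorem isIso_iff (p : Pow P PJ J) (q : Pow Q QJ J) (e : P ≅ Q) (A : Matrix J J (End P)ᵐᵒᵖ) :
    IsIso (p.mor q e A) ↔ IsUnit A := by
  constructor
  · intro h
    obtain ⟨B, hB⟩ := back_surj p q e (inv (p.mor q e A))
    have h1 := mor_back p q e A B
    have h2 := back_mor p q e A B
    rw [hB, IsIso.hom_inv_id, ← lin_one p] at h1
    rw [hB, IsIso.inv_hom_id, ← linq_one q e] at h2
    exact ⟨⟨A, B, (lin_inj p _ _ h1).symm, (linq_inj q e _ _ h2).symm⟩, rfl⟩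
  · rintro ⟨⟨A, B, hAB, hBA⟩, rfl⟩
    refine ⟨back p q e B, ?_, ?_⟩
    · rw [mor_back, hAB, lin_one]
    · rw [back_mor, hBA, linq_one]

end Pow

end Pool.Agent.HFT
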