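import Pool.Agent.HFT.GW
import Pool.Agent.HFT.RKc

/-! # HFT/GTh: the division ring of a one-edge graph of groups (helper49)

PROOF. `divU`: `RankFn.isUnit_or_eq_zero`, `nontrivial_end` for `P = PC`, `rho_PC`
(`DivisionRing.ofIsUnitOrEqZero`).
`exists_theta`. Write `R u := u.unop` (a morphism of `L.obj PC`); `R (u * u') = R u ≫ R u'`. `L.map iS`,
`L.map iT` are isomorphisms (`iS_W`, `iT_W`, `Localization.inverts` or `RankFn.isIso_iff`).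
Isomorphisms `b ν : L.obj (P ν) ≅ L.obj PC`: for `ν = s` it is `L.map iS`; for `ν = t ≠ s` it is `L.map iT`
(`types`: there are no other `ν`; definition by cases with casts).
For `a ∈ A ν` put `F ν a := op ((b ν).inv ≫ L.map (rV ν (αV ν a)) ≫ (b ν).hom)`, a homomorphism to `U`
(`rV_mul`, `rV_one`), with values in the units: a homomorphism `A ν →* Uˣ` (`MonoidHom.toHomUnits`).
`h := op (inv (L.map iT) ≫ (b t).hom)`, a unit. For `c ∈ Cc`: `F s c * h = h * F t (tt⁻¹ c tt)`: the left side is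
`inv (L iS) ≫ L (rV s (σ c)) ≫ L iS ≫ inv (L iT) ≫ (b t).hom`, and by `iS_rC`
`inv (L iS) ≫ L (rV s (σ c)) ≫ L iS = L (rC c)`; the right side is
`inv (L iT) ≫ (b t).hom ≫ (b t).inv ≫ L (rV t (τ c)) ≫ (b t).hom = inv (L iT) ≫ L (rV t (τ c)) ≫ (b t).hom`, and by
`iT_rC` `inv (L iT) ≫ L (rV t (τ c)) = L (rC c) ≫ inv (L iT)`. (Use `σα`, `τα`.)
If `s ≠ t` then `b t = L iT`, so `h = 1`. `univ` (with `H := Uˣ : Type (u+1)`) gives `φ : G →* Uˣ`.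
`θR r := op (L.map (rC (ρC r)))` is a ring homomorphism `R →+* U` (`rC_mul`, `rC_add`, `rC_one`, `L` is
additive). It commutes with all `φ g`: enough for `g ∈ A s`, `g ∈ A t`, `g = tt` (`gen`,
`Subgroup.closure_induction`; the set of the `g` commuting with `θR r` is a subgroup). First
`(b ν).hom ≫ L (rC (ρC r)) = L (rV ν (ρV ν r)) ≫ (b ν).hom` for all `ν` (field `bR`): for `ν = s` by `iS_rC`, `σρ`, for
`ν = t ≠ s` by `iT_rC`, `τρ`. So `θR r * F ν a = F ν a * θR r` by `commV` (both sides are `(b ν).inv ≫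
L (rV (ρ r * α a)) ≫ (b ν).hom`). For `tt`: `R (θR r) ≫ inv (L iT) ≫ (b t).hom = inv (L iT) ≫ L (rV (ρV t r)) ≫ (b t).hom =
inv (L iT) ≫ (b t).hom ≫ R (θR r)`. Then `θ := MonoidAlgebra.liftNCRingHom θR (units.val ∘ φ) _`,
`θ (single g 1) = φ g`, `θ (single 1 r) = θR r`. -/

set_option autoImplicit false

universe u

open CategoryTheory CategoryTheory.Limits

namespace Pool.Agent.HFT

variable {G : Type u} [Group G] {S : ConradSys G} {R : Type u} [DivisionRing R]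

namespace GData

variable (𝒢 : GData S R)

/-- the localized category -/
abbrev Loc := (SpObj.rk 𝒢.sp).W.Localization

/-- the localization functor -/
abbrev L : SpObj 𝒢.sp ⥤ 𝒢.Loc := (SpObj.rk 𝒢.sp).W.Q

/-- the endomorphism ring of the edge object in the localized category -/
abbrev U : Type (u + 1) := (End (𝒢.L.obj 𝒢.PC))ᵐᵒᵖ

/-- the morphism belonging to an element of `U` -/
def toMor (x : 𝒢.U) : 𝒢.L.obj 𝒢.PC ⟶ 𝒢.L.obj 𝒢.PC := x.unop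

theorem toMor_mul (x y : 𝒢.U) : 𝒢.toMor (x * y) = 𝒢.toMor x ≫ 𝒢.toMor y := rfl

theorem toMor_one : 𝒢.toMor 1 = 𝟙 _ := rfl

theorem toMor_add (x y : 𝒢.U) : 𝒢.toMor (x + y) = 𝒢.toMor x + 𝒢.toMor y := rfl

theorem toMor_inj {x y : 𝒢.U} (h : 𝒢.toMor x = 𝒢.toMor y) : x = y := MulOpposite.unop_injective h

/-- `U` is a division ring -/
@[instance_reducible]
noncomputable def divU : DivisionRing 𝒢.U :=
  haveI : Nontrivial 𝒢.U := (SpObj.rk 𝒢.sp).nontrivial_end 𝒢.L (P := 𝒢.PC) 𝒢.rho_PC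
  DivisionRing.ofIsUnitOrEqZero
    (fun x => (SpObj.rk 𝒢.sp).isUnit_or_eq_zero 𝒢.L (P := 𝒢.PC) 𝒢.rho_PC x)

/-- a representation of the group ring over `U` -/
structure Theta where
  θ : MonoidAlgebra R G →+* 𝒢.U
  b : ∀ ν, 𝒢.L.obj (𝒢.P ν) ≅ 𝒢.L.obj 𝒢.PC
  bS : (b 𝒢.sp.s).hom = 𝒢.L.map 𝒢.iS
  bT : (b 𝒢.sp.t).hom = 𝒢.L.map 𝒢.iT ≫ 𝒢.toMor (θ (MonoidAlgebra.single 𝒢.tt 1))
  bA : ∀ ν (a : 𝒢.A ν), (b ν).hom ≫ 𝒢.toMor (θ (MonoidAlgebra.single (a : G) 1)) =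
    𝒢.L.map (rV ν (𝒢.αV ν a)) ≫ (b ν).hom
  bR : ∀ ν (r : R), (b ν).hom ≫ 𝒢.toMor (θ (MonoidAlgebra.single 1 r)) =
    𝒢.L.map (rV ν (𝒢.ρV ν r)) ≫ (b ν).hom
  θR : ∀ r : R, 𝒢.toMor (θ (MonoidAlgebra.single 1 r)) = 𝒢.L.map (rC (𝒢.ρC r))

/-- the element of `U` belonging to a morphism -/
def ofMor (f : 𝒢.L.obj 𝒢.PC ⟶ 𝒢.L.obj 𝒢.PC) : 𝒢.U := MulOpposite.op f

theorem toMor_ofMor (f : 𝒢.L.obj 𝒢.PC ⟶ 𝒢.L.obj 𝒢.PC) : 𝒢.toMor (𝒢.ofMor f) = f := rfl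

theorem exists_theta : Nonempty 𝒢.Theta := by
  have hiS : IsIso (𝒢.L.map 𝒢.iS) := Localization.inverts 𝒢.L (SpObj.rk 𝒢.sp).W _ 𝒢.iS_W
  have hiT : IsIso (𝒢.L.map 𝒢.iT) := Localization.inverts 𝒢.L (SpObj.rk 𝒢.sp).W _ 𝒢.iT_W
  -- commutation rules for the two inclusions
  have cS : ∀ d : 𝒢.sp.DC, 𝒢.L.map 𝒢.iS ≫ 𝒢.L.map (rC d) =
      𝒢.L.map (rV _ (𝒢.sp.σ d)) ≫ 𝒢.L.map 𝒢.iS := fun d => by
    rw [← Functor.map_comp, ← Functor.map_comp, iS_rC]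
  have cT : ∀ d : 𝒢.sp.DC, 𝒢.L.map 𝒢.iT ≫ 𝒢.L.map (rC d) =
      𝒢.L.map (rV _ (𝒢.sp.τ d)) ≫ 𝒢.L.map 𝒢.iT := fun d => by
    rw [← Functor.map_comp, ← Functor.map_comp, iT_rC]
  have cT' : ∀ d : 𝒢.sp.DC, 𝒢.L.map (rC d) ≫ inv (𝒢.L.map 𝒢.iT) =
      inv (𝒢.L.map 𝒢.iT) ≫ 𝒢.L.map (rV _ (𝒢.sp.τ d)) := fun d => by
    rw [IsIso.comp_inv_eq, Category.assoc, ← cT, IsIso.inv_hom_id_assoc]
  -- the isomorphisms `b`
  obtain ⟨b, hbs, hbt⟩ : ∃ b : ∀ ν, 𝒢.L.obj (𝒢.P ν) ≅ 𝒢.L.obj 𝒢.PC,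
      (b 𝒢.sp.s).hom = 𝒢.L.map 𝒢.iS ∧ (𝒢.sp.s ≠ 𝒢.sp.t → (b 𝒢.sp.t).hom = 𝒢.L.map 𝒢.iT) := by
    have key : ∀ ν, ∃ b : 𝒢.L.obj (𝒢.P ν) ≅ 𝒢.L.obj 𝒢.PC,
        (∀ h : 𝒢.sp.s = ν, h ▸ b.hom = 𝒢.L.map 𝒢.iS) ∧
        (𝒢.sp.s ≠ ν → ∀ h : 𝒢.sp.t = ν, h ▸ b.hom = 𝒢.L.map 𝒢.iT) := by
      intro ν
      rcases eq_or_ne 𝒢.sp.s ν with rfl | hν
      · exact ⟨asIso (𝒢.L.map 𝒢.iS), fun h => rfl, fun h => absurd rfl h⟩
      · obtain rfl := (𝒢.types ν).resolve_left (fun h => hν h.symm)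
        exact ⟨asIso (𝒢.L.map 𝒢.iT), fun h => absurd h hν, fun _ h => rfl⟩
    choose b hb1 hb2 using key
    exact ⟨b, hb1 _ rfl, fun h => hb2 _ h rfl⟩
  -- field `bR`
  have hbR : ∀ ν (r : R), (b ν).hom ≫ 𝒢.L.map (rC (𝒢.ρC r)) =
      𝒢.L.map (rV ν (𝒢.ρV ν r)) ≫ (b ν).hom := by
    intro ν r
    rcases eq_or_ne 𝒢.sp.s ν with rfl | hν
    · rw [hbs, cS, 𝒢.σρ]
    · obtain rfl := (𝒢.types ν).resolve_left (fun h => hν h.symm)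
      rw [hbt hν, cT, 𝒢.τρ]
  have hbR' : ∀ ν (r : R), 𝒢.L.map (rC (𝒢.ρC r)) ≫ (b ν).inv =
      (b ν).inv ≫ 𝒢.L.map (rV ν (𝒢.ρV ν r)) := by
    intro ν r
    rw [Iso.comp_inv_eq, Category.assoc, ← hbR, Iso.inv_hom_id_assoc]
  -- the homomorphisms `F`
  obtain ⟨F, hF⟩ : ∃ F : ∀ ν, 𝒢.A ν →* 𝒢.U, ∀ ν a, 𝒢.toMor (F ν a) =
      (b ν).inv ≫ 𝒢.L.map (rV ν (𝒢.αV ν a)) ≫ (b ν).hom := by
    refine ⟨fun ν =>
      { toFun := fun a => 𝒢.ofMor ((b ν).inv ≫ 𝒢.L.map (rV ν (𝒢.αV ν a)) ≫ (b ν).hom)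
        map_one' := ?_
        map_mul' := ?_ }, fun ν a => rfl⟩
    · apply 𝒢.toMor_inj
      rw [toMor_ofMor, toMor_one, map_one, rV_one, CategoryTheory.Functor.map_id,
        Category.id_comp, Iso.inv_hom_id]
    · intro a a'
      apply 𝒢.toMor_inj
      rw [toMor_mul, toMor_ofMor, toMor_ofMor, toMor_ofMor, map_mul, rV_mul, Functor.map_comp]
      simp only [Category.assoc, Iso.hom_inv_id_assoc]
  obtain ⟨h, hh⟩ : ∃ h : (𝒢.U)ˣ, 𝒢.toMor (h : 𝒢.U) = inv (𝒢.L.map 𝒢.iT) ≫ (b 𝒢.sp.t).hom := by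
    refine ⟨⟨𝒢.ofMor (inv (𝒢.L.map 𝒢.iT) ≫ (b 𝒢.sp.t).hom),
      𝒢.ofMor ((b 𝒢.sp.t).inv ≫ 𝒢.L.map 𝒢.iT), ?_, ?_⟩, rfl⟩
    · apply 𝒢.toMor_inj
      rw [toMor_mul, toMor_ofMor, toMor_ofMor, toMor_one]
      simp only [Category.assoc, Iso.hom_inv_id_assoc, IsIso.inv_hom_id]
    · apply 𝒢.toMor_inj
      rw [toMor_mul, toMor_ofMor, toMor_ofMor, toMor_one]
      simp only [Category.assoc, IsIso.hom_inv_id_assoc, Iso.inv_hom_id]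
  obtain ⟨φ, hφ1, hφ2⟩ := 𝒢.univ (𝒢.U)ˣ (fun ν => (F ν).toHomUnits) h (by
    intro c
    apply Units.ext
    apply 𝒢.toMor_inj
    rw [Units.val_mul, Units.val_mul, toMor_mul, toMor_mul, MonoidHom.coe_toHomUnits,
      MonoidHom.coe_toHomUnits, hF, hF, hh, ← 𝒢.σα, ← 𝒢.τα]
    simp only [Category.assoc, Iso.hom_inv_id_assoc]
    have e1 : (b 𝒢.sp.s).inv ≫ 𝒢.L.map (rV 𝒢.sp.s (𝒢.sp.σ (𝒢.αC c))) ≫ (b 𝒢.sp.s).hom =
        𝒢.L.map (rC (𝒢.αC c)) := by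
      rw [hbs, ← cS, ← hbs, Iso.inv_hom_id_assoc]
    have e2 := congrArg (fun x => x ≫ inv (𝒢.L.map 𝒢.iT) ≫ (b 𝒢.sp.t).hom) e1
    simp only [Category.assoc] at e2
    rw [e2, ← Category.assoc, cT', Category.assoc]) (by
    intro hne
    apply Units.ext
    apply 𝒢.toMor_inj
    rw [hh, hbt hne, Units.val_one, toMor_one, IsIso.inv_hom_id])
  have hφA : ∀ ν (a : 𝒢.A ν), 𝒢.toMor (φ a : 𝒢.U) =
      (b ν).inv ≫ 𝒢.L.map (rV ν (𝒢.αV ν a)) ≫ (b ν).hom := by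
    intro ν a
    rw [hφ1, MonoidHom.coe_toHomUnits, hF]
  have hφt : 𝒢.toMor (φ 𝒢.tt : 𝒢.U) = inv (𝒢.L.map 𝒢.iT) ≫ (b 𝒢.sp.t).hom := by
    rw [hφ2, hh]
  obtain ⟨θR, hθR⟩ : ∃ θR : R →+* 𝒢.U, ∀ r, 𝒢.toMor (θR r) = 𝒢.L.map (rC (𝒢.ρC r)) := by
    refine ⟨RingHom.mk' { toFun := fun r => 𝒢.ofMor (𝒢.L.map (rC (𝒢.ρC r)))
                          map_one' := ?_
                          map_mul' := ?_ } ?_, fun r => rfl⟩
    · apply 𝒢.toMor_inj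
      rw [toMor_ofMor, toMor_one, map_one, rC_one, CategoryTheory.Functor.map_id]
    · intro r r'
      apply 𝒢.toMor_inj
      rw [toMor_mul, toMor_ofMor, toMor_ofMor, toMor_ofMor, map_mul, rC_mul, Functor.map_comp]
    · intro r r'
      apply 𝒢.toMor_inj
      show 𝒢.L.map (rC (𝒢.ρC (r + r'))) = 𝒢.L.map (rC (𝒢.ρC r)) + 𝒢.L.map (rC (𝒢.ρC r'))
      rw [map_add, rC_add, Functor.map_add]
  have hcomm : ∀ (r : R) (g : G), Commute (θR r) (((Units.coeHom 𝒢.U).comp φ) g) := by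
    intro r g
    have hg : g ∈ Subgroup.closure (((𝒢.A 𝒢.sp.s : Set G) ∪ (𝒢.A 𝒢.sp.t : Set G)) ∪ {𝒢.tt}) := by
      rw [𝒢.gen]
      exact Subgroup.mem_top g
    have hA : ∀ ν (a : 𝒢.A ν), Commute (θR r) (((Units.coeHom 𝒢.U).comp φ) a) := by
      intro ν a
      show θR r * (φ a : 𝒢.U) = (φ a : 𝒢.U) * θR r
      apply 𝒢.toMor_inj
      rw [toMor_mul, toMor_mul, hθR, hφA]
      simp only [Category.assoc]
      rw [← Category.assoc, hbR', hbR]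
      simp only [Category.assoc]
      have e1 : 𝒢.L.map (rV ν (𝒢.ρV ν r)) ≫ 𝒢.L.map (rV ν (𝒢.αV ν a)) =
          𝒢.L.map (rV ν (𝒢.αV ν a)) ≫ 𝒢.L.map (rV ν (𝒢.ρV ν r)) := by
        rw [← Functor.map_comp, ← Functor.map_comp, ← rV_mul, ← rV_mul, 𝒢.commV]
      have e2 := congrArg (fun x => (b ν).inv ≫ x ≫ (b ν).hom) e1
      simp only [Category.assoc] at e2
      exact e2
    induction hg using Subgroup.closure_induction with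
    | mem x hx =>
      rcases hx with (hx | hx) | hx
      · exact hA _ ⟨x, hx⟩
      · exact hA _ ⟨x, hx⟩
      · rw [Set.mem_singleton_iff] at hx
        subst hx
        show θR r * (φ 𝒢.tt : 𝒢.U) = (φ 𝒢.tt : 𝒢.U) * θR r
        apply 𝒢.toMor_inj
        rw [toMor_mul, toMor_mul, hθR, hφt, ← Category.assoc, cT', Category.assoc, 𝒢.τρ,
          Category.assoc, hbR]
    | one =>
      rw [map_one]
      exact Commute.one_right _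
    | mul x y _ _ hx hy =>
      rw [map_mul]
      exact hx.mul_right hy
    | inv x _ hx =>
      have e : ((Units.coeHom 𝒢.U).comp φ) x⁻¹ = ((φ x)⁻¹ : (𝒢.U)ˣ) := by
        show ((φ x⁻¹ : (𝒢.U)ˣ) : 𝒢.U) = _
        rw [map_inv]
      rw [e]
      exact Commute.units_inv_right hx
  obtain ⟨θ, hθ⟩ : ∃ θ : MonoidAlgebra R G →+* 𝒢.U, ∀ g r,
      θ (MonoidAlgebra.single g r) = θR r * (φ g : 𝒢.U) :=
    ⟨MonoidAlgebra.liftNCRingHom θR ((Units.coeHom 𝒢.U).comp φ) hcomm, fun g r =>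
      MonoidAlgebra.liftNC_single _ _ _ _⟩
  have hθ1 : ∀ g, θ (MonoidAlgebra.single g 1) = (φ g : 𝒢.U) := fun g => by
    rw [hθ, map_one, one_mul]
  have hθ2 : ∀ r, θ (MonoidAlgebra.single 1 r) = θR r := fun r => by
    rw [hθ, map_one, Units.val_one, mul_one]
  refine ⟨⟨θ, b, hbs, ?_, ?_, ?_, ?_⟩⟩
  · rw [hθ1, hφt, IsIso.hom_inv_id_assoc]
  · intro ν a
    rw [hθ1, hφA, Iso.hom_inv_id_assoc]
  · intro ν r
    rw [hθ2, hθR, hbR]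
  · intro r
    rw [hθ2, hθR]

end GData

end Pool.Agent.HFT
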