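import Pool.Agent.HFT.GTh

/-! # HFT/GTree: labelled trees (helper49)

PROOF. `tree_iso`, induction on `Tree T`; write `R g := toMor (θ (single g 1))`, `R (g h) = R g ≫ R h`,
`R 1 = 𝟙`, so `R g` is an isomorphism with inverse `R g⁻¹`.
`pt ν g`: `(pt ν g).obj` and `P ν = (pt ν 1).obj` are the same object (the labels are not used in `obj` as there
are no edges; `show`/`rfl`, or the isomorphism `homV (eV ⟨rfl⟩)`, whose components are identities); let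
`i : P ν ⟶ (pt ν g).obj` be `homV (eV ⟨rfl⟩)`, an isomorphism. `Ψ := (R g)⁻¹ ≫ (b ν)⁻¹ ≫ L i`. The only vertices are
of type `ν`.
`addT`: let `j : T.obj ⟶ T'.obj` be from `exists_incT`, `Ψ' := Ψ ≫ L j` (`L j` is an isomorphism). For old
vertices and edges: `homV (eV w) ≫ j = homV (eV (inl w))` (`homV_comp`). New edge `e` (label `ge`, source the old
vertex `v`): `iS ≫ homC (eE e) = homV (f (eE e)) = homV (cS e • eV v) = rV (cS e) ≫ homV (eV v)` (`iS_comp`,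
`f_eE`, `rV_comp`), `cS e = αV a`, `a = ge (gV v)⁻¹`. Apply `L`: `(b s) ≫ L (homC (eE e)) =
L (rV (αV a)) ≫ (b s) ≫ R (gV v) ≫ Ψ' = (b s) ≫ R a ≫ R (gV v) ≫ Ψ' = (b s) ≫ R ge ≫ Ψ'` (`bS`, `bA`), and `b s` is
an isomorphism. New vertex `w` (label `gw`): `iT ≫ homC (eE e) = rV (cT e) ≫ homV (eV w)`, `cT e = αV d`,
`d = tt⁻¹ ge gw⁻¹`. So `L iT ≫ R ge ≫ Ψ' = L (rV (αV d)) ≫ L (homV (eV w))`. Multiply on the left with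
`L (rV (αV d⁻¹))`, which is the inverse: `L (homV (eV w)) = L (rV (αV d⁻¹)) ≫ L iT ≫ R ge ≫ Ψ'`; by `bT`
`L iT = (b t) ≫ R tt⁻¹`, by `bA` `L (rV (αV d⁻¹)) ≫ (b t) = (b t) ≫ R d⁻¹`, so it is
`(b t) ≫ R (d⁻¹ tt⁻¹ ge) ≫ Ψ' = (b t) ≫ R gw ≫ Ψ'`. (A vertex of type `μ` of `T'` is an old one or `inr h`,
`h : t = μ`.) `addS` in the same way: new edge: from `iT ≫ homC (eE e) = rV (cT e) ≫ homV (eV w)`,
`d = tt⁻¹ ge (gV w)⁻¹`: `(b t) ≫ R tt⁻¹ ≫ L (homC (eE e)) = (b t) ≫ R d ≫ R (gV w) ≫ Ψ'`, so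
`L (homC (eE e)) = R (tt d (gV w)) ≫ Ψ' = R ge ≫ Ψ'`. New vertex `v` of label `gv`, `a = ge gv⁻¹`:
`(b s) ≫ R ge ≫ Ψ' = L (rV (αV a)) ≫ L (homV (eV v))`, so `L (homV (eV v)) = (b s) ≫ R (a⁻¹ ge) ≫ Ψ'`.
`exists_tree`. `T ≤ T'` means: every edge label of `T` is an edge label of `T'` and every vertex label of type
`ν` of `T` is one of type `ν` of `T'`. For types `ν, ν'` let `K ν ν'` be the set of the `g` such that for every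
tree `T` and vertex `v` of type `ν` there is a tree `T' ≥ T` with a vertex of type `ν'` with label
`g * gV v`. `1 ∈ K ν ν`; `g ∈ K ν ν'`, `g' ∈ K ν' ν''` imply `g' g ∈ K ν ν''`. For `a ∈ A s`, `d ∈ A t`:
`d tt⁻¹ a ∈ K s t` (`addT` with `ge = a h`, `gw = d tt⁻¹ a h`, `h` the label of `v`) and
`a tt d ∈ K t s` (`addS` with `ge = tt d h`, `gv = a tt d h`). If `s = t`: `K s s` contains `tt`, `tt⁻¹`,
`A s = (A s tt) tt⁻¹` and `A t`. If `s ≠ t`: `tt = 1` (`hst`), `K s s` contains `A s` (`a = (a tt 1)(1 tt⁻¹ 1)`)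
and `A t` (`d = (1 tt d)(1 tt⁻¹ 1)`). As `K s s` is a submonoid and the generating set is closed under
inverses, `K s s = ⊤` (`gen`). Now start with `pt s 1` and treat the elements `g ∈ F` one after the other
(`Finset.induction_on`): there is always a vertex of type `s` with label `1`; extend to have a vertex of
type `s` with label `g` and attach (`addT`) an edge with `ge = g`, `gw = tt⁻¹ g`. -/

set_option autoImplicit false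

universe u

open CategoryTheory CategoryTheory.Limits

namespace Pool.Agent.HFT

variable {G : Type u} [Group G] {S : ConradSys G} {R : Type u} [DivisionRing R]

namespace GData

variable {𝒢 : GData S R}

/-- the image of a group element -/
private noncomputable def Rr (Θ : 𝒢.Theta) (g : G) : 𝒢.L.obj 𝒢.PC ⟶ 𝒢.L.obj 𝒢.PC :=
  𝒢.toMor (Θ.θ (MonoidAlgebra.single g 1))

private theorem Rr_mul (Θ : 𝒢.Theta) (g h : G) : Rr Θ g ≫ Rr Θ h = Rr Θ (g * h) := by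
  unfold Rr
  rw [← 𝒢.toMor_mul, ← map_mul, MonoidAlgebra.single_mul_single, mul_one]

private theorem Rr_mul_assoc (Θ : 𝒢.Theta) (g h : G) {X : 𝒢.Loc} (x : 𝒢.L.obj 𝒢.PC ⟶ X) :
    Rr Θ g ≫ Rr Θ h ≫ x = Rr Θ (g * h) ≫ x := by
  rw [← Category.assoc, Rr_mul]

private theorem Rr_one (Θ : 𝒢.Theta) : Rr Θ 1 = 𝟙 _ := by
  unfold Rr
  have h : (MonoidAlgebra.single (1 : G) (1 : R)) = 1 := rfl
  rw [h, map_one, 𝒢.toMor_one]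

private noncomputable def RI (Θ : 𝒢.Theta) (g : G) : 𝒢.L.obj 𝒢.PC ≅ 𝒢.L.obj 𝒢.PC where
  hom := Rr Θ g
  inv := Rr Θ g⁻¹
  hom_inv_id := by rw [Rr_mul, mul_inv_cancel, Rr_one]
  inv_hom_id := by rw [Rr_mul, inv_mul_cancel, Rr_one]

private theorem rV_isIso (ν : 𝒢.sp.Vt) (a : 𝒢.A ν) : IsIso (rV ν (𝒢.αV ν a)) := by
  refine ⟨rV ν (𝒢.αV ν a⁻¹), ?_, ?_⟩
  · rw [← rV_mul, ← map_mul, mul_inv_cancel, map_one, rV_one]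
  · rw [← rV_mul, ← map_mul, inv_mul_cancel, map_one, rV_one]

private theorem bA' (Θ : 𝒢.Theta) (ν : 𝒢.sp.Vt) (a : 𝒢.A ν) {X : 𝒢.Loc}
    (x : 𝒢.L.obj 𝒢.PC ⟶ X) :
    𝒢.L.map (rV ν (𝒢.αV ν a)) ≫ (Θ.b ν).hom ≫ x = (Θ.b ν).hom ≫ Rr Θ (a : G) ≫ x := by
  rw [← Category.assoc, ← Θ.bA, Category.assoc]
  rfl

private theorem keyS (T : LG 𝒢) (e : T.E) :
    𝒢.L.map 𝒢.iS ≫ 𝒢.L.map (homC (T.eE e)) =
      𝒢.L.map (rV _ (T.cS e)) ≫ 𝒢.L.map (homV (T.eV (T.sE e))) := by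
  rw [← Functor.map_comp, ← Functor.map_comp]
  exact congrArg 𝒢.L.map ((iS_comp _).trans (by rw [LG.f_eE, rV_comp]))

private theorem keyT (T : LG 𝒢) (e : T.E) :
    𝒢.L.map 𝒢.iT ≫ 𝒢.L.map (homC (T.eE e)) =
      𝒢.L.map (rV _ (T.cT e)) ≫ 𝒢.L.map (homV (T.eV (T.tE e))) := by
  rw [← Functor.map_comp, ← Functor.map_comp]
  exact congrArg 𝒢.L.map ((iT_comp _).trans (by rw [LG.g_eE, rV_comp]))

private theorem bT' (Θ : 𝒢.Theta) {X : 𝒢.Loc} (x : 𝒢.L.obj 𝒢.PC ⟶ X) :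
    𝒢.L.map 𝒢.iT ≫ x = (Θ.b 𝒢.sp.t).hom ≫ Rr Θ 𝒢.tt⁻¹ ≫ x := by
  have h : (Θ.b 𝒢.sp.t).hom = 𝒢.L.map 𝒢.iT ≫ Rr Θ 𝒢.tt := Θ.bT
  rw [h, Category.assoc, Rr_mul_assoc, mul_inv_cancel, Rr_one, Category.id_comp]

private theorem edge_of_src (Θ : 𝒢.Theta) {T : LG 𝒢} (Ψ : 𝒢.L.obj 𝒢.PC ⟶ 𝒢.L.obj T.obj)
    (e : T.E) (h : 𝒢.L.map (homV (T.eV (T.sE e))) =
      (Θ.b 𝒢.sp.s).hom ≫ Rr Θ (T.gV _ (T.sE e)) ≫ Ψ) :
    𝒢.L.map (homC (T.eE e)) = Rr Θ (T.gE e) ≫ Ψ := by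
  rw [← cancel_epi (Θ.b 𝒢.sp.s).hom]
  have h1 := keyS T e
  rw [h, LG.cS, bA', Rr_mul_assoc, inv_mul_cancel_right, ← Θ.bS] at h1
  exact h1

private theorem src_of_edge (Θ : 𝒢.Theta) {T : LG 𝒢} (Ψ : 𝒢.L.obj 𝒢.PC ⟶ 𝒢.L.obj T.obj)
    (e : T.E) (h : 𝒢.L.map (homC (T.eE e)) = Rr Θ (T.gE e) ≫ Ψ) :
    𝒢.L.map (homV (T.eV (T.sE e))) = (Θ.b 𝒢.sp.s).hom ≫ Rr Θ (T.gV _ (T.sE e)) ≫ Ψ := by
  have := rV_isIso (𝒢 := 𝒢) _ ⟨_, T.mS e⟩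
  have h1 := keyS T e
  rw [h, ← Θ.bS, LG.cS] at h1
  rw [← cancel_epi (𝒢.L.map (rV _ (𝒢.αV _ ⟨_, T.mS e⟩))), ← h1, bA', Rr_mul_assoc,
    inv_mul_cancel_right]

private theorem edge_of_tgt (Θ : 𝒢.Theta) {T : LG 𝒢} (Ψ : 𝒢.L.obj 𝒢.PC ⟶ 𝒢.L.obj T.obj)
    (e : T.E) (h : 𝒢.L.map (homV (T.eV (T.tE e))) =
      (Θ.b 𝒢.sp.t).hom ≫ Rr Θ (T.gV _ (T.tE e)) ≫ Ψ) :
    𝒢.L.map (homC (T.eE e)) = Rr Θ (T.gE e) ≫ Ψ := by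
  have h1 := keyT T e
  rw [h, LG.cT, bA', Rr_mul_assoc, inv_mul_cancel_right, bT' Θ, ← Rr_mul_assoc] at h1
  have h2 := (cancel_epi (Θ.b 𝒢.sp.t).hom).1 h1
  exact (cancel_epi (RI Θ 𝒢.tt⁻¹).hom).1 h2

private theorem tgt_of_edge (Θ : 𝒢.Theta) {T : LG 𝒢} (Ψ : 𝒢.L.obj 𝒢.PC ⟶ 𝒢.L.obj T.obj)
    (e : T.E) (h : 𝒢.L.map (homC (T.eE e)) = Rr Θ (T.gE e) ≫ Ψ) :
    𝒢.L.map (homV (T.eV (T.tE e))) = (Θ.b 𝒢.sp.t).hom ≫ Rr Θ (T.gV _ (T.tE e)) ≫ Ψ := by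
  have := rV_isIso (𝒢 := 𝒢) _ ⟨_, T.mT e⟩
  have h1 := keyT T e
  rw [h, bT' Θ, LG.cT] at h1
  rw [← cancel_epi (𝒢.L.map (rV _ (𝒢.αV _ ⟨_, T.mT e⟩))), ← h1, bA', Rr_mul_assoc, Rr_mul_assoc,
    inv_mul_cancel_right]

/-- the objects of two points with different labels are isomorphic -/
private def ptHom (ν : 𝒢.sp.Vt) (g g' : G) : (LG.pt 𝒢 ν g).obj ⟶ (LG.pt 𝒢 ν g').obj :=
  SpObj.mkHom
    (fun μ => (LinearMap.id : (PLift (ν = μ) → 𝒢.sp.DV μ) →ₗ[𝒢.sp.DV μ]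
      (PLift (ν = μ) → 𝒢.sp.DV μ)))
    (LinearMap.id : (Empty → 𝒢.sp.DC) →ₗ[𝒢.sp.DC] (Empty → 𝒢.sp.DC))
    (fun w => by
      have h : w = 0 := (inferInstance : Subsingleton (Empty → 𝒢.sp.DC)).elim _ _
      subst h
      exact (map_zero (LG.pt 𝒢 ν g).obj.f).trans (map_zero (LG.pt 𝒢 ν g').obj.f).symm)
    (fun w => by
      have h : w = 0 := (inferInstance : Subsingleton (Empty → 𝒢.sp.DC)).elim _ _
      subst h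
      exact (map_zero (LG.pt 𝒢 ν g).obj.g).trans (map_zero (LG.pt 𝒢 ν g').obj.g).symm)

private def ptIso (ν : 𝒢.sp.Vt) (g g' : G) : (LG.pt 𝒢 ν g).obj ≅ (LG.pt 𝒢 ν g').obj where
  hom := ptHom ν g g'
  inv := ptHom ν g' g
  hom_inv_id := SpObj.hom_ext (fun _ _ => rfl) (fun _ => rfl)
  inv_hom_id := SpObj.hom_ext (fun _ _ => rfl) (fun _ => rfl)

private theorem homV_pt (ν : 𝒢.sp.Vt) (g : G) :
    homV ((LG.pt 𝒢 ν g).eV (ν := ν) ⟨rfl⟩) = ptHom ν 1 g := by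
  apply homV_unique
  rw [homV_one]
  funext i
  show (Pi.single (⟨rfl⟩ : PLift (ν = ν)) 1 : PLift (ν = ν) → 𝒢.sp.DV ν) i = 1
  have h : i = (⟨rfl⟩ : PLift (ν = ν)) := rfl
  rw [h, Pi.single_eq_same]

private theorem tree_iso_aux (Θ : 𝒢.Theta) {T : LG 𝒢} (hT : T.Tree) :
    ∃ Ψ : 𝒢.L.obj 𝒢.PC ≅ 𝒢.L.obj T.obj,
      (∀ (ν : 𝒢.sp.Vt) (v : T.V ν), 𝒢.L.map (homV (T.eV v)) =
        (Θ.b ν).hom ≫ Rr Θ (T.gV ν v) ≫ Ψ.hom) ∧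
      ∀ e : T.E, 𝒢.L.map (homC (T.eE e)) = Rr Θ (T.gE e) ≫ Ψ.hom := by
  induction hT with
  | pt ν g =>
    refine ⟨RI Θ g⁻¹ ≪≫ (Θ.b ν).symm ≪≫ 𝒢.L.mapIso (ptIso ν 1 g), ?_, fun e => e.elim⟩
    rintro μ ⟨rfl⟩
    rw [homV_pt]
    show _ = (Θ.b ν).hom ≫ Rr Θ g ≫ Rr Θ g⁻¹ ≫ (Θ.b ν).inv ≫ 𝒢.L.map (ptHom ν 1 g)
    rw [Rr_mul_assoc, mul_inv_cancel, Rr_one, Category.id_comp, Iso.hom_inv_id_assoc]
  | addT T hT v ge gw h1 h2 ih =>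
    obtain ⟨Ψ, hV, hE⟩ := ih
    obtain ⟨j, hj, hjV, hjE⟩ := T.exists_incT v ge gw h1 h2
    have : IsIso (𝒢.L.map j) := Localization.inverts 𝒢.L (SpObj.rk 𝒢.sp).W j hj
    have hV' : ∀ (ν : 𝒢.sp.Vt) (w : T.V ν),
        𝒢.L.map (homV ((T.addT v ge gw h1 h2).eV (ν := ν) (Sum.inl w))) =
          (Θ.b ν).hom ≫ Rr Θ (T.gV ν w) ≫ (Ψ ≪≫ asIso (𝒢.L.map j)).hom := by
      intro ν w
      rw [← hjV, ← homV_comp, Functor.map_comp, hV]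
      simp only [Iso.trans_hom, asIso_hom, Category.assoc]
    have hnew : 𝒢.L.map (homC ((T.addT v ge gw h1 h2).eE (Sum.inr ()))) =
        Rr Θ ge ≫ (Ψ ≪≫ asIso (𝒢.L.map j)).hom :=
      edge_of_src Θ (T := T.addT v ge gw h1 h2) _ (Sum.inr ()) (hV' _ v)
    refine ⟨Ψ ≪≫ asIso (𝒢.L.map j), ?_, ?_⟩
    · rintro ν (w | ⟨⟨rfl⟩⟩)
      · exact hV' ν w
      · exact tgt_of_edge Θ (T := T.addT v ge gw h1 h2) _ (Sum.inr ()) hnew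
    · rintro (e | e)
      · rw [← hjE, ← homC_comp, Functor.map_comp, hE]
        simp only [Iso.trans_hom, asIso_hom, Category.assoc]
        rfl
      · exact hnew
  | addS T hT w ge gv h1 h2 ih =>
    obtain ⟨Ψ, hV, hE⟩ := ih
    obtain ⟨j, hj, hjV, hjE⟩ := T.exists_incS w ge gv h1 h2
    have : IsIso (𝒢.L.map j) := Localization.inverts 𝒢.L (SpObj.rk 𝒢.sp).W j hj
    have hV' : ∀ (ν : 𝒢.sp.Vt) (v : T.V ν),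
        𝒢.L.map (homV ((T.addS w ge gv h1 h2).eV (ν := ν) (Sum.inl v))) =
          (Θ.b ν).hom ≫ Rr Θ (T.gV ν v) ≫ (Ψ ≪≫ asIso (𝒢.L.map j)).hom := by
      intro ν v
      rw [← hjV, ← homV_comp, Functor.map_comp, hV]
      simp only [Iso.trans_hom, asIso_hom, Category.assoc]
    have hnew : 𝒢.L.map (homC ((T.addS w ge gv h1 h2).eE (Sum.inr ()))) =
        Rr Θ ge ≫ (Ψ ≪≫ asIso (𝒢.L.map j)).hom :=
      edge_of_tgt Θ (T := T.addS w ge gv h1 h2) _ (Sum.inr ()) (hV' _ w)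
    refine ⟨Ψ ≪≫ asIso (𝒢.L.map j), ?_, ?_⟩
    · rintro ν (v | ⟨⟨rfl⟩⟩)
      · exact hV' ν v
      · exact src_of_edge Θ (T := T.addS w ge gv h1 h2) _ (Sum.inr ()) hnew
    · rintro (e | e)
      · rw [← hjE, ← homC_comp, Functor.map_comp, hE]
        simp only [Iso.trans_hom, asIso_hom, Category.assoc]
        rfl
      · exact hnew

theorem tree_iso (Θ : 𝒢.Theta) {T : LG 𝒢} (hT : T.Tree) :
    ∃ Ψ : 𝒢.L.obj 𝒢.PC ≅ 𝒢.L.obj T.obj,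
      (∀ (ν : 𝒢.sp.Vt) (v : T.V ν), 𝒢.L.map (homV (T.eV v)) =
        (Θ.b ν).hom ≫ 𝒢.toMor (Θ.θ (MonoidAlgebra.single (T.gV ν v) 1)) ≫ Ψ.hom) ∧
      ∀ e : T.E, 𝒢.L.map (homC (T.eE e)) =
        𝒢.toMor (Θ.θ (MonoidAlgebra.single (T.gE e) 1)) ≫ Ψ.hom :=
  tree_iso_aux Θ hT

/-- all labels of `T` are labels of `T'` -/
private def Sb (T T' : LG 𝒢) : Prop :=
  (∀ e : T.E, ∃ e' : T'.E, T'.gE e' = T.gE e) ∧
    ∀ (ν : 𝒢.sp.Vt) (v : T.V ν), ∃ v' : T'.V ν, T'.gV ν v' = T.gV ν v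

private theorem Sb.refl (T : LG 𝒢) : Sb T T := ⟨fun e => ⟨e, rfl⟩, fun _ v => ⟨v, rfl⟩⟩

private theorem Sb.trans {T T' T'' : LG 𝒢} (h : Sb T T') (h' : Sb T' T'') : Sb T T'' := by
  refine ⟨fun e => ?_, fun ν v => ?_⟩
  · obtain ⟨e', he'⟩ := h.1 e
    obtain ⟨e'', he''⟩ := h'.1 e'
    exact ⟨e'', he''.trans he'⟩
  · obtain ⟨e', he'⟩ := h.2 ν v
    obtain ⟨e'', he''⟩ := h'.2 ν e'
    exact ⟨e'', he''.trans he'⟩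

/-- group elements by which one can move -/
private def KK (𝒢 : GData S R) (ν ν' : 𝒢.sp.Vt) (g : G) : Prop :=
  ∀ T : LG 𝒢, T.Tree → ∀ v : T.V ν, ∃ T' : LG 𝒢, T'.Tree ∧ Sb T T' ∧
    ∃ v' : T'.V ν', T'.gV ν' v' = g * T.gV ν v

private theorem KK.one (ν : 𝒢.sp.Vt) : KK 𝒢 ν ν 1 := fun T hT v =>
  ⟨T, hT, Sb.refl T, v, (one_mul _).symm⟩

private theorem KK.comp {ν ν' ν'' : 𝒢.sp.Vt} {g g' : G} (h : KK 𝒢 ν ν' g)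
    (h' : KK 𝒢 ν' ν'' g') : KK 𝒢 ν ν'' (g' * g) := by
  intro T hT v
  obtain ⟨T', hT', hs, v', hv'⟩ := h T hT v
  obtain ⟨T'', hT'', hs', v'', hv''⟩ := h' T' hT' v'
  exact ⟨T'', hT'', hs.trans hs', v'', by rw [hv'', hv', mul_assoc]⟩

private theorem KK.st {a d : G} (ha : a ∈ 𝒢.A 𝒢.sp.s) (hd : d ∈ 𝒢.A 𝒢.sp.t) :
    KK 𝒢 𝒢.sp.s 𝒢.sp.t (d * 𝒢.tt⁻¹ * a) := by
  intro T hT v
  refine ⟨T.addT v (a * T.gV _ v) (d * 𝒢.tt⁻¹ * a * T.gV _ v) ?_ ?_, LG.Tree.addT T hT v _ _ _ _,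
    ⟨fun e => ⟨Sum.inl e, rfl⟩, fun ν w => ⟨Sum.inl w, rfl⟩⟩, Sum.inr ⟨rfl⟩, rfl⟩
  · rw [mul_inv_cancel_right]
    exact ha
  · have h : 𝒢.tt⁻¹ * (a * T.gV _ v) * (d * 𝒢.tt⁻¹ * a * T.gV _ v)⁻¹ = d⁻¹ := by group
    rw [h]
    exact inv_mem hd

private theorem KK.ts {a d : G} (ha : a ∈ 𝒢.A 𝒢.sp.s) (hd : d ∈ 𝒢.A 𝒢.sp.t) :
    KK 𝒢 𝒢.sp.t 𝒢.sp.s (a * 𝒢.tt * d) := by
  intro T hT w
  refine ⟨T.addS w (𝒢.tt * d * T.gV _ w) (a * 𝒢.tt * d * T.gV _ w) ?_ ?_,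
    LG.Tree.addS T hT w _ _ _ _,
    ⟨fun e => ⟨Sum.inl e, rfl⟩, fun ν w => ⟨Sum.inl w, rfl⟩⟩, Sum.inr ⟨rfl⟩, rfl⟩
  · have h : 𝒢.tt * d * T.gV _ w * (a * 𝒢.tt * d * T.gV _ w)⁻¹ = a⁻¹ := by group
    rw [h]
    exact inv_mem ha
  · have h : 𝒢.tt⁻¹ * (𝒢.tt * d * T.gV _ w) * (T.gV _ w)⁻¹ = d := by group
    rw [h]
    exact hd

private theorem KK.gen (g : G) (hg : g ∈ ((𝒢.A 𝒢.sp.s : Set G) ∪ (𝒢.A 𝒢.sp.t : Set G)) ∪ {𝒢.tt}) :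
    KK 𝒢 𝒢.sp.s 𝒢.sp.s g ∧ KK 𝒢 𝒢.sp.s 𝒢.sp.s g⁻¹ := by
  have hA : ∀ a ∈ 𝒢.A 𝒢.sp.s, KK 𝒢 𝒢.sp.s 𝒢.sp.s a := by
    intro a ha
    have h := (KK.st (𝒢 := 𝒢) (one_mem _) (one_mem _)).comp (KK.ts (𝒢 := 𝒢) ha (one_mem _))
    have h1 : a * 𝒢.tt * 1 * (1 * 𝒢.tt⁻¹ * 1) = a := by group
    rw [h1] at h
    exact h
  have hB : ∀ d ∈ 𝒢.A 𝒢.sp.t, KK 𝒢 𝒢.sp.s 𝒢.sp.s d := by
    intro d hd
    by_cases hst : 𝒢.sp.s = 𝒢.sp.t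
    · have h := KK.st (𝒢 := 𝒢) (one_mem _) hd
      have h' := KK.ts (𝒢 := 𝒢) (one_mem _) (one_mem _)
      rw [← hst] at h h'
      have h'' := h'.comp h
      have h1 : d * 𝒢.tt⁻¹ * 1 * (1 * 𝒢.tt * 1) = d := by group
      rw [h1] at h''
      exact h''
    · have h := (KK.st (𝒢 := 𝒢) (one_mem _) (one_mem _)).comp (KK.ts (𝒢 := 𝒢) (one_mem _) hd)
      have h1 : 1 * 𝒢.tt * d * (1 * 𝒢.tt⁻¹ * 1) = d := by
        rw [𝒢.hst hst]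
        group
      rw [h1] at h
      exact h
  have hC : KK 𝒢 𝒢.sp.s 𝒢.sp.s 𝒢.tt ∧ KK 𝒢 𝒢.sp.s 𝒢.sp.s 𝒢.tt⁻¹ := by
    by_cases hst : 𝒢.sp.s = 𝒢.sp.t
    · have h := KK.st (𝒢 := 𝒢) (one_mem _) (one_mem _)
      have h' := KK.ts (𝒢 := 𝒢) (one_mem _) (one_mem _)
      rw [← hst] at h h'
      rw [one_mul, mul_one] at h h'
      exact ⟨h', h⟩
    · rw [𝒢.hst hst, inv_one]
      exact ⟨KK.one _, KK.one _⟩
  rcases hg with (hg | hg) | hg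
  · exact ⟨hA g hg, hA g⁻¹ (inv_mem (S := Subgroup G) hg)⟩
  · exact ⟨hB g hg, hB g⁻¹ (inv_mem (S := Subgroup G) hg)⟩
  · have h : g = 𝒢.tt := hg
    rw [h]
    exact hC

private theorem KK.all (g : G) : KK 𝒢 𝒢.sp.s 𝒢.sp.s g := by
  have h1 : g ∈ Subgroup.closure (((𝒢.A 𝒢.sp.s : Set G) ∪ (𝒢.A 𝒢.sp.t : Set G)) ∪ {𝒢.tt}) := by
    rw [𝒢.gen]
    exact Subgroup.mem_top g
  have h2 : KK 𝒢 𝒢.sp.s 𝒢.sp.s g ∧ KK 𝒢 𝒢.sp.s 𝒢.sp.s g⁻¹ := by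
    induction h1 using Subgroup.closure_induction with
    | mem x hx => exact KK.gen x hx
    | one => rw [inv_one]; exact ⟨KK.one _, KK.one _⟩
    | mul x y _ _ hx hy =>
      rw [mul_inv_rev]
      exact ⟨hy.1.comp hx.1, hx.2.comp hy.2⟩
    | inv x _ hx =>
      rw [inv_inv]
      exact ⟨hx.2, hx.1⟩
  exact h2.1

theorem exists_tree (F : Finset G) : ∃ T : LG 𝒢, T.Tree ∧ ∀ g ∈ F, ∃ e : T.E, T.gE e = g := by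
  classical
  have key : ∃ T : LG 𝒢, T.Tree ∧ (∃ v : T.V 𝒢.sp.s, T.gV _ v = 1) ∧
      ∀ g ∈ F, ∃ e : T.E, T.gE e = g := by
    induction F using Finset.induction_on with
    | empty =>
      exact ⟨LG.pt 𝒢 𝒢.sp.s 1, LG.Tree.pt _ _, ⟨⟨rfl⟩, rfl⟩, fun g hg =>
        absurd hg (Finset.notMem_empty g)⟩
    | insert g F _ ih =>
      obtain ⟨T, hT, ⟨v, hv⟩, hF⟩ := ih
      obtain ⟨T', hT', hs, v', hv'⟩ := KK.all g T hT v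
      rw [hv, mul_one] at hv'
      refine ⟨T'.addT v' g (𝒢.tt⁻¹ * g) ?_ ?_, LG.Tree.addT T' hT' v' _ _ _ _, ?_, ?_⟩
      · rw [hv', mul_inv_cancel]
        exact one_mem _
      · rw [mul_inv_cancel]
        exact one_mem _
      · obtain ⟨w, hw⟩ := hs.2 _ v
        exact ⟨Sum.inl w, hw.trans hv⟩
      · intro x hx
        rcases Finset.mem_insert.1 hx with rfl | hx
        · exact ⟨Sum.inr (), rfl⟩
        · obtain ⟨e, he⟩ := hF x hx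
          obtain ⟨e', he'⟩ := hs.1 e
          exact ⟨Sum.inl e', he'.trans he⟩
  obtain ⟨T, hT, -, hF⟩ := key
  exact ⟨T, hT, hF⟩

end GData

end Pool.Agent.HFT
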