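import Pool.Agent.HFT.RKa

/-! # HFT/RKb: the localized category (helper49)

PROOF. Let `L` be a localization functor for `W`, additive. `zero_of_map`: `L.map a = 0 = L.map 0` gives
`s ∈ W` with `a ≫ s = 0 ≫ s = 0` (`MorphismProperty.map_eq_iff_postcomp`).
`exists_post`: if `L.map f` is an isomorphism (`f : X ⟶ Y`), write its inverse `L.obj Y ⟶ L.obj X` as a left
fraction (`Localization.exists_leftFraction`): `g : Y ⟶ Z`, `s : X ⟶ Z`, `s ∈ W`,
`inv (L.map f) ≫ L.map s = L.map g`; so `L.map (f ≫ g) = L.map s`, and there is `t ∈ W` with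
`f ≫ g ≫ t = s ≫ t`, which is in `W`. Replace `g` by `g ≫ t`: `W (f ≫ g)`, and `L.map g` is an isomorphism as
`L.map (f ≫ g)` and `L.map f` are.
`isIso_iff`: if `W f` then `L.map f` is an isomorphism (`Localization.inverts`). Conversely let
`L.map f` be an isomorphism. (1) ranks: by `exists_post` twice there are `g : Y ⟶ Z`, `h : Z ⟶ Z'` with
`W (f ≫ g)`, `W (g ≫ h)`. `ρ X = ρ Z`, `ρ Y = ρ Z'`. `ρ (coker h) ≤ ρ (coker (g ≫ h)) = 0`
(`coker_comp_le`), so `ρ Y = ρ Z' ≤ ρ Z = ρ X` (`sub`). `ρ (coker g) ≤ ρ (coker (f ≫ g)) = 0`, so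
`ρ X = ρ Z ≤ ρ Y`. (2) Let `π : Y ⟶ coker f`; `f ≫ π = 0`, so `L.map f ≫ L.map π = 0`, `L.map π = 0`, and
`zero_of_map` gives `t : coker f ⟶ N` in `W` with `π ≫ t = 0`, so `t = 0`. `coker 0 ≅ N`, so `ρ N = 0` and
`ρ (coker f) = ρ N = 0`.
`map_ne_zero`: if `𝟙 (L.obj P) = 0` then `L.map (𝟙 P) = 0`, so some `t : P ⟶ N` in `W` is zero, `ρ N = ρ (coker t)
= 0`, `ρ P = ρ N = 0`.
`isIso_of_rank_one`: `x = (left fraction f : P ⟶ Z, s : P ⟶ Z, s ∈ W)`: `x ≫ L.map s = L.map f`; `ρ Z = 1`.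
`ρ (coker f) ≤ ρ Z = 1`. If it is `0` then `f ∈ W`, `L.map f` is an isomorphism, so `x` is. If it is `1` then
`π : Z ⟶ coker f` is in `W` (`epi_W`), `L.map f ≫ L.map π = 0` with `L.map π` an isomorphism, so
`L.map f = 0`, `x = 0`.
`divEnd`: `DivisionRing.ofIsUnitOrEqZero` (or by hand) on the ring `(End (L.obj P))ᵐᵒᵖ`; isomorphisms are
units. -/

set_option autoImplicit false

universe v u v' u'

open CategoryTheory CategoryTheory.Limits

namespace Pool.Agent.HFT

namespace RankFn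

variable {C : Type u} [Category.{v} C] [Preadditive C] [HasCokernels C]
    [HasBinaryBiproducts C] (r : RankFn C)
    {D : Type u'} [Category.{v'} D] [Preadditive D] (L : C ⥤ D) [L.IsLocalization r.W] [L.Additive]

theorem zero_of_map {X Y : C} {a : X ⟶ Y} (h : L.map a = 0) :
    ∃ (Z : C) (s : Y ⟶ Z), r.W s ∧ a ≫ s = 0 := by
  have h1 : L.map a = L.map 0 := by rw [h, Functor.map_zero]
  obtain ⟨Z, s, hs, h2⟩ := (MorphismProperty.map_eq_iff_postcomp L r.W a 0).1 h1
  exact ⟨Z, s, hs, by rw [h2, zero_comp]⟩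

theorem exists_post {X Y : C} (f : X ⟶ Y) [IsIso (L.map f)] :
    ∃ (Z : C) (g : Y ⟶ Z), r.W (f ≫ g) ∧ IsIso (L.map g) := by
  obtain ⟨φ, hφ⟩ := Localization.exists_leftFraction L r.W (inv (L.map f))
  have h1 : inv (L.map f) ≫ L.map φ.s = L.map φ.f := by
    rw [hφ]
    exact φ.map_comp_map_s L _
  have h2 : L.map (f ≫ φ.f) = L.map φ.s := by
    rw [Functor.map_comp, ← h1, IsIso.hom_inv_id_assoc]
  obtain ⟨Z, t, ht, h3⟩ := (MorphismProperty.map_eq_iff_postcomp L r.W _ _).1 h2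
  have hs : IsIso (L.map φ.s) := Localization.inverts L r.W _ φ.hs
  have ht' : IsIso (L.map t) := Localization.inverts L r.W _ ht
  refine ⟨Z, φ.f ≫ t, ?_, ?_⟩
  · rw [← Category.assoc, h3]
    exact MorphismProperty.comp_mem r.W _ _ φ.hs ht
  · rw [Functor.map_comp, ← h1]
    infer_instance

theorem isIso_iff {X Y : C} (f : X ⟶ Y) : IsIso (L.map f) ↔ r.W f := by
  constructor
  · intro hf
    obtain ⟨Z, g, h1, h2⟩ := exists_post r L f
    obtain ⟨Z', h, h3, -⟩ := exists_post r L g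
    rw [W_iff] at h1 h3
    have h4 := coker_comp_le r g h
    have h5 := r.sub h
    have h6 := coker_comp_le r f g
    have h7 := r.sub g
    have h8 : L.map (cokernel.π f) = 0 := by
      have e : L.map f ≫ L.map (cokernel.π f) = 0 := by
        rw [← Functor.map_comp, cokernel.condition, Functor.map_zero]
      have e2 : inv (L.map f) ≫ L.map f ≫ L.map (cokernel.π f) = 0 := by rw [e, comp_zero]
      rwa [IsIso.inv_hom_id_assoc] at e2
    obtain ⟨N, t, ht, h9⟩ := zero_of_map r L h8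
    have h10 : t = 0 := by
      rw [← cancel_epi (cokernel.π f), h9, comp_zero]
    rw [h10, W_iff] at ht
    have h11 := r.iso (cokernelZeroIsoTarget (X := cokernel f) (Y := N))
    exact ⟨by omega, by omega⟩
  · intro hf
    exact Localization.inverts L r.W f hf

theorem id_ne_zero {P : C} (hP : r.ρ P ≠ 0) : 𝟙 (L.obj P) ≠ 0 := by
  intro h
  have h1 : L.map (𝟙 P) = 0 := by rw [CategoryTheory.Functor.map_id, h]
  obtain ⟨N, t, ht, h2⟩ := zero_of_map r L h1
  rw [Category.id_comp] at h2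
  rw [h2, W_iff] at ht
  have h3 := r.iso (cokernelZeroIsoTarget (X := P) (Y := N))
  omega

theorem isIso_of_rank_one {P : C} (hP : r.ρ P = 1) (x : L.obj P ⟶ L.obj P) (hx : x ≠ 0) :
    IsIso x := by
  obtain ⟨φ, hφ⟩ := Localization.exists_leftFraction L r.W x
  have h1 : x ≫ L.map φ.s = L.map φ.f := by
    rw [hφ]
    exact φ.map_comp_map_s L _
  have hs : IsIso (L.map φ.s) := Localization.inverts L r.W _ φ.hs
  have h2 : x = L.map φ.f ≫ inv (L.map φ.s) := by
    rw [← h1, Category.assoc, IsIso.hom_inv_id, Category.comp_id]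
  have h3 := φ.hs
  rw [W_iff] at h3
  have h4 := r.quo φ.f
  have h5 : r.ρ (cokernel φ.f) = 0 := by
    by_contra hc
    have h6 : r.W (cokernel.π φ.f) := epi_W r _ (by omega)
    have h7 : IsIso (L.map (cokernel.π φ.f)) := Localization.inverts L r.W _ h6
    apply hx
    have e : L.map φ.f ≫ L.map (cokernel.π φ.f) = 0 := by
      rw [← Functor.map_comp, cokernel.condition, Functor.map_zero]
    have e2 : L.map φ.f = 0 := by
      rw [← cancel_mono (L.map (cokernel.π φ.f)), e, zero_comp]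
    rw [h2, e2, zero_comp]
  have h6 : r.W φ.f := ⟨h5, by omega⟩
  have h7 : IsIso (L.map φ.f) := Localization.inverts L r.W _ h6
  rw [h2]
  infer_instance

theorem isUnit_or_eq_zero {P : C} (hP : r.ρ P = 1) (x : (End (L.obj P))ᵐᵒᵖ) :
    IsUnit x ∨ x = 0 := by
  by_cases h : x.unop = 0
  · right
    exact MulOpposite.unop_injective h
  · left
    have h1 : IsIso x.unop := isIso_of_rank_one r L hP x.unop h
    have h2 : IsUnit x.unop := (isUnit_iff_isIso _).2 h1
    have h3 := h2.op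
    rwa [MulOpposite.op_unop] at h3

theorem nontrivial_end {P : C} (hP : r.ρ P = 1) : Nontrivial (End (L.obj P))ᵐᵒᵖ := by
  refine ⟨⟨1, 0, fun h => ?_⟩⟩
  have h1 := congrArg MulOpposite.unop h
  exact id_ne_zero r L (by omega) h1

end RankFn

end Pool.Agent.HFT
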