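import Pool.Agent.HFT.SpRho
import Pool.Agent.HFT.RKb

/-! # HFT/SpRank: the rank function on trees of vector spaces (helper49)

PROOF. `rho_of_surj`: for `a : X ⟶ Y` with surjective components `rho Y ≤ rho X` (`chi_comap`,
`rho_le_iff`, `le_rho`). `iso`: `rho_of_surj` for both directions (`iso_bijective`).
`rho_quo_le_iff`: `rho K.quo ≤ n` iff for all `K' ≥ K` (i.e. `K.v ν ≤ K'.v ν`, `K.c ≤ K'.c`)
`X.chi - K'.chi ≤ n`: subobjects of `K.quo` correspond to subobjects of `X` containing `K` (`comap` and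
`map` under `K.proj`, `chi_comap`; for `K' ≥ K`, `K' = comap proj (map proj K')`).
`sub`: `rho Y ≤ rho X + rho (coker a)`: `cokernel a ≅ (range a).quo`. For `K : SpSub Y`, by `chi_exact`
`Y.chi - K.chi = (X.chi - (comap a K).chi) + (Y.chi - (K ⊔ range a).chi)`; the first summand is
`≤ rho X`, the second one `≤ rho ((range a).quo)` by `rho_quo_le_iff`.
`quo`: `rho_of_surj` for `proj`. `add`: `X ⊞ Y ≅ X.prod Y`. `≤`: `sub` for the injection
`X ⟶ X.prod Y`, whose cokernel is a quotient isomorphic to `Y` (or: `rho ((range inl).quo) ≤ rho Y` by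
`rho_of_surj` for the composition `Y ⟶ X.prod Y ⟶ quo`, which has surjective components). `≥`: for
`K` in `X`, `K'` in `Y` attaining the ranks take `K.v ν × K'.v ν` (`Submodule.prod`), `cd` is the sum.
`zero`: a zero object has only zero spaces: `cd = 0`.
`W_iff_sub`: `rho (coker a) = 0` iff `rho ((range a).quo) ≤ 0`, then `rho_quo_le_iff`. -/

set_option autoImplicit false

universe u

open CategoryTheory CategoryTheory.Limits

namespace Pool.Agent.HFT

variable {𝒮 : SpData.{u}}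

namespace SpObj

theorem rho_of_surj {X Y : SpObj 𝒮} (a : X ⟶ Y) (hv : ∀ ν, Function.Surjective (SpObj.v a ν))
    (hc : Function.Surjective (SpObj.c a)) : Y.rho ≤ X.rho := by
  rw [rho_le_iff]
  intro K
  rw [← chi_comap a hv hc K]
  exact le_rho _

theorem rho_iso {X Y : SpObj 𝒮} (e : X ≅ Y) : X.rho = Y.rho := by
  have h1 := iso_bijective e
  have h2 := iso_bijective e.symm
  exact le_antisymm (rho_of_surj e.symm.hom (fun ν => (h2.1 ν).2) h2.2.2)
    (rho_of_surj e.hom (fun ν => (h1.1 ν).2) h1.2.2)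

private theorem proj_surj {X : SpObj 𝒮} (K : SpSub X) :
    (∀ ν, Function.Surjective (SpObj.v K.proj ν)) ∧ Function.Surjective (SpObj.c K.proj) :=
  ⟨fun ν => Submodule.mkQ_surjective _, Submodule.mkQ_surjective _⟩

private theorem comap_map_proj {X : SpObj 𝒮} (K K' : SpSub X) (hv : ∀ ν, K.v ν ≤ K'.v ν)
    (hc : K.c ≤ K'.c) : (K'.map K.proj).comap K.proj = K' := by
  apply SpSub.ext
  · funext ν
    show ((K'.v ν).map (K.v ν).mkQ).comap (K.v ν).mkQ = K'.v ν
    rw [Submodule.comap_map_mkQ]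
    exact sup_eq_right.2 (hv ν)
  · show (K'.c.map K.c.mkQ).comap K.c.mkQ = K'.c
    rw [Submodule.comap_map_mkQ]
    exact sup_eq_right.2 hc

theorem rho_quo_le_iff {X : SpObj 𝒮} (K : SpSub X) (n : ℕ) :
    K.quo.rho ≤ n ↔ ∀ K' : SpSub X, (∀ ν, K.v ν ≤ K'.v ν) → K.c ≤ K'.c → X.chi - K'.chi ≤ n := by
  rw [rho_le_iff]
  constructor
  · intro h K' hv hc
    have h1 := h (K'.map K.proj)
    rw [← chi_comap K.proj (proj_surj K).1 (proj_surj K).2, comap_map_proj K K' hv hc] at h1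
    exact h1
  · intro h K''
    rw [← chi_comap K.proj (proj_surj K).1 (proj_surj K).2]
    apply h
    · intro ν x hx
      show (K.v ν).mkQ x ∈ K''.v ν
      have h1 : (K.v ν).mkQ x = 0 := by
        rw [Submodule.mkQ_apply]
        exact (Submodule.Quotient.mk_eq_zero _).2 hx
      rw [h1]
      exact (K''.v ν).zero_mem
    · intro x hx
      show K.c.mkQ x ∈ K''.c
      have h1 : K.c.mkQ x = 0 := by
        rw [Submodule.mkQ_apply]
        exact (Submodule.Quotient.mk_eq_zero _).2 hx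
      rw [h1]
      exact K''.c.zero_mem

private theorem rho_cok {X Y : SpObj 𝒮} (a : X ⟶ Y) :
    (cokernel a).rho = (SpSub.range a).quo.rho := by
  obtain ⟨e⟩ := cokernelIsoQuo a
  exact rho_iso e

theorem rho_sub {X Y : SpObj 𝒮} (a : X ⟶ Y) : Y.rho ≤ X.rho + (cokernel a).rho := by
  rw [rho_cok, rho_le_iff]
  intro K
  rw [chi_exact a K]
  have h1 := le_rho (K.comap a)
  have h2 := (rho_quo_le_iff (SpSub.range a) (SpSub.range a).quo.rho).1 le_rfl (K ⊔ SpSub.range a)
    (fun ν => le_sup_right) le_sup_right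
  push_cast
  linarith

theorem rho_cok_le {X Y : SpObj 𝒮} (a : X ⟶ Y) : (cokernel a).rho ≤ Y.rho := by
  rw [rho_cok]
  exact rho_of_surj _ (proj_surj _).1 (proj_surj _).2

private def inl' (X Y : SpObj 𝒮) : X ⟶ X.prod Y :=
  mkHom (fun ν => LinearMap.inl _ _ _) (LinearMap.inl _ _ _)
    (fun x => by
      show (X.f x, (0 : Y.V 𝒮.s)) = (X.f x, Y.f 0)
      rw [map_zero])
    (fun x => by
      show (X.g x, (0 : Y.V 𝒮.t)) = (X.g x, Y.g 0)
      rw [map_zero])

private def inr' (X Y : SpObj 𝒮) : Y ⟶ X.prod Y :=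
  mkHom (fun ν => LinearMap.inr _ _ _) (LinearMap.inr _ _ _)
    (fun x => by
      show ((0 : X.V 𝒮.s), Y.f x) = (X.f 0, Y.f x)
      rw [map_zero])
    (fun x => by
      show ((0 : X.V 𝒮.t), Y.g x) = (X.g 0, Y.g x)
      rw [map_zero])

private theorem sub_top_aux {𝕜 E F : Type u} [DivisionRing 𝕜] [AddCommGroup E] [AddCommGroup F]
    [Module 𝕜 E] [Module 𝕜 F] (M : Submodule 𝕜 (E × F)) :
    M ⊔ LinearMap.range (LinearMap.inl 𝕜 E F) ⊔ LinearMap.range (LinearMap.inr 𝕜 E F) = ⊤ := by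
  rw [sup_assoc, LinearMap.sup_range_inl_inr, sup_top_eq]

private theorem chi_prod {X Y : SpObj 𝒮} (M : SpSub (X.prod Y)) :
    (X.prod Y).chi - M.chi = (X.chi - (M.comap (inl' X Y)).chi) +
      (Y.chi - ((M ⊔ SpSub.range (inl' X Y)).comap (inr' X Y)).chi) := by
  have h1 := chi_exact (inl' X Y) M
  have h2 := chi_exact (inr' X Y) (M ⊔ SpSub.range (inl' X Y))
  have h3 : M ⊔ SpSub.range (inl' X Y) ⊔ SpSub.range (inr' X Y) = ⊤ := by
    apply SpSub.ext
    · funext ν
      exact sub_top_aux (M.v ν)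
    · exact sub_top_aux M.c
  rw [h3, chi_top] at h2
  linarith

private def prodSub {X Y : SpObj 𝒮} (K : SpSub X) (K' : SpSub Y) : SpSub (X.prod Y) where
  v ν := (K.v ν).prod (K'.v ν)
  c := K.c.prod K'.c
  hf x hx := ⟨K.hf _ hx.1, K'.hf _ hx.2⟩
  hg x hx := ⟨K.hg _ hx.1, K'.hg _ hx.2⟩

private theorem cm1 {𝕜 E F : Type u} [DivisionRing 𝕜] [AddCommGroup E] [AddCommGroup F]
    [Module 𝕜 E] [Module 𝕜 F] (M : Submodule 𝕜 E) (N : Submodule 𝕜 F) :
    (M.prod N).comap (LinearMap.inl 𝕜 E F) = M := by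
  ext x
  simp

private theorem cm2 {𝕜 E F : Type u} [DivisionRing 𝕜] [AddCommGroup E] [AddCommGroup F]
    [Module 𝕜 E] [Module 𝕜 F] (M : Submodule 𝕜 E) (N : Submodule 𝕜 F) :
    (M.prod N ⊔ LinearMap.range (LinearMap.inl 𝕜 E F)).comap (LinearMap.inr 𝕜 E F) = N := by
  ext x
  rw [Submodule.mem_comap, Submodule.mem_sup]
  constructor
  · rintro ⟨y, hy, z, ⟨w, rfl⟩, h⟩
    have h1 := congrArg Prod.snd h
    simp only [LinearMap.inr_apply, LinearMap.inl_apply, Prod.snd_add, add_zero] at h1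
    rw [← h1]
    exact hy.2
  · intro hx
    exact ⟨(0, x), ⟨M.zero_mem, hx⟩, 0, Submodule.zero_mem _, by simp⟩

private theorem chi_prodSub {X Y : SpObj 𝒮} (K : SpSub X) (K' : SpSub Y) :
    (X.prod Y).chi - (prodSub K K').chi = (X.chi - K.chi) + (Y.chi - K'.chi) := by
  rw [chi_prod]
  have h1 : (prodSub K K').comap (inl' X Y) = K := by
    apply SpSub.ext
    · funext ν
      exact cm1 (K.v ν) (K'.v ν)
    · exact cm1 K.c K'.c
  have h2 : ((prodSub K K') ⊔ SpSub.range (inl' X Y)).comap (inr' X Y) = K' := by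
    apply SpSub.ext
    · funext ν
      exact cm2 (K.v ν) (K'.v ν)
    · exact cm2 K.c K'.c
  rw [h1, h2]

theorem rho_prod (X Y : SpObj 𝒮) : (X.prod Y).rho = X.rho + Y.rho := by
  apply le_antisymm
  · rw [rho_le_iff]
    intro K
    rw [chi_prod]
    have h1 := le_rho (K.comap (inl' X Y))
    have h2 := le_rho ((K ⊔ SpSub.range (inl' X Y)).comap (inr' X Y))
    push_cast
    linarith
  · obtain ⟨K, hK⟩ := exists_rho X
    obtain ⟨K', hK'⟩ := exists_rho Y
    have h1 := chi_prodSub K K'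
    have h2 := le_rho (prodSub K K')
    rw [h1, hK, hK'] at h2
    exact_mod_cast h2

theorem rho_biprod (X Y : SpObj 𝒮) : (X ⊞ Y).rho = X.rho + Y.rho := by
  obtain ⟨e⟩ := biprodIsoProd X Y
  rw [rho_iso e, rho_prod]

theorem rho_zero {X : SpObj 𝒮} (h : IsZero X) : X.rho = 0 := by
  rw [isZero_iff] at h
  apply Nat.le_zero.1
  rw [rho_le_iff]
  intro K
  have h1 : K = ⊤ := by
    apply SpSub.ext
    · funext ν
      apply le_antisymm
      · exact fun _ _ => trivial
      · intro x _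
        rw [h.1 ν x]
        exact Submodule.zero_mem _
    · apply le_antisymm
      · exact fun _ _ => trivial
      · intro x _
        rw [h.2 x]
        exact Submodule.zero_mem _
  rw [h1, chi_top]
  simp

/-- the rank function -/
noncomputable def rk (𝒮 : SpData.{u}) : RankFn (SpObj 𝒮) where
  ρ := SpObj.rho
  iso := rho_iso
  sub := rho_sub
  quo := rho_cok_le
  add := rho_biprod
  zero := rho_zero

theorem rk_W_iff {X Y : SpObj 𝒮} (a : X ⟶ Y) :
    (rk 𝒮).W a ↔ (∀ K : SpSub Y, (∀ ν, LinearMap.range (SpObj.v a ν) ≤ K.v ν) →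
      LinearMap.range (SpObj.c a) ≤ K.c → Y.chi ≤ K.chi) ∧ X.rho = Y.rho := by
  rw [RankFn.W_iff]
  refine and_congr ?_ Iff.rfl
  show (cokernel a).rho = 0 ↔ _
  rw [rho_cok, ← Nat.le_zero, rho_quo_le_iff]
  constructor
  · intro h K hv hc
    have h1 := h K hv hc
    push_cast at h1
    linarith
  · intro h K hv hc
    have h1 := h K hv hc
    push_cast
    linarith

end SpObj

end Pool.Agent.HFT
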