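import Pool.Agent.HFT.GHom
import Pool.Agent.HFT.SpRank

/-! # HFT/GW: attaching an edge (helper49)

PROOF. `rho_P`: for `P ν` (one dimensional at `ν`, zero elsewhere, no edges) `X.chi - K.chi` is
`1 - dim K_ν ≤ 1`, with equality for `K = ⊥` (`rho_le_iff`, `exists_rho`, `le_rho`, `chi_obj`).
`incT`: the inclusion `T.obj ⟶ (T.addT ..).obj` extends vectors by zero on the new vertex and the new edge
(`Sum.elim x 0`). Compatible with `f`, `g` (new edge has coefficient `0`; for an old vertex the sum over the old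
edges is the same, `Fintype.sum_sum_type`; for the new vertex no old edge ends there).
`incT_W` by `rk_W_iff`. Let `K : SpSub` of `T' := T.addT ..` contain the range of the inclusion. Then
`dim T'.V_t - dim K_t ≤ 1` and `= 0` on the other vertex types (all vectors supported on the old vertices
are in `K`); `dim T'.C - dim K_c ≤ 1`. If `K_c` is everything then the new edge vector is in `K_c`, so
its image `g (eE new) = cT new • eV new` is in `K_t`, `cT new ≠ 0` (it is the image of a group element), so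
`K_t` is everything and `T'.chi = K.chi`. Otherwise `dim T'.C - dim K_c = 1` and
`T'.chi - K.chi ≤ 1 - 1 = 0`. Ranks: `rho T' ≤ rho T` follows from the first part and `rho_sub`
(`rho (coker) = 0`); for `rho T ≤ rho T'` let `K : SpSub T.obj` attain `rho T` (`exists_rho`); its image `K'`
in `T'` (`SpSub.map`) has `K'.chi = K.chi` (`chi_map`, injective components) and
`T'.chi = T.chi` (`chi_obj`: one more vertex, one more edge), so `rho T ≤ rho T'` (`le_rho`).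
The same for `incS` (source instead of target).
`iS_W`, `iT_W`: `iS` is the composition of an isomorphism with `incT` for `T = pt s 1` and the new edge of
label `1` with new target of label `tt⁻¹`: as objects `edge` and `(pt s 1).addT ..` have the same vertices up to
the order; it may be easier to repeat the argument for `rk_W_iff` directly: `rho_PC : rho PC = 1`: for
`K : SpSub PC`, if `K_c` is everything then all of `PC` is in `K` (`oneS = f oneC`, `oneT = g oneC` span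
the vertex spaces) and `PC.chi - K.chi = 0`, otherwise `K_c = 0` and
`PC.chi - K.chi = 2 - dim K - 1 ≤ 1`, with equality for `K = ⊥`. `iS_W`: ranks are both `1`; if `K`
contains the range of `iS`, i.e. `oneS`, then either `K_c` is everything and `PC.chi = K.chi`, or `K_c = 0`
and `PC.chi - K.chi ≤ 1 - 1 = 0` as the codimension of `K` in the vertex spaces is at most `1`.
(`∑ ν` of the dimensions of the vertex spaces of `PC` is `2`.) -/

set_option autoImplicit false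

universe u

open CategoryTheory

namespace Pool.Agent.HFT

variable {G : Type u} [Group G] {S : ConradSys G} {R : Type u} [DivisionRing R]

private theorem card_plift (p : Prop) [Decidable p] [Fintype (PLift p)] :
    Fintype.card (PLift p) = if p then 1 else 0 := by
  split_ifs with h
  · rw [Fintype.card_eq_one_iff]
    exact ⟨⟨h⟩, fun y => rfl⟩
  · rw [Fintype.card_eq_zero_iff]
    exact ⟨fun y => h y.down⟩

private theorem sum_plift {V : Type} [Fintype V] [DecidableEq V] (ν : V) :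
    ∑ μ, ((if ν = μ then 1 else 0 : ℕ) : ℤ) = 1 := by
  rw [Finset.sum_eq_single ν]
  · rw [if_pos rfl]
    rfl
  · intro μ _ h
    rw [if_neg (fun h' => h h'.symm)]
    rfl
  · intro h
    exact absurd (Finset.mem_univ _) h

namespace LG

variable {𝒢 : GData S R}

private theorem chi_pt (ν : 𝒢.sp.Vt) (g : G) : (LG.pt 𝒢 ν g).obj.chi = 1 := by
  rw [chi_obj]
  have h1 : ∀ μ, (Fintype.card ((LG.pt 𝒢 ν g).V μ) : ℤ) = ((if ν = μ then 1 else 0 : ℕ) : ℤ) := by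
    intro μ
    congr 1
    exact card_plift (ν = μ)
  have h2 : Fintype.card (LG.pt 𝒢 ν g).E = 0 := Fintype.card_empty
  rw [Finset.sum_congr rfl fun μ _ => h1 μ, sum_plift, h2]
  rfl

private theorem chi_edge : (LG.edge 𝒢).obj.chi = 1 := by
  rw [chi_obj]
  have h1 : ∀ μ, (Fintype.card ((LG.edge 𝒢).V μ) : ℤ) =
      ((if 𝒢.sp.s = μ then 1 else 0 : ℕ) : ℤ) + ((if 𝒢.sp.t = μ then 1 else 0 : ℕ) : ℤ) := by
    intro μ
    have h : Fintype.card ((LG.edge 𝒢).V μ) =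
        (if 𝒢.sp.s = μ then 1 else 0) + (if 𝒢.sp.t = μ then 1 else 0) := by
      rw [← card_plift (𝒢.sp.s = μ), ← card_plift (𝒢.sp.t = μ)]
      exact Fintype.card_sum
    rw [h]
    push_cast
    rfl
  have h2 : Fintype.card (LG.edge 𝒢).E = 1 := Fintype.card_unit
  rw [Finset.sum_congr rfl fun μ _ => h1 μ, Finset.sum_add_distrib, sum_plift, sum_plift, h2]
  rfl

private theorem chi_addT (T : LG 𝒢) (v : T.V 𝒢.sp.s) (ge gw : G)
    (h1 : ge * (T.gV _ v)⁻¹ ∈ 𝒢.A 𝒢.sp.s) (h2 : 𝒢.tt⁻¹ * ge * gw⁻¹ ∈ 𝒢.A 𝒢.sp.t) :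
    (T.addT v ge gw h1 h2).obj.chi = T.obj.chi := by
  rw [chi_obj, chi_obj]
  have h3 : ∀ μ, (Fintype.card ((T.addT v ge gw h1 h2).V μ) : ℤ) =
      (Fintype.card (T.V μ) : ℤ) + ((if 𝒢.sp.t = μ then 1 else 0 : ℕ) : ℤ) := by
    intro μ
    have h : Fintype.card ((T.addT v ge gw h1 h2).V μ) =
        Fintype.card (T.V μ) + (if 𝒢.sp.t = μ then 1 else 0) := by
      rw [← card_plift (𝒢.sp.t = μ)]
      exact Fintype.card_sum
    rw [h]
    push_cast
    rfl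
  have h4 : Fintype.card (T.addT v ge gw h1 h2).E = Fintype.card T.E + 1 := by
    rw [← Fintype.card_unit]
    exact Fintype.card_sum
  rw [Finset.sum_congr rfl fun μ _ => h3 μ, Finset.sum_add_distrib, sum_plift, h4]
  push_cast
  ring

private theorem chi_addS (T : LG 𝒢) (w : T.V 𝒢.sp.t) (ge gv : G) (h1 : ge * gv⁻¹ ∈ 𝒢.A 𝒢.sp.s)
    (h2 : 𝒢.tt⁻¹ * ge * (T.gV _ w)⁻¹ ∈ 𝒢.A 𝒢.sp.t) :
    (T.addS w ge gv h1 h2).obj.chi = T.obj.chi := by
  rw [chi_obj, chi_obj]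
  have h3 : ∀ μ, (Fintype.card ((T.addS w ge gv h1 h2).V μ) : ℤ) =
      (Fintype.card (T.V μ) : ℤ) + ((if 𝒢.sp.s = μ then 1 else 0 : ℕ) : ℤ) := by
    intro μ
    have h : Fintype.card ((T.addS w ge gv h1 h2).V μ) =
        Fintype.card (T.V μ) + (if 𝒢.sp.s = μ then 1 else 0) := by
      rw [← card_plift (𝒢.sp.s = μ)]
      exact Fintype.card_sum
    rw [h]
    push_cast
    rfl
  have h4 : Fintype.card (T.addS w ge gv h1 h2).E = Fintype.card T.E + 1 := by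
    rw [← Fintype.card_unit]
    exact Fintype.card_sum
  rw [Finset.sum_congr rfl fun μ _ => h3 μ, Finset.sum_add_distrib, sum_plift, h4]
  push_cast
  ring

private theorem αV_ne (𝒢 : GData S R) (ν : 𝒢.sp.Vt) (a : 𝒢.A ν) : 𝒢.αV ν a ≠ 0 := by
  intro h
  have h1 : 𝒢.αV ν a * 𝒢.αV ν a⁻¹ = 1 := by rw [← map_mul, mul_inv_cancel, map_one]
  rw [h, zero_mul] at h1
  exact zero_ne_one h1

/-- a submodule containing all the basis vectors is everything -/
private theorem top_of_eV (T : LG 𝒢) {μ : 𝒢.sp.Vt} (K : Submodule (𝒢.sp.DV μ) (T.obj.V μ))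
    (h : ∀ v, T.eV v ∈ K) : K = ⊤ := by
  rw [eq_top_iff]
  intro x _
  rw [T.sum_eV x]
  exact Submodule.sum_mem _ fun v _ => K.smul_mem _ (h v)

private theorem top_of_eE (T : LG 𝒢) (K : Submodule 𝒢.sp.DC T.obj.C) (h : ∀ e, T.eE e ∈ K) :
    K = ⊤ := by
  rw [eq_top_iff]
  intro x _
  rw [T.sum_eE x]
  exact Submodule.sum_mem _ fun v _ => K.smul_mem _ (h v)

private theorem chi_nonneg {X : SpObj 𝒢.sp} (K : SpSub X) (h : Module.finrank 𝒢.sp.DC K.c = 0) :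
    0 ≤ K.chi := by
  unfold SpSub.chi
  rw [h]
  have : (0 : ℤ) ≤ ∑ ν, (Module.finrank (𝒢.sp.DV ν) (K.v ν) : ℤ) :=
    Finset.sum_nonneg fun ν _ => Int.natCast_nonneg _
  simpa using this

private theorem eq_top {X : SpObj 𝒢.sp} (K : SpSub X) (hv : ∀ ν, K.v ν = ⊤) (hc : K.c = ⊤) :
    K.chi = X.chi := by
  have h : K = ⊤ := by
    apply SpSub.ext
    · funext ν
      exact hv ν
    · exact hc
  rw [h, SpObj.chi_top]

end LG

namespace GData

variable (𝒢 : GData S R)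

theorem rho_P (ν : 𝒢.sp.Vt) : (𝒢.P ν).rho = 1 := by
  have hchi : (𝒢.P ν).chi = 1 := LG.chi_pt ν 1
  apply le_antisymm
  · rw [SpObj.rho_le_iff]
    intro K
    have h1 : Module.finrank 𝒢.sp.DC (𝒢.P ν).C = 0 := by
      have h2 : Module.finrank 𝒢.sp.DC (𝒢.P ν).C = Fintype.card Empty :=
        Module.finrank_fintype_fun_eq_card 𝒢.sp.DC (η := Empty)
      rw [h2]
      rfl
    have h2 : Module.finrank 𝒢.sp.DC K.c = 0 := by
      have h3 := Submodule.finrank_le K.c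
      omega
    have h3 := LG.chi_nonneg K h2
    rw [hchi]
    push_cast
    linarith
  · have h1 := SpObj.le_rho (⊥ : SpSub (𝒢.P ν))
    rw [SpObj.chi_bot, hchi, sub_zero] at h1
    exact_mod_cast h1

/-- either everything or no edges -/
private theorem PC_cases (K : SpSub 𝒢.PC) : K.chi = 𝒢.PC.chi ∨ Module.finrank 𝒢.sp.DC K.c = 0 := by
  by_cases h : K.c = ⊥
  · right
    rw [h]
    exact finrank_bot 𝒢.sp.DC 𝒢.PC.C
  · left
    obtain ⟨x, hx, hx0⟩ := (Submodule.ne_bot_iff _).1 h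
    have h1 : ∀ y : 𝒢.PC.C, y = (y : Unit → 𝒢.sp.DC) () • 𝒢.oneC := by
      intro y
      funext i
      show (y : Unit → 𝒢.sp.DC) i = (y : Unit → 𝒢.sp.DC) () * 1
      rw [mul_one]
      rfl
    have hne : (x : Unit → 𝒢.sp.DC) () ≠ 0 := by
      intro h2
      apply hx0
      rw [h1 x, h2, zero_smul]
    have hone : 𝒢.oneC ∈ K.c := by
      have h2 := K.c.smul_mem ((x : Unit → 𝒢.sp.DC) ())⁻¹ hx
      rw [h1 x, smul_smul] at h2
      have h3 : (((x : Unit → 𝒢.sp.DC) ()) • 𝒢.oneC : 𝒢.PC.C) = x := (h1 x).symm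
      rw [h3] at h2
      have h4 : ((x : Unit → 𝒢.sp.DC) ())⁻¹ * ((x : Unit → 𝒢.sp.DC) ()) = 1 := inv_mul_cancel₀ hne
      rw [h4, one_smul] at h2
      exact h2
    have hS : 𝒢.oneS ∈ K.v 𝒢.sp.s := by
      rw [← oneC_f]
      exact K.hf _ hone
    have hT : 𝒢.oneT ∈ K.v 𝒢.sp.t := by
      rw [← oneC_g]
      exact K.hg _ hone
    refine LG.eq_top K (fun μ => ?_) ?_
    · refine LG.top_of_eV (LG.edge 𝒢) (K.v μ) ?_
      rintro (⟨⟨rfl⟩⟩ | ⟨⟨rfl⟩⟩)
      · exact hS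
      · exact hT
    · refine LG.top_of_eE (LG.edge 𝒢) K.c fun e => ?_
      have h2 : (LG.edge 𝒢).eE e = 𝒢.oneC := by
        funext i
        exact Pi.single_eq_same (M := fun _ : Unit => 𝒢.sp.DC) e 1
      rw [h2]
      exact hone

theorem rho_PC : 𝒢.PC.rho = 1 := by
  have hchi : 𝒢.PC.chi = 1 := LG.chi_edge
  apply le_antisymm
  · rw [SpObj.rho_le_iff]
    intro K
    rcases 𝒢.PC_cases K with h | h
    · rw [h, sub_self]
      norm_num
    · have h3 := LG.chi_nonneg K h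
      rw [hchi]
      push_cast
      linarith
  · have h1 := SpObj.le_rho (⊥ : SpSub 𝒢.PC)
    rw [SpObj.chi_bot, hchi, sub_zero] at h1
    exact_mod_cast h1

private theorem one_le_chi {X : SpObj 𝒢.sp} (K : SpSub X) (h : Module.finrank 𝒢.sp.DC K.c = 0)
    {ν : 𝒢.sp.Vt} {x : X.V ν} (hx : x ∈ K.v ν) (hx0 : x ≠ 0) : 1 ≤ K.chi := by
  unfold SpSub.chi
  rw [h]
  have h1 : 1 ≤ Module.finrank (𝒢.sp.DV ν) (K.v ν) := by
    have : Nontrivial (K.v ν) := ⟨⟨x, hx⟩, 0, fun h0 => hx0 (congrArg Subtype.val h0)⟩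
    exact Module.finrank_pos
  have h2 : (Module.finrank (𝒢.sp.DV ν) (K.v ν) : ℤ) ≤
      ∑ ν, (Module.finrank (𝒢.sp.DV ν) (K.v ν) : ℤ) :=
    Finset.single_le_sum (f := fun ν => (Module.finrank (𝒢.sp.DV ν) (K.v ν) : ℤ))
      (fun _ _ => Int.natCast_nonneg _) (Finset.mem_univ ν)
  have h3 : (1 : ℤ) ≤ (Module.finrank (𝒢.sp.DV ν) (K.v ν) : ℤ) := by exact_mod_cast h1
  push_cast
  linarith

private theorem oneS_ne : 𝒢.oneS ≠ 0 := by
  intro h
  have h1 := congrFun (show (Pi.single (Sum.inl ⟨rfl⟩) 1 :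
    (PLift (𝒢.sp.s = 𝒢.sp.s) ⊕ PLift (𝒢.sp.t = 𝒢.sp.s)) → 𝒢.sp.DV 𝒢.sp.s) = 0 from h)
    (Sum.inl ⟨rfl⟩)
  rw [Pi.single_eq_same] at h1
  exact one_ne_zero h1

private theorem oneT_ne : 𝒢.oneT ≠ 0 := by
  intro h
  have h1 := congrFun (show (Pi.single (Sum.inr ⟨rfl⟩) 1 :
    (PLift (𝒢.sp.s = 𝒢.sp.t) ⊕ PLift (𝒢.sp.t = 𝒢.sp.t)) → 𝒢.sp.DV 𝒢.sp.t) = 0 from h)
    (Sum.inr ⟨rfl⟩)
  rw [Pi.single_eq_same] at h1
  exact one_ne_zero h1

theorem iS_W : (SpObj.rk 𝒢.sp).W 𝒢.iS := by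
  rw [SpObj.rk_W_iff]
  refine ⟨fun K hv _ => ?_, by rw [rho_P, rho_PC]⟩
  have hchi : 𝒢.PC.chi = 1 := LG.chi_edge
  rcases 𝒢.PC_cases K with h | h
  · rw [h]
  · rw [hchi]
    have hx : 𝒢.oneS ∈ K.v 𝒢.sp.s := by
      refine hv _ ⟨𝒢.oneV 𝒢.sp.s, ?_⟩
      exact homV_one 𝒢.oneS
    exact 𝒢.one_le_chi K h hx 𝒢.oneS_ne

theorem iT_W : (SpObj.rk 𝒢.sp).W 𝒢.iT := by
  rw [SpObj.rk_W_iff]
  refine ⟨fun K hv _ => ?_, by rw [rho_P, rho_PC]⟩
  have hchi : 𝒢.PC.chi = 1 := LG.chi_edge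
  rcases 𝒢.PC_cases K with h | h
  · rw [h]
  · rw [hchi]
    have hx : 𝒢.oneT ∈ K.v 𝒢.sp.t := by
      refine hv _ ⟨𝒢.oneV 𝒢.sp.t, ?_⟩
      exact homV_one 𝒢.oneT
    exact 𝒢.one_le_chi K h hx 𝒢.oneT_ne

end GData

namespace LG

variable {𝒢 : GData S R} (T : LG 𝒢)

/-- inclusions of labelled graphs -/
private structure Incl (T T' : LG 𝒢) where
  iV : ∀ μ, T.V μ → T'.V μ
  iE : T.E → T'.E
  injV : ∀ μ, Function.Injective (iV μ)
  injE : Function.Injective iE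
  hgV : ∀ μ v, T'.gV μ (iV μ v) = T.gV μ v
  hgE : ∀ e, T'.gE (iE e) = T.gE e
  hs : ∀ e, T'.sE (iE e) = iV _ (T.sE e)
  ht : ∀ e, T'.tE (iE e) = iV _ (T.tE e)

section

variable {T} {T' : LG 𝒢} (I : Incl T T')

private theorem Incl.cS_eq (e : T.E) : T'.cS (I.iE e) = T.cS e := by
  unfold LG.cS
  congr 1
  apply Subtype.ext
  show T'.gE (I.iE e) * (T'.gV _ (T'.sE (I.iE e)))⁻¹ = T.gE e * (T.gV _ (T.sE e))⁻¹
  rw [I.hgE, I.hs, I.hgV]

private theorem Incl.cT_eq (e : T.E) : T'.cT (I.iE e) = T.cT e := by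
  unfold LG.cT
  congr 1
  apply Subtype.ext
  show 𝒢.tt⁻¹ * T'.gE (I.iE e) * (T'.gV _ (T'.tE (I.iE e)))⁻¹ =
    𝒢.tt⁻¹ * T.gE e * (T.gV _ (T.tE e))⁻¹
  rw [I.hgE, I.ht, I.hgV]

/-- extension by zero -/
private noncomputable def Incl.ev (μ : 𝒢.sp.Vt) : T.obj.V μ →ₗ[𝒢.sp.DV μ] T'.obj.V μ :=
  (Fintype.linearCombination (𝒢.sp.DV μ) (fun v => T'.eV (I.iV μ v)) :
    (T.V μ → 𝒢.sp.DV μ) →ₗ[𝒢.sp.DV μ] T'.obj.V μ)

private noncomputable def Incl.ec : T.obj.C →ₗ[𝒢.sp.DC] T'.obj.C :=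
  (Fintype.linearCombination 𝒢.sp.DC (fun e => T'.eE (I.iE e)) :
    (T.E → 𝒢.sp.DC) →ₗ[𝒢.sp.DC] T'.obj.C)

private theorem Incl.ev_apply (μ : 𝒢.sp.Vt) (x : T.V μ → 𝒢.sp.DV μ) :
    I.ev μ x = ∑ v, x v • T'.eV (I.iV μ v) := rfl

private theorem Incl.ec_apply (x : T.E → 𝒢.sp.DC) : I.ec x = ∑ e, x e • T'.eE (I.iE e) := rfl

private theorem Incl.ev_eV {μ : 𝒢.sp.Vt} (v : T.V μ) : I.ev μ (T.eV v) = T'.eV (I.iV μ v) := by
  have h : I.ev μ (T.eV v) = (1 : 𝒢.sp.DV μ) • T'.eV (I.iV μ v) :=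
    Fintype.linearCombination_apply_single (𝒢.sp.DV μ) (v := fun v => T'.eV (I.iV μ v)) v 1
  rw [h, one_smul]

private theorem Incl.ec_eE (e : T.E) : I.ec (T.eE e) = T'.eE (I.iE e) := by
  have h : I.ec (T.eE e) = (1 : 𝒢.sp.DC) • T'.eE (I.iE e) :=
    Fintype.linearCombination_apply_single 𝒢.sp.DC (v := fun e => T'.eE (I.iE e)) e 1
  rw [h, one_smul]

private theorem Incl.ev_val (μ : 𝒢.sp.Vt) (x : T.V μ → 𝒢.sp.DV μ) (v : T.V μ) :
    (I.ev μ x : T'.V μ → 𝒢.sp.DV μ) (I.iV μ v) = x v := by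
  have h1 : (I.ev μ x : T'.V μ → 𝒢.sp.DV μ) (I.iV μ v) =
      ∑ v', x v' * (Pi.single (I.iV μ v') 1 : T'.V μ → 𝒢.sp.DV μ) (I.iV μ v) :=
    Finset.sum_apply (M := fun _ : T'.V μ => 𝒢.sp.DV μ) (I.iV μ v) Finset.univ
      (fun v' => x v' • (Pi.single (I.iV μ v') 1 : T'.V μ → 𝒢.sp.DV μ))
  rw [h1, Finset.sum_eq_single v]
  · rw [Pi.single_eq_same, mul_one]
  · intro v' _ hv'
    rw [Pi.single_eq_of_ne (fun h => hv' (I.injV μ h.symm)), mul_zero]
  · intro h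
    exact absurd (Finset.mem_univ _) h

private theorem Incl.ec_val (x : T.E → 𝒢.sp.DC) (e : T.E) :
    (I.ec x : T'.E → 𝒢.sp.DC) (I.iE e) = x e := by
  have h1 : (I.ec x : T'.E → 𝒢.sp.DC) (I.iE e) =
      ∑ e', x e' * (Pi.single (I.iE e') 1 : T'.E → 𝒢.sp.DC) (I.iE e) :=
    Finset.sum_apply (M := fun _ : T'.E => 𝒢.sp.DC) (I.iE e) Finset.univ
      (fun e' => x e' • (Pi.single (I.iE e') 1 : T'.E → 𝒢.sp.DC))
  rw [h1, Finset.sum_eq_single e]
  · rw [Pi.single_eq_same, mul_one]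
  · intro v' _ hv'
    rw [Pi.single_eq_of_ne (fun h => hv' (I.injE h.symm)), mul_zero]
  · intro h
    exact absurd (Finset.mem_univ _) h

private theorem Incl.ev_inj (μ : 𝒢.sp.Vt) : Function.Injective (I.ev μ) := by
  intro x y h
  funext v
  have h1 := I.ev_val μ x v
  have h2 := I.ev_val μ y v
  rw [← h1, ← h2, h]

private theorem Incl.ec_inj : Function.Injective I.ec := by
  intro x y h
  funext v
  have h1 := I.ec_val x v
  have h2 := I.ec_val y v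
  rw [← h1, ← h2, h]

private theorem Incl.hf (x : T.obj.C) : I.ev 𝒢.sp.s (T.obj.f x) = T'.obj.f (I.ec x) := by
  have h1 : T.obj.f x = ∑ e, 𝒢.sp.σ ((x : T.E → 𝒢.sp.DC) e) • T.cS e • T.eV (T.sE e) := by
    conv_lhs => rw [T.sum_eE x]
    rw [map_sum]
    refine Finset.sum_congr rfl fun e _ => ?_
    rw [LinearMap.map_smulₛₗ, f_eE]
  have h2 : T'.obj.f (I.ec x) =
      ∑ e, 𝒢.sp.σ ((x : T.E → 𝒢.sp.DC) e) • T.cS e • T'.eV (I.iV _ (T.sE e)) := by
    rw [I.ec_apply x, map_sum]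
    refine Finset.sum_congr rfl fun e _ => ?_
    rw [LinearMap.map_smulₛₗ, f_eE, I.cS_eq, I.hs]
  rw [h1, h2, map_sum]
  refine Finset.sum_congr rfl fun e _ => ?_
  rw [map_smul, map_smul, I.ev_eV]

private theorem Incl.hg (x : T.obj.C) : I.ev 𝒢.sp.t (T.obj.g x) = T'.obj.g (I.ec x) := by
  have h1 : T.obj.g x = ∑ e, 𝒢.sp.τ ((x : T.E → 𝒢.sp.DC) e) • T.cT e • T.eV (T.tE e) := by
    conv_lhs => rw [T.sum_eE x]
    rw [map_sum]
    refine Finset.sum_congr rfl fun e _ => ?_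
    rw [LinearMap.map_smulₛₗ, g_eE]
  have h2 : T'.obj.g (I.ec x) =
      ∑ e, 𝒢.sp.τ ((x : T.E → 𝒢.sp.DC) e) • T.cT e • T'.eV (I.iV _ (T.tE e)) := by
    rw [I.ec_apply x, map_sum]
    refine Finset.sum_congr rfl fun e _ => ?_
    rw [LinearMap.map_smulₛₗ, g_eE, I.cT_eq, I.ht]
  rw [h1, h2, map_sum]
  refine Finset.sum_congr rfl fun e _ => ?_
  rw [map_smul, map_smul, I.ev_eV]

private theorem Incl.main (hchi : T'.obj.chi = T.obj.chi)
    (hE : Fintype.card T'.E = Fintype.card T.E + 1)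
    (hfull : ∀ K : SpSub T'.obj, (∀ μ v, T'.eV (I.iV μ v) ∈ K.v μ) → K.c = ⊤ →
      ∀ μ, K.v μ = ⊤) :
    ∃ j : T.obj ⟶ T'.obj, (SpObj.rk 𝒢.sp).W j ∧
      (∀ (ν : 𝒢.sp.Vt) (w : T.V ν), SpObj.v j ν (T.eV w) = T'.eV (I.iV ν w)) ∧
      (∀ e : T.E, SpObj.c j (T.eE e) = T'.eE (I.iE e)) := by
  refine ⟨SpObj.mkHom (fun μ => I.ev μ) I.ec I.hf I.hg, ?_, fun ν w => I.ev_eV w,
    fun e => I.ec_eE e⟩
  set j : T.obj ⟶ T'.obj := SpObj.mkHom (fun μ => I.ev μ) I.ec I.hf I.hg with hj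
  have hjv : ∀ ν, SpObj.v j ν = I.ev ν := fun ν => rfl
  have hjc : SpObj.c j = I.ec := rfl
  have key : ∀ K : SpSub T'.obj, (∀ ν, LinearMap.range (SpObj.v j ν) ≤ K.v ν) →
      LinearMap.range (SpObj.c j) ≤ K.c → T'.obj.chi ≤ K.chi := by
    intro K hv hc
    by_cases hK : K.c = ⊤
    · refine le_of_eq (eq_top K (hfull K (fun μ v => hv μ ⟨T.eV v, I.ev_eV v⟩) hK) hK).symm
    · have h1 : Module.finrank 𝒢.sp.DC K.c < Module.finrank 𝒢.sp.DC T'.obj.C :=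
        Submodule.finrank_lt hK
      have h2 : Module.finrank 𝒢.sp.DC T'.obj.C = Fintype.card T'.E :=
        Module.finrank_fintype_fun_eq_card 𝒢.sp.DC (η := T'.E)
      have h3 : ∀ ν, (Fintype.card (T.V ν) : ℤ) ≤ (Module.finrank (𝒢.sp.DV ν) (K.v ν) : ℤ) := by
        intro ν
        have h4 : Module.finrank (𝒢.sp.DV ν) (LinearMap.range (SpObj.v j ν)) =
            Module.finrank (𝒢.sp.DV ν) (T.obj.V ν) :=
          LinearMap.finrank_range_of_inj (I.ev_inj ν)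
        have h5 : Module.finrank (𝒢.sp.DV ν) (T.obj.V ν) = Fintype.card (T.V ν) :=
          Module.finrank_fintype_fun_eq_card (𝒢.sp.DV ν) (η := T.V ν)
        have h6 := Submodule.finrank_mono (hv ν)
        rw [h4, h5] at h6
        exact_mod_cast h6
      rw [hchi, chi_obj]
      unfold SpSub.chi
      have h7 := Finset.sum_le_sum fun ν (_ : ν ∈ (Finset.univ : Finset 𝒢.sp.Vt)) => h3 ν
      have h8 : (Module.finrank 𝒢.sp.DC K.c : ℤ) ≤ Fintype.card T.E := by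
        have : Module.finrank 𝒢.sp.DC K.c ≤ Fintype.card T.E := by omega
        exact_mod_cast this
      linarith
  rw [SpObj.rk_W_iff]
  refine ⟨key, le_antisymm ?_ ?_⟩
  · obtain ⟨K, hK⟩ := SpObj.exists_rho T.obj
    have h1 := SpObj.le_rho (K.map j)
    rw [SpObj.chi_map j I.ev_inj I.ec_inj K, hchi, hK] at h1
    exact_mod_cast h1
  · rw [SpObj.rho_le_iff]
    intro K
    rw [SpObj.chi_exact j K]
    have h1 := SpObj.le_rho (K.comap j)
    have h2 := key (K ⊔ SpSub.range j) (fun ν => le_sup_right) le_sup_right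
    linarith

end

/-- there is an inclusion of `T` in `T.addT ..` compatible with the basis vectors, and it is
inverted -/
theorem exists_incT (v : T.V 𝒢.sp.s) (ge gw : G) (h1 : ge * (T.gV _ v)⁻¹ ∈ 𝒢.A 𝒢.sp.s)
    (h2 : 𝒢.tt⁻¹ * ge * gw⁻¹ ∈ 𝒢.A 𝒢.sp.t) :
    ∃ j : T.obj ⟶ (T.addT v ge gw h1 h2).obj, (SpObj.rk 𝒢.sp).W j ∧
      (∀ (ν : 𝒢.sp.Vt) (w : T.V ν), SpObj.v j ν (T.eV w) = (T.addT v ge gw h1 h2).eV (Sum.inl w)) ∧
      (∀ e : T.E, SpObj.c j (T.eE e) = (T.addT v ge gw h1 h2).eE (Sum.inl e)) := by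
  set T' := T.addT v ge gw h1 h2 with hT'
  let I : Incl T T' :=
    { iV := fun μ w => Sum.inl w
      iE := Sum.inl
      injV := fun μ => Sum.inl_injective
      injE := Sum.inl_injective
      hgV := fun μ v => rfl
      hgE := fun e => rfl
      hs := fun e => rfl
      ht := fun e => rfl }
  refine I.main (chi_addT T v ge gw h1 h2) ?_ ?_
  · rw [← Fintype.card_unit]
    exact Fintype.card_sum
  · intro K hK hc
    have h3 : T'.eE (Sum.inr ()) ∈ K.c := by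
      rw [hc]
      exact Submodule.mem_top
    have h4 := K.hg _ h3
    rw [T'.g_eE] at h4
    have h5 : T'.eV (T'.tE (Sum.inr ())) ∈ K.v 𝒢.sp.t := by
      have h6 := (K.v 𝒢.sp.t).smul_mem (T'.cT (Sum.inr ()))⁻¹ h4
      rw [smul_smul, inv_mul_cancel₀ (αV_ne 𝒢 _ _), one_smul] at h6
      exact h6
    intro μ
    refine top_of_eV T' (K.v μ) ?_
    rintro (w | ⟨⟨rfl⟩⟩)
    · exact hK μ w
    · exact h5

theorem exists_incS (w : T.V 𝒢.sp.t) (ge gv : G) (h1 : ge * gv⁻¹ ∈ 𝒢.A 𝒢.sp.s)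
    (h2 : 𝒢.tt⁻¹ * ge * (T.gV _ w)⁻¹ ∈ 𝒢.A 𝒢.sp.t) :
    ∃ j : T.obj ⟶ (T.addS w ge gv h1 h2).obj, (SpObj.rk 𝒢.sp).W j ∧
      (∀ (ν : 𝒢.sp.Vt) (v : T.V ν), SpObj.v j ν (T.eV v) = (T.addS w ge gv h1 h2).eV (Sum.inl v)) ∧
      (∀ e : T.E, SpObj.c j (T.eE e) = (T.addS w ge gv h1 h2).eE (Sum.inl e)) := by
  set T' := T.addS w ge gv h1 h2 with hT'
  let I : Incl T T' :=
    { iV := fun μ w => Sum.inl w
      iE := Sum.inl
      injV := fun μ => Sum.inl_injective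
      injE := Sum.inl_injective
      hgV := fun μ v => rfl
      hgE := fun e => rfl
      hs := fun e => rfl
      ht := fun e => rfl }
  refine I.main (chi_addS T w ge gv h1 h2) ?_ ?_
  · rw [← Fintype.card_unit]
    exact Fintype.card_sum
  · intro K hK hc
    have h3 : T'.eE (Sum.inr ()) ∈ K.c := by
      rw [hc]
      exact Submodule.mem_top
    have h4 := K.hf _ h3
    rw [T'.f_eE] at h4
    have h5 : T'.eV (T'.sE (Sum.inr ())) ∈ K.v 𝒢.sp.s := by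
      have h6 := (K.v 𝒢.sp.s).smul_mem (T'.cS (Sum.inr ()))⁻¹ h4
      rw [smul_smul, inv_mul_cancel₀ (αV_ne 𝒢 _ _), one_smul] at h6
      exact h6
    intro μ
    refine top_of_eV T' (K.v μ) ?_
    rintro (v | ⟨⟨rfl⟩⟩)
    · exact hK μ v
    · exact h5

/-- Euler characteristic of a tree -/
theorem Tree.chi_eq {T : LG 𝒢} (hT : Tree T) : T.obj.chi = 1 := by
  induction hT with
  | pt ν g => exact chi_pt ν g
  | addT T hT v ge gw h1 h2 ih => rw [chi_addT, ih]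
  | addS T hT w ge gv h1 h2 ih => rw [chi_addS, ih]

end LG

end Pool.Agent.HFT
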