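import Pool.Agent.HFT.Basic

/-! # HFT/HFa: two finiteness lemmas (helper49)

PROOF. `closure_finite`: the set of the `x` with the property contains `T` and `U` (take `F = {x}`) and is
closed under the operations (union of the finite sets, `Subfield.closure_mono`);
`Subfield.closure_induction`.
`exists_int_sep`: let `M` be a finitely generated additive subgroup of `ℝ` (as a `ℤ`-module it is
finite and torsion free, hence free): take a basis `e_1, …, e_m`. For a nonzero vector
`v = ∑ v_i e_i` the polynomial `∑ v_i X ^ i` (over `ℤ`, exponents `1..m` or `0..m-1`) is nonzero, so has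
finitely many roots; choose a natural number `B` which is not a root of any of the finitely many
polynomials belonging to the elements of `F`; `v ↦ ∑ v_i B ^ i` is the wanted homomorphism.
`sep_char`: let `M` be the additive subgroup of `ℝ` that is the image of `τ` (finitely generated as
`H` is), `F` the set of the differences `τ (a l) - τ (a l')`, `l ≠ l'` (nonzero). With `g : M →+ ℤ` from
`exists_int_sep` put `f₀ = g ∘ τ : H → ℤ`. As `n ≥ 2`, `f₀ (a 0) ≠ f₀ (a 1)`, so `f₀ ≠ 0` and its image is
`d ℤ` with `d ≥ 1` (`Int.subgroup_cyclic` or `AddSubgroup` of `ℤ` are `zmultiples`); divide by `d`. -/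

set_option autoImplicit false

universe u w

namespace Pool.Agent.HFT

theorem closure_finite {D : Type w} [DivisionRing D] {T U : Set D} {x : D}
    (hx : x ∈ Subfield.closure (T ∪ U)) :
    ∃ F : Finset D, (F : Set D) ⊆ U ∧ x ∈ Subfield.closure (T ∪ (F : Set D)) := by
  classical
  induction hx using Subfield.closure_induction with
  | mem x hx =>
    rcases hx with hx | hx
    · exact ⟨∅, by simp, Subfield.subset_closure (Or.inl hx)⟩
    · exact ⟨{x}, by simpa using hx, Subfield.subset_closure (Or.inr (by simp))⟩
  | one => exact ⟨∅, by simp, one_mem _⟩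
  | add x y _ _ hx hy =>
    obtain ⟨F, hF, hx⟩ := hx
    obtain ⟨F', hF', hy⟩ := hy
    refine ⟨F ∪ F', ?_, ?_⟩
    · rw [Finset.coe_union]; exact Set.union_subset hF hF'
    · apply add_mem
      · refine Subfield.closure_mono ?_ hx
        rw [Finset.coe_union]
        exact Set.union_subset_union_right _ Set.subset_union_left
      · refine Subfield.closure_mono ?_ hy
        rw [Finset.coe_union]
        exact Set.union_subset_union_right _ Set.subset_union_right
  | neg x _ hx =>
    obtain ⟨F, hF, hx⟩ := hx
    exact ⟨F, hF, neg_mem hx⟩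
  | inv x _ hx =>
    obtain ⟨F, hF, hx⟩ := hx
    exact ⟨F, hF, inv_mem hx⟩
  | mul x y _ _ hx hy =>
    obtain ⟨F, hF, hx⟩ := hx
    obtain ⟨F', hF', hy⟩ := hy
    refine ⟨F ∪ F', ?_, ?_⟩
    · rw [Finset.coe_union]; exact Set.union_subset hF hF'
    · apply mul_mem
      · refine Subfield.closure_mono ?_ hx
        rw [Finset.coe_union]
        exact Set.union_subset_union_right _ Set.subset_union_left
      · refine Subfield.closure_mono ?_ hy
        rw [Finset.coe_union]
        exact Set.union_subset_union_right _ Set.subset_union_right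

open Polynomial in
theorem exists_int_sep (M : AddSubgroup ℝ) (hM : M.FG) (F : Finset M) (hF : ∀ x ∈ F, x ≠ 0) :
    ∃ g : M →+ ℤ, ∀ x ∈ F, g x ≠ 0 := by
  classical
  have h1 : AddGroup.FG M := (AddGroup.fg_iff_addSubgroup_fg M).mpr hM
  have h2 : Module.Finite ℤ M := Module.Finite.iff_addGroup_fg.mpr h1
  have h3 : Module.Free ℤ M := inferInstance
  let b := Module.Free.chooseBasis ℤ M
  let n := Fintype.card (Module.Free.ChooseBasisIndex ℤ M)
  let e : Module.Free.ChooseBasisIndex ℤ M ≃ Fin n := Fintype.equivFin _
  let c : Module.Basis (Fin n) ℤ M := b.reindex e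
  let p : M → ℤ[X] := fun x => ∑ i : Fin n, C (c.repr x i) * X ^ (i : ℕ)
  have hcoef : ∀ x (i : Fin n), (p x).coeff (i : ℕ) = c.repr x i := by
    intro x i
    simp only [p, finsetSum_coeff, coeff_C_mul, coeff_X_pow]
    rw [Finset.sum_eq_single i]
    · simp
    · intro j _ hji
      have : ¬ ((i : ℕ) = (j : ℕ)) := fun h => hji (Fin.ext h.symm)
      simp [this]
    · intro h
      exact absurd (Finset.mem_univ i) h
  have hp : ∀ x, x ≠ 0 → p x ≠ 0 := by
    intro x hx h
    apply hx
    rw [← c.repr.map_eq_zero_iff]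
    ext i
    rw [← hcoef x i, h, coeff_zero]
    rfl
  have hP : (∏ x ∈ F, p x) ≠ 0 := Finset.prod_ne_zero_iff.mpr fun x hx => hp x (hF x hx)
  obtain ⟨B, hB⟩ : ∃ B : ℕ, ((∏ x ∈ F, p x).eval (B : ℤ)) ≠ 0 := by
    by_contra hcon
    push Not at hcon
    apply hP
    apply Polynomial.eq_zero_of_infinite_isRoot
    apply Set.Infinite.mono (s := Set.range (fun B : ℕ => (B : ℤ)))
    · rintro _ ⟨B, rfl⟩
      exact hcon B
    · exact Set.infinite_range_of_injective Nat.cast_injective
  let g : M →+ ℤ :=
    { toFun := fun x => ∑ i : Fin n, c.repr x i * (B : ℤ) ^ (i : ℕ)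
      map_zero' := by simp
      map_add' := by
        intro x y
        rw [← Finset.sum_add_distrib]
        refine Finset.sum_congr rfl fun i _ => ?_
        rw [map_add, Finsupp.add_apply, add_mul] }
  refine ⟨g, fun x hx => ?_⟩
  have hg : g x = (p x).eval (B : ℤ) := by
    simp only [p, eval_finsetSum, eval_mul, eval_C, eval_pow, eval_X]
    rfl
  rw [hg]
  rw [eval_prod, Finset.prod_ne_zero_iff] at hB
  exact hB x hx

theorem sep_char {H : Type u} [Group H] (hfg : Group.FG H) (τ : H →* Multiplicative ℝ) {n : ℕ}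
    (hn : 2 ≤ n) (a : Fin n → H) (ha : Function.Injective (fun l => τ (a l))) :
    ∃ f : H →* Multiplicative ℤ, Function.Surjective f ∧ (∀ b, τ b = 1 → f b = 1) ∧
      Function.Injective (fun l => f (a l)) := by
  classical
  let T : Additive H →+ ℝ := MonoidHom.toAdditiveLeft τ
  have hT : ∀ x : H, T (Additive.ofMul x) = Multiplicative.toAdd (τ x) := fun x => rfl
  let M : AddSubgroup ℝ := T.range
  have hM : M.FG := by
    have h1 : AddGroup.FG (Additive H) := inferInstance
    exact (AddGroup.fg_iff_addSubgroup_fg M).mp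
      (AddGroup.fg_of_surjective (f := T.rangeRestrict) T.rangeRestrict_surjective)
  let v : Fin n → M := fun l => T.rangeRestrict (Additive.ofMul (a l))
  have hv : Function.Injective v := by
    intro l l' h
    apply ha
    have h1 : T (Additive.ofMul (a l)) = T (Additive.ofMul (a l')) := congrArg Subtype.val h
    rw [hT, hT] at h1
    exact Multiplicative.toAdd.injective h1
  let F : Finset M := ((Finset.univ : Finset (Fin n × Fin n)).filter
    (fun q => q.1 ≠ q.2)).image (fun q => v q.1 - v q.2)
  obtain ⟨g, hg⟩ := exists_int_sep M hM F (by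
    intro x hx
    simp only [F, Finset.mem_image, Finset.mem_filter, Finset.mem_univ, true_and] at hx
    obtain ⟨q, hq, rfl⟩ := hx
    intro h
    exact hq (hv (sub_eq_zero.mp h)))
  let f0 : Additive H →+ ℤ := g.comp T.rangeRestrict
  have hf0 : ∀ l l', l ≠ l' → f0 (Additive.ofMul (a l)) ≠ f0 (Additive.ofMul (a l')) := by
    intro l l' hll h
    have h1 : v l - v l' ∈ F := by
      simp only [F, Finset.mem_image, Finset.mem_filter, Finset.mem_univ, true_and]
      exact ⟨(l, l'), hll, rfl⟩
    apply hg _ h1
    rw [map_sub]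
    have h2 : g (v l) = f0 (Additive.ofMul (a l)) := rfl
    have h3 : g (v l') = f0 (Additive.ofMul (a l')) := rfl
    rw [h2, h3, h, sub_self]
  obtain ⟨d, hd⟩ := Int.subgroup_cyclic f0.range
  have hd' : ∀ x, d ∣ f0 x := by
    intro x
    have hx : f0 x ∈ f0.range := ⟨x, rfl⟩
    rw [hd, ← AddSubgroup.zmultiples_eq_closure, Int.mem_zmultiples_iff] at hx
    exact hx
  have hd0 : d ≠ 0 := by
    intro h
    have h1 : ∀ x, f0 x = 0 := by
      intro x
      have := hd' x
      rw [h] at this
      exact zero_dvd_iff.mp this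
    have h01 : (⟨0, by omega⟩ : Fin n) ≠ ⟨1, by omega⟩ := by
      intro h
      simpa using congrArg Fin.val h
    exact hf0 _ _ h01 (by rw [h1, h1])
  obtain ⟨t, ht⟩ : ∃ t, f0 t = d := by
    have : d ∈ f0.range := by
      rw [hd]
      exact AddSubgroup.subset_closure (Set.mem_singleton d)
    exact this
  let f1 : Additive H →+ ℤ :=
    { toFun := fun x => f0 x / d
      map_zero' := by simp
      map_add' := by
        intro x y
        rw [map_add, Int.add_ediv_of_dvd_left (hd' x)] }
  have hf1 : ∀ x, f1 x * d = f0 x := fun x => Int.ediv_mul_cancel (hd' x)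
  let f : H →* Multiplicative ℤ := MonoidHom.toAdditiveLeft.symm f1
  have hf : ∀ x : H, f x = Multiplicative.ofAdd (f1 (Additive.ofMul x)) := fun x => rfl
  refine ⟨f, ?_, ?_, ?_⟩
  · intro m
    have ht1 : f1 t = 1 := by
      have := hf1 t
      rw [ht] at this
      exact mul_right_cancel₀ hd0 (by rw [this, one_mul])
    refine ⟨(Additive.toMul t) ^ (Multiplicative.toAdd m), ?_⟩
    rw [map_zpow, hf, ofMul_toMul, ht1]
    rw [← ofAdd_zsmul, smul_eq_mul, mul_one]
    rfl
  · intro b hb
    rw [hf]
    have h1 : T (Additive.ofMul b) = 0 := by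
      rw [hT, hb]; rfl
    have h2 : T.rangeRestrict (Additive.ofMul b) = 0 := Subtype.ext h1
    have h3 : f0 (Additive.ofMul b) = 0 := by
      show g (T.rangeRestrict (Additive.ofMul b)) = 0
      rw [h2, map_zero]
    have h4 : f1 (Additive.ofMul b) = 0 := by
      have := hf1 (Additive.ofMul b)
      rw [h3] at this
      exact (mul_eq_zero.mp this).resolve_right hd0
    rw [h4]; rfl
  · intro l l' h
    by_contra hll
    apply hf0 l l' hll
    simp only [hf] at h
    have h1 : f1 (Additive.ofMul (a l)) = f1 (Additive.ofMul (a l')) :=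
      Multiplicative.ofAdd.injective h
    rw [← hf1, ← hf1, h1]

end Pool.Agent.HFT
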