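import Pool.Agent.HFT.HFa

/-! # HFT/HFb: Hughes-free division rings and real characters (helper49)

PROOF. Write `[b] := φ (single b 1)` and `ρ r = φ (single 1 r)`; `φ (single b r) = ρ r [b] = [b] ρ r`,
`[b] [b'] = [b b']`, `[1] = 1`, so `[b]` is invertible with inverse `[b⁻¹]`.
The set `{x | ∃ b r, τ b = 1 ∧ x = φ (single b r)}` lies in the division ring generated by
`range ρ` and the set `U` of the `[b]`, `b ∈ N`, `τ b = 1`. By `closure_finite` there is for every
`l` a finite `F_l ⊆ U` with `c l ∈ closure (range ρ ∪ F_l)`; let `E : Finset N` be a finite set of elements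
`b` with `τ b = 1` representing all elements of all `F_l`.
If `n = 0` nothing; if `n = 1`: `[a 0] * c 0 = 0` gives `c 0 = 0`. Let `n ≥ 2`.
`H` := the subgroup of `A0` generated by the (images of) `E` and the `a l`: finitely generated and
contained in `N`. Let `τ' : H →* Multiplicative ℝ` be the restriction of `τ`. `sep_char` gives a
surjective `f : H →* Multiplicative ℤ`, trivial on the elements with `τ' = 1`, in particular on `E`,
and injective on the `a l`; put `m l := f (a l)` (an integer). Choose `t : H` with `f t = ofAdd 1`.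
`[a l] * c l = ([a l t^(-m l)] * ([t]^(m l) * c l * [t]^(-m l))) * [t]^(m l)`. The element
`a l * t^(-m l)` of `H` is in `ker f`. Conjugation by `[t]^(m l)` maps `ρ r` to itself and `[b]`, `b ∈ E`, to
`[t^m b t^-m]`, where `t^m b t^-m ∈ ker f`; so it maps `closure (range ρ ∪ [E])` into
`K := closure {x | ∃ (n : H) r, f n = 1 ∧ x = φ (single n r)}`. So
`d' l := [a l t^(-m l)] * ([t]^(m l) * c l * [t]^(-m l)) ∈ K` and `∑ l, d' l * [t]^(m l) = 0`. With
`s := image m univ` and `d i := d' l` for `i = m l` (the `m l` are pairwise different) the Hughes-free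
condition (the third clause of `HughesFree`, `φ (single t 1) = [t]`) gives `d' l = 0`, hence `c l = 0`
(the other factors are invertible). -/

set_option autoImplicit false

universe u w

namespace Pool.Agent.HFT

namespace HFbAux

variable {R : Type u} [DivisionRing R] {A0 : Type u} [Group A0] {D : Type w} [DivisionRing D]
  (φ : MonoidAlgebra R A0 →+* D)

/-- the image of a group element -/
noncomputable def br (b : A0) : D := φ (MonoidAlgebra.single b 1)

theorem br_one : br φ 1 = 1 := by
  unfold br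
  rw [← MonoidAlgebra.one_def, map_one]

theorem br_mul (b b' : A0) : br φ (b * b') = br φ b * br φ b' := by
  unfold br
  rw [← map_mul, MonoidAlgebra.single_mul_single, one_mul]

theorem br_ne_zero (b : A0) : br φ b ≠ 0 := by
  intro h
  have h1 : br φ (b * b⁻¹) = 0 := by rw [br_mul, h, zero_mul]
  rw [mul_inv_cancel, br_one] at h1
  exact one_ne_zero h1

theorem br_inv (b : A0) : br φ b⁻¹ = (br φ b)⁻¹ := by
  apply eq_inv_of_mul_eq_one_left
  rw [← br_mul, inv_mul_cancel, br_one]

/-- as a monoid homomorphism -/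
noncomputable def brHom : A0 →* D where
  toFun := br φ
  map_one' := br_one φ
  map_mul' := br_mul φ

theorem br_zpow (b : A0) (m : ℤ) : br φ (b ^ m) = br φ b ^ m :=
  map_zpow (brHom φ) b m

theorem single_eq (b : A0) (r : R) :
    φ (MonoidAlgebra.single b r) = φ (MonoidAlgebra.single 1 r) * br φ b := by
  unfold br
  rw [← map_mul, MonoidAlgebra.single_mul_single, one_mul, mul_one]

theorem comm_rho (b : A0) (r : R) :
    br φ b * φ (MonoidAlgebra.single 1 r) = φ (MonoidAlgebra.single 1 r) * br φ b := by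
  unfold br
  rw [← map_mul, ← map_mul, MonoidAlgebra.single_mul_single, MonoidAlgebra.single_mul_single,
    one_mul, mul_one, one_mul, mul_one]

theorem conj_closure {X : Set D} {K : Subfield D} {u : D} (hu : u ≠ 0)
    (hX : ∀ x ∈ X, u * x * u⁻¹ ∈ K) {x : D} (hx : x ∈ Subfield.closure X) : u * x * u⁻¹ ∈ K := by
  induction hx using Subfield.closure_induction with
  | mem x hx => exact hX x hx
  | one => rw [mul_one, mul_inv_cancel₀ hu]; exact one_mem K
  | add x y _ _ hx hy =>
    rw [mul_add, add_mul]; exact add_mem hx hy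
  | neg x _ hx =>
    rw [mul_neg, neg_mul]; exact neg_mem hx
  | inv x _ hx =>
    have h1 : u * x⁻¹ * u⁻¹ = (u * x * u⁻¹)⁻¹ := by
      rw [mul_inv_rev, mul_inv_rev, inv_inv, mul_assoc]
    rw [h1]; exact inv_mem hx
  | mul x y _ _ hx hy =>
    have h1 : u * (x * y) * u⁻¹ = (u * x * u⁻¹) * (u * y * u⁻¹) := by
      simp only [mul_assoc, inv_mul_cancel_left₀ hu]
    rw [h1]; exact mul_mem hx hy

end HFbAux

open HFbAux

theorem hf_char {R : Type u} [DivisionRing R] {A0 : Type u} [Group A0] {D : Type w}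
    [DivisionRing D] {φ : MonoidAlgebra R A0 →+* D} (h : HughesFree R A0 D φ) (N : Subgroup A0)
    (τ : N →* Multiplicative ℝ) {n : ℕ} (a : Fin n → N) (c : Fin n → D)
    (ha : Function.Injective (fun l => τ (a l)))
    (hc : ∀ l, c l ∈ Subfield.closure
      {x : D | ∃ (b : N) (r : R), τ b = 1 ∧ x = φ (MonoidAlgebra.single (b : A0) r)})
    (hs : ∑ l, φ (MonoidAlgebra.single (a l : A0) 1) * c l = 0) : ∀ l, c l = 0 := by
  classical
  have hbr : ∀ b : A0, φ (MonoidAlgebra.single b 1) = br φ b := fun _ => rfl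
  rcases Nat.lt_or_ge n 2 with hn | hn
  · interval_cases n
    · intro l; exact l.elim0
    · intro l
      rw [Fin.sum_univ_one, hbr] at hs
      have hl : l = 0 := Subsingleton.elim _ _
      rw [hl]
      exact (mul_eq_zero.mp hs).resolve_left (br_ne_zero φ _)
  set T : Set D := Set.range (fun r : R => φ (MonoidAlgebra.single (1 : A0) r)) with hT
  set U : Set D := {x | ∃ b : N, τ b = 1 ∧ x = br φ (b : A0)} with hU
  have hc1 : ∀ l, c l ∈ Subfield.closure (T ∪ U) := by
    intro l
    refine (Subfield.closure_le.mpr ?_) (hc l)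
    rintro x ⟨b, r, hb, rfl⟩
    rw [single_eq]
    exact mul_mem (Subfield.subset_closure (Or.inl ⟨r, rfl⟩))
      (Subfield.subset_closure (Or.inr ⟨b, hb, rfl⟩))
  choose F hFU hcF using fun l => closure_finite (hc1 l)
  set F1 : Finset D := Finset.univ.biUnion F with hF1
  have hF1U : ∀ x ∈ F1, ∃ b : N, τ b = 1 ∧ x = br φ (b : A0) := by
    intro x hx
    rw [hF1, Finset.mem_biUnion] at hx
    obtain ⟨l, _, hl⟩ := hx
    exact hFU l hl
  have hc2 : ∀ l, c l ∈ Subfield.closure (T ∪ (F1 : Set D)) := by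
    intro l
    refine Subfield.closure_mono (Set.union_subset_union_right _ ?_) (hcF l)
    intro x hx
    rw [hF1]
    exact Finset.mem_coe.mpr (Finset.mem_biUnion.mpr ⟨l, Finset.mem_univ l, hx⟩)
  choose! β hβ1 hβ2 using hF1U
  set G0 : Finset A0 := (F1.image (fun x => ((β x : N) : A0))) ∪
    (Finset.univ.image (fun l => ((a l : N) : A0))) with hG0
  set H : Subgroup A0 := Subgroup.closure (G0 : Set A0) with hH
  have hHfg : H.FG := ⟨G0, rfl⟩
  have hHN : H ≤ N := by
    rw [hH, Subgroup.closure_le]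
    intro x hx
    rw [hG0, Finset.coe_union] at hx
    rcases hx with hx | hx
    · rw [Finset.mem_coe, Finset.mem_image] at hx
      obtain ⟨y, _, rfl⟩ := hx
      exact (β y).2
    · rw [Finset.mem_coe, Finset.mem_image] at hx
      obtain ⟨y, _, rfl⟩ := hx
      exact (a y).2
  have hβH : ∀ x ∈ F1, ((β x : N) : A0) ∈ H := by
    intro x hx
    apply Subgroup.subset_closure
    rw [hG0, Finset.coe_union]
    exact Or.inl (Finset.mem_coe.mpr (Finset.mem_image_of_mem _ hx))
  have haH : ∀ l, ((a l : N) : A0) ∈ H := by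
    intro l
    apply Subgroup.subset_closure
    rw [hG0, Finset.coe_union]
    exact Or.inr (Finset.mem_coe.mpr (Finset.mem_image_of_mem _ (Finset.mem_univ l)))
  let τ' : H →* Multiplicative ℝ := τ.comp (Subgroup.inclusion hHN)
  let a' : Fin n → H := fun l => ⟨a l, haH l⟩
  have hτa : ∀ l, τ' (a' l) = τ (a l) := fun l => rfl
  have hgfg : Group.FG H := (Group.fg_iff_subgroup_fg H).mpr hHfg
  obtain ⟨f, hfs, hf1, hfi⟩ := sep_char hgfg τ' hn a' (by
    intro l l' hll
    exact ha hll)
  obtain ⟨t, ht⟩ := hfs (Multiplicative.ofAdd 1)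
  set m : Fin n → ℤ := fun l => Multiplicative.toAdd (f (a' l)) with hm
  have hmi : Function.Injective m := by
    intro l l' hll
    exact hfi (Multiplicative.toAdd.injective hll)
  set B : D := br φ (t : A0) with hB
  have hB0 : B ≠ 0 := br_ne_zero φ _
  set K : Subfield D := Subfield.closure
    {x : D | ∃ (n : H) (r : R), f n = 1 ∧ x = φ (MonoidAlgebra.single (n : A0) r)} with hK
  have hKc : ∀ (k : ℤ) (x : D), x ∈ Subfield.closure (T ∪ (F1 : Set D)) →
      B ^ k * x * (B ^ k)⁻¹ ∈ K := by
    intro k x hx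
    refine conj_closure (zpow_ne_zero k hB0) ?_ hx
    rintro y (⟨r, rfl⟩ | hy)
    · have h1 : B ^ k * φ (MonoidAlgebra.single (1 : A0) r) * (B ^ k)⁻¹ =
          φ (MonoidAlgebra.single (1 : A0) r) := by
        rw [hB, ← br_zpow, comm_rho, mul_assoc, mul_inv_cancel₀ (br_ne_zero φ _), mul_one]
      show B ^ k * φ (MonoidAlgebra.single (1 : A0) r) * (B ^ k)⁻¹ ∈ K
      rw [h1]
      exact Subfield.subset_closure ⟨1, r, map_one f, rfl⟩
    · have hy' : y ∈ F1 := hy
      have h1 := hβ2 y hy'
      have h2 : B ^ k * y * (B ^ k)⁻¹ = φ (MonoidAlgebra.single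
          ((t ^ k * ⟨(β y : N), hβH y hy'⟩ * (t ^ k)⁻¹ : H) : A0) 1) := by
        rw [hbr]
        simp only [Subgroup.coe_mul, Subgroup.coe_inv, Subgroup.coe_zpow]
        rw [br_mul, br_mul, br_inv, br_zpow, ← hB, ← h1]
      rw [h2]
      refine Subfield.subset_closure ⟨_, 1, ?_, rfl⟩
      rw [map_mul, map_mul, map_inv, mul_right_comm, mul_inv_cancel, one_mul]
      exact hf1 _ (hβ1 y hy')
  let d' : Fin n → D := fun l =>
    br φ ((a' l * t ^ (-(m l)) : H) : A0) * (B ^ (m l) * c l * (B ^ (m l))⁻¹)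
  have hd'K : ∀ l, d' l ∈ K := by
    intro l
    refine mul_mem (Subfield.subset_closure ⟨a' l * t ^ (-(m l)), 1, ?_, rfl⟩) (hKc _ _ (hc2 l))
    rw [map_mul, map_zpow, ht, ← ofAdd_zsmul, smul_eq_mul, mul_one, ofAdd_neg, hm]
    show f (a' l) * (Multiplicative.ofAdd (Multiplicative.toAdd (f (a' l))))⁻¹ = 1
    rw [ofAdd_toAdd, mul_inv_cancel]
  have hd' : ∀ l, d' l * B ^ (m l) = br φ (a l : A0) * c l := by
    intro l
    show br φ ((a' l * t ^ (-(m l)) : H) : A0) * (B ^ (m l) * c l * (B ^ (m l))⁻¹) * B ^ (m l) = _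
    simp only [Subgroup.coe_mul, Subgroup.coe_zpow]
    rw [br_mul, br_zpow, ← hB, zpow_neg]
    have hz : B ^ (m l) ≠ 0 := zpow_ne_zero _ hB0
    simp only [mul_assoc, inv_mul_cancel₀ hz, mul_one, inv_mul_cancel_left₀ hz]
    rfl
  have hsum : ∑ i ∈ Finset.univ.image m, (Function.extend m d' 0) i *
      (φ (MonoidAlgebra.single (t : A0) 1)) ^ i = 0 := by
    rw [Finset.sum_image (fun x _ y _ hxy => hmi hxy)]
    rw [← hs]
    refine Finset.sum_congr rfl fun l _ => ?_
    rw [hmi.extend_apply, hbr, ← hB, hd' l, hbr]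
  have hz := h.2.2 H hHfg f hfs t ht (Finset.univ.image m) (Function.extend m d' 0) (by
    intro i hi
    rw [Finset.mem_image] at hi
    obtain ⟨l, _, rfl⟩ := hi
    rw [hmi.extend_apply]
    exact hd'K l) hsum
  intro l
  have h1 := hz (m l) (Finset.mem_image_of_mem _ (Finset.mem_univ l))
  rw [hmi.extend_apply] at h1
  have h2 := hd' l
  rw [h1, zero_mul] at h2
  exact (mul_eq_zero.mp h2.symm).resolve_left (br_ne_zero φ _)

end Pool.Agent.HFT
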