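import Pool.Agent.HFT.RatC
import Pool.Agent.HFT.GStar
import Pool.Agent.HFT.Shr

/-! # HFT/JFU: the division ring U is free along the Conradian system (helper49)

PROOF. Write `[g] := θ (single g 1)`, `ρ r := θ (single 1 r)`; `[g] ρ r = ρ r [g]`, `[g][h] = [g h]`.
`jf_one` (position `k = 1`). Suppose not all `c l` vanish; let `l0` with `c l0 ≠ 0` and `deg 1 i (a l)`
minimal for `l = l0` among the `l` with `c l ≠ 0`. Multiply `∑ [a l] c l = 0` by `[a l0]⁻¹` on the left and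
`(c l0)⁻¹` on the right: `1 + ∑_{l ≠ l0} [a l0⁻¹ a l] (c l (c l0)⁻¹) = 0`, where for every `l ≠ l0` either
`c l = 0` or `g := (a l0)⁻¹ (a l) ∈ Le 1 i` has positive degree (`deg_mul`, `deg_inv`, minimality and
injectivity). Let `B := S.Lt 1 i`, `T := {g | g ∈ S.Le 1 i ∧ 0 < S.deg 1 i g}`. By `rat_closure` the
`c l (c l0)⁻¹` are `Rat θ B B`, by `rat_left` the products are `Rat θ B T` (degrees add up,
elements of `B` have degree `0`), zero is `Rat` (`rat_of`), and by `rat_sum` the sum `c` is `Rat θ B T`.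
`rat_one_add` gives the contradiction `1 + c ≠ 0`, if `hstar` holds; it is `GData.star` for `j := i`, the matrix
`M = bm A x f` and `M0 = bm A x 0`: the entries of `A`, `x`, `1` are supported in `B`, i.e. in elements `g` with `eqj i 1 g`
(`lev (1⁻¹ g) < i`), the entries of `f` in elements of positive degree, `ltj i 1 g` (`ltj_of_deg_pos`
for `k = 1`), not `eqj` (`not_ltj_of_eqj`). `h2`, `h3` block by block (`Matrix.fromBlocks_apply₁₁` etc.;
the entries of `1` are `0` or `single 1 1`).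
`jf_all`: conjugate with `[k]`: `[k]⁻¹ (∑ [a l] c l) [k] = ∑ [k⁻¹ (a l) k] ([k]⁻¹ (c l) [k])`,
`k⁻¹ (a l) k ∈ Le 1 i` has degree `deg 1 i (k⁻¹ (a l) k) = deg k i (a l)`, and conjugation by `[k]` maps
`closure (ρ, [b], b ∈ Lt k i)` into `closure (ρ, [b], b ∈ Lt 1 i)` (`Subfield.closure_induction`).
The ring structure of `divU` is the given one of `U`.
`hasHF`: `exists_theta`, `hughesFree_φE` for `tsetU Θ`, `hasHF_of_hughesFree` (in `Shr`). -/

set_option autoImplicit false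

universe u

open CategoryTheory CategoryTheory.Limits

namespace Pool.Agent.HFT

variable {G : Type u} [Group G] {S : ConradSys G} {R : Type u} [DivisionRing R]

namespace GData

variable {𝒢 : GData S R}

noncomputable instance instDivU : DivisionRing 𝒢.U := 𝒢.divU

/-- the embedding of `G` -/
noncomputable def αU (Θ : 𝒢.Theta) : (⊤ : Subgroup G) →* 𝒢.U :=
  ((Θ.θ : MonoidAlgebra R G →* 𝒢.U).comp (MonoidAlgebra.of R G)).comp
    (Subgroup.topEquiv.toMonoidHom)

/-- the embedding of `R` -/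
noncomputable def ρU (Θ : 𝒢.Theta) : R →+* 𝒢.U := Θ.θ.comp MonoidAlgebra.singleOneRingHom

theorem αU_apply (Θ : 𝒢.Theta) (a : (⊤ : Subgroup G)) :
    αU Θ a = Θ.θ (MonoidAlgebra.single (a : G) 1) := rfl

theorem ρU_apply (Θ : 𝒢.Theta) (r : R) : ρU Θ r = Θ.θ (MonoidAlgebra.single 1 r) := rfl

theorem commU (Θ : 𝒢.Theta) (r : R) (a : (⊤ : Subgroup G)) :
    ρU Θ r * αU Θ a = αU Θ a * ρU Θ r := by
  rw [αU_apply, ρU_apply]
  have h1 : Θ.θ (MonoidAlgebra.single 1 r) * Θ.θ (MonoidAlgebra.single (a : G) 1) =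
      Θ.θ (MonoidAlgebra.single (a : G) r) := by
    rw [← map_mul, MonoidAlgebra.single_mul_single, one_mul, mul_one]
  have h2 : Θ.θ (MonoidAlgebra.single (a : G) 1) * Θ.θ (MonoidAlgebra.single 1 r) =
      Θ.θ (MonoidAlgebra.single (a : G) r) := by
    rw [← map_mul, MonoidAlgebra.single_mul_single, one_mul, mul_one]
  exact h1.trans h2.symm

/-! ### the bracket -/

/-- the image of a group element -/
private noncomputable def bk (Θ : 𝒢.Theta) (g : G) : 𝒢.U := Θ.θ (MonoidAlgebra.single g 1)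

private theorem bk_mul (Θ : 𝒢.Theta) (g h : G) : bk Θ g * bk Θ h = bk Θ (g * h) := by
  have h1 : Θ.θ (MonoidAlgebra.single g 1) * Θ.θ (MonoidAlgebra.single h 1) =
      Θ.θ (MonoidAlgebra.single (g * h) 1) := by
    rw [← map_mul, MonoidAlgebra.single_mul_single, mul_one]
  exact h1

private theorem bk_one (Θ : 𝒢.Theta) : bk Θ 1 = 1 := by
  have h1 : Θ.θ (MonoidAlgebra.single 1 1) = 1 := by
    rw [← MonoidAlgebra.one_def, map_one]
  exact h1

private theorem suppIn_zero {B : Set G} : SuppIn B (0 : MonoidAlgebra R G) := by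
  intro g hg
  rw [MonoidAlgebra.coeff_zero, Finsupp.support_zero] at hg
  exact absurd hg (Finset.notMem_empty g)

/-- the entries of the bordered matrices -/
private theorem bm_entry {J : Type} {A : Matrix J J (MonoidAlgebra R G)}
    {x f : J → MonoidAlgebra R G} {B T : Set G} (h1 : (1 : G) ∈ B) (hA : ∀ i j, SuppIn B (A i j))
    (hx : ∀ i, SuppIn B (x i)) (hf : ∀ i, SuppIn T (f i)) (a b : J ⊕ Unit) (g : G) :
    ((bm A x f a b).coeff g ≠ 0 → g ∈ B ∨ g ∈ T) ∧
    (g ∉ T → (bm A x 0 a b).coeff g = (bm A x f a b).coeff g) ∧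
    (g ∉ B → (bm A x 0 a b).coeff g = 0) := by
  rcases a with a | a <;> rcases b with b | b
  · refine ⟨fun h => Or.inl (hA a b g (Finsupp.mem_support_iff.2 h)), fun _ => rfl, fun h => ?_⟩
    by_contra h2
    exact h (hA a b g (Finsupp.mem_support_iff.2 h2))
  · refine ⟨fun h => Or.inl (hx a g (Finsupp.mem_support_iff.2 h)), fun _ => rfl, fun h => ?_⟩
    by_contra h2
    exact h (hx a g (Finsupp.mem_support_iff.2 h2))
  · have e0 : (bm A x 0 (Sum.inr a) (Sum.inl b)).coeff g = 0 := by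
      show (-(0 : MonoidAlgebra R G)).coeff g = 0
      rw [neg_zero]
      rfl
    have e1 : (bm A x f (Sum.inr a) (Sum.inl b)).coeff g = - (f b).coeff g := rfl
    refine ⟨fun h => Or.inr (hf b g (Finsupp.mem_support_iff.2 ?_)), fun h => ?_, fun _ => e0⟩
    · intro h2
      rw [e1, h2, neg_zero] at h
      exact h rfl
    · rw [e0, e1]
      by_contra h2
      exact h (hf b g (Finsupp.mem_support_iff.2 (fun h3 => h2 (by rw [h3, neg_zero]))))
  · have e1 : ∀ f', (bm A x f' (Sum.inr a) (Sum.inr b)).coeff g =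
        (1 : MonoidAlgebra R G).coeff g := fun f' => by
      show ((1 : Matrix Unit Unit (MonoidAlgebra R G)) a b).coeff g = _
      rw [Matrix.one_apply, if_pos (Subsingleton.elim a b)]
    have e2 : g ∉ B → (1 : MonoidAlgebra R G).coeff g = 0 := by
      intro h
      have hg : (1 : G) ≠ g := fun h2 => h (h2 ▸ h1)
      rw [MonoidAlgebra.one_def, MonoidAlgebra.coeff_single, Finsupp.single_eq_of_ne hg.symm]
    refine ⟨fun h => ?_, fun _ => by rw [e1, e1], fun h => by rw [e1]; exact e2 h⟩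
    by_contra h2
    rw [not_or] at h2
    rw [e1] at h
    exact h (e2 h2.1)

theorem jf_one (Θ : 𝒢.Theta) (i : S.I) (n : ℕ) (a : Fin n → G) (c : Fin n → 𝒢.U)
    (ha : ∀ l, a l ∈ S.Le 1 i) (hd : Function.Injective (fun l => S.deg 1 i (a l)))
    (hc : ∀ l, c l ∈ Subfield.closure
      (Set.range (fun r : R => Θ.θ (MonoidAlgebra.single 1 r)) ∪
        {x | ∃ b : G, b ∈ S.Lt 1 i ∧ Θ.θ (MonoidAlgebra.single b 1) = x}))
    (hs : ∑ l, Θ.θ (MonoidAlgebra.single (a l) 1) * c l = 0) : ∀ l, c l = 0 := by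
  classical
  by_contra hcon
  rw [not_forall] at hcon
  obtain ⟨l1, hl1⟩ := hcon
  obtain ⟨l0, hl0m, hmin⟩ := Finset.exists_min_image (Finset.univ.filter fun l => c l ≠ 0)
    (fun l => S.deg 1 i (a l)) ⟨l1, Finset.mem_filter.2 ⟨Finset.mem_univ _, hl1⟩⟩
  have hl0 : c l0 ≠ 0 := (Finset.mem_filter.1 hl0m).2
  have hs' : ∑ l, bk Θ (a l) * c l = 0 := hs
  -- normalization
  have h1 : ∑ l, bk Θ ((a l0)⁻¹ * a l) * (c l * (c l0)⁻¹) = 0 := by
    have h2 : ∑ l, bk Θ ((a l0)⁻¹ * a l) * (c l * (c l0)⁻¹) =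
        bk Θ (a l0)⁻¹ * (∑ l, bk Θ (a l) * c l) * (c l0)⁻¹ := by
      rw [Finset.mul_sum, Finset.sum_mul]
      refine Finset.sum_congr rfl fun l _ => ?_
      rw [← bk_mul]
      simp only [mul_assoc]
    rw [h2, hs', mul_zero, zero_mul]
  rw [← Finset.add_sum_erase _ _ (Finset.mem_univ l0), inv_mul_cancel, bk_one, one_mul,
    mul_inv_cancel₀ hl0] at h1
  -- the set of elements of positive degree
  set T : Set G := {g | g ∈ S.Le 1 i ∧ 0 < S.deg 1 i g} with hT
  have hrat : Rat Θ.θ (S.Lt 1 i : Set G) T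
      (∑ l ∈ Finset.univ.erase l0, bk Θ ((a l0)⁻¹ * a l) * (c l * (c l0)⁻¹)) := by
    refine rat_sum _ _ fun l hl => ?_
    by_cases hcl : c l = 0
    · have e : bk Θ ((a l0)⁻¹ * a l) * (c l * (c l0)⁻¹) = Θ.θ 0 := by
        rw [hcl, zero_mul, mul_zero, map_zero]
      rw [e]
      exact rat_of suppIn_zero
    · refine rat_left (rat_closure (Subfield.mul_mem _ (hc l) (Subfield.inv_mem _ (hc l0)))) ?_
      intro b hb
      have hb' : b ∈ S.Le 1 i := S.Lt_le_Le 1 i hb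
      have hg : (a l0)⁻¹ * a l ∈ S.Le 1 i := (S.Le 1 i).mul_mem ((S.Le 1 i).inv_mem (ha l0)) (ha l)
      refine ⟨(S.Le 1 i).mul_mem hg hb', ?_⟩
      rw [S.deg_mul hg hb', (S.deg_zero_iff hb').2 hb, add_zero,
        S.deg_mul ((S.Le 1 i).inv_mem (ha l0)) (ha l), S.deg_inv (ha l0)]
      have h3 := hmin l (Finset.mem_filter.2 ⟨Finset.mem_univ _, hcl⟩)
      have h4 : S.deg 1 i (a l0) ≠ S.deg 1 i (a l) := fun h5 =>
        (Finset.mem_erase.1 hl).1 (hd h5).symm
      have h5 := lt_of_le_of_ne h3 h4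
      linarith
  refine rat_one_add hrat ?_ h1
  intro J fJ dJ A x f hA hx hf hu
  have hB1 : (1 : G) ∈ (S.Lt 1 i : Set G) := (S.Lt 1 i).one_mem
  have hE : ∀ g, g ∈ S.Lt 1 i → S.eqj i 1 g := fun g hg => by
    have := S.eqj_of_mem_Lt hg
    rwa [mul_one] at this
  have hE' : ∀ g, S.eqj i 1 g → g ∈ S.Lt 1 i := fun g hg =>
    S.mem_Lt_of_eqj (by rwa [mul_one])
  have hTl : ∀ g, g ∈ T → S.ltj i 1 g := fun g hg => by
    have := S.ltj_of_deg_pos hg.1 hg.2 le_rfl
    rwa [mul_one] at this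
  refine star Θ (bm A x f) (bm A x 0) i ?_ ?_ ?_ hu
  · intro a' b' g hg
    rcases (bm_entry hB1 hA hx hf a' b' g).1 (Finsupp.mem_support_iff.1 hg) with h2 | h2
    · exact Or.inr (hE g h2)
    · exact Or.inl (hTl g h2)
  · intro a' b' g hg
    exact (bm_entry hB1 hA hx hf a' b' g).2.1 fun h2 => S.not_ltj_of_eqj hg (hTl g h2)
  · intro a' b' g hg
    exact (bm_entry hB1 hA hx hf a' b' g).2.2 fun h2 => hg (hE g h2)

theorem jf_all (Θ : 𝒢.Theta) (k : G) (i : S.I) (n : ℕ) (a : Fin n → (⊤ : Subgroup G))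
    (c : Fin n → 𝒢.U) (ha : ∀ l, (a l : G) ∈ S.Le k i)
    (hd : Function.Injective (fun l => S.deg k i (a l)))
    (hc : ∀ l, c l ∈ Subfield.closure
      (Set.range (ρU Θ) ∪ {x | ∃ b : (⊤ : Subgroup G), (b : G) ∈ S.Lt k i ∧ αU Θ b = x}))
    (hs : ∑ l, αU Θ (a l) * c l = 0) : ∀ l, c l = 0 := by
  have hkk : bk Θ k⁻¹ * bk Θ k = 1 := by rw [bk_mul, inv_mul_cancel, bk_one]
  have hkk' : bk Θ k * bk Θ k⁻¹ = 1 := by rw [bk_mul, mul_inv_cancel, bk_one]
  -- conjugation by the image of `k`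
  let ψ : 𝒢.U →+* 𝒢.U :=
    { toFun := fun x => bk Θ k⁻¹ * x * bk Θ k
      map_one' := by rw [mul_one, hkk]
      map_zero' := by rw [mul_zero, zero_mul]
      map_add' := fun x y => by rw [mul_add, add_mul]
      map_mul' := fun x y => by
        have e : bk Θ k⁻¹ * x * bk Θ k * (bk Θ k⁻¹ * y * bk Θ k) =
            bk Θ k⁻¹ * x * (bk Θ k * bk Θ k⁻¹) * y * bk Θ k := by
          simp only [mul_assoc]
        rw [e, hkk', mul_one]
        simp only [mul_assoc] }
  have hψ : ∀ x, ψ x = bk Θ k⁻¹ * x * bk Θ k := fun _ => rfl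
  have hψb : ∀ g, ψ (bk Θ g) = bk Θ (k⁻¹ * g * k) := fun g => by
    rw [hψ, bk_mul, bk_mul]
  have hψr : ∀ r, ψ (ρU Θ r) = ρU Θ r := fun r => by
    have h1 := commU Θ r ⟨k, Subgroup.mem_top k⟩
    have h2 : ρU Θ r * bk Θ k = bk Θ k * ρU Θ r := h1
    rw [hψ, mul_assoc, h2, ← mul_assoc, hkk, one_mul]
  have hcl : ∀ x ∈ Subfield.closure
      (Set.range (ρU Θ) ∪ {x | ∃ b : (⊤ : Subgroup G), (b : G) ∈ S.Lt k i ∧ αU Θ b = x}),
      ψ x ∈ Subfield.closure
      (Set.range (fun r : R => Θ.θ (MonoidAlgebra.single 1 r)) ∪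
        {x | ∃ b : G, b ∈ S.Lt 1 i ∧ Θ.θ (MonoidAlgebra.single b 1) = x}) := by
    intro x hx
    have h1 : Subfield.closure
        (Set.range (ρU Θ) ∪ {x | ∃ b : (⊤ : Subgroup G), (b : G) ∈ S.Lt k i ∧ αU Θ b = x}) ≤
        (Subfield.closure
        (Set.range (fun r : R => Θ.θ (MonoidAlgebra.single 1 r)) ∪
          {x | ∃ b : G, b ∈ S.Lt 1 i ∧ Θ.θ (MonoidAlgebra.single b 1) = x})).comap ψ := by
      rw [Subfield.closure_le]
      rintro y (⟨r, rfl⟩ | ⟨b, hb, rfl⟩)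
      · rw [SetLike.mem_coe, Subfield.mem_comap, hψr]
        exact Subfield.subset_closure (Or.inl ⟨r, rfl⟩)
      · rw [SetLike.mem_coe, Subfield.mem_comap]
        have hb2 : ψ (αU Θ b) = bk Θ (k⁻¹ * (b : G) * k) := hψb (b : G)
        rw [hb2]
        refine Subfield.subset_closure (Or.inr ⟨_, ?_, rfl⟩)
        have hb' := S.mem_Lt.1 hb
        rw [S.mem_Lt]
        have e : (1 : G)⁻¹ * (k⁻¹ * (b : G) * k) * 1 = k⁻¹ * (b : G) * k := by group
        rwa [e]
    exact h1 hx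
  have he : ∀ g : G, (1 : G)⁻¹ * (k⁻¹ * g * k) * 1 = k⁻¹ * g * k := fun g => by group
  have hdeg : ∀ g : G, S.deg 1 i (k⁻¹ * g * k) = S.deg k i g := fun g => by
    unfold ConradSys.deg
    rw [he]
  have h1 := jf_one Θ i n (fun l => k⁻¹ * (a l : G) * k) (fun l => ψ (c l)) (fun l => by
      rw [S.mem_Le, he]
      exact S.mem_Le.1 (ha l)) (by
      intro l l' hll
      simp only [hdeg] at hll
      exact hd hll) (fun l => hcl _ (hc l)) (by
      have h2 := congrArg ψ hs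
      rw [map_sum, map_zero] at h2
      rw [← h2]
      refine Finset.sum_congr rfl fun l _ => ?_
      rw [map_mul]
      have h3 : ψ (αU Θ (a l)) = bk Θ (k⁻¹ * (a l : G) * k) := hψb (a l)
      rw [h3]
      rfl)
  intro l
  exact (map_eq_zero ψ).1 (h1 l)

/-- the family for the whole group -/
noncomputable def tsetU (Θ : 𝒢.Theta) : TSet.{u, u + 1} S R (⊤ : Subgroup G) Unit where
  D _ := 𝒢.U
  dr _ := inferInstance
  α _ := αU Θ
  ρ _ := ρU Θ
  comm _ r a := commU Θ r a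
  jf _ k i n a c ha hd hc hs := jf_all Θ k i n a c ha hd hc hs

theorem hasHF (𝒢 : GData S R) : HasHF R G := by
  obtain ⟨Θ⟩ := 𝒢.exists_theta
  exact hasHF_of_hughesFree (TSet.hughesFree_φE (tsetU Θ))

end GData

end Pool.Agent.HFT
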