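import Mathlib

/-! # HFT/LMa: polynomial growth, uniform version (helper49)

PROOF. `exists_growth`: if `n = 0` take `R = 0` (`r = 0`: `0 < V 0`). Let `n ≥ 1` and suppose
`(n + 1) * V r ≤ n * V (r + 1)` for all `r ≤ R`. Then by induction `(n + 1) ^ r ≤ n ^ r * V r` for
`r ≤ R + 1` (as `1 ≤ V 0`; multiply), so `(1 + 1 / n) ^ (R + 1) ≤ V (R + 1) ≤ (R + 2) ^ m`. But
`(R + 2) ^ m / (1 + 1/n) ^ (R + 1) → 0`
(`tendsto_pow_const_div_const_pow_of_one_lt`, see `growth` in `OVb.lean`), so for a suitable `R` this is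
impossible, whatever `V` is.
`abs_le_of_mem_degSet`: `|∑ k i • e i| ≤ ∑ k i * |e i| ≤ r * ∑ |e i|` as `k i ≤ r`. -/

set_option autoImplicit false

namespace Pool.Agent.HFT

theorem exists_growth (n m : ℕ) : ∃ R : ℕ, ∀ V : ℕ → ℕ, 0 < V 0 → (∀ r, V r ≤ (r + 1) ^ m) →
    ∃ r ≤ R, n * V (r + 1) < (n + 1) * V r := by
  rcases Nat.eq_zero_or_pos n with rfl | hn
  · refine ⟨0, fun V hV _ => ⟨0, le_rfl, ?_⟩⟩
    rw [zero_mul, zero_add, one_mul]
    exact hV
  have hnR : (0 : ℝ) < n := by exact_mod_cast hn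
  have hq : (1 : ℝ) < 1 + 1 / n := by
    have : (0 : ℝ) < 1 / n := by positivity
    linarith
  have hq0 : (0 : ℝ) < 1 + 1 / n := by linarith
  have h3 := tendsto_pow_const_div_const_pow_of_one_lt m (r := 1 + 1 / (n : ℝ)) hq
  have h4 : ∀ᶠ k : ℕ in Filter.atTop, (k : ℝ) ^ m / (1 + 1 / (n : ℝ)) ^ k < 1 / (1 + 1 / n) :=
    h3.eventually_lt_const (by positivity)
  obtain ⟨k, hk, hk2⟩ := (h4.and (Filter.eventually_ge_atTop 2)).exists
  obtain ⟨R, rfl⟩ : ∃ R, k = R + 2 := ⟨k - 2, by omega⟩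
  refine ⟨R, fun V hV hb => ?_⟩
  by_contra hcon
  push Not at hcon
  have h5 : ∀ r, r ≤ R + 1 → (n + 1) ^ r ≤ n ^ r * V r := by
    intro r
    induction r with
    | zero =>
      intro _
      rw [pow_zero, pow_zero, one_mul]
      exact hV
    | succ r ih =>
      intro hr
      have h6 := ih (by omega)
      have h7 := hcon r (by omega)
      calc (n + 1) ^ (r + 1) = (n + 1) ^ r * (n + 1) := pow_succ _ _
        _ ≤ n ^ r * V r * (n + 1) := Nat.mul_le_mul_right _ h6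
        _ = n ^ r * ((n + 1) * V r) := by ring
        _ ≤ n ^ r * (n * V (r + 1)) := Nat.mul_le_mul_left _ h7
        _ = n ^ (r + 1) * V (r + 1) := by ring
  have h6 := (h5 (R + 1) le_rfl).trans (Nat.mul_le_mul_left _ (hb (R + 1)))
  have h7 : ((n : ℝ) + 1) ^ (R + 1) ≤ (n : ℝ) ^ (R + 1) * ((R : ℝ) + 2) ^ m := by
    have h8 : (((n + 1) ^ (R + 1) : ℕ) : ℝ) ≤ ((n ^ (R + 1) * (R + 1 + 1) ^ m : ℕ) : ℝ) := by
      exact_mod_cast h6
    push_cast at h8
    have h9 : (R : ℝ) + 1 + 1 = R + 2 := by ring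
    rw [h9] at h8
    exact h8
  have h8 : (1 + 1 / (n : ℝ)) ^ (R + 1) ≤ ((R : ℝ) + 2) ^ m := by
    have h9 : (1 + 1 / (n : ℝ)) = (n + 1) / n := by field_simp
    rw [h9, div_pow, div_le_iff₀ (by positivity), mul_comm]
    exact h7
  rw [div_lt_div_iff₀ (by positivity) hq0, one_mul, pow_succ _ (R + 1)] at hk
  have h9 : (((R + 2 : ℕ)) : ℝ) = (R : ℝ) + 2 := by push_cast; ring
  rw [h9] at hk
  have h10 := lt_of_mul_lt_mul_right hk hq0.le
  exact absurd h8 (not_le.2 h10)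

/-- the uniform bound -/
noncomputable def bdR (n m : ℕ) : ℕ := (exists_growth n m).choose

/-- sums of the `e i` with multiplicities at most `r` -/
noncomputable def degSet {κ : Type*} [Fintype κ] (e : κ → ℝ) (r : ℕ) : Finset ℝ :=
  open Classical in
  (Fintype.piFinset (fun _ : κ => Finset.range (r + 1))).image (fun k => ∑ i, (k i) • e i)

theorem mem_degSet {κ : Type*} [Fintype κ] {e : κ → ℝ} {r : ℕ} {v : ℝ} :
    v ∈ degSet e r ↔ ∃ k : κ → ℕ, (∀ i, k i ≤ r) ∧ ∑ i, (k i) • e i = v := by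
  classical
  unfold degSet
  simp only [Finset.mem_image, Fintype.mem_piFinset, Finset.mem_range, Nat.lt_succ_iff]

theorem zero_mem_degSet {κ : Type*} [Fintype κ] (e : κ → ℝ) (r : ℕ) : (0 : ℝ) ∈ degSet e r :=
  mem_degSet.2 ⟨fun _ => 0, fun _ => Nat.zero_le _, by simp⟩

theorem add_mem_degSet {κ : Type*} [Fintype κ] {e : κ → ℝ} {r : ℕ} {v : ℝ} (hv : v ∈ degSet e r)
    (i : κ) : v + e i ∈ degSet e (r + 1) := by
  classical
  obtain ⟨k, hk, hkv⟩ := mem_degSet.1 hv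
  refine mem_degSet.2 ⟨fun j => k j + if j = i then 1 else 0, ?_, ?_⟩
  · intro j
    have := hk j
    dsimp only
    split_ifs <;> omega
  · simp only [add_smul, Finset.sum_add_distrib, ite_smul, one_smul, zero_smul,
      Finset.sum_ite_eq', Finset.mem_univ, if_true]
    rw [hkv]

theorem card_degSet {κ : Type*} [Fintype κ] (e : κ → ℝ) (r : ℕ) :
    (degSet e r).card ≤ (r + 1) ^ Fintype.card κ := by
  classical
  unfold degSet
  refine Finset.card_image_le.trans ?_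
  rw [Fintype.card_piFinset]
  simp

theorem abs_le_of_mem_degSet {κ : Type*} [Fintype κ] {e : κ → ℝ} {r : ℕ} {v : ℝ}
    (hv : v ∈ degSet e r) : |v| ≤ r * ∑ i, |e i| := by
  obtain ⟨k, hk, rfl⟩ := mem_degSet.1 hv
  refine (Finset.abs_sum_le_sum_abs _ _).trans ?_
  rw [Finset.mul_sum]
  refine Finset.sum_le_sum fun i _ => ?_
  rw [nsmul_eq_mul, abs_mul, Nat.abs_cast]
  exact mul_le_mul_of_nonneg_right (by exact_mod_cast hk i) (abs_nonneg _)

/-- the exponent for a system with `n` equations in `m` group elements -/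
theorem exists_degSet {κ : Type*} [Fintype κ] (e : κ → ℝ) (n : ℕ) :
    ∃ r ≤ bdR n (Fintype.card κ), n * (degSet e (r + 1)).card < (n + 1) * (degSet e r).card :=
  (exists_growth n (Fintype.card κ)).choose_spec (fun r => (degSet e r).card)
    (Finset.card_pos.2 ⟨0, zero_mem_degSet e 0⟩) (card_degSet e)

end Pool.Agent.HFT
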