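import Pool.Agent.HFT.OVDefs

/-! # HFT/OVb: Ore condition by counting (helper49)

PROOF. Let `F`, `F'` be the degrees of `p`, `s` and `{f_1, …, f_m}` an enumeration of `F ∪ F'`
(choose `a_l : N` with `τ a_l = f_l`, they exist since the `u d` are in `HomSet`).
For `n : ℕ` let `V n : Finset ℝ` be the set of the sums `∑ l, n_l f_l` with `n_l < n` natural
numbers (image of `Fintype.piFinset (fun _ : Fin m => Finset.range n)`), so `|V n| ≤ n ^ m`,
`V n + f_l ⊆ V (n+1)` and `V 1 = {0}`. Every element of `V n` is a value of `τ`; choose a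
representative `b_v : N` for every `v ∈ V n`.
If `|V (n+1)| ≥ 2 |V n|` for all `n ≥ 1` then `|V (n+1)| ≥ 2 ^ n`, against `|V (n+1)| ≤ (n+1)^m` for
large `n`. So take `n ≥ 1` with `|V (n+1)| < 2 |V n|`.
Look for `s' = ∑_{v ∈ V n} x_v α(b_v)` and `p' = ∑_{v ∈ V n} y_v α(b_v)` with `x_v, y_v ∈ Δ` such that
`s' p - p' s = 0`. For `u d = α(a) c` homogeneous, `x_v α(b_v) u d = x_v (α(b_v a) c)` and
`α(b_v a) c = e α(b_{v+d})` with `e ∈ Δ` (`e = α(b_v a) c α(b_{v+d})⁻¹ = (α(b_v a) c α(b_v a)⁻¹)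
(α(b_v a) α(b_{v+d})⁻¹)`, the first factor is in `Δ` by `norm`, the second by `ker`). So
`s' p - p' s = ∑_{v' ∈ V (n+1)} (linear form in the x_v, y_v with coefficients on the right) α(b_{v'})`:
a homogeneous system of `|V (n+1)|` left linear equations in `2 |V n|` unknowns of the division
ring `Δ` (unknowns multiplied on the right by coefficients), it has a nonzero solution
(`Module.exists_nontrivial_relation...` or rank of a linear map between finite free left
`Δ`-modules of ranks `2|V n| > |V (n+1)|`: it is not injective).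
With a nonzero solution: if `s' = 0` then `p' s = 0` so `p' = 0`; but then all `x_v`, `y_v` vanish
by `ind` (put the coefficients on the right: `x α(b) = α(b) (α(b)⁻¹ x α(b))`), a contradiction.
So `s' ≠ 0`. -/

set_option autoImplicit false

universe w x

namespace Pool.Agent.HFT

variable {D : Type w} [DivisionRing D] {N : Type x} [Group N] {α : N →* D} {τ : N → ℝ}
  {Δ : Subfield D}

/-- finite sums of elements `α a * c` with `c ∈ Δ` -/
def IsPol (α : N →* D) (Δ : Subfield D) (p : D) : Prop :=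
  ∃ (n : ℕ) (a : Fin n → N) (c : Fin n → D), (∀ l, c l ∈ Δ) ∧ p = ∑ l, α (a l) * c l

private theorem conj_mem (h : GrData α τ Δ) (b : N) {x : D} (hx : x ∈ Δ) :
    (α b)⁻¹ * x * α b ∈ Δ := by
  have h1 := h.norm b⁻¹ x hx
  rw [map_inv, inv_inv] at h1
  exact h1

private theorem al_ne (α : N →* D) (b : N) : α b ≠ 0 := ((Group.isUnit b).map α).ne_zero

private theorem swap (α : N →* D) (b : N) (x : D) : x * α b = α b * ((α b)⁻¹ * x * α b) := by
  rw [mul_assoc ((α b)⁻¹), ← mul_assoc (α b) ((α b)⁻¹), mul_inv_cancel₀ (al_ne α b), one_mul]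

private theorem isPol_sum (h : GrData α τ Δ) {ι : Type*} [Fintype ι] (b : ι → N) (x : ι → D)
    (hx : ∀ i, x i ∈ Δ) : IsPol α Δ (∑ i, x i * α (b i)) := by
  let e := Fintype.equivFin ι
  refine ⟨Fintype.card ι, fun l => b (e.symm l),
    fun l => (α (b (e.symm l)))⁻¹ * x (e.symm l) * α (b (e.symm l)),
    fun l => conj_mem h _ (hx _), ?_⟩
  rw [← Equiv.sum_comp e.symm]
  exact Finset.sum_congr rfl fun l _ => swap α _ _

private theorem indep_sum (h : GrData α τ Δ) {ι : Type*} [Fintype ι] (b : ι → N) (x : ι → D)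
    (hinj : Function.Injective (fun i => τ (b i))) (hx : ∀ i, x i ∈ Δ)
    (h0 : ∑ i, x i * α (b i) = 0) (i : ι) : x i = 0 := by
  let e := Fintype.equivFin ι
  have h1 := h.ind (Fintype.card ι) (fun l => b (e.symm l))
    (fun l => (α (b (e.symm l)))⁻¹ * x (e.symm l) * α (b (e.symm l)))
    (fun l l' hl => e.symm.injective (hinj hl)) (fun l => conj_mem h _ (hx _)) (by
      rw [← h0, ← Equiv.sum_comp e.symm]
      exact (Finset.sum_congr rfl fun l _ => swap α _ _).symm) (e i)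
  simp only [Equiv.symm_apply_apply] at h1
  have h2 := swap α (b i) (x i)
  rw [h1, mul_zero] at h2
  exact (mul_eq_zero.1 h2).resolve_right (al_ne α _)

/-- growth -/
private theorem growth {κ : Type*} [Fintype κ] (V : ℕ → Finset ℝ) (h1 : (V 1).Nonempty)
    (hV : ∀ n, (V n).card ≤ n ^ Fintype.card κ) :
    ∃ n, (V (n + 1)).card < 2 * (V n).card := by
  by_contra hcon
  push Not at hcon
  have h2 : ∀ n, 2 ^ n ≤ (V (n + 1)).card := by
    intro n
    induction n with
    | zero => exact h1.card_pos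
    | succ n ih =>
      have := hcon (n + 1)
      rw [pow_succ]
      omega
  have h3 := tendsto_pow_const_div_const_pow_of_one_lt (Fintype.card κ) (r := (2 : ℝ)) (by norm_num)
  have h4 : ∀ᶠ n : ℕ in Filter.atTop, (n : ℝ) ^ Fintype.card κ / 2 ^ n < 1 / 2 :=
    h3.eventually_lt_const (by norm_num)
  obtain ⟨n, hn, hn1⟩ := (h4.and (Filter.eventually_ge_atTop 1)).exists
  obtain ⟨m, rfl⟩ : ∃ m, n = m + 1 := ⟨n - 1, by omega⟩
  have h5 : (2 : ℝ) ^ m ≤ ((m + 1 : ℕ) : ℝ) ^ Fintype.card κ := by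
    exact_mod_cast (h2 m).trans (hV (m + 1))
  rw [div_lt_iff₀ (by positivity), pow_succ] at hn
  linarith

/-- Ore condition -/
theorem ore (h : GrData α τ Δ) {p s : D} (hp : IsPol α Δ p) (hs : IsPol α Δ s) (hs0 : s ≠ 0) :
    ∃ p' s' : D, IsPol α Δ p' ∧ IsPol α Δ s' ∧ s' ≠ 0 ∧ s' * p = p' * s := by
  classical
  obtain ⟨n1, a1, c1, hc1, hp⟩ := hp
  obtain ⟨n2, a2, c2, hc2, hs⟩ := hs
  -- the common family
  obtain ⟨κ, _, g, cp, cs, hcp, hcs, hp, hs⟩ : ∃ (κ : Type) (_ : Fintype κ) (g : κ → N)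
      (cp cs : κ → D), (∀ i, cp i ∈ Δ) ∧ (∀ i, cs i ∈ Δ) ∧ p = ∑ i, α (g i) * cp i ∧
        s = ∑ i, α (g i) * cs i := by
    refine ⟨Fin n1 ⊕ Fin n2, inferInstance, Sum.elim a1 a2, Sum.elim c1 (fun _ => 0),
      Sum.elim (fun _ => 0) c2, ?_, ?_, ?_, ?_⟩
    · rintro (i | i)
      · exact hc1 i
      · exact Δ.zero_mem
    · rintro (i | i)
      · exact Δ.zero_mem
      · exact hc2 i
    · rw [hp, Fintype.sum_sum_type]
      simp
    · rw [hs, Fintype.sum_sum_type]
      simp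
  have hτ1 : τ 1 = 0 := by
    have := h.hτ 1 1
    rw [mul_one] at this
    linarith
  obtain ⟨V, hVdef⟩ : ∃ V : ℕ → Finset ℝ, V = fun n =>
      (Fintype.piFinset (fun _ : κ => Finset.range n)).image (fun k => ∑ i, (k i) • τ (g i)) :=
    ⟨_, rfl⟩
  have hmem : ∀ n v, v ∈ V n ↔ ∃ k : κ → ℕ, (∀ i, k i < n) ∧ ∑ i, (k i) • τ (g i) = v := by
    intro n v
    rw [hVdef]
    simp only [Finset.mem_image, Fintype.mem_piFinset, Finset.mem_range]
  have hcard : ∀ n, (V n).card ≤ n ^ Fintype.card κ := by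
    intro n
    rw [hVdef]
    refine Finset.card_image_le.trans ?_
    rw [Fintype.card_piFinset]
    simp
  have hV1 : (V 1).Nonempty := ⟨0, (hmem 1 0).2 ⟨fun _ => 0, fun _ => by norm_num, by simp⟩⟩
  obtain ⟨n, hn⟩ := growth (κ := κ) V hV1 hcard
  -- representatives
  have hrep : ∀ k : κ → ℕ, ∃ b, τ b = ∑ i, (k i) • τ (g i) := by
    intro k
    let S : AddSubmonoid ℝ :=
      { carrier := Set.range τ
        zero_mem' := ⟨1, hτ1⟩
        add_mem' := by
          rintro _ _ ⟨a, rfl⟩ ⟨b, rfl⟩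
          exact ⟨a * b, h.hτ a b⟩ }
    have h0 : ∀ i, τ (g i) ∈ S := fun i => ⟨g i, rfl⟩
    have h1 : ∑ i, (k i) • τ (g i) ∈ S := sum_mem fun i _ => nsmul_mem (h0 i) _
    obtain ⟨b, hb⟩ := h1
    exact ⟨b, hb⟩
  have hrep2 : ∀ n, ∃ b : ℝ → N, ∀ v ∈ V n, τ (b v) = v := by
    intro n
    have h1 : ∀ v : ℝ, ∃ b : N, v ∈ V n → τ b = v := by
      intro v
      by_cases hv : v ∈ V n
      · obtain ⟨k, -, hk⟩ := (hmem n v).1 hv
        obtain ⟨b, hb⟩ := hrep k
        exact ⟨b, fun _ => hb.trans hk⟩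
      · exact ⟨1, fun h => absurd h hv⟩
    choose b hb using h1
    exact ⟨b, hb⟩
  obtain ⟨b, hb⟩ := hrep2 n
  obtain ⟨b', hb'⟩ := hrep2 (n + 1)
  have hstep : ∀ v ∈ V n, ∀ i, v + τ (g i) ∈ V (n + 1) := by
    intro v hv i
    obtain ⟨k, hk, hkv⟩ := (hmem n v).1 hv
    refine (hmem (n + 1) _).2 ⟨fun j => k j + if j = i then 1 else 0, ?_, ?_⟩
    · intro j
      have := hk j
      dsimp only
      split_ifs <;> omega
    · simp only [add_smul, Finset.sum_add_distrib, ite_smul, one_smul, zero_smul,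
        Finset.sum_ite_eq', Finset.mem_univ, if_true]
      rw [hkv]
  -- expansion
  have hexp : ∀ (c : κ → D), (∀ i, c i ∈ Δ) → ∀ v ∈ V n, ∃ A : ℝ → D,
      (∀ v' ∈ V (n + 1), A v' ∈ Δ) ∧
        α (b v) * ∑ i, α (g i) * c i = ∑ v' ∈ V (n + 1), A v' * α (b' v') := by
    intro c hc v hv
    refine ⟨fun v' => ∑ i, if v + τ (g i) = v' then α (b v * g i) * c i * (α (b' v'))⁻¹ else 0,
      ?_, ?_⟩
    · intro v' hv'
      refine sum_mem fun i _ => ?_
      split_ifs with h1
      · have h2 : α (b v * g i) * c i * (α (b' v'))⁻¹ =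
            (α (b v * g i) * c i * (α (b v * g i))⁻¹) * α (b v * g i * (b' v')⁻¹) := by
          rw [map_mul α (b v * g i) ((b' v')⁻¹), map_inv, ← mul_assoc,
            mul_assoc (α (b v * g i) * c i) ((α (b v * g i))⁻¹),
            inv_mul_cancel₀ (al_ne α _), mul_one]
        rw [h2]
        have h5 := h.norm (b v * g i) _ (hc i)
        rw [map_inv] at h5
        refine Δ.mul_mem h5 (h.ker _ ?_)
        have h3 : τ ((b' v')⁻¹) = - v' := by
          have h4 := h.hτ (b' v') ((b' v')⁻¹)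
          rw [mul_inv_cancel, hτ1, hb' v' hv'] at h4
          linarith
        rw [h.hτ, h.hτ, h3, hb v hv, h1]
        ring
      · exact Δ.zero_mem
    · have h1 : ∀ v' ∈ V (n + 1), (∑ i, if v + τ (g i) = v' then
          α (b v * g i) * c i * (α (b' v'))⁻¹ else 0) * α (b' v') =
          ∑ i, if v + τ (g i) = v' then α (b v * g i) * c i else 0 := by
        intro v' _
        rw [Finset.sum_mul]
        refine Finset.sum_congr rfl fun i _ => ?_
        split_ifs
        · rw [mul_assoc, inv_mul_cancel₀ (al_ne α _), mul_one]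
        · rw [zero_mul]
      rw [Finset.sum_congr rfl h1, Finset.sum_comm, Finset.mul_sum]
      refine Finset.sum_congr rfl fun i _ => ?_
      rw [Finset.sum_ite_eq, if_pos (hstep v hv i), map_mul, mul_assoc]
  have hexpP : ∀ v : {v // v ∈ V n}, ∃ A : {v // v ∈ V (n + 1)} → Δ,
      α (b v.1) * p = ∑ v' : {v // v ∈ V (n + 1)}, (A v' : D) * α (b' v'.1) := by
    intro v
    obtain ⟨A, hA, hA2⟩ := hexp cp hcp v.1 v.2
    refine ⟨fun v' => ⟨A v'.1, hA v'.1 v'.2⟩, ?_⟩
    rw [hp, hA2]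
    exact (Finset.sum_coe_sort (V (n + 1)) (fun v' => A v' * α (b' v'))).symm
  have hexpS : ∀ v : {v // v ∈ V n}, ∃ A : {v // v ∈ V (n + 1)} → Δ,
      α (b v.1) * s = ∑ v' : {v // v ∈ V (n + 1)}, (A v' : D) * α (b' v'.1) := by
    intro v
    obtain ⟨A, hA, hA2⟩ := hexp cs hcs v.1 v.2
    refine ⟨fun v' => ⟨A v'.1, hA v'.1 v'.2⟩, ?_⟩
    rw [hs, hA2]
    exact (Finset.sum_coe_sort (V (n + 1)) (fun v' => A v' * α (b' v'))).symm
  choose A hA using hexpP
  choose B hB using hexpS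
  -- the linear map
  let M : Matrix ({v // v ∈ V n} ⊕ {v // v ∈ V n}) {v // v ∈ V (n + 1)} Δ :=
    fun i v' => Sum.elim (fun v => A v v') (fun v => B v v') i
  have hni : ¬ Function.Injective (Matrix.vecMulLinear M) := by
    intro hinj
    have h1 := LinearMap.finrank_le_finrank_of_injective hinj
    rw [Module.finrank_fintype_fun_eq_card, Module.finrank_fintype_fun_eq_card,
      Fintype.card_sum, Fintype.card_coe, Fintype.card_coe] at h1
    omega
  rw [← LinearMap.ker_eq_bot, Submodule.eq_bot_iff] at hni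
  push Not at hni
  obtain ⟨z, hz, hz0⟩ := hni
  rw [LinearMap.mem_ker] at hz
  have hzv : ∀ v', ∑ v, (z (Sum.inl v) : D) * A v v' + ∑ v, (z (Sum.inr v) : D) * B v v' = 0 := by
    intro v'
    have h1 := congrFun hz v'
    have h2 : Matrix.vecMulLinear M z v' = ∑ i, z i * M i v' := rfl
    rw [h2, Fintype.sum_sum_type] at h1
    have h3 := congrArg (fun t : Δ => (t : D)) h1
    push_cast at h3
    exact h3
  have hkey : (∑ v : {v // v ∈ V n}, (z (Sum.inl v) : D) * α (b v.1)) * p +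
      (∑ v : {v // v ∈ V n}, (z (Sum.inr v) : D) * α (b v.1)) * s = 0 := by
    have e1 : (∑ v : {v // v ∈ V n}, (z (Sum.inl v) : D) * α (b v.1)) * p =
        ∑ v' : {v // v ∈ V (n + 1)}, (∑ v, (z (Sum.inl v) : D) * A v v') * α (b' v'.1) := by
      rw [Finset.sum_mul]
      simp only [Finset.sum_mul, mul_assoc, hA, Finset.mul_sum]
      rw [Finset.sum_comm]
    have e2 : (∑ v : {v // v ∈ V n}, (z (Sum.inr v) : D) * α (b v.1)) * s =
        ∑ v' : {v // v ∈ V (n + 1)}, (∑ v, (z (Sum.inr v) : D) * B v v') * α (b' v'.1) := by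
      rw [Finset.sum_mul]
      simp only [Finset.sum_mul, mul_assoc, hB, Finset.mul_sum]
      rw [Finset.sum_comm]
    rw [e1, e2, ← Finset.sum_add_distrib]
    refine Finset.sum_eq_zero fun v' _ => ?_
    rw [← add_mul, hzv v', zero_mul]
  have hinjV : Function.Injective (fun v : {v // v ∈ V n} => τ (b v.1)) := by
    intro v v' hvv
    simp only [hb v.1 v.2, hb v'.1 v'.2] at hvv
    exact Subtype.ext hvv
  refine ⟨∑ v : {v // v ∈ V n}, (-(z (Sum.inr v) : D)) * α (b v.1),
    ∑ v : {v // v ∈ V n}, (z (Sum.inl v) : D) * α (b v.1),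
    isPol_sum h _ _ (fun v => Δ.neg_mem (z (Sum.inr v)).2),
    isPol_sum h _ _ (fun v => (z (Sum.inl v)).2), ?_, ?_⟩
  · intro h0
    rw [h0, zero_mul, zero_add] at hkey
    have h1 := (mul_eq_zero.1 hkey).resolve_right hs0
    apply hz0
    funext i
    rcases i with v | v
    · exact Subtype.ext (indep_sum h _ _ hinjV (fun v => (z (Sum.inl v)).2) h0 v)
    · exact Subtype.ext (indep_sum h _ _ hinjV (fun v => (z (Sum.inr v)).2) h1 v)
  · have h1 : (∑ v : {v // v ∈ V n}, (-(z (Sum.inr v) : D)) * α (b v.1)) =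
        -∑ v : {v // v ∈ V n}, (z (Sum.inr v) : D) * α (b v.1) := by
      rw [← Finset.sum_neg_distrib]
      exact Finset.sum_congr rfl fun v _ => neg_mul _ _
    rw [h1, neg_mul, eq_neg_iff_add_eq_zero]
    exact hkey

end Pool.Agent.HFT
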