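import Pool.Agent.HFT.OVa
import Pool.Agent.HFT.OVb

/-! # HFT/OV: existence and uniqueness of the valuation (helper49; proof by helper81)

PROOF. `IsPol α Δ` is the set of elements having a decomposition (`OVa`): it is a subring
containing `Δ` and `α`. By `ore` the set `E₀ = {s⁻¹ p : s, p polynomials, s ≠ 0}` is closed under
addition (`s⁻¹p + t⁻¹q`: take `s's = t't` =: m ≠ 0 common left multiple from `ore` applied to
`(p,s) := (s,t)`, i.e. `s' s = t' t`, then `s⁻¹p = m⁻¹ s'p`, `t⁻¹q = m⁻¹ t'q`), multiplication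
(`s⁻¹p t⁻¹q`: `t'p = p't`, so `p t⁻¹ = t'⁻¹p'` and the product is `(t's)⁻¹ (p'q)`), negation and
inverses, so it contains `Subfield.closure (Δ ∪ range α)` (and conversely).
For a polynomial `p ≠ 0` let `w p` be the smallest degree of its decomposition, `w 0 = ⊤`.
`w (pq) = w p + w q` (`dec_mul`), `min (w p) (w q) ≤ w (p+q)` (`dec_add`).
Define `v z := w p - w s` for `z = s⁻¹ p` (any such representation, `⊤` if `z = 0`; `0` for `z`
outside the closure). Independence: if `s⁻¹p = t⁻¹q` take `s's = t't ≠ 0`; then `s'p = t'q`, so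
`w s' + w s = w t' + w t` and `w s' + w p = w t' + w q`, subtract. Multiplicativity, the
ultrametric inequality, `const`, `deg`, `top` follow from the formulas above.
Uniqueness: two such `v, v'` agree on homogeneous nonzero elements `α a c` (value `τ a`), on
polynomials (a sum of elements with pairwise different values has value the minimum: for
`v x < v y` one has `v (x+y) = v x`, from the ultrametric inequality applied to
`x = (x+y) + (-y)` and `v(-y) = v y`, as `v(-1) = 0`), and on `s⁻¹p` by `mul`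
(`v p = v s + v (s⁻¹ p)`). -/

set_option autoImplicit false

universe w x

namespace Pool.Agent.HFT

variable {D : Type w} [DivisionRing D] {N : Type x} [Group N] {α : N →* D} {τ : N → ℝ}
  {Δ : Subfield D}

namespace OVaux

theorem add_cancel {a b c : WithTop ℝ} (ha : a ≠ ⊤) (h : a + b = a + c) : b = c := by
  induction a using WithTop.recTopCoe with
  | top => exact absurd rfl ha
  | coe a =>
    induction b using WithTop.recTopCoe with
    | top =>
      induction c using WithTop.recTopCoe with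
      | top => rfl
      | coe c =>
        exfalso
        rw [WithTop.add_top] at h
        exact WithTop.coe_ne_top (a := a + c) (by rw [WithTop.coe_add]; exact h.symm)
    | coe b =>
      induction c using WithTop.recTopCoe with
      | top =>
        exfalso
        rw [WithTop.add_top] at h
        exact WithTop.coe_ne_top (a := a + b) (by rw [WithTop.coe_add]; exact h)
      | coe c =>
        rw [← WithTop.coe_add, ← WithTop.coe_add] at h
        have := WithTop.coe_injective h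
        rw [add_left_cancel this]

theorem le_cancel {a b c : WithTop ℝ} (ha : a ≠ ⊤) (h : a + b ≤ a + c) : b ≤ c := by
  induction a using WithTop.recTopCoe with
  | top => exact absurd rfl ha
  | coe a =>
    induction c using WithTop.recTopCoe with
    | top => exact le_top
    | coe c =>
      induction b using WithTop.recTopCoe with
      | top =>
        exfalso
        rw [WithTop.add_top, ← WithTop.coe_add] at h
        exact WithTop.coe_ne_top (top_le_iff.mp h)
      | coe b =>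
        rw [← WithTop.coe_add, ← WithTop.coe_add] at h
        have := WithTop.coe_le_coe.mp h
        exact WithTop.coe_le_coe.mpr (by linarith)

theorem exists_sub {a b : WithTop ℝ} (ha : a ≠ ⊤) : ∃ r, b = a + r := by
  induction a using WithTop.recTopCoe with
  | top => exact absurd rfl ha
  | coe a =>
    induction b using WithTop.recTopCoe with
    | top => exact ⟨⊤, by rw [WithTop.add_top]⟩
    | coe b => exact ⟨((b - a : ℝ) : WithTop ℝ), by rw [← WithTop.coe_add]; congr 1; ring⟩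

theorem add_ne_top' {a b : WithTop ℝ} (ha : a ≠ ⊤) (hb : b ≠ ⊤) : a + b ≠ ⊤ := by
  intro h
  rcases WithTop.add_eq_top.mp h with h | h
  · exact ha h
  · exact hb h

/-! ### polynomials -/

theorem isPol_zero : IsPol α Δ (0 : D) :=
  ⟨0, Fin.elim0, Fin.elim0, fun l => l.elim0, by simp⟩

theorem isPol_mono {a : N} {c : D} (hc : c ∈ Δ) : IsPol α Δ (α a * c) :=
  ⟨1, fun _ => a, fun _ => c, fun _ => hc, by simp⟩

theorem isPol_add {p q : D} (hp : IsPol α Δ p) (hq : IsPol α Δ q) : IsPol α Δ (p + q) := by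
  obtain ⟨n, a, c, hc, rfl⟩ := hp
  obtain ⟨m, b, e, he, rfl⟩ := hq
  refine ⟨n + m, Fin.append a b, Fin.append c e, ?_, ?_⟩
  · intro l
    refine Fin.addCases (fun i => ?_) (fun i => ?_) l
    · rw [Fin.append_left]; exact hc i
    · rw [Fin.append_right]; exact he i
  · rw [Fin.sum_univ_add]
    simp only [Fin.append_left, Fin.append_right]

theorem isPol_sum {ι : Type*} (F : Finset ι) (u : ι → D) (h : ∀ d ∈ F, IsPol α Δ (u d)) :
    IsPol α Δ (∑ d ∈ F, u d) := by
  classical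
  induction F using Finset.induction_on with
  | empty => rw [Finset.sum_empty]; exact isPol_zero
  | insert a F ha ih =>
    rw [Finset.sum_insert ha]
    exact isPol_add (h a (Finset.mem_insert_self a F))
      (ih fun d hd => h d (Finset.mem_insert_of_mem hd))

theorem isPol_of_dec {p : D} {F : Finset ℝ} {u : ℝ → D} (h : IsDec α τ Δ p F u) :
    IsPol α Δ p := by
  obtain ⟨h1, h2, h3⟩ := h
  rw [h3]
  refine isPol_sum F u fun d hd => ?_
  obtain ⟨a, _, c, hc, hz⟩ := h1 d hd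
  rw [hz]
  exact isPol_mono hc

theorem dec_mono (a : N) {c : D} (hc : c ∈ Δ) (hc0 : c ≠ 0) (ha : α a ≠ 0) :
    IsDec α τ Δ (α a * c) {τ a} (fun _ => α a * c) := by
  refine ⟨?_, ?_, by simp⟩
  · intro d hd
    rw [Finset.mem_singleton] at hd
    subst hd
    exact ⟨a, rfl, c, hc, rfl⟩
  · intro d _
    exact mul_ne_zero ha hc0

theorem al_ne_zero (a : N) : α a ≠ 0 := by
  intro h
  have h1 : α (a * a⁻¹) = 0 := by rw [map_mul, h, zero_mul]
  rw [mul_inv_cancel, map_one] at h1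
  exact one_ne_zero h1

theorem exists_dec (h : GrData α τ Δ) {p : D} (hp : IsPol α Δ p) :
    ∃ F u, IsDec α τ Δ p F u := by
  obtain ⟨n, a, c, hc, rfl⟩ := hp
  have key : ∀ G : Finset (Fin n), ∃ F u, IsDec α τ Δ (∑ l ∈ G, α (a l) * c l) F u := by
    intro G
    classical
    induction G using Finset.induction_on with
    | empty =>
      rw [Finset.sum_empty]
      exact ⟨∅, _, dec_zero⟩
    | insert i G hi ih =>
      rw [Finset.sum_insert hi]
      obtain ⟨F, u, hF⟩ := ih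
      by_cases hci : c i = 0
      · rw [hci, mul_zero, zero_add]
        exact ⟨F, u, hF⟩
      · obtain ⟨F'', u'', h'', _⟩ := dec_add h (dec_mono (τ := τ) (a i) (hc i) hci
          (al_ne_zero (a i))) hF
        exact ⟨F'', u'', h''⟩
  exact key Finset.univ

/-! ### the weight -/

/-- `r` is the smallest degree of `p` -/
def IsW (α : N →* D) (τ : N → ℝ) (Δ : Subfield D) (p : D) (r : WithTop ℝ) : Prop :=
  ∃ F u, IsDec α τ Δ p F u ∧ F.min = r

theorem IsW.pol {p : D} {r : WithTop ℝ} (h : IsW α τ Δ p r) : IsPol α Δ p := by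
  obtain ⟨F, u, h1, _⟩ := h
  exact isPol_of_dec h1

theorem exists_isW (h : GrData α τ Δ) {p : D} (hp : IsPol α Δ p) : ∃ r, IsW α τ Δ p r := by
  obtain ⟨F, u, h1⟩ := exists_dec h hp
  exact ⟨_, F, u, h1, rfl⟩

theorem IsW.unique (h : GrData α τ Δ) {p : D} {r r' : WithTop ℝ} (h1 : IsW α τ Δ p r)
    (h2 : IsW α τ Δ p r') : r = r' := by
  obtain ⟨F, u, h1, rfl⟩ := h1
  obtain ⟨F', u', h2, rfl⟩ := h2
  rw [(dec_unique h h1 h2).1]

theorem IsW.ne_top {p : D} {r : WithTop ℝ} (h1 : IsW α τ Δ p r) (hp : p ≠ 0) : r ≠ ⊤ := by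
  obtain ⟨F, u, h1, rfl⟩ := h1
  intro h
  rw [Finset.min_eq_top] at h
  subst h
  apply hp
  rw [h1.2.2, Finset.sum_empty]

theorem isW_zero : IsW α τ Δ (0 : D) ⊤ := ⟨∅, _, dec_zero, Finset.min_empty⟩

theorem IsW.mul (h : GrData α τ Δ) {p q : D} {r r' : WithTop ℝ} (h1 : IsW α τ Δ p r)
    (h2 : IsW α τ Δ q r') : IsW α τ Δ (p * q) (r + r') := by
  by_cases hp : p = 0
  · subst hp
    have := h1.unique h isW_zero
    subst this
    rw [zero_mul, WithTop.top_add]
    exact isW_zero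
  by_cases hq : q = 0
  · subst hq
    have := h2.unique h isW_zero
    subst this
    rw [mul_zero, WithTop.add_top]
    exact isW_zero
  have hr := h1.ne_top hp
  have hr' := h2.ne_top hq
  obtain ⟨F, u, h1, rfl⟩ := h1
  obtain ⟨F', u', h2, rfl⟩ := h2
  have hF : F.Nonempty := by
    rw [Finset.nonempty_iff_ne_empty]
    intro hh
    exact hr (Finset.min_eq_top.mpr hh)
  have hF' : F'.Nonempty := by
    rw [Finset.nonempty_iff_ne_empty]
    intro hh
    exact hr' (Finset.min_eq_top.mpr hh)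
  obtain ⟨F'', u'', h'', _, hne, hmin⟩ := dec_mul h h1 h2 hF hF'
  refine ⟨F'', u'', h'', ?_⟩
  rw [← Finset.coe_min' hne, ← Finset.coe_min' hF, ← Finset.coe_min' hF', hmin,
    WithTop.coe_add]

theorem IsW.add (h : GrData α τ Δ) {p q : D} {r r' : WithTop ℝ} (h1 : IsW α τ Δ p r)
    (h2 : IsW α τ Δ q r') : ∃ r'', IsW α τ Δ (p + q) r'' ∧ min r r' ≤ r'' := by
  obtain ⟨F, u, h1, rfl⟩ := h1
  obtain ⟨F', u', h2, rfl⟩ := h2
  obtain ⟨F'', u'', h'', hsub⟩ := dec_add h h1 h2
  refine ⟨_, ⟨F'', u'', h'', rfl⟩, ?_⟩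
  rw [Finset.le_min_iff]
  intro b hb
  rcases Finset.mem_union.mp (hsub hb) with hb | hb
  · exact le_trans (min_le_left _ _) (Finset.min_le hb)
  · exact le_trans (min_le_right _ _) (Finset.min_le hb)

theorem IsW.neg {p : D} {r : WithTop ℝ} (h1 : IsW α τ Δ p r) : IsW α τ Δ (-p) r := by
  obtain ⟨F, u, h1, rfl⟩ := h1
  exact ⟨F, _, dec_neg h1, rfl⟩

theorem isW_const (h : GrData α τ Δ) {x : D} (hx : x ∈ Δ) (hx0 : x ≠ 0) : IsW α τ Δ x 0 := by
  obtain ⟨u, hu⟩ := dec_const h hx hx0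
  exact ⟨{0}, u, hu, by rw [Finset.min_singleton]; rfl⟩

theorem isW_al (h : GrData α τ Δ) (a : N) : IsW α τ Δ (α a) ((τ a : ℝ) : WithTop ℝ) := by
  obtain ⟨u, hu⟩ := dec_al h a
  exact ⟨{τ a}, u, hu, by rw [Finset.min_singleton]⟩

/-! ### the valuation -/

/-- `r` is the value of `z` -/
def IsV (α : N →* D) (τ : N → ℝ) (Δ : Subfield D) (z : D) (r : WithTop ℝ) : Prop :=
  ∃ s a, s ≠ 0 ∧ IsW α τ Δ s a ∧ IsW α τ Δ (s * z) (a + r)

theorem IsV.of_isW (h : GrData α τ Δ) {z : D} {r : WithTop ℝ} (hz : IsW α τ Δ z r) :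
    IsV α τ Δ z r :=
  ⟨1, 0, one_ne_zero, isW_const h Δ.one_mem one_ne_zero, by rwa [one_mul, zero_add]⟩

theorem IsV.unique (h : GrData α τ Δ) {z : D} {r r' : WithTop ℝ} (h1 : IsV α τ Δ z r)
    (h2 : IsV α τ Δ z r') : r = r' := by
  obtain ⟨s, a, hs0, hs, hsz⟩ := h1
  obtain ⟨t, c, ht0, ht, htz⟩ := h2
  obtain ⟨p', s', hp', hs', hs'0, he⟩ := ore h ht.pol hs.pol hs0
  obtain ⟨f, hf⟩ := exists_isW h hp'
  obtain ⟨e, hee⟩ := exists_isW h hs'
  have e1 : e + c = f + a := (hee.mul h ht).unique h (by rw [he]; exact hf.mul h hs)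
  have e2 : e + (c + r') = f + (a + r) := by
    have hx : IsW α τ Δ (s' * (t * z)) (e + (c + r')) := hee.mul h htz
    have hy : IsW α τ Δ (p' * (s * z)) (f + (a + r)) := hf.mul h hsz
    rw [← mul_assoc] at hx hy
    rw [he] at hx
    exact hx.unique h hy
  have hne : e + c ≠ ⊤ := add_ne_top' (hee.ne_top hs'0) (ht.ne_top ht0)
  rw [← add_assoc, ← add_assoc, ← e1] at e2
  exact (add_cancel hne e2).symm

theorem IsV.exists (h : GrData α τ Δ) {z s : D} (hs0 : s ≠ 0) (hs : IsPol α Δ s)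
    (hz : IsPol α Δ (s * z)) : ∃ r, IsV α τ Δ z r := by
  obtain ⟨a, ha⟩ := exists_isW h hs
  obtain ⟨b, hb⟩ := exists_isW h hz
  obtain ⟨r, hr⟩ := exists_sub (b := b) (ha.ne_top hs0)
  exact ⟨r, s, a, hs0, ha, hr ▸ hb⟩

theorem IsV.mul (h : GrData α τ Δ) {z z' : D} {r r' : WithTop ℝ} (h1 : IsV α τ Δ z r)
    (h2 : IsV α τ Δ z' r') : IsV α τ Δ (z * z') (r + r') := by
  obtain ⟨s, a, hs0, hs, hsz⟩ := h1
  obtain ⟨t, c, ht0, ht, htz⟩ := h2
  obtain ⟨p', s', hp', hs', hs'0, he⟩ := ore h hsz.pol ht.pol ht0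
  obtain ⟨f, hf⟩ := exists_isW h hp'
  obtain ⟨e, hee⟩ := exists_isW h hs'
  have e1 : e + (a + r) = f + c := (hee.mul h hsz).unique h (by rw [he]; exact hf.mul h ht)
  refine ⟨s' * s, e + a, mul_ne_zero hs'0 hs0, hee.mul h hs, ?_⟩
  have e3 : s' * s * (z * z') = p' * (t * z') := by
    calc s' * s * (z * z') = s' * (s * z) * z' := by simp only [mul_assoc]
      _ = p' * t * z' := by rw [he]
      _ = p' * (t * z') := by rw [mul_assoc]
  rw [e3]
  have e4 : e + a + (r + r') = f + (c + r') := by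
    rw [← add_assoc, ← add_assoc, ← e1, ← add_assoc]
  rw [e4]
  exact hf.mul h htz

theorem IsV.add (h : GrData α τ Δ) {z z' : D} {r r' : WithTop ℝ} (h1 : IsV α τ Δ z r)
    (h2 : IsV α τ Δ z' r') : ∃ r'', IsV α τ Δ (z + z') r'' ∧ min r r' ≤ r'' := by
  obtain ⟨s, a, hs0, hs, hsz⟩ := h1
  obtain ⟨t, c, ht0, ht, htz⟩ := h2
  obtain ⟨p', s', hp', hs', hs'0, he⟩ := ore h ht.pol hs.pol hs0
  obtain ⟨f, hf⟩ := exists_isW h hp'
  obtain ⟨e, hee⟩ := exists_isW h hs'
  have e1 : e + c = f + a := (hee.mul h ht).unique h (by rw [he]; exact hf.mul h hs)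
  have hne : e + c ≠ ⊤ := add_ne_top' (hee.ne_top hs'0) (ht.ne_top ht0)
  have hm0 : s' * t ≠ 0 := mul_ne_zero hs'0 ht0
  have hx : IsW α τ Δ (s' * t * z') (e + c + r') := by
    rw [mul_assoc, add_assoc]; exact hee.mul h htz
  have hy : IsW α τ Δ (s' * t * z) (e + c + r) := by
    rw [he, e1, mul_assoc, add_assoc]; exact hf.mul h hsz
  obtain ⟨b, hb, hle⟩ := hy.add h hx
  obtain ⟨r'', hr''⟩ := exists_sub (b := b) hne
  refine ⟨r'', ⟨s' * t, e + c, hm0, hee.mul h ht, ?_⟩, ?_⟩
  · rw [mul_add, ← hr'']; exact hb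
  · apply le_cancel hne
    rw [← hr'']
    refine le_trans ?_ hle
    rcases le_total r r' with hrr | hrr
    · rw [min_eq_left hrr]
      exact le_min le_rfl (by gcongr)
    · rw [min_eq_right hrr]
      exact le_min (by gcongr) le_rfl

theorem isV_zero (h : GrData α τ Δ) : IsV α τ Δ (0 : D) ⊤ := IsV.of_isW h isW_zero

theorem IsV.eq_zero {z : D} (h1 : IsV α τ Δ z ⊤) : z = 0 := by
  obtain ⟨s, a, hs0, hs, hsz⟩ := h1
  by_contra hz
  exact hsz.ne_top (mul_ne_zero hs0 hz) (WithTop.add_top _)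

/-- the Ore fractions -/
def IsFr (α : N →* D) (Δ : Subfield D) (z : D) : Prop :=
  ∃ s, s ≠ 0 ∧ IsPol α Δ s ∧ IsPol α Δ (s * z)

theorem isPol_one : IsPol α Δ (1 : D) := by
  have := isPol_mono (α := α) (Δ := Δ) (a := 1) Δ.one_mem
  rwa [map_one, mul_one] at this

theorem isPol_mul (h : GrData α τ Δ) {p q : D} (hp : IsPol α Δ p) (hq : IsPol α Δ q) :
    IsPol α Δ (p * q) := by
  obtain ⟨a, ha⟩ := exists_isW h hp
  obtain ⟨b, hb⟩ := exists_isW h hq
  exact (ha.mul h hb).pol

theorem isPol_neg (h : GrData α τ Δ) {p : D} (hp : IsPol α Δ p) : IsPol α Δ (-p) := by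
  obtain ⟨a, ha⟩ := exists_isW h hp
  exact ha.neg.pol

theorem isFr_of_isPol {z : D} (hz : IsPol α Δ z) : IsFr α Δ z :=
  ⟨1, one_ne_zero, isPol_one, by rwa [one_mul]⟩

theorem IsFr.exists (h : GrData α τ Δ) {z : D} (hz : IsFr α Δ z) : ∃ r, IsV α τ Δ z r := by
  obtain ⟨s, hs0, hs, hz⟩ := hz
  exact IsV.exists h hs0 hs hz

theorem IsV.fr {z : D} {r : WithTop ℝ} (hz : IsV α τ Δ z r) : IsFr α Δ z := by
  obtain ⟨s, a, hs0, hs, hsz⟩ := hz
  exact ⟨s, hs0, hs.pol, hsz.pol⟩

theorem isFr_of_mem (h : GrData α τ Δ) {z : D}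
    (hz : z ∈ Subfield.closure ((Δ : Set D) ∪ Set.range α)) : IsFr α Δ z := by
  induction hz using Subfield.closure_induction with
  | mem x hx =>
    rcases hx with hx | ⟨a, rfl⟩
    · apply isFr_of_isPol
      have := isPol_mono (α := α) (Δ := Δ) (a := 1) (c := x) hx
      rwa [map_one, one_mul] at this
    · apply isFr_of_isPol
      have := isPol_mono (α := α) (Δ := Δ) (a := a) Δ.one_mem
      rwa [mul_one] at this
  | one => exact isFr_of_isPol isPol_one
  | add x y _ _ hx hy =>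
    obtain ⟨r, hr⟩ := hx.exists h
    obtain ⟨r', hr'⟩ := hy.exists h
    obtain ⟨_, h'', _⟩ := hr.add h hr'
    exact h''.fr
  | neg x _ hx =>
    obtain ⟨s, hs0, hs, hz⟩ := hx
    exact ⟨s, hs0, hs, by rw [mul_neg]; exact isPol_neg h hz⟩
  | inv x _ hx =>
    by_cases hx0 : x = 0
    · rw [hx0, inv_zero]; exact isFr_of_isPol isPol_zero
    obtain ⟨s, hs0, hs, hz⟩ := hx
    refine ⟨s * x, mul_ne_zero hs0 hx0, hz, ?_⟩
    rw [mul_assoc, mul_inv_cancel₀ hx0, mul_one]
    exact hs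
  | mul x y _ _ hx hy =>
    obtain ⟨r, hr⟩ := hx.exists h
    obtain ⟨r', hr'⟩ := hy.exists h
    exact (hr.mul h hr').fr

open Classical in
/-- the valuation -/
noncomputable def val (α : N →* D) (τ : N → ℝ) (Δ : Subfield D) (z : D) : WithTop ℝ :=
  if h : ∃ r, IsV α τ Δ z r then Classical.choose h else 0

theorem val_spec (h : GrData α τ Δ) {z : D}
    (hz : z ∈ Subfield.closure ((Δ : Set D) ∪ Set.range α)) : IsV α τ Δ z (val α τ Δ z) := by
  have hex := (isFr_of_mem h hz).exists h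
  unfold val
  rw [dif_pos hex]
  exact Classical.choose_spec hex

theorem mem_const {x : D} (hx : x ∈ Δ) :
    x ∈ Subfield.closure ((Δ : Set D) ∪ Set.range α) :=
  Subfield.subset_closure (Or.inl hx)

theorem mem_al (a : N) : α a ∈ Subfield.closure ((Δ : Set D) ∪ Set.range α) :=
  Subfield.subset_closure (Or.inr ⟨a, rfl⟩)

/-! ### uniqueness -/

theorem v_one {v : D → WithTop ℝ} (hv : IsVgen α τ Δ v) : v 1 = 0 :=
  hv.const 1 Δ.one_mem one_ne_zero

theorem v_neg {v : D → WithTop ℝ} (hv : IsVgen α τ Δ v) {x : D}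
    (hx : x ∈ Subfield.closure ((Δ : Set D) ∪ Set.range α)) : v (-x) = v x := by
  have h1 : v (-1) = 0 := hv.const (-1) (Δ.neg_mem Δ.one_mem) (neg_ne_zero.mpr one_ne_zero)
  have h2 : -x = (-1) * x := by rw [neg_mul, one_mul]
  rw [h2, hv.mul (-1) (mem_const (Δ.neg_mem Δ.one_mem)) x hx, h1, zero_add]

theorem v_add_of_lt {v : D → WithTop ℝ} (hv : IsVgen α τ Δ v) {x y : D}
    (hx : x ∈ Subfield.closure ((Δ : Set D) ∪ Set.range α))
    (hy : y ∈ Subfield.closure ((Δ : Set D) ∪ Set.range α)) (hlt : v x < v y) :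
    v (x + y) = v x := by
  apply le_antisymm
  · by_contra hcon
    rw [not_le] at hcon
    have h1 := hv.add (x + y) (add_mem hx hy) (-y) (neg_mem hy)
    rw [v_neg hv hy, add_neg_cancel_right] at h1
    exact absurd (lt_of_lt_of_le (lt_min hcon hlt) h1) (lt_irrefl _)
  · have h1 := hv.add x hx y hy
    rwa [min_eq_left hlt.le] at h1

theorem v_dec {v : D → WithTop ℝ} (hv : IsVgen α τ Δ v) (F : Finset ℝ) (u : ℝ → D)
    (h1 : ∀ d ∈ F, u d ∈ HomSet α τ Δ d) (h2 : ∀ d ∈ F, u d ≠ 0) :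
    (∑ d ∈ F, u d) ∈ Subfield.closure ((Δ : Set D) ∪ Set.range α) ∧
      v (∑ d ∈ F, u d) = F.min := by
  classical
  induction F using Finset.induction_on_min with
  | empty =>
    rw [Finset.sum_empty, Finset.min_empty]
    exact ⟨zero_mem _, (hv.top 0 (zero_mem _)).mpr rfl⟩
  | insert d F hd ih =>
    have hdF : d ∉ F := fun h => absurd (hd d h) (lt_irrefl _)
    obtain ⟨ih1, ih2⟩ := ih (fun x hx => h1 x (Finset.mem_insert_of_mem hx))
      (fun x hx => h2 x (Finset.mem_insert_of_mem hx))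
    have hud : u d ∈ Subfield.closure ((Δ : Set D) ∪ Set.range α) ∧
        v (u d) = ((d : ℝ) : WithTop ℝ) := by
      have hne := h2 d (Finset.mem_insert_self d F)
      obtain ⟨a, ha, c, hc, hz⟩ := h1 d (Finset.mem_insert_self d F)
      rw [hz] at hne ⊢
      refine ⟨mul_mem (mem_al a) (mem_const hc), ?_⟩
      rw [hv.mul _ (mem_al a) _ (mem_const hc), hv.deg a,
        hv.const c hc (right_ne_zero_of_mul hne), add_zero, ha]
    have hlt : ((d : ℝ) : WithTop ℝ) < F.min := by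
      by_cases hF : F.Nonempty
      · rw [← Finset.coe_min' hF]
        exact WithTop.coe_lt_coe.mpr (hd _ (Finset.min'_mem F hF))
      · rw [Finset.not_nonempty_iff_eq_empty] at hF
        rw [hF, Finset.min_empty]
        exact WithTop.coe_lt_top d
    rw [Finset.sum_insert hdF, Finset.min_insert, min_eq_left hlt.le]
    refine ⟨add_mem hud.1 ih1, ?_⟩
    rw [v_add_of_lt hv hud.1 ih1 (by rw [hud.2, ih2]; exact hlt), hud.2]

end OVaux

open OVaux

theorem exists_isVgen (h : GrData α τ Δ) : ∃ v, IsVgen α τ Δ v := by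
  refine ⟨val α τ Δ, ?_, ?_, ?_, ?_, ?_⟩
  · intro x hx
    constructor
    · intro hv
      have := val_spec h hx
      rw [hv] at this
      exact this.eq_zero
    · intro hx0
      have h1 := val_spec h hx
      rw [hx0] at h1 ⊢
      exact h1.unique h (isV_zero h)
  · intro x hx y hy
    exact (val_spec h (mul_mem hx hy)).unique h ((val_spec h hx).mul h (val_spec h hy))
  · intro x hx y hy
    obtain ⟨r'', h'', hle⟩ := (val_spec h hx).add h (val_spec h hy)
    rw [(val_spec h (add_mem hx hy)).unique h h'']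
    exact hle
  · intro x hx hx0
    exact (val_spec h (mem_const hx)).unique h (IsV.of_isW h (isW_const h hx hx0))
  · intro a
    exact (val_spec h (mem_al a)).unique h (IsV.of_isW h (isW_al h a))

theorem IsVgen.unique (h : GrData α τ Δ) {v v' : D → WithTop ℝ} (h1 : IsVgen α τ Δ v)
    (h2 : IsVgen α τ Δ v') :
    ∀ x ∈ Subfield.closure ((Δ : Set D) ∪ Set.range α), v x = v' x := by
  have hpol : ∀ p, IsPol α Δ p → p ∈ Subfield.closure ((Δ : Set D) ∪ Set.range α) ∧
      v p = v' p := by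
    intro p hp
    obtain ⟨F, u, hd1, hd2, rfl⟩ := exists_dec h hp
    obtain ⟨ha, hb⟩ := v_dec h1 F u hd1 hd2
    obtain ⟨_, hc⟩ := v_dec h2 F u hd1 hd2
    exact ⟨ha, by rw [hb, hc]⟩
  intro x hx
  obtain ⟨s, hs0, hs, hz⟩ := isFr_of_mem h hx
  obtain ⟨hsm, hsv⟩ := hpol s hs
  obtain ⟨_, hzv⟩ := hpol (s * x) hz
  rw [h1.mul s hsm x hx, h2.mul s hsm x hx, ← hsv] at hzv
  refine add_cancel ?_ hzv
  intro hh
  exact hs0 ((h1.top s hsm).mp hh)

end Pool.Agent.HFT
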