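import Mathlib

/-! # HFT: valuations on division rings graded by a real character, definitions (helper49) -/

set_option autoImplicit false

universe w x

namespace Pool.Agent.HFT

/-- `v` is the valuation on the division subring generated by `Δ` and the image of `α` that is
trivial on `Δ` and equal to `τ` on the image of `α`. -/
structure IsVgen {D : Type w} [DivisionRing D] {N : Type x} [Group N] (α : N →* D) (τ : N → ℝ)
    (Δ : Subfield D) (v : D → WithTop ℝ) : Prop where
  top : ∀ x ∈ Subfield.closure ((Δ : Set D) ∪ Set.range α), (v x = ⊤ ↔ x = 0)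
  mul : ∀ x ∈ Subfield.closure ((Δ : Set D) ∪ Set.range α),
    ∀ y ∈ Subfield.closure ((Δ : Set D) ∪ Set.range α), v (x * y) = v x + v y
  add : ∀ x ∈ Subfield.closure ((Δ : Set D) ∪ Set.range α),
    ∀ y ∈ Subfield.closure ((Δ : Set D) ∪ Set.range α), min (v x) (v y) ≤ v (x + y)
  const : ∀ x ∈ Δ, x ≠ 0 → v x = 0
  deg : ∀ a, v (α a) = ((τ a : ℝ) : WithTop ℝ)

/-- The hypotheses on `(α, τ, Δ)`: `Δ` is normalized by `N`, contains the kernel of the character
`τ`, and elements of different degrees are independent over `Δ`. -/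
structure GrData {D : Type w} [DivisionRing D] {N : Type x} [Group N] (α : N →* D) (τ : N → ℝ)
    (Δ : Subfield D) : Prop where
  hτ : ∀ a b, τ (a * b) = τ a + τ b
  norm : ∀ a, ∀ x ∈ Δ, α a * x * α a⁻¹ ∈ Δ
  ker : ∀ a, τ a = 0 → α a ∈ Δ
  ind : ∀ (n : ℕ) (a : Fin n → N) (c : Fin n → D), Function.Injective (fun l => τ (a l)) →
    (∀ l, c l ∈ Δ) → ∑ l, α (a l) * c l = 0 → ∀ l, c l = 0

/-- homogeneous elements of degree `d` -/
def HomSet {D : Type w} [DivisionRing D] {N : Type x} [Group N] (α : N →* D) (τ : N → ℝ)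
    (Δ : Subfield D) (d : ℝ) : Set D :=
  {z | ∃ a, τ a = d ∧ ∃ c ∈ Δ, z = α a * c}

/-- `p` is the sum of the homogeneous elements `u d`, `d` in the finite set `F` of degrees. -/
def IsDec {D : Type w} [DivisionRing D] {N : Type x} [Group N] (α : N →* D) (τ : N → ℝ)
    (Δ : Subfield D) (p : D) (F : Finset ℝ) (u : ℝ → D) : Prop :=
  (∀ d ∈ F, u d ∈ HomSet α τ Δ d) ∧ (∀ d ∈ F, u d ≠ 0) ∧ p = ∑ d ∈ F, u d

end Pool.Agent.HFT
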