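import Pool.Agent.HFT.LMa
import Pool.Agent.HFT.OVDefs
import Pool.Agent.HFT.OV

/-! # HFT/LMb: solving a linear system over the graded ring by counting (helper49)

This is the argument of `OVb.lean` (theorem `ore`), for a system with `card J` unknown rows; most of the
proof can be copied from there.
PROOF of `siegel`. `e i := τ (g i)`, `V r := degSet e r`, `n := Fintype.card J`. Take `r` from
`exists_degSet e n`. Every element of `V r` is a value of `τ` (the values form an additive submonoid);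
choose `b d : N` with `τ (b d) = d` for `d ∈ V r`, `b' d` for `d ∈ V (r + 1)`.
Expansion: if `z = ∑ i, c i * α (g i)` (`Ent`) and `d ∈ V r` then
`α (b d) * z = ∑ i, (α (b d) c i α (b d)⁻¹) * α (b d * g i) = ∑_{d' ∈ V (r+1)} C d' * α (b' d')` with
`C d' ∈ Δ`: `C d' = ∑ i, if d + e i = d' then (α (b d) c i α (b d)⁻¹) * α (b d * g i * (b' d')⁻¹) else 0`
(`norm`, `ker`).
Look for `w = ∑_{d ∈ V r} W d * α (b d)`, `u i = ∑_{d ∈ V r} U i d * α (b d)` (`W d, U i d ∈ Δ`) with
`∑ i, u i * A i j = w * f j` for all `j`: comparing the coefficients of `α (b' d')`, `d' ∈ V (r + 1)`, this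
is a homogeneous system of `n * |V (r+1)|` left linear equations in `(n + 1) * |V r|` unknowns in the
division ring `Δ` (`Matrix.vecMulLinear M` for a matrix `M` over `Δ` indexed by
`Option J × V r` (or `(J × V r) ⊕ V r`) and `J × V (r+1)`; not injective by `finrank`). So there is a nonzero
solution. If `w = 0` then `∑ i, u i * A i j = 0` for all `j`, so `u = u A Nv = 0`; then all the
coefficients vanish (independence, `h.ind`, see `indep_sum` in `OVb.lean`), a contradiction. So `w ≠ 0`, and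
`w * ∑ j, f j * y j = ∑ j, ∑ i, u i * A i j * y j = ∑ i, u i * x i =: z`. The elements `w`, `z` are sums of
homogeneous elements (`HomSet`) with degrees in `V r`, `V (r + 1)`: `W d * α (b d) = α (b d) * (α (b d)⁻¹
W d α (b d))` is in `HomSet α τ Δ d`, and `u i * x i` is expanded as above; collect the
terms with the same degree by `homSet_add` (OVa), and drop the zero terms to get `IsDec`. -/

set_option autoImplicit false

universe w x y y'

namespace Pool.Agent.HFT

variable {D : Type w} [DivisionRing D] {N : Type x} [Group N] {α : N →* D} {τ : N → ℝ}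
  {Δ : Subfield D}

/-- combinations of the elements `α (g i)` with left coefficients in `Δ` -/
def Ent {κ : Type y} [Fintype κ] (α : N →* D) (Δ : Subfield D) (g : κ → N) (z : D) : Prop :=
  ∃ c : κ → D, (∀ i, c i ∈ Δ) ∧ z = ∑ i, c i * α (g i)

private theorem lmb_conj_mem (h : GrData α τ Δ) (b : N) {x : D} (hx : x ∈ Δ) :
    (α b)⁻¹ * x * α b ∈ Δ := by
  have h1 := h.norm b⁻¹ x hx
  rw [map_inv, inv_inv] at h1
  exact h1

private theorem lmb_al_ne (α : N →* D) (b : N) : α b ≠ 0 := ((Group.isUnit b).map α).ne_zero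

private theorem lmb_swap (α : N →* D) (b : N) (x : D) :
    x * α b = α b * ((α b)⁻¹ * x * α b) := by
  rw [mul_assoc ((α b)⁻¹), ← mul_assoc (α b) ((α b)⁻¹), mul_inv_cancel₀ (lmb_al_ne α b), one_mul]

private theorem lmb_indep (h : GrData α τ Δ) {ι : Type*} [Fintype ι] (b : ι → N) (x : ι → D)
    (hinj : Function.Injective (fun i => τ (b i))) (hx : ∀ i, x i ∈ Δ)
    (h0 : ∑ i, x i * α (b i) = 0) (i : ι) : x i = 0 := by
  let e := Fintype.equivFin ι
  have h1 := h.ind (Fintype.card ι) (fun l => b (e.symm l))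
    (fun l => (α (b (e.symm l)))⁻¹ * x (e.symm l) * α (b (e.symm l)))
    (fun l l' hl => e.symm.injective (hinj hl)) (fun l => lmb_conj_mem h _ (hx _)) (by
      rw [← h0, ← Equiv.sum_comp e.symm]
      exact (Finset.sum_congr rfl fun l _ => lmb_swap α _ _).symm) (e i)
  simp only [Equiv.symm_apply_apply] at h1
  have h2 := lmb_swap α (b i) (x i)
  rw [h1, mul_zero] at h2
  exact (mul_eq_zero.1 h2).resolve_right (lmb_al_ne α _)

private theorem lmb_dec (h : GrData α τ Δ) (V : Finset ℝ) (b : ℝ → N) (hb : ∀ v ∈ V, τ (b v) = v)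
    (C : {v // v ∈ V} → D) (hC : ∀ v, C v ∈ Δ) {z : D}
    (hz : z = ∑ v : {v // v ∈ V}, C v * α (b v.1)) :
    ∃ (F : Finset ℝ) (p : ℝ → D), F ⊆ V ∧ IsDec α τ Δ z F p := by
  classical
  let p : ℝ → D := fun d => if hd : d ∈ V then C ⟨d, hd⟩ * α (b d) else 0
  refine ⟨V.filter (fun d => p d ≠ 0), p, Finset.filter_subset _ _, ?_, ?_, ?_⟩
  · intro d hd
    have hd1 := (Finset.mem_filter.1 hd).1
    refine ⟨b d, hb d hd1, (α (b d))⁻¹ * C ⟨d, hd1⟩ * α (b d), lmb_conj_mem h _ (hC _), ?_⟩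
    have h1 : p d = C ⟨d, hd1⟩ * α (b d) := dif_pos hd1
    rw [h1]
    exact lmb_swap α _ _
  · intro d hd
    exact (Finset.mem_filter.1 hd).2
  · rw [Finset.sum_filter_ne_zero, hz, ← Finset.sum_coe_sort V p]
    refine Finset.sum_congr rfl fun v _ => ?_
    have h1 : p v.1 = C ⟨v.1, v.2⟩ * α (b v.1) := dif_pos v.2
    rw [h1]

private theorem lmb_rep {κ : Type y} [Fintype κ] (h : GrData α τ Δ) (g : κ → N) (r : ℕ) :
    ∃ b : ℝ → N, ∀ v ∈ degSet (fun i => τ (g i)) r, τ (b v) = v := by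
  have hτ1 : τ 1 = 0 := by
    have := h.hτ 1 1
    rw [mul_one] at this
    linarith
  have hrep : ∀ k : κ → ℕ, ∃ b, τ b = ∑ i, (k i) • τ (g i) := by
    intro k
    let S : AddSubmonoid ℝ :=
      { carrier := Set.range τ
        zero_mem' := ⟨1, hτ1⟩
        add_mem' := by
          rintro _ _ ⟨a, rfl⟩ ⟨b, rfl⟩
          exact ⟨a * b, h.hτ a b⟩ }
    have h0 : ∀ i, τ (g i) ∈ S := fun i => ⟨g i, rfl⟩
    have h1 : ∑ i, (k i) • τ (g i) ∈ S := sum_mem fun i _ => nsmul_mem (h0 i) _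
    obtain ⟨b, hb⟩ := h1
    exact ⟨b, hb⟩
  have h1 : ∀ v : ℝ, ∃ b : N, v ∈ degSet (fun i => τ (g i)) r → τ b = v := by
    intro v
    by_cases hv : v ∈ degSet (fun i => τ (g i)) r
    · obtain ⟨k, -, hk⟩ := mem_degSet.1 hv
      obtain ⟨b, hb⟩ := hrep k
      exact ⟨b, fun _ => hb.trans hk⟩
    · exact ⟨1, fun h => absurd h hv⟩
  choose b hb using h1
  exact ⟨b, hb⟩

private theorem lmb_exp {κ : Type y} [Fintype κ] (h : GrData α τ Δ) (g : κ → N)
    {V V' : Finset ℝ} {b b' : ℝ → N} (hb : ∀ v ∈ V, τ (b v) = v) (hb' : ∀ v ∈ V', τ (b' v) = v)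
    (hstep : ∀ v ∈ V, ∀ i, v + τ (g i) ∈ V') {z : D} (hz : Ent α Δ g z) (v : {v // v ∈ V}) :
    ∃ A : {v // v ∈ V'} → Δ,
      α (b v.1) * z = ∑ v' : {v // v ∈ V'}, (A v' : D) * α (b' v'.1) := by
  classical
  obtain ⟨c, hc, rfl⟩ := hz
  have hτ1 : τ 1 = 0 := by
    have := h.hτ 1 1
    rw [mul_one] at this
    linarith
  obtain ⟨v, hv⟩ := v
  have hA : ∀ v' ∈ V', (∑ i, if v + τ (g i) = v' then
      α (b v) * c i * α (g i) * (α (b' v'))⁻¹ else 0) ∈ Δ := by
    intro v' hv'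
    refine sum_mem fun i _ => ?_
    split_ifs with h1
    · have h2 : α (b v) * c i * α (g i) * (α (b' v'))⁻¹ =
          (α (b v) * c i * (α (b v))⁻¹) * α (b v * g i * (b' v')⁻¹) := by
        rw [map_mul α (b v * g i) ((b' v')⁻¹), map_inv, map_mul, ← mul_assoc, ← mul_assoc,
          mul_assoc (α (b v) * c i) ((α (b v))⁻¹),
          inv_mul_cancel₀ (lmb_al_ne α _), mul_one]
      rw [h2]
      have h5 := h.norm (b v) _ (hc i)
      rw [map_inv] at h5
      refine Δ.mul_mem h5 (h.ker _ ?_)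
      have h3 : τ ((b' v')⁻¹) = - v' := by
        have h4 := h.hτ (b' v') ((b' v')⁻¹)
        rw [mul_inv_cancel, hτ1, hb' v' hv'] at h4
        linarith
      rw [h.hτ, h.hτ, h3, hb v hv, h1]
      ring
    · exact Δ.zero_mem
  refine ⟨fun v' => ⟨∑ i, if v + τ (g i) = v'.1 then
      α (b v) * c i * α (g i) * (α (b' v'.1))⁻¹ else 0, hA v'.1 v'.2⟩, ?_⟩
  have h1 : ∀ v' ∈ V', (∑ i, if v + τ (g i) = v' then
      α (b v) * c i * α (g i) * (α (b' v'))⁻¹ else 0) * α (b' v') =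
      ∑ i, if v + τ (g i) = v' then α (b v) * c i * α (g i) else 0 := by
    intro v' _
    rw [Finset.sum_mul]
    refine Finset.sum_congr rfl fun i _ => ?_
    split_ifs
    · rw [mul_assoc _ ((α (b' v'))⁻¹), inv_mul_cancel₀ (lmb_al_ne α _), mul_one]
    · rw [zero_mul]
  have h2 := Finset.sum_coe_sort V' (fun v' => (∑ i, if v + τ (g i) = v' then
      α (b v) * c i * α (g i) * (α (b' v'))⁻¹ else 0) * α (b' v'))
  rw [h2, Finset.sum_congr rfl h1, Finset.sum_comm, Finset.mul_sum]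
  refine Finset.sum_congr rfl fun i _ => ?_
  rw [Finset.sum_ite_eq, if_pos (hstep v hv i), mul_assoc]

theorem siegel (h : GrData α τ Δ) {J : Type y'} {κ : Type y} [Fintype J] [DecidableEq J] [Fintype κ]
    (g : κ → N) (A Nv : Matrix J J D) (f x y : J → D) (hA : ∀ i j, Ent α Δ g (A i j))
    (hf : ∀ i, Ent α Δ g (f i)) (hx : ∀ i, Ent α Δ g (x i)) (hN : A * Nv = 1)
    (hy : A.mulVec y = x) :
    ∃ (r : ℕ) (w z : D) (F F' : Finset ℝ) (p p' : ℝ → D),
      r ≤ bdR (Fintype.card J) (Fintype.card κ) ∧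
      F ⊆ degSet (fun i => τ (g i)) r ∧ IsDec α τ Δ w F p ∧
      F' ⊆ degSet (fun i => τ (g i)) (r + 1) ∧ IsDec α τ Δ z F' p' ∧
      w ≠ 0 ∧ w * ∑ i, f i * y i = z := by
  classical
  obtain ⟨r, hr, hcard⟩ := exists_degSet (fun i => τ (g i)) (Fintype.card J)
  obtain ⟨b, hb⟩ := lmb_rep h g r
  obtain ⟨b', hb'⟩ := lmb_rep h g (r + 1)
  have hstep : ∀ v ∈ degSet (fun i => τ (g i)) r, ∀ i,
      v + τ (g i) ∈ degSet (fun i => τ (g i)) (r + 1) := fun v hv i => add_mem_degSet hv i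
  obtain ⟨V, hV⟩ : ∃ V, V = degSet (fun i => τ (g i)) r := ⟨_, rfl⟩
  obtain ⟨V', hV'⟩ : ∃ V', V' = degSet (fun i => τ (g i)) (r + 1) := ⟨_, rfl⟩
  rw [← hV, ← hV'] at hcard
  rw [← hV] at hb
  rw [← hV'] at hb'
  rw [← hV, ← hV'] at hstep
  have hexpA : ∀ i j (v : {v // v ∈ V}), ∃ B : {v // v ∈ V'} → Δ,
      α (b v.1) * A i j = ∑ v' : {v // v ∈ V'}, (B v' : D) * α (b' v'.1) :=
    fun i j v => lmb_exp h g hb hb' hstep (hA i j) v
  have hexpF : ∀ j (v : {v // v ∈ V}), ∃ B : {v // v ∈ V'} → Δ,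
      α (b v.1) * f j = ∑ v' : {v // v ∈ V'}, (B v' : D) * α (b' v'.1) :=
    fun j v => lmb_exp h g hb hb' hstep (hf j) v
  have hexpX : ∀ j (v : {v // v ∈ V}), ∃ B : {v // v ∈ V'} → Δ,
      α (b v.1) * x j = ∑ v' : {v // v ∈ V'}, (B v' : D) * α (b' v'.1) :=
    fun j v => lmb_exp h g hb hb' hstep (hx j) v
  choose CA hCA using hexpA
  choose CF hCF using hexpF
  choose CX hCX using hexpX
  -- the linear map
  let M : Matrix ((J × {v // v ∈ V}) ⊕ {v // v ∈ V}) (J × {v // v ∈ V'}) Δ :=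
    fun i jv => Sum.elim (fun iv => CA iv.1 jv.1 iv.2 jv.2) (fun v => CF jv.1 v jv.2) i
  have hni : ¬ Function.Injective (Matrix.vecMulLinear M) := by
    intro hinj
    have h1 := LinearMap.finrank_le_finrank_of_injective hinj
    rw [Module.finrank_fintype_fun_eq_card, Module.finrank_fintype_fun_eq_card,
      Fintype.card_sum, Fintype.card_prod, Fintype.card_prod, Fintype.card_coe,
      Fintype.card_coe] at h1
    have h2 : (Fintype.card J + 1) * V.card = Fintype.card J * V.card + V.card := by ring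
    omega
  rw [← LinearMap.ker_eq_bot, Submodule.eq_bot_iff] at hni
  push Not at hni
  obtain ⟨z, hz, hz0⟩ := hni
  rw [LinearMap.mem_ker] at hz
  have hzv : ∀ j v', ∑ iv : J × {v // v ∈ V}, (z (Sum.inl iv) : D) * CA iv.1 j iv.2 v' +
      ∑ v, (z (Sum.inr v) : D) * CF j v v' = 0 := by
    intro j v'
    have h1 := congrFun hz (j, v')
    have h2 : Matrix.vecMulLinear M z (j, v') = ∑ i, z i * M i (j, v') := rfl
    rw [h2, Fintype.sum_sum_type] at h1
    have h3 := congrArg (fun t : Δ => (t : D)) h1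
    push_cast at h3
    exact h3
  obtain ⟨U, hU⟩ : ∃ U : J → D, U = fun i => ∑ v : {v // v ∈ V}, (z (Sum.inl (i, v)) : D) *
    α (b v.1) := ⟨_, rfl⟩
  obtain ⟨W, hW⟩ : ∃ W : D, W = ∑ v : {v // v ∈ V}, (z (Sum.inr v) : D) * α (b v.1) := ⟨_, rfl⟩
  have hUm : ∀ (i : J) (t : D) (C : {v // v ∈ V} → {v // v ∈ V'} → Δ),
      (∀ v, α (b v.1) * t = ∑ v' : {v // v ∈ V'}, (C v v' : D) * α (b' v'.1)) →
      U i * t = ∑ v' : {v // v ∈ V'}, (∑ v, (z (Sum.inl (i, v)) : D) * C v v') * α (b' v'.1) := by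
    intro i t C hC
    rw [hU]
    simp only [Finset.sum_mul, mul_assoc, hC, Finset.mul_sum]
    rw [Finset.sum_comm]
  have hkey : ∀ j, ∑ i, U i * A i j + W * f j = 0 := by
    intro j
    have e1 : ∑ i, U i * A i j = ∑ v' : {v // v ∈ V'},
        (∑ iv : J × {v // v ∈ V}, (z (Sum.inl iv) : D) * CA iv.1 j iv.2 v') * α (b' v'.1) := by
      rw [Finset.sum_congr rfl fun i _ => hUm i (A i j) (CA i j) (fun v => hCA i j v),
        Finset.sum_comm]
      refine Finset.sum_congr rfl fun v' _ => ?_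
      rw [← Finset.sum_mul, Fintype.sum_prod_type]
    have e2 : W * f j =
        ∑ v' : {v // v ∈ V'}, (∑ v, (z (Sum.inr v) : D) * CF j v v') * α (b' v'.1) := by
      rw [hW, Finset.sum_mul]
      simp only [Finset.sum_mul, mul_assoc, hCF, Finset.mul_sum]
      rw [Finset.sum_comm]
    rw [e1, e2, ← Finset.sum_add_distrib]
    refine Finset.sum_eq_zero fun v' _ => ?_
    rw [← add_mul, hzv j v', zero_mul]
  have hinjV : Function.Injective (fun v : {v // v ∈ V} => τ (b v.1)) := by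
    intro v v' hvv
    simp only [hb v.1 v.2, hb v'.1 v'.2] at hvv
    exact Subtype.ext hvv
  have hW0 : W ≠ 0 := by
    intro h0
    have h1 : Matrix.vecMul U A = 0 := by
      funext j
      have h2 := hkey j
      rw [h0, zero_mul, add_zero] at h2
      exact h2
    have h2 : U = 0 := by
      have h3 : Matrix.vecMul (Matrix.vecMul U A) Nv = U := by
        rw [Matrix.vecMul_vecMul, hN, Matrix.vecMul_one]
      rw [← h3, h1, Matrix.zero_vecMul]
    apply hz0
    funext i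
    rcases i with ⟨i, v⟩ | v
    · have h3 : ∑ v : {v // v ∈ V}, (z (Sum.inl (i, v)) : D) * α (b v.1) = 0 := by
        have h4 := congrFun h2 i
        rw [hU] at h4
        exact h4
      exact Subtype.ext (lmb_indep h _ _ hinjV (fun v => (z (Sum.inl (i, v))).2) h3 v)
    · rw [hW] at h0
      exact Subtype.ext (lmb_indep h _ _ hinjV (fun v => (z (Sum.inr v)).2) h0 v)
  -- the result
  obtain ⟨F, p, hF, hdec⟩ := lmb_dec h V b hb (fun v => (z (Sum.inr v) : D))
    (fun v => (z (Sum.inr v)).2) hW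
  have hz' : -∑ i, U i * x i = ∑ v' : {v // v ∈ V'},
      (-∑ i, ∑ v, (z (Sum.inl (i, v)) : D) * CX i v v') * α (b' v'.1) := by
    rw [Finset.sum_congr rfl fun i _ => hUm i (x i) (CX i) (fun v => hCX i v), Finset.sum_comm,
      ← Finset.sum_neg_distrib]
    refine Finset.sum_congr rfl fun v' _ => ?_
    rw [neg_mul, Finset.sum_mul]
  obtain ⟨F', p', hF', hdec'⟩ := lmb_dec h V' b' hb' _ (fun v' => Δ.neg_mem (sum_mem fun i _ =>
    sum_mem fun v _ => Δ.mul_mem (z (Sum.inl (i, v))).2 (CX i v v').2)) hz'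
  refine ⟨r, W, -∑ i, U i * x i, F, F', p, p', hr, hV ▸ hF, hdec, hV' ▸ hF', hdec', hW0, ?_⟩
  have e1 : ∀ i, U i * x i = ∑ j, U i * A i j * y j := by
    intro i
    rw [← hy, Matrix.mulVec, dotProduct, Finset.mul_sum]
    exact Finset.sum_congr rfl fun j _ => (mul_assoc _ _ _).symm
  rw [Finset.sum_congr rfl fun i _ => e1 i, Finset.sum_comm, Finset.mul_sum,
    ← Finset.sum_neg_distrib]
  refine Finset.sum_congr rfl fun j _ => ?_
  rw [← Finset.sum_mul, ← neg_mul, ← mul_assoc]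
  congr 1
  exact (neg_eq_of_add_eq_zero_right (hkey j)).symm

end Pool.Agent.HFT
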