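import Pool.Agent.HFT.CS1

/-! # HFT/LMc: the comparison function of a Conradian system (helper49)

`nuOf h g` compares `g` with `h`: it is `0` if `g` is smaller (in level) than `h`, the quotient
of the values of the character if the levels are equal, and `⊤` or `⊥` (according to the signs) if `g` is larger.
PROOF. `tv g` is the value at `g` of the character of the level of `g`; `tv g ≠ 0` for `g ≠ 1` (`τ_zero` and
`lt_irrefl`), `tv g⁻¹ = - tv g` (same level, `τ_mul`, `g⁻¹ * g = 1`, `τ i 1 = 0`).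
`nuOf_eq`: `lev g ≤ lev h = i`: if `g = 1` or `lev g < i`, both sides are `0` (`τ_zero`); otherwise
`lev g = i` and `tv g = τ i g`, `tv h = τ i h`. `nuOf_fn`: by `nuOf_eq` for `lev g ≤ i`; otherwise
`i < lev g`, so `g ≠ 1` and `nuOf h g` is `⊤` or `⊥`. `nuOf_zero`: by `nuOf_eq` (`τ i h ≠ 0`) and `τ_zero` for `lev g ≤ i`;
otherwise infinite, not `0`.
`locNu_nuOf` : copy the proof of `exists_locNu` in `CS1.lean` (with the levels in a linear
order; there the order is reversed): `one`, `triv` clear; `add` from `nuOf_fn`, `nuOf_eq`, `τ_mul`, `lev_mul`;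
`inv`: `nuOf_eq` or (for `lev h < lev g`) `lev g⁻¹ = lev g`, `tv g⁻¹ = - tv g`, `sgI_neg`; `mul`: the case distinction of
`exists_locNu` (three levels `lev h, lev h', lev g`), with `sgI_mul`, `sgI_left`, `sgI_right`, the
lemmas `cs1_sI_neg`, `cs1_sI_mul`, `cs1_sI_left`, `cs1_sI_right` of `CS1.lean` (private there:
copy their proofs). -/

set_option autoImplicit false

universe u

namespace Pool.Agent.HFT

namespace ConradSys

variable {G : Type u} [Group G] (S : ConradSys G)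

/-- value of the character of the own level -/
noncomputable def tv (g : G) : ℝ := WithBot.recBotCoe 0 (fun i => S.τ i g) (S.lev g)

theorem tv_eq {g : G} {i : S.I} (hi : S.lev g = (i : WithBot S.I)) : S.tv g = S.τ i g := by
  unfold tv
  rw [hi]
  rfl

/-- infinity with a sign -/
noncomputable def sgI (r : ℝ) : EReal := if 0 < r then ⊤ else ⊥

open Classical in
/-- the comparison function -/
noncomputable def nuOf (h g : G) : EReal :=
  if g = 1 ∨ S.lev g < S.lev h then 0 else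
    if S.lev g = S.lev h then ((S.tv g / S.tv h : ℝ) : EReal) else sgI (S.tv g * S.tv h)

private theorem lmc_pos {r : ℝ} (h : 0 < r) : sgI r = ⊤ := by
  unfold sgI
  rw [if_pos h]

private theorem lmc_neg {r : ℝ} (h : r < 0) : sgI r = ⊥ := by
  unfold sgI
  rw [if_neg (not_lt.2 h.le)]

private theorem lmc_sgI_or (r : ℝ) : sgI r = ⊤ ∨ sgI r = ⊥ := by
  unfold sgI
  split_ifs
  · left; rfl
  · right; rfl

private theorem lmc_sgI_neg {r : ℝ} (h : r ≠ 0) : sgI (-r) = -sgI r := by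
  rcases lt_or_gt_of_ne h with h1 | h1
  · rw [lmc_pos (by linarith : 0 < -r), lmc_neg h1, EReal.neg_bot]
  · rw [lmc_neg (by linarith : -r < 0), lmc_pos h1, EReal.neg_top]

private theorem lmc_key {x y z : ℝ} (hy : y ≠ 0) {r : ℝ} (hr : (y * x) * (z * y) = r) :
    (0 < r → 0 < z * x) ∧ (r < 0 → z * x < 0) := by
  have h1 : y ^ 2 * (z * x) = r := by rw [← hr]; ring
  have hy2 : 0 < y ^ 2 := by positivity
  constructor
  · intro h2
    rw [← h1] at h2
    exact (mul_pos_iff_of_pos_left hy2).1 h2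
  · intro h2
    rw [← h1] at h2
    by_contra h3
    have := mul_nonneg hy2.le (not_lt.1 h3)
    linarith

private theorem lmc_sgI_mul {x y z : ℝ} (hx : x ≠ 0) (hy : y ≠ 0) (hz : z ≠ 0) :
    sgI (z * x) = sgI (y * x) * sgI (z * y) := by
  have hk := lmc_key (x := x) (z := z) hy rfl
  rcases lt_or_gt_of_ne (mul_ne_zero hy hx) with b1 | b1 <;>
    rcases lt_or_gt_of_ne (mul_ne_zero hz hy) with b2 | b2
  · rw [lmc_pos (hk.1 (mul_pos_of_neg_of_neg b1 b2)), lmc_neg b1, lmc_neg b2, EReal.bot_mul_bot]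
  · rw [lmc_neg (hk.2 (mul_neg_of_neg_of_pos b1 b2)), lmc_neg b1, lmc_pos b2, EReal.bot_mul_top]
  · rw [lmc_neg (hk.2 (mul_neg_of_pos_of_neg b1 b2)), lmc_pos b1, lmc_neg b2, EReal.top_mul_bot]
  · rw [lmc_pos (hk.1 (mul_pos b1 b2)), lmc_pos b1, lmc_pos b2, EReal.top_mul_top]

private theorem lmc_div {x y : ℝ} (hx : x ≠ 0) : y / x = (y * x) / x ^ 2 := by
  field_simp

private theorem lmc_sgI_left {x y z : ℝ} (hx : x ≠ 0) (hy : y ≠ 0) (hz : z ≠ 0) :
    sgI (z * x) = ((y / x : ℝ) : EReal) * sgI (z * y) := by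
  have hk := lmc_key (x := x) (z := z) hy rfl
  have hx2 : 0 < x ^ 2 := by positivity
  rcases lt_or_gt_of_ne (mul_ne_zero hy hx) with b1 | b1
  · have b3 : y / x < 0 := by
      rw [lmc_div hx]
      exact div_neg_of_neg_of_pos b1 hx2
    rcases lt_or_gt_of_ne (mul_ne_zero hz hy) with b2 | b2
    · rw [lmc_pos (hk.1 (mul_pos_of_neg_of_neg b1 b2)), lmc_neg b2, EReal.coe_mul_bot_of_neg b3]
    · rw [lmc_neg (hk.2 (mul_neg_of_neg_of_pos b1 b2)), lmc_pos b2, EReal.coe_mul_top_of_neg b3]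
  · have b3 : 0 < y / x := by
      rw [lmc_div hx]
      exact div_pos b1 hx2
    rcases lt_or_gt_of_ne (mul_ne_zero hz hy) with b2 | b2
    · rw [lmc_neg (hk.2 (mul_neg_of_pos_of_neg b1 b2)), lmc_neg b2, EReal.coe_mul_bot_of_pos b3]
    · rw [lmc_pos (hk.1 (mul_pos b1 b2)), lmc_pos b2, EReal.coe_mul_top_of_pos b3]

private theorem lmc_sgI_right {x y z : ℝ} (hx : x ≠ 0) (hy : y ≠ 0) (hz : z ≠ 0) :
    sgI (z * x) = sgI (y * x) * ((z / y : ℝ) : EReal) := by
  have hk := lmc_key (x := x) (z := z) hy rfl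
  have hy2 : 0 < y ^ 2 := by positivity
  rcases lt_or_gt_of_ne (mul_ne_zero hz hy) with b2 | b2
  · have b3 : z / y < 0 := by
      rw [lmc_div hy]
      exact div_neg_of_neg_of_pos b2 hy2
    rcases lt_or_gt_of_ne (mul_ne_zero hy hx) with b1 | b1
    · rw [lmc_pos (hk.1 (mul_pos_of_neg_of_neg b1 b2)), lmc_neg b1, EReal.bot_mul_coe_of_neg b3]
    · rw [lmc_neg (hk.2 (mul_neg_of_pos_of_neg b1 b2)), lmc_pos b1, EReal.top_mul_coe_of_neg b3]
  · have b3 : 0 < z / y := by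
      rw [lmc_div hy]
      exact div_pos b2 hy2
    rcases lt_or_gt_of_ne (mul_ne_zero hy hx) with b1 | b1
    · rw [lmc_neg (hk.2 (mul_neg_of_neg_of_pos b1 b2)), lmc_neg b1, EReal.bot_mul_coe_of_pos b3]
    · rw [lmc_pos (hk.1 (mul_pos b1 b2)), lmc_pos b1, EReal.top_mul_coe_of_pos b3]

omit S in
private theorem lev_coe (S : ConradSys G) {g : G} (hg : g ≠ 1) :
    ∃ i : S.I, S.lev g = (i : WithBot S.I) := by
  have h : S.lev g ≠ ⊥ := fun h => hg ((S.lev_bot g).1 h)
  obtain ⟨i, hi⟩ := WithBot.ne_bot_iff_exists.1 h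
  exact ⟨i, hi.symm⟩

omit S in
private theorem tau_one (S : ConradSys G) (i : S.I) : S.τ i 1 = 0 := by
  have h1 : S.lev 1 = ⊥ := (S.lev_bot 1).2 rfl
  rw [S.τ_zero i 1 (by rw [h1]; exact bot_le), h1]
  exact WithBot.bot_lt_coe i

omit S in
private theorem tau_inv (S : ConradSys G) (i : S.I) {g : G} (hg : S.lev g ≤ (i : WithBot S.I)) :
    S.τ i g⁻¹ = - S.τ i g := by
  have h1 := S.τ_mul i g⁻¹ g (by rw [S.lev_inv]; exact hg) hg
  rw [inv_mul_cancel, tau_one] at h1
  linarith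

theorem tv_ne_zero {g : G} (hg : g ≠ 1) : S.tv g ≠ 0 := by
  obtain ⟨i, hi⟩ := lev_coe S hg
  rw [S.tv_eq hi]
  intro h
  rw [S.τ_zero i g hi.le, hi] at h
  exact lt_irrefl _ h

theorem tv_inv (g : G) : S.tv g⁻¹ = - S.tv g := by
  by_cases hg : g = 1
  · subst hg
    have h1 : S.lev 1 = ⊥ := (S.lev_bot 1).2 rfl
    rw [inv_one]
    unfold tv
    rw [h1]
    simp
  · obtain ⟨i, hi⟩ := lev_coe S hg
    rw [S.tv_eq hi, S.tv_eq (g := g⁻¹) (by rw [S.lev_inv]; exact hi)]
    exact tau_inv S i hi.le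

omit S in
private theorem n0 (S : ConradSys G) {h g : G} (hc : g = 1 ∨ S.lev g < S.lev h) :
    S.nuOf h g = 0 := by
  unfold nuOf
  rw [if_pos hc]

omit S in
private theorem n1 (S : ConradSys G) {h g : G} (hg1 : g ≠ 1) (hc : S.lev g = S.lev h) :
    S.nuOf h g = ((S.tv g / S.tv h : ℝ) : EReal) := by
  unfold nuOf
  rw [if_neg, if_pos hc]
  rintro (h1 | h1)
  · exact hg1 h1
  · rw [hc] at h1
    exact lt_irrefl _ h1

omit S in
private theorem n2 (S : ConradSys G) {h g : G} (hc : S.lev h < S.lev g) :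
    S.nuOf h g = sgI (S.tv g * S.tv h) := by
  have hg1 : g ≠ 1 := by
    rintro rfl
    rw [(S.lev_bot 1).2 rfl] at hc
    exact not_lt_bot hc
  unfold nuOf
  rw [if_neg, if_neg hc.ne']
  rintro (h1 | h1)
  · exact hg1 h1
  · exact lt_asymm hc h1

theorem nuOf_eq {h : G} (hh : h ≠ 1) {i : S.I} (hi : S.lev h = (i : WithBot S.I)) {g : G}
    (hg : S.lev g ≤ (i : WithBot S.I)) :
    S.nuOf h g = ((S.τ i g / S.τ i h : ℝ) : EReal) := by
  by_cases hg1 : g = 1
  · rw [n0 S (Or.inl hg1), hg1, tau_one]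
    simp
  · rcases hg.lt_or_eq with h1 | h1
    · rw [n0 S (Or.inr (by rw [hi]; exact h1)), (S.τ_zero i g hg).2 h1]
      simp
    · rw [n1 S hg1 (h1.trans hi.symm), S.tv_eq h1, S.tv_eq hi]

theorem nuOf_fn {h : G} (hh : h ≠ 1) {i : S.I} (hi : S.lev h = (i : WithBot S.I)) (g : G) :
    (S.nuOf h g ≠ ⊤ ∧ S.nuOf h g ≠ ⊥) ↔ S.lev g ≤ (i : WithBot S.I) := by
  constructor
  · intro h1
    by_contra hcon
    rw [not_le] at hcon
    rw [n2 S (h := h) (by rw [hi]; exact hcon)] at h1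
    rcases lmc_sgI_or (S.tv g * S.tv h) with h3 | h3
    · exact h1.1 h3
    · exact h1.2 h3
  · intro h1
    rw [S.nuOf_eq hh hi h1]
    exact ⟨EReal.coe_ne_top _, EReal.coe_ne_bot _⟩

theorem nuOf_zero {h : G} (hh : h ≠ 1) {i : S.I} (hi : S.lev h = (i : WithBot S.I)) (g : G) :
    S.nuOf h g = 0 ↔ S.lev g < (i : WithBot S.I) := by
  by_cases hg : S.lev g ≤ (i : WithBot S.I)
  · have h0 : S.τ i h ≠ 0 := by
      rw [← S.tv_eq hi]
      exact S.tv_ne_zero hh
    rw [S.nuOf_eq hh hi hg, ← S.τ_zero i g hg, ← EReal.coe_zero, EReal.coe_eq_coe_iff,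
      div_eq_zero_iff]
    exact or_iff_left h0
  · constructor
    · intro h1
      exfalso
      apply hg
      rw [← S.nuOf_fn hh hi, h1]
      exact ⟨EReal.zero_ne_top, EReal.zero_ne_bot⟩
    · intro h1
      exact absurd h1.le hg

theorem locNu_nuOf : LocNu Set.univ S.nuOf := by
  refine ⟨?_, ?_, ?_, ?_, ?_⟩
  · -- one
    intro h _ h1
    rw [n1 S h1 rfl, div_self (S.tv_ne_zero h1)]
    rfl
  · -- triv
    intro h _ _
    exact n0 S (Or.inl rfl)
  · -- add
    intro h _ g _ g' _ _ h1 f1 f2 f3 f4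
    obtain ⟨i, hi⟩ := lev_coe S h1
    have c1 := (S.nuOf_fn h1 hi g).1 ⟨f1, f2⟩
    have c2 := (S.nuOf_fn h1 hi g').1 ⟨f3, f4⟩
    have c3 : S.lev (g * g') ≤ (i : WithBot S.I) := (S.lev_mul g g').trans (max_le c1 c2)
    rw [S.nuOf_eq h1 hi c1, S.nuOf_eq h1 hi c2, S.nuOf_eq h1 hi c3, ← EReal.coe_add,
      S.τ_mul i g g' c1 c2, add_div]
  · -- inv
    intro h _ g _ _ h1
    obtain ⟨i, hi⟩ := lev_coe S h1
    rcases le_or_gt (S.lev g) (S.lev h) with hc | hc
    · rw [hi] at hc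
      rw [S.nuOf_eq h1 hi hc, S.nuOf_eq h1 hi (by rw [S.lev_inv]; exact hc), tau_inv S i hc,
        ← EReal.coe_neg, neg_div]
    · have hg1 : g ≠ 1 := by
        rintro rfl
        rw [(S.lev_bot 1).2 rfl] at hc
        exact not_lt_bot hc
      rw [n2 S hc, n2 S (by rw [S.lev_inv]; exact hc), S.tv_inv, neg_mul]
      exact lmc_sgI_neg (mul_ne_zero (S.tv_ne_zero hg1) (S.tv_ne_zero h1))
  · -- mul
    intro h _ h' _ g _ h1 h1' c1 c2
    by_cases hg1 : g = 1
    · rw [n0 S (Or.inl hg1), n0 S (Or.inl hg1), mul_zero]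
    obtain ⟨i, hi⟩ := lev_coe S h1
    obtain ⟨i', hi'⟩ := lev_coe S h1'
    have hx := S.tv_ne_zero h1
    have hy := S.tv_ne_zero h1'
    have hz := S.tv_ne_zero hg1
    rcases lt_trichotomy (S.lev h') (S.lev h) with hab | hab | hab
    · have e1 := n0 S (h := h) (g := h') (Or.inr hab)
      rcases c1 with c1 | c1
      · exact absurd e1 c1
      have h3 := (S.nuOf_fn h1' hi' g).1 c1
      rw [e1, zero_mul]
      rw [← hi'] at h3
      exact n0 S (Or.inr (h3.trans_lt hab))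
    · rw [n1 S h1' hab]
      rcases lt_trichotomy (S.lev g) (S.lev h') with hbc | hbc | hbc
      · rw [n0 S (h := h') (Or.inr hbc), n0 S (h := h) (Or.inr (by rw [← hab]; exact hbc)),
          mul_zero]
      · rw [n1 S (h := h') hg1 hbc, n1 S (h := h) hg1 (hbc.trans hab), ← EReal.coe_mul]
        congr 1
        field_simp
      · rw [n2 S (h := h') hbc, n2 S (h := h) (by rw [← hab]; exact hbc)]
        exact lmc_sgI_left hx hy hz
    · rw [n2 S (h := h) (g := h') hab]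
      have hne : ¬ ((S.nuOf h h' ≠ ⊤) ∧ (S.nuOf h h' ≠ ⊥)) := by
        intro h3
        have h4 := (S.nuOf_fn h1 hi h').1 h3
        rw [← hi] at h4
        exact absurd hab (not_lt.2 h4)
      rcases c2 with c2 | c2
      · exact absurd c2 hne
      rcases lt_trichotomy (S.lev g) (S.lev h') with hbc | hbc | hbc
      · exact absurd (n0 S (h := h') (Or.inr hbc)) c2
      · rw [n1 S (h := h') hg1 hbc, n2 S (h := h) (by rw [hbc]; exact hab)]
        exact lmc_sgI_right hx hy hz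
      · rw [n2 S (h := h') hbc, n2 S (h := h) (hab.trans hbc)]
        exact lmc_sgI_mul hx hy hz

end ConradSys

end Pool.Agent.HFT
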