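import Pool.Agent.HFT.CS3

/-! # HFT/LMd: limits of comparison functions, and the system of a comparison function (helper49)

PROOF. `LocNu.lim`: this is the proof of `exists_nu` in `CS2.lean` (there the ultrafilter is on
`Finset G`); the limit `ν h g` of `ν' p h g` is given as a hypothesis `hν`; `hF g g'` says that the local laws
hold almost everywhere on a set containing the given elements: for the law `add` for `h, g, g'` use the finite set
`{1, h, g, g', g * g'}`, and so on.
`conrad_of_nu`: this is `exists_aux` in `CS3.lean` (private there, copy it): the system constructed there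
has `lev g ≤ i ↔ Fn (ν (rep i) g)` (`hle_iff`), `lev g < i ↔ ν (rep i) g = 0` (`hlt_iff`), `τ i g =
(ν (rep i) g).toReal` by definition, `rep i ≠ 1`. -/

set_option autoImplicit false

universe u v

namespace Pool.Agent.HFT

variable {G : Type u} [Group G]

theorem LocNu.lim {P : Type v} (U : Ultrafilter P) {ν' : P → G → G → EReal} {ν : G → G → EReal}
    (hF : ∀ F : Finset G, ∀ᶠ p in (U : Filter P), LocNu (F : Set G) (ν' p))
    (hν : ∀ h g : G, Filter.Tendsto (fun p => ν' p h g) U (nhds (ν h g))) :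
    LocNu Set.univ ν := by
  classical
  have hne : ∀ {h g : G} {c : EReal}, ν h g ≠ c →
      ∀ᶠ p in (U : Filter P), ν' p h g ≠ c := fun {h g c} hc =>
    (hν h g).eventually (isOpen_ne.mem_nhds hc)
  refine ⟨?_, ?_, ?_, ?_, ?_⟩
  · intro h _ h1
    refine tendsto_nhds_unique_of_eventuallyEq (hν h h) tendsto_const_nhds ?_
    filter_upwards [hF {h}] with p hp
    exact hp.one h (by simp) h1
  · intro h _ h1
    refine tendsto_nhds_unique_of_eventuallyEq (hν h 1) tendsto_const_nhds ?_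
    filter_upwards [hF {h}] with p hp
    exact hp.triv h (by simp) h1
  · intro h _ g _ g' _ _ h1 a1 a2 a3 a4
    have h2 : Filter.Tendsto (fun p => ν' p h g + ν' p h g') U (nhds (ν h g + ν h g')) := by
      have h3 := EReal.continuousAt_add (p := (ν h g, ν h g')) (Or.inl a1) (Or.inl a2)
      exact h3.tendsto.comp ((hν h g).prodMk_nhds (hν h g'))
    refine tendsto_nhds_unique_of_eventuallyEq (hν h (g * g')) h2 ?_
    filter_upwards [hF {h, g, g', g * g'}, hne a1, hne a2, hne a3, hne a4] with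
      p hp b5 b6 b7 b8
    exact hp.add h (by simp) g (by simp) g' (by simp) (by simp) h1 b5 b6 b7 b8
  · intro h _ g _ _ h1
    have h2 : Filter.Tendsto (fun p => -ν' p h g) U (nhds (-ν h g)) :=
      (continuous_neg.tendsto _).comp (hν h g)
    refine tendsto_nhds_unique_of_eventuallyEq (hν h g⁻¹) h2 ?_
    filter_upwards [hF {h, g, g⁻¹}] with p hp
    exact hp.inv h (by simp) g (by simp) (by simp) h1
  · intro h _ h' _ g _ h1 h1' c1 c2
    have h2 : Filter.Tendsto (fun p => ν' p h h' * ν' p h' g) U (nhds (ν h h' * ν h' g)) := by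
      have h3 := EReal.continuousAt_mul (p := (ν h h', ν h' g))
        (c1.imp_right fun x => x.2) (c1.imp_right fun x => x.1)
        (c2.imp_left fun x => x.2) (c2.imp_left fun x => x.1)
      exact h3.tendsto.comp ((hν h h').prodMk_nhds (hν h' g))
    have e1 : ∀ᶠ p in (U : Filter P),
        (ν' p h h' ≠ 0 ∨ (ν' p h' g ≠ ⊤ ∧ ν' p h' g ≠ ⊥)) := by
      rcases c1 with c | ⟨c, c'⟩
      · exact (hne c).mono fun p hp => Or.inl hp
      · filter_upwards [hne c, hne c'] with p b1 b2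
        exact Or.inr ⟨b1, b2⟩
    have e2 : ∀ᶠ p in (U : Filter P),
        ((ν' p h h' ≠ ⊤ ∧ ν' p h h' ≠ ⊥) ∨ ν' p h' g ≠ 0) := by
      rcases c2 with ⟨c, c'⟩ | c
      · filter_upwards [hne c, hne c'] with p b1 b2
        exact Or.inl ⟨b1, b2⟩
      · exact (hne c).mono fun p hp => Or.inr hp
    refine tendsto_nhds_unique_of_eventuallyEq (hν h g) h2 ?_
    filter_upwards [hF {h, h', g}, e1, e2] with p hp b4 b5
    exact hp.mul h (by simp) h' (by simp) g (by simp) h1 h1' b4 b5

/-- limits exist -/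
theorem exists_lim {P : Type v} (U : Ultrafilter P) (ν' : P → G → G → EReal) :
    ∃ ν : G → G → EReal,
      ∀ h g : G, Filter.Tendsto (fun p => ν' p h g) U (nhds (ν h g)) := by
  have hlim : ∀ h g : G, ∃ x : EReal, Filter.Tendsto (fun p => ν' p h g) U (nhds x) := by
    intro h g
    obtain ⟨x, -, hx⟩ := (isCompact_univ (X := EReal)).ultrafilter_le_nhds
      (U.map (fun p => ν' p h g)) (by simp)
    exact ⟨x, hx⟩
  choose ν hν using hlim
  exact ⟨ν, hν⟩

/-- transport of the local laws along a partial homomorphism -/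
theorem LocNu.comap {Q : Type v} [Group Q] {ν : Q → Q → EReal} (N : LocNu Set.univ ν) {F : Set G}
    {σ : G → Q} (h1 : σ 1 = 1) (hmul : ∀ x ∈ F, ∀ y ∈ F, σ (x * y) = σ x * σ y)
    (hne : ∀ x ∈ F, x ≠ 1 → σ x ≠ 1) : LocNu F (fun h g => ν (σ h) (σ g)) := by
  refine ⟨?_, ?_, ?_, ?_, ?_⟩
  · intro h hh hh1
    exact N.one (σ h) trivial (hne h hh hh1)
  · intro h hh hh1
    show ν (σ h) (σ 1) = 0
    rw [h1]
    exact N.triv (σ h) trivial (hne h hh hh1)
  · intro h hh g hg g' hg' _ hh1 a1 a2 a3 a4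
    show ν (σ h) (σ (g * g')) = _
    rw [hmul g hg g' hg']
    exact N.add (σ h) trivial (σ g) trivial (σ g') trivial trivial (hne h hh hh1) a1 a2 a3 a4
  · intro h hh g hg hg' hh1
    have e : σ g⁻¹ = (σ g)⁻¹ := by
      have := hmul g hg g⁻¹ hg'
      rw [mul_inv_cancel, h1] at this
      exact (inv_eq_of_mul_eq_one_right this.symm).symm
    show ν (σ h) (σ g⁻¹) = _
    rw [e]
    exact N.inv (σ h) trivial (σ g) trivial trivial (hne h hh hh1)
  · intro h hh h' hh' g hg a1 a2 a3 a4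
    exact N.mul (σ h) trivial (σ h') trivial (σ g) trivial (hne h hh a1) (hne h' hh' a2) a3 a4

private def Fn (x : EReal) : Prop := x ≠ ⊤ ∧ x ≠ ⊥

private theorem Fn_coe (x : ℝ) : Fn (x : EReal) := ⟨EReal.coe_ne_top x, EReal.coe_ne_bot x⟩

private theorem Fn_zero : Fn 0 := by
  have := Fn_coe 0
  rwa [EReal.coe_zero] at this

private theorem Fn_one : Fn 1 := by
  have := Fn_coe 1
  rwa [EReal.coe_one] at this

private theorem Fn.lift {x : EReal} (h : Fn x) : ∃ r : ℝ, x = (r : EReal) :=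
  ⟨x.toReal, (EReal.coe_toReal h.1 h.2).symm⟩

private theorem Fn.neg {x : EReal} (h : Fn x) : Fn (-x) := by
  obtain ⟨r, rfl⟩ := h.lift
  rw [← EReal.coe_neg]
  exact Fn_coe _

private theorem Fn.add {x y : EReal} (h : Fn x) (h' : Fn y) : Fn (x + y) := by
  obtain ⟨r, rfl⟩ := h.lift
  obtain ⟨s, rfl⟩ := h'.lift
  rw [← EReal.coe_add]
  exact Fn_coe _

private theorem Fn.mul {x y : EReal} (h : Fn x) (h' : Fn y) : Fn (x * y) := by
  obtain ⟨r, rfl⟩ := h.lift
  obtain ⟨s, rfl⟩ := h'.lift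
  rw [← EReal.coe_mul]
  exact Fn_coe _

/-- an infinite element times a nonzero element is not one -/
private theorem inf_mul_ne {x y : EReal} (h : ¬ Fn x) (h' : y ≠ 0) : x * y ≠ 1 := by
  have h1 : x = ⊤ ∨ x = ⊥ := by
    unfold Fn at h
    by_contra hc
    rw [not_or] at hc
    exact h hc
  have hn : (1 : EReal) ≠ ⊤ := Fn_one.1
  have hm : (1 : EReal) ≠ ⊥ := Fn_one.2
  rcases lt_or_gt_of_ne h' with h2 | h2
  · rcases h1 with rfl | rfl
    · rw [EReal.top_mul_of_neg h2]
      exact hm.symm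
    · rw [EReal.bot_mul_of_neg h2]
      exact hn.symm
  · rcases h1 with rfl | rfl
    · rw [EReal.top_mul_of_pos h2]
      exact hn.symm
    · rw [EReal.bot_mul_of_pos h2]
      exact hm.symm

section

variable {ν : G → G → EReal} (N : LocNu Set.univ ν)

include N

private theorem nu_one {h : G} (hh : h ≠ 1) : ν h h = 1 := N.one h trivial hh

private theorem nu_a {g h : G} (hg : g ≠ 1) (hh : h ≠ 1) (h0 : ν h g = 0) : ¬ Fn (ν g h) := by
  intro hf
  have h1 := N.mul h trivial g trivial h trivial hh hg (Or.inr hf) (Or.inl (by rw [h0]; exact Fn_zero))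
  rw [nu_one N hh, h0, zero_mul] at h1
  exact one_ne_zero h1

private theorem nu_b {g h : G} (hg : g ≠ 1) (hh : h ≠ 1) (h0 : ¬ Fn (ν h g)) : ν g h = 0 := by
  by_contra hne
  have h1 := N.mul h trivial g trivial h trivial hh hg
    (Or.inl (fun h2 => h0 (by rw [h2]; exact Fn_zero))) (Or.inr hne)
  rw [nu_one N hh] at h1
  exact inf_mul_ne h0 hne h1.symm

private theorem nu_z {g h : G} (hg : g ≠ 1) (hh : h ≠ 1) : ν h g = 0 ↔ ¬ Fn (ν g h) :=
  ⟨nu_a N hg hh, nu_b N hh hg⟩

private theorem nu_trans {g h l : G} (hh : h ≠ 1) (hl : l ≠ 1) (h1 : Fn (ν h g))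
    (h2 : Fn (ν l h)) : Fn (ν l g) := by
  rw [N.mul l trivial h trivial g trivial hl hh (Or.inr h1) (Or.inl h2)]
  exact h2.mul h1

private theorem nu_total {g h : G} (hg : g ≠ 1) (hh : h ≠ 1) : Fn (ν h g) ∨ Fn (ν g h) := by
  by_cases h1 : Fn (ν h g)
  · exact Or.inl h1
  · right
    rw [nu_b N hg hh h1]
    exact Fn_zero

private theorem nu_add {h g g' : G} (hh : h ≠ 1) (h1 : Fn (ν h g)) (h2 : Fn (ν h g')) :
    ν h (g * g') = ν h g + ν h g' :=
  N.add h trivial g trivial g' trivial trivial hh h1.1 h1.2 h2.1 h2.2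

private theorem nu_inv {h g : G} (hh : h ≠ 1) : ν h g⁻¹ = - ν h g :=
  N.inv h trivial g trivial trivial hh

/-- the preorder of the nontrivial elements -/
@[reducible] private def preX : Preorder {g : G // g ≠ 1} where
  le g h := Fn (ν h g)
  le_refl g := by
    show Fn (ν g g)
    rw [nu_one N g.2]
    exact Fn_one
  le_trans g h l h1 h2 := nu_trans N h.2 l.2 h1 h2

private theorem conrad_of_nu_aux : ∃ S : ConradSys G, ∀ i : S.I, ∃ h : G, h ≠ 1 ∧
      (∀ g, S.lev g ≤ (i : WithBot S.I) ↔ ν h g ≠ ⊤ ∧ ν h g ≠ ⊥) ∧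
      (∀ g, S.lev g < (i : WithBot S.I) ↔ ν h g = 0) ∧
      ∀ g, S.τ i g = (ν h g).toReal := by
  classical
  let P : Preorder {g : G // g ≠ 1} := preX N
  have hle : ∀ g h : {g : G // g ≠ 1}, g ≤ h ↔ Fn (ν h g) := fun _ _ => Iff.rfl
  have : @Std.Total {g : G // g ≠ 1} (· ≤ ·) := ⟨fun g h => nu_total N g.2 h.2⟩
  let LO : LinearOrder (Antisymmetrization {g : G // g ≠ 1} (· ≤ ·)) := inferInstance
  let I : Type u := Antisymmetrization {g : G // g ≠ 1} (· ≤ ·)
  let cls : {g : G // g ≠ 1} → I := toAntisymmetrization (· ≤ ·)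
  let rep : I → {g : G // g ≠ 1} := ofAntisymmetrization (· ≤ ·)
  have hrep : ∀ i, cls (rep i) = i := fun i => toAntisymmetrization_ofAntisymmetrization (· ≤ ·) i
  have hcls : ∀ g h : {g : G // g ≠ 1}, cls g ≤ cls h ↔ Fn (ν h g) := fun g h =>
    toAntisymmetrization_le_toAntisymmetrization_iff
  let lev : G → WithBot I := fun g => if h : g = 1 then ⊥ else ((cls ⟨g, h⟩ : I) : WithBot I)
  have hlev1 : lev 1 = ⊥ := dif_pos rfl
  have hlev : ∀ (g : G) (h : g ≠ 1), lev g = ((cls ⟨g, h⟩ : I) : WithBot I) := fun g h => dif_neg h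
  have hle_iff : ∀ (g : G) (i : I), lev g ≤ (i : WithBot I) ↔ Fn (ν (rep i) g) := by
    intro g i
    by_cases hg : g = 1
    · subst hg
      rw [hlev1, N.triv _ trivial (rep i).2]
      exact ⟨fun _ => Fn_zero, fun _ => bot_le⟩
    · rw [hlev g hg, WithBot.coe_le_coe]
      have h1 := hcls ⟨g, hg⟩ (rep i)
      rw [hrep] at h1
      exact h1
  have hlt_iff : ∀ (g : G) (i : I), lev g < (i : WithBot I) ↔ ν (rep i) g = 0 := by
    intro g i
    by_cases hg : g = 1
    · subst hg
      rw [hlev1, N.triv _ trivial (rep i).2]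
      exact ⟨fun _ => rfl, fun _ => WithBot.bot_lt_coe i⟩
    · rw [hlev g hg, WithBot.coe_lt_coe, ← not_le]
      have h1 := hcls (rep i) ⟨g, hg⟩
      rw [hrep] at h1
      rw [h1]
      exact (nu_z N hg (rep i).2).symm
  have hbot : ∀ g, lev g = ⊥ ↔ g = 1 := by
    intro g
    refine ⟨fun h => ?_, fun h => by rw [h, hlev1]⟩
    by_contra hg
    rw [hlev g hg] at h
    exact WithBot.coe_ne_bot h
  have hinv : ∀ g, lev g⁻¹ ≤ lev g := by
    intro g
    by_cases hg : lev g = ⊥
    · have h1 := (hbot g).1 hg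
      rw [h1, inv_one]
    · obtain ⟨i, hi⟩ := WithBot.ne_bot_iff_exists.1 hg
      have h1 := (hle_iff g i).1 hi.symm.le
      rw [← hi, hle_iff, nu_inv N (rep i).2]
      exact h1.neg
  exact ⟨{
    I := I
    ord := LO
    lev := lev
    τ := fun i g => (ν (rep i) g).toReal
    lev_bot := hbot
    lev_inv := fun g => le_antisymm (hinv g) (by
      have h := hinv g⁻¹
      rwa [inv_inv] at h)
    lev_mul := by
      intro g h
      by_cases hm : max (lev g) (lev h) = ⊥
      · have h1 : lev g = ⊥ := le_bot_iff.1 (hm ▸ le_max_left _ _)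
        have h2 : lev h = ⊥ := le_bot_iff.1 (hm ▸ le_max_right _ _)
        rw [(hbot g).1 h1, (hbot h).1 h2, one_mul, hlev1]
        exact bot_le
      · obtain ⟨i, hi⟩ := WithBot.ne_bot_iff_exists.1 hm
        have h1 : lev g ≤ (i : WithBot I) := by rw [hi]; exact le_max_left _ _
        have h2 : lev h ≤ (i : WithBot I) := by rw [hi]; exact le_max_right _ _
        rw [hle_iff] at h1 h2
        rw [← hi, hle_iff, nu_add N (rep i).2 h1 h2]
        exact h1.add h2
    τ_mul := by
      intro i g h h1 h2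
      rw [hle_iff] at h1 h2
      show (ν (rep i) (g * h)).toReal = (ν (rep i) g).toReal + (ν (rep i) h).toReal
      rw [nu_add N (rep i).2 h1 h2, EReal.toReal_add h1.1 h1.2 h2.1 h2.2]
    τ_zero := by
      intro i g h1
      rw [hlt_iff]
      rw [hle_iff] at h1
      show (ν (rep i) g).toReal = 0 ↔ _
      obtain ⟨r, hr⟩ := h1.lift
      rw [hr, EReal.toReal_coe, EReal.coe_eq_zero] }, fun i => ⟨rep i, (rep i).2,
        fun g => hle_iff g i, fun g => hlt_iff g i, fun g => rfl⟩⟩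

end

theorem conrad_of_nu {ν : G → G → EReal} (N : LocNu Set.univ ν) :
    ∃ S : ConradSys G, ∀ i : S.I, ∃ h : G, h ≠ 1 ∧
      (∀ g, S.lev g ≤ (i : WithBot S.I) ↔ ν h g ≠ ⊤ ∧ ν h g ≠ ⊥) ∧
      (∀ g, S.lev g < (i : WithBot S.I) ↔ ν h g = 0) ∧
      ∀ g, S.τ i g = (ν h g).toReal := conrad_of_nu_aux N

end Pool.Agent.HFT
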