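import Pool.Agent.HFT.LMv
import Pool.Agent.HFT.LMc
import Pool.Agent.HFT.HFb

/-! # HFT/LMe: the valuation of a Hughes-free division ring at an element (helper49)

PROOF. `grData_of_hf`: `hτ`: `map_mul`. `norm`: `HFbAux.conj_closure` (`u = alN φ N a`), a generator
`φ (single b r)`, `χ b = 1`, is mapped to `φ (single (a b a⁻¹) r)` with `χ (a b a⁻¹) = 1`. `ker`: `χ a = 1`, so
`φ (single a 1)` is a generator. `ind`: `hf_char`.
`exists_locVal`: let `i` be the level of `h` (`lev_bot`, `h ≠ 1`), `N := {g | S.lev g ≤ i}` (a subgroup, by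
`lev_bot`, `lev_mul`, `lev_inv`), `χ g := ofAdd (S.τ i g / S.τ i h)` a homomorphism by `τ_mul`,
`Δ := dlt φ N χ`; `grData_of_hf` and `exists_isVgen` (in `OV.lean`) give `v`; `E := Subfield.closure (Δ ∪ range α)`.
For `g` with `nuOf h g` finite, `g ∈ N` (`nuOf_fn`), `χ g` is the value `(nuOf h g).toReal` (`nuOf_eq`).
`sc`: `φ (single 1 r) ∈ Δ` (generator with `b = 1`).
`bd`: `val_bound` for the family `i ↦ ⟨g i, _⟩ : N`; the entries `∑ l, φ (single (g l) (r l))` are
`Ent`, since `φ (single (g l) (r l)) = φ (single 1 (r l)) * φ (single (g l) 1)`.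
`LocVal.sum_ne`: induction on the nonempty finite set `s` shows: the sum `x` of the `x l`, `l ∈ s`, is in `E` and
`v x = v (x l)` for some `l ∈ s` (so `≠ ⊤`, `x ≠ 0`): for `x + y`, `v x < v y`: `v (x + y) = v x`
(ultrametric inequality for `x + y` and for `x = (x + y) + (-y)`; `v (-y) = v y` since
`v (-1) + v (-1) = v 1 = 0`, `v 1 + v 1 = v 1`, `v 1 ≠ ⊤`; see `v_add_of_lt`, `v_neg` in `OV.lean`). -/

set_option autoImplicit false

universe u w

namespace Pool.Agent.HFT

variable {K : Type u} [DivisionRing K] {Q : Type u} [Group Q] {D : Type w} [DivisionRing D]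

/-- the embedding of a subgroup -/
noncomputable def alN (φ : MonoidAlgebra K Q →+* D) (N : Subgroup Q) : N →* D :=
  ((φ : MonoidAlgebra K Q →* D).comp (MonoidAlgebra.of K Q)).comp N.subtype

theorem alN_apply (φ : MonoidAlgebra K Q →+* D) (N : Subgroup Q) (a : N) :
    alN φ N a = φ (MonoidAlgebra.single (a : Q) 1) := rfl

/-- the division ring generated by `K` and the kernel of the character `χ` -/
def dlt (φ : MonoidAlgebra K Q →+* D) (N : Subgroup Q) (χ : N →* Multiplicative ℝ) : Subfield D :=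
  Subfield.closure {x : D | ∃ (b : N) (r : K), χ b = 1 ∧ x = φ (MonoidAlgebra.single (b : Q) r)}

theorem grData_of_hf {φ : MonoidAlgebra K Q →+* D} (h : HughesFree K Q D φ) (N : Subgroup Q)
    (χ : N →* Multiplicative ℝ) :
    GrData (alN φ N) (fun a => Multiplicative.toAdd (χ a)) (dlt φ N χ) := by
  refine ⟨?_, ?_, ?_, ?_⟩
  · intro a b
    rw [map_mul]
    rfl
  · intro a x hx
    have h1 : alN φ N a⁻¹ = (alN φ N a)⁻¹ := HFbAux.br_inv φ (a : Q)
    rw [h1]
    refine HFbAux.conj_closure (HFbAux.br_ne_zero φ (a : Q)) ?_ hx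
    rintro _ ⟨b, r, hb, rfl⟩
    refine Subfield.subset_closure ⟨a * b * a⁻¹, r, ?_, ?_⟩
    · rw [map_mul, map_mul, hb, mul_one, ← map_mul, mul_inv_cancel, map_one]
    · rw [← HFbAux.br_inv φ (a : Q)]
      show φ (MonoidAlgebra.single (a : Q) 1) * φ (MonoidAlgebra.single (b : Q) r) *
        φ (MonoidAlgebra.single (a : Q)⁻¹ 1) = _
      rw [← map_mul, ← map_mul, MonoidAlgebra.single_mul_single, MonoidAlgebra.single_mul_single,
        one_mul, mul_one]
      rfl
  · intro a ha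
    refine Subfield.subset_closure ⟨a, 1, ?_, rfl⟩
    exact Multiplicative.toAdd.injective ha
  · intro n a c hinj hc hs
    refine hf_char h N χ a c ?_ hc hs
    intro l l' hll
    exact hinj (congrArg Multiplicative.toAdd hll)

/-- `v` is a valuation on `E`, equal to `nuOf h` on the group elements of level at most the
level of `h`, with uniform bounds for the rational elements -/
structure LocVal (S : ConradSys Q) (φ : MonoidAlgebra K Q →+* D) (h : Q) (E : Subfield D)
    (v : D → WithTop ℝ) : Prop where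
  top : ∀ x ∈ E, (v x = ⊤ ↔ x = 0)
  mul : ∀ x ∈ E, ∀ y ∈ E, v (x * y) = v x + v y
  add : ∀ x ∈ E, ∀ y ∈ E, min (v x) (v y) ≤ v (x + y)
  al : ∀ g : Q, (S.nuOf h g ≠ ⊤ ∧ S.nuOf h g ≠ ⊥) → φ (MonoidAlgebra.single g 1) ∈ E ∧
    v (φ (MonoidAlgebra.single g 1)) = (((S.nuOf h g).toReal : ℝ) : WithTop ℝ)
  bd : ∀ (J : Type) [Fintype J] [DecidableEq J] (κ : Type u) [Fintype κ] (g : κ → Q)
    (A Nv : Matrix J J D) (f x y : J → D),
    (∀ i, S.nuOf h (g i) ≠ ⊤ ∧ S.nuOf h (g i) ≠ ⊥) →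
    (∀ i j, ∃ r : κ → K, A i j = ∑ l, φ (MonoidAlgebra.single (g l) (r l))) →
    (∀ i, ∃ r : κ → K, f i = ∑ l, φ (MonoidAlgebra.single (g l) (r l))) →
    (∀ i, ∃ r : κ → K, x i = ∑ l, φ (MonoidAlgebra.single (g l) (r l))) →
    A * Nv = 1 → A.mulVec y = x →
    (∑ i, f i * y i) ∈ E ∧
      ((∑ i, f i * y i) ≠ 0 → ∃ t : ℝ, v (∑ i, f i * y i) = (t : WithTop ℝ) ∧
        |t| ≤ (2 * bdR (Fintype.card J) (Fintype.card κ) + 1 : ℕ) *
          ∑ i, |(S.nuOf h (g i)).toReal|)

theorem exists_locVal (S : ConradSys Q) {φ : MonoidAlgebra K Q →+* D} (hφ : HughesFree K Q D φ)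
    {h : Q} (hh : h ≠ 1) : ∃ (E : Subfield D) (v : D → WithTop ℝ), LocVal S φ h E v := by
  have h0 : S.lev h ≠ ⊥ := fun h1 => hh ((S.lev_bot h).1 h1)
  obtain ⟨i, hi⟩ := WithBot.ne_bot_iff_exists.1 h0
  have hi' : S.lev h = (i : WithBot S.I) := hi.symm
  have hone : S.lev 1 ≤ (i : WithBot S.I) := by
    rw [(S.lev_bot 1).2 rfl]
    exact bot_le
  let N : Subgroup Q :=
    { carrier := {g | S.lev g ≤ (i : WithBot S.I)}
      one_mem' := hone
      mul_mem' := fun {a b} ha hb => le_trans (S.lev_mul a b) (max_le ha hb)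
      inv_mem' := fun {a} ha => by
        show S.lev a⁻¹ ≤ _
        rw [S.lev_inv]
        exact ha }
  let χ : N →* Multiplicative ℝ :=
    { toFun := fun g => Multiplicative.ofAdd (S.τ i (g : Q) / S.τ i h)
      map_one' := by
        have h1 : S.τ i ((1 : N) : Q) = 0 := by
          refine (S.τ_zero i _ hone).2 ?_
          show S.lev 1 < _
          rw [(S.lev_bot 1).2 rfl]
          exact WithBot.bot_lt_coe i
        rw [h1, zero_div]
        rfl
      map_mul' := fun a b => by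
        have h1 : S.τ i ((a * b : N) : Q) = S.τ i (a : Q) + S.τ i (b : Q) :=
          S.τ_mul i a b a.2 b.2
        rw [h1, add_div]
        rfl }
  have hχ : ∀ a : N, Multiplicative.toAdd (χ a) = S.τ i (a : Q) / S.τ i h := fun a => rfl
  have hnu : ∀ (g : Q) (hg : g ∈ N), (S.nuOf h g).toReal = Multiplicative.toAdd (χ ⟨g, hg⟩) := by
    intro g hg
    rw [S.nuOf_eq hh hi' hg, EReal.toReal_coe, hχ]
  have hGr := grData_of_hf hφ N χ
  obtain ⟨v, hv⟩ := exists_isVgen hGr
  have hfin : ∀ g : Q, (S.nuOf h g ≠ ⊤ ∧ S.nuOf h g ≠ ⊥) → g ∈ N := fun g hg =>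
    (S.nuOf_fn hh hi' g).1 hg
  refine ⟨Subfield.closure ((dlt φ N χ : Set D) ∪ Set.range (alN φ N)), v, hv.top, hv.mul,
    hv.add, ?_, ?_⟩
  · intro g hg
    have hgN := hfin g hg
    refine ⟨Subfield.subset_closure (Or.inr ⟨⟨g, hgN⟩, rfl⟩), ?_⟩
    rw [hnu g hgN]
    exact hv.deg ⟨g, hgN⟩
  · intro J _ _ κ _ g A Nv f x y hg hA hf hx hN hy
    let g' : κ → N := fun l => ⟨g l, hfin (g l) (hg l)⟩
    have hEnt : ∀ z : D, (∃ r : κ → K, z = ∑ l, φ (MonoidAlgebra.single (g l) (r l))) →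
        Ent (alN φ N) (dlt φ N χ) g' z := by
      rintro z ⟨r, rfl⟩
      refine ⟨fun l => φ (MonoidAlgebra.single 1 (r l)), ?_, ?_⟩
      · intro l
        exact Subfield.subset_closure ⟨1, r l, map_one χ, rfl⟩
      · refine Finset.sum_congr rfl fun l _ => ?_
        exact HFbAux.single_eq φ (g l) (r l)
    obtain ⟨h1, h2⟩ := val_bound hGr hv g' A Nv f x y (fun i j => hEnt _ (hA i j))
      (fun i => hEnt _ (hf i)) (fun i => hEnt _ (hx i)) hN hy
    refine ⟨h1, fun hne => ?_⟩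
    obtain ⟨t, ht, htb⟩ := h2 hne
    refine ⟨t, ht, ?_⟩
    have h3 : ∑ l, |(S.nuOf h (g l)).toReal| = ∑ l, |Multiplicative.toAdd (χ (g' l))| :=
      Finset.sum_congr rfl fun l _ => by rw [hnu (g l) (hfin (g l) (hg l))]
    rw [h3]
    exact htb

private theorem LocVal.one {S : ConradSys Q} {φ : MonoidAlgebra K Q →+* D} {h : Q}
    {E : Subfield D} {v : D → WithTop ℝ} (V : LocVal S φ h E v) : v 1 = 0 := by
  have h1 : v 1 ≠ ⊤ := fun h1 => one_ne_zero ((V.top 1 (one_mem E)).1 h1)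
  obtain ⟨r, hr⟩ := WithTop.ne_top_iff_exists.1 h1
  have h2 := V.mul 1 (one_mem E) 1 (one_mem E)
  rw [one_mul, ← hr, ← WithTop.coe_add, WithTop.coe_inj] at h2
  have h3 : r = 0 := by linarith
  rw [← hr, h3, WithTop.coe_zero]

private theorem LocVal.neg {S : ConradSys Q} {φ : MonoidAlgebra K Q →+* D} {h : Q}
    {E : Subfield D} {v : D → WithTop ℝ} (V : LocVal S φ h E v) {x : D} (hx : x ∈ E) :
    v (-x) = v x := by
  have h0 : (-1 : D) ∈ E := neg_mem (one_mem E)
  have h1 : v (-1) ≠ ⊤ := fun h1 => (neg_ne_zero.2 one_ne_zero) ((V.top (-1) h0).1 h1)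
  obtain ⟨r, hr⟩ := WithTop.ne_top_iff_exists.1 h1
  have h2 := V.mul (-1) h0 (-1) h0
  rw [neg_mul_neg, one_mul, V.one, ← hr, ← WithTop.coe_add, ← WithTop.coe_zero,
    WithTop.coe_inj] at h2
  have h3 : r = 0 := by linarith
  have h4 : v (-1) = 0 := by rw [← hr, h3, WithTop.coe_zero]
  have h5 : -x = (-1) * x := by rw [neg_mul, one_mul]
  rw [h5, V.mul (-1) h0 x hx, h4, zero_add]

private theorem LocVal.add_of_lt {S : ConradSys Q} {φ : MonoidAlgebra K Q →+* D} {h : Q}
    {E : Subfield D} {v : D → WithTop ℝ} (V : LocVal S φ h E v) {x y : D} (hx : x ∈ E)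
    (hy : y ∈ E) (hlt : v x < v y) : v (x + y) = v x := by
  apply le_antisymm
  · by_contra hcon
    rw [not_le] at hcon
    have h1 := V.add (x + y) (add_mem hx hy) (-y) (neg_mem hy)
    rw [V.neg hy, add_neg_cancel_right] at h1
    exact absurd (lt_of_lt_of_le (lt_min hcon hlt) h1) (lt_irrefl _)
  · have h1 := V.add x hx y hy
    rwa [min_eq_left hlt.le] at h1

theorem LocVal.sum_ne {S : ConradSys Q} {φ : MonoidAlgebra K Q →+* D} {h : Q} {E : Subfield D}
    {v : D → WithTop ℝ} (V : LocVal S φ h E v) {κ : Type*} (s : Finset κ) (hs : s.Nonempty)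
    (x : κ → D) (hx : ∀ l ∈ s, x l ∈ E) (t : κ → ℝ) (ht : ∀ l ∈ s, v (x l) = (t l : WithTop ℝ))
    (hinj : Set.InjOn t (s : Set κ)) : ∑ l ∈ s, x l ≠ 0 := by
  classical
  have key : (∑ l ∈ s, x l) ∈ E ∧ ∃ l ∈ s, v (∑ l ∈ s, x l) = (t l : WithTop ℝ) := by
    induction s using Finset.induction_on with
    | empty => exact absurd hs Finset.not_nonempty_empty
    | insert a s ha ih =>
      rw [Finset.sum_insert ha]
      rcases s.eq_empty_or_nonempty with rfl | hs'
      · rw [Finset.sum_empty, add_zero]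
        exact ⟨hx a (Finset.mem_insert_self _ _), a, Finset.mem_insert_self _ _,
          ht a (Finset.mem_insert_self _ _)⟩
      · obtain ⟨h1, l, hl, h2⟩ := ih hs' (fun l hl => hx l (Finset.mem_insert_of_mem hl))
          (fun l hl => ht l (Finset.mem_insert_of_mem hl))
          (hinj.mono (by exact_mod_cast Finset.subset_insert a s))
        have h3 := hx a (Finset.mem_insert_self _ _)
        have h4 := ht a (Finset.mem_insert_self _ _)
        refine ⟨add_mem h3 h1, ?_⟩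
        have hne : t a ≠ t l := by
          intro h5
          have h6 := hinj (by exact_mod_cast Finset.mem_insert_self a s)
            (by exact_mod_cast Finset.mem_insert_of_mem hl) h5
          rw [h6] at ha
          exact ha hl
        rcases lt_or_gt_of_ne hne with h5 | h5
        · refine ⟨a, Finset.mem_insert_self _ _, ?_⟩
          rw [← h4]
          refine V.add_of_lt h3 h1 ?_
          rw [h4, h2]
          exact WithTop.coe_lt_coe.2 h5
        · refine ⟨l, Finset.mem_insert_of_mem hl, ?_⟩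
          rw [← h2, add_comm]
          refine V.add_of_lt h1 h3 ?_
          rw [h4, h2]
          exact WithTop.coe_lt_coe.2 h5
  obtain ⟨h1, l, _, h2⟩ := key
  intro h3
  rw [(V.top _ h1).2 h3] at h2
  exact WithTop.top_ne_coe h2

end Pool.Agent.HFT
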