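import Mathlib

/-! # HFT/RatC: rational closure (helper49)

`Rat θ B T c`: there are a square matrix `A` with entries in the group ring supported in `B`, invertible over
`U`, a column `x` supported in `B`, a row `f` supported in `T` such that `c = f A⁻¹ x`; `y = A⁻¹ x`.

PROOF. `rat_of`: `J = Unit`, `A = 1`, `x = 1`, `f = z`, `y = 1`.
`rat_add`: `J ⊕ J'`, block diagonal matrix (`Matrix.fromBlocks A 0 0 A'`), `Sum.elim x x'`, `Sum.elim f f'`,
`Sum.elim y y'`. A block matrix `fromBlocks A X 0 A'` with `A, A'` invertible is invertible: inverse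
`fromBlocks N (-(N * X * N')) 0 N'` (`Matrix.fromBlocks_multiply`); same for the transposed shape
(`isUnit_upper`, `isUnit_lower`).
`rat_mul`: `c c' = f (y c')`, `A (y c') = x c' = (x f') y'`: on `J ⊕ J'` take `fromBlocks A (-(x f')) 0 A'`, right
hand side `Sum.elim 0 x'`, solution `Sum.elim (y c') y'`, row `Sum.elim f 0`; the entries `x i * f' j` are
supported in `B` (subgroup).
`rat_inv`: on `J ⊕ Unit` take `fromBlocks A x f 0` (column `x`, row `f`), right hand side `Sum.elim 0 (-1)`,
solution `Sum.elim (- y c⁻¹) c⁻¹`, row `Sum.elim 0 1`. It is invertible: with `N` the inverse of `A` it is the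
product of `fromBlocks A 0 f 1` and `fromBlocks 1 (N x) 0 (-c)` (`c = f N x`, `N x = y`).
`rat_closure`: `Subfield.closure_induction` with the statements above (`0⁻¹ = 0`; `1 = θ 1`;
generators: `rat_of` for `single 1 r`, `single b 1`).
`rat_left`: `θ (single g 1) * c = ∑ θ (single g 1 * f i) * y i`; the support of `single g 1 * f i` is contained in
`g B`.
`rat_one_add`: the matrix `M = bm A x f = fromBlocks A x (-f) 1` on `J ⊕ Unit` satisfies `M.map θ *ᵥ (Sum.elim (-y) 1) =
Sum.elim (-(A y) + x) (f y + 1) = Sum.elim 0 (c + 1)`. If `1 + c = 0` this is zero, and `M.map θ`, being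
invertible (hypothesis `hstar`, applied to `M` and `M0 = bm A x 0 = fromBlocks A x 0 1`; `M0.map θ` is invertible by
`isUnit_upper`), would give `Sum.elim (-y) 1 = 0`, so `1 = 0`, a contradiction. -/

set_option autoImplicit false

universe u w

namespace Pool.Agent.HFT

variable {G : Type u} [Group G] {R : Type u} [DivisionRing R] {U : Type w} [DivisionRing U]

/-- the support is contained in `B` -/
def SuppIn (B : Set G) (x : MonoidAlgebra R G) : Prop := ∀ g ∈ x.coeff.support, g ∈ B

/-- rational elements `f A⁻¹ x` -/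
def Rat (θ : MonoidAlgebra R G →+* U) (B T : Set G) (c : U) : Prop :=
  ∃ (J : Type) (_ : Fintype J) (_ : DecidableEq J) (f x : J → MonoidAlgebra R G)
    (A : Matrix J J (MonoidAlgebra R G)) (y : J → U),
    (∀ i, SuppIn T (f i)) ∧ (∀ i, SuppIn B (x i)) ∧ (∀ i j, SuppIn B (A i j)) ∧
    IsUnit (A.map θ) ∧ (A.map θ).mulVec y = (fun j => θ (x j)) ∧ c = ∑ i, θ (f i) * y i

theorem isUnit_upper {J J' : Type} [Fintype J] [DecidableEq J] [Fintype J'] [DecidableEq J']
    {A : Matrix J J U} {A' : Matrix J' J' U} (X : Matrix J J' U) (h : IsUnit A) (h' : IsUnit A') :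
    IsUnit (Matrix.fromBlocks A X 0 A') := by
  obtain ⟨⟨A, N, h1, h2⟩, rfl⟩ := h
  obtain ⟨⟨A', N', h3, h4⟩, rfl⟩ := h'
  refine ⟨⟨Matrix.fromBlocks A X 0 A', Matrix.fromBlocks N (-(N * X * N')) 0 N', ?_, ?_⟩, rfl⟩
  · rw [Matrix.fromBlocks_multiply, ← Matrix.fromBlocks_one]
    congr 1
    · rw [h1, Matrix.mul_zero, add_zero]
    · rw [Matrix.mul_neg, ← Matrix.mul_assoc, ← Matrix.mul_assoc, h1, Matrix.one_mul,
        neg_add_cancel]
    · rw [Matrix.zero_mul, Matrix.mul_zero, add_zero]
    · rw [Matrix.zero_mul, h3, zero_add]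
  · rw [Matrix.fromBlocks_multiply, ← Matrix.fromBlocks_one]
    congr 1
    · rw [h2, Matrix.mul_zero, add_zero]
    · rw [Matrix.neg_mul, Matrix.mul_assoc (N * X) N' A', h4, Matrix.mul_one, add_neg_cancel]
    · rw [Matrix.zero_mul, Matrix.mul_zero, add_zero]
    · rw [Matrix.zero_mul, h4, zero_add]

theorem isUnit_lower {J J' : Type} [Fintype J] [DecidableEq J] [Fintype J'] [DecidableEq J']
    {A : Matrix J J U} {A' : Matrix J' J' U} (X : Matrix J' J U) (h : IsUnit A) (h' : IsUnit A') :
    IsUnit (Matrix.fromBlocks A 0 X A') := by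
  obtain ⟨⟨A, N, h1, h2⟩, rfl⟩ := h
  obtain ⟨⟨A', N', h3, h4⟩, rfl⟩ := h'
  refine ⟨⟨Matrix.fromBlocks A 0 X A', Matrix.fromBlocks N 0 (-(N' * X * N)) N', ?_, ?_⟩, rfl⟩
  · rw [Matrix.fromBlocks_multiply, ← Matrix.fromBlocks_one]
    congr 1
    · rw [h1, Matrix.zero_mul, add_zero]
    · rw [Matrix.zero_mul, Matrix.mul_zero, add_zero]
    · rw [Matrix.mul_neg, ← Matrix.mul_assoc, ← Matrix.mul_assoc, h3, Matrix.one_mul,
        add_neg_cancel]
    · rw [Matrix.mul_zero, h3, zero_add]
  · rw [Matrix.fromBlocks_multiply, ← Matrix.fromBlocks_one]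
    congr 1
    · rw [h2, Matrix.zero_mul, add_zero]
    · rw [Matrix.zero_mul, Matrix.mul_zero, add_zero]
    · rw [Matrix.neg_mul, Matrix.mul_assoc (N' * X) N A, h2, Matrix.mul_one, neg_add_cancel]
    · rw [Matrix.mul_zero, h4, zero_add]

private theorem si_zero (T : Set G) : SuppIn T (0 : MonoidAlgebra R G) := by
  intro g hg
  simp at hg

private theorem si_neg {T : Set G} {x : MonoidAlgebra R G} (h : SuppIn T x) : SuppIn T (-x) := by
  intro g hg
  apply h g
  rw [Finsupp.mem_support_iff] at hg ⊢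
  intro h0
  apply hg
  have h1 : (-x).coeff g = -(x.coeff g) := rfl
  rw [h1, h0, neg_zero]

private theorem si_single {T : Set G} {g : G} (hg : g ∈ T) (r : R) :
    SuppIn T (MonoidAlgebra.single g r) := by
  intro k hk
  rw [MonoidAlgebra.coeff_single] at hk
  rw [Finset.mem_singleton.1 (Finsupp.support_single_subset hk)]
  exact hg

private theorem si_one (B : Subgroup G) : SuppIn (B : Set G) (1 : MonoidAlgebra R G) :=
  si_single (one_mem B) 1

private theorem si_mul {T T' T'' : Set G} {x y : MonoidAlgebra R G} (hx : SuppIn T x)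
    (hy : SuppIn T' y) (h : ∀ a ∈ T, ∀ b ∈ T', a * b ∈ T'') : SuppIn T'' (x * y) := by
  classical
  intro g hg
  obtain ⟨a, ha, b, hb, rfl⟩ := Finset.mem_mul.1 (MonoidAlgebra.support_coeff_mul_subset x y hg)
  exact h a (hx a ha) b (hy b hb)

variable {θ : MonoidAlgebra R G →+* U} {B : Subgroup G} {T : Set G}

theorem rat_of {z : MonoidAlgebra R G} (hz : SuppIn T z) : Rat θ (B : Set G) T (θ z) := by
  refine ⟨Unit, inferInstance, inferInstance, fun _ => z, fun _ => 1, 1, fun _ => 1,
    fun _ => hz, fun _ => si_one B, ?_, ?_, ?_, ?_⟩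
  · rintro ⟨⟩ ⟨⟩
    exact si_one B
  · rw [Matrix.map_one θ (map_zero θ) (map_one θ)]
    exact isUnit_one
  · rw [Matrix.map_one θ (map_zero θ) (map_one θ), Matrix.one_mulVec]
    funext i
    exact (map_one θ).symm
  · simp

private theorem blocks_supp {J J' : Type} {S : Set G} {A : Matrix J J (MonoidAlgebra R G)}
    {X : Matrix J J' (MonoidAlgebra R G)} {Y : Matrix J' J (MonoidAlgebra R G)}
    {A' : Matrix J' J' (MonoidAlgebra R G)}
    (hA : ∀ i j, SuppIn S (A i j)) (hX : ∀ i j, SuppIn S (X i j))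
    (hY : ∀ i j, SuppIn S (Y i j)) (hA' : ∀ i j, SuppIn S (A' i j)) :
    ∀ i j, SuppIn S (Matrix.fromBlocks A X Y A' i j) := by
  rintro (i | i) (j | j)
  · exact hA i j
  · exact hX i j
  · exact hY i j
  · exact hA' i j

theorem rat_add {c c' : U} (h : Rat θ (B : Set G) T c) (h' : Rat θ (B : Set G) T c') :
    Rat θ (B : Set G) T (c + c') := by
  obtain ⟨J, i1, i2, f, x, A, y, hf, hx, hA, hu, he, rfl⟩ := h
  obtain ⟨J', i1', i2', f', x', A', y', hf', hx', hA', hu', he', rfl⟩ := h'
  refine ⟨J ⊕ J', inferInstance, inferInstance, Sum.elim f f', Sum.elim x x',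
    Matrix.fromBlocks A 0 0 A', Sum.elim y y', ?_, ?_, ?_, ?_, ?_, ?_⟩
  · rintro (i | i)
    · exact hf i
    · exact hf' i
  · rintro (i | i)
    · exact hx i
    · exact hx' i
  · exact blocks_supp hA (fun _ _ => si_zero _) (fun _ _ => si_zero _) hA'
  · rw [Matrix.fromBlocks_map, Matrix.map_zero θ (map_zero θ), Matrix.map_zero θ (map_zero θ)]
    exact isUnit_upper 0 hu hu'
  · rw [Matrix.fromBlocks_map, Matrix.map_zero θ (map_zero θ), Matrix.map_zero θ (map_zero θ),
      Matrix.fromBlocks_mulVec, Sum.elim_comp_inl, Sum.elim_comp_inr, Matrix.zero_mulVec,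
      Matrix.zero_mulVec, add_zero, zero_add, he, he']
    funext i
    rcases i with i | i <;> rfl
  · rw [Fintype.sum_sum_type]
    rfl

theorem rat_sum {κ : Type*} (s : Finset κ) (c : κ → U) (h : ∀ i ∈ s, Rat θ (B : Set G) T (c i)) :
    Rat θ (B : Set G) T (∑ i ∈ s, c i) := by
  classical
  induction s using Finset.induction_on with
  | empty =>
    rw [Finset.sum_empty, ← map_zero θ]
    exact rat_of (si_zero T)
  | insert a s ha ih =>
    rw [Finset.sum_insert ha]
    exact rat_add (h a (Finset.mem_insert_self _ _))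
      (ih fun i hi => h i (Finset.mem_insert_of_mem hi))

theorem rat_neg {c : U} (h : Rat θ (B : Set G) T c) : Rat θ (B : Set G) T (-c) := by
  obtain ⟨J, i1, i2, f, x, A, y, hf, hx, hA, hu, he, rfl⟩ := h
  refine ⟨J, i1, i2, fun i => -f i, x, A, y, fun i => si_neg (hf i), hx, hA, hu, he, ?_⟩
  rw [← Finset.sum_neg_distrib]
  exact Finset.sum_congr rfl fun i _ => by rw [map_neg, neg_mul]

theorem rat_mul {c c' : U} (h : Rat θ (B : Set G) T c) (h' : Rat θ (B : Set G) (B : Set G) c') :
    Rat θ (B : Set G) T (c * c') := by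
  obtain ⟨J, i1, i2, f, x, A, y, hf, hx, hA, hu, he, rfl⟩ := h
  obtain ⟨J', i1', i2', f', x', A', y', hf', hx', hA', hu', he', rfl⟩ := h'
  refine ⟨J ⊕ J', inferInstance, inferInstance, Sum.elim f 0, Sum.elim 0 x',
    Matrix.fromBlocks A (Matrix.of fun i j => -(x i * f' j)) 0 A',
    Sum.elim (fun i => y i * ∑ j, θ (f' j) * y' j) y', ?_, ?_, ?_, ?_, ?_, ?_⟩
  · rintro (i | i)
    · exact hf i
    · exact si_zero T
  · rintro (i | i)
    · exact si_zero _
    · exact hx' i
  · exact blocks_supp hA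
      (fun i j => si_neg (si_mul (hx i) (hf' j) fun a ha b hb => mul_mem (S := Subgroup G) ha hb))
      (fun _ _ => si_zero _) hA'
  · rw [Matrix.fromBlocks_map, Matrix.map_zero θ (map_zero θ)]
    exact isUnit_upper _ hu hu'
  · rw [Matrix.fromBlocks_map, Matrix.map_zero θ (map_zero θ), Matrix.fromBlocks_mulVec,
      Sum.elim_comp_inl, Sum.elim_comp_inr, Matrix.zero_mulVec, zero_add, he']
    have h1 : (A.map θ).mulVec (fun i => y i * ∑ j, θ (f' j) * y' j) =
        fun i => θ (x i) * ∑ j, θ (f' j) * y' j := by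
      funext i
      have h2 := congrFun he i
      simp only [Matrix.mulVec, dotProduct] at h2 ⊢
      rw [← h2, Finset.sum_mul]
      exact Finset.sum_congr rfl fun j _ => (mul_assoc _ _ _).symm
    have h3 : ((Matrix.of fun i j => -(x i * f' j)).map θ).mulVec y' =
        fun i => -(θ (x i) * ∑ j, θ (f' j) * y' j) := by
      funext i
      simp only [Matrix.mulVec, dotProduct, Matrix.map_apply, Matrix.of_apply, map_neg, map_mul,
        neg_mul, Finset.sum_neg_distrib, Finset.mul_sum, mul_assoc]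
    rw [h1, h3]
    funext i
    rcases i with i | i
    · show θ (x i) * _ + -(θ (x i) * _) = θ 0
      rw [add_neg_cancel, map_zero]
    · rfl
  · rw [Fintype.sum_sum_type]
    simp only [Sum.elim_inl, Sum.elim_inr, Pi.zero_apply, map_zero, zero_mul,
      Finset.sum_const_zero, add_zero]
    rw [Finset.sum_mul]
    exact Finset.sum_congr rfl fun i _ => mul_assoc _ _ _

private theorem isUnit_unit {c : U} (hc : c ≠ 0) :
    IsUnit (Matrix.of fun (_ : Unit) (_ : Unit) => c) := by
  refine ⟨⟨Matrix.of fun _ _ => c, Matrix.of fun _ _ => c⁻¹, ?_, ?_⟩, rfl⟩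
  · ext ⟨⟩ ⟨⟩
    simp [Matrix.mul_apply, hc]
  · ext ⟨⟩ ⟨⟩
    simp [Matrix.mul_apply, hc]

theorem rat_inv {c : U} (h : Rat θ (B : Set G) (B : Set G) c) :
    Rat θ (B : Set G) (B : Set G) c⁻¹ := by
  by_cases hc : c = 0
  · rw [hc, inv_zero, ← map_zero θ]
    exact rat_of (si_zero _)
  obtain ⟨J, i1, i2, f, x, A, y, hf, hx, hA, hu, he, hcc⟩ := h
  refine ⟨J ⊕ Unit, inferInstance, inferInstance, Sum.elim 0 1, Sum.elim 0 (-1),
    Matrix.fromBlocks A (Matrix.of fun i _ => x i) (Matrix.of fun _ j => f j) 0,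
    Sum.elim (fun i => -(y i * c⁻¹)) (fun _ => c⁻¹), ?_, ?_, ?_, ?_, ?_, ?_⟩
  · rintro (i | i)
    · exact si_zero _
    · exact si_one B
  · rintro (i | i)
    · exact si_zero _
    · exact si_neg (si_one B)
  · exact blocks_supp hA (fun i _ => hx i) (fun _ j => hf j) (fun _ _ => si_zero _)
  · rw [Matrix.fromBlocks_map, Matrix.map_zero θ (map_zero θ)]
    have h1 : Matrix.fromBlocks (A.map θ) ((Matrix.of fun i (_ : Unit) => x i).map θ)
        ((Matrix.of fun (_ : Unit) j => f j).map θ) 0 =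
        Matrix.fromBlocks (A.map θ) 0 ((Matrix.of fun (_ : Unit) j => f j).map θ)
          (1 : Matrix Unit Unit U) *
        Matrix.fromBlocks (1 : Matrix J J U) (Matrix.of fun i (_ : Unit) => y i) 0
          (Matrix.of fun _ _ => -c) := by
      rw [Matrix.fromBlocks_multiply]
      congr 1
      · rw [Matrix.mul_one, Matrix.mul_zero, add_zero]
      · rw [Matrix.zero_mul, add_zero]
        ext i j
        have h2 := congrFun he i
        simp only [Matrix.mulVec, dotProduct] at h2
        rw [Matrix.mul_apply]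
        exact h2.symm
      · rw [Matrix.mul_one, Matrix.mul_zero, add_zero]
      · rw [Matrix.one_mul]
        ext i j
        rw [Matrix.add_apply, Matrix.mul_apply]
        show 0 = (∑ j, θ (f j) * y j) + -c
        rw [← hcc, add_neg_cancel]
    rw [h1]
    exact (isUnit_lower _ hu isUnit_one).mul
      (isUnit_upper _ isUnit_one (isUnit_unit (neg_ne_zero.2 hc)))
  · rw [Matrix.fromBlocks_map, Matrix.map_zero θ (map_zero θ), Matrix.fromBlocks_mulVec,
      Sum.elim_comp_inl, Sum.elim_comp_inr, Matrix.zero_mulVec, add_zero]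
    funext i
    rcases i with i | i
    · have h2 := congrFun he i
      simp only [Matrix.mulVec, dotProduct] at h2
      simp only [Sum.elim_inl, Pi.add_apply, Pi.zero_apply, map_zero, Matrix.mulVec, dotProduct,
        mul_neg, Finset.sum_neg_distrib, Matrix.map_apply, Matrix.of_apply, Finset.univ_unique,
        Finset.sum_singleton]
      rw [← h2, Finset.sum_mul, neg_add_eq_zero]
      exact Finset.sum_congr rfl fun j _ => (mul_assoc _ _ _).symm
    · simp only [Sum.elim_inr, Pi.neg_apply, Pi.one_apply, map_neg, map_one, Matrix.mulVec,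
        dotProduct, mul_neg, Finset.sum_neg_distrib, Matrix.map_apply, Matrix.of_apply]
      congr 1
      have h6 : ∑ j, θ (f j) * (y j * c⁻¹) = (∑ j, θ (f j) * y j) * c⁻¹ := by
        rw [Finset.sum_mul]
        exact Finset.sum_congr rfl fun j _ => (mul_assoc _ _ _).symm
      rw [h6, ← hcc, mul_inv_cancel₀ hc]
  · rw [Fintype.sum_sum_type]
    simp

theorem rat_closure {c : U} (h : c ∈ Subfield.closure
      (Set.range (fun r : R => θ (MonoidAlgebra.single 1 r)) ∪
        {x | ∃ b : G, b ∈ B ∧ θ (MonoidAlgebra.single b 1) = x})) :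
    Rat θ (B : Set G) (B : Set G) c := by
  induction h using Subfield.closure_induction with
  | mem x hx =>
    rcases hx with ⟨r, rfl⟩ | ⟨b, hb, rfl⟩
    · exact rat_of (si_single (one_mem B) r)
    · exact rat_of (si_single hb 1)
  | one =>
    rw [← map_one θ]
    exact rat_of (si_one B)
  | add x y _ _ hx hy => exact rat_add hx hy
  | neg x _ hx => exact rat_neg hx
  | inv x _ hx => exact rat_inv hx
  | mul x y _ _ hx hy => exact rat_mul hx hy

theorem rat_left {c : U} (h : Rat θ (B : Set G) (B : Set G) c) {g : G}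
    (hg : ∀ b ∈ B, g * b ∈ T) : Rat θ (B : Set G) T (θ (MonoidAlgebra.single g 1) * c) := by
  obtain ⟨J, i1, i2, f, x, A, y, hf, hx, hA, hu, he, rfl⟩ := h
  refine ⟨J, i1, i2, fun i => MonoidAlgebra.single g 1 * f i, x, A, y, fun i => ?_, hx, hA, hu,
    he, ?_⟩
  · refine si_mul (si_single (T := {g}) rfl 1) (hf i) ?_
    rintro a rfl b hb
    exact hg b hb
  · rw [Finset.mul_sum]
    exact Finset.sum_congr rfl fun i _ => by rw [map_mul, mul_assoc]

/-- the matrix `(A, x; -f, 1)` -/
noncomputable def bm {J : Type} (A : Matrix J J (MonoidAlgebra R G)) (x f : J → MonoidAlgebra R G) :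
    Matrix (J ⊕ Unit) (J ⊕ Unit) (MonoidAlgebra R G) :=
  Matrix.fromBlocks A (Matrix.of fun i (_ : Unit) => x i) (Matrix.of fun (_ : Unit) i => - f i)
    (1 : Matrix Unit Unit (MonoidAlgebra R G))

theorem rat_one_add {c : U} (h : Rat θ (B : Set G) T c)
    (hstar : ∀ (J : Type) (_ : Fintype J) (_ : DecidableEq J)
      (A : Matrix J J (MonoidAlgebra R G)) (x f : J → MonoidAlgebra R G),
      (∀ i j, SuppIn (B : Set G) (A i j)) → (∀ i, SuppIn (B : Set G) (x i)) →
      (∀ i, SuppIn T (f i)) → IsUnit ((bm A x 0).map θ) → IsUnit ((bm A x f).map θ)) :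
    1 + c ≠ 0 := by
  intro h0
  obtain ⟨J, i1, i2, f, x, A, y, hf, hx, hA, hu, he, hc⟩ := h
  have hu0 : IsUnit ((bm A x 0).map θ) := by
    unfold bm
    rw [Matrix.fromBlocks_map, Matrix.map_one θ (map_zero θ) (map_one θ)]
    have h1 : ((Matrix.of fun (_ : Unit) (i : J) => -(0 : J → MonoidAlgebra R G) i).map θ) = 0 := by
      ext i j
      simp
    rw [h1]
    exact isUnit_upper _ hu isUnit_one
  have h1 := hstar J i1 i2 A x f hA hx hf hu0
  have h2 : ((bm A x f).map θ).mulVec (Sum.elim (fun i => -y i) (fun _ => 1)) = 0 := by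
    unfold bm
    rw [Matrix.fromBlocks_map, Matrix.map_one θ (map_zero θ) (map_one θ),
      Matrix.fromBlocks_mulVec, Sum.elim_comp_inl, Sum.elim_comp_inr, Matrix.one_mulVec]
    funext i
    rcases i with i | i
    · have h2 := congrFun he i
      simp only [Matrix.mulVec, dotProduct] at h2
      simp only [Sum.elim_inl, Pi.add_apply, Pi.zero_apply, Matrix.mulVec, dotProduct,
        mul_neg, Finset.sum_neg_distrib, Matrix.map_apply, Matrix.of_apply, Finset.univ_unique,
        Finset.sum_singleton, mul_one]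
      rw [← h2, neg_add_eq_zero]
      rfl
    · simp only [Sum.elim_inr, Pi.add_apply, Pi.zero_apply, Matrix.mulVec, dotProduct,
        mul_neg, Matrix.map_apply, Matrix.of_apply, map_neg, neg_mul, neg_neg]
      rw [← hc, add_comm]
      exact h0
  obtain ⟨u, hu1⟩ := h1
  have h3 : (Sum.elim (fun i => -y i) (fun _ => 1) : J ⊕ Unit → U) = 0 := by
    rw [← Matrix.one_mulVec (Sum.elim (fun i => -y i) (fun _ => 1) : J ⊕ Unit → U),
      ← u.inv_mul, ← Matrix.mulVec_mulVec, hu1, h2, Matrix.mulVec_zero]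
  have h4 := congrFun h3 (Sum.inr ())
  exact one_ne_zero h4

end Pool.Agent.HFT
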