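import Mathlib

/-! # HFT/Ult: ultraproducts of division rings (helper49)

PROOF. `ultraCon 𝒰 D` identifies two families which agree at `𝒰`-almost all indices; it is a ring congruence.
`mkU x` is the class of a family. Division ring: for a family `x` either `x i = 0` for almost all `i`
(then `mkU x = 0`), or `x i ≠ 0` for almost all `i` (ultrafilter, `Ultrafilter.eventually_not`), and then
`x * x⁻¹` and `x⁻¹ * x` are almost everywhere `1`; `mkU 0 ≠ mkU 1` because `𝒰` is proper. -/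

set_option autoImplicit false

universe u w

namespace Pool.Agent.HFT

variable {I : Type u} (𝒰 : Ultrafilter I) (D : I → Type w) [∀ i, DivisionRing (D i)]

/-- the congruence of the ultraproduct -/
def ultraCon : RingCon (∀ i, D i) where
  r x y := ∀ᶠ i in (𝒰 : Filter I), x i = y i
  iseqv := ⟨fun x => Filter.Eventually.of_forall (fun _ => rfl),
    fun h => h.mono (fun _ h => h.symm), fun h h' => (h.and h').mono (fun _ h => h.1.trans h.2)⟩
  mul' h h' := (h.and h').mono (fun i h => by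
    simp only [Pi.mul_apply]
    rw [h.1, h.2])
  add' h h' := (h.and h').mono (fun i h => by
    simp only [Pi.add_apply]
    rw [h.1, h.2])

/-- the ultraproduct -/
def UProd : Type (max u w) := (ultraCon 𝒰 D).Quotient

noncomputable instance : Ring (UProd 𝒰 D) := inferInstanceAs (Ring (ultraCon 𝒰 D).Quotient)

/-- class of a family -/
def mkU : (∀ i, D i) →+* UProd 𝒰 D := (ultraCon 𝒰 D).mk'

variable {𝒰 D}

theorem mkU_eq_iff {x y : ∀ i, D i} :
    mkU 𝒰 D x = mkU 𝒰 D y ↔ ∀ᶠ i in (𝒰 : Filter I), x i = y i :=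
  RingCon.eq (ultraCon 𝒰 D)

theorem mkU_surjective : Function.Surjective (mkU 𝒰 D) := by
  intro z
  obtain ⟨x, hx⟩ := Quotient.exists_rep z
  exact ⟨x, hx⟩

theorem mkU_zero_or (x : ∀ i, D i) :
    mkU 𝒰 D x = 0 ∨ mkU 𝒰 D x * mkU 𝒰 D x⁻¹ = 1 ∧ mkU 𝒰 D x⁻¹ * mkU 𝒰 D x = 1 := by
  rcases (Ultrafilter.em 𝒰 (fun i => x i = 0)) with h | h
  · left
    rw [← map_zero (mkU 𝒰 D), mkU_eq_iff]
    exact h
  · right
    rw [← map_mul, ← map_mul, ← map_one (mkU 𝒰 D), mkU_eq_iff, mkU_eq_iff]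
    constructor
    · filter_upwards [h] with i hi
      exact mul_inv_cancel₀ hi
    · filter_upwards [h] with i hi
      exact inv_mul_cancel₀ hi

theorem nontrivialU : Nontrivial (UProd 𝒰 D) := by
  refine ⟨mkU 𝒰 D 0, mkU 𝒰 D 1, fun h => ?_⟩
  rw [mkU_eq_iff] at h
  obtain ⟨i, hi⟩ := h.exists
  exact zero_ne_one hi

noncomputable instance : DivisionRing (UProd 𝒰 D) :=
  haveI : Nontrivial (UProd 𝒰 D) := nontrivialU
  DivisionRing.ofIsUnitOrEqZero (fun a => by
    obtain ⟨x, rfl⟩ := mkU_surjective a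
    rcases mkU_zero_or (𝒰 := 𝒰) x with h | ⟨h1, h2⟩
    · exact Or.inr h
    · exact Or.inl ⟨⟨_, _, h1, h2⟩, rfl⟩)

theorem mkU_inv (x : ∀ i, D i) : mkU 𝒰 D x⁻¹ = (mkU 𝒰 D x)⁻¹ := by
  rcases (Ultrafilter.em 𝒰 (fun i => x i = 0)) with h | h
  · have h1 : mkU 𝒰 D x = 0 := by
      rw [← map_zero (mkU 𝒰 D), mkU_eq_iff]
      exact h
    have h2 : mkU 𝒰 D x⁻¹ = 0 := by
      rw [← map_zero (mkU 𝒰 D), mkU_eq_iff]
      filter_upwards [h] with i hi
      rw [Pi.inv_apply, hi, inv_zero]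
      rfl
    rw [h1, h2, inv_zero]
  · apply eq_inv_of_mul_eq_one_right
    rw [← map_mul, ← map_one (mkU 𝒰 D), mkU_eq_iff]
    filter_upwards [h] with i hi
    exact mul_inv_cancel₀ hi

/-- elements of the division ring generated by classes are classes of families of generated
elements -/
theorem mkU_closure {T : Set (∀ i, D i)} {z : UProd 𝒰 D}
    (hz : z ∈ Subfield.closure (mkU 𝒰 D '' T)) :
    ∃ x : ∀ i, D i, mkU 𝒰 D x = z ∧ ∀ i, x i ∈ Subfield.closure ((fun y : ∀ i, D i => y i) '' T) := by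
  induction hz using Subfield.closure_induction with
  | mem z hz =>
    obtain ⟨y, hy, rfl⟩ := hz
    exact ⟨y, rfl, fun i => Subfield.subset_closure ⟨y, hy, rfl⟩⟩
  | one => exact ⟨1, map_one _, fun i => one_mem _⟩
  | add z w _ _ ihz ihw =>
    obtain ⟨x, hx, hx'⟩ := ihz
    obtain ⟨y, hy, hy'⟩ := ihw
    exact ⟨x + y, by rw [map_add, hx, hy], fun i => add_mem (hx' i) (hy' i)⟩
  | neg z _ ihz =>
    obtain ⟨x, hx, hx'⟩ := ihz
    exact ⟨-x, by rw [map_neg, hx], fun i => neg_mem (hx' i)⟩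
  | inv z _ ihz =>
    obtain ⟨x, hx, hx'⟩ := ihz
    exact ⟨x⁻¹, by rw [mkU_inv, hx], fun i => inv_mem (hx' i)⟩
  | mul z w _ _ ihz ihw =>
    obtain ⟨x, hx, hx'⟩ := ihz
    obtain ⟨y, hy, hy'⟩ := ihw
    exact ⟨x * y, by rw [map_mul, hx, hy], fun i => mul_mem (hx' i) (hy' i)⟩

end Pool.Agent.HFT
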