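import Pool.Agent.HFT.LMd
import Pool.Agent.HFT.LMe
import Pool.Agent.HFT.RatC
import Pool.Agent.HFT.Ult
import Pool.Agent.HFT.HFt

/-! # HFT/LMf: limits of Hughes-free division rings, set-up (helper49)

PROOF. `σ_one`: `σ p (1 * 1) = σ p 1 * σ p 1` a.e.; `σ_inv` similarly. `ρ_zero`: `ρ p (0 + 0) = ρ p 0 + ρ p 0`.
`LData.alU` is multiplicative: `σ p (g * h) = σ p g * σ p h` a.e. and
`φ (single (g h) 1) = φ (single g 1) φ (single h 1)`; `LData.roU`: `map_one'` etc. the same, with
`single 1 (r + r') = single 1 r + single 1 r'`. `comm`: `HFbAux.comm_rho` in every component.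
`theta_single`: `MonoidAlgebra.liftNC_single`. `theta_fam`: for a finite set `B` containing the support of `z`:
`z = ∑ g ∈ B, single g (z.coeff g)` (the terms outside the support vanish), so
`θ z = ∑ g ∈ B, roU (z.coeff g) * alU g`, the class of the family
`p ↦ ∑ g ∈ B, φ p (single 1 (ρ p (z.coeff g))) * φ p (single (σ p g) 1)`. -/

set_option autoImplicit false

universe u

namespace Pool.Agent.HFT

/-- approximations of `(R, G)` by pairs with a Hughes-free division ring -/
structure LData (R : Type u) [DivisionRing R] (G : Type u) [Group G] where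
  P : Type u
  U : Ultrafilter P
  K : P → Type u
  [dK : ∀ p, DivisionRing (K p)]
  Q : P → Type u
  [gQ : ∀ p, Group (Q p)]
  D : P → Type u
  [dD : ∀ p, DivisionRing (D p)]
  φ : ∀ p, MonoidAlgebra (K p) (Q p) →+* D p
  hφ : ∀ p, HughesFree (K p) (Q p) (D p) (φ p)
  S : ∀ p, ConradSys (Q p)
  ρ : ∀ p, R → K p
  σ : ∀ p, G → Q p
  ρ_one : ∀ p, ρ p 1 = 1
  ρ_add : ∀ x y, ∀ᶠ p in (U : Filter P), ρ p (x + y) = ρ p x + ρ p y
  ρ_mul : ∀ x y, ∀ᶠ p in (U : Filter P), ρ p (x * y) = ρ p x * ρ p y
  σ_mul : ∀ g h, ∀ᶠ p in (U : Filter P), σ p (g * h) = σ p g * σ p h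
  σ_ne : ∀ g, g ≠ 1 → ∀ᶠ p in (U : Filter P), σ p g ≠ 1

attribute [instance] LData.dK LData.gQ LData.dD

namespace LData

variable {R : Type u} [DivisionRing R] {G : Type u} [Group G] (L : LData R G)

theorem σ_one : ∀ᶠ p in (L.U : Filter L.P), L.σ p 1 = 1 := by
  filter_upwards [L.σ_mul 1 1] with p hp
  rw [mul_one] at hp
  exact mul_left_cancel (a := L.σ p 1) (by rw [← hp, mul_one])

theorem σ_inv (g : G) : ∀ᶠ p in (L.U : Filter L.P), L.σ p g⁻¹ = (L.σ p g)⁻¹ := by
  filter_upwards [L.σ_mul g g⁻¹, L.σ_one] with p hp h1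
  rw [mul_inv_cancel, h1] at hp
  exact eq_inv_of_mul_eq_one_right hp.symm

theorem ρ_zero : ∀ᶠ p in (L.U : Filter L.P), L.ρ p 0 = 0 := by
  filter_upwards [L.ρ_add 0 0] with p hp
  rw [add_zero] at hp
  exact add_left_cancel (a := L.ρ p 0) (by rw [← hp, add_zero])

/-- the ultraproduct of the division rings -/
abbrev UD : Type u := UProd L.U L.D

/-- class of a family -/
noncomputable abbrev cls : (∀ p, L.D p) →+* L.UD := mkU L.U L.D

/-- the embedding of `G` -/
noncomputable def alU : G →* L.UD where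
  toFun g := L.cls (fun p => L.φ p (MonoidAlgebra.single (L.σ p g) 1))
  map_one' := by
    rw [← map_one L.cls]
    refine mkU_eq_iff.mpr ?_
    filter_upwards [L.σ_one] with p hp
    rw [hp, ← MonoidAlgebra.one_def, map_one]
    rfl
  map_mul' := by
    intro g h
    rw [← map_mul L.cls]
    refine mkU_eq_iff.mpr ?_
    filter_upwards [L.σ_mul g h] with p hp
    rw [Pi.mul_apply, ← map_mul, MonoidAlgebra.single_mul_single, hp, mul_one]

theorem alU_apply (g : G) :
    L.alU g = L.cls (fun p => L.φ p (MonoidAlgebra.single (L.σ p g) 1)) := rfl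

/-- the embedding of `R` -/
noncomputable def roU : R →+* L.UD where
  toFun r := L.cls (fun p => L.φ p (MonoidAlgebra.single 1 (L.ρ p r)))
  map_one' := by
    rw [← map_one L.cls]
    refine mkU_eq_iff.mpr ?_
    filter_upwards with p
    rw [L.ρ_one p, ← MonoidAlgebra.one_def, map_one]
    rfl
  map_mul' := by
    intro x y
    rw [← map_mul L.cls]
    refine mkU_eq_iff.mpr ?_
    filter_upwards [L.ρ_mul x y] with p hp
    rw [Pi.mul_apply, ← map_mul, MonoidAlgebra.single_mul_single, hp, mul_one]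
  map_zero' := by
    rw [← map_zero L.cls]
    refine mkU_eq_iff.mpr ?_
    filter_upwards [L.ρ_zero] with p hp
    rw [hp, MonoidAlgebra.single_zero, map_zero]
    rfl
  map_add' := by
    intro x y
    rw [← map_add L.cls]
    refine mkU_eq_iff.mpr ?_
    filter_upwards [L.ρ_add x y] with p hp
    rw [Pi.add_apply, ← map_add, ← MonoidAlgebra.single_add, hp]

theorem roU_apply (r : R) :
    L.roU r = L.cls (fun p => L.φ p (MonoidAlgebra.single 1 (L.ρ p r))) := rfl

theorem comm (r : R) (g : G) : L.roU r * L.alU g = L.alU g * L.roU r := by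
  rw [L.roU_apply, L.alU_apply, ← map_mul L.cls, ← map_mul L.cls]
  refine mkU_eq_iff.mpr ?_
  filter_upwards with p
  rw [Pi.mul_apply, Pi.mul_apply, ← map_mul, ← map_mul, MonoidAlgebra.single_mul_single,
    MonoidAlgebra.single_mul_single, mul_one, one_mul, mul_one, one_mul]

/-- the homomorphism of the group ring -/
noncomputable def theta : MonoidAlgebra R G →+* L.UD :=
  MonoidAlgebra.liftNCRingHom L.roU L.alU L.comm

theorem theta_single (g : G) (r : R) :
    L.theta (MonoidAlgebra.single g r) = L.roU r * L.alU g :=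
  MonoidAlgebra.liftNC_single _ _ _ _

/-- representing family of the image of `z`, as a sum over `B` -/
noncomputable def fam (B : Finset G) (z : MonoidAlgebra R G) (p : L.P) : L.D p :=
  ∑ g ∈ B, L.φ p (MonoidAlgebra.single (L.σ p g) (L.ρ p (z.coeff g)))

theorem theta_fam (B : Finset G) (z : MonoidAlgebra R G) (hz : z.coeff.support ⊆ B) :
    L.theta z = L.cls (L.fam B z) := by
  classical
  have hzs : z = ∑ g ∈ B, MonoidAlgebra.single g (z.coeff g) := by
    conv_lhs => rw [← MonoidAlgebra.sum_coeff_single z]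
    exact Finsupp.sum_of_support_subset _ hz _ (fun i _ => MonoidAlgebra.single_zero i)
  have hl : L.theta z = ∑ g ∈ B, L.roU (z.coeff g) * L.alU g := by
    conv_lhs => rw [hzs]
    rw [map_sum]
    exact Finset.sum_congr rfl fun g _ => L.theta_single g _
  have hr : L.fam B z = ∑ g ∈ B, (fun p => L.φ p (MonoidAlgebra.single 1 (L.ρ p (z.coeff g)))) *
      (fun p => L.φ p (MonoidAlgebra.single (L.σ p g) 1)) := by
    funext p
    unfold fam
    rw [Finset.sum_apply]
    refine Finset.sum_congr rfl fun g _ => ?_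
    rw [Pi.mul_apply, ← map_mul, MonoidAlgebra.single_mul_single, one_mul, mul_one]
  rw [hl, hr, map_sum]
  refine Finset.sum_congr rfl fun g _ => ?_
  rw [map_mul, L.roU_apply, L.alU_apply]

end LData

end Pool.Agent.HFT
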