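import Pool.Agent.HFT.LMf

/-! # HFT/LMg: the limit of the comparison functions (helper49)

PROOF. `LimNu`: the function `ν h g` is the limit of `nuOf (S p) (σ p h) (σ p g)`.
`exists_limNu`: `exists_lim` and `LocNu.lim`; the local laws: for a finite set `F`, almost everywhere
`σ p 1 = 1`, `σ p (x * y) = σ p x * σ p y` for `x, y ∈ F` (finite intersection,
`Filter.eventually_all_finset`) and `σ p x ≠ 1` for `x ∈ F`, `x ≠ 1`, so `LocNu.comap` with `locNu_nuOf`.
`LimNu.fn`: the set of finite elements of `EReal` is open. `LimNu.toReal`: `EReal.tendsto_toReal`. -/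

set_option autoImplicit false

universe u

namespace Pool.Agent.HFT

namespace LData

variable {R : Type u} [DivisionRing R] {G : Type u} [Group G] (L : LData R G)

/-- `ν` is the limit of the comparison functions -/
def LimNu (ν : G → G → EReal) : Prop :=
  ∀ h g : G, Filter.Tendsto (fun p => (L.S p).nuOf (L.σ p h) (L.σ p g)) (L.U : Filter L.P)
    (nhds (ν h g))

theorem exists_limNu : ∃ ν : G → G → EReal, L.LimNu ν ∧ LocNu Set.univ ν := by
  obtain ⟨ν, hν⟩ := exists_lim L.U (fun p h g => (L.S p).nuOf (L.σ p h) (L.σ p g))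
  refine ⟨ν, hν, LocNu.lim L.U (ν' := fun p h g => (L.S p).nuOf (L.σ p h) (L.σ p g)) ?_ hν⟩
  intro F
  have h1 := L.σ_one
  have h2 : ∀ᶠ p in (L.U : Filter L.P), ∀ x ∈ F, ∀ y ∈ F,
      L.σ p (x * y) = L.σ p x * L.σ p y := by
    rw [Filter.eventually_all_finset]
    intro x _
    rw [Filter.eventually_all_finset]
    intro y _
    exact L.σ_mul x y
  have h3 : ∀ᶠ p in (L.U : Filter L.P), ∀ x ∈ F, x ≠ 1 → L.σ p x ≠ 1 := by
    rw [Filter.eventually_all_finset]
    intro x _
    by_cases hx : x = 1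
    · exact Filter.Eventually.of_forall fun p h => absurd hx h
    · exact (L.σ_ne x hx).mono fun p h _ => h
  filter_upwards [h1, h2, h3] with p a b c
  exact LocNu.comap (L.S p).locNu_nuOf a b c

variable {L}

theorem LimNu.fn {ν : G → G → EReal} (hν : L.LimNu ν) {h g : G} (hf : ν h g ≠ ⊤ ∧ ν h g ≠ ⊥) :
    ∀ᶠ p in (L.U : Filter L.P), (L.S p).nuOf (L.σ p h) (L.σ p g) ≠ ⊤ ∧
      (L.S p).nuOf (L.σ p h) (L.σ p g) ≠ ⊥ := by
  exact ((hν h g).eventually_ne hf.1).and ((hν h g).eventually_ne hf.2)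

theorem LimNu.toReal {ν : G → G → EReal} (hν : L.LimNu ν) {h g : G}
    (hf : ν h g ≠ ⊤ ∧ ν h g ≠ ⊥) :
    Filter.Tendsto (fun p => ((L.S p).nuOf (L.σ p h) (L.σ p g)).toReal) (L.U : Filter L.P)
      (nhds (ν h g).toReal) := by
  exact (EReal.tendsto_toReal hf.1 hf.2).comp (hν h g)

end LData

end Pool.Agent.HFT
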