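import Pool.Agent.HFT.LMg

/-! # HFT/LMh: the valuations of rational elements tend to zero (helper49)

PROOF of `rat_bound`. Write `ν_p g := nuOf (S p) (σ p h) (σ p g)`. By hypothesis (`Rat` with `θ = theta`)
`c = ∑ j, θ (f j) * y j`, `(A.map θ) *ᵥ y = θ x`, `A.map θ` a unit, `J` a finite type in `Type`, all supports
contained in `{g | ν h g = 0}`.
Let `B₀ : Finset G` be the union of the supports of the entries `f j`, `x j`, `A i j` (all `i, j`); `ν h g = 0` for
`g ∈ B₀`. Let `y j` be the class of a family `y' j`, and the entries of an inverse `Nv` of `A.map θ` the classes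
of families `Nv' i j` (`mkU_surjective`). `c' p := ∑ j, fam B₀ (f j) p * y' j p`; its class is `c` (`theta_fam`,
`map_sum`, `map_mul`). `(A.map θ) * Nv = 1` gives for all `i, j`: the class of the family
`p ↦ ∑ k, fam B₀ (A i k) p * Nv' k j p` is `1` or `0`, so (`mkU_eq_iff`, finitely many `i, j`) a.e. the matrix
`A' p := (fam B₀ (A i j) p)` satisfies `A' p * Nv' p = 1`; in the same way a.e. `A' p *ᵥ y' p = (fam B₀ (x i) p)`.
With `κ := {g // g ∈ B₀}`, `g := fun l : κ => σ p l`, `fam B₀ z p = ∑ l : κ, φ p (single (σ p l) (r l))`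
(`Finset.sum_coe_sort`). As `ν h g = 0` is finite for `g ∈ B₀`, a.e. `ν_p g` is finite for all `g ∈ B₀`
(`LimNu.fn`), and `(2 * bdR .. + 1) * ∑ l : κ, |(ν_p l).toReal|` tends to `(2 * bdR .. + 1) * ∑ l, |0| = 0`
(`LimNu.toReal`, `tendsto_finset_sum`), so it is `< ε` a.e. For all `p` with these properties `LocVal.bd` gives the
claim. -/

set_option autoImplicit false

universe u

namespace Pool.Agent.HFT

namespace LData

variable {R : Type u} [DivisionRing R] {G : Type u} [Group G] {L : LData R G}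

theorem rat_bound {ν : G → G → EReal} (hν : L.LimNu ν) {h : G} {c : L.UD}
    (hc : Rat L.theta {g | ν h g = 0} {g | ν h g = 0} c) :
    ∃ c' : ∀ p, L.D p, L.cls c' = c ∧ ∀ ε : ℝ, 0 < ε → ∀ᶠ p in (L.U : Filter L.P),
      ∀ (E : Subfield (L.D p)) (v : L.D p → WithTop ℝ), LocVal (L.S p) (L.φ p) (L.σ p h) E v →
        c' p ∈ E ∧ (c' p ≠ 0 → ∃ t : ℝ, v (c' p) = (t : WithTop ℝ) ∧ |t| < ε) := by
  classical
  obtain ⟨J, i1, i2, f, x, A, y, hf, hx, hA, hu, he, hcc⟩ := hc
  obtain ⟨B₀, hB₀⟩ : ∃ B₀ : Finset G, B₀ =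
      (Finset.univ.biUnion fun i => (f i).coeff.support) ∪
      ((Finset.univ.biUnion fun i => (x i).coeff.support) ∪
      (Finset.univ.biUnion fun i => Finset.univ.biUnion fun j => (A i j).coeff.support)) :=
    ⟨_, rfl⟩
  have hfB : ∀ i, (f i).coeff.support ⊆ B₀ := by
    intro i g hg
    rw [hB₀, Finset.mem_union, Finset.mem_biUnion]
    exact Or.inl ⟨i, Finset.mem_univ _, hg⟩
  have hxB : ∀ i, (x i).coeff.support ⊆ B₀ := by
    intro i g hg
    rw [hB₀, Finset.mem_union, Finset.mem_union, Finset.mem_biUnion, Finset.mem_biUnion]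
    exact Or.inr (Or.inl ⟨i, Finset.mem_univ _, hg⟩)
  have hAB : ∀ i j, (A i j).coeff.support ⊆ B₀ := by
    intro i j g hg
    rw [hB₀, Finset.mem_union, Finset.mem_union]
    refine Or.inr (Or.inr ?_)
    rw [Finset.mem_biUnion]
    refine ⟨i, Finset.mem_univ _, ?_⟩
    rw [Finset.mem_biUnion]
    exact ⟨j, Finset.mem_univ _, hg⟩
  have hB : ∀ g ∈ B₀, ν h g = 0 := by
    intro g hg
    rw [hB₀, Finset.mem_union, Finset.mem_union, Finset.mem_biUnion, Finset.mem_biUnion,
      Finset.mem_biUnion] at hg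
    rcases hg with ⟨i, -, hg⟩ | ⟨i, -, hg⟩ | ⟨i, -, hg⟩
    · exact hf i g hg
    · exact hx i g hg
    · rw [Finset.mem_biUnion] at hg
      obtain ⟨j, -, hg⟩ := hg
      exact hA i j g hg
  have hy : ∀ j, ∃ y' : ∀ p, L.D p, L.cls y' = y j := fun j => mkU_surjective (y j)
  choose y' hy' using hy
  obtain ⟨u, hu⟩ := hu
  have hN : A.map L.theta * (↑u⁻¹ : Matrix J J L.UD) = 1 := by
    rw [← hu]
    exact u.mul_inv
  have hNs : ∀ i j, ∃ n : ∀ p, L.D p, L.cls n = (↑u⁻¹ : Matrix J J L.UD) i j :=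
    fun i j => mkU_surjective _
  choose Nv' hNv' using hNs
  have hcls : L.cls (fun p => ∑ j, L.fam B₀ (f j) p * y' j p) = c := by
    have h1 : (fun p => ∑ j, L.fam B₀ (f j) p * y' j p) = ∑ j, L.fam B₀ (f j) * y' j := by
      funext p
      rw [Finset.sum_apply]
      rfl
    rw [h1, map_sum, hcc]
    refine Finset.sum_congr rfl fun j _ => ?_
    rw [map_mul, hy', L.theta_fam B₀ (f j) (hfB j)]
  have hE1 : ∀ᶠ p in (L.U : Filter L.P), ∀ i j : J,
      ∑ k, L.fam B₀ (A i k) p * Nv' k j p = (1 : Matrix J J (L.D p)) i j := by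
    rw [Filter.eventually_all]
    intro i
    rw [Filter.eventually_all]
    intro j
    have h1 : L.cls (fun p => ∑ k, L.fam B₀ (A i k) p * Nv' k j p) =
        L.cls (fun p => (1 : Matrix J J (L.D p)) i j) := by
      have h2 : (fun p => ∑ k, L.fam B₀ (A i k) p * Nv' k j p) =
          ∑ k, L.fam B₀ (A i k) * Nv' k j := by
        funext p
        rw [Finset.sum_apply]
        rfl
      rw [h2, map_sum]
      have h3 := congrFun (congrFun hN i) j
      rw [Matrix.mul_apply] at h3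
      have h4 : ∑ k, L.cls (L.fam B₀ (A i k) * Nv' k j) =
          ∑ k, (A.map L.theta) i k * (↑u⁻¹ : Matrix J J L.UD) k j := by
        refine Finset.sum_congr rfl fun k _ => ?_
        rw [map_mul, hNv', Matrix.map_apply, L.theta_fam B₀ (A i k) (hAB i k)]
      rw [h4, h3]
      by_cases hij : i = j
      · subst hij
        have h5 : (fun p => (1 : Matrix J J (L.D p)) i i) = (1 : ∀ p, L.D p) := by
          funext p
          rw [Matrix.one_apply_eq]
          rfl
        rw [Matrix.one_apply_eq, h5, map_one]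
      · have h5 : (fun p => (1 : Matrix J J (L.D p)) i j) = (0 : ∀ p, L.D p) := by
          funext p
          rw [Matrix.one_apply_ne hij]
          rfl
        rw [Matrix.one_apply_ne hij, h5, map_zero]
    exact mkU_eq_iff.1 h1
  have hE2 : ∀ᶠ p in (L.U : Filter L.P), ∀ i : J,
      ∑ k, L.fam B₀ (A i k) p * y' k p = L.fam B₀ (x i) p := by
    rw [Filter.eventually_all]
    intro i
    have h1 : L.cls (fun p => ∑ k, L.fam B₀ (A i k) p * y' k p) = L.cls (L.fam B₀ (x i)) := by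
      have h2 : (fun p => ∑ k, L.fam B₀ (A i k) p * y' k p) =
          ∑ k, L.fam B₀ (A i k) * y' k := by
        funext p
        rw [Finset.sum_apply]
        rfl
      rw [h2, map_sum]
      have h3 := congrFun he i
      simp only [Matrix.mulVec, dotProduct] at h3
      have h4 : ∑ k, L.cls (L.fam B₀ (A i k) * y' k) = ∑ k, (A.map L.theta) i k * y k := by
        refine Finset.sum_congr rfl fun k _ => ?_
        rw [map_mul, hy', Matrix.map_apply, L.theta_fam B₀ (A i k) (hAB i k)]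
      rw [h4, h3, L.theta_fam B₀ (x i) (hxB i)]
    exact mkU_eq_iff.1 h1
  have hfin : ∀ g ∈ B₀, ν h g ≠ ⊤ ∧ ν h g ≠ ⊥ := by
    intro g hg
    rw [hB g hg]
    exact ⟨EReal.zero_ne_top, EReal.zero_ne_bot⟩
  have hE3 : ∀ᶠ p in (L.U : Filter L.P), ∀ g ∈ B₀,
      (L.S p).nuOf (L.σ p h) (L.σ p g) ≠ ⊤ ∧ (L.S p).nuOf (L.σ p h) (L.σ p g) ≠ ⊥ := by
    rw [Filter.eventually_all_finset]
    intro g hg
    exact hν.fn (hfin g hg)
  have hlim : Filter.Tendsto (fun p => ((2 * bdR (Fintype.card J) (Fintype.card {g // g ∈ B₀}) + 1 :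
      ℕ) : ℝ) * ∑ l : {g // g ∈ B₀}, |((L.S p).nuOf (L.σ p h) (L.σ p l)).toReal|)
      (L.U : Filter L.P) (nhds 0) := by
    have h1 : Filter.Tendsto (fun p => ∑ l : {g // g ∈ B₀},
        |((L.S p).nuOf (L.σ p h) (L.σ p l)).toReal|) (L.U : Filter L.P)
        (nhds (∑ _l : {g // g ∈ B₀}, (0 : ℝ))) := by
      refine tendsto_finset_sum _ fun l _ => ?_
      have h2 := (hν.toReal (hfin l l.2)).abs
      rw [hB l l.2, EReal.toReal_zero, abs_zero] at h2
      exact h2
    rw [Finset.sum_const_zero] at h1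
    have h2 := h1.const_mul ((2 * bdR (Fintype.card J) (Fintype.card {g // g ∈ B₀}) + 1 : ℕ) : ℝ)
    rw [mul_zero] at h2
    exact h2
  refine ⟨fun p => ∑ j, L.fam B₀ (f j) p * y' j p, hcls, fun ε hε => ?_⟩
  filter_upwards [hE1, hE2, hE3, hlim.eventually_lt_const hε] with p h1 h2 h3 h4
  intro E v V
  have hfam : ∀ z : MonoidAlgebra R G, ∃ r : {g // g ∈ B₀} → L.K p,
      L.fam B₀ z p = ∑ l : {g // g ∈ B₀}, L.φ p (MonoidAlgebra.single (L.σ p l) (r l)) := by
    intro z
    refine ⟨fun l => L.ρ p (z.coeff l), ?_⟩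
    exact (Finset.sum_coe_sort B₀ (fun g => L.φ p
      (MonoidAlgebra.single (L.σ p g) (L.ρ p (z.coeff g))))).symm
  have h5 := V.bd J {g // g ∈ B₀} (fun l => L.σ p l) (fun i j => L.fam B₀ (A i j) p)
    (fun i j => Nv' i j p) (fun i => L.fam B₀ (f i) p) (fun i => L.fam B₀ (x i) p)
    (fun j => y' j p) (fun l => h3 l l.2) (fun i j => hfam _) (fun i => hfam _)
    (fun i => hfam _) (by
      funext i j
      rw [Matrix.mul_apply]
      exact h1 i j) (by
      funext i
      exact h2 i)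
  refine ⟨h5.1, fun h6 => ?_⟩
  obtain ⟨t, ht1, ht2⟩ := h5.2 h6
  exact ⟨t, ht1, ht2.trans_lt h4⟩

end LData

end Pool.Agent.HFT
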