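import Pool.Agent.HFT.LMh

/-! # HFT/LMi: the ultraproduct is free along the limit system (helper49)

PROOF of `jf_core`. Write `ν_p g := nuOf (S p) (σ p h) (σ p g)`, `χ l := (ν h (a l)).toReal`.
For every `l` let `c' l` be the family from `rat_bound`. Let `s := {l | c l ≠ 0}` and suppose `s` is not
empty. If `l ∈ s` then `c' l p ≠ 0` a.e. (`Ultrafilter.eventually_not` and `mkU_eq_iff`); if `l ∉ s` then
`c' l p = 0` a.e. Let `ε > 0` with `4 ε ≤ |χ l - χ l'|` for all `l ≠ l'` (finitely many pairs, all these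
numbers are positive; a minimum over a finite set). The following holds for almost all `p`: `σ p h ≠ 1`; for all `l`:
`ν_p (a l)` is finite, `|(ν_p (a l)).toReal - χ l| < ε` (`LimNu.toReal`), the statement of `rat_bound` with
this `ε`, the statements on `c' l p` above, and `∑ l, φ p (single (σ p (a l)) 1) * c' l p = 0` (from `hs`,
`alU_apply`, `map_mul`, `map_sum`, `mkU_eq_iff`). Take such a `p` (`Filter.Eventually.exists`; an ultrafilter
is proper) and `E`, `v` from `exists_locVal (S p) (hφ p)`. For `l ∈ s` let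
`x l := φ p (single (σ p (a l)) 1) * c' l p ∈ E`; `v (x l) = (ν_p (a l)).toReal + t l` with `|t l| < ε`
(`LocVal.al`, `LocVal.mul`); these numbers are at distance `< 2 ε` of `χ l`, so pairwise different, and
`∑ l ∈ s, x l ≠ 0` by `LocVal.sum_ne`. But this sum is equal to the sum over all `l` (the other terms
vanish), a contradiction. -/

set_option autoImplicit false

universe u

namespace Pool.Agent.HFT

namespace LData

variable {R : Type u} [DivisionRing R] {G : Type u} [Group G] {L : LData R G}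

theorem jf_core {ν : G → G → EReal} (hν : L.LimNu ν) {h : G} (hh : h ≠ 1) (n : ℕ)
    (a : Fin n → G) (ha : ∀ l, ν h (a l) ≠ ⊤ ∧ ν h (a l) ≠ ⊥)
    (hd : Function.Injective (fun l => (ν h (a l)).toReal)) (c : Fin n → L.UD)
    (hc : ∀ l, Rat L.theta {g | ν h g = 0} {g | ν h g = 0} (c l))
    (hs : ∑ l, L.alU (a l) * c l = 0) : ∀ l, c l = 0 := by
  classical
  choose c' hc' hb using fun l => rat_bound hν (hc l)
  by_contra hcon
  push Not at hcon
  obtain ⟨l₀, hl₀⟩ := hcon
  obtain ⟨χ, hχ⟩ : ∃ χ : Fin n → ℝ, ∀ l, χ l = (ν h (a l)).toReal := ⟨_, fun _ => rfl⟩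
  have hχi : ∀ l l', l ≠ l' → χ l ≠ χ l' := by
    intro l l' hll h1
    rw [hχ, hχ] at h1
    exact hll (hd h1)
  -- choice of `ε`
  have hε' : ∀ᶠ ε in nhdsWithin (0 : ℝ) (Set.Ioi 0), ∀ l l', l ≠ l' → 4 * ε ≤ |χ l - χ l'| := by
    rw [Filter.eventually_all]
    intro l
    rw [Filter.eventually_all]
    intro l'
    by_cases hll : l = l'
    · exact Filter.Eventually.of_forall fun ε h => absurd hll h
    · have h1 : 0 < |χ l - χ l'| := abs_pos.2 (sub_ne_zero.2 (hχi l l' hll))
      have h2 : Filter.Tendsto (fun ε : ℝ => 4 * ε) (nhdsWithin (0 : ℝ) (Set.Ioi 0))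
          (nhds (4 * 0)) :=
        ((continuous_const.mul continuous_id).tendsto 0).mono_left nhdsWithin_le_nhds
      rw [mul_zero] at h2
      filter_upwards [h2.eventually_lt_const h1] with ε hε _
      exact hε.le
  obtain ⟨ε, hε, hε0⟩ := (hε'.and self_mem_nhdsWithin).exists
  -- almost everywhere
  have E1 := L.σ_ne h hh
  have E2 : ∀ᶠ p in (L.U : Filter L.P), ∀ l, (L.S p).nuOf (L.σ p h) (L.σ p (a l)) ≠ ⊤ ∧
      (L.S p).nuOf (L.σ p h) (L.σ p (a l)) ≠ ⊥ := by
    rw [Filter.eventually_all]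
    exact fun l => hν.fn (ha l)
  have E3 : ∀ᶠ p in (L.U : Filter L.P), ∀ l,
      |((L.S p).nuOf (L.σ p h) (L.σ p (a l))).toReal - χ l| < ε := by
    rw [Filter.eventually_all]
    intro l
    have h1 := Metric.tendsto_nhds.1 (hν.toReal (ha l)) ε hε0
    filter_upwards [h1] with p hp
    rw [hχ]
    exact hp
  have E4 : ∀ᶠ p in (L.U : Filter L.P), ∀ l, ∀ (E : Subfield (L.D p)) (v : L.D p → WithTop ℝ),
      LocVal (L.S p) (L.φ p) (L.σ p h) E v →
        c' l p ∈ E ∧ (c' l p ≠ 0 → ∃ t : ℝ, v (c' l p) = (t : WithTop ℝ) ∧ |t| < ε) := by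
    rw [Filter.eventually_all]
    exact fun l => hb l ε hε0
  have hcls0 : ∀ l, (∀ᶠ p in (L.U : Filter L.P), c' l p = 0) ↔ c l = 0 := by
    intro l
    have h1 : (∀ᶠ p in (L.U : Filter L.P), c' l p = (0 : ∀ p, L.D p) p) ↔
        L.cls (c' l) = L.cls 0 := (mkU_eq_iff).symm
    rw [← hc' l]
    rw [map_zero] at h1
    exact h1
  have E5 : ∀ᶠ p in (L.U : Filter L.P), ∀ l, c l ≠ 0 → c' l p ≠ 0 := by
    rw [Filter.eventually_all]
    intro l
    by_cases h1 : c l = 0
    · exact Filter.Eventually.of_forall fun p h2 => absurd h1 h2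
    · have h2 : ¬ ∀ᶠ p in (L.U : Filter L.P), c' l p = 0 := fun h3 => h1 ((hcls0 l).1 h3)
      rw [← Ultrafilter.eventually_not] at h2
      filter_upwards [h2] with p hp _
      exact hp
  have E6 : ∀ᶠ p in (L.U : Filter L.P), ∀ l, c l = 0 → c' l p = 0 := by
    rw [Filter.eventually_all]
    intro l
    by_cases h1 : c l = 0
    · filter_upwards [(hcls0 l).2 h1] with p hp _
      exact hp
    · exact Filter.Eventually.of_forall fun p h2 => absurd h2 h1
  have E7 : ∀ᶠ p in (L.U : Filter L.P),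
      ∑ l, L.φ p (MonoidAlgebra.single (L.σ p (a l)) 1) * c' l p = 0 := by
    have h1 : L.cls (∑ l, (fun p => L.φ p (MonoidAlgebra.single (L.σ p (a l)) 1)) * c' l) =
        L.cls 0 := by
      rw [map_sum, map_zero, ← hs]
      refine Finset.sum_congr rfl fun l _ => ?_
      rw [map_mul, hc' l, L.alU_apply]
    have h2 := mkU_eq_iff.1 h1
    filter_upwards [h2] with p hp
    rw [Finset.sum_apply] at hp
    exact hp
  obtain ⟨p, p1, p2, p3, p4, p5, p6, p7⟩ :=
    (E1.and (E2.and (E3.and (E4.and (E5.and (E6.and E7)))))).exists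
  obtain ⟨E, v, V⟩ := exists_locVal (L.S p) (L.hφ p) p1
  have hcE : ∀ l, c' l p ∈ E := fun l => (p4 l E v V).1
  have hct : ∀ l, ∃ t : ℝ, c' l p ≠ 0 → (v (c' l p) = (t : WithTop ℝ) ∧ |t| < ε) := by
    intro l
    by_cases h1 : c' l p = 0
    · exact ⟨0, fun h2 => absurd h1 h2⟩
    · obtain ⟨t, ht⟩ := (p4 l E v V).2 h1
      exact ⟨t, fun _ => ht⟩
  choose t ht using hct
  set s : Finset (Fin n) := Finset.univ.filter (fun l => c l ≠ 0) with hsdef
  have hsm : ∀ l, l ∈ s ↔ c l ≠ 0 := fun l => by simp [hsdef]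
  have hsne : s.Nonempty := ⟨l₀, (hsm l₀).2 hl₀⟩
  obtain ⟨r, hr⟩ : ∃ r : Fin n → ℝ, ∀ l,
      r l = ((L.S p).nuOf (L.σ p h) (L.σ p (a l))).toReal := ⟨_, fun _ => rfl⟩
  have hkey := V.sum_ne s hsne (fun l => L.φ p (MonoidAlgebra.single (L.σ p (a l)) 1) * c' l p)
    (fun l _ => E.mul_mem (V.al _ (p2 l)).1 (hcE l)) (fun l => r l + t l)
    (fun l hl => by
      have h1 := (V.al _ (p2 l)).2
      have h2 := (ht l (p5 l ((hsm l).1 hl))).1
      rw [V.mul _ (V.al _ (p2 l)).1 _ (hcE l), h1, h2, WithTop.coe_add, hr])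
    (by
      intro l hl l' hl' heq
      by_contra hll
      have h1 := (ht l (p5 l ((hsm l).1 hl))).2
      have h2 := (ht l' (p5 l' ((hsm l').1 hl'))).2
      have h3 := p3 l
      have h4 := p3 l'
      rw [← hr] at h3 h4
      have h5 := hε l l' hll
      have h6 : r l + t l = r l' + t l' := heq
      rw [abs_lt] at h1 h2 h3 h4
      rcases abs_cases (χ l - χ l') with ⟨h7, -⟩ | ⟨h7, -⟩
      · rw [h7] at h5
        linarith
      · rw [h7] at h5
        linarith)
  apply hkey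
  rw [← p7]
  refine Finset.sum_subset (Finset.subset_univ s) fun l _ hl => ?_
  have h1 : c l = 0 := by
    by_contra h2
    exact hl ((hsm l).2 h2)
  show _ * c' l p = 0
  rw [p6 l h1, mul_zero]

end LData

end Pool.Agent.HFT
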