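import Pool.Agent.HFT.LMi
import Pool.Agent.HFT.Lev
import Pool.Agent.HFT.FinHF
import Pool.Agent.HFT.Shr

/-! # HFT/LMj: the limit theorem (helper49)

PROOF. `jf_one`: `S₀` is the system from `conrad_of_nu`. With the element `h` belonging to `i`, apply `jf_core`:
`a l ∈ S₀.Le 1 i` means `lev (1⁻¹ * a l * 1) ≤ i` (`mem_Le`), so `ν h (a l)` is finite; `deg 1 i (a l) =
τ i (1⁻¹ * a l * 1) = (ν h (a l)).toReal`; `B := S₀.Lt 1 i` has the underlying set `{g | ν h g = 0}`, and
`rat_closure` for `B` gives `Rat theta B B (c l)`: the set of generators in `rat_closure` is the set in the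
hypothesis, as `theta (single 1 r) = roU r`, `theta (single b 1) = alU b`.
`jf_all`: conjugation with `alU k` as in `jf_all` of `JFU.lean` (copy).
`hasHF`: `tsetL` is a `TSet S₀ R ⊤ Unit` with `D _ := L.UD`, `α a := alU a`, `ρ := roU` (like `tsetU` in
`JFU.lean`), then `hughesFree_φE`, `hasHF_of_hughesFree`.
`hasHF_of_limit`: `P := Finset R × Finset G`, `U := Ultrafilter.of Filter.atTop` (on a product of directed orders;
`Filter.eventually_ge_atTop (E, F)`), the data from the hypothesis for `p = (E, F)` (choice),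
`S p` from `exists_conradSys`, `D p`, `φ p` from `HasHF`. `ρ_add x y`: for all `p ≥ ({x, y}, ∅)`. `σ_ne g`: for
`p ≥ (∅, {1, g})`: `σ 1 = σ 1 * σ 1` so `σ 1 = 1`, and `σ g = 1 = σ 1` would give `g = 1`. -/

set_option autoImplicit false

universe u

namespace Pool.Agent.HFT

namespace LData

variable {R : Type u} [DivisionRing R] {G : Type u} [Group G] (L : LData R G)

theorem exists_sys : ∃ S₀ : ConradSys G, ∀ (i : S₀.I) (n : ℕ) (a : Fin n → G)
    (c : Fin n → L.UD), (∀ l, a l ∈ S₀.Le 1 i) → Function.Injective (fun l => S₀.deg 1 i (a l)) →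
    (∀ l, c l ∈ Subfield.closure
      (Set.range L.roU ∪ {x | ∃ b : G, b ∈ S₀.Lt 1 i ∧ L.alU b = x})) →
    ∑ l, L.alU (a l) * c l = 0 → ∀ l, c l = 0 := by
  obtain ⟨ν, hν, N⟩ := L.exists_limNu
  obtain ⟨S₀, hS⟩ := conrad_of_nu N
  refine ⟨S₀, fun i n a c ha hd hc hs => ?_⟩
  obtain ⟨h, hh, hle, hlt, hτ⟩ := hS i
  have e : ∀ g : G, (1 : G)⁻¹ * g * 1 = g := fun g => by group
  have ha' : ∀ l, ν h (a l) ≠ ⊤ ∧ ν h (a l) ≠ ⊥ := fun l => by
    have h1 := S₀.mem_Le.1 (ha l)
    rw [e] at h1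
    exact (hle _).1 h1
  refine jf_core hν hh n a ha' ?_ c ?_ hs
  · have h2 : (fun l => (ν h (a l)).toReal) = (fun l => S₀.deg 1 i (a l)) := by
      funext l
      unfold ConradSys.deg
      rw [e, hτ]
    rw [h2]
    exact hd
  · intro l
    have hset : ((S₀.Lt 1 i : Subgroup G) : Set G) = {g | ν h g = 0} := by
      ext g
      rw [SetLike.mem_coe, S₀.mem_Lt, e, Set.mem_ofPred_eq]
      exact hlt g
    rw [← hset]
    refine rat_closure ?_
    have h4 : ∀ r : R, L.theta (MonoidAlgebra.single 1 r) = L.roU r := by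
      intro r
      rw [L.theta_single, map_one, mul_one]
    have h5 : ∀ b : G, L.theta (MonoidAlgebra.single b 1) = L.alU b := by
      intro b
      rw [L.theta_single, map_one, one_mul]
    simp only [h4, h5]
    exact hc l

theorem jf_all {S₀ : ConradSys G} (h1 : ∀ (i : S₀.I) (n : ℕ) (a : Fin n → G)
    (c : Fin n → L.UD), (∀ l, a l ∈ S₀.Le 1 i) → Function.Injective (fun l => S₀.deg 1 i (a l)) →
    (∀ l, c l ∈ Subfield.closure
      (Set.range L.roU ∪ {x | ∃ b : G, b ∈ S₀.Lt 1 i ∧ L.alU b = x})) →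
    ∑ l, L.alU (a l) * c l = 0 → ∀ l, c l = 0) (k : G) (i : S₀.I) (n : ℕ) (a : Fin n → G)
    (c : Fin n → L.UD) (ha : ∀ l, a l ∈ S₀.Le k i)
    (hd : Function.Injective (fun l => S₀.deg k i (a l)))
    (hc : ∀ l, c l ∈ Subfield.closure
      (Set.range L.roU ∪ {x | ∃ b : G, b ∈ S₀.Lt k i ∧ L.alU b = x}))
    (hs : ∑ l, L.alU (a l) * c l = 0) : ∀ l, c l = 0 := by
  have hkk : L.alU k⁻¹ * L.alU k = 1 := by rw [← map_mul, inv_mul_cancel, map_one]
  have hkk' : L.alU k * L.alU k⁻¹ = 1 := by rw [← map_mul, mul_inv_cancel, map_one]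
  -- conjugation by the image of `k`
  let ψ : L.UD →+* L.UD :=
    { toFun := fun x => L.alU k⁻¹ * x * L.alU k
      map_one' := by rw [mul_one, hkk]
      map_zero' := by rw [mul_zero, zero_mul]
      map_add' := fun x y => by rw [mul_add, add_mul]
      map_mul' := fun x y => by
        have e : L.alU k⁻¹ * x * L.alU k * (L.alU k⁻¹ * y * L.alU k) =
            L.alU k⁻¹ * x * (L.alU k * L.alU k⁻¹) * y * L.alU k := by
          simp only [mul_assoc]
        rw [e, hkk', mul_one]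
        simp only [mul_assoc] }
  have hψ : ∀ x, ψ x = L.alU k⁻¹ * x * L.alU k := fun _ => rfl
  have hψb : ∀ g, ψ (L.alU g) = L.alU (k⁻¹ * g * k) := fun g => by
    rw [hψ, map_mul, map_mul]
  have hψr : ∀ r, ψ (L.roU r) = L.roU r := fun r => by
    have h2 : L.roU r * L.alU k = L.alU k * L.roU r := L.comm r k
    rw [hψ, mul_assoc, h2, ← mul_assoc, hkk, one_mul]
  have hcl : ∀ x ∈ Subfield.closure
      (Set.range L.roU ∪ {x | ∃ b : G, b ∈ S₀.Lt k i ∧ L.alU b = x}),
      ψ x ∈ Subfield.closure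
      (Set.range L.roU ∪ {x | ∃ b : G, b ∈ S₀.Lt 1 i ∧ L.alU b = x}) := by
    intro x hx
    have h1 : Subfield.closure
        (Set.range L.roU ∪ {x | ∃ b : G, b ∈ S₀.Lt k i ∧ L.alU b = x}) ≤
        (Subfield.closure
        (Set.range L.roU ∪ {x | ∃ b : G, b ∈ S₀.Lt 1 i ∧ L.alU b = x})).comap ψ := by
      rw [Subfield.closure_le]
      rintro y (⟨r, rfl⟩ | ⟨b, hb, rfl⟩)
      · rw [SetLike.mem_coe, Subfield.mem_comap, hψr]
        exact Subfield.subset_closure (Or.inl ⟨r, rfl⟩)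
      · rw [SetLike.mem_coe, Subfield.mem_comap, hψb]
        refine Subfield.subset_closure (Or.inr ⟨_, ?_, rfl⟩)
        have hb' := S₀.mem_Lt.1 hb
        rw [S₀.mem_Lt]
        have e : (1 : G)⁻¹ * (k⁻¹ * b * k) * 1 = k⁻¹ * b * k := by group
        rwa [e]
    exact h1 hx
  have he : ∀ g : G, (1 : G)⁻¹ * (k⁻¹ * g * k) * 1 = k⁻¹ * g * k := fun g => by group
  have hdeg : ∀ g : G, S₀.deg 1 i (k⁻¹ * g * k) = S₀.deg k i g := fun g => by
    unfold ConradSys.deg
    rw [he]
  have h2 := h1 i n (fun l => k⁻¹ * a l * k) (fun l => ψ (c l)) (fun l => by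
      rw [S₀.mem_Le, he]
      exact S₀.mem_Le.1 (ha l)) (by
      intro l l' hll
      simp only [hdeg] at hll
      exact hd hll) (fun l => hcl _ (hc l)) (by
      have h2 := congrArg ψ hs
      rw [map_sum, map_zero] at h2
      rw [← h2]
      refine Finset.sum_congr rfl fun l _ => ?_
      rw [map_mul ψ, hψb])
  intro l
  exact (map_eq_zero ψ).1 (h2 l)

/-- the family for the whole group -/
private noncomputable def tsetL {S₀ : ConradSys G} (h1 : ∀ (i : S₀.I) (n : ℕ) (a : Fin n → G)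
    (c : Fin n → L.UD), (∀ l, a l ∈ S₀.Le 1 i) → Function.Injective (fun l => S₀.deg 1 i (a l)) →
    (∀ l, c l ∈ Subfield.closure
      (Set.range L.roU ∪ {x | ∃ b : G, b ∈ S₀.Lt 1 i ∧ L.alU b = x})) →
    ∑ l, L.alU (a l) * c l = 0 → ∀ l, c l = 0) : TSet.{u, u} S₀ R (⊤ : Subgroup G) Unit where
  D _ := L.UD
  dr _ := inferInstance
  α _ := L.alU.comp (Subgroup.topEquiv (G := G)).toMonoidHom
  ρ _ := L.roU
  comm _ r a := L.comm r (a : G)
  jf _ k i n a c ha hd hc hs := by
    refine L.jf_all h1 k i n (fun l => (a l : G)) c ha hd (fun l => ?_) hs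
    have h2 := hc l
    have h3 : (Set.range L.roU ∪ {x | ∃ b : (⊤ : Subgroup G), (b : G) ∈ S₀.Lt k i ∧
        L.alU.comp (Subgroup.topEquiv (G := G)).toMonoidHom b = x}) ⊆
        (Set.range L.roU ∪ {x | ∃ b : G, b ∈ S₀.Lt k i ∧ L.alU b = x}) := by
      rintro y (hy | ⟨b, hb, hy⟩)
      · exact Or.inl hy
      · exact Or.inr ⟨(b : G), hb, hy⟩
    exact Subfield.closure_mono h3 h2

include L in
theorem hasHF : HasHF R G := by
  obtain ⟨S₀, h1⟩ := L.exists_sys
  exact hasHF_of_hughesFree (TSet.hughesFree_φE (L.tsetL h1))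

end LData

/-- limits of pairs with a Hughes-free division ring have a Hughes-free division ring -/
theorem hasHF_of_limit {R : Type u} [DivisionRing R] {G : Type u} [Group G]
    (h : ∀ (E : Finset R) (F : Finset G), ∃ (K : Type u) (_ : DivisionRing K) (Q : Type u)
      (_ : Group Q) (ρ : R → K) (σ : G → Q), LocIndic Q ∧ HasHF K Q ∧ ρ 1 = 1 ∧
        (∀ x ∈ E, ∀ y ∈ E, ρ (x + y) = ρ x + ρ y ∧ ρ (x * y) = ρ x * ρ y) ∧
        (∀ x ∈ F, ∀ y ∈ F, σ (x * y) = σ x * σ y) ∧ Set.InjOn σ (F : Set G)) :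
    HasHF R G := by
  classical
  choose K dK Q gQ ρ σ hQ hHF hρ1 hρ hσ hinj using h
  choose D dD φ hφ using hHF
  have hS : ∀ (E : Finset R) (F : Finset G), Nonempty (ConradSys (Q E F)) := fun E F =>
    exists_conradSys (hQ E F)
  have hev : ∀ {p : Finset R × Finset G → Prop} (p0 : Finset R × Finset G),
      (∀ q, p0 ≤ q → p q) →
      ∀ᶠ q in ((Ultrafilter.of Filter.atTop : Ultrafilter (Finset R × Finset G)) :
        Filter (Finset R × Finset G)), p q := by
    intro p p0 hp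
    have h1 : ∀ᶠ q in (Filter.atTop : Filter (Finset R × Finset G)), p q :=
      (Filter.eventually_ge_atTop p0).mono hp
    exact h1.filter_mono (Ultrafilter.of_le _)
  let L : LData R G :=
    { P := Finset R × Finset G
      U := Ultrafilter.of Filter.atTop
      K := fun p => K p.1 p.2
      dK := fun p => dK p.1 p.2
      Q := fun p => Q p.1 p.2
      gQ := fun p => gQ p.1 p.2
      D := fun p => D p.1 p.2
      dD := fun p => dD p.1 p.2
      φ := fun p => φ p.1 p.2
      hφ := fun p => hφ p.1 p.2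
      S := fun p => Classical.choice (hS p.1 p.2)
      ρ := fun p => ρ p.1 p.2
      σ := fun p => σ p.1 p.2
      ρ_one := fun p => hρ1 p.1 p.2
      ρ_add := fun x y => hev ({x, y}, ∅) (fun q hq =>
        (hρ q.1 q.2 x (hq.1 (by simp)) y (hq.1 (by simp))).1)
      ρ_mul := fun x y => hev ({x, y}, ∅) (fun q hq =>
        (hρ q.1 q.2 x (hq.1 (by simp)) y (hq.1 (by simp))).2)
      σ_mul := fun x y => hev (∅, {x, y}) (fun q hq =>
        hσ q.1 q.2 x (hq.2 (by simp)) y (hq.2 (by simp)))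
      σ_ne := fun g hg => hev (∅, {1, g}) (fun q hq hcon => by
        have h1 : (1 : G) ∈ q.2 := hq.2 (by simp)
        have h2 : g ∈ q.2 := hq.2 (by simp)
        have h3 := hσ q.1 q.2 1 h1 1 h1
        rw [mul_one] at h3
        have h4 : σ q.1 q.2 1 = 1 := by
          have h5 := mul_eq_left.1 h3.symm
          exact h5
        exact hg (hinj q.1 q.2 h2 h1 (hcon.trans h4.symm))) }
  exact L.hasHF

end Pool.Agent.HFT
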