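import Pool.Agent.HFT.LMb

/-! # HFT/LMv: a uniform bound for the valuation of rational elements (helper49)

PROOF of `val_bound`: `w`, `z` and `c := ∑ i, f i * y i` satisfy `w c = z`. By `v_dec`
(in `OV.lean`, namespace `OVaux`) `w` is in the closure and `v w` is the smallest degree of its
decomposition (`F` nonempty as `w ≠ 0`; `Finset.min` is the coercion of an element of `F`), so `v w = d`
with `|d| ≤ r * ∑ |e i|` (`abs_le_of_mem_degSet`). Similarly `z`: so `c = w⁻¹ z` is in the closure and if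
`c ≠ 0` then `z ≠ 0`, `v z = d'`, `|d'| ≤ (r+1) * ∑ |e i|`, `v w + v c = v z`, so `v c = d' - d`. -/

set_option autoImplicit false

universe w x y y'

namespace Pool.Agent.HFT

variable {D : Type w} [DivisionRing D] {N : Type x} [Group N] {α : N →* D} {τ : N → ℝ}
  {Δ : Subfield D}

theorem val_bound (h : GrData α τ Δ) {v : D → WithTop ℝ} (hv : IsVgen α τ Δ v) {J : Type y'}
    {κ : Type y} [Fintype J] [DecidableEq J] [Fintype κ]
    (g : κ → N) (A Nv : Matrix J J D) (f x y : J → D) (hA : ∀ i j, Ent α Δ g (A i j))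
    (hf : ∀ i, Ent α Δ g (f i)) (hx : ∀ i, Ent α Δ g (x i)) (hN : A * Nv = 1)
    (hy : A.mulVec y = x) :
    (∑ i, f i * y i) ∈ Subfield.closure ((Δ : Set D) ∪ Set.range α) ∧
      ((∑ i, f i * y i) ≠ 0 → ∃ t : ℝ, v (∑ i, f i * y i) = (t : WithTop ℝ) ∧
        |t| ≤ (2 * bdR (Fintype.card J) (Fintype.card κ) + 1 : ℕ) * ∑ i, |τ (g i)|) := by
  obtain ⟨r, w, z, F, F', p, p', hr, hF, hw, hF', hz, hw0, he⟩ :=
    siegel h g A Nv f x y hA hf hx hN hy
  obtain ⟨hw1, hw2, hw3⟩ := hw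
  obtain ⟨hz1, hz2, hz3⟩ := hz
  obtain ⟨hwm, hwv⟩ := OVaux.v_dec hv F p hw1 hw2
  obtain ⟨hzm, hzv⟩ := OVaux.v_dec hv F' p' hz1 hz2
  rw [← hw3] at hwm hwv
  rw [← hz3] at hzm hzv
  set c := ∑ i, f i * y i with hc
  have hcz : c = w⁻¹ * z := by
    rw [← he, inv_mul_cancel_left₀ hw0]
  have hcm : c ∈ Subfield.closure ((Δ : Set D) ∪ Set.range α) := by
    rw [hcz]
    exact mul_mem (inv_mem hwm) hzm
  refine ⟨hcm, fun hc0 => ?_⟩
  have hz0 : z ≠ 0 := by
    rw [← he]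
    exact mul_ne_zero hw0 hc0
  have hFne : F.Nonempty := by
    rw [Finset.nonempty_iff_ne_empty]
    intro hh
    apply hw0
    rw [hw3, hh, Finset.sum_empty]
  have hFne' : F'.Nonempty := by
    rw [Finset.nonempty_iff_ne_empty]
    intro hh
    apply hz0
    rw [hz3, hh, Finset.sum_empty]
  rw [← Finset.coe_min' hFne] at hwv
  rw [← Finset.coe_min' hFne'] at hzv
  have hd := abs_le_of_mem_degSet (hF (Finset.min'_mem F hFne))
  have hd' := abs_le_of_mem_degSet (hF' (Finset.min'_mem F' hFne'))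
  have hmul := hv.mul w hwm c hcm
  rw [he, hwv, hzv] at hmul
  refine ⟨F'.min' hFne' - F.min' hFne, ?_, ?_⟩
  · refine OVaux.add_cancel (a := ((F.min' hFne : ℝ) : WithTop ℝ)) WithTop.coe_ne_top ?_
    rw [← hmul, ← WithTop.coe_add]
    congr 1
    ring
  · have hS : (0 : ℝ) ≤ ∑ i, |τ (g i)| := Finset.sum_nonneg fun i _ => abs_nonneg _
    have hr' : (r : ℝ) ≤ (bdR (Fintype.card J) (Fintype.card κ) : ℝ) := by exact_mod_cast hr
    push_cast at hd hd' ⊢
    calc |F'.min' hFne' - F.min' hFne| ≤ |F'.min' hFne'| + |F.min' hFne| := abs_sub _ _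
      _ ≤ ((r : ℝ) + 1) * ∑ i, |τ (g i)| + (r : ℝ) * ∑ i, |τ (g i)| := add_le_add hd' hd
      _ = (2 * (r : ℝ) + 1) * ∑ i, |τ (g i)| := by ring
      _ ≤ _ := by
        apply mul_le_mul_of_nonneg_right _ hS
        linarith

end Pool.Agent.HFT
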