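import Pool.Agent.HFT.Ult
import Pool.Agent.HFT.Shr

/-! # HFT/LocHF: Hughes-free division rings exist locally (helper49)

THEOREM `hasHF_of_local`: if `R H` has a Hughes-free division ring for every finitely generated subgroup
`H` of `G` then so has `R G`.

PROOF. For a finite set `F ⊆ G` let `H_F := Subgroup.closure F` and choose `D_F`, `φ_F` Hughes-free for
`R H_F`. Let `𝒰` be an ultrafilter on `Finset G` with `𝒰 ≤ atTop` (`Ultrafilter.of atTop`); for every finite
`F₀`, `F₀ ⊆ F` for `𝒰`-almost all `F`. `E := UProd 𝒰 D`. For `g : G` let `a g` be the family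
`F ↦ φ_F (single ⟨g, _⟩ 1)` if `g ∈ H_F`, and `F ↦ 0` otherwise; `g ↦ mkU (a g)` is a homomorphism of monoids (almost
all `F` contain `g, h`), commuting with `r ↦ mkU (F ↦ φ_F (single 1 r))`, a ring homomorphism. So we get
`Φ₀ : MonoidAlgebra R G →+* E` (`MonoidAlgebra.liftNCRingHom`) with: for every `x` and almost all `F`,
`supp x ⊆ H_F` and the representing family of `Φ₀ x` has the component `φ_F x'`, `x'` the element `x`
considered in `R H_F` (`eq_rep`; for single elements and sums). Let `D := Subfield.closure (range Φ₀)`, a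
division ring, and `Φ : MonoidAlgebra R G →+* D` the corestriction; it is generated by the image. Injective: if
`x ≠ 0` then `φ_F x' ≠ 0` for almost all `F`.
Third clause: let `H, f, t, s, d` be as in `HughesFree` for `Φ`. `H` is generated by a finite set, so
`H ≤ H_F` for almost all `F`. `T` := the set of all families `y` for which there are `n ∈ ker f` and `r` such that
for all `F`: `y F = φ_F (single ⟨n, _⟩ r)` if `H ≤ H_F` and `y F = 0` otherwise. The elements
`Φ (single n r)` are classes of elements of `T`. By `mkU_closure` `d i` is the class of a family `e i`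
with `e i F ∈ closure {y F | y ∈ T}` for all `F`. For almost all `F`: `H ≤ H_F`,
`∑ i ∈ s, e i F * φ_F (single t 1) ^ i = 0` (zpow of classes is the class of the zpow of the families, almost
everywhere; `mkU_inv`), and by the Hughes-free condition for `φ_F`, applied to the subgroup `H.subgroupOf H_F` of
`H_F` (finitely generated, isomorphic to `H` by `Subgroup.subgroupOfEquivOfLe`) with the character `f`
transported, `e i F = 0` for all `i ∈ s`. So `d i = 0`. Finally `hasHF_of_hughesFree` (from `Shr`)
takes care of the universe. -/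

set_option autoImplicit false

universe u w

namespace Pool.Agent.HFT

open MonoidAlgebra

/-- the inclusion of group rings -/
private noncomputable def incl (R : Type u) [DivisionRing R] {G : Type u} [Group G] (H : Subgroup G) :
    MonoidAlgebra R H →+* MonoidAlgebra R G := MonoidAlgebra.mapDomainRingHom R H.subtype

private theorem incl_inj (R : Type u) [DivisionRing R] {G : Type u} [Group G] (H : Subgroup G) :
    Function.Injective (incl R H) := by
  intro x y hxy
  unfold incl at hxy
  rw [mapDomainRingHom_apply, mapDomainRingHom_apply] at hxy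
  exact mapDomain_injective H.subtype_injective hxy

private theorem incl_single (R : Type u) [DivisionRing R] {G : Type u} [Group G] (H : Subgroup G)
    (a : H) (r : R) : incl R H (single a r) = single (a : G) r := by
  unfold incl
  rw [mapDomainRingHom_apply, mapDomain_single]
  rfl

private theorem fg_subgroupOf {G : Type u} [Group G] {H K : Subgroup G} (h : H ≤ K) (hH : H.FG) :
    (H.subgroupOf K).FG := by
  rw [← Group.fg_iff_subgroup_fg] at hH ⊢
  have := hH
  exact Group.fg_of_surjective (f := (Subgroup.subgroupOfEquivOfLe h).symm.toMonoidHom)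
    (Subgroup.subgroupOfEquivOfLe h).symm.surjective

private theorem mkU_zpow {I : Type u} {𝒰 : Ultrafilter I} {D : I → Type w} [∀ i, DivisionRing (D i)]
    (x : ∀ i, D i) (n : ℤ) : (mkU 𝒰 D x) ^ n = mkU 𝒰 D (fun i => x i ^ n) := by
  have h1 : (fun i => x i ^ n) = x ^ n := rfl
  rw [h1]
  cases n with
  | ofNat n =>
    rw [Int.ofNat_eq_natCast, zpow_natCast, zpow_natCast, map_pow]
  | negSucc n =>
    rw [zpow_negSucc, zpow_negSucc, mkU_inv, map_pow]

theorem hasHF_of_local {R : Type u} [DivisionRing R] {G : Type u} [Group G]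
    (h : ∀ H : Subgroup G, H.FG → HasHF R H) : HasHF R G := by
  classical
  have hfg : ∀ F : Finset G, (Subgroup.closure (F : Set G)).FG := fun F => ⟨F, rfl⟩
  choose D instD φ hφ using fun F : Finset G => h (Subgroup.closure (F : Set G)) (hfg F)
  let 𝒰 : Ultrafilter (Finset G) := Ultrafilter.of Filter.atTop
  have h𝒰 : ∀ F₀ : Finset G, ∀ᶠ F in (𝒰 : Filter (Finset G)), F₀ ⊆ F := fun F₀ =>
    Ultrafilter.of_le _ (Filter.eventually_ge_atTop F₀)
  -- every element is eventually in the group ring of the subgroup
  have hev : ∀ x : MonoidAlgebra R G, ∀ᶠ F in (𝒰 : Filter (Finset G)),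
      ∃ x', incl R (Subgroup.closure ((F : Finset G) : Set G)) x' = x := by
    intro x
    refine MonoidAlgebra.induction_linear x ?_ ?_ ?_
    · exact Filter.Eventually.of_forall fun F => ⟨0, map_zero _⟩
    · intro x y hx hy
      filter_upwards [hx, hy] with F hx hy
      obtain ⟨x', hx'⟩ := hx
      obtain ⟨y', hy'⟩ := hy
      exact ⟨x' + y', by rw [map_add, hx', hy']⟩
    · intro g r
      filter_upwards [h𝒰 {g}] with F hF
      have hg : g ∈ Subgroup.closure ((F : Finset G) : Set G) :=
        Subgroup.subset_closure (hF (Finset.mem_singleton_self g))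
      exact ⟨single ⟨g, hg⟩ r, incl_single R _ _ _⟩
  let fam : MonoidAlgebra R G → ∀ F : Finset G, D F := fun x F =>
    if hx : ∃ x', incl R (Subgroup.closure ((F : Finset G) : Set G)) x' = x then φ F hx.choose else 0
  have hfam : ∀ (F : Finset G) (x' : MonoidAlgebra R (Subgroup.closure (F : Set G))) (x : MonoidAlgebra R G),
      incl R (Subgroup.closure ((F : Finset G) : Set G)) x' = x → fam x F = φ F x' := by
    intro F x' x hx
    have hex : ∃ x', incl R (Subgroup.closure ((F : Finset G) : Set G)) x' = x := ⟨x', hx⟩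
    simp only [fam]
    rw [dif_pos hex]
    congr 1
    exact incl_inj R _ (hex.choose_spec.trans hx.symm)
  let Φ₀ : MonoidAlgebra R G →+* UProd 𝒰 D :=
    { toFun := fun x => mkU 𝒰 D (fam x)
      map_one' := by
        rw [← map_one (mkU 𝒰 D), mkU_eq_iff]
        refine Filter.Eventually.of_forall fun F => ?_
        rw [hfam F 1 1 (map_one _), map_one]
        rfl
      map_zero' := by
        rw [← map_zero (mkU 𝒰 D), mkU_eq_iff]
        refine Filter.Eventually.of_forall fun F => ?_
        rw [hfam F 0 0 (map_zero _), map_zero]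
        rfl
      map_mul' := by
        intro x y
        rw [← map_mul (mkU 𝒰 D), mkU_eq_iff]
        filter_upwards [hev x, hev y] with F hx hy
        obtain ⟨x', hx'⟩ := hx
        obtain ⟨y', hy'⟩ := hy
        rw [hfam F (x' * y') (x * y) (by rw [map_mul, hx', hy']), Pi.mul_apply, hfam F x' x hx',
          hfam F y' y hy', map_mul]
      map_add' := by
        intro x y
        rw [← map_add (mkU 𝒰 D), mkU_eq_iff]
        filter_upwards [hev x, hev y] with F hx hy
        obtain ⟨x', hx'⟩ := hx
        obtain ⟨y', hy'⟩ := hy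
        rw [hfam F (x' + y') (x + y) (by rw [map_add, hx', hy']), Pi.add_apply, hfam F x' x hx',
          hfam F y' y hy', map_add] }
  have hΦ₀ : ∀ x, Φ₀ x = mkU 𝒰 D (fam x) := fun x => rfl
  have hinj : Function.Injective Φ₀ := by
    rw [injective_iff_map_eq_zero]
    intro x hx
    rw [hΦ₀, ← map_zero (mkU 𝒰 D), mkU_eq_iff] at hx
    obtain ⟨F, hF1, x', hx'⟩ := (hx.and (hev x)).exists
    rw [hfam F x' x hx'] at hF1
    have h1 : x' = 0 := (hφ F).1 (by rw [map_zero]; exact hF1)
    rw [← hx', h1, map_zero]
  let D₀ : Subfield (UProd 𝒰 D) := Subfield.closure (Set.range Φ₀)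
  let Φ : MonoidAlgebra R G →+* D₀ :=
    Φ₀.codRestrict D₀ (fun x => Subfield.subset_closure ⟨x, rfl⟩)
  have hΦ : ∀ x, ((Φ x : D₀) : UProd 𝒰 D) = Φ₀ x := fun x => rfl
  refine hasHF_of_hughesFree (D := D₀) (φ := Φ) ⟨?_, ?_, ?_⟩
  · intro x y hxy
    exact hinj (congrArg Subtype.val hxy)
  · rw [eq_top_iff]
    rintro z -
    have h1 : (z : UProd 𝒰 D) ∈ (Subfield.closure (Set.range Φ)).map D₀.subtype := by
      rw [RingHom.map_field_closure, ← Set.range_comp]
      exact z.2
    obtain ⟨w, hw, hwz⟩ := h1
    have h2 : w = z := Subtype.ext hwz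
    rw [← h2]
    exact hw
  · intro H hH f hf t ht s d hd hsum i hi
    have hHev : ∀ᶠ F in (𝒰 : Filter (Finset G)), H ≤ Subgroup.closure ((F : Finset G) : Set G) := by
      obtain ⟨S, hS⟩ := hH
      filter_upwards [h𝒰 S] with F hF
      rw [← hS]
      exact Subgroup.closure_mono (by exact_mod_cast hF)
    let T : Set (∀ F, D F) := {y | ∃ (n : H) (r : R), f n = 1 ∧ y = fun F =>
      if hF : H ≤ Subgroup.closure ((F : Finset G) : Set G) then
        φ F (single ⟨(n : G), hF n.2⟩ r) else 0}
    have hz : ∀ j ∈ s, ((d j : D₀) : UProd 𝒰 D) ∈ Subfield.closure (mkU 𝒰 D '' T) := by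
      intro j hj
      have h1 : ((d j : D₀) : UProd 𝒰 D) ∈ (Subfield.closure
          {x : D₀ | ∃ (n : H) (r : R), f n = 1 ∧ x = Φ (single (n : G) r)}).map D₀.subtype :=
        ⟨d j, hd j hj, rfl⟩
      rw [RingHom.map_field_closure] at h1
      refine Subfield.closure_mono ?_ h1
      rintro _ ⟨_, ⟨n, r, hn, rfl⟩, rfl⟩
      refine ⟨_, ⟨n, r, hn, rfl⟩, ?_⟩
      change _ = Φ₀ (single (n : G) r)
      rw [hΦ₀, mkU_eq_iff]
      filter_upwards [hHev] with F hF
      rw [dif_pos hF, hfam F (single ⟨(n : G), hF n.2⟩ r) _ (incl_single R _ _ _)]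
    have he : ∀ j, ∃ e : ∀ F, D F, j ∈ s → mkU 𝒰 D e = d j ∧
        ∀ F, e F ∈ Subfield.closure ((fun y : ∀ F, D F => y F) '' T) := by
      intro j
      by_cases hj : j ∈ s
      · obtain ⟨e, he1, he2⟩ := mkU_closure (hz j hj)
        exact ⟨e, fun _ => ⟨he1, he2⟩⟩
      · exact ⟨0, fun hj' => absurd hj' hj⟩
    choose e he using he
    have hsum2 : mkU 𝒰 D (∑ j ∈ s, e j * (fun F => fam (single (t : G) 1) F ^ j)) = mkU 𝒰 D 0 := by
      rw [map_sum, map_zero]
      have h1 := congrArg D₀.subtype hsum
      rw [map_sum, map_zero] at h1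
      rw [← h1]
      refine Finset.sum_congr rfl fun j hj => ?_
      rw [map_mul, (he j hj).1, ← mkU_zpow, map_mul, map_zpow₀]
      rfl
    rw [mkU_eq_iff] at hsum2
    have hfin : ∀ᶠ F in (𝒰 : Filter (Finset G)), e i F = (0 : ∀ F, D F) F := by
      filter_upwards [hsum2, hHev] with F hF1 hF2
      have hfree := (hφ F).2.2 (H.subgroupOf (Subgroup.closure ((F : Finset G) : Set G)))
        (fg_subgroupOf hF2 hH) (f.comp (Subgroup.subgroupOfEquivOfLe hF2).toMonoidHom)
        (hf.comp (Subgroup.subgroupOfEquivOfLe hF2).surjective)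
        ((Subgroup.subgroupOfEquivOfLe hF2).symm t) (by
          change f (Subgroup.subgroupOfEquivOfLe hF2 ((Subgroup.subgroupOfEquivOfLe hF2).symm t)) = _
          rw [MulEquiv.apply_symm_apply]
          exact ht) s (fun j => e j F) (by
          intro j hj
          refine Subfield.closure_mono ?_ ((he j hj).2 F)
          rintro _ ⟨_, ⟨n, r, hn, rfl⟩, rfl⟩
          refine ⟨(Subgroup.subgroupOfEquivOfLe hF2).symm n, r, ?_, ?_⟩
          · change f (Subgroup.subgroupOfEquivOfLe hF2 ((Subgroup.subgroupOfEquivOfLe hF2).symm n)) = _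
            rw [MulEquiv.apply_symm_apply]
            exact hn
          · change (if hF : H ≤ Subgroup.closure ((F : Finset G) : Set G) then
              φ F (single ⟨(n : G), hF n.2⟩ r) else 0) = _
            rw [dif_pos hF2]
            rfl) (by
          rw [Finset.sum_apply] at hF1
          refine Eq.trans (Finset.sum_congr rfl fun j hj => ?_) hF1
          rw [Pi.mul_apply]
          congr 2
          exact (hfam F (single ⟨(t : G), hF2 t.2⟩ 1) _ (incl_single R _ _ _)).symm)
      exact hfree i hi
    have h3 : mkU 𝒰 D (e i) = mkU 𝒰 D 0 := mkU_eq_iff.2 hfin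
    rw [(he i hi).1, map_zero] at h3
    exact Subtype.ext h3

end Pool.Agent.HFT
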