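import Pool.Agent.HFT.OVDefs

/-! # HFT/OVa: the graded ring of homogeneous sums (helper49)

PROOF. `H d := HomSet α τ Δ d`. First facts: (1) `z, z' ∈ H d` implies `z + z' ∈ H d`: with `z = αa c`,
`z' = αa' c'` and `τ a = τ a'` one has `αa' = αa α(a⁻¹a')` and `α(a⁻¹a') ∈ Δ` by `ker`
(`τ(a⁻¹a') = 0` since `τ 1 = 0`, `τ a⁻¹ = -τ a`), so `z + z' = αa (c + α(a⁻¹a') c')`.
(2) `z ∈ H d`, `z' ∈ H d'` implies `z z' ∈ H (d+d')`: `αa c αa' c' = α(aa') (αa'⁻¹ c αa') c'` and
`αa'⁻¹ c αa' ∈ Δ` by `norm` applied to `a'⁻¹`. (3) nonzero elements: the product of nonzero elements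
of a division ring is nonzero.
`dec_unique`: if `p = ∑_F u = ∑_{F'} u'` (all nonzero homogeneous) then `F = F'` and `u = u'` on `F`:
subtract, the sum over `F ∪ F'` of the homogeneous elements `u d - u' d` (with value `0` outside)
is zero (each is in `H d` by (1) and `-H d = H d`); enumerating the degrees of `F ∪ F'`
(a finite set, so an injective family `Fin n → ℝ`) and choosing for every degree a representative
`a_l` with `u d - u' d = α(a_l) c_l`, `ind` gives `c_l = 0`.
`dec_exists`: every finite sum of elements of `Δ` times `α a` has a decomposition: collect equal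
degrees by (1) and drop zero terms. The set of elements having a decomposition is closed under
addition (use (1)), negation and multiplication (use (2), then collect).
`dec_mul`: if `p, p'` are nonzero with decompositions `(F,u)`, `(F',u')` then the decomposition of
`p p'` has smallest degree `min F + min F'`: the component of degree `min F + min F'` of the
product is `u (min F) u' (min F') ≠ 0`, all the other products have larger degree. -/

set_option autoImplicit false

universe w x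

namespace Pool.Agent.HFT

variable {D : Type w} [DivisionRing D] {N : Type x} [Group N] {α : N →* D} {τ : N → ℝ}
  {Δ : Subfield D}

theorem homSet_add (h : GrData α τ Δ) {d : ℝ} {z z' : D} (hz : z ∈ HomSet α τ Δ d)
    (hz' : z' ∈ HomSet α τ Δ d) : z + z' ∈ HomSet α τ Δ d := by
  obtain ⟨a, ha, c, hc, rfl⟩ := hz
  obtain ⟨a', ha', c', hc', rfl⟩ := hz'
  have h0 : τ (a⁻¹ * a') = 0 := by
    have h1 := h.hτ a (a⁻¹ * a')
    rw [mul_inv_cancel_left, ha, ha'] at h1
    linarith
  refine ⟨a, ha, c + α (a⁻¹ * a') * c', Δ.add_mem hc (Δ.mul_mem (h.ker _ h0) hc'), ?_⟩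
  rw [mul_add, ← mul_assoc, ← map_mul, mul_inv_cancel_left]

theorem homSet_neg {d : ℝ} {z : D} (hz : z ∈ HomSet α τ Δ d) : -z ∈ HomSet α τ Δ d := by
  obtain ⟨a, ha, c, hc, rfl⟩ := hz
  exact ⟨a, ha, -c, Δ.neg_mem hc, by rw [mul_neg]⟩

theorem homSet_mul (h : GrData α τ Δ) {d d' : ℝ} {z z' : D} (hz : z ∈ HomSet α τ Δ d)
    (hz' : z' ∈ HomSet α τ Δ d') : z * z' ∈ HomSet α τ Δ (d + d') := by
  obtain ⟨a, ha, c, hc, rfl⟩ := hz
  obtain ⟨a', ha', c', hc', rfl⟩ := hz'
  have h1 := h.norm a'⁻¹ c hc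
  rw [inv_inv] at h1
  refine ⟨a * a', by rw [h.hτ, ha, ha'], α a'⁻¹ * c * α a' * c', Δ.mul_mem h1 hc', ?_⟩
  have h2 : α a' * α a'⁻¹ = 1 := by rw [← map_mul, mul_inv_cancel, map_one]
  calc α a * c * (α a' * c') = α a * 1 * c * α a' * c' := by simp only [mul_assoc, one_mul]
    _ = α a * (α a' * α a'⁻¹) * c * α a' * c' := by rw [h2]
    _ = α (a * a') * (α a'⁻¹ * c * α a' * c') := by rw [map_mul]; simp only [mul_assoc]

private theorem ova_ind (h : GrData α τ Δ) {F : Finset ℝ} {w : ℝ → D}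
    (h1 : ∀ d ∈ F, w d ∈ HomSet α τ Δ d) (h2 : ∑ d ∈ F, w d = 0) : ∀ d ∈ F, w d = 0 := by
  have h3 : ∀ d, ∃ a : N, ∃ c : D, d ∈ F → τ a = d ∧ c ∈ Δ ∧ w d = α a * c := by
    intro d
    by_cases hd : d ∈ F
    · obtain ⟨a, ha, c, hc, e⟩ := h1 d hd
      exact ⟨a, c, fun _ => ⟨ha, hc, e⟩⟩
    · exact ⟨1, 0, fun h => absurd h hd⟩
  choose a c hac using h3
  have h4 := h.ind F.card (fun l => a (F.equivFin.symm l)) (fun l => c (F.equivFin.symm l))
    (by
      intro l l' e
      have e1 := (hac _ (F.equivFin.symm l).2).1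
      have e2 := (hac _ (F.equivFin.symm l').2).1
      dsimp only at e
      rw [e1, e2] at e
      exact F.equivFin.symm.injective (Subtype.ext e))
    (fun l => (hac _ (F.equivFin.symm l).2).2.1)
    (by
      have e1 : ∀ l : Fin F.card, α (a (F.equivFin.symm l)) * c (F.equivFin.symm l) =
          w (F.equivFin.symm l) := fun l => (hac _ (F.equivFin.symm l).2).2.2.symm
      rw [Finset.sum_congr rfl (fun l _ => e1 l),
        Equiv.sum_comp F.equivFin.symm (fun d : F => w d), Finset.sum_coe_sort F w]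
      exact h2)
  intro d hd
  have h5 := h4 (F.equivFin ⟨d, hd⟩)
  rw [Equiv.symm_apply_apply] at h5
  rw [(hac d hd).2.2, h5, mul_zero]

open scoped Classical in
private theorem ova_sum {F F' : Finset ℝ} {u u' : ℝ → D} :
    ∑ d ∈ F ∪ F', ((if d ∈ F then u d else 0) + (if d ∈ F' then u' d else 0)) =
      ∑ d ∈ F, u d + ∑ d ∈ F', u' d := by
  rw [Finset.sum_add_distrib, ← Finset.sum_filter, ← Finset.sum_filter]
  congr 2
  · ext d
    simp only [Finset.mem_filter, Finset.mem_union]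
    tauto
  · ext d
    simp only [Finset.mem_filter, Finset.mem_union]
    tauto

/-- the decomposition is unique -/
theorem dec_unique (h : GrData α τ Δ) {p : D} {F F' : Finset ℝ} {u u' : ℝ → D}
    (h1 : IsDec α τ Δ p F u) (h2 : IsDec α τ Δ p F' u') : F = F' ∧ ∀ d ∈ F, u d = u' d := by
  classical
  have key : ∀ d ∈ F ∪ F', (if d ∈ F then u d else 0) + (if d ∈ F' then -u' d else 0) = 0 := by
    apply ova_ind h
    · intro d hd
      rcases Finset.mem_union.1 hd with h3 | h3
      · by_cases h4 : d ∈ F'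
        · rw [if_pos h3, if_pos h4]
          exact homSet_add h (h1.1 d h3) (homSet_neg (h2.1 d h4))
        · rw [if_pos h3, if_neg h4, add_zero]
          exact h1.1 d h3
      · by_cases h4 : d ∈ F
        · rw [if_pos h3, if_pos h4]
          exact homSet_add h (h1.1 d h4) (homSet_neg (h2.1 d h3))
        · rw [if_pos h3, if_neg h4, zero_add]
          exact homSet_neg (h2.1 d h3)
    · rw [ova_sum, ← h1.2.2, Finset.sum_neg_distrib, ← h2.2.2, add_neg_cancel]
  have h3 : ∀ d, d ∈ F → d ∈ F' ∧ u d = u' d := by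
    intro d hd
    have h4 := key d (Finset.mem_union_left _ hd)
    rw [if_pos hd] at h4
    by_cases h5 : d ∈ F'
    · rw [if_pos h5] at h4
      exact ⟨h5, add_neg_eq_zero.1 h4⟩
    · rw [if_neg h5, add_zero] at h4
      exact absurd h4 (h1.2.1 d hd)
  refine ⟨Finset.Subset.antisymm (fun d hd => (h3 d hd).1) (fun d hd => ?_), fun d hd => (h3 d hd).2⟩
  by_contra h5
  have h4 := key d (Finset.mem_union_right _ hd)
  rw [if_pos hd, if_neg h5, zero_add, neg_eq_zero] at h4
  exact h2.2.1 d hd h4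

/-- elements of `Δ` and of the image of `α` have decompositions -/
theorem dec_const (h : GrData α τ Δ) {x : D} (hx : x ∈ Δ) (hx0 : x ≠ 0) :
    ∃ u, IsDec α τ Δ x {0} u := by
  have h1 : τ 1 = 0 := by
    have h2 := h.hτ 1 1
    rw [mul_one] at h2
    linarith
  refine ⟨fun _ => x, fun d hd => ?_, fun d _ => hx0, by rw [Finset.sum_singleton]⟩
  rw [Finset.mem_singleton.1 hd]
  exact ⟨1, h1, x, hx, by rw [map_one, one_mul]⟩

theorem dec_al (h : GrData α τ Δ) (a : N) : ∃ u, IsDec α τ Δ (α a) {τ a} u := by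
  have h0 : α a ≠ 0 := by
    intro h0
    have h2 : α a * α a⁻¹ = 1 := by rw [← map_mul, mul_inv_cancel, map_one]
    rw [h0, zero_mul] at h2
    exact zero_ne_one h2
  refine ⟨fun _ => α a, fun d hd => ?_, fun d _ => h0, by rw [Finset.sum_singleton]⟩
  rw [Finset.mem_singleton.1 hd]
  exact ⟨a, rfl, 1, Δ.one_mem, by rw [mul_one]⟩

theorem dec_zero : IsDec α τ Δ 0 ∅ (fun _ => 0) := by
  exact ⟨fun d hd => absurd hd (Finset.notMem_empty d), fun d hd => absurd hd (Finset.notMem_empty d),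
    by rw [Finset.sum_empty]⟩

/-- sums; the degrees of a sum are at least the smaller one of the smallest degrees -/
theorem dec_add (h : GrData α τ Δ) {p p' : D} {F F' : Finset ℝ} {u u' : ℝ → D}
    (h1 : IsDec α τ Δ p F u) (h2 : IsDec α τ Δ p' F' u') :
    ∃ F'' u'', IsDec α τ Δ (p + p') F'' u'' ∧ F'' ⊆ F ∪ F' := by
  classical
  refine ⟨(F ∪ F').filter (fun d => (if d ∈ F then u d else 0) + (if d ∈ F' then u' d else 0) ≠ 0),
    fun d => (if d ∈ F then u d else 0) + (if d ∈ F' then u' d else 0), ⟨?_, ?_, ?_⟩,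
    Finset.filter_subset _ _⟩
  · intro d hd
    dsimp only
    rcases Finset.mem_union.1 (Finset.mem_filter.1 hd).1 with h3 | h3
    · by_cases h4 : d ∈ F'
      · rw [if_pos h3, if_pos h4]
        exact homSet_add h (h1.1 d h3) (h2.1 d h4)
      · rw [if_pos h3, if_neg h4, add_zero]
        exact h1.1 d h3
    · by_cases h4 : d ∈ F
      · rw [if_pos h3, if_pos h4]
        exact homSet_add h (h1.1 d h4) (h2.1 d h3)
      · rw [if_pos h3, if_neg h4, zero_add]
        exact h2.1 d h3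
  · intro d hd
    exact (Finset.mem_filter.1 hd).2
  · rw [Finset.sum_filter_ne_zero, ova_sum, ← h1.2.2, ← h2.2.2]

theorem dec_neg {p : D} {F : Finset ℝ} {u : ℝ → D} (h1 : IsDec α τ Δ p F u) :
    IsDec α τ Δ (-p) F (fun d => - u d) := by
  refine ⟨fun d hd => homSet_neg (h1.1 d hd), fun d hd => neg_ne_zero.2 (h1.2.1 d hd), ?_⟩
  rw [Finset.sum_neg_distrib, ← h1.2.2]

/-- products; the smallest degrees add up -/
theorem dec_mul (h : GrData α τ Δ) {p p' : D} {F F' : Finset ℝ} {u u' : ℝ → D}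
    (h1 : IsDec α τ Δ p F u) (h2 : IsDec α τ Δ p' F' u') (hF : F.Nonempty) (hF' : F'.Nonempty) :
    ∃ F'' u'', IsDec α τ Δ (p * p') F'' u'' ∧
      (∀ e ∈ F'', ∃ d ∈ F, ∃ d' ∈ F', e = d + d') ∧
      ∃ hF'' : F''.Nonempty, F''.min' hF'' = F.min' hF + F'.min' hF' := by
  classical
  obtain ⟨w, hw⟩ : ∃ w : ℝ → D, ∀ e, w e = ∑ q ∈ (F ×ˢ F').filter (fun q => q.1 + q.2 = e),
      u q.1 * u' q.2 := ⟨_, fun e => rfl⟩
  obtain ⟨I, hI⟩ : ∃ I : Finset ℝ, I = (F ×ˢ F').image (fun q => q.1 + q.2) := ⟨_, rfl⟩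
  have hmem : ∀ e ∈ I, w e ∈ HomSet α τ Δ e := by
    intro e he
    rw [hI, Finset.mem_image] at he
    obtain ⟨q, hq, rfl⟩ := he
    rw [hw]
    apply Finset.sum_induction_nonempty _ (fun z => z ∈ HomSet α τ Δ (q.1 + q.2))
    · exact fun z z' hz hz' => homSet_add h hz hz'
    · exact ⟨q, Finset.mem_filter.2 ⟨hq, rfl⟩⟩
    · intro q' hq'
      obtain ⟨hq1, hq2⟩ := Finset.mem_filter.1 hq'
      rw [← hq2]
      rw [Finset.mem_product] at hq1
      exact homSet_mul h (h1.1 _ hq1.1) (h2.1 _ hq1.2)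
  have hmin : w (F.min' hF + F'.min' hF') ≠ 0 := by
    have e1 : (F ×ˢ F').filter (fun q => q.1 + q.2 = F.min' hF + F'.min' hF') =
        {(F.min' hF, F'.min' hF')} := by
      ext q
      rw [Finset.mem_filter, Finset.mem_product, Finset.mem_singleton]
      constructor
      · rintro ⟨⟨h3, h4⟩, h5⟩
        have h6 := F.min'_le _ h3
        have h7 := F'.min'_le _ h4
        exact Prod.ext (by linarith) (by linarith)
      · rintro rfl
        exact ⟨⟨F.min'_mem hF, F'.min'_mem hF'⟩, rfl⟩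
    rw [hw, e1, Finset.sum_singleton]
    exact mul_ne_zero (h1.2.1 _ (F.min'_mem hF)) (h2.2.1 _ (F'.min'_mem hF'))
  have hminI : F.min' hF + F'.min' hF' ∈ I.filter (fun e => w e ≠ 0) := by
    rw [Finset.mem_filter]
    refine ⟨?_, hmin⟩
    rw [hI, Finset.mem_image]
    exact ⟨(F.min' hF, F'.min' hF'),
      Finset.mem_product.2 ⟨F.min'_mem hF, F'.min'_mem hF'⟩, rfl⟩
  have hdeg : ∀ e ∈ I.filter (fun e => w e ≠ 0), ∃ d ∈ F, ∃ d' ∈ F', e = d + d' := by
    intro e he
    have h3 := (Finset.mem_filter.1 he).1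
    rw [hI, Finset.mem_image] at h3
    obtain ⟨q, hq, rfl⟩ := h3
    rw [Finset.mem_product] at hq
    exact ⟨q.1, hq.1, q.2, hq.2, rfl⟩
  refine ⟨I.filter (fun e => w e ≠ 0), w, ⟨fun e he => hmem e (Finset.mem_filter.1 he).1,
    fun e he => (Finset.mem_filter.1 he).2, ?_⟩, hdeg, ⟨_, hminI⟩, ?_⟩
  · rw [Finset.sum_filter_ne_zero, h1.2.2, h2.2.2, Finset.sum_mul_sum, ← Finset.sum_product']
    rw [Finset.sum_congr rfl (fun e _ => hw e)]
    symm
    apply Finset.sum_fiberwise_of_maps_to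
    intro q hq
    rw [hI]
    exact Finset.mem_image_of_mem (fun q : ℝ × ℝ => q.1 + q.2) hq
  · apply le_antisymm
    · exact Finset.min'_le _ _ hminI
    · apply Finset.le_min'
      intro e he
      obtain ⟨d, hd, d', hd', rfl⟩ := hdeg e he
      exact add_le_add (F.min'_le _ hd) (F'.min'_le _ hd')

end Pool.Agent.HFT
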