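import Pool.Agent.HFT.Lev

/-! # HFT/PRa: lexicographic product of Conradian systems (helper49)

PROOF. The levels of `G₁ × G₂` are the levels of `G₁` (below) and those of `G₂` (above): `(g₁, g₂)` has the level of
`g₂` if `g₂ ≠ 1`, and the level of `g₁` otherwise. `lev_mul`: if `lev₂ (g₂ h₂) ≠ ⊥` then `max (lev₂ g₂) (lev₂ h₂) ≠ ⊥` and the
claim is the one of `S₂`; if `g₂ h₂ = 1` and not `g₂ = h₂ = 1`, the left side is a level of `G₁` or `⊥`, below every level of `G₂`; if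
`g₂ = h₂ = 1` it is the claim of `S₁`. `τ_mul`, `τ_zero` for a level of `G₂`: `lev (g₁, g₂) ≤ inr i` iff
`lev₂ g₂ ≤ i` (also for `g₂ = 1`), `< ` iff `lev₂ g₂ < i`; for a level of `G₁`: `lev (g₁, g₂) ≤ inl i` iff `g₂ = 1` and
`lev₁ g₁ ≤ i`. -/

set_option autoImplicit false

universe u

namespace Pool.Agent.HFT

variable {G₁ G₂ : Type u} [Group G₁] [Group G₂]

namespace ConradSys

/-- level of a pair -/
def prodLev (S₁ : ConradSys G₁) (S₂ : ConradSys G₂) (g : G₁ × G₂) :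
    WithBot (Lex (S₁.I ⊕ S₂.I)) :=
  WithBot.recBotCoe ((S₁.lev g.1).map (fun i => toLex (Sum.inl i)))
    (fun i => ((toLex (Sum.inr i) : Lex (S₁.I ⊕ S₂.I)) : WithBot (Lex (S₁.I ⊕ S₂.I))))
    (S₂.lev g.2)

/-- characters of a pair -/
def prodTau (S₁ : ConradSys G₁) (S₂ : ConradSys G₂) (i : Lex (S₁.I ⊕ S₂.I)) (g : G₁ × G₂) : ℝ :=
  Sum.elim (fun i => S₁.τ i g.1) (fun i => S₂.τ i g.2) (ofLex i)

theorem prodLev_one (S₁ : ConradSys G₁) (S₂ : ConradSys G₂) {g : G₁ × G₂} (h : g.2 = 1) :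
    prodLev S₁ S₂ g = (S₁.lev g.1).map (fun i => toLex (Sum.inl i)) := by
  unfold prodLev
  rw [(S₂.lev_bot _).2 h]
  rfl

theorem prodLev_coe (S₁ : ConradSys G₁) (S₂ : ConradSys G₂) {g : G₁ × G₂} {j : S₂.I}
    (h : S₂.lev g.2 = (j : WithBot S₂.I)) :
    prodLev S₁ S₂ g =
      ((toLex (Sum.inr j) : Lex (S₁.I ⊕ S₂.I)) : WithBot (Lex (S₁.I ⊕ S₂.I))) := by
  unfold prodLev
  rw [h]
  rfl

private theorem lev_cases {G : Type u} [Group G] (S : ConradSys G) (g : G) :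
    g = 1 ∨ (g ≠ 1 ∧ ∃ j : S.I, S.lev g = (j : WithBot S.I)) := by
  by_cases h : g = 1
  · exact Or.inl h
  · right
    refine ⟨h, ?_⟩
    have h1 : S.lev g ≠ ⊥ := fun e => h ((S.lev_bot g).1 e)
    obtain ⟨j, hj⟩ := WithBot.ne_bot_iff_exists.1 h1
    exact ⟨j, hj.symm⟩

private theorem map_le_inr {A B : Type u} [LinearOrder A] [LinearOrder B] (x : WithBot A) (i : B) :
    x.map (fun a => (toLex (Sum.inl a) : Lex (A ⊕ B))) <
      ((toLex (Sum.inr i) : Lex (A ⊕ B)) : WithBot (Lex (A ⊕ B))) := by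
  cases x with
  | bot => exact WithBot.bot_lt_coe _
  | coe a =>
    rw [WithBot.map_coe, WithBot.coe_lt_coe]
    exact Sum.Lex.inl_lt_inr _ _

private theorem map_le_inl {A B : Type u} [LinearOrder A] [LinearOrder B] (x : WithBot A) (i : A) :
    x.map (fun a => (toLex (Sum.inl a) : Lex (A ⊕ B))) ≤
      ((toLex (Sum.inl i) : Lex (A ⊕ B)) : WithBot (Lex (A ⊕ B))) ↔ x ≤ (i : WithBot A) := by
  cases x with
  | bot => exact ⟨fun _ => bot_le, fun _ => bot_le⟩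
  | coe a =>
    rw [WithBot.map_coe, WithBot.coe_le_coe, WithBot.coe_le_coe]
    exact Sum.Lex.inl_le_inl_iff

private theorem map_lt_inl {A B : Type u} [LinearOrder A] [LinearOrder B] (x : WithBot A) (i : A) :
    x.map (fun a => (toLex (Sum.inl a) : Lex (A ⊕ B))) <
      ((toLex (Sum.inl i) : Lex (A ⊕ B)) : WithBot (Lex (A ⊕ B))) ↔ x < (i : WithBot A) := by
  cases x with
  | bot => exact ⟨fun _ => WithBot.bot_lt_coe _, fun _ => WithBot.bot_lt_coe _⟩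
  | coe a =>
    rw [WithBot.map_coe, WithBot.coe_lt_coe, WithBot.coe_lt_coe]
    exact Sum.Lex.inl_lt_inl_iff

theorem prodLev_le_inr (S₁ : ConradSys G₁) (S₂ : ConradSys G₂) (g : G₁ × G₂) (i : S₂.I) :
    prodLev S₁ S₂ g ≤ ((toLex (Sum.inr i) : Lex (S₁.I ⊕ S₂.I)) : WithBot (Lex (S₁.I ⊕ S₂.I))) ↔
      S₂.lev g.2 ≤ (i : WithBot S₂.I) := by
  rcases lev_cases S₂ g.2 with h | ⟨h, j, hj⟩
  · rw [prodLev_one S₁ S₂ h, (S₂.lev_bot _).2 h]
    exact ⟨fun _ => bot_le, fun _ => (map_le_inr _ _).le⟩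
  · rw [prodLev_coe S₁ S₂ hj, hj, WithBot.coe_le_coe, WithBot.coe_le_coe]
    exact Sum.Lex.inr_le_inr_iff

theorem prodLev_lt_inr (S₁ : ConradSys G₁) (S₂ : ConradSys G₂) (g : G₁ × G₂) (i : S₂.I) :
    prodLev S₁ S₂ g < ((toLex (Sum.inr i) : Lex (S₁.I ⊕ S₂.I)) : WithBot (Lex (S₁.I ⊕ S₂.I))) ↔
      S₂.lev g.2 < (i : WithBot S₂.I) := by
  rcases lev_cases S₂ g.2 with h | ⟨h, j, hj⟩
  · rw [prodLev_one S₁ S₂ h, (S₂.lev_bot _).2 h]
    exact ⟨fun _ => WithBot.bot_lt_coe _, fun _ => map_le_inr _ _⟩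
  · rw [prodLev_coe S₁ S₂ hj, hj, WithBot.coe_lt_coe, WithBot.coe_lt_coe]
    exact Sum.Lex.inr_lt_inr_iff

theorem prodLev_le_inl (S₁ : ConradSys G₁) (S₂ : ConradSys G₂) (g : G₁ × G₂) (i : S₁.I) :
    prodLev S₁ S₂ g ≤ ((toLex (Sum.inl i) : Lex (S₁.I ⊕ S₂.I)) : WithBot (Lex (S₁.I ⊕ S₂.I))) ↔
      g.2 = 1 ∧ S₁.lev g.1 ≤ (i : WithBot S₁.I) := by
  rcases lev_cases S₂ g.2 with h | ⟨h, j, hj⟩
  · rw [prodLev_one S₁ S₂ h, map_le_inl]
    exact ⟨fun h1 => ⟨h, h1⟩, fun h1 => h1.2⟩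
  · rw [prodLev_coe S₁ S₂ hj, WithBot.coe_le_coe]
    refine ⟨fun h1 => absurd h1 Sum.Lex.not_inr_le_inl, fun h1 => absurd h1.1 h⟩

theorem prodLev_lt_inl (S₁ : ConradSys G₁) (S₂ : ConradSys G₂) (g : G₁ × G₂) (i : S₁.I) :
    prodLev S₁ S₂ g < ((toLex (Sum.inl i) : Lex (S₁.I ⊕ S₂.I)) : WithBot (Lex (S₁.I ⊕ S₂.I))) ↔
      g.2 = 1 ∧ S₁.lev g.1 < (i : WithBot S₁.I) := by
  rcases lev_cases S₂ g.2 with h | ⟨h, j, hj⟩
  · rw [prodLev_one S₁ S₂ h, map_lt_inl]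
    exact ⟨fun h1 => ⟨h, h1⟩, fun h1 => h1.2⟩
  · rw [prodLev_coe S₁ S₂ hj, WithBot.coe_lt_coe]
    refine ⟨fun h1 => absurd h1 Sum.Lex.not_inr_lt_inl, fun h1 => absurd h1.1 h⟩

theorem prodLev_bot (S₁ : ConradSys G₁) (S₂ : ConradSys G₂) (g : G₁ × G₂) :
    prodLev S₁ S₂ g = ⊥ ↔ g = 1 := by
  rcases lev_cases S₂ g.2 with h | ⟨h, j, hj⟩
  · rw [prodLev_one S₁ S₂ h, WithBot.map_eq_bot_iff, S₁.lev_bot]
    exact ⟨fun h1 => Prod.ext h1 h, fun h1 => by rw [h1]; rfl⟩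
  · rw [prodLev_coe S₁ S₂ hj]
    exact ⟨fun h1 => absurd h1 (WithBot.coe_ne_bot), fun h1 => absurd (by rw [h1]; rfl) h⟩

private theorem prodLev_mul (S₁ : ConradSys G₁) (S₂ : ConradSys G₂) (g h : G₁ × G₂)
    (m : WithBot (Lex (S₁.I ⊕ S₂.I))) (h1 : prodLev S₁ S₂ g ≤ m) (h2 : prodLev S₁ S₂ h ≤ m) :
    prodLev S₁ S₂ (g * h) ≤ m := by
  cases m with
  | bot =>
    rw [le_bot_iff, prodLev_bot] at h1 h2
    rw [h1, h2, mul_one, le_bot_iff, prodLev_bot]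
  | coe i =>
    induction i using Lex.rec with
    | h i =>
      cases i with
      | inl i =>
        rw [prodLev_le_inl] at h1 h2 ⊢
        refine ⟨?_, ?_⟩
        · rw [Prod.snd_mul, h1.1, h2.1, mul_one]
        · rw [Prod.fst_mul]
          exact (S₁.lev_mul _ _).trans (max_le h1.2 h2.2)
      | inr i =>
        rw [prodLev_le_inr] at h1 h2 ⊢
        rw [Prod.snd_mul]
        exact (S₂.lev_mul _ _).trans (max_le h1 h2)

/-- the lexicographic product -/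
noncomputable def prod (S₁ : ConradSys G₁) (S₂ : ConradSys G₂) : ConradSys (G₁ × G₂) where
  I := Lex (S₁.I ⊕ S₂.I)
  ord := inferInstance
  lev := prodLev S₁ S₂
  τ := prodTau S₁ S₂
  lev_bot := prodLev_bot S₁ S₂
  lev_inv := by
    intro g
    unfold prodLev
    rw [Prod.fst_inv, Prod.snd_inv, S₁.lev_inv, S₂.lev_inv]
  lev_mul := fun g h => prodLev_mul S₁ S₂ g h _ (le_max_left _ _) (le_max_right _ _)
  τ_mul := by
    intro i g h hg hh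
    induction i using Lex.rec with
    | h i =>
      cases i with
      | inl i =>
        rw [prodLev_le_inl] at hg hh
        exact S₁.τ_mul i g.1 h.1 hg.2 hh.2
      | inr i =>
        rw [prodLev_le_inr] at hg hh
        exact S₂.τ_mul i g.2 h.2 hg hh
  τ_zero := by
    intro i g hg
    induction i using Lex.rec with
    | h i =>
      cases i with
      | inl i =>
        rw [prodLev_le_inl] at hg
        rw [prodLev_lt_inl]
        refine (S₁.τ_zero i g.1 hg.2).trans ⟨fun h => ⟨hg.1, h⟩, fun h => h.2⟩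
      | inr i =>
        rw [prodLev_le_inr] at hg
        rw [prodLev_lt_inr]
        exact S₂.τ_zero i g.2 hg

theorem mem_prod_Le_inr (S₁ : ConradSys G₁) (S₂ : ConradSys G₂) (k g : G₁ × G₂) (i : S₂.I) :
    g ∈ (prod S₁ S₂).Le k (toLex (Sum.inr i)) ↔ g.2 ∈ S₂.Le k.2 i :=
  prodLev_le_inr S₁ S₂ _ i

theorem mem_prod_Lt_inr (S₁ : ConradSys G₁) (S₂ : ConradSys G₂) (k g : G₁ × G₂) (i : S₂.I) :
    g ∈ (prod S₁ S₂).Lt k (toLex (Sum.inr i)) ↔ g.2 ∈ S₂.Lt k.2 i :=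
  prodLev_lt_inr S₁ S₂ _ i

theorem prod_deg_inr (S₁ : ConradSys G₁) (S₂ : ConradSys G₂) (k g : G₁ × G₂) (i : S₂.I) :
    (prod S₁ S₂).deg k (toLex (Sum.inr i)) g = S₂.deg k.2 i g.2 := rfl

private theorem conj_one {G : Type u} [Group G] (k g : G) : k⁻¹ * g * k = 1 ↔ g = 1 := by
  constructor
  · intro h
    have e : g = k * (k⁻¹ * g * k) * k⁻¹ := by group
    rw [e, h]
    group
  · intro h
    rw [h]
    group

theorem mem_prod_Le_inl (S₁ : ConradSys G₁) (S₂ : ConradSys G₂) (k g : G₁ × G₂) (i : S₁.I) :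
    g ∈ (prod S₁ S₂).Le k (toLex (Sum.inl i)) ↔ g.2 = 1 ∧ g.1 ∈ S₁.Le k.1 i := by
  refine (prodLev_le_inl S₁ S₂ (k⁻¹ * g * k) i).trans (and_congr_left fun _ => ?_)
  exact conj_one k.2 g.2

theorem mem_prod_Lt_inl (S₁ : ConradSys G₁) (S₂ : ConradSys G₂) (k g : G₁ × G₂) (i : S₁.I) :
    g ∈ (prod S₁ S₂).Lt k (toLex (Sum.inl i)) ↔ g.2 = 1 ∧ g.1 ∈ S₁.Lt k.1 i := by
  refine (prodLev_lt_inl S₁ S₂ (k⁻¹ * g * k) i).trans (and_congr_left fun _ => ?_)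
  exact conj_one k.2 g.2

theorem prod_deg_inl (S₁ : ConradSys G₁) (S₂ : ConradSys G₂) (k g : G₁ × G₂) (i : S₁.I) :
    (prod S₁ S₂).deg k (toLex (Sum.inl i)) g = S₁.deg k.1 i g.1 := rfl

end ConradSys

end Pool.Agent.HFT
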