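import Pool.Agent.HFT.PRa
import Pool.Agent.HFT.HFt
import Pool.Agent.HFT.FinHF
import Pool.Agent.HFT.Shr
import Pool.Agent.HFT.CS3

/-! # HFT/PRb: direct products (helper49)

PROOF. `jf_id` is `jfHF` (module `HFt`) for `j = MonoidHom.id G` (or use `hf_char` directly as in the proof of `jfHF`).
`hasHF_prod`: let `φ₂ : D₁ G₂ →+* D₂` be Hughes-free. `ρ₂ x := φ₂ (single 1 x)`, `[g₂] := φ₂ (single g₂ 1)`,
`ρ₂ x * [g₂] = [g₂] * ρ₂ x`. `prodAl (g₁, g₂) := φ₂ (single g₂ (φ₁ (single g₁ 1))) = [g₂] ρ₂ (φ₁ (single g₁ 1))`,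
`prodRo r := ρ₂ (φ₁ (single 1 r))`. The system is `S := S₁.prod S₂` with `S₁`, `S₂` from `exists_conradSys`, and the family is
the `TSet S R ⊤ Unit` with `D _ := D₂`. Condition `jf`, level `inr i`: all `α b`, `b ∈ Lt k (inr i)`, and all `ρ r` are in
`K := closure (range ρ₂ ∪ {[b₂] : b₂ ∈ S₂.Lt k.2 i})`, so `c l ∈ K`; the given sum is
`∑ [a_l.2] * (ρ₂ (φ₁ (single a_l.1 1)) * c l)`, coefficients in `K`, so `jf_id` for `φ₂`, `S₂` gives
`ρ₂ (..) * c l = 0` and `c l = 0`. Level `inl i`: `a_l.2 = 1`, `α (a_l) = ρ₂ (φ₁ (single a_l.1 1))`, the closure is the image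
under `ρ₂` of `closure (range (φ₁ (single 1 ·)) ∪ {φ₁ (single b 1) : b ∈ S₁.Lt k.1 i})` (`RingHom.map_field_closure`),
so `c l = ρ₂ (c' l)` and the sum `∑ φ₁ (single a_l.1 1) * c' l` vanishes (`ρ₂` injective), `jf_id` for `φ₁`, `S₁`.
Then `hughesFree_φE` and `hasHF_of_hughesFree`, as at the end of `JFU.lean` / `LMj.lean`. -/

set_option autoImplicit false

universe u w

namespace Pool.Agent.HFT

theorem jf_id {R : Type u} [DivisionRing R] {G : Type u} [Group G] {D : Type w} [DivisionRing D]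
    (S : ConradSys G) {φ : MonoidAlgebra R G →+* D} (h : HughesFree R G D φ) (k : G) (i : S.I)
    (n : ℕ) (a : Fin n → G) (c : Fin n → D) (ha : ∀ l, a l ∈ S.Le k i)
    (hd : Function.Injective (fun l => S.deg k i (a l)))
    (hc : ∀ l, c l ∈ Subfield.closure
      (Set.range (fun r : R => φ (MonoidAlgebra.single 1 r)) ∪
        {x | ∃ b : G, b ∈ S.Lt k i ∧ φ (MonoidAlgebra.single b 1) = x}))
    (hs : ∑ l, φ (MonoidAlgebra.single (a l) 1) * c l = 0) : ∀ l, c l = 0 := by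
  obtain ⟨τ, hτ⟩ : ∃ τ : S.Le k i →* Multiplicative ℝ,
      ∀ x, τ x = Multiplicative.ofAdd (S.deg k i (x : G)) :=
    ⟨{ toFun := fun x => Multiplicative.ofAdd (S.deg k i (x : G))
       map_one' := by
        show Multiplicative.ofAdd (S.deg k i 1) = 1
        rw [S.deg_one, ofAdd_zero]
       map_mul' := fun x y => by
        show Multiplicative.ofAdd (S.deg k i ((x : G) * (y : G))) = _
        rw [S.deg_mul x.2 y.2, ofAdd_add] },
      fun _ => rfl⟩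
  refine hf_char h (S.Le k i) τ (fun l => ⟨a l, ha l⟩) c ?_ ?_ ?_
  · intro l l' hll
    apply hd
    simp only [hτ] at hll
    exact Multiplicative.ofAdd.injective hll
  · intro l
    refine Subfield.closure_mono ?_ (hc l)
    rintro x (⟨r, rfl⟩ | ⟨b', hb', rfl⟩)
    · exact ⟨1, r, map_one τ, rfl⟩
    · refine ⟨⟨b', S.Lt_le_Le k i hb'⟩, 1, ?_, rfl⟩
      rw [hτ]
      show Multiplicative.ofAdd (S.deg k i b') = 1
      rw [(S.deg_zero_iff (S.Lt_le_Le k i hb')).2 hb', ofAdd_zero]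
  · exact hs

section

variable {R : Type u} [DivisionRing R] {G₁ G₂ : Type u} [Group G₁] [Group G₂]
  {D₁ : Type u} [DivisionRing D₁] {D₂ : Type w} [DivisionRing D₂]
  (φ₁ : MonoidAlgebra R G₁ →+* D₁) (φ₂ : MonoidAlgebra D₁ G₂ →+* D₂)

/-- the embedding of the scalars -/
noncomputable def sc : D₁ →+* D₂ := φ₂.comp MonoidAlgebra.singleOneRingHom

theorem sc_apply (x : D₁) : sc φ₂ x = φ₂ (MonoidAlgebra.single 1 x) := rfl

/-- the embedding of the product group -/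
noncomputable def prodAl : G₁ × G₂ →* D₂ where
  toFun g := φ₂ (MonoidAlgebra.single g.2 1) * sc φ₂ (φ₁ (MonoidAlgebra.single g.1 1))
  map_one' := by
    show φ₂ (MonoidAlgebra.single 1 1) * sc φ₂ (φ₁ (MonoidAlgebra.single 1 1)) = 1
    rw [← MonoidAlgebra.one_def, ← MonoidAlgebra.one_def, map_one, map_one, map_one, one_mul]
  map_mul' g h := by
    show φ₂ (MonoidAlgebra.single (g.2 * h.2) 1) *
      sc φ₂ (φ₁ (MonoidAlgebra.single (g.1 * h.1) 1)) = _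
    rw [sc_apply, sc_apply, sc_apply, ← map_mul, ← map_mul, ← map_mul, ← map_mul]
    congr 1
    rw [MonoidAlgebra.single_mul_single, MonoidAlgebra.single_mul_single,
      MonoidAlgebra.single_mul_single, MonoidAlgebra.single_mul_single, mul_one, mul_one, mul_one,
      one_mul, one_mul, one_mul, ← map_mul, MonoidAlgebra.single_mul_single, mul_one]

theorem prodAl_apply (g : G₁ × G₂) : prodAl φ₁ φ₂ g =
    φ₂ (MonoidAlgebra.single g.2 1) * sc φ₂ (φ₁ (MonoidAlgebra.single g.1 1)) := rfl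

/-- the embedding of the coefficients -/
noncomputable def prodRo : R →+* D₂ := (sc φ₂).comp (φ₁.comp MonoidAlgebra.singleOneRingHom)

theorem prodRo_apply (r : R) :
    prodRo φ₁ φ₂ r = sc φ₂ (φ₁ (MonoidAlgebra.single 1 r)) := rfl

theorem sc_comm (x : D₁) (g : G₂) :
    sc φ₂ x * φ₂ (MonoidAlgebra.single g 1) = φ₂ (MonoidAlgebra.single g 1) * sc φ₂ x := by
  rw [sc_apply, ← map_mul, ← map_mul, MonoidAlgebra.single_mul_single,
    MonoidAlgebra.single_mul_single, mul_one, one_mul, mul_one, one_mul]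

theorem prod_comm (r : R) (g : G₁ × G₂) :
    prodRo φ₁ φ₂ r * prodAl φ₁ φ₂ g = prodAl φ₁ φ₂ g * prodRo φ₁ φ₂ r := by
  rw [prodRo_apply, prodAl_apply, ← mul_assoc, sc_comm, mul_assoc, mul_assoc]
  congr 1
  rw [← map_mul, ← map_mul, ← map_mul, ← map_mul, MonoidAlgebra.single_mul_single,
    MonoidAlgebra.single_mul_single, mul_one, one_mul, mul_one, one_mul]

variable {φ₁ φ₂}

theorem prod_jf (h₁ : HughesFree R G₁ D₁ φ₁) (h₂ : HughesFree D₁ G₂ D₂ φ₂) (S₁ : ConradSys G₁)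
    (S₂ : ConradSys G₂) (k : G₁ × G₂) (i : (S₁.prod S₂).I) (n : ℕ) (a : Fin n → G₁ × G₂)
    (c : Fin n → D₂) (ha : ∀ l, a l ∈ (S₁.prod S₂).Le k i)
    (hd : Function.Injective (fun l => (S₁.prod S₂).deg k i (a l)))
    (hc : ∀ l, c l ∈ Subfield.closure (Set.range (prodRo φ₁ φ₂) ∪
      {x | ∃ b : G₁ × G₂, b ∈ (S₁.prod S₂).Lt k i ∧ prodAl φ₁ φ₂ b = x}))
    (hs : ∑ l, prodAl φ₁ φ₂ (a l) * c l = 0) : ∀ l, c l = 0 := by
  obtain ⟨j, rfl⟩ : ∃ j : S₁.I ⊕ S₂.I, toLex j = i := ⟨ofLex i, rfl⟩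
  have hne : ∀ g : G₁, sc φ₂ (φ₁ (MonoidAlgebra.single g 1)) ≠ 0 := fun g hg => by
    have h3 := (map_eq_zero (sc φ₂)).1 hg
    exact HFbAux.br_ne_zero φ₁ g h3
  rcases j with j | j
  · -- level in the first factor
    have ha' : ∀ l, (a l).2 = 1 ∧ (a l).1 ∈ S₁.Le k.1 j := fun l =>
      (ConradSys.mem_prod_Le_inl S₁ S₂ k (a l) j).1 (ha l)
    have hcl : ∀ l, ∃ c' : D₁, c' ∈ Subfield.closure
        (Set.range (fun r : R => φ₁ (MonoidAlgebra.single 1 r)) ∪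
          {x | ∃ b : G₁, b ∈ S₁.Lt k.1 j ∧ φ₁ (MonoidAlgebra.single b 1) = x}) ∧
        sc φ₂ c' = c l := by
      intro l
      have h3 : c l ∈ (Subfield.closure
        (Set.range (fun r : R => φ₁ (MonoidAlgebra.single 1 r)) ∪
          {x | ∃ b : G₁, b ∈ S₁.Lt k.1 j ∧ φ₁ (MonoidAlgebra.single b 1) = x})).map (sc φ₂) := by
        rw [RingHom.map_field_closure]
        refine Subfield.closure_mono ?_ (hc l)
        rintro x (⟨r, rfl⟩ | ⟨b, hb, rfl⟩)
        · exact ⟨_, Or.inl ⟨r, rfl⟩, rfl⟩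
        · obtain ⟨hb2, hb1⟩ := (ConradSys.mem_prod_Lt_inl S₁ S₂ k b j).1 hb
          refine ⟨_, Or.inr ⟨b.1, hb1, rfl⟩, ?_⟩
          rw [prodAl_apply, hb2, ← MonoidAlgebra.one_def, map_one, one_mul]
      obtain ⟨c', h4, h5⟩ := h3
      exact ⟨c', h4, h5⟩
    choose c' hc' hcc using hcl
    have h3 := jf_id S₁ h₁ k.1 j n (fun l => (a l).1) c' (fun l => (ha' l).2) hd hc' (by
      apply (sc φ₂).injective
      rw [map_sum, map_zero, ← hs]
      refine Finset.sum_congr rfl fun l _ => ?_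
      rw [map_mul, hcc, prodAl_apply, (ha' l).1, ← MonoidAlgebra.one_def, map_one, one_mul])
    intro l
    rw [← hcc, h3 l, map_zero]
  · -- level in the second factor
    have h3 := jf_id S₂ h₂ k.2 j n (fun l => (a l).2)
      (fun l => sc φ₂ (φ₁ (MonoidAlgebra.single (a l).1 1)) * c l)
      (fun l => (ConradSys.mem_prod_Le_inr S₁ S₂ k (a l) j).1 (ha l)) hd
      (fun l => by
        refine mul_mem (Subfield.subset_closure (Or.inl ⟨_, rfl⟩)) ?_
        refine (Subfield.closure_le.2 ?_ : _ ≤ _) (hc l)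
        rintro x (⟨r, rfl⟩ | ⟨b, hb, rfl⟩)
        · exact Subfield.subset_closure (Or.inl ⟨_, rfl⟩)
        · rw [prodAl_apply]
          exact mul_mem (Subfield.subset_closure
            (Or.inr ⟨b.2, (ConradSys.mem_prod_Lt_inr S₁ S₂ k b j).1 hb, rfl⟩))
            (Subfield.subset_closure (Or.inl ⟨_, rfl⟩)))
      (by
        rw [← hs]
        refine Finset.sum_congr rfl fun l _ => ?_
        rw [prodAl_apply, mul_assoc])
    intro l
    exact (mul_eq_zero.1 (h3 l)).resolve_left (hne _)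

/-- the family for the product group -/
noncomputable def tsetProd (h₁ : HughesFree R G₁ D₁ φ₁) (h₂ : HughesFree D₁ G₂ D₂ φ₂)
    (S₁ : ConradSys G₁) (S₂ : ConradSys G₂) :
    TSet.{u, w} (S₁.prod S₂) R (⊤ : Subgroup (G₁ × G₂)) Unit where
  D _ := D₂
  dr _ := inferInstance
  α _ := (prodAl φ₁ φ₂).comp (Subgroup.topEquiv (G := G₁ × G₂)).toMonoidHom
  ρ _ := prodRo φ₁ φ₂
  comm _ r a := prod_comm φ₁ φ₂ r (a : G₁ × G₂)
  jf _ k i n a c ha hd hc hs := by
    refine prod_jf h₁ h₂ S₁ S₂ k i n (fun l => (a l : G₁ × G₂)) c ha hd (fun l => ?_) hs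
    have h2 := hc l
    have h3 : (Set.range (prodRo φ₁ φ₂) ∪ {x | ∃ b : (⊤ : Subgroup (G₁ × G₂)),
        (b : G₁ × G₂) ∈ (S₁.prod S₂).Lt k i ∧
        (prodAl φ₁ φ₂).comp (Subgroup.topEquiv (G := G₁ × G₂)).toMonoidHom b = x}) ⊆
        (Set.range (prodRo φ₁ φ₂) ∪
          {x | ∃ b : G₁ × G₂, b ∈ (S₁.prod S₂).Lt k i ∧ prodAl φ₁ φ₂ b = x}) := by
      rintro y (hy | ⟨b, hb, hy⟩)
      · exact Or.inl hy
      · exact Or.inr ⟨(b : G₁ × G₂), hb, hy⟩
    exact Subfield.closure_mono h3 h2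

end

theorem hasHF_prod {R : Type u} [DivisionRing R] {G₁ G₂ : Type u} [Group G₁] [Group G₂]
    (hG₁ : LocIndic G₁) (hG₂ : LocIndic G₂) {D₁ : Type u} [DivisionRing D₁]
    {φ₁ : MonoidAlgebra R G₁ →+* D₁} (h₁ : HughesFree R G₁ D₁ φ₁) (h₂ : HasHF D₁ G₂) :
    HasHF R (G₁ × G₂) := by
  obtain ⟨S₁⟩ := exists_conradSys hG₁
  obtain ⟨S₂⟩ := exists_conradSys hG₂
  obtain ⟨D₂, _, φ₂, h₂⟩ := h₂
  exact hasHF_of_hughesFree (TSet.hughesFree_φE (tsetProd h₁ h₂ S₁ S₂))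

end Pool.Agent.HFT
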