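import Pool.Agent.HFT.PRb
import Pool.Agent.HFT.SubHF
import Pool.Agent.HFT.LMj

/-! # HFT/PRc: residual closure (helper49)

PROOF. `LocIndic.prod`: let `H ≤ G₁ × G₂` be finitely generated and nontrivial. If the image of `H` in `G₂` is not
trivial it is finitely generated, so maps onto `ℤ`, and `H` does. Otherwise `H ≤ G₁ × 1` and its image in `G₁` is not
trivial.
`allHF_prod`: `hasHF_prod` (with `D₁` from `HasHF R G₁`).
`exists_sep`: induction on the finite set `s` of pairs of different elements: for `∅` the trivial group `PUnit`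
(`hasHF_trivial`; it is locally indicable: no nontrivial subgroup); for `insert (x, y) s` take the product of the group for
`s` with a group `Q` for the element `x⁻¹ * y ≠ 1`, and `f.prod f'`.
`hasHF_of_residual`: `hasHF_of_limit` with `K = R`, `ρ = id`, `Q` and `σ` from `exists_sep` for the set of pairs of different
elements of `F` (`F.offDiag`). -/

set_option autoImplicit false

universe u

namespace Pool.Agent.HFT

private theorem fg_map' {G H : Type u} [Group G] [Group H] (j : H →* G) {K : Subgroup H}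
    (hK : K.FG) : (K.map j).FG := by
  classical
  obtain ⟨S, hS⟩ := hK
  refine ⟨S.image j, ?_⟩
  rw [← hS, MonoidHom.map_closure, Finset.coe_image]

private theorem via {G H : Type u} [Group G] [Group H] (hG : LocIndic G) (j : H →* G)
    {K : Subgroup H} (hK : K.FG) (hne : K.map j ≠ ⊥) :
    ∃ f : K →* Multiplicative ℤ, Function.Surjective f := by
  obtain ⟨f, hf⟩ := hG (K.map j) (fg_map' j hK) hne
  exact ⟨f.comp (j.subgroupMap K), hf.comp (j.subgroupMap_surjective K)⟩

theorem LocIndic.prod {G₁ G₂ : Type u} [Group G₁] [Group G₂] (h₁ : LocIndic G₁)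
    (h₂ : LocIndic G₂) : LocIndic (G₁ × G₂) := by
  intro H hH hne
  by_cases e1 : H.map (MonoidHom.fst G₁ G₂) = ⊥
  · by_cases e2 : H.map (MonoidHom.snd G₁ G₂) = ⊥
    · exfalso
      apply hne
      rw [eq_bot_iff]
      intro x hx
      have h3 : (MonoidHom.fst G₁ G₂) x ∈ H.map (MonoidHom.fst G₁ G₂) := ⟨x, hx, rfl⟩
      have h4 : (MonoidHom.snd G₁ G₂) x ∈ H.map (MonoidHom.snd G₁ G₂) := ⟨x, hx, rfl⟩
      rw [e1, Subgroup.mem_bot] at h3
      rw [e2, Subgroup.mem_bot] at h4
      rw [Subgroup.mem_bot]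
      exact Prod.ext h3 h4
    · exact via h₂ (MonoidHom.snd G₁ G₂) hH e2
  · exact via h₁ (MonoidHom.fst G₁ G₂) hH e1

/-- Hughes-free division rings exist over all division rings -/
def AllHF (G : Type u) [Group G] : Prop := ∀ (K : Type u) [DivisionRing K], HasHF K G

theorem allHF_prod {G₁ G₂ : Type u} [Group G₁] [Group G₂] (hG₁ : LocIndic G₁)
    (hG₂ : LocIndic G₂) (h₁ : AllHF G₁) (h₂ : AllHF G₂) : AllHF (G₁ × G₂) := by
  intro K _
  obtain ⟨D₁, _, φ₁, hφ₁⟩ := h₁ K
  exact hasHF_prod hG₁ hG₂ hφ₁ (h₂ D₁)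

theorem exists_sep {G : Type u} [Group G]
    (h : ∀ g : G, g ≠ 1 → ∃ (Q : Type u) (_ : Group Q) (f : G →* Q), LocIndic Q ∧ AllHF Q ∧ f g ≠ 1)
    (s : Finset (G × G)) (hs : ∀ p ∈ s, p.1 ≠ p.2) :
    ∃ (Q : Type u) (_ : Group Q) (f : G →* Q), LocIndic Q ∧ AllHF Q ∧ ∀ p ∈ s, f p.1 ≠ f p.2 := by
  classical
  induction s using Finset.induction_on with
  | empty =>
    refine ⟨PUnit, inferInstance, 1, ?_, ?_, ?_⟩
    · intro H _ hne
      exact absurd (Subsingleton.elim H ⊥) hne
    · intro K _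
      exact hasHF_trivial
    · intro p hp
      simp at hp
  | insert q s hq ih =>
    obtain ⟨Q, gQ, f, hQ, hA, hf⟩ := ih (fun p hp => hs p (Finset.mem_insert_of_mem hp))
    have h1 : q.1⁻¹ * q.2 ≠ 1 := by
      intro h2
      exact hs q (Finset.mem_insert_self q s) (inv_mul_eq_one.1 h2)
    obtain ⟨Q', gQ', f', hQ', hA', hf'⟩ := h _ h1
    refine ⟨Q × Q', inferInstance, f.prod f', hQ.prod hQ', allHF_prod hQ hQ' hA hA', ?_⟩
    intro p hp hcon
    rw [Finset.mem_insert] at hp
    rw [MonoidHom.prod_apply, MonoidHom.prod_apply, Prod.mk.injEq] at hcon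
    rcases hp with rfl | hp
    · apply hf'
      rw [map_mul, map_inv, hcon.2, inv_mul_cancel]
    · exact hf p hp hcon.1

theorem hasHF_of_residual {G : Type u} [Group G]
    (h : ∀ g : G, g ≠ 1 → ∃ (Q : Type u) (_ : Group Q) (f : G →* Q), LocIndic Q ∧ AllHF Q ∧ f g ≠ 1)
    (R : Type u) [DivisionRing R] : HasHF R G := by
  classical
  refine hasHF_of_limit fun E F => ?_
  obtain ⟨Q, gQ, f, hQ, hA, hf⟩ := exists_sep h F.offDiag (fun p hp => (Finset.mem_offDiag.1 hp).2.2)
  refine ⟨R, inferInstance, Q, gQ, id, f, hQ, hA R, rfl, fun x _ y _ => ⟨rfl, rfl⟩,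
    fun x _ y _ => map_mul f x y, ?_⟩
  intro x hx y hy hxy
  by_contra hne
  exact hf (x, y) (Finset.mem_offDiag.2 ⟨hx, hy, hne⟩) hxy

end Pool.Agent.HFT
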