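import Pool.Agent.HFT.FinHF

/-! # HFT/Part: parts of elements at a position (helper49)

Fix a level `j`. `Hi k l z`: at the position `k` the element `z` is zero or leads to a position
higher than `l` (at level at least `j`). `Ge k l z`: at `k` it is zero or does not lead to a position
lower than `l`. `Part k h x λ`: `λ` is the part of `x` at `k` in the class of `h`.

PROOF. `ltj_Ld` (monotonicity at level `j`): if `Ld x k h`, `Ld x k' h'`, `ltj j k k'` then `ltj j h h'`: by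
`mono` and `ltj_lt` `lt h h'`, so `ltj j h h'` or `eqj j h h'` (`ltj_or_eqj_of_lt`). In the second case
`x ≠ 0`, `Ld x⁻¹ h k`, `Ld x⁻¹ h' k'` (`Ld_inv'`: `Ld x⁻¹ h m` by `ex`, `mul` gives `Ld (x⁻¹ * x) k m`,
`x⁻¹ * x = 1 = ρ 1`, `m = k` by `uq`), so `eqj j k k'` by `coset`, against `not_ltj_of_eqj`.
`Hi_add`, `Ge_add`: if one summand is zero or the sum is zero, clear; otherwise `Ld (x + y) k l` for some `l`
(`ex`), and by `add` one of the two positions is `≤ l` (`lt_tri`, `lt_trans`; compare with the smaller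
one); `ltj_of_ltj_of_lt` for `Hi`; for `Ge`: if `ltj j l m` with `m` the bound, and `h ≤ l` then `ltj j h m`
(from `ltj_tri`, `ltj_of_ltj_of_lt` etc.).
`Hi_neg`, `Ge_neg`: `Ld_neg'`.
`mul_Hi_Ge`: `x` high over `l` at `h`, `y` at least `h` at `k`: `Ld y k h'` with not `ltj j h' h`, i.e. `eqj j h h'`
or `ltj j h h'` (`ltj_tri`); `Ld x h m` with `ltj j l m`; `Ld x h' m'` (`ex`) has `eqj j m m'` (`coset`) or
`ltj j m m'` (`ltj_Ld`), so `ltj j l m'`, and `Ld (x * y) k m'` by `mul`.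
`mul_Ge_Hi`: `Ld y k h'` with `ltj j h h'`, `Ld x h m` with not `ltj j m l`, `Ld x h' m'` with `ltj j m m'`; so
`ltj j l m'`. `Ge_of_eqj`: classes of the bound and of the position may be changed.
`Hom k h λ`: `λ = 0` or `λ = α a * δ` with `eqj j h (a k)`, `δ ∈ gen (Lt k j)`. `Hom_add`: for `α a * δ`,
`α a' * δ'` the element `a⁻¹ a'` is in `Lt k j` (`eqj j (a k) (a' k)`, `mem_Lt_of_eqj` after translation), so
the sum is `α a * (δ + α (a⁻¹a') * δ')`. `Hom_Ld`: a nonzero `λ` has `Ld λ k l` with `eqj j h l`: `supp` for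
`δ` gives `Ld δ k (b k)` with `b ∈ Lt k j`, so `eqj j k (b k)`, and `Ld (α a) (b k) (a b k)`.
`Hom_mul`: `λ = α a * δ` at `h` for the class `l`, `μ = α b * δ'` at `k` for the class `h`:
`λ * μ = α (a b) * ((α b⁻¹ * δ * α b) * δ')`; `δ ∈ gen (Lt h j)`, `Lt h j = Lt (b k) j` (`coset_Lt`, as
`eqj j h (b k)`), conjugation by `b` maps `gen (Lt (b k) j)` into `gen (Lt k j)` (generators: `Lt_conj`;
`Subfield.closure_induction`, conjugation is a ring automorphism; `comm` is needed for `ρ r`: it is the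
hypothesis `hc`); `eqj j l (a h)` and `eqj j h (b k)` give `eqj j l (a b k)` (`eqj_left`).
`Part_uq`: `λ - λ'` is `Hom` and `Hi k h`; if it is not zero, its position is in the class of `h` by `Hom_Ld` and
above it, a contradiction (`uq`, `not_ltj_of_eqj`).
`Part_mul`: `x = λ + x'`, `y = μ + y'`, `x y - λ μ = λ y' + x' y`; `Ge h l λ`, `Ge k h y` from `Hom_Ld`, `Hi`.
`Part_ex`: if `x = 0` take `0`. `Ld x k m`. If `ltj j h m` take `λ = 0`. If `eqj j h m` take `α a * δ` from `res`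
(`m = a k`; `Hi k h (x - α a * δ)` since `ltj j m l` and `eqj j h m`).
`Part_al`: right multiplication by `α b`, `Part (b k) h x λ → Part k h (x * α b) (λ * α b)`: `Part_mul` with
`Part k (b k) (α b) (α b)`. `Part_ro_low`, `Part_ro_high`: for `r ∈ R`: `Ld (ρ r) k k`. -/

set_option autoImplicit false

universe u w

namespace Pool.Agent.HFT

namespace LeadSys

variable {G : Type u} [Group G] {S : ConradSys G} {R : Type u} [DivisionRing R]
  {A : Subgroup G} {D : Type w} [DivisionRing D] {α : A →* D} {ρ : R →+* D}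
  (L : LeadSys S R A D α ρ) (j : S.I)

/-- at `k` the element `z` is zero or leads to a position higher than `l` -/
def Hi (k l : G) (z : D) : Prop := z = 0 ∨ ∃ m, L.Ld z k m ∧ S.ltj j l m

/-- at `k` the element `z` is zero or leads to a position not lower than `l` -/
def Ge (k l : G) (z : D) : Prop := z = 0 ∨ ∃ m, L.Ld z k m ∧ ¬ S.ltj j m l

/-- homogeneous elements at `k` in the class of `h` -/
def Hom (_L : LeadSys S R A D α ρ) (j : S.I) (k h : G) (z : D) : Prop :=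
  z = 0 ∨ ∃ a : A, S.eqj j h (a * k) ∧ ∃ δ ∈ gen α ρ (S.Lt k j), z = α a * δ

/-- `z` is the part of `x` at `k` in the class of `h` -/
def Part (k h : G) (x z : D) : Prop := L.Hom j k h z ∧ L.Hi j k h (x - z)

variable {L} {j}

theorem Ld_inv' {x : D} {k h : G} (h1 : L.Ld x k h) : L.Ld x⁻¹ h k := by
  have hx := L.ne h1
  obtain ⟨m, hm⟩ := L.ex x⁻¹ (inv_ne_zero hx) h
  have h2 := L.mul h1 hm
  rw [inv_mul_cancel₀ hx] at h2
  have h3 := L.ro (1 : R) k one_ne_zero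
  rw [map_one] at h3
  have h4 : m = k := L.uq h2 h3
  rw [h4] at hm
  exact hm

theorem ltj_Ld {x : D} {k h k' h' : G} (h1 : L.Ld x k h) (h2 : L.Ld x k' h')
    (hk : S.ltj j k k') : S.ltj j h h' := by
  rcases S.ltj_or_eqj_of_lt (j := j) (L.mono h1 h2 (S.ltj_lt hk)) with h3 | h3
  · exact h3
  · exact absurd hk (S.not_ltj_of_eqj (L.coset (Ld_inv' h1) (Ld_inv' h2) h3))

private theorem lt_ltj {m n l : G} (h1 : S.lt m n) (h2 : S.ltj j n l) : S.ltj j m l := by
  rcases S.ltj_tri j m l with h | h | h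
  · exact h
  · exact absurd (S.ltj_lt (S.ltj_of_ltj_of_eqj h2 (S.eqj_symm h))) (S.lt_asymm h1)
  · exact absurd (S.ltj_lt (S.ltj_trans h2 h)) (S.lt_asymm h1)

theorem Hi_zero (k l : G) : L.Hi j k l 0 := Or.inl rfl

theorem Ge_zero (k l : G) : L.Ge j k l 0 := Or.inl rfl

theorem Hi_Ge {k l : G} {z : D} (h : L.Hi j k l z) : L.Ge j k l z := by
  rcases h with h | ⟨m, hm, h⟩
  · exact Or.inl h
  · exact Or.inr ⟨m, hm, S.not_ltj_of_ltj h⟩

private theorem add_cases {k m m' n : G} {x y : D} (hm : L.Ld x k m) (hm' : L.Ld y k m')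
    (hn : L.Ld (x + y) k n) : (m = n ∨ S.lt m n) ∨ (m' = n ∨ S.lt m' n) := by
  have h1 := L.add hm hm' hn
  rcases S.lt_tri n m with h2 | h2 | h2
  · rcases S.lt_tri n m' with h4 | h4 | h4
    · exact absurd ⟨h2, h4⟩ h1
    · exact Or.inr (Or.inl h4.symm)
    · exact Or.inr (Or.inr h4)
  · exact Or.inl (Or.inl h2.symm)
  · exact Or.inl (Or.inr h2)

theorem Hi_add {k l : G} {x y : D} (hx : L.Hi j k l x) (hy : L.Hi j k l y) :
    L.Hi j k l (x + y) := by
  rcases hx with rfl | ⟨m, hm, hlm⟩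
  · rw [zero_add]; exact hy
  rcases hy with rfl | ⟨m', hm', hlm'⟩
  · rw [add_zero]; exact Or.inr ⟨m, hm, hlm⟩
  by_cases h0 : x + y = 0
  · exact Or.inl h0
  obtain ⟨n, hn⟩ := L.ex _ h0 k
  refine Or.inr ⟨n, hn, ?_⟩
  rcases add_cases hm hm' hn with (h1 | h1) | (h1 | h1)
  · rw [← h1]; exact hlm
  · exact S.ltj_of_ltj_of_lt hlm h1
  · rw [← h1]; exact hlm'
  · exact S.ltj_of_ltj_of_lt hlm' h1

theorem Ge_add {k l : G} {x y : D} (hx : L.Ge j k l x) (hy : L.Ge j k l y) :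
    L.Ge j k l (x + y) := by
  rcases hx with rfl | ⟨m, hm, hlm⟩
  · rw [zero_add]; exact hy
  rcases hy with rfl | ⟨m', hm', hlm'⟩
  · rw [add_zero]; exact Or.inr ⟨m, hm, hlm⟩
  by_cases h0 : x + y = 0
  · exact Or.inl h0
  obtain ⟨n, hn⟩ := L.ex _ h0 k
  refine Or.inr ⟨n, hn, ?_⟩
  rcases add_cases hm hm' hn with (h1 | h1) | (h1 | h1)
  · rw [← h1]; exact hlm
  · exact fun h => hlm (lt_ltj h1 h)
  · rw [← h1]; exact hlm'
  · exact fun h => hlm' (lt_ltj h1 h)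

theorem Hi_neg {k l : G} {x : D} (hx : L.Hi j k l x) : L.Hi j k l (-x) := by
  rcases hx with rfl | ⟨m, hm, h⟩
  · exact Or.inl neg_zero
  · exact Or.inr ⟨m, L.Ld_neg' hm, h⟩

theorem Ge_neg {k l : G} {x : D} (hx : L.Ge j k l x) : L.Ge j k l (-x) := by
  rcases hx with rfl | ⟨m, hm, h⟩
  · exact Or.inl neg_zero
  · exact Or.inr ⟨m, L.Ld_neg' hm, h⟩

theorem mul_Hi_Ge {k h l : G} {x y : D} (hx : L.Hi j h l x) (hy : L.Ge j k h y) :
    L.Hi j k l (x * y) := by
  rcases hx with rfl | ⟨m, hm, hlm⟩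
  · exact Or.inl (zero_mul _)
  rcases hy with rfl | ⟨h', hh', hn⟩
  · exact Or.inl (mul_zero _)
  obtain ⟨m', hm'⟩ := L.ex x (L.ne hm) h'
  refine Or.inr ⟨m', L.mul hh' hm', ?_⟩
  rcases S.ltj_tri j h h' with c | c | c
  · exact S.ltj_trans hlm (ltj_Ld hm hm' c)
  · exact S.ltj_of_ltj_of_eqj hlm (L.coset hm hm' c)
  · exact absurd c hn

theorem mul_Ge_Hi {k h l : G} {x y : D} (hx : L.Ge j h l x) (hy : L.Hi j k h y) :
    L.Hi j k l (x * y) := by
  rcases hx with rfl | ⟨m, hm, hlm⟩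
  · exact Or.inl (zero_mul _)
  rcases hy with rfl | ⟨h', hh', hn⟩
  · exact Or.inl (mul_zero _)
  obtain ⟨m', hm'⟩ := L.ex x (L.ne hm) h'
  refine Or.inr ⟨m', L.mul hh' hm', ?_⟩
  have h1 := ltj_Ld hm hm' hn
  rcases S.ltj_tri j m l with c | c | c
  · exact absurd c hlm
  · exact S.ltj_of_eqj_of_ltj (S.eqj_symm c) h1
  · exact S.ltj_trans c h1

theorem mul_Ge_Ge {k h l : G} {x y : D} (hx : L.Ge j h l x) (hy : L.Ge j k h y) :
    L.Ge j k l (x * y) := by
  rcases hx with rfl | ⟨m, hm, hlm⟩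
  · exact Or.inl (zero_mul _)
  rcases hy with rfl | ⟨h', hh', hn⟩
  · exact Or.inl (mul_zero _)
  obtain ⟨m', hm'⟩ := L.ex x (L.ne hm) h'
  refine Or.inr ⟨m', L.mul hh' hm', fun h0 => ?_⟩
  rcases S.ltj_tri j h h' with c | c | c
  · exact hlm (S.ltj_trans (ltj_Ld hm hm' c) h0)
  · exact hlm (S.ltj_of_eqj_of_ltj (L.coset hm hm' c) h0)
  · exact hn c

theorem Hom_add {k h : G} {x y : D} (hx : L.Hom j k h x) (hy : L.Hom j k h y) :
    L.Hom j k h (x + y) := by
  rcases hx with rfl | ⟨a, ha, δ, hδ, rfl⟩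
  · rw [zero_add]; exact hy
  rcases hy with rfl | ⟨a', ha', δ', hδ', rfl⟩
  · rw [add_zero]; exact Or.inr ⟨a, ha, δ, hδ, rfl⟩
  refine Or.inr ⟨a, ha, δ + α (a⁻¹ * a') * δ', ?_, ?_⟩
  · refine add_mem hδ (mul_mem (Subfield.subset_closure (Or.inr ⟨a⁻¹ * a', ?_, rfl⟩)) hδ')
    apply S.mem_Lt_of_eqj
    have h1 := S.eqj_left ((a : G)⁻¹) (S.eqj_trans (S.eqj_symm ha) ha')
    have e1 : (a : G)⁻¹ * ((a : G) * k) = k := by group
    have e2 : (a : G)⁻¹ * ((a' : G) * k) = ((a⁻¹ * a' : A) : G) * k := by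
      push_cast
      group
    rwa [e1, e2] at h1
  · rw [mul_add, ← mul_assoc, ← map_mul, mul_inv_cancel_left]

theorem Hom_neg {k h : G} {x : D} (hx : L.Hom j k h x) : L.Hom j k h (-x) := by
  rcases hx with rfl | ⟨a, ha, δ, hδ, rfl⟩
  · exact Or.inl neg_zero
  · exact Or.inr ⟨a, ha, -δ, neg_mem hδ, (mul_neg _ _).symm⟩

theorem Hom_Ld {k h l : G} {x : D} (hx : L.Hom j k h x) (h1 : L.Ld x k l) : S.eqj j h l := by
  rcases hx with rfl | ⟨a, ha, δ, hδ, rfl⟩
  · exact absurd rfl (L.ne h1)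
  · have hδ0 : δ ≠ 0 := by
      intro h0
      exact L.ne h1 (by rw [h0, mul_zero])
    obtain ⟨m, hm⟩ := L.ex δ hδ0 k
    obtain ⟨b, hb, rfl⟩ := L.supp hδ hm
    have h2 := L.uq h1 (L.mul hm (L.al a _))
    rw [h2]
    exact S.eqj_trans ha (S.eqj_left (a : G) (S.eqj_of_mem_Lt hb))

theorem Hom_Ge {k h : G} {x : D} (hx : L.Hom j k h x) : L.Ge j k h x := by
  by_cases h0 : x = 0
  · exact Or.inl h0
  · obtain ⟨l, hl⟩ := L.ex x h0 k
    exact Or.inr ⟨l, hl, S.not_ltj_of_eqj (S.eqj_symm (Hom_Ld hx hl))⟩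

private theorem conj_gen (hc : ∀ r a, ρ r * α a = α a * ρ r) {k : G} (b : A) {δ : D}
    (hδ : δ ∈ gen α ρ (S.Lt ((b : G) * k) j)) :
    α b⁻¹ * δ * α b ∈ gen α ρ (S.Lt k j) := by
  have hb1 : α b⁻¹ * α b = 1 := by rw [← map_mul, inv_mul_cancel, map_one]
  have hb2 : α b * α b⁻¹ = 1 := by rw [← map_mul, mul_inv_cancel, map_one]
  unfold gen at hδ
  induction hδ using Subfield.closure_induction with
  | mem x hx =>
    rcases hx with ⟨r, rfl⟩ | ⟨c, hc1, rfl⟩
    · have e : α b⁻¹ * ρ r * α b = ρ r := by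
        rw [← hc, mul_assoc, hb1, mul_one]
      rw [e]
      exact Subfield.subset_closure (Or.inl ⟨r, rfl⟩)
    · rw [← map_mul, ← map_mul]
      refine Subfield.subset_closure (Or.inr ⟨b⁻¹ * c * b, ?_, rfl⟩)
      have h1 := (S.Lt_conj (k := k) (g := (c : G)) (b := (b : G)⁻¹) (i := j)).1
        (by rw [inv_inv]; exact hc1)
      rw [inv_inv] at h1
      push_cast
      exact h1
  | one =>
    rw [mul_one, hb1]
    exact one_mem _
  | add x y _ _ hx hy =>
    have e : α b⁻¹ * (x + y) * α b = α b⁻¹ * x * α b + α b⁻¹ * y * α b := by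
      rw [mul_add, add_mul]
    rw [e]
    exact add_mem hx hy
  | neg x _ hx =>
    have e : α b⁻¹ * (-x) * α b = -(α b⁻¹ * x * α b) := by
      rw [mul_neg, neg_mul]
    rw [e]
    exact neg_mem hx
  | inv x _ hx =>
    have h1 : (α b)⁻¹ = α b⁻¹ := inv_eq_of_mul_eq_one_left hb1
    have h2 : (α b⁻¹)⁻¹ = α b := inv_eq_of_mul_eq_one_left hb2
    have e : α b⁻¹ * x⁻¹ * α b = (α b⁻¹ * x * α b)⁻¹ := by
      rw [mul_inv_rev, mul_inv_rev, h1, h2, mul_assoc]
    rw [e]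
    exact inv_mem hx
  | mul x y _ _ hx hy =>
    have e : α b⁻¹ * (x * y) * α b = (α b⁻¹ * x * α b) * (α b⁻¹ * y * α b) := by
      have e1 : (α b⁻¹ * x * α b) * (α b⁻¹ * y * α b)
          = α b⁻¹ * x * (α b * α b⁻¹) * y * α b := by noncomm_ring
      rw [e1, hb2]
      noncomm_ring
    rw [e]
    exact mul_mem hx hy

theorem Hom_mul (hc : ∀ r a, ρ r * α a = α a * ρ r) {k h l : G} {x y : D} (hx : L.Hom j h l x)
    (hy : L.Hom j k h y) : L.Hom j k l (x * y) := by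
  rcases hx with rfl | ⟨a, ha, δ, hδ, rfl⟩
  · exact Or.inl (zero_mul _)
  rcases hy with rfl | ⟨b, hb, δ', hδ', rfl⟩
  · exact Or.inl (mul_zero _)
  have hb2 : α b * α b⁻¹ = 1 := by rw [← map_mul, mul_inv_cancel, map_one]
  have hLt : S.Lt ((b : G) * k) j = S.Lt h j := S.coset_Lt (le_of_lt hb)
  have hδ2 : δ ∈ gen α ρ (S.Lt ((b : G) * k) j) := by rw [hLt]; exact hδ
  refine Or.inr ⟨a * b, ?_, (α b⁻¹ * δ * α b) * δ', mul_mem (conj_gen hc b hδ2) hδ', ?_⟩
  · have h1 := S.eqj_left (a : G) hb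
    have e : ((a * b : A) : G) * k = (a : G) * ((b : G) * k) := by
      push_cast
      group
    rw [e]
    exact S.eqj_trans ha h1
  · have e1 : α (a * b) * (α b⁻¹ * δ * α b * δ') = α a * ((α b * α b⁻¹) * (δ * (α b * δ'))) := by
      rw [map_mul]
      noncomm_ring
    rw [e1, hb2, one_mul, mul_assoc]

theorem Part_zero (k h : G) : L.Part j k h 0 0 := by
  refine ⟨Or.inl rfl, ?_⟩
  rw [sub_zero]
  exact Hi_zero k h

theorem Part_add {k h : G} {x y z w : D} (hx : L.Part j k h x z) (hy : L.Part j k h y w) :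
    L.Part j k h (x + y) (z + w) := by
  refine ⟨Hom_add hx.1 hy.1, ?_⟩
  have e : x + y - (z + w) = (x - z) + (y - w) := by abel
  rw [e]
  exact Hi_add hx.2 hy.2

theorem Part_neg {k h : G} {x z : D} (hx : L.Part j k h x z) : L.Part j k h (-x) (-z) := by
  refine ⟨Hom_neg hx.1, ?_⟩
  have e : -x - -z = -(x - z) := by abel
  rw [e]
  exact Hi_neg hx.2

theorem Part_sum {κ : Type*} {k h : G} (s : Finset κ) (x z : κ → D)
    (hx : ∀ i ∈ s, L.Part j k h (x i) (z i)) :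
    L.Part j k h (∑ i ∈ s, x i) (∑ i ∈ s, z i) := by
  classical
  induction s using Finset.induction_on with
  | empty =>
    rw [Finset.sum_empty, Finset.sum_empty]
    exact Part_zero k h
  | insert a s ha ih =>
    rw [Finset.sum_insert ha, Finset.sum_insert ha]
    exact Part_add (hx a (Finset.mem_insert_self a s))
      (ih fun i hi => hx i (Finset.mem_insert_of_mem hi))

theorem Part_uq {k h : G} {x z z' : D} (h1 : L.Part j k h x z) (h2 : L.Part j k h x z') :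
    z = z' := by
  have e1 : z - z' = z + -z' := sub_eq_add_neg z z'
  have e2 : z - z' = (x - z') + -(x - z) := by abel
  have h3 : L.Hom j k h (z - z') := by
    rw [e1]
    exact Hom_add h1.1 (Hom_neg h2.1)
  have h4 : L.Hi j k h (z - z') := by
    rw [e2]
    exact Hi_add h2.2 (Hi_neg h1.2)
  rcases h4 with h4 | ⟨m, hm, h4⟩
  · exact sub_eq_zero.1 h4
  · exact absurd h4 (S.not_ltj_of_eqj (Hom_Ld h3 hm))

theorem Part_Ge {k h : G} {x z : D} (h1 : L.Part j k h x z) : L.Ge j k h x := by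
  have e : x = z + (x - z) := by abel
  rw [e]
  exact Ge_add (Hom_Ge h1.1) (Hi_Ge h1.2)

theorem Part_mul (hc : ∀ r a, ρ r * α a = α a * ρ r) {k h l : G} {x y z w : D}
    (hx : L.Part j h l x z) (hy : L.Part j k h y w) : L.Part j k l (x * y) (z * w) := by
  refine ⟨Hom_mul hc hx.1 hy.1, ?_⟩
  have e : x * y - z * w = z * (y - w) + (x - z) * y := by
    rw [mul_sub, sub_mul]
    abel
  rw [e]
  exact Hi_add (mul_Ge_Hi (Hom_Ge hx.1) hy.2) (mul_Hi_Ge hx.2 (Part_Ge hy))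

theorem Part_ex {k h : G} {x : D} (hx : L.Ge j k h x) : ∃ z, L.Part j k h x z := by
  rcases hx with rfl | ⟨m, hm, h1⟩
  · exact ⟨0, Part_zero k h⟩
  rcases S.ltj_tri j h m with c | c | c
  · refine ⟨0, Or.inl rfl, ?_⟩
    rw [sub_zero]
    exact Or.inr ⟨m, hm, c⟩
  · obtain ⟨a, rfl, δ, hδ, h2⟩ := L.res hm j
    refine ⟨α a * δ, Or.inr ⟨a, c, δ, hδ, rfl⟩, ?_⟩
    rcases h2 with h2 | ⟨l, hl, h2⟩
    · exact Or.inl (sub_eq_zero.2 h2)
    · exact Or.inr ⟨l, hl, S.ltj_of_eqj_of_ltj c h2⟩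
  · exact absurd c h1

private theorem Part_of_Hom {k h : G} {x : D} (hx : L.Hom j k h x) : L.Part j k h x x := by
  refine ⟨hx, ?_⟩
  rw [sub_self]
  exact Hi_zero k h

theorem Part_one (k : G) : L.Part j k k 1 1 := by
  refine Part_of_Hom (Or.inr ⟨1, ?_, 1, one_mem _, ?_⟩)
  · rw [OneMemClass.coe_one, one_mul]
    exact S.eqj_refl j k
  · rw [map_one, one_mul]

theorem Part_al (hc : ∀ r a, ρ r * α a = α a * ρ r) {k h : G} {x z : D} (b : A)
    (hx : L.Part j (b * k) h x z) : L.Part j k h (x * α b) (z * α b) := by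
  refine Part_mul hc hx (Part_of_Hom (Or.inr ⟨b, S.eqj_refl j _, 1, one_mem _, ?_⟩))
  rw [mul_one]

theorem Part_ro_low {k h : G} (r : R) (hk : S.eqj j h k) : L.Part j k h (ρ r) (ρ r) := by
  refine Part_of_Hom (Or.inr ⟨1, ?_, ρ r, Subfield.subset_closure (Or.inl ⟨r, rfl⟩), ?_⟩)
  · rw [OneMemClass.coe_one, one_mul]
    exact hk
  · rw [map_one, one_mul]

theorem Part_ro_high {k h : G} (r : R) (hk : S.ltj j h k) : L.Part j k h (ρ r) 0 := by
  refine ⟨Or.inl rfl, ?_⟩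
  rw [sub_zero]
  by_cases h0 : r = 0
  · rw [h0, map_zero]
    exact Hi_zero k h
  · exact Or.inr ⟨k, L.ro r k h0, hk⟩

end LeadSys

end Pool.Agent.HFT
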