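import Mathlib

/-! # HFT/RK: rank functions on additive categories and calculus of fractions (helper49)

Definitions only. `W` is the class of the morphisms `f : X ⟶ Y` with `ρ (coker f) = 0` and
`ρ X = ρ Y`. -/

set_option autoImplicit false

universe v u v' u'

open CategoryTheory CategoryTheory.Limits

namespace Pool.Agent.HFT

/-- a rank function on an additive category with cokernels -/
structure RankFn (C : Type u) [Category.{v} C] [Preadditive C] [HasCokernels C]
    [HasBinaryBiproducts C] where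
  ρ : C → ℕ
  iso : ∀ {X Y : C}, (X ≅ Y) → ρ X = ρ Y
  sub : ∀ {X Y : C} (f : X ⟶ Y), ρ Y ≤ ρ X + ρ (cokernel f)
  quo : ∀ {X Y : C} (f : X ⟶ Y), ρ (cokernel f) ≤ ρ Y
  add : ∀ X Y : C, ρ (X ⊞ Y) = ρ X + ρ Y
  zero : ∀ {X : C}, IsZero X → ρ X = 0

namespace RankFn

variable {C : Type u} [Category.{v} C] [Preadditive C] [HasCokernels C]
    [HasBinaryBiproducts C] (r : RankFn C)

/-- the morphisms inverted -/
def W : MorphismProperty C := fun X Y f => r.ρ (cokernel f) = 0 ∧ r.ρ X = r.ρ Y

theorem W_iff {X Y : C} (f : X ⟶ Y) : r.W f ↔ r.ρ (cokernel f) = 0 ∧ r.ρ X = r.ρ Y := Iff.rfl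

end RankFn

end Pool.Agent.HFT
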