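import Pool.Agent.HFT.RK

/-! # HFT/RKa: left calculus of fractions (helper49)

PROOF. `epi_le`: if `q : Y ⟶ Z` is an epimorphism, its cokernel is zero, so `ρ Z ≤ ρ Y` by `sub` (with
`ρ (cokernel q) = 0`).
`epi_W`: an epimorphism `q : Y ⟶ Z` with `ρ Y = ρ Z` is in `W`.
`coker_comp`: for `f : X ⟶ Y`, `g : Y ⟶ Z` there is the morphism `c : coker f ⟶ coker (f ≫ g)` induced by
`g`, and `coker c ≅ coker g` (universal property); so `ρ (coker (f ≫ g)) ≤ ρ (coker f) + ρ (coker g)` by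
`sub`, and `coker (f ≫ g) ⟶ coker g` is an epimorphism, so `ρ (coker g) ≤ ρ (coker (f ≫ g))`.
Identities: `coker (𝟙 X)` is zero. Composition: `coker_comp`.
Left fractions: let `s : X ⟶ X'` in `W` and `f : X ⟶ Y`. Let `d : X ⟶ X' ⊞ Y` be
`biprod.lift s (-f)` and `Y' := coker d`, `s' : Y ⟶ Y'` and `f' : X' ⟶ Y'` the compositions of `inr`, `inl`
with the projection; `s ≫ f' = f ≫ s'` as the difference is `d ≫ projection`. `coker s' ≅ coker s` (both
represent the morphisms from `X'` vanishing on `s`); so `ρ (coker s') = 0` and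
`ρ Y' ≤ ρ Y` (`sub`). By `sub` for `d`: `ρ X' + ρ Y = ρ (X' ⊞ Y) ≤ ρ X + ρ Y'`, so `ρ Y ≤ ρ Y'`. Hence
`s' ∈ W`.
`ext`: `s ≫ f₁ = s ≫ f₂`, `h₀ := f₁ - f₂ : X ⟶ Y`, `s ≫ h₀ = 0`, so `h₀ = π ≫ h` with
`π : X ⟶ coker s`, `h : coker s ⟶ Y`. Let `t : Y ⟶ coker h =: Y'` be the projection (an epimorphism):
`ρ Y ≤ ρ (coker s) + ρ Y' = ρ Y'` (`sub` for `h`) and `ρ Y' ≤ ρ Y` (`quo`), so `t ∈ W` by `epi_W`;
`(f₁ - f₂) ≫ t = π ≫ h ≫ t = 0`. -/

set_option autoImplicit false

universe v u v' u'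

open CategoryTheory CategoryTheory.Limits

namespace Pool.Agent.HFT

namespace RankFn

variable {C : Type u} [Category.{v} C] [Preadditive C] [HasCokernels C]
    [HasBinaryBiproducts C] (r : RankFn C)

theorem epi_le {Y Z : C} (q : Y ⟶ Z) [Epi q] : r.ρ Z ≤ r.ρ Y := by
  have h1 : cokernel.π q = 0 := by
    rw [← cancel_epi q, cokernel.condition, comp_zero]
  have h2 : IsZero (cokernel q) := by
    rw [IsZero.iff_id_eq_zero, ← cancel_epi (cokernel.π q), h1, zero_comp, zero_comp]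
  have h3 := r.sub q
  rw [r.zero h2] at h3
  exact h3

theorem epi_W {Y Z : C} (q : Y ⟶ Z) [Epi q] (h : r.ρ Y = r.ρ Z) : r.W q := by
  refine ⟨?_, h⟩
  have h1 : cokernel.π q = 0 := by
    rw [← cancel_epi q, cokernel.condition, comp_zero]
  have h2 : IsZero (cokernel q) := by
    rw [IsZero.iff_id_eq_zero, ← cancel_epi (cokernel.π q), h1, zero_comp, zero_comp]
  exact r.zero h2

theorem coker_comp {X Y Z : C} (f : X ⟶ Y) (g : Y ⟶ Z) :
    r.ρ (cokernel (f ≫ g)) ≤ r.ρ (cokernel f) + r.ρ (cokernel g) := by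
  obtain ⟨c, hc⟩ : ∃ c : cokernel f ⟶ cokernel (f ≫ g),
      cokernel.π f ≫ c = g ≫ cokernel.π (f ≫ g) :=
    ⟨cokernel.desc f (g ≫ cokernel.π (f ≫ g)) (by
      rw [← Category.assoc, cokernel.condition]), cokernel.π_desc _ _ _⟩
  have h1 := r.sub c
  have h2 : g ≫ cokernel.π (f ≫ g) ≫ cokernel.π c = 0 := by
    rw [← Category.assoc, ← hc, Category.assoc, cokernel.condition, comp_zero]
  have h3 : cokernel.π g ≫ cokernel.desc g (cokernel.π (f ≫ g) ≫ cokernel.π c) h2 =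
      cokernel.π (f ≫ g) ≫ cokernel.π c := cokernel.π_desc _ _ _
  have h4 : Epi (cokernel.desc g (cokernel.π (f ≫ g) ≫ cokernel.π c) h2) := epi_of_epi_fac h3
  have h5 := epi_le r (cokernel.desc g (cokernel.π (f ≫ g) ≫ cokernel.π c) h2)
  omega

theorem coker_comp_le {X Y Z : C} (f : X ⟶ Y) (g : Y ⟶ Z) :
    r.ρ (cokernel g) ≤ r.ρ (cokernel (f ≫ g)) := by
  have h2 : (f ≫ g) ≫ cokernel.π g = 0 := by
    rw [Category.assoc, cokernel.condition, comp_zero]
  have h3 : cokernel.π (f ≫ g) ≫ cokernel.desc (f ≫ g) (cokernel.π g) h2 = cokernel.π g :=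
    cokernel.π_desc _ _ _
  have h4 : Epi (cokernel.desc (f ≫ g) (cokernel.π g) h2) := epi_of_epi_fac h3
  exact epi_le r (cokernel.desc (f ≫ g) (cokernel.π g) h2)

private theorem left_aux {X' X Y : C} (s : X' ⟶ X) (f : X' ⟶ Y) (hs : r.W s) :
    ∃ (Y' : C) (g : X ⟶ Y') (t : Y ⟶ Y'), r.W t ∧ f ≫ t = s ≫ g := by
  obtain ⟨d, hd⟩ : ∃ d : X' ⟶ X ⊞ Y, d = biprod.lift s (-f) := ⟨_, rfl⟩
  have h1 : s ≫ biprod.inl ≫ cokernel.π d = f ≫ biprod.inr ≫ cokernel.π d := by
    have h2 := cokernel.condition d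
    have h3 : d = s ≫ biprod.inl + (-f) ≫ biprod.inr := by rw [hd, biprod.lift_eq]
    have h4 : d ≫ cokernel.π d = (s ≫ biprod.inl + (-f) ≫ biprod.inr) ≫ cokernel.π d :=
      congrArg (fun x => x ≫ cokernel.π d) h3
    rw [h2] at h4
    simp only [Preadditive.add_comp, Preadditive.neg_comp, Category.assoc] at h4
    exact add_neg_eq_zero.1 h4.symm
  have h3 : s ≫ biprod.inl ≫ cokernel.π d ≫ cokernel.π (biprod.inr ≫ cokernel.π d) = 0 := by
    have h4 := congrArg (fun x => x ≫ cokernel.π (biprod.inr ≫ cokernel.π d)) h1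
    simp only [Category.assoc] at h4
    rw [h4]
    have h5 := cokernel.condition (biprod.inr ≫ cokernel.π d)
    rw [Category.assoc] at h5
    rw [h5, comp_zero]
  have h4 : Epi (biprod.inl ≫ cokernel.π d ≫ cokernel.π (biprod.inr ≫ cokernel.π d)) := by
    constructor
    intro T u v huv
    rw [← cancel_epi (cokernel.π (biprod.inr ≫ cokernel.π d)), ← cancel_epi (cokernel.π d)]
    apply biprod.hom_ext'
    · simpa only [Category.assoc] using huv
    · have h5 := cokernel.condition (biprod.inr ≫ cokernel.π d)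
      have h6 : ∀ w, biprod.inr ≫ cokernel.π d ≫ cokernel.π (biprod.inr ≫ cokernel.π d) ≫ w =
          (0 : Y ⟶ T) := by
        intro w
        have h7 := congrArg (fun x => x ≫ w) h5
        simpa only [Category.assoc, zero_comp] using h7
      rw [h6, h6]
  have h5 : cokernel.π s ≫ cokernel.desc s _ h3 =
      biprod.inl ≫ cokernel.π d ≫ cokernel.π (biprod.inr ≫ cokernel.π d) :=
    cokernel.π_desc _ _ _
  have h6 : Epi (cokernel.desc s _ h3) := epi_of_epi_fac h5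
  have h7 := epi_le r (cokernel.desc s _ h3)
  have h8 := r.sub (biprod.inr ≫ cokernel.π d)
  have h9 := r.sub d
  have h10 := r.add X Y
  rw [W_iff] at hs
  refine ⟨cokernel d, biprod.inl ≫ cokernel.π d, biprod.inr ≫ cokernel.π d, ⟨by omega, by omega⟩,
    h1.symm⟩

instance hasLeft : r.W.HasLeftCalculusOfFractions where
  id_mem X := epi_W r (𝟙 X) rfl
  comp_mem f g hf hg := by
    rw [W_iff] at hf hg ⊢
    have h1 := coker_comp r f g
    exact ⟨by omega, by omega⟩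
  exists_leftFraction X Y φ := by
    obtain ⟨Y', g, t, ht, h⟩ := left_aux r φ.s φ.f φ.hs
    exact ⟨⟨g, t, ht⟩, h⟩
  ext X' X Y f₁ f₂ s hs h := by
    rw [W_iff] at hs
    have h1 : s ≫ (f₁ - f₂) = 0 := by
      rw [Preadditive.comp_sub, h, sub_self]
    obtain ⟨k, hk⟩ : ∃ k : cokernel s ⟶ Y, cokernel.π s ≫ k = f₁ - f₂ :=
      ⟨cokernel.desc s (f₁ - f₂) h1, cokernel.π_desc _ _ _⟩
    have h2 := r.sub k
    have h3 := r.quo k
    refine ⟨cokernel k, cokernel.π k, epi_W r _ (by omega), ?_⟩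
    rw [← sub_eq_zero, ← Preadditive.sub_comp, ← hk, Category.assoc, cokernel.condition, comp_zero]

end RankFn

end Pool.Agent.HFT
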