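import Pool.Agent.HFT.SpDef

/-! # HFT/SpLim: cokernels and biproducts of trees of vector spaces (helper49)

PROOF. `K.quo` with `K.proj` is a cokernel of `a` for `K = SpSub.range a`: `a ≫ K.proj = 0`, and a morphism
`b : Y ⟶ Z` with `a ≫ b = 0` factors uniquely through `K.proj` by `SpSub.desc` (`hom_ext`, `mkQ` is
surjective). So `HasCokernels` (`HasColimit` from `CokernelCofork.IsColimit`), and the comparison
isomorphism `cokernelIsoQuo` (`IsColimit.coconePointUniqueUpToIso`).
Biproducts: the object with components `X.V ν × Y.V ν`, `X.C × Y.C`, `f (x, y) = (X.f x, Y.f y)`,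
`g (x, y) = (X.g x, Y.g y)` with the obvious injections and projections is a binary biproduct
(`BinaryBiproductData` / `HasBinaryBiproduct.mk`, `Preadditive`: `isBinaryBilimitOfTotal` or
`BinaryBicone.isBilimitOfTotal`). `biprodIso` compares it with `X ⊞ Y`. -/

set_option autoImplicit false

universe u

open CategoryTheory CategoryTheory.Limits

namespace Pool.Agent.HFT

variable {𝒮 : SpData.{u}}

theorem SpObj.comp_proj {X Y : SpObj 𝒮} (a : X ⟶ Y) : a ≫ (SpSub.range a).proj = 0 := by
  refine SpObj.hom_ext (fun ν x => ?_) (fun x => ?_)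
  · exact (Submodule.Quotient.mk_eq_zero _).2 ⟨x, rfl⟩
  · exact (Submodule.Quotient.mk_eq_zero _).2 ⟨x, rfl⟩

/-- the quotient by the range is a cokernel -/
noncomputable def SpObj.isCokernel {X Y : SpObj 𝒮} (a : X ⟶ Y) :
    IsColimit (CokernelCofork.ofπ (SpSub.range a).proj (SpObj.comp_proj a)) :=
  CokernelCofork.IsColimit.ofπ _ _
    (fun b hb => (SpSub.range a).desc b
      (by
        rintro ν _ ⟨x, rfl⟩
        exact congrArg (fun h => SpObj.v h ν x) hb)
      (by
        rintro _ ⟨x, rfl⟩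
        exact congrArg (fun h => SpObj.c h x) hb))
    (fun b hb => SpObj.hom_ext (fun ν x => rfl) (fun x => rfl))
    (fun b hb m hm => by
      refine SpObj.hom_ext (fun ν x => ?_) (fun x => ?_)
      · obtain ⟨y, rfl⟩ := Submodule.mkQ_surjective _ x
        exact congrArg (fun h => SpObj.v h ν y) hm
      · obtain ⟨y, rfl⟩ := Submodule.mkQ_surjective _ x
        exact congrArg (fun h => SpObj.c h y) hm)

instance SpObj.hasCokernels : HasCokernels (SpObj 𝒮) :=
  ⟨fun {_ _} a => ⟨⟨⟨_, SpObj.isCokernel a⟩⟩⟩⟩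

theorem SpObj.cokernelIsoQuo {X Y : SpObj 𝒮} (a : X ⟶ Y) :
    Nonempty (cokernel a ≅ (SpSub.range a).quo) :=
  ⟨IsColimit.coconePointUniqueUpToIso (colimit.isColimit _) (SpObj.isCokernel a)⟩

/-- the direct sum -/
def SpObj.prod (X Y : SpObj 𝒮) : SpObj 𝒮 where
  V ν := X.V ν × Y.V ν
  C := X.C × Y.C
  f := { toFun := fun p => (X.f p.1, Y.f p.2)
         map_add' := fun p q => by simp
         map_smul' := fun c p => by simp }
  g := { toFun := fun p => (X.g p.1, Y.g p.2)
         map_add' := fun p q => by simp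
         map_smul' := fun c p => by simp }

/-- the bicone of the direct sum -/
def SpObj.bicone (X Y : SpObj 𝒮) : BinaryBicone X Y where
  pt := X.prod Y
  fst := SpObj.mkHom (X := X.prod Y) (fun ν => LinearMap.fst _ _ _) (LinearMap.fst _ _ _)
    (fun _ => rfl) (fun _ => rfl)
  snd := SpObj.mkHom (X := X.prod Y) (fun ν => LinearMap.snd _ _ _) (LinearMap.snd _ _ _)
    (fun _ => rfl) (fun _ => rfl)
  inl := SpObj.mkHom (Y := X.prod Y) (fun ν => LinearMap.inl _ _ _) (LinearMap.inl _ _ _)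
    (fun x => Prod.ext rfl (map_zero Y.f).symm) (fun x => Prod.ext rfl (map_zero Y.g).symm)
  inr := SpObj.mkHom (Y := X.prod Y) (fun ν => LinearMap.inr _ _ _) (LinearMap.inr _ _ _)
    (fun x => Prod.ext (map_zero X.f).symm rfl) (fun x => Prod.ext (map_zero X.g).symm rfl)
  inl_fst := SpObj.hom_ext (fun ν x => rfl) (fun x => rfl)
  inl_snd := SpObj.hom_ext (fun ν x => rfl) (fun x => rfl)
  inr_fst := SpObj.hom_ext (fun ν x => rfl) (fun x => rfl)
  inr_snd := SpObj.hom_ext (fun ν x => rfl) (fun x => rfl)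

/-- the direct sum is a biproduct -/
noncomputable def SpObj.isBilimit (X Y : SpObj 𝒮) : (SpObj.bicone X Y).IsBilimit :=
  isBinaryBilimitOfTotal _ (by
    refine SpObj.hom_ext (fun ν x => ?_) (fun x => ?_)
    · exact Prod.ext (add_zero x.1) (zero_add x.2)
    · exact Prod.ext (add_zero x.1) (zero_add x.2))

instance SpObj.hasBinaryBiproducts : HasBinaryBiproducts (SpObj 𝒮) :=
  ⟨fun X Y => HasBinaryBiproduct.mk ⟨SpObj.bicone X Y, SpObj.isBilimit X Y⟩⟩

theorem SpObj.biprodIsoProd (X Y : SpObj 𝒮) : Nonempty (X ⊞ Y ≅ X.prod Y) :=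
  ⟨(biprod.uniqueUpToIso X Y (SpObj.isBilimit X Y)).symm⟩

/-- an object is a zero object iff all its components are zero -/
theorem SpObj.isZero_iff (X : SpObj 𝒮) :
    IsZero X ↔ (∀ ν, ∀ x : X.V ν, x = 0) ∧ ∀ x : X.C, x = 0 := by
  rw [IsZero.iff_id_eq_zero]
  constructor
  · intro h
    exact ⟨fun ν x => congrArg (fun h => SpObj.v h ν x) h, fun x => congrArg (fun h => SpObj.c h x) h⟩
  · rintro ⟨h1, h2⟩
    exact SpObj.hom_ext (fun ν x => h1 ν x) (fun x => h2 x)

/-- components of isomorphisms are bijective -/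
theorem SpObj.iso_bijective {X Y : SpObj 𝒮} (e : X ≅ Y) :
    (∀ ν, Function.Bijective (SpObj.v e.hom ν)) ∧ Function.Bijective (SpObj.c e.hom) := by
  refine ⟨fun ν => ?_, ?_⟩
  · refine Function.bijective_iff_has_inverse.2 ⟨SpObj.v e.inv ν, fun x => ?_, fun x => ?_⟩
    · exact congrArg (fun h => SpObj.v h ν x) e.hom_inv_id
    · exact congrArg (fun h => SpObj.v h ν x) e.inv_hom_id
  · refine Function.bijective_iff_has_inverse.2 ⟨SpObj.c e.inv, fun x => ?_, fun x => ?_⟩
    · exact congrArg (fun h => SpObj.c h x) e.hom_inv_id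
    · exact congrArg (fun h => SpObj.c h x) e.inv_hom_id

end Pool.Agent.HFT
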