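import Pool.Agent.HFT.SpLim

/-! # HFT/SpRho: the rank of a tree of vector spaces (helper49)

PROOF. Write `cd K := X.chi - K.chi = ∑_ν (dim V_ν - dim K_ν) - (dim C - dim K_c)`. It is at most
`∑_ν dim V_ν` since `dim K_c ≤ dim C` (`Submodule.finrank_le`). `cd ⊤ = 0`, so `0` is in the set defining
`rho X`, which is bounded above: `rho_le_iff`, `exists_rho` (the supremum of a nonempty bounded set of
natural numbers is attained: `Nat.sSup_mem`; at the maximum equality holds: if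
`(n : ℤ) < cd K` then `n + 1` is in the set too).
`chi_quo`: `finrank (V / K) + finrank K = finrank V` (`Submodule.finrank_quotient_add_finrank`; the
spaces are over division rings).
`chi_map`: if `a : X ⟶ Y` and `K : SpSub X` contains the kernels of the components of `a` then
`cd (map a K)` in `Y` ... the form used is: for SURJECTIVE components and `K : SpSub Y`,
`cd (comap a K) = cd K` (the quotients `X/a⁻¹K`, `Y/K` are isomorphic: rank-nullity for
`X.V ν → Y.V ν / K.v ν`, kernel `comap`). For `a` with INJECTIVE components `(K.map a).chi = K.chi`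
(`LinearMap.finrank_eq_of_..`: `Submodule.equivMapOfInjective`).
`chi_inf_map` (exactness): for `a : X ⟶ Y` and `K : SpSub Y` let `K' := comap a K` and
`K'' := K + range a`: `cd K = cd K' + cd K''` : per component for a linear map `a : V → W` of finite
dimensional spaces and `K ⊆ W`: `dim W - dim K = (dim V - dim a⁻¹K) + (dim W - dim (K + range a))`:
the map `V → W/K` has kernel `a⁻¹ K` and image `(K + range a)/K`. -/

set_option autoImplicit false

universe u

open CategoryTheory CategoryTheory.Limits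

namespace Pool.Agent.HFT

variable {𝒮 : SpData.{u}}

namespace SpSub

instance instMax (X : SpObj 𝒮) : Max (SpSub X) :=
  ⟨fun K K' => ⟨fun ν => K.v ν ⊔ K'.v ν, K.c ⊔ K'.c, by
    intro x hx
    obtain ⟨y, hy, z, hz, rfl⟩ := Submodule.mem_sup.1 hx
    rw [map_add]
    exact Submodule.add_mem_sup (K.hf y hy) (K'.hf z hz), by
    intro x hx
    obtain ⟨y, hy, z, hz, rfl⟩ := Submodule.mem_sup.1 hx
    rw [map_add]
    exact Submodule.add_mem_sup (K.hg y hy) (K'.hg z hz)⟩⟩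

@[simp] theorem sup_v {X : SpObj 𝒮} (K K' : SpSub X) (ν : 𝒮.Vt) : (K ⊔ K').v ν = K.v ν ⊔ K'.v ν :=
  rfl

@[simp] theorem sup_c {X : SpObj 𝒮} (K K' : SpSub X) : (K ⊔ K').c = K.c ⊔ K'.c := rfl

end SpSub

namespace SpObj

/-- the dimension count for one linear map -/
private theorem comp_exact {D : Type u} [DivisionRing D] {V W : Type u} [AddCommGroup V]
    [Module D V] [Module.Finite D V] [AddCommGroup W] [Module D W] [Module.Finite D W]
    (a : V →ₗ[D] W) (K : Submodule D W) :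
    (Module.finrank D W : ℤ) - (Module.finrank D K : ℤ) =
      ((Module.finrank D V : ℤ) - (Module.finrank D (K.comap a) : ℤ)) +
        ((Module.finrank D W : ℤ) - (Module.finrank D ↥(K ⊔ LinearMap.range a) : ℤ)) := by
  have h1 := Submodule.finrank_quotient_add_finrank K
  have h2 := Submodule.finrank_quotient_add_finrank (K ⊔ LinearMap.range a)
  have h3 := LinearMap.finrank_range_add_finrank_ker (K.mkQ.comp a)
  rw [LinearMap.ker_comp, Submodule.ker_mkQ, LinearMap.range_comp] at h3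
  have h4 := Submodule.finrank_quotient_add_finrank ((LinearMap.range a).map K.mkQ)
  have h5 := (Submodule.quotientQuotientEquivQuotientSup K (LinearMap.range a)).finrank_eq
  omega

theorem chi_top (X : SpObj 𝒮) : (⊤ : SpSub X).chi = X.chi := by
  have h1 : ∀ ν, Module.finrank (𝒮.DV ν) ((⊤ : SpSub X).v ν) = Module.finrank (𝒮.DV ν) (X.V ν) :=
    fun ν => finrank_top (𝒮.DV ν) (X.V ν)
  have h2 : Module.finrank 𝒮.DC (⊤ : SpSub X).c = Module.finrank 𝒮.DC X.C :=
    finrank_top 𝒮.DC X.C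
  unfold SpSub.chi SpObj.chi
  rw [h2]
  congr 1
  exact Finset.sum_congr rfl fun ν _ => by rw [h1]

theorem chi_bot (X : SpObj 𝒮) : (⊥ : SpSub X).chi = 0 := by
  have h1 : ∀ ν, Module.finrank (𝒮.DV ν) ((⊥ : SpSub X).v ν) = 0 :=
    fun ν => finrank_bot (𝒮.DV ν) (X.V ν)
  have h2 : Module.finrank 𝒮.DC (⊥ : SpSub X).c = 0 := finrank_bot 𝒮.DC X.C
  unfold SpSub.chi
  rw [h2, Finset.sum_eq_zero fun ν _ => by rw [h1]; rfl]
  rfl

theorem chi_quo {X : SpObj 𝒮} (K : SpSub X) : K.quo.chi = X.chi - K.chi := by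
  have h1 : ∀ ν, (Module.finrank (𝒮.DV ν) (K.quo.V ν) : ℤ) =
      (Module.finrank (𝒮.DV ν) (X.V ν) : ℤ) - (Module.finrank (𝒮.DV ν) (K.v ν) : ℤ) := by
    intro ν
    have h := Submodule.finrank_quotient_add_finrank (K.v ν)
    have h' : Module.finrank (𝒮.DV ν) (K.quo.V ν) =
      Module.finrank (𝒮.DV ν) (X.V ν ⧸ K.v ν) := rfl
    omega
  have h2 : (Module.finrank 𝒮.DC K.quo.C : ℤ) =
      (Module.finrank 𝒮.DC X.C : ℤ) - (Module.finrank 𝒮.DC K.c : ℤ) := by
    have h := Submodule.finrank_quotient_add_finrank K.c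
    have h' : Module.finrank 𝒮.DC K.quo.C = Module.finrank 𝒮.DC (X.C ⧸ K.c) := rfl
    omega
  unfold SpSub.chi SpObj.chi
  rw [h2, Finset.sum_congr rfl fun ν _ => h1 ν, Finset.sum_sub_distrib]
  ring

private theorem cd_le {X : SpObj 𝒮} (K : SpSub X) :
    X.chi - K.chi ≤ ∑ ν, (Module.finrank (𝒮.DV ν) (X.V ν) : ℤ) := by
  have h1 : (Module.finrank 𝒮.DC K.c : ℤ) ≤ (Module.finrank 𝒮.DC X.C : ℤ) := by
    exact_mod_cast Submodule.finrank_le K.c
  have h2 : (0 : ℤ) ≤ ∑ ν, (Module.finrank (𝒮.DV ν) (K.v ν) : ℤ) :=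
    Finset.sum_nonneg fun ν _ => Int.natCast_nonneg _
  unfold SpSub.chi SpObj.chi
  linarith

private theorem bdd (X : SpObj 𝒮) :
    BddAbove {n : ℕ | ∃ K : SpSub X, (n : ℤ) ≤ X.chi - K.chi} := by
  refine ⟨∑ ν, Module.finrank (𝒮.DV ν) (X.V ν), ?_⟩
  rintro n ⟨K, hK⟩
  have h := hK.trans (cd_le K)
  exact_mod_cast h

private theorem ne_set (X : SpObj 𝒮) :
    {n : ℕ | ∃ K : SpSub X, (n : ℤ) ≤ X.chi - K.chi}.Nonempty := by
  refine ⟨0, ⊤, ?_⟩
  rw [chi_top, sub_self]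
  rfl

theorem le_rho {X : SpObj 𝒮} (K : SpSub X) : X.chi - K.chi ≤ X.rho := by
  by_cases h : 0 ≤ X.chi - K.chi
  · obtain ⟨n, hn⟩ := Int.eq_ofNat_of_zero_le h
    rw [hn]
    have h1 : n ≤ X.rho := le_csSup (bdd X) ⟨K, hn.ge⟩
    exact_mod_cast h1
  · have : (0 : ℤ) ≤ X.rho := Int.natCast_nonneg _
    linarith

theorem rho_le_iff {X : SpObj 𝒮} (n : ℕ) : X.rho ≤ n ↔ ∀ K : SpSub X, X.chi - K.chi ≤ n := by
  constructor
  · intro h K
    have h1 : (X.rho : ℤ) ≤ n := by exact_mod_cast h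
    exact (le_rho K).trans h1
  · intro h
    refine csSup_le (ne_set X) ?_
    rintro m ⟨K, hK⟩
    have h1 := hK.trans (h K)
    exact_mod_cast h1

theorem exists_rho (X : SpObj 𝒮) : ∃ K : SpSub X, X.chi - K.chi = X.rho := by
  obtain ⟨K, hK⟩ := Nat.sSup_mem (ne_set X) (bdd X)
  exact ⟨K, le_antisymm (le_rho K) hK⟩

theorem chi_map {X Y : SpObj 𝒮} (a : X ⟶ Y) (hv : ∀ ν, Function.Injective (SpObj.v a ν))
    (hc : Function.Injective (SpObj.c a)) (K : SpSub X) : (K.map a).chi = K.chi := by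
  have h1 : ∀ ν, Module.finrank (𝒮.DV ν) ((K.map a).v ν) = Module.finrank (𝒮.DV ν) (K.v ν) :=
    fun ν => (Submodule.equivMapOfInjective (SpObj.v a ν) (hv ν) (K.v ν)).finrank_eq.symm
  have h2 : Module.finrank 𝒮.DC (K.map a).c = Module.finrank 𝒮.DC K.c :=
    (Submodule.equivMapOfInjective (SpObj.c a) hc K.c).finrank_eq.symm
  unfold SpSub.chi
  rw [h2]
  congr 1
  exact Finset.sum_congr rfl fun ν _ => by rw [h1]

theorem chi_exact {X Y : SpObj 𝒮} (a : X ⟶ Y) (K : SpSub Y) :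
    Y.chi - K.chi = (X.chi - (K.comap a).chi) + (Y.chi - (K ⊔ SpSub.range a).chi) := by
  have h1 : ∀ ν, (Module.finrank (𝒮.DV ν) (Y.V ν) : ℤ) - (Module.finrank (𝒮.DV ν) (K.v ν) : ℤ) =
      ((Module.finrank (𝒮.DV ν) (X.V ν) : ℤ) -
        (Module.finrank (𝒮.DV ν) ((K.comap a).v ν) : ℤ)) +
      ((Module.finrank (𝒮.DV ν) (Y.V ν) : ℤ) -
        (Module.finrank (𝒮.DV ν) ((K ⊔ SpSub.range a).v ν) : ℤ)) :=
    fun ν => comp_exact (SpObj.v a ν) (K.v ν)
  have h2 : (Module.finrank 𝒮.DC Y.C : ℤ) - (Module.finrank 𝒮.DC K.c : ℤ) =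
      ((Module.finrank 𝒮.DC X.C : ℤ) - (Module.finrank 𝒮.DC (K.comap a).c : ℤ)) +
      ((Module.finrank 𝒮.DC Y.C : ℤ) -
        (Module.finrank 𝒮.DC (K ⊔ SpSub.range a).c : ℤ)) :=
    comp_exact (SpObj.c a) K.c
  have h3 := Finset.sum_congr (rfl : (Finset.univ : Finset 𝒮.Vt) = Finset.univ)
    fun ν _ => h1 ν
  rw [Finset.sum_add_distrib, Finset.sum_sub_distrib, Finset.sum_sub_distrib,
    Finset.sum_sub_distrib] at h3
  unfold SpSub.chi SpObj.chi
  linarith

theorem chi_comap {X Y : SpObj 𝒮} (a : X ⟶ Y) (hv : ∀ ν, Function.Surjective (SpObj.v a ν))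
    (hc : Function.Surjective (SpObj.c a)) (K : SpSub Y) :
    X.chi - (K.comap a).chi = Y.chi - K.chi := by
  have h1 : K ⊔ SpSub.range a = ⊤ := by
    apply SpSub.ext
    · funext ν
      show K.v ν ⊔ LinearMap.range (SpObj.v a ν) = ⊤
      rw [LinearMap.range_eq_top.2 (hv ν), sup_top_eq]
    · show K.c ⊔ LinearMap.range (SpObj.c a) = ⊤
      rw [LinearMap.range_eq_top.2 hc, sup_top_eq]
  rw [chi_exact a K, h1, chi_top, sub_self, add_zero]

end SpObj

end Pool.Agent.HFT
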