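import Pool.Agent.HFT.TM

/-! # HFT/TA: leading positions of sums (helper49)

PROOF. `add_step`. `al e = (1 + al a * w) * v⁻¹ ∈ cl (Le k I)` (all `v q ≠ 0` by `Nrm_val`), so `e ∈ Le k I`
(`star_Le`), and by `Nrm_val` `val_I w = val_I v = 0`, `val_I (1 + al a * w) = deg e` in every component.
- `deg a < 0` is impossible: `ltj_of_deg_neg` and `ltj_lt` contradict `hak`.
- `deg a > 0`: then `val (1 + al a * w) = 0`, so `deg e = 0`, `e ∈ Lt k I`.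
  `al e * v0 - 1 = al a * w - al e * (v - v0)` lies in `cl (Lt k I)` and is `Big 0`
  (`App_Big`), so it is zero (`eq_zero_of_Big`): `v0 = al e⁻¹ * 1`. `Nrm T k 1` (`scal`, `r = 1`) and
  `Nrm T k v0` give `e⁻¹ = 1` (`Nrm_unique`), so `e k = k` and `lt_irrefl`.
- `deg a = 0`: `a ∈ Lt k I` (`deg_zero_iff`). `deg e < 0` is impossible since
  `val (1 + al a * w) ≥ 0`. `deg e > 0`: `k < e k` (`ltj_of_deg_pos`, `ltj_lt`), so not `e k < k`.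
  `deg e = 0`: `e ∈ Lt k I` and `al e * v0 - (1 + al a * w0) = al a * (w - w0) - al e * (v - v0)` is in
  `cl (Lt k I)` and `Big 0` (`App_left`, `App_Big`), so zero.
`add_core`: outer induction on `hw : Nrm T k w` (for all `a, e, v`), inner induction on
`hv : Nrm T k v` (for all `a, e`). In all cases let `i` be the larger one of the levels of the two
derivations (if there is at least one `step`). If `a ≠ 1` has level `I > i` seen from `k` (or there is no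
`step` at all and `a ≠ 1`, `I` := its level): `w, v ∈ cl (Lt k I)`; apply `add_step` with `w0 = w`,
`v0 = v` (`App_zero`); the second alternative is impossible as `a ∉ Lt k I`. If there is no `step`
and `a = 1`: `al e * ro r' = 1 + ro r ∈ cl (Lt k I)` for all `I`, so `e ∈ Lt k I` for all `I`
(`star_Lt`), hence `e = 1` (`exists_level`) and `lt_irrefl`. Otherwise `a ∈ Le k i`: apply
`add_step` with `I = i`, with `w0` the family of the derivation of `w` if its level is `i` and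
`w0 = w` otherwise (if `w = ro r` or its level is `< i`, then `w ∈ cl (Lt k i)`), the same for
`v`. In the second alternative `al e * v0 = 1 + al a * w0` and the outer induction hypothesis
(if the level of `w` is `i`) or the inner one (otherwise) applies.
`Ld_add`: suppose `l < h` and `l < h'`. If not `h' < h`: `t = y * x⁻¹` satisfies `Ld t h h'` and
`(x + y) * x⁻¹ = 1 + t` satisfies `Ld (1 + t) h l` (`Ld_inv`, `Ld_mul`, `x * x⁻¹ = 1`). So `h' = a h`,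
`t = al a * w`, `l = e h`, `1 + t = al e * v` with `w, v` normalized at `h`, and `add_core` at `h`
contradicts `l < h`. If `h' < h` then not `h < h'`, and the same with `x, y` exchanged. -/

set_option autoImplicit false

universe u w

namespace Pool.Agent.HFT

namespace TSet

variable {G : Type u} [Group G] {S : ConradSys G} {R : Type u} [DivisionRing R] {A : Subgroup G}
  {ι : Type} (𝒯 : TSet.{u, w} S R A ι)

theorem add_step [Nonempty ι] {k : G} {I : S.I} {a e : A} {w v w0 v0 : ∀ q, 𝒯.D q}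
    (hw : 𝒯.Nrm 𝒯.T k w) (hv : 𝒯.Nrm 𝒯.T k v) (hwl : w ∈ 𝒯.cl (S.Le k I))
    (hvl : v ∈ 𝒯.cl (S.Le k I)) (hw0 : w0 ∈ 𝒯.cl (S.Lt k I)) (hv0 : v0 ∈ 𝒯.cl (S.Lt k I))
    (hv0N : 𝒯.Nrm 𝒯.T k v0) (hwA : 𝒯.App 𝒯.T k I (w - w0)) (hvA : 𝒯.App 𝒯.T k I (v - v0))
    (ha : (a : G) ∈ S.Le k I) (hak : ¬ S.lt (a * k) k) (h : 𝒯.al e * v = 1 + 𝒯.al a * w) :
    ¬ S.lt (e * k) k ∨ ((a : G) ∈ S.Lt k I ∧ 𝒯.al e * v0 = 1 + 𝒯.al a * w0) := by
  obtain ⟨q0⟩ := ‹Nonempty ι›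
  have hne : Nonempty ι := ⟨q0⟩
  have hzcl : 1 + 𝒯.al a * w ∈ 𝒯.cl (S.Le k I) :=
    𝒯.cl_add (𝒯.cl_one _) (𝒯.cl_mul (𝒯.cl_al ha) hwl)
  -- `e ∈ Le k I`
  have he : (e : G) ∈ S.Le k I := by
    refine 𝒯.star_Le (q := q0) ?_
    have h1 : 𝒯.α q0 e = (1 + 𝒯.al a * w) q0 * (v q0)⁻¹ := by
      rw [← h]
      show 𝒯.α q0 e = 𝒯.α q0 e * v q0 * (v q0)⁻¹
      rw [mul_assoc, mul_inv_cancel₀ ((𝒯.Nrm_val hv).1 q0), mul_one]
    rw [h1]
    exact (𝒯.Dl q0 (S.Le k I)).mul_mem (hzcl q0) ((𝒯.Dl q0 (S.Le k I)).inv_mem (hvl q0))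
  have hval1 : ∀ q, 𝒯.val q k I 1 = 0 := fun q =>
    (𝒯.val_spec q k I).const 1 (𝒯.Dl q (S.Lt k I)).one_mem one_ne_zero
  have hvala : ∀ q, 𝒯.val q k I ((𝒯.al a * w) q) = ((S.deg k I a : ℝ) : WithTop ℝ) := by
    intro q
    have hV := 𝒯.val_spec q k I
    have h1 : 𝒯.val q k I (𝒯.al a q) = ((S.deg k I a : ℝ) : WithTop ℝ) := hV.deg a ha
    show 𝒯.val q k I (𝒯.al a q * w q) = _
    rw [hV.mul _ (𝒯.cl_al ha q) _ (hwl q), h1, (𝒯.Nrm_val hw).2 I hwl q, add_zero]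
  have hvale : ∀ q, 𝒯.val q k I ((1 + 𝒯.al a * w) q) = ((S.deg k I e : ℝ) : WithTop ℝ) := by
    intro q
    have hV := 𝒯.val_spec q k I
    rw [← h]
    have h1 : 𝒯.val q k I (𝒯.al e q) = ((S.deg k I e : ℝ) : WithTop ℝ) := hV.deg e he
    show 𝒯.val q k I (𝒯.al e q * v q) = _
    rw [hV.mul _ (𝒯.cl_al he q) _ (hvl q), h1, (𝒯.Nrm_val hv).2 I hvl q, add_zero]
  rcases lt_trichotomy (S.deg k I a) 0 with hd | hd | hd
  · exact absurd (S.ltj_lt (S.ltj_of_deg_neg ha hd le_rfl)) hak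
  · -- degree `0`
    have haLt : (a : G) ∈ S.Lt k I := (S.deg_zero_iff ha).1 hd
    have hge : 0 ≤ S.deg k I e := by
      have h1 := (𝒯.val_spec q0 k I).add 1 (𝒯.Dl q0 (S.Le k I)).one_mem ((𝒯.al a * w) q0)
        (𝒯.cl_mul (𝒯.cl_al ha) hwl q0)
      have h2 : 1 + (𝒯.al a * w) q0 = (1 + 𝒯.al a * w) q0 := rfl
      rw [h2, hval1, hvala, hd, hvale, WithTop.coe_zero, min_self] at h1
      exact_mod_cast h1
    rcases hge.lt_or_eq with hpos | hzero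
    · left
      exact S.lt_asymm (S.ltj_lt (S.ltj_of_deg_pos he hpos le_rfl))
    · right
      have heLt : (e : G) ∈ S.Lt k I := (S.deg_zero_iff he).1 hzero.symm
      refine ⟨haLt, ?_⟩
      have h1 : 𝒯.al e * v0 - (1 + 𝒯.al a * w0) =
          𝒯.al a * (w - w0) + -(𝒯.al e * (v - v0)) := by
        rw [mul_sub, mul_sub, h]
        abel
      have h2 : 𝒯.Big k I 0 (𝒯.al e * v0 - (1 + 𝒯.al a * w0)) := by
        rw [h1]
        exact 𝒯.Big_add (𝒯.App_Big (𝒯.App_left hwA haLt))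
          (𝒯.Big_neg (𝒯.App_Big (𝒯.App_left hvA heLt)))
      have h3 : 𝒯.al e * v0 - (1 + 𝒯.al a * w0) ∈ 𝒯.cl (S.Lt k I) :=
        𝒯.cl_sub (𝒯.cl_mul (𝒯.cl_al heLt) hv0)
          (𝒯.cl_add (𝒯.cl_one _) (𝒯.cl_mul (𝒯.cl_al haLt) hw0))
      exact sub_eq_zero.1 (𝒯.eq_zero_of_Big le_rfl h3 h2)
  · -- positive degree
    left
    have he0 : S.deg k I e = 0 := by
      have hV := 𝒯.val_spec q0 k I
      have h1 := 𝒯.IsVal_add_eq hV (𝒯.Dl q0 (S.Le k I)).one_mem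
        (𝒯.cl_mul (𝒯.cl_al ha) hwl q0) (by rw [hval1, hvala]; exact_mod_cast hd)
      have h2 : 1 + (𝒯.al a * w) q0 = (1 + 𝒯.al a * w) q0 := rfl
      rw [h2, hvale, hval1] at h1
      exact_mod_cast h1
    have heLt : (e : G) ∈ S.Lt k I := (S.deg_zero_iff he).1 he0
    have h1 : 𝒯.al e * v0 - 1 = 𝒯.al a * w + -(𝒯.al e * (v - v0)) := by
      rw [mul_sub, h]
      abel
    have h2 : 𝒯.Big k I 0 (𝒯.al e * v0 - 1) := by
      rw [h1]
      refine 𝒯.Big_add ⟨𝒯.cl_mul (𝒯.cl_al ha) hwl, fun q => ?_⟩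
        (𝒯.Big_neg (𝒯.App_Big (𝒯.App_left hvA heLt)))
      rw [hvala]
      exact_mod_cast hd
    have h3 : 𝒯.al e * v0 - 1 ∈ 𝒯.cl (S.Lt k I) :=
      𝒯.cl_sub (𝒯.cl_mul (𝒯.cl_al heLt) hv0) (𝒯.cl_one _)
    have h4 : 𝒯.al e * v0 = 1 := sub_eq_zero.1 (𝒯.eq_zero_of_Big le_rfl h3 h2)
    have h5 : 𝒯.Nrm 𝒯.T k (𝒯.al e * v0) := by
      rw [h4, ← 𝒯.ro_one]
      exact .scal 1 one_ne_zero
    have h6 := 𝒯.Nrm_unique hv0N h5
    rw [h6, OneMemClass.coe_one, one_mul]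
    exact S.lt_irrefl k

/-- the case of an element `a` of level `I`, above all the levels of `w` and `v` -/
private theorem high [Nonempty ι] {k : G} {I : S.I} {a e : A} {w v : ∀ q, 𝒯.D q}
    (hw : 𝒯.Nrm 𝒯.T k w) (hv : 𝒯.Nrm 𝒯.T k v) (hwl : w ∈ 𝒯.cl (S.Lt k I))
    (hvl : v ∈ 𝒯.cl (S.Lt k I)) (ha : (a : G) ∈ S.Le k I) (ha' : (a : G) ∉ S.Lt k I)
    (hak : ¬ S.lt (a * k) k) (h : 𝒯.al e * v = 1 + 𝒯.al a * w) : ¬ S.lt (e * k) k := by
  have hz : 𝒯.App 𝒯.T k I (w - w) := by rw [sub_self]; exact 𝒯.App_zero _ _ _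
  have hz' : 𝒯.App 𝒯.T k I (v - v) := by rw [sub_self]; exact 𝒯.App_zero _ _ _
  rcases 𝒯.add_step hw hv (𝒯.cl_mono (S.Lt_le_Le k I) hwl) (𝒯.cl_mono (S.Lt_le_Le k I) hvl)
    hwl hvl hv hz hz' ha hak h with h1 | h1
  · exact h1
  · exact absurd h1.1 ha'

/-- either the conclusion holds or `a ∈ Le k i` -/
private theorem le_or [Nonempty ι] {k : G} {i : S.I} {a e : A} {w v : ∀ q, 𝒯.D q}
    (hw : 𝒯.Nrm 𝒯.T k w) (hv : 𝒯.Nrm 𝒯.T k v) (hwl : w ∈ 𝒯.cl (S.Le k i))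
    (hvl : v ∈ 𝒯.cl (S.Le k i)) (hak : ¬ S.lt (a * k) k) (h : 𝒯.al e * v = 1 + 𝒯.al a * w) :
    ¬ S.lt (e * k) k ∨ (a : G) ∈ S.Le k i := by
  by_cases ha : (a : G) ∈ S.Le k i
  · exact Or.inr ha
  left
  have ha1 : (a : G) ≠ 1 := by
    intro h1
    rw [h1] at ha
    exact ha (S.Le k i).one_mem
  obtain ⟨I, hI, hI', -⟩ := S.exists_level k ha1
  have hi : i < I := by
    by_contra hc
    exact ha (S.Le_le_Le k (not_lt.1 hc) hI)
  exact 𝒯.high hw hv (𝒯.cl_mono (S.Le_le_Lt k hi) hwl) (𝒯.cl_mono (S.Le_le_Lt k hi) hvl)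
    hI hI' hak h

private theorem core_aux [Nonempty ι] {k : G} {w : ∀ q, 𝒯.D q} (hw : 𝒯.Nrm 𝒯.T k w) :
    ∀ {v : ∀ q, 𝒯.D q}, 𝒯.Nrm 𝒯.T k v → ∀ a e : A, ¬ S.lt (a * k) k →
      𝒯.al e * v = 1 + 𝒯.al a * w → ¬ S.lt (e * k) k := by
  induction hw with
  | scal r hr =>
    intro v hv
    have hwN : 𝒯.Nrm 𝒯.T k (𝒯.ro r) := .scal r hr
    induction hv with
    | scal r' hr' =>
      intro a e hak h
      have hvN : 𝒯.Nrm 𝒯.T k (𝒯.ro r') := .scal r' hr'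
      by_cases ha : (a : G) = 1
      · have ha' : a = 1 := Subtype.ext ha
        by_cases he : (e : G) = 1
        · rw [he, one_mul]
          exact S.lt_irrefl k
        · exfalso
          obtain ⟨I, hI, hI', -⟩ := S.exists_level k he
          apply hI'
          obtain ⟨q0⟩ := ‹Nonempty ι›
          refine 𝒯.star_Lt (q := q0) ?_
          have h1 : 𝒯.α q0 e = (1 + 𝒯.al a * 𝒯.ro r) q0 * (𝒯.ro r' q0)⁻¹ := by
            rw [← h]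
            show 𝒯.α q0 e = 𝒯.α q0 e * 𝒯.ro r' q0 * (𝒯.ro r' q0)⁻¹
            rw [mul_assoc, mul_inv_cancel₀ (𝒯.ro_ne hr' q0), mul_one]
          rw [h1, ha', 𝒯.al_one, one_mul]
          exact (𝒯.Dl q0 (S.Lt k I)).mul_mem (𝒯.cl_add (𝒯.cl_one _) (𝒯.cl_ro _ r) q0)
            ((𝒯.Dl q0 (S.Lt k I)).inv_mem (𝒯.cl_ro _ r' q0))
      · obtain ⟨I, hI, hI', -⟩ := S.exists_level k ha
        exact 𝒯.high hwN hvN (𝒯.cl_ro _ r) (𝒯.cl_ro _ r') hI hI' hak h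
    | step i v v0 hu h0 hP hN hA ih =>
      intro a e hak h
      have hvN : 𝒯.Nrm 𝒯.T k v := .step i v v0 hu h0 hP hN hA
      rcases 𝒯.le_or hwN hvN (𝒯.cl_ro _ r) hu hak h with h1 | h1
      · exact h1
      have hz : 𝒯.App 𝒯.T k i (𝒯.ro r - 𝒯.ro r) := by rw [sub_self]; exact 𝒯.App_zero _ _ _
      rcases 𝒯.add_step hwN hvN (𝒯.cl_ro _ r) hu (𝒯.cl_ro _ r) h0 hN hz hA h1 hak h with h2 | h2
      · exact h2
      · exact ih a e hak h2.2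
  | step i w w0 hwu hw0 hwP hwN0 hwA IH =>
    intro v hv
    have hwN : 𝒯.Nrm 𝒯.T k w := .step i w w0 hwu hw0 hwP hwN0 hwA
    induction hv with
    | scal r' hr' =>
      intro a e hak h
      have hvN : 𝒯.Nrm 𝒯.T k (𝒯.ro r') := .scal r' hr'
      rcases 𝒯.le_or hwN hvN hwu (𝒯.cl_ro _ r') hak h with h1 | h1
      · exact h1
      have hz : 𝒯.App 𝒯.T k i (𝒯.ro r' - 𝒯.ro r') := by rw [sub_self]; exact 𝒯.App_zero _ _ _
      rcases 𝒯.add_step hwN hvN hwu (𝒯.cl_ro _ r') hw0 (𝒯.cl_ro _ r') hvN hwA hz h1 hak h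
        with h2 | h2
      · exact h2
      · exact IH hvN a e hak h2.2
    | step i' v v0 hu h0 hP hN hA ih =>
      intro a e hak h
      have hvN : 𝒯.Nrm 𝒯.T k v := .step i' v v0 hu h0 hP hN hA
      rcases lt_trichotomy i i' with hi | hi | hi
      · have hwLt : w ∈ 𝒯.cl (S.Lt k i') := 𝒯.cl_mono (S.Le_le_Lt k hi) hwu
        have hwLe : w ∈ 𝒯.cl (S.Le k i') := 𝒯.cl_mono (S.Lt_le_Le k i') hwLt
        rcases 𝒯.le_or hwN hvN hwLe hu hak h with h1 | h1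
        · exact h1
        have hz : 𝒯.App 𝒯.T k i' (w - w) := by rw [sub_self]; exact 𝒯.App_zero _ _ _
        rcases 𝒯.add_step hwN hvN hwLe hu hwLt h0 hN hz hA h1 hak h with h2 | h2
        · exact h2
        · exact ih a e hak h2.2
      · subst hi
        rcases 𝒯.le_or hwN hvN hwu hu hak h with h1 | h1
        · exact h1
        rcases 𝒯.add_step hwN hvN hwu hu hw0 h0 hN hwA hA h1 hak h with h2 | h2
        · exact h2
        · exact IH hN a e hak h2.2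
      · have hvLt : v ∈ 𝒯.cl (S.Lt k i) := 𝒯.cl_mono (S.Le_le_Lt k hi) hu
        have hvLe : v ∈ 𝒯.cl (S.Le k i) := 𝒯.cl_mono (S.Lt_le_Le k i) hvLt
        rcases 𝒯.le_or hwN hvN hwu hvLe hak h with h1 | h1
        · exact h1
        have hz : 𝒯.App 𝒯.T k i (v - v) := by rw [sub_self]; exact 𝒯.App_zero _ _ _
        rcases 𝒯.add_step hwN hvN hwu hvLe hw0 hvLt hvN hwA hz h1 hak h with h2 | h2
        · exact h2
        · exact IH hvN a e hak h2.2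

theorem add_core [Nonempty ι] {k : G} {a e : A} {w v : ∀ q, 𝒯.D q}
    (hw : 𝒯.Nrm 𝒯.T k w) (hv : 𝒯.Nrm 𝒯.T k v) (hak : ¬ S.lt (a * k) k)
    (h : 𝒯.al e * v = 1 + 𝒯.al a * w) : ¬ S.lt (e * k) k :=
  𝒯.core_aux hw hv a e hak h

private theorem Ld_add_aux [Nonempty ι] {x y : ∀ q, 𝒯.D q} (hx : 𝒯.Gen ⊤ x) (hy : 𝒯.Gen ⊤ y)
    {k h h' l : G} (h1 : 𝒯.Ld x k h) (h2 : 𝒯.Ld y k h') (h3 : 𝒯.Ld (x + y) k l)
    (hh : ¬ S.lt h' h) : ¬ S.lt l h := by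
  have hxi : 𝒯.Gen ⊤ x⁻¹ := .inv _ hx
  have hi := 𝒯.Ld_inv hx h1
  have ht := 𝒯.Ld_mul hy hxi hi h2
  have hs := 𝒯.Ld_mul (.add _ _ hx hy) hxi hi h3
  have e1 : (x + y) * x⁻¹ = 1 + y * x⁻¹ := by
    rw [add_mul]
    congr 1
    funext q
    exact mul_inv_cancel₀ (𝒯.Ld_ne h1 q)
  rw [e1] at hs
  obtain ⟨a, rfl, ha⟩ := ht
  obtain ⟨e, rfl, he⟩ := hs
  refine 𝒯.add_core ha he hh ?_
  rw [𝒯.al_mul_inv, 𝒯.al_mul_inv]

theorem Ld_add [Nonempty ι] {x y : ∀ q, 𝒯.D q} (hx : 𝒯.Gen ⊤ x) (hy : 𝒯.Gen ⊤ y)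
    {k h h' l : G} (h1 : 𝒯.Ld x k h) (h2 : 𝒯.Ld y k h') (h3 : 𝒯.Ld (x + y) k l) :
    ¬ (S.lt l h ∧ S.lt l h') := by
  rintro ⟨hl1, hl2⟩
  by_cases hh : S.lt h' h
  · rw [add_comm] at h3
    exact 𝒯.Ld_add_aux hy hx h2 h1 h3 (S.lt_asymm hh) hl2
  · exact 𝒯.Ld_add_aux hx hy h1 h2 h3 hh hl1

end TSet

end Pool.Agent.HFT
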