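import Pool.Agent.HFT.TS

/-! # HFT/TAdd: the set `T` is closed under addition (helper49)

PROOF. Let `P1 := {x ∈ T | ∀ y ∈ T, x + y ∈ T}`; it is left invariant and right invariant under `al`
(`al b * x + y = al b * (x + al b⁻¹ * y)`, `T_al_mul`, `T_mul_al`). By `T_ind` it is enough that
`Phi (P1 ∩ T) ⊆ P1` (`P1 ∩ T = P1`). Let `x ∈ Phi P1`; then `x ∈ T` (`Phi_mono`, `T_fix`).
Let `P2 := {y ∈ T | ∀ a b : A, al a * x * al b + y ∈ T}`, again left and right invariant under `al`.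
By `T_ind` it is enough that `Phi P2 ⊆ P2` (then `T ⊆ P2`, take `a = b = 1`).
Let `y ∈ Phi P2` (so `y ∈ T`) and `a₀, b₀ : A`; put `x' := al a₀ * x * al b₀`; `x' ∈ Phi P1` by
`Phi_al_mul`, `Phi_mul_al`, and `x' ∈ T`. We show `z := x' + y ∈ T = Phi T`. `Gen ⊤ z` by `Gen.add`
(`T_gen`). If `x' = 0`, `y = 0` or `z = 0` this is clear. Otherwise:
`O := {v | ∃ a b, v = al a * x * al b}`; `SumHyp P1 P2 O` holds.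
(i) Position `k`. From `x' ∈ Phi P1`: `a` with `Nrm P1 k (al a⁻¹ * x')` =: u; from `y ∈ Phi P2`: `b` with
`Nrm P2 k (al b⁻¹ * y)` =: v. Then `al a⁻¹ * z = u + al g * v`, `g = a⁻¹ b`. By `sum_left` either
`XP T k i (al a⁻¹ * z)`, and `XP_lead` gives `e` with `Nrm T k (al e⁻¹ * (al a⁻¹ * z))`, take `a e`; or
`al a⁻¹ * z = ro r`, `r ≠ 0` as `z ≠ 0`, and `Nrm.scal`, take `a`.
(ii) Target `h`. From `x'`: `a` with `Nrm P1 (a⁻¹h) (al a⁻¹ * x')`, conjugate with `b := a⁻¹`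
(`Nrm_conj`, `P1` is invariant under conjugation): `Nrm P1 h (x' * al a⁻¹)` =: `Nrm P1 h u`;
from `y`: `b` with `Nrm P2 (b⁻¹h) (al b⁻¹ * y)`, so `Nrm P2 h (y * al b⁻¹)` =: `Nrm P2 h v`.
`z * al a⁻¹ = u + v * al g`, `g = b a⁻¹`. By `sum_right` either `XP T h i (z * al a⁻¹)` and
`XP_lead_target` (target `h`, `lev (h⁻¹h) = ⊥`) gives `e` with `Nrm T (e⁻¹h) (al e⁻¹ * (z * al a⁻¹))`;
conjugate by `a`: `Nrm T (a⁻¹e⁻¹h) (al a⁻¹ * al e⁻¹ * z)`, so `e a` works. Or `z * al a⁻¹ = ro r`, so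
`z = ro r * al a = al a * ro r` and `a` works (`Nrm.scal`).
The assumption `Nonempty ι` is only used through `TZ`. -/

set_option autoImplicit false

universe u w

namespace Pool.Agent.HFT

namespace TSet

variable {G : Type u} [Group G] {S : ConradSys G} {R : Type u} [DivisionRing R] {A : Subgroup G}
  {ι : Type} (𝒯 : TSet.{u, w} S R A ι)

/-- the families whose sums with all members of `T` are in `T` -/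
private def P1 : Set (∀ q, 𝒯.D q) := {x | x ∈ 𝒯.T ∧ ∀ y ∈ 𝒯.T, x + y ∈ 𝒯.T}

/-- the families whose sums with all two-sided translates of `x` are in `T` -/
private def P2 (x : ∀ q, 𝒯.D q) : Set (∀ q, 𝒯.D q) :=
  {y | y ∈ 𝒯.T ∧ ∀ a b : A, 𝒯.al a * x * 𝒯.al b + y ∈ 𝒯.T}

private theorem al_mul_al_inv (a : A) : 𝒯.al a * 𝒯.al a⁻¹ = 1 := by
  rw [← 𝒯.al_mul, mul_inv_cancel, 𝒯.al_one]

private theorem al_inv_mul_al (a : A) : 𝒯.al a⁻¹ * 𝒯.al a = 1 := by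
  rw [← 𝒯.al_mul, inv_mul_cancel, 𝒯.al_one]

private theorem P1_left : 𝒯.LeftInv 𝒯.P1 := by
  rintro x ⟨hx, hxy⟩ b
  refine ⟨𝒯.T_al_mul hx b, fun y hy => ?_⟩
  have h := 𝒯.T_al_mul (hxy _ (𝒯.T_al_mul hy b⁻¹)) b
  rwa [mul_add, 𝒯.al_mul_inv] at h

private theorem P1_right {x : ∀ q, 𝒯.D q} (h : x ∈ 𝒯.P1) (b : A) : x * 𝒯.al b ∈ 𝒯.P1 := by
  obtain ⟨hx, hxy⟩ := h
  refine ⟨𝒯.T_mul_al hx b, fun y hy => ?_⟩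
  have h := 𝒯.T_mul_al (hxy _ (𝒯.T_mul_al hy b⁻¹)) b
  rwa [add_mul, 𝒯.mul_inv_al] at h

private theorem P1_conj : 𝒯.ConjInv 𝒯.P1 := fun x hx b =>
  𝒯.P1_right (𝒯.P1_left x hx b⁻¹) b

private theorem P2_left (x : ∀ q, 𝒯.D q) : 𝒯.LeftInv (𝒯.P2 x) := by
  rintro y ⟨hy, hxy⟩ c
  refine ⟨𝒯.T_al_mul hy c, fun a b => ?_⟩
  have h := 𝒯.T_al_mul (hxy (c⁻¹ * a) b) c
  have e : 𝒯.al c * (𝒯.al (c⁻¹ * a) * x * 𝒯.al b + y) = 𝒯.al a * x * 𝒯.al b + 𝒯.al c * y := by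
    rw [mul_add, 𝒯.al_mul, mul_assoc (𝒯.al c⁻¹), mul_assoc (𝒯.al c⁻¹), 𝒯.al_mul_inv]
  rwa [e] at h

private theorem P2_right (x : ∀ q, 𝒯.D q) {y : ∀ q, 𝒯.D q} (h : y ∈ 𝒯.P2 x) (c : A) :
    y * 𝒯.al c ∈ 𝒯.P2 x := by
  obtain ⟨hy, hxy⟩ := h
  refine ⟨𝒯.T_mul_al hy c, fun a b => ?_⟩
  have h := 𝒯.T_mul_al (hxy a (b * c⁻¹)) c
  have e : (𝒯.al a * x * 𝒯.al (b * c⁻¹) + y) * 𝒯.al c = 𝒯.al a * x * 𝒯.al b + y * 𝒯.al c := by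
    rw [add_mul, 𝒯.al_mul, ← mul_assoc (𝒯.al a * x), 𝒯.mul_inv_al]
  rwa [e] at h

private theorem P2_conj (x : ∀ q, 𝒯.D q) : 𝒯.ConjInv (𝒯.P2 x) := fun y hy b =>
  𝒯.P2_right x (𝒯.P2_left x y hy b⁻¹) b

private theorem sumHyp {x : ∀ q, 𝒯.D q} (hx : x ∈ 𝒯.T) :
    𝒯.SumHyp 𝒯.P1 (𝒯.P2 x) {v | ∃ a b : A, v = 𝒯.al a * x * 𝒯.al b} where
  p1 := fun _ h => h.1
  p2 := fun _ h => h.1
  o := by
    rintro v ⟨a, b, rfl⟩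
    exact 𝒯.T_mul_al (𝒯.T_al_mul hx a) b
  left2 := 𝒯.P2_left x
  conj2 := 𝒯.P2_conj x
  s1 := fun c hc c' hc' => hc.2 c' hc'
  s2 := by
    rintro c ⟨a, b, rfl⟩ c' hc'
    exact hc'.2 a b

private theorem T_of_Phi {x : ∀ q, 𝒯.D q} {P : Set (∀ q, 𝒯.D q)} (hP : P ⊆ 𝒯.T)
    (h : x ∈ 𝒯.Phi P) : x ∈ 𝒯.T := by
  rw [← 𝒯.T_fix]
  exact 𝒯.Phi_mono hP h

/-- the main step: sums of a translate of `x` and of `y` -/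
private theorem main_step [Nonempty ι] {x y : ∀ q, 𝒯.D q} (hx : x ∈ 𝒯.Phi 𝒯.P1)
    (hy : y ∈ 𝒯.Phi (𝒯.P2 x)) (a0 b0 : A) : 𝒯.al a0 * x * 𝒯.al b0 + y ∈ 𝒯.T := by
  have hxT : x ∈ 𝒯.T := 𝒯.T_of_Phi (fun _ h => h.1) hx
  have hyT : y ∈ 𝒯.T := 𝒯.T_of_Phi (fun _ h => h.1) hy
  have H := 𝒯.sumHyp hxT
  have hx' : 𝒯.al a0 * x * 𝒯.al b0 ∈ 𝒯.Phi 𝒯.P1 :=
    𝒯.Phi_mul_al 𝒯.P1_conj (𝒯.Phi_al_mul hx a0) b0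
  have hx'T : 𝒯.al a0 * x * 𝒯.al b0 ∈ 𝒯.T := 𝒯.T_of_Phi (fun _ h => h.1) hx'
  generalize hX : 𝒯.al a0 * x * 𝒯.al b0 = x' at hx' hx'T ⊢
  by_cases hz : x' + y = 0
  · rw [hz]; exact 𝒯.T_zero
  by_cases hx0 : x' = 0
  · rw [hx0, zero_add]; exact hyT
  by_cases hy0 : y = 0
  · rw [hy0, add_zero]; exact hx'T
  obtain ⟨-, hx1, hx2⟩ : 𝒯.Gen ⊤ x' ∧ ((∀ k : G, ∃ a : A, 𝒯.Nrm 𝒯.P1 k (𝒯.al a⁻¹ * x')) ∧
    (∀ k : G, ∃ a : A, 𝒯.Nrm 𝒯.P1 ((a : G)⁻¹ * k) (𝒯.al a⁻¹ * x'))) :=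
    ⟨hx'.1, hx'.2.resolve_left hx0⟩
  obtain ⟨-, hy1, hy2⟩ : 𝒯.Gen ⊤ y ∧ ((∀ k : G, ∃ a : A, 𝒯.Nrm (𝒯.P2 x) k (𝒯.al a⁻¹ * y)) ∧
    (∀ k : G, ∃ a : A, 𝒯.Nrm (𝒯.P2 x) ((a : G)⁻¹ * k) (𝒯.al a⁻¹ * y))) :=
    ⟨hy.1, hy.2.resolve_left hy0⟩
  rw [← 𝒯.T_fix]
  refine ⟨.add _ _ (𝒯.T_gen hx'T) (𝒯.T_gen hyT), Or.inr ⟨fun k => ?_, fun h => ?_⟩⟩
  · obtain ⟨a, ha⟩ := hx1 k
    obtain ⟨b, hb⟩ := hy1 k
    have e : 𝒯.al a⁻¹ * (x' + y) = 𝒯.al a⁻¹ * x' + 𝒯.al (a⁻¹ * b) * (𝒯.al b⁻¹ * y) := by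
      rw [mul_add, 𝒯.al_mul, mul_assoc, 𝒯.al_mul_inv]
    have hO : 𝒯.al a⁻¹ * x' ∈ {v | ∃ a b : A, v = 𝒯.al a * x * 𝒯.al b} :=
      ⟨a⁻¹ * a0, b0, by rw [← hX, 𝒯.al_mul]; simp only [mul_assoc]⟩
    rcases 𝒯.sum_left H ha hO hb (𝒯.T_al_mul hyT b⁻¹) (a⁻¹ * b) with ⟨i, hi⟩ | ⟨r, hr⟩
    · rw [← e] at hi
      have hne : 𝒯.al a⁻¹ * (x' + y) ≠ 0 := fun h0 => hz (by
        have := 𝒯.al_mul_inv a (x' + y)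
        rw [h0, mul_zero] at this
        exact this.symm)
      obtain ⟨f, hf⟩ := 𝒯.XP_lead hi hne
      refine ⟨a * f, ?_⟩
      rwa [← mul_assoc, ← 𝒯.al_mul, ← mul_inv_rev] at hf
    · rw [← e] at hr
      refine ⟨a, ?_⟩
      rw [hr]
      refine .scal r fun h0 => hz ?_
      have := 𝒯.al_mul_inv a (x' + y)
      rw [hr, h0, 𝒯.ro_zero, mul_zero] at this
      exact this.symm
  · obtain ⟨a, ha⟩ := hx2 h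
    obtain ⟨b, hb⟩ := hy2 h
    have ha' : 𝒯.Nrm 𝒯.P1 h (x' * 𝒯.al a⁻¹) := by
      have := 𝒯.Nrm_conj 𝒯.P1_conj ha a⁻¹
      have e1 : ((a⁻¹ : A) : G)⁻¹ * ((a : G)⁻¹ * h) = h := by
        rw [Subgroup.coe_inv]; group
      rwa [e1, inv_inv, 𝒯.al_mul_inv] at this
    have hb' : 𝒯.Nrm (𝒯.P2 x) h (y * 𝒯.al b⁻¹) := by
      have := 𝒯.Nrm_conj (𝒯.P2_conj x) hb b⁻¹
      have e1 : ((b⁻¹ : A) : G)⁻¹ * ((b : G)⁻¹ * h) = h := by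
        rw [Subgroup.coe_inv]; group
      rwa [e1, inv_inv, 𝒯.al_mul_inv] at this
    have e : (x' + y) * 𝒯.al a⁻¹ = x' * 𝒯.al a⁻¹ + (y * 𝒯.al b⁻¹) * 𝒯.al (b * a⁻¹) := by
      rw [add_mul, 𝒯.al_mul, ← mul_assoc (y * 𝒯.al b⁻¹), 𝒯.mul_inv_al]
    have hO : x' * 𝒯.al a⁻¹ ∈ {v | ∃ a b : A, v = 𝒯.al a * x * 𝒯.al b} :=
      ⟨a0, b0 * a⁻¹, by rw [← hX, 𝒯.al_mul]; simp only [mul_assoc]⟩
    rcases 𝒯.sum_right H ha' hO hb' (𝒯.T_mul_al hyT b⁻¹) (b * a⁻¹) with ⟨i, hi⟩ | ⟨r, hr⟩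
    · rw [← e] at hi
      have hne : (x' + y) * 𝒯.al a⁻¹ ≠ 0 := fun h0 => hz (by
        have := 𝒯.mul_inv_al a (x' + y)
        rw [h0, zero_mul] at this
        exact this.symm)
      have hl : S.lev (h⁻¹ * h) ≤ (i : WithBot S.I) := by
        rw [inv_mul_cancel, (S.lev_bot 1).2 rfl]
        exact bot_le
      obtain ⟨f, hf⟩ := 𝒯.XP_lead_target hi hne hl
      refine ⟨f * a, ?_⟩
      have := 𝒯.Nrm_conj 𝒯.T_conjInv hf a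
      have e1 : (a : G)⁻¹ * ((f : G)⁻¹ * h) = ((f * a : A) : G)⁻¹ * h := by
        rw [Subgroup.coe_mul]; group
      have e2 : 𝒯.al a⁻¹ * (𝒯.al f⁻¹ * ((x' + y) * 𝒯.al a⁻¹)) * 𝒯.al a =
          𝒯.al (f * a)⁻¹ * (x' + y) := by
        rw [mul_inv_rev, 𝒯.al_mul, mul_assoc (𝒯.al a⁻¹) _ (𝒯.al a), mul_assoc (𝒯.al f⁻¹) _ (𝒯.al a),
          𝒯.mul_inv_al, mul_assoc]
      rwa [e1, e2] at this
    · rw [← e] at hr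
      refine ⟨a, ?_⟩
      have e3 : x' + y = 𝒯.al a * 𝒯.ro r := by
        have := 𝒯.mul_inv_al a (x' + y)
        rw [hr, 𝒯.ro_al] at this
        exact this.symm
      rw [e3, 𝒯.al_inv_mul]
      refine .scal r fun h0 => hz ?_
      rw [e3, h0, 𝒯.ro_zero, mul_zero]

theorem T_add [Nonempty ι] {x y : ∀ q, 𝒯.D q} (hx : x ∈ 𝒯.T) (hy : y ∈ 𝒯.T) :
    x + y ∈ 𝒯.T := by
  have h1 : 𝒯.T ⊆ 𝒯.P1 := by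
    refine 𝒯.T_ind ?_
    intro x hx
    have hx : x ∈ 𝒯.Phi 𝒯.P1 := 𝒯.Phi_mono Set.inter_subset_left hx
    refine ⟨𝒯.T_of_Phi (fun _ h => h.1) hx, fun y hy => ?_⟩
    have h2 : 𝒯.T ⊆ 𝒯.P2 x := by
      refine 𝒯.T_ind ?_
      intro y hy
      have hy : y ∈ 𝒯.Phi (𝒯.P2 x) := 𝒯.Phi_mono Set.inter_subset_left hy
      exact ⟨𝒯.T_of_Phi (fun _ h => h.1) hy, fun a b => 𝒯.main_step hx hy a b⟩
    have h3 := (h2 hy).2 1 1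
    rwa [𝒯.al_one, one_mul, mul_one] at h3
  exact (h1 hx).2 y hy

end TSet

end Pool.Agent.HFT
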