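import Pool.Agent.HFT.TVal

/-! # HFT/TB: first properties of expansions (helper49)

PROOF. `T` is the least fixed point of the monotone operator `Phi` (Knaster-Tarski, by hand):
`T_fix`, and `T_ind` because `Phi (P ∩ T) ⊆ P` and `Phi (P ∩ T) ⊆ Phi T = T` give
`Phi (P ∩ T) ⊆ P ∩ T`, so `T ⊆ P ∩ T`.
`cl B` is a product of division subrings, so closed under the ring operations and the inverse.
`star_Le`: suppose `b ∉ S.Le k i`; with `i'` the level of `k⁻¹ b k` (`exists_level`), `i < i'`, so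
`α b ∈ Dl (Le k i) ⊆ Dl (Lt k i')` (`Le_le_Lt`); apply `jf` at level `i'` to the two elements `1`, `b`
of degrees `0 ≠ deg b` and the coefficients `c_1 = α b`, `c_b = -1` : `α 1 * α b + α b * (-1) = 0`,
so `-1 = 0`, a contradiction. `star_Lt`: by `star_Le` and `Lt_le_Le` `b ∈ S.Le k i`; if `b ∉ S.Lt k i`
the same relation at level `i` is a contradiction.
`Hm_val`: `z = α a c` with `c q ∈ Dl (Lt k i)`: value `deg a + 0` if `c q ≠ 0`.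
`App_Big`: take `β = 0` in `App`; the sum of the `w d` (`d > 0`) has value `> 0` or is a sum of terms
of value `> 0`.
`Nrm_val` by induction on `Nrm`. `scal`: `ρ r ≠ 0` lies in every `Dl (Lt k i')`. `step i`: by
induction `u0 q ≠ 0`, `val (u0 q) = 0` at level `i` (`const`), `val ((u - u0) q) > 0` (`App_Big`),
so `val (u q) = 0` (ultrametric) and `u q ≠ 0`. For another level `i'` with `u ∈ cl (Le k i')`: if
`i' > i`, `u q ∈ Dl (Le k i) ⊆ Dl (Lt k i')` is nonzero: value 0. If `i' < i`, then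
`u ∈ cl (Lt k i)`, so `u - u0 ∈ cl (Lt k i)` has all values `> 0`, hence is zero by `const`
(`eq_of_Big`): `u = u0`, induction.
`Nrm_level` by cases on `Nrm` in the same way (induction): `scal`: `u ∈ cl (Lt k i)`; `step i'`:
`i' = i` is the second alternative, `i' < i` gives `u ∈ cl (Lt k i)`, `i' > i` gives `u = u0`,
induction hypothesis. -/

set_option autoImplicit false

universe u w

namespace Pool.Agent.HFT

namespace TSet

variable {G : Type u} [Group G] {S : ConradSys G} {R : Type u} [DivisionRing R] {A : Subgroup G}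
  {ι : Type} (𝒯 : TSet.{u, w} S R A ι)

/-! ### the division subrings -/

theorem Dl_mono (q : ι) {B B' : Subgroup G} (h : B ≤ B') : 𝒯.Dl q B ≤ 𝒯.Dl q B' := by
  refine Subfield.closure_mono (Set.union_subset_union_right _ ?_)
  rintro x ⟨b, hb, rfl⟩
  exact ⟨b, h hb, rfl⟩

theorem cl_mono {B B' : Subgroup G} (h : B ≤ B') : 𝒯.cl B ⊆ 𝒯.cl B' := fun _ hz q =>
  𝒯.Dl_mono q h (hz q)

theorem cl_zero (B : Subgroup G) : (0 : ∀ q, 𝒯.D q) ∈ 𝒯.cl B := fun q =>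
  (𝒯.Dl q B).zero_mem

theorem cl_one (B : Subgroup G) : (1 : ∀ q, 𝒯.D q) ∈ 𝒯.cl B := fun q =>
  (𝒯.Dl q B).one_mem

theorem cl_ro (B : Subgroup G) (r : R) : 𝒯.ro r ∈ 𝒯.cl B := fun q =>
  Subfield.subset_closure (Or.inl ⟨r, rfl⟩)

theorem cl_al {B : Subgroup G} {a : A} (h : (a : G) ∈ B) : 𝒯.al a ∈ 𝒯.cl B := fun q =>
  Subfield.subset_closure (Or.inr ⟨a, h, rfl⟩)

theorem cl_add {B : Subgroup G} {x y : ∀ q, 𝒯.D q} (hx : x ∈ 𝒯.cl B) (hy : y ∈ 𝒯.cl B) :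
    x + y ∈ 𝒯.cl B := fun q => (𝒯.Dl q B).add_mem (hx q) (hy q)

theorem cl_neg {B : Subgroup G} {x : ∀ q, 𝒯.D q} (hx : x ∈ 𝒯.cl B) : -x ∈ 𝒯.cl B := fun q => (𝒯.Dl q B).neg_mem (hx q)

theorem cl_sub {B : Subgroup G} {x y : ∀ q, 𝒯.D q} (hx : x ∈ 𝒯.cl B) (hy : y ∈ 𝒯.cl B) :
    x - y ∈ 𝒯.cl B := fun q => (𝒯.Dl q B).sub_mem (hx q) (hy q)

theorem cl_mul {B : Subgroup G} {x y : ∀ q, 𝒯.D q} (hx : x ∈ 𝒯.cl B) (hy : y ∈ 𝒯.cl B) :
    x * y ∈ 𝒯.cl B := fun q => (𝒯.Dl q B).mul_mem (hx q) (hy q)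

theorem cl_inv {B : Subgroup G} {x : ∀ q, 𝒯.D q} (hx : x ∈ 𝒯.cl B) : x⁻¹ ∈ 𝒯.cl B := fun q => (𝒯.Dl q B).inv_mem (hx q)

theorem cl_sum {B : Subgroup G} {F : Finset ℝ} {w : ℝ → ∀ q, 𝒯.D q}
    (h : ∀ d ∈ F, w d ∈ 𝒯.cl B) : ∑ d ∈ F, w d ∈ 𝒯.cl B := by
  intro q
  rw [Finset.sum_apply]
  exact (𝒯.Dl q B).sum_mem (fun d hd => h d hd q)

theorem Gen_cl {B : Subgroup G} {x : ∀ q, 𝒯.D q} (h : 𝒯.Gen B x) : x ∈ 𝒯.cl B := by
  induction h with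
  | ro r => exact 𝒯.cl_ro B r
  | al a ha => exact 𝒯.cl_al ha
  | add x y _ _ ihx ihy => exact 𝒯.cl_add ihx ihy
  | neg x _ ih => exact 𝒯.cl_neg ih
  | mul x y _ _ ihx ihy => exact 𝒯.cl_mul ihx ihy
  | inv x _ ih => exact 𝒯.cl_inv ih

theorem Gen_mono {B B' : Subgroup G} (hB : B ≤ B') {x : ∀ q, 𝒯.D q} (h : 𝒯.Gen B x) :
    𝒯.Gen B' x := by
  induction h with
  | ro r => exact .ro r
  | al a ha => exact .al a (hB ha)
  | add x y _ _ ihx ihy => exact .add x y ihx ihy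
  | neg x _ ih => exact .neg x ih
  | mul x y _ _ ihx ihy => exact .mul x y ihx ihy
  | inv x _ ih => exact .inv x ih

/-! ### the families `al`, `ro` -/

theorem al_mul (a b : A) : 𝒯.al (a * b) = 𝒯.al a * 𝒯.al b := by
  funext q; exact map_mul (𝒯.α q) a b

theorem al_one : 𝒯.al 1 = 1 := by
  funext q; exact map_one (𝒯.α q)

theorem al_inv_mul (a : A) (x : ∀ q, 𝒯.D q) : 𝒯.al a⁻¹ * (𝒯.al a * x) = x := by
  rw [← mul_assoc, ← al_mul, inv_mul_cancel, al_one, one_mul]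

theorem al_mul_inv (a : A) (x : ∀ q, 𝒯.D q) : 𝒯.al a * (𝒯.al a⁻¹ * x) = x := by
  rw [← mul_assoc, ← al_mul, mul_inv_cancel, al_one, one_mul]

theorem mul_al_inv (a : A) (x : ∀ q, 𝒯.D q) : x * 𝒯.al a * 𝒯.al a⁻¹ = x := by
  rw [mul_assoc, ← al_mul, mul_inv_cancel, al_one, mul_one]

theorem mul_inv_al (a : A) (x : ∀ q, 𝒯.D q) : x * 𝒯.al a⁻¹ * 𝒯.al a = x := by
  rw [mul_assoc, ← al_mul, inv_mul_cancel, al_one, mul_one]

theorem al_ne (a : A) (q : ι) : 𝒯.al a q ≠ 0 := by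
  intro h
  have h1 : 𝒯.al (a * a⁻¹) q = 𝒯.al a q * 𝒯.al a⁻¹ q := by rw [al_mul]; rfl
  rw [h, zero_mul, mul_inv_cancel, al_one] at h1
  exact one_ne_zero h1

theorem ro_ne {r : R} (hr : r ≠ 0) (q : ι) : 𝒯.ro r q ≠ 0 := by
  intro h
  exact hr ((map_eq_zero (𝒯.ρ q)).1 h)

theorem ro_add (r r' : R) : 𝒯.ro (r + r') = 𝒯.ro r + 𝒯.ro r' := by
  funext q; exact map_add (𝒯.ρ q) r r'

theorem ro_mul (r r' : R) : 𝒯.ro (r * r') = 𝒯.ro r * 𝒯.ro r' := by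
  funext q; exact map_mul (𝒯.ρ q) r r'

theorem ro_one : 𝒯.ro 1 = 1 := by
  funext q; exact map_one (𝒯.ρ q)

theorem ro_zero : 𝒯.ro 0 = 0 := by
  funext q; exact map_zero (𝒯.ρ q)

theorem ro_al (r : R) (a : A) : 𝒯.ro r * 𝒯.al a = 𝒯.al a * 𝒯.ro r := by
  funext q; exact 𝒯.comm q r a

theorem not_mem_Dl_of_level {q : ι} {k : G} {i : S.I} {b : A} (h1 : (b : G) ∈ S.Le k i)
    (h2 : (b : G) ∉ S.Lt k i) : 𝒯.α q b ∉ 𝒯.Dl q (S.Lt k i) := by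
  intro h
  have h3 := 𝒯.jf q k i 2 ![1, b] ![𝒯.α q b, -1] ?_ ?_ ?_ ?_ 1
  · simp at h3
  · intro l
    fin_cases l
    · exact (S.Le k i).one_mem
    · exact h1
  · have h5 : S.deg k i (b : G) ≠ 0 := fun h6 => h2 ((S.deg_zero_iff h1).1 h6)
    intro l l' hl
    fin_cases l <;> fin_cases l'
    · rfl
    · exfalso; apply h5
      have : S.deg k i ((1 : A) : G) = S.deg k i (b : G) := hl
      rw [← this]; exact S.deg_one k i
    · exfalso; apply h5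
      have : S.deg k i (b : G) = S.deg k i ((1 : A) : G) := hl
      rw [this]; exact S.deg_one k i
    · rfl
  · intro l
    fin_cases l
    · exact h
    · exact (𝒯.Dl q (S.Lt k i)).neg_mem (𝒯.Dl q (S.Lt k i)).one_mem
  · rw [Fin.sum_univ_two]
    simp

theorem star_Le {q : ι} {k : G} {i : S.I} {b : A} (h : 𝒯.α q b ∈ 𝒯.Dl q (S.Le k i)) :
    (b : G) ∈ S.Le k i := by
  by_contra hb
  have hb1 : (b : G) ≠ 1 := by
    intro h1; rw [h1] at hb; exact hb (S.Le k i).one_mem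
  obtain ⟨i', h1, h2, h3⟩ := S.exists_level k hb1
  have hlt : i < i' := by
    have h4 : ¬ S.lev (k⁻¹ * (b : G) * k) ≤ (i : WithBot S.I) := hb
    rw [h3, not_le] at h4
    exact WithBot.coe_lt_coe.1 h4
  exact 𝒯.not_mem_Dl_of_level h1 h2 (𝒯.Dl_mono q (S.Le_le_Lt k hlt) h)

theorem star_Lt {q : ι} {k : G} {i : S.I} {b : A} (h : 𝒯.α q b ∈ 𝒯.Dl q (S.Lt k i)) :
    (b : G) ∈ S.Lt k i := by
  by_contra hb
  exact 𝒯.not_mem_Dl_of_level (𝒯.star_Le (𝒯.Dl_mono q (S.Lt_le_Le k i) h)) hb h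

/-- an element of `A` which is an image of `R` in one component is trivial -/
theorem star_one {q : ι} {r : R} {b : A} (h : 𝒯.α q b = 𝒯.ρ q r) : b = 1 := by
  by_contra hb
  have hb1 : (b : G) ≠ 1 := fun h1 => hb (Subtype.ext h1)
  obtain ⟨i, _, h2, _⟩ := S.exists_level 1 hb1
  apply h2
  apply 𝒯.star_Lt (q := q)
  rw [h]
  exact 𝒯.cl_ro _ r q

/-! ### valuations of families -/

theorem IsVal_neg {q : ι} {k : G} {i : S.I} {v : 𝒯.D q → WithTop ℝ} (hv : 𝒯.IsVal q k i v)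
    {x : 𝒯.D q} (hx : x ∈ 𝒯.Dl q (S.Le k i)) : v (-x) = v x := by
  have h1 : v (-1) = 0 :=
    hv.const _ ((𝒯.Dl q (S.Lt k i)).neg_mem (𝒯.Dl q (S.Lt k i)).one_mem)
      (neg_ne_zero.2 one_ne_zero)
  have h2 := hv.mul (-1) ((𝒯.Dl q (S.Le k i)).neg_mem (𝒯.Dl q (S.Le k i)).one_mem) x hx
  rw [neg_one_mul, h1, zero_add] at h2
  exact h2

theorem IsVal_sub {q : ι} {k : G} {i : S.I} {v : 𝒯.D q → WithTop ℝ} (hv : 𝒯.IsVal q k i v)
    {x y : 𝒯.D q} (hx : x ∈ 𝒯.Dl q (S.Le k i)) (hy : y ∈ 𝒯.Dl q (S.Le k i)) :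
    min (v x) (v y) ≤ v (x - y) := by
  have h := hv.add x hx (-y) ((𝒯.Dl q (S.Le k i)).neg_mem hy)
  rw [𝒯.IsVal_neg hv hy, ← sub_eq_add_neg] at h
  exact h

/-- the value of a sum of elements of different values -/
theorem IsVal_add_eq {q : ι} {k : G} {i : S.I} {v : 𝒯.D q → WithTop ℝ} (hv : 𝒯.IsVal q k i v)
    {x y : 𝒯.D q} (hx : x ∈ 𝒯.Dl q (S.Le k i)) (hy : y ∈ 𝒯.Dl q (S.Le k i)) (h : v x < v y) :
    v (x + y) = v x := by
  refine le_antisymm ?_ ?_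
  · have h1 := 𝒯.IsVal_sub hv ((𝒯.Dl q (S.Le k i)).add_mem hx hy) hy
    rw [add_sub_cancel_right] at h1
    rcases min_le_iff.1 h1 with h2 | h2
    · exact h2
    · exact absurd h2 (not_le.2 h)
  · have h1 := hv.add x hx y hy
    rwa [min_eq_left h.le] at h1

theorem val_sum_gt {k : G} {i : S.I} {q : ι} {F : Finset ℝ} {w : ℝ → ∀ q, 𝒯.D q} {β : ℝ}
    (hcl : ∀ d ∈ F, w d ∈ 𝒯.cl (S.Le k i)) (h : ∀ d ∈ F, (β : WithTop ℝ) < 𝒯.val q k i (w d q)) :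
    (β : WithTop ℝ) < 𝒯.val q k i ((∑ d ∈ F, w d) q) := by
  have hv := 𝒯.val_spec q k i
  induction F using Finset.induction_on with
  | empty =>
    rw [Finset.sum_empty]
    have : 𝒯.val q k i ((0 : ∀ q, 𝒯.D q) q) = ⊤ :=
      (hv.top _ (𝒯.Dl q (S.Le k i)).zero_mem).2 rfl
    rw [this]; exact WithTop.coe_lt_top β
  | insert d F hd ih =>
    rw [Finset.sum_insert hd]
    have h1 := ih (fun d hd => hcl d (Finset.mem_insert_of_mem hd))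
      (fun d hd => h d (Finset.mem_insert_of_mem hd))
    have h2 := h d (Finset.mem_insert_self d F)
    refine lt_of_lt_of_le (lt_min h2 h1) (hv.add _ (hcl d (Finset.mem_insert_self d F) q) _
      (𝒯.cl_sum (fun d hd => hcl d (Finset.mem_insert_of_mem hd)) q))

theorem Big_add {k : G} {i : S.I} {β : ℝ} {z z' : ∀ q, 𝒯.D q} (h : 𝒯.Big k i β z)
    (h' : 𝒯.Big k i β z') : 𝒯.Big k i β (z + z') := by
  refine ⟨𝒯.cl_add h.1 h'.1, fun q => ?_⟩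
  exact lt_of_lt_of_le (lt_min (h.2 q) (h'.2 q))
    ((𝒯.val_spec q k i).add _ (h.1 q) _ (h'.1 q))

theorem Big_neg {k : G} {i : S.I} {β : ℝ} {z : ∀ q, 𝒯.D q} (h : 𝒯.Big k i β z) :
    𝒯.Big k i β (-z) := by
  refine ⟨𝒯.cl_neg h.1, fun q => ?_⟩
  have h1 : 𝒯.val q k i (-(z q)) = 𝒯.val q k i (z q) :=
    𝒯.IsVal_neg (𝒯.val_spec q k i) (h.1 q)
  have h2 := h.2 q
  rw [← h1] at h2
  exact h2

theorem Big_mono {k : G} {i : S.I} {β β' : ℝ} (hβ : β' ≤ β) {z : ∀ q, 𝒯.D q}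
    (h : 𝒯.Big k i β z) : 𝒯.Big k i β' z := by
  exact ⟨h.1, fun q => lt_of_le_of_lt (WithTop.coe_le_coe.2 hβ) (h.2 q)⟩

theorem Big_zero (k : G) (i : S.I) (β : ℝ) : 𝒯.Big k i β 0 := by
  refine ⟨𝒯.cl_zero _, fun q => ?_⟩
  have : 𝒯.val q k i ((0 : ∀ q, 𝒯.D q) q) = ⊤ :=
    ((𝒯.val_spec q k i).top _ (𝒯.Dl q (S.Le k i)).zero_mem).2 rfl
  rw [this]; exact WithTop.coe_lt_top β

/-- a family in `cl (Lt k i)` with positive values is zero -/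
theorem eq_zero_of_Big {k : G} {i : S.I} {β : ℝ} (hβ : 0 ≤ β) {z : ∀ q, 𝒯.D q}
    (hz : z ∈ 𝒯.cl (S.Lt k i)) (h : 𝒯.Big k i β z) : z = 0 := by
  funext q
  by_contra h0
  have h1 := (𝒯.val_spec q k i).const _ (hz q) h0
  have h2 := h.2 q
  rw [h1] at h2
  have h3 : β < 0 := WithTop.coe_lt_coe.1 h2
  exact absurd h3 (not_lt.2 hβ)

theorem Hm_cl {P : Set (∀ q, 𝒯.D q)} {k : G} {i : S.I} {d : ℝ} {z : ∀ q, 𝒯.D q}
    (h : z ∈ 𝒯.Hm P k i d) : z ∈ 𝒯.cl (S.Le k i) := by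
  obtain ⟨a, ha, _, c, hc, _, rfl⟩ := h
  exact 𝒯.cl_mul (𝒯.cl_al ha) (𝒯.cl_mono (S.Lt_le_Le k i) hc)

theorem Hm_val {P : Set (∀ q, 𝒯.D q)} {k : G} {i : S.I} {d : ℝ} {z : ∀ q, 𝒯.D q}
    (h : z ∈ 𝒯.Hm P k i d) (q : ι) : z q = 0 ∨ 𝒯.val q k i (z q) = (d : WithTop ℝ) := by
  obtain ⟨a, ha, hd, c, hc, _, rfl⟩ := h
  by_cases h0 : c q = 0
  · left
    show 𝒯.al a q * c q = 0
    rw [h0, mul_zero]
  · right
    have hv := 𝒯.val_spec q k i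
    have h1 := hv.mul (𝒯.al a q) (𝒯.cl_al ha q) (c q) (𝒯.cl_mono (S.Lt_le_Le k i) hc q)
    have h2 : 𝒯.val q k i (𝒯.al a q) = ((S.deg k i a : ℝ) : WithTop ℝ) := hv.deg a ha
    rw [hv.const _ (hc q) h0, add_zero, h2, hd] at h1
    exact h1

theorem Hm_mono {P P' : Set (∀ q, 𝒯.D q)} (hP : P ⊆ P') {k : G} {i : S.I} {d : ℝ} :
    𝒯.Hm P k i d ⊆ 𝒯.Hm P' k i d := by
  rintro z ⟨a, ha, hd, c, hc, hcP, rfl⟩
  exact ⟨a, ha, hd, c, hc, hP hcP, rfl⟩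

theorem App_mono {P P' : Set (∀ q, 𝒯.D q)} (hP : P ⊆ P') {k : G} {i : S.I} {z : ∀ q, 𝒯.D q}
    (h : 𝒯.App P k i z) : 𝒯.App P' k i z := by
  intro β
  obtain ⟨F, w, h1, h2, h3⟩ := h β
  exact ⟨F, w, h1, fun d hd => 𝒯.Hm_mono hP (h2 d hd), h3⟩

theorem App_zero (P : Set (∀ q, 𝒯.D q)) (k : G) (i : S.I) : 𝒯.App P k i 0 := by
  intro β
  refine ⟨∅, fun _ => 0, by simp, by simp, ?_⟩
  rw [Finset.sum_empty, sub_zero]
  exact 𝒯.Big_zero k i β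

theorem App_Big {P : Set (∀ q, 𝒯.D q)} {k : G} {i : S.I} {z : ∀ q, 𝒯.D q}
    (h : 𝒯.App P k i z) : 𝒯.Big k i 0 z := by
  obtain ⟨F, w, h1, h2, h3⟩ := h 0
  have h4 : 𝒯.Big k i 0 (∑ d ∈ F, w d) := by
    refine ⟨𝒯.cl_sum (fun d hd => 𝒯.Hm_cl (h2 d hd)), fun q => ?_⟩
    refine 𝒯.val_sum_gt (fun d hd => 𝒯.Hm_cl (h2 d hd)) (fun d hd => ?_)
    rcases 𝒯.Hm_val (h2 d hd) q with h5 | h5
    · rw [h5, ((𝒯.val_spec q k i).top _ (𝒯.Dl q (S.Le k i)).zero_mem).2 rfl]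
      exact WithTop.coe_lt_top _
    · rw [h5]; exact WithTop.coe_lt_coe.2 (h1 d hd)
  have h5 := 𝒯.Big_add h3 h4
  rwa [sub_add_cancel] at h5

/-- independence of components of different degrees -/
theorem Hm_unique {P P' : Set (∀ q, 𝒯.D q)} {k : G} {i : S.I} {β : ℝ} {F F' : Finset ℝ}
    {w w' : ℝ → ∀ q, 𝒯.D q} {z : ∀ q, 𝒯.D q}
    (hw : ∀ d ∈ F, w d ∈ 𝒯.Hm P k i d) (hw' : ∀ d ∈ F', w' d ∈ 𝒯.Hm P' k i d)
    (h : 𝒯.Big k i β (z - ∑ d ∈ F, w d)) (h' : 𝒯.Big k i β (z - ∑ d ∈ F', w' d)) :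
    ∀ d ≤ β, (if d ∈ F then w d else 0) = (if d ∈ F' then w' d else 0) := by
  classical
  -- the component of degree `d` of the difference
  set δ : ℝ → ∀ q, 𝒯.D q := fun d => (if d ∈ F then w d else 0) - (if d ∈ F' then w' d else 0)
    with hδ
  have hcl : ∀ d, δ d ∈ 𝒯.cl (S.Le k i) := by
    intro d
    refine 𝒯.cl_sub ?_ ?_
    · by_cases hd : d ∈ F
      · rw [if_pos hd]; exact 𝒯.Hm_cl (hw d hd)
      · rw [if_neg hd]; exact 𝒯.cl_zero _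
    · by_cases hd : d ∈ F'
      · rw [if_pos hd]; exact 𝒯.Hm_cl (hw' d hd)
      · rw [if_neg hd]; exact 𝒯.cl_zero _
  have hsum : ∑ d ∈ F ∪ F', δ d = ∑ d ∈ F, w d - ∑ d ∈ F', w' d := by
    rw [hδ, Finset.sum_sub_distrib]
    congr 1
    · rw [← Finset.sum_filter]
      congr 1
      ext d; simp only [Finset.mem_filter, Finset.mem_union]; tauto
    · rw [← Finset.sum_filter]
      congr 1
      ext d; simp only [Finset.mem_filter, Finset.mem_union]; tauto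
  have hbig : 𝒯.Big k i β (∑ d ∈ F ∪ F', δ d) := by
    rw [hsum]
    have h1 := 𝒯.Big_add h' (𝒯.Big_neg h)
    have h2 : z - ∑ d ∈ F', w' d + -(z - ∑ d ∈ F, w d) = ∑ d ∈ F, w d - ∑ d ∈ F', w' d := by
      abel
    rwa [h2] at h1
  -- value of the components
  have hval : ∀ d q, δ d q ≠ 0 → 𝒯.val q k i (δ d q) = (d : WithTop ℝ) := by
    intro d q hne
    have hv := 𝒯.val_spec q k i
    -- both pieces are homogeneous
    have key : ∀ (z z' : ∀ q, 𝒯.D q), z ∈ 𝒯.Hm P k i d → z' ∈ 𝒯.Hm P' k i d →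
        z q - z' q ≠ 0 → 𝒯.val q k i (z q - z' q) = (d : WithTop ℝ) := by
      rintro z z' ⟨a, ha, had, c, hc, _, rfl⟩ ⟨a', ha', had', c', hc', _, rfl⟩ hne
      have ha'' : ((a⁻¹ * a' : A) : G) ∈ S.Lt k i := by
        have h1 : ((a⁻¹ * a' : A) : G) = (a : G)⁻¹ * (a' : G) := rfl
        have h2 : (a : G)⁻¹ * (a' : G) ∈ S.Le k i := (S.Le k i).mul_mem ((S.Le k i).inv_mem ha) ha'
        rw [h1, ← S.deg_zero_iff h2, S.deg_mul ((S.Le k i).inv_mem ha) ha', S.deg_inv ha, had,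
          had']
        ring
      have h3 : 𝒯.al a * c - 𝒯.al a' * c' = 𝒯.al a * (c - 𝒯.al (a⁻¹ * a') * c') := by
        rw [mul_sub, ← mul_assoc, ← al_mul, mul_inv_cancel_left]
      have h4 : c - 𝒯.al (a⁻¹ * a') * c' ∈ 𝒯.cl (S.Lt k i) :=
        𝒯.cl_sub hc (𝒯.cl_mul (𝒯.cl_al ha'') hc')
      have h5 : (𝒯.al a * c) q - (𝒯.al a' * c') q
          = 𝒯.al a q * (c - 𝒯.al (a⁻¹ * a') * c') q := congrFun h3 q
      rw [h5] at hne ⊢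
      have h6 : (c - 𝒯.al (a⁻¹ * a') * c') q ≠ 0 := fun h => hne (by rw [h, mul_zero])
      have h7 : 𝒯.val q k i (𝒯.al a q) = ((S.deg k i a : ℝ) : WithTop ℝ) := hv.deg a ha
      rw [hv.mul _ (𝒯.cl_al ha q) _ (𝒯.cl_mono (S.Lt_le_Le k i) h4 q), hv.const _ (h4 q) h6,
        add_zero, h7, had]
    have hne' : (if d ∈ F then w d else 0) q - (if d ∈ F' then w' d else 0) q ≠ 0 := hne
    show 𝒯.val q k i ((if d ∈ F then w d else 0) q - (if d ∈ F' then w' d else 0) q) = _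
    by_cases hd : d ∈ F
    · by_cases hd' : d ∈ F'
      · rw [if_pos hd, if_pos hd'] at hne' ⊢
        exact key _ _ (hw d hd) (hw' d hd') hne'
      · rw [if_pos hd, if_neg hd', Pi.zero_apply, sub_zero] at hne' ⊢
        rcases 𝒯.Hm_val (hw d hd) q with h1 | h1
        · exact absurd h1 hne'
        · exact h1
    · by_cases hd' : d ∈ F'
      · rw [if_neg hd, if_pos hd', Pi.zero_apply, zero_sub] at hne' ⊢
        rcases 𝒯.Hm_val (hw' d hd') q with h1 | h1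
        · exact absurd (by rw [h1, neg_zero]) hne'
        · rw [𝒯.IsVal_neg hv (𝒯.Hm_cl (hw' d hd') q)]; exact h1
      · rw [if_neg hd, if_neg hd', Pi.zero_apply, sub_zero] at hne'
        exact absurd rfl hne'
  intro d hd
  rw [← sub_eq_zero]
  show δ d = 0
  funext q
  by_contra hne
  -- the smallest degree with nonzero component
  have hdU : ∀ e, δ e q ≠ 0 → e ∈ F ∪ F' := by
    intro e he
    by_contra h1
    rw [Finset.mem_union, not_or] at h1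
    apply he
    show (if e ∈ F then w e else 0) q - (if e ∈ F' then w' e else 0) q = 0
    rw [if_neg h1.1, if_neg h1.2]; exact sub_self _
  set U := (F ∪ F').filter (fun e => δ e q ≠ 0) with hU
  have hdmem : d ∈ U := Finset.mem_filter.2 ⟨hdU d hne, hne⟩
  have hUne : U.Nonempty := ⟨d, hdmem⟩
  set m := U.min' hUne with hm
  have hmU : m ∈ U := Finset.min'_mem U hUne
  have hmd : m ≤ d := Finset.min'_le U d hdmem
  have hmF : m ∈ F ∪ F' := (Finset.mem_filter.1 hmU).1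
  have hmne : δ m q ≠ 0 := (Finset.mem_filter.1 hmU).2
  have hv := 𝒯.val_spec q k i
  have h1 : (∑ e ∈ F ∪ F', δ e) q = δ m q + (∑ e ∈ (F ∪ F').erase m, δ e) q := by
    rw [← Finset.add_sum_erase _ _ hmF]; rfl
  have h2 : (m : WithTop ℝ) < 𝒯.val q k i ((∑ e ∈ (F ∪ F').erase m, δ e) q) := by
    refine 𝒯.val_sum_gt (fun e _ => hcl e) (fun e he => ?_)
    by_cases he0 : δ e q = 0
    · rw [he0, (hv.top _ (𝒯.Dl q (S.Le k i)).zero_mem).2 rfl]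
      exact WithTop.coe_lt_top _
    · rw [hval e q he0]
      refine WithTop.coe_lt_coe.2 (lt_of_le_of_ne (Finset.min'_le U e ?_) ?_)
      · exact Finset.mem_filter.2 ⟨Finset.mem_of_mem_erase he, he0⟩
      · exact (Finset.ne_of_mem_erase he).symm
  have h3 := 𝒯.IsVal_add_eq hv (hcl m q)
    (𝒯.cl_sum (F := (F ∪ F').erase m) (w := δ) (fun e _ => hcl e) q)
    (by rw [hval m q hmne]; exact h2)
  have h4 := hbig.2 q
  rw [h1, h3, hval m q hmne] at h4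
  have h5 : β < m := WithTop.coe_lt_coe.1 h4
  linarith

/-! ### normalized families -/

theorem Nrm_mono {P P' : Set (∀ q, 𝒯.D q)} (hP : P ⊆ P') {k : G} {u : ∀ q, 𝒯.D q}
    (h : 𝒯.Nrm P k u) : 𝒯.Nrm P' k u := by
  induction h with
  | scal r hr => exact .scal r hr
  | step i u u0 hu h0 hPu _ hA ih => exact .step i u u0 hu h0 (hP hPu) ih (𝒯.App_mono hP hA)

theorem Nrm_val {P : Set (∀ q, 𝒯.D q)} {k : G} {u : ∀ q, 𝒯.D q} (h : 𝒯.Nrm P k u) :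
    (∀ q, u q ≠ 0) ∧ ∀ i, u ∈ 𝒯.cl (S.Le k i) → ∀ q, 𝒯.val q k i (u q) = 0 := by
  induction h with
  | scal r hr =>
    refine ⟨fun q => 𝒯.ro_ne hr q, fun i _ q => ?_⟩
    exact (𝒯.val_spec q k i).const _ (𝒯.cl_ro _ r q) (𝒯.ro_ne hr q)
  | step i u u0 hu h0 hPu hN hA ih =>
    have hb := 𝒯.App_Big hA
    have hval : ∀ q, 𝒯.val q k i (u q) = 0 := by
      intro q
      have hv := 𝒯.val_spec q k i
      have h1 : 𝒯.val q k i (u0 q) = 0 := hv.const _ (h0 q) (ih.1 q)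
      have h2 := 𝒯.IsVal_add_eq hv (𝒯.cl_mono (S.Lt_le_Le k i) h0 q) (hb.1 q)
        (by rw [h1]; exact hb.2 q)
      have h3 : u0 q + (u - u0) q = u q := by
        show u0 q + (u q - u0 q) = u q
        abel
      rw [h3, h1] at h2
      exact h2
    have hne : ∀ q, u q ≠ 0 := by
      intro q h1
      have h2 := hval q
      rw [h1, ((𝒯.val_spec q k i).top _ (𝒯.Dl q (S.Le k i)).zero_mem).2 rfl] at h2
      exact absurd h2 (by simp)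
    refine ⟨hne, fun i' hu' q => ?_⟩
    rcases lt_trichotomy i i' with h1 | h1 | h1
    · exact (𝒯.val_spec q k i').const _ (𝒯.cl_mono (S.Le_le_Lt k h1) hu q) (hne q)
    · subst h1; exact hval q
    · have h2 : u ∈ 𝒯.cl (S.Lt k i) := 𝒯.cl_mono (S.Le_le_Lt k h1) hu'
      have h3 : u - u0 = 0 := 𝒯.eq_zero_of_Big le_rfl (𝒯.cl_sub h2 h0) hb
      have h4 : u = u0 := sub_eq_zero.1 h3
      rw [h4]
      exact ih.2 i' (h4 ▸ hu') q

theorem Nrm_level {P : Set (∀ q, 𝒯.D q)} {k : G} {u : ∀ q, 𝒯.D q} (h : 𝒯.Nrm P k u)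
    {i : S.I} (hu : u ∈ 𝒯.cl (S.Le k i)) : u ∈ 𝒯.cl (S.Lt k i) ∨
      ∃ u0, u0 ∈ 𝒯.cl (S.Lt k i) ∧ u0 ∈ P ∧ 𝒯.Nrm P k u0 ∧ 𝒯.App P k i (u - u0) := by
  induction h with
  | scal r hr => exact Or.inl (𝒯.cl_ro _ r)
  | step i' u u0 hu' h0 hPu hN hA ih =>
    rcases lt_trichotomy i' i with h1 | h1 | h1
    · exact Or.inl (𝒯.cl_mono (S.Le_le_Lt k h1) hu')
    · subst h1; exact Or.inr ⟨u0, h0, hPu, hN, hA⟩
    · have h2 : u ∈ 𝒯.cl (S.Lt k i') := 𝒯.cl_mono (S.Le_le_Lt k h1) hu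
      have h3 : u - u0 = 0 := 𝒯.eq_zero_of_Big le_rfl (𝒯.cl_sub h2 h0) (𝒯.App_Big hA)
      have h4 : u = u0 := sub_eq_zero.1 h3
      subst h4
      exact ih hu

/-! ### the least fixed point -/

theorem Phi_mono {P P' : Set (∀ q, 𝒯.D q)} (hP : P ⊆ P') : 𝒯.Phi P ⊆ 𝒯.Phi P' := by
  rintro x ⟨h1, h2⟩
  refine ⟨h1, ?_⟩
  rcases h2 with h2 | ⟨h2, h3⟩
  · exact Or.inl h2
  · refine Or.inr ⟨fun k => ?_, fun k => ?_⟩
    · obtain ⟨a, ha⟩ := h2 k; exact ⟨a, 𝒯.Nrm_mono hP ha⟩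
    · obtain ⟨a, ha⟩ := h3 k; exact ⟨a, 𝒯.Nrm_mono hP ha⟩

theorem T_fix : 𝒯.Phi 𝒯.T = 𝒯.T := by
  have h1 : 𝒯.Phi 𝒯.T ⊆ 𝒯.T := by
    intro x hx P hP
    have h2 : 𝒯.T ⊆ P := fun y hy => hy P hP
    exact hP (𝒯.Phi_mono h2 hx)
  refine Set.Subset.antisymm h1 ?_
  intro x hx
  exact hx (𝒯.Phi 𝒯.T) (𝒯.Phi_mono h1)

theorem T_ind {P : Set (∀ q, 𝒯.D q)} (h : 𝒯.Phi (P ∩ 𝒯.T) ⊆ P) : 𝒯.T ⊆ P := by
  have h1 : 𝒯.Phi (P ∩ 𝒯.T) ⊆ 𝒯.T := by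
    have h2 := 𝒯.Phi_mono (P := P ∩ 𝒯.T) (P' := 𝒯.T) Set.inter_subset_right
    rwa [𝒯.T_fix] at h2
  intro x hx
  exact (hx (P ∩ 𝒯.T) (Set.subset_inter h h1)).1

theorem T_gen {x : ∀ q, 𝒯.D q} (h : x ∈ 𝒯.T) : 𝒯.Gen ⊤ x := by
  rw [← 𝒯.T_fix] at h; exact h.1

theorem T_zero : (0 : ∀ q, 𝒯.D q) ∈ 𝒯.T := by
  rw [← 𝒯.T_fix]
  refine ⟨?_, Or.inl rfl⟩
  rw [← 𝒯.ro_zero]; exact .ro 0

theorem T_nz {x : ∀ q, 𝒯.D q} (h : x ∈ 𝒯.T) : x = 0 ∨ ∀ q, x q ≠ 0 := by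
  rw [← 𝒯.T_fix] at h
  rcases h.2 with h1 | ⟨h1, _⟩
  · exact Or.inl h1
  · right
    intro q hq
    obtain ⟨a, ha⟩ := h1 1
    apply (𝒯.Nrm_val ha).1 q
    show 𝒯.al a⁻¹ q * x q = 0
    rw [hq, mul_zero]

end TSet

end Pool.Agent.HFT
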