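import Pool.Agent.HFT.Basic

/-! # HFT: expansions along a Conradian system, definitions (helper49) -/

set_option autoImplicit false

universe u w

namespace Pool.Agent.HFT

namespace TSet

variable {G : Type u} [Group G] {S : ConradSys G} {R : Type u} [DivisionRing R] {A : Subgroup G}
  {ι : Type} (𝒯 : TSet.{u, w} S R A ι)

/-- the division subring of `D q` generated by `R` and `A ∩ B` -/
def Dl (q : ι) (B : Subgroup G) : Subfield (𝒯.D q) := gen (𝒯.α q) (𝒯.ρ q) B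

/-- families with all components in `Dl q B` -/
def cl (B : Subgroup G) : Set (∀ q, 𝒯.D q) := {z | ∀ q, z q ∈ 𝒯.Dl q B}

/-- the family of the images of `a ∈ A` -/
def al (a : A) : ∀ q, 𝒯.D q := fun q => 𝒯.α q a

/-- the family of the images of `r ∈ R` -/
def ro (r : R) : ∀ q, 𝒯.D q := fun q => 𝒯.ρ q r

/-- families obtained from `R` and `A ∩ B` by rational operations -/
inductive Gen (B : Subgroup G) : (∀ q, 𝒯.D q) → Prop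
  | ro (r : R) : Gen B (𝒯.ro r)
  | al (a : A) (ha : (a : G) ∈ B) : Gen B (𝒯.al a)
  | add (x y : ∀ q, 𝒯.D q) (hx : Gen B x) (hy : Gen B y) : Gen B (x + y)
  | neg (x : ∀ q, 𝒯.D q) (hx : Gen B x) : Gen B (-x)
  | mul (x y : ∀ q, 𝒯.D q) (hx : Gen B x) (hy : Gen B y) : Gen B (x * y)
  | inv (x : ∀ q, 𝒯.D q) (hx : Gen B x) : Gen B x⁻¹

/-- `v` is the valuation of `Dl q (Le k i)` given by the degree at level `i` seen from `k` -/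
structure IsVal (q : ι) (k : G) (i : S.I) (v : 𝒯.D q → WithTop ℝ) : Prop where
  top : ∀ x ∈ 𝒯.Dl q (S.Le k i), (v x = ⊤ ↔ x = 0)
  mul : ∀ x ∈ 𝒯.Dl q (S.Le k i), ∀ y ∈ 𝒯.Dl q (S.Le k i), v (x * y) = v x + v y
  add : ∀ x ∈ 𝒯.Dl q (S.Le k i), ∀ y ∈ 𝒯.Dl q (S.Le k i), min (v x) (v y) ≤ v (x + y)
  const : ∀ x ∈ 𝒯.Dl q (S.Lt k i), x ≠ 0 → v x = 0
  deg : ∀ a : A, (a : G) ∈ S.Le k i → v (𝒯.α q a) = ((S.deg k i a : ℝ) : WithTop ℝ)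

open Classical in
/-- the valuation at level `i` seen from `k` -/
noncomputable def val (q : ι) (k : G) (i : S.I) : 𝒯.D q → WithTop ℝ :=
  if h : ∃ v, 𝒯.IsVal q k i v then h.choose else fun _ => 0

/-- all components have valuation larger than `β` -/
def Big (k : G) (i : S.I) (β : ℝ) (z : ∀ q, 𝒯.D q) : Prop :=
  z ∈ 𝒯.cl (S.Le k i) ∧ ∀ q, (β : WithTop ℝ) < 𝒯.val q k i (z q)

/-- homogeneous families of degree `d` with coefficient in `P` -/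
def Hm (P : Set (∀ q, 𝒯.D q)) (k : G) (i : S.I) (d : ℝ) : Set (∀ q, 𝒯.D q) :=
  {z | ∃ a : A, (a : G) ∈ S.Le k i ∧ S.deg k i a = d ∧ ∃ c, c ∈ 𝒯.cl (S.Lt k i) ∧ c ∈ P ∧
    z = 𝒯.al a * c}

/-- `z` is a limit of finite sums of homogeneous families of positive degrees with coefficients
in `P` -/
def App (P : Set (∀ q, 𝒯.D q)) (k : G) (i : S.I) (z : ∀ q, 𝒯.D q) : Prop :=
  ∀ β : ℝ, ∃ (F : Finset ℝ) (w : ℝ → ∀ q, 𝒯.D q), (∀ d ∈ F, 0 < d) ∧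
    (∀ d ∈ F, w d ∈ 𝒯.Hm P k i d) ∧ 𝒯.Big k i β (z - ∑ d ∈ F, w d)

/-- the same without the sign condition on the degrees -/
def XP (P : Set (∀ q, 𝒯.D q)) (k : G) (i : S.I) (z : ∀ q, 𝒯.D q) : Prop :=
  ∀ β : ℝ, ∃ (F : Finset ℝ) (w : ℝ → ∀ q, 𝒯.D q),
    (∀ d ∈ F, w d ∈ 𝒯.Hm P k i d) ∧ 𝒯.Big k i β (z - ∑ d ∈ F, w d)

/-- `u` is normalized at `k`: its leading position at `k` is `k` itself -/
inductive Nrm (P : Set (∀ q, 𝒯.D q)) (k : G) : (∀ q, 𝒯.D q) → Prop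
  | scal (r : R) (hr : r ≠ 0) : Nrm P k (𝒯.ro r)
  | step (i : S.I) (u u0 : ∀ q, 𝒯.D q) (hu : u ∈ 𝒯.cl (S.Le k i)) (h0 : u0 ∈ 𝒯.cl (S.Lt k i))
      (hP : u0 ∈ P) (hN : Nrm P k u0) (hA : 𝒯.App P k i (u - u0)) : Nrm P k u

/-- the operator whose least fixed point is `T` -/
def Phi (P : Set (∀ q, 𝒯.D q)) : Set (∀ q, 𝒯.D q) :=
  {x | 𝒯.Gen ⊤ x ∧ (x = 0 ∨ ((∀ k : G, ∃ a : A, 𝒯.Nrm P k (𝒯.al a⁻¹ * x)) ∧
    (∀ k : G, ∃ a : A, 𝒯.Nrm P ((a : G)⁻¹ * k) (𝒯.al a⁻¹ * x))))}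

/-- the families having expansions in all positions -/
def T : Set (∀ q, 𝒯.D q) := ⋂₀ {P | 𝒯.Phi P ⊆ P}

/-- leading positions -/
def Ld (x : ∀ q, 𝒯.D q) (k h : G) : Prop := ∃ a : A, h = a * k ∧ 𝒯.Nrm 𝒯.T k (𝒯.al a⁻¹ * x)

end TSet

end Pool.Agent.HFT
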