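import Pool.Agent.HFT.TG

/-! # HFT/TF: functoriality of leading positions; supports (helper49)

PROOF. `push` is additive, multiplicative, maps `ro r` to `ro r`, `al a` to `al (β a)`, and
`x⁻¹` to `(push x)⁻¹` (ring homomorphisms between division rings commute with inverses).
`push_Gen`: induction on `Gen` (hypothesis on the subgroups: `β a ∈ B'` if `a ∈ B`).
`push_cl`: if `z (f q) ∈ 𝒯'.Dl (f q) B` then `ψ q (z (f q)) ∈ 𝒯.Dl q B'` (`Subfield.closure_induction`).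
For `B = S.Le k i`: `β a = s⁻¹ a s` and `s⁻¹ a s ∈ S.Le (s⁻¹ k) i` iff `a ∈ S.Le k i` (by definition);
the same for `Lt`, and `S.deg (s⁻¹k) i (s⁻¹ a s) = S.deg k i a`.
`push_Nrm`: induction on `Nrm 𝒯'.T k u`. `scal` clear. `step i u u0`: `push u0 ∈ 𝒯.T` by `T_eq` for both
families and `push_Gen`; `App`: the approximating sums are pushed term by term (`Hm`, use the
same for the coefficients), the remainder by `val_morph`.
`push_Ld`: `h = a k`, `Nrm k (al a⁻¹ * x)`, pushed: `Nrm (s⁻¹k) (al (β a)⁻¹ * push x)`, and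
`β a * (s⁻¹ k) = s⁻¹ a k = s⁻¹ h`.
`restr` is the same family for the smaller group `A ⊓ B`; `jf` holds because
`Subfield.closure (..)` is monotone. `supp`: `x` with `Gen B x` satisfies `Gen ⊤` for the restricted
family (induction on `Gen`), so it has a leading position `h' = a k`, `a ∈ A ⊓ B`, for the
restricted family; the identity is a morphism from the restricted family to `𝒯` (`s = 1`), so
`Ld x k h'` by `push_Ld`, and `h' = h` by `Ld_uq`. -/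

set_option autoImplicit false

universe u w

namespace Pool.Agent.HFT

/-- morphisms of families -/
structure TMor {G : Type u} [Group G] {S : ConradSys G} {R : Type u} [DivisionRing R]
    {A' A : Subgroup G} {ι' ι : Type} (𝒯' : TSet.{u, w} S R A' ι') (𝒯 : TSet.{u, w} S R A ι) where
  s : G
  β : A' →* A
  hβ : ∀ a : A', ((β a : A) : G) = s⁻¹ * a * s
  f : ι → ι'
  ψ : ∀ q, 𝒯'.D (f q) →+* 𝒯.D q
  hα : ∀ q a, ψ q (𝒯'.α (f q) a) = 𝒯.α q (β a)
  hρ : ∀ q r, ψ q (𝒯'.ρ (f q) r) = 𝒯.ρ q r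

namespace TMor

variable {G : Type u} [Group G] {S : ConradSys G} {R : Type u} [DivisionRing R]
    {A' A : Subgroup G} {ι' ι : Type} {𝒯' : TSet.{u, w} S R A' ι'} {𝒯 : TSet.{u, w} S R A ι}
    (m : TMor 𝒯' 𝒯)

/-- the image of a family under a morphism -/
def push (x : ∀ q, 𝒯'.D q) : ∀ q, 𝒯.D q := fun q => m.ψ q (x (m.f q))

theorem push_al (a : A') : m.push (𝒯'.al a) = 𝒯.al (m.β a) := by
  funext q; exact m.hα q a

theorem push_ro (r : R) : m.push (𝒯'.ro r) = 𝒯.ro r := by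
  funext q; exact m.hρ q r

theorem push_add (x y : ∀ q, 𝒯'.D q) : m.push (x + y) = m.push x + m.push y := by
  funext q; simp [push]

theorem push_neg (x : ∀ q, 𝒯'.D q) : m.push (-x) = -m.push x := by
  funext q; simp [push]

theorem push_mul (x y : ∀ q, 𝒯'.D q) : m.push (x * y) = m.push x * m.push y := by
  funext q; simp [push]

theorem push_inv (x : ∀ q, 𝒯'.D q) : m.push x⁻¹ = (m.push x)⁻¹ := by
  funext q; simp [push]

theorem push_Gen {B B' : Subgroup G} (hB : ∀ g ∈ B, m.s⁻¹ * g * m.s ∈ B') {x : ∀ q, 𝒯'.D q}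
    (h : 𝒯'.Gen B x) : 𝒯.Gen B' (m.push x) := by
  induction h with
  | ro r => rw [m.push_ro]; exact .ro r
  | al a ha =>
    rw [m.push_al]
    refine .al _ ?_
    rw [m.hβ]
    exact hB _ ha
  | add x y _ _ ihx ihy => rw [m.push_add]; exact .add _ _ ihx ihy
  | neg x _ ih => rw [m.push_neg]; exact .neg _ ih
  | mul x y _ _ ihx ihy => rw [m.push_mul]; exact .mul _ _ ihx ihy
  | inv x _ ih => rw [m.push_inv]; exact .inv _ ih

theorem push_Gen_top {x : ∀ q, 𝒯'.D q} (h : 𝒯'.Gen ⊤ x) : 𝒯.Gen ⊤ (m.push x) :=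
  m.push_Gen (fun _ _ => Subgroup.mem_top _) h

theorem push_cl {B B' : Subgroup G} (hB : ∀ g ∈ B, m.s⁻¹ * g * m.s ∈ B') {x : ∀ q, 𝒯'.D q}
    (h : x ∈ 𝒯'.cl B) : m.push x ∈ 𝒯.cl B' := by
  intro q
  have h1 : 𝒯'.Dl (m.f q) B ≤ (𝒯.Dl q B').comap (m.ψ q) := by
    refine Subfield.closure_le.2 ?_
    rintro y (⟨r, rfl⟩ | ⟨b, hb, rfl⟩)
    · show m.ψ q (𝒯'.ρ (m.f q) r) ∈ 𝒯.Dl q B'
      rw [m.hρ]
      exact Subfield.subset_closure (Or.inl ⟨r, rfl⟩)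
    · show m.ψ q (𝒯'.α (m.f q) b) ∈ 𝒯.Dl q B'
      rw [m.hα]
      exact Subfield.subset_closure (Or.inr ⟨m.β b, by rw [m.hβ]; exact hB _ hb, rfl⟩)
  exact h1 (h (m.f q))

private theorem hLe (k : G) (i : S.I) (g : G) (hg : g ∈ S.Le k i) :
    m.s⁻¹ * g * m.s ∈ S.Le (m.s⁻¹ * k) i := by
  have e : (m.s⁻¹ * k)⁻¹ * (m.s⁻¹ * g * m.s) * (m.s⁻¹ * k) = k⁻¹ * g * k := by group
  show S.lev _ ≤ _
  rw [e]
  exact hg

private theorem hLt (k : G) (i : S.I) (g : G) (hg : g ∈ S.Lt k i) :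
    m.s⁻¹ * g * m.s ∈ S.Lt (m.s⁻¹ * k) i := by
  have e : (m.s⁻¹ * k)⁻¹ * (m.s⁻¹ * g * m.s) * (m.s⁻¹ * k) = k⁻¹ * g * k := by group
  show S.lev _ < _
  rw [e]
  exact hg

private theorem hdeg (k : G) (i : S.I) (g : G) :
    S.deg (m.s⁻¹ * k) i (m.s⁻¹ * g * m.s) = S.deg k i g := by
  have e : (m.s⁻¹ * k)⁻¹ * (m.s⁻¹ * g * m.s) * (m.s⁻¹ * k) = k⁻¹ * g * k := by group
  unfold ConradSys.deg
  rw [e]

private theorem push_sub (x y : ∀ q, 𝒯'.D q) : m.push (x - y) = m.push x - m.push y := by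
  funext q; simp [push]

private theorem push_sum (F : Finset ℝ) (w : ℝ → ∀ q, 𝒯'.D q) :
    m.push (∑ d ∈ F, w d) = ∑ d ∈ F, m.push (w d) := by
  funext q; simp [push, Finset.sum_apply]

private theorem push_T [Nonempty ι] [Nonempty ι'] {x : ∀ q, 𝒯'.D q} (h : x ∈ 𝒯'.T) :
    m.push x ∈ 𝒯.T := 𝒯.T_eq.2 (m.push_Gen_top (𝒯'.T_eq.1 h))

private theorem push_Big {k : G} {i : S.I} {β : ℝ} {z : ∀ q, 𝒯'.D q} (h : 𝒯'.Big k i β z) :
    𝒯.Big (m.s⁻¹ * k) i β (m.push z) := by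
  refine ⟨m.push_cl (m.hLe k i) h.1, fun q => ?_⟩
  show _ < 𝒯.val q (m.s⁻¹ * k) i (m.ψ q (z (m.f q)))
  rw [𝒯.val_morph 𝒯' q (m.f q) m.s m.β m.hβ (m.ψ q) (m.hα q) (m.hρ q) k i (h.1 (m.f q))]
  exact h.2 (m.f q)

private theorem push_App [Nonempty ι] [Nonempty ι'] {k : G} {i : S.I} {z : ∀ q, 𝒯'.D q}
    (h : 𝒯'.App 𝒯'.T k i z) : 𝒯.App 𝒯.T (m.s⁻¹ * k) i (m.push z) := by
  intro β
  obtain ⟨F, w, hF, hw, hB⟩ := h β
  refine ⟨F, fun d => m.push (w d), hF, fun d hd => ?_, ?_⟩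
  · obtain ⟨a, ha, hda, c, hc, hcT, hwc⟩ := hw d hd
    refine ⟨m.β a, ?_, ?_, m.push c, m.push_cl (m.hLt k i) hc, m.push_T hcT, ?_⟩
    · rw [m.hβ]; exact m.hLe k i _ ha
    · rw [m.hβ, m.hdeg]; exact hda
    · show m.push (w d) = _
      rw [hwc, m.push_mul, m.push_al]
  · have h1 := m.push_Big hB
    rw [m.push_sub, m.push_sum] at h1
    exact h1

theorem push_Nrm [Nonempty ι] [Nonempty ι'] {k : G} {x : ∀ q, 𝒯'.D q} (h : 𝒯'.Nrm 𝒯'.T k x) :
    𝒯.Nrm 𝒯.T (m.s⁻¹ * k) (m.push x) := by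
  induction h with
  | scal r hr => rw [m.push_ro]; exact .scal r hr
  | step i u u0 hu h0 hP _ hA ih =>
    refine .step i _ (m.push u0) (m.push_cl (m.hLe k i) hu) (m.push_cl (m.hLt k i) h0)
      (m.push_T hP) ih ?_
    rw [← m.push_sub]
    exact m.push_App hA

theorem push_Ld [Nonempty ι] [Nonempty ι'] {k l : G} {x : ∀ q, 𝒯'.D q} (h : 𝒯'.Ld x k l) :
    𝒯.Ld (m.push x) (m.s⁻¹ * k) (m.s⁻¹ * l) := by
  obtain ⟨a, rfl, ha⟩ := h
  refine ⟨m.β a, ?_, ?_⟩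
  · rw [m.hβ]; group
  · have h1 := m.push_Nrm ha
    rw [m.push_mul, m.push_al, map_inv] at h1
    exact h1

end TMor

namespace TSet

variable {G : Type u} [Group G] {S : ConradSys G} {R : Type u} [DivisionRing R] {A : Subgroup G}
  {ι : Type} (𝒯 : TSet.{u, w} S R A ι)

/-- the same division rings for a smaller group -/
def restr (B : Subgroup G) : TSet.{u, w} S R (A ⊓ B) ι where
  D := 𝒯.D
  dr := 𝒯.dr
  α q := (𝒯.α q).comp (Subgroup.inclusion inf_le_left)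
  ρ := 𝒯.ρ
  comm q r a := 𝒯.comm q r _
  jf := by
    intro q k i n a c h1 h2 h3 h4
    refine 𝒯.jf q k i n (fun l => Subgroup.inclusion inf_le_left (a l)) c (fun l => h1 l) h2
      (fun l => ?_) h4
    refine Subfield.closure_mono (Set.union_subset_union_right _ ?_) (h3 l)
    rintro x ⟨b, hb, rfl⟩
    exact ⟨Subgroup.inclusion inf_le_left b, hb, rfl⟩

private def inc (B : Subgroup G) : TMor (𝒯.restr B) 𝒯 where
  s := 1
  β := Subgroup.inclusion inf_le_left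
  hβ a := by
    rw [inv_one, one_mul, mul_one]; rfl
  f := id
  ψ q := RingHom.id _
  hα q a := rfl
  hρ q r := rfl

private theorem Gen_restr {B : Subgroup G} {x : ∀ q, 𝒯.D q} (hx : 𝒯.Gen B x) :
    (𝒯.restr B).Gen ⊤ x := by
  induction hx with
  | ro r => exact Gen.ro (𝒯 := 𝒯.restr B) r
  | al a ha =>
    exact Gen.al (𝒯 := 𝒯.restr B) (B := ⊤) (⟨(a : G), a.2, ha⟩ : ↥(A ⊓ B)) (Subgroup.mem_top _)
  | add x y _ _ ihx ihy => exact Gen.add (𝒯 := 𝒯.restr B) _ _ ihx ihy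
  | neg x _ ih => exact Gen.neg (𝒯 := 𝒯.restr B) _ ih
  | mul x y _ _ ihx ihy => exact Gen.mul (𝒯 := 𝒯.restr B) _ _ ihx ihy
  | inv x _ ih => exact Gen.inv (𝒯 := 𝒯.restr B) _ ih

/-- the leading position of an element generated by `R` and `A ∩ B` is in `(A ∩ B) k` -/
theorem supp [Nonempty ι] {B : Subgroup G} {x : ∀ q, 𝒯.D q} (hx : 𝒯.Gen B x) {k l : G}
    (h : 𝒯.Ld x k l) : ∃ a : A, (a : G) ∈ B ∧ l = a * k := by
  have h1 := 𝒯.Gen_restr hx
  have h0 : x ≠ 0 := by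
    obtain ⟨q⟩ := ‹Nonempty ι›
    intro h2
    exact 𝒯.Ld_ne h q (congrFun h2 q)
  obtain ⟨l', hl'⟩ := (𝒯.restr B).Ld_ex h1 h0 k
  have h2 := (𝒯.inc B).push_Ld hl'
  have e : (𝒯.inc B).push x = x := rfl
  have e1 : (𝒯.inc B).s = 1 := rfl
  rw [e, e1, inv_one, one_mul, one_mul] at h2
  have h3 := 𝒯.Ld_uq h h2
  obtain ⟨a, ha, _⟩ := hl'
  exact ⟨⟨(a : G), a.2.1⟩, a.2.2, h3.trans ha⟩

end TSet

end Pool.Agent.HFT
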