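import Pool.Agent.HFT.TInv

/-! # HFT/TG: every generated family has expansions; leading positions (helper49)

PROOF. `T_eq`: `T_gen` one way; the other way by induction on `Gen`: `T_ro_mem`, `T_al_mem`, `T_add`,
`T_neg`, `T_mul`, `T_inv`. `Gen_nz` from `T_nz`.
`Gen_lift`: `Subfield.closure_induction` on `z ∈ Dl q B = closure (range ρ ∪ {α b})`.
`Gen_of_cl`: choose `q` (`Nonempty ι`), `Gen_lift` gives `y` with `Gen B y`, `y q = x q`; `y - x` satisfies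
`Gen ⊤` and has a zero component, so `y = x` by `Gen_nz`.
`Nrm_unique`: induction on the derivation `h'` of `z := al b * u` (for all `u`, `b`).
`scal`: `z = ro r ∈ cl (Lt k i')` for all `i'`, so by `lead_Lt` `b ∈ Lt k i'` for all `i'`; if `b ≠ 1`
this contradicts `exists_level`. `step i z z0`: by `Nrm_val` `val_i z = 0`, so `b ∈ Le k i` of degree
`0` (`lead_left`), so `b ∈ Lt k i` and `u = al b⁻¹ * z ∈ cl (Le k i)`. By `Nrm_level` for `u`: either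
`u ∈ cl (Lt k i)`; then `z ∈ cl (Lt k i)`, `z - z0 ∈ cl (Lt k i)` is `Big 0`, so `z = z0`
(`eq_zero_of_Big`) and the induction hypothesis for `z0 = al b * u` applies. Or there is `u0` with
`u0 ∈ cl (Lt k i)`, `Nrm P k u0`, `App (u - u0)`; then `al b * u0 - z0 = (z - z0) - al b * (u - u0)`
is in `cl (Lt k i)` and `Big 0` (`App_left`, `App_Big`), so `z0 = al b * u0`, and the induction
hypothesis applies.
`Ld_ex`: `x ∈ T = Phi T`. `Ld_uq`: `h = a k`, `h' = a' k`, `al a'⁻¹ * x = al (a'⁻¹ a) * (al a⁻¹ * x)`,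
so `a'⁻¹ a = 1` by `Nrm_unique`. `Ld_mul`: `h = b k`, `l = a h`; conjugate `Nrm T (b k) (al a⁻¹ * x)` by
`b`: `Nrm T k (al b⁻¹ * (al a⁻¹ * x) * al b)`, multiply with `al b⁻¹ * y` (`Nrm_mul`):
`al (a b)⁻¹ * (x * y)`. `Ld_inv`: `Ld x⁻¹ h l` for some `l` (`Ld_ex`), so `Ld (x⁻¹ * x) k l`,
`x⁻¹ * x = 1 = al 1` (all components of `x` are nonzero), so `l = k` by `Ld_al`, `Ld_uq`. -/

set_option autoImplicit false

universe u w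

namespace Pool.Agent.HFT

namespace TSet

variable {G : Type u} [Group G] {S : ConradSys G} {R : Type u} [DivisionRing R] {A : Subgroup G}
  {ι : Type} (𝒯 : TSet.{u, w} S R A ι)

theorem T_eq [Nonempty ι] {x : ∀ q, 𝒯.D q} : x ∈ 𝒯.T ↔ 𝒯.Gen ⊤ x := by
  refine ⟨fun h => 𝒯.T_gen h, fun h => ?_⟩
  induction h with
  | ro r => exact 𝒯.T_ro_mem r
  | al a ha => exact 𝒯.T_al_mem a
  | add x y hx hy ihx ihy => exact 𝒯.T_add ihx ihy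
  | neg x hx ihx => exact 𝒯.T_neg ihx
  | mul x y hx hy ihx ihy => exact 𝒯.T_mul ihx ihy
  | inv x hx ihx => exact 𝒯.T_inv ihx

theorem Gen_nz [Nonempty ι] {x : ∀ q, 𝒯.D q} (h : 𝒯.Gen ⊤ x) : x = 0 ∨ ∀ q, x q ≠ 0 :=
  𝒯.T_nz (𝒯.T_eq.2 h)

theorem Gen_lift {B : Subgroup G} {q : ι} {z : 𝒯.D q} (hz : z ∈ 𝒯.Dl q B) :
    ∃ y, 𝒯.Gen B y ∧ y q = z := by
  have hz' : z ∈ Subfield.closure (Set.range (𝒯.ρ q) ∪ {x | ∃ b : A, (b : G) ∈ B ∧ 𝒯.α q b = x}) :=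
    hz
  induction hz' using Subfield.closure_induction with
  | mem x hx =>
    rcases hx with ⟨r, rfl⟩ | ⟨b, hb, rfl⟩
    · exact ⟨𝒯.ro r, .ro r, rfl⟩
    · exact ⟨𝒯.al b, .al b hb, rfl⟩
  | one => exact ⟨𝒯.ro 1, .ro 1, by rw [𝒯.ro_one]; rfl⟩
  | add x y hx hy ihx ihy =>
    obtain ⟨x', hx', ex⟩ := ihx hx
    obtain ⟨y', hy', ey⟩ := ihy hy
    exact ⟨x' + y', .add _ _ hx' hy', by rw [Pi.add_apply, ex, ey]⟩
  | neg x hx ihx =>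
    obtain ⟨x', hx', ex⟩ := ihx hx
    exact ⟨-x', .neg _ hx', by rw [Pi.neg_apply, ex]⟩
  | inv x hx ihx =>
    obtain ⟨x', hx', ex⟩ := ihx hx
    exact ⟨x'⁻¹, .inv _ hx', by rw [Pi.inv_apply, ex]⟩
  | mul x y hx hy ihx ihy =>
    obtain ⟨x', hx', ex⟩ := ihx hx
    obtain ⟨y', hy', ey⟩ := ihy hy
    exact ⟨x' * y', .mul _ _ hx' hy', by rw [Pi.mul_apply, ex, ey]⟩

theorem Gen_of_cl [Nonempty ι] {B : Subgroup G} {x : ∀ q, 𝒯.D q} (h : 𝒯.Gen ⊤ x)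
    (hB : x ∈ 𝒯.cl B) : 𝒯.Gen B x := by
  obtain ⟨q⟩ := ‹Nonempty ι›
  obtain ⟨y, hy, e⟩ := 𝒯.Gen_lift (hB q)
  have h1 : 𝒯.Gen ⊤ (y + -x) := .add _ _ (𝒯.Gen_mono le_top hy) (.neg _ h)
  have : Nonempty ι := ⟨q⟩
  rcases 𝒯.Gen_nz h1 with h2 | h2
  · have h3 : x = y := by
      rw [← sub_eq_add_neg] at h2
      exact (sub_eq_zero.1 h2).symm
    rw [h3]
    exact hy
  · exact absurd (by rw [Pi.add_apply, Pi.neg_apply, e, add_neg_cancel]) (h2 q)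

private theorem Nrm_unique_aux [Nonempty ι] {P P' : Set (∀ q, 𝒯.D q)} {k : G} {z : ∀ q, 𝒯.D q}
    (h' : 𝒯.Nrm P' k z) : ∀ {u : ∀ q, 𝒯.D q} {b : A}, z = 𝒯.al b * u → 𝒯.Nrm P k u → b = 1 := by
  induction h' with
  | scal r hr =>
    intro u b e hu
    by_contra hb
    have hb' : (b : G) ≠ 1 := fun h => hb (Subtype.ext h)
    obtain ⟨i, -, hi, -⟩ := S.exists_level k hb'
    exact hi (𝒯.lead_Lt hu (by rw [← e]; exact 𝒯.cl_ro _ r))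
  | step i z z0 hz h0 hP hN hA ih =>
    intro u b e hu
    have hv := (𝒯.Nrm_val (Nrm.step i z z0 hz h0 hP hN hA)).2 i hz
    have hz' : 𝒯.al b * u ∈ 𝒯.cl (S.Le k i) := by rw [← e]; exact hz
    have h1 := 𝒯.lead_left hu (d := 0) hz' (fun q => by rw [← e]; exact hv q)
    have hbLt : (b : G) ∈ S.Lt k i := (S.deg_zero_iff h1.1).1 h1.2
    have hb' : ((b⁻¹ : A) : G) ∈ S.Le k i := by
      rw [InvMemClass.coe_inv]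
      exact (S.Le k i).inv_mem h1.1
    have hucl : u ∈ 𝒯.cl (S.Le k i) := by
      have h2 := 𝒯.cl_mul (𝒯.cl_al hb') hz'
      rwa [𝒯.al_inv_mul] at h2
    rcases 𝒯.Nrm_level hu hucl with h2 | ⟨u0, hu0, hu0P, hu0N, hu0A⟩
    · have hzLt : z ∈ 𝒯.cl (S.Lt k i) := by
        rw [e]
        exact 𝒯.cl_mul (𝒯.cl_al hbLt) h2
      have h3 : z - z0 = 0 := 𝒯.eq_zero_of_Big le_rfl (𝒯.cl_sub hzLt h0) (𝒯.App_Big hA)
      have h4 : z0 = z := (sub_eq_zero.1 h3).symm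
      exact ih (h4.trans e) hu
    · have h3 : 𝒯.al b * u0 - z0 = (z - z0) + -(𝒯.al b * (u - u0)) := by
        rw [e, mul_sub]
        abel
      have h4 : 𝒯.Big k i 0 (𝒯.al b * u0 - z0) := by
        rw [h3]
        exact 𝒯.Big_add (𝒯.App_Big hA) (𝒯.Big_neg (𝒯.App_Big (𝒯.App_left hu0A hbLt)))
      have h5 : 𝒯.al b * u0 - z0 = 0 :=
        𝒯.eq_zero_of_Big le_rfl (𝒯.cl_sub (𝒯.cl_mul (𝒯.cl_al hbLt) hu0) h0) h4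
      exact ih (sub_eq_zero.1 h5).symm hu0N

theorem Nrm_unique [Nonempty ι] {P P' : Set (∀ q, 𝒯.D q)} {k : G} {u : ∀ q, 𝒯.D q} {b : A}
    (h : 𝒯.Nrm P k u) (h' : 𝒯.Nrm P' k (𝒯.al b * u)) : b = 1 :=
  𝒯.Nrm_unique_aux h' rfl h

theorem Ld_ex [Nonempty ι] {x : ∀ q, 𝒯.D q} (h : 𝒯.Gen ⊤ x) (hx : x ≠ 0) (k : G) :
    ∃ l, 𝒯.Ld x k l := by
  have h1 : x ∈ 𝒯.Phi 𝒯.T := by
    rw [𝒯.T_fix]
    exact 𝒯.T_eq.2 h
  obtain ⟨a, ha⟩ := (h1.2.resolve_left hx).1 k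
  exact ⟨a * k, a, rfl, ha⟩

theorem Ld_ne [Nonempty ι] {x : ∀ q, 𝒯.D q} {k l : G} (h : 𝒯.Ld x k l) : ∀ q, x q ≠ 0 := by
  obtain ⟨a, -, ha⟩ := h
  intro q hq
  refine (𝒯.Nrm_val ha).1 q ?_
  rw [Pi.mul_apply, hq, mul_zero]

theorem Ld_uq [Nonempty ι] {x : ∀ q, 𝒯.D q} {k l l' : G} (h : 𝒯.Ld x k l) (h' : 𝒯.Ld x k l') :
    l = l' := by
  obtain ⟨a, rfl, ha⟩ := h
  obtain ⟨a', rfl, ha'⟩ := h'
  have e : 𝒯.al a'⁻¹ * x = 𝒯.al (a'⁻¹ * a) * (𝒯.al a⁻¹ * x) := by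
    rw [𝒯.al_mul, mul_assoc, 𝒯.al_mul_inv]
  rw [e] at ha'
  have h1 := 𝒯.Nrm_unique ha ha'
  have h2 : a = a' := by
    rw [inv_mul_eq_one] at h1
    exact h1.symm
  rw [h2]

theorem Ld_al (a : A) (k : G) : 𝒯.Ld (𝒯.al a) k (a * k) := by
  refine ⟨a, rfl, ?_⟩
  rw [← 𝒯.al_mul, inv_mul_cancel, 𝒯.al_one, ← 𝒯.ro_one]
  exact .scal 1 one_ne_zero

theorem Ld_ro {r : R} (hr : r ≠ 0) (k : G) : 𝒯.Ld (𝒯.ro r) k k := by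
  refine ⟨1, by rw [OneMemClass.coe_one, one_mul], ?_⟩
  rw [inv_one, 𝒯.al_one, one_mul]
  exact .scal r hr

theorem Ld_mul [Nonempty ι] {x y : ∀ q, 𝒯.D q} (hx : 𝒯.Gen ⊤ x) (hy : 𝒯.Gen ⊤ y) {k l m : G}
    (h : 𝒯.Ld y k l) (h' : 𝒯.Ld x l m) : 𝒯.Ld (x * y) k m := by
  obtain ⟨b, rfl, hb⟩ := h
  obtain ⟨a, rfl, ha⟩ := h'
  have ha' := 𝒯.Nrm_conj 𝒯.T_conjInv ha b
  rw [inv_mul_cancel_left] at ha'
  have hxT := 𝒯.T_eq.2 hx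
  have hyT := 𝒯.T_eq.2 hy
  refine ⟨a * b, by rw [MulMemClass.coe_mul, mul_assoc], ?_⟩
  have h1 := 𝒯.Nrm_mul ha' hb (𝒯.T_conjInv _ (𝒯.T_al_mul hxT _) b) (𝒯.T_al_mul hyT _)
  have e : 𝒯.al b⁻¹ * (𝒯.al a⁻¹ * x) * 𝒯.al b * (𝒯.al b⁻¹ * y) = 𝒯.al (a * b)⁻¹ * (x * y) := by
    rw [mul_assoc _ (𝒯.al b), 𝒯.al_mul_inv, mul_inv_rev, 𝒯.al_mul]
    simp only [mul_assoc]
  rwa [e] at h1

theorem Ld_inv [Nonempty ι] {x : ∀ q, 𝒯.D q} (hx : 𝒯.Gen ⊤ x) {k l : G} (h : 𝒯.Ld x k l) :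
    𝒯.Ld x⁻¹ l k := by
  have hne := 𝒯.Ld_ne h
  have hxi : 𝒯.Gen ⊤ x⁻¹ := .inv _ hx
  have hxi0 : x⁻¹ ≠ 0 := by
    obtain ⟨q⟩ := ‹Nonempty ι›
    intro h0
    have h1 : (x⁻¹) q = 0 := by rw [h0]; rfl
    rw [Pi.inv_apply] at h1
    exact hne q (inv_eq_zero.1 h1)
  obtain ⟨m, hm⟩ := 𝒯.Ld_ex hxi hxi0 l
  have h1 := 𝒯.Ld_mul hxi hx h hm
  have e : x⁻¹ * x = 𝒯.al 1 := by
    rw [𝒯.al_one]
    funext q
    rw [Pi.mul_apply, Pi.inv_apply, inv_mul_cancel₀ (hne q)]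
    rfl
  rw [e] at h1
  have h2 := 𝒯.Ld_uq h1 (𝒯.Ld_al 1 k)
  rw [OneMemClass.coe_one, one_mul] at h2
  rwa [h2] at hm

theorem Ld_neg [Nonempty ι] {x : ∀ q, 𝒯.D q} (hx : 𝒯.Gen ⊤ x) {k l : G} (h : 𝒯.Ld x k l) :
    𝒯.Ld (-x) k l := by
  have h1 := 𝒯.Ld_mul (.ro (-1)) hx h (𝒯.Ld_ro (r := (-1 : R)) (neg_ne_zero.2 one_ne_zero) l)
  have e : 𝒯.ro (-1) * x = -x := by
    funext q
    show 𝒯.ρ q (-1) * x q = -(x q)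
    rw [map_neg, map_one, neg_one_mul]
  rwa [e] at h1

end TSet

end Pool.Agent.HFT
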