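import Pool.Agent.HFT.TMul

/-! # HFT/TInv: the set `T` is closed under inverses (helper49)

PROOF. `App_closed`: for `β` take `z'` for `β` and then `F, w` for `z'` and `β`:
`z - ∑ w = (z - z') + (z' - ∑ w)`, `Big_add`.
`App_uniform`: take `F, w` for `β = 1`; let `δ` be the minimum of `1` and of the elements of `F`;
`z q = (z - ∑ w) q + ∑ (w d) q` and every term has value `≥ δ` (`Hm_val`, or is zero).
`App_geom`: with `δ` from `App_uniform`: `val (m q) ≥ δ > 0`, so `1 + m q ≠ 0` and `val (1 + m q) = 0`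
(`val 1 = 0`). For `β` choose `N ≥ 1` with `N δ > β`. In a division ring
`(1+m)⁻¹ - 1 - ∑_{n=1}^{N-1} (-m)^n = (1+m)⁻¹ (-m)^N` (componentwise), of value `≥ N δ > β`. The powers
`(-m)^n`, `n ≥ 1`, satisfy `App T` (`App_mul_gen` with `P = Q = T`; `-m`: the components `w d` may be
negated, `T_neg`), their sum too (`App_add`, `App_zero`). Conclude by `App_closed`.
`Nrm_inv`: `P ⊆ T` and `x⁻¹ ∈ T` for `x ∈ P`. Induction on `Nrm P k u`. `scal`: `(ro r)⁻¹ = ro r⁻¹`.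
`step i u u0`: `u0⁻¹ ∈ T`, `Nrm T k u0⁻¹` by induction, `u0⁻¹ ∈ cl (Lt k i)`, `u0 q ≠ 0` for all `q`
(`Nrm_val`). Let `n = u - u0`, `m = u0⁻¹ * n`: `App T k i m` (`App_const_mul`, `T_mul`, `T_conjInv`).
`u = u0 * (1 + m)`, `u⁻¹ - u0⁻¹ = ((1+m)⁻¹ - 1) * u0⁻¹` and `App_geom`, `App_mul_const` give
`App T k i (u⁻¹ - u0⁻¹)`; `u⁻¹ ∈ cl (Le k i)`. `Nrm.step i` applies. (In a product of division rings
`(x * y)⁻¹ = y⁻¹ * x⁻¹` always holds componentwise.)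
`T_inv`: let `P := {x ∈ T | x⁻¹ ∈ T}`. By `T_ind` it is enough that `Phi (P ∩ T) ⊆ P`. Let
`x ∈ Phi P`, `x ∈ T` (`Phi_mono`, `T_fix`); if `x = 0` then `x⁻¹ = 0 ∈ T`. Otherwise show
`x⁻¹ ∈ Phi T`: `Gen.inv`.
`P` is conjugation invariant (`(al b⁻¹ * x * al b)⁻¹ = al b⁻¹ * x⁻¹ * al b`, `(al b)⁻¹ = al b⁻¹`).
Position `k`: the target clause of `x` for `k` gives `a` with `Nrm P (a⁻¹k) (al a⁻¹ * x)`, conjugated
with `b := a⁻¹` (`Nrm_conj`): `Nrm P k (x * al a⁻¹)`; by `Nrm_inv`, `Nrm T k (al a * x⁻¹)`; use `a⁻¹`.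
Target `h`: the position clause of `x` at `h` gives `a` with `Nrm P h (al a⁻¹ * x)`, so
`Nrm T h (x⁻¹ * al a)` by `Nrm_inv`; conjugate with `b := a⁻¹`: `Nrm T (a h) (al a * x⁻¹)`; use
`a⁻¹`. -/

set_option autoImplicit false

universe u w

namespace Pool.Agent.HFT

namespace TSet

variable {G : Type u} [Group G] {S : ConradSys G} {R : Type u} [DivisionRing R] {A : Subgroup G}
  {ι : Type} (𝒯 : TSet.{u, w} S R A ι)

theorem App_closed {P : Set (∀ q, 𝒯.D q)} {k : G} {i : S.I} {z : ∀ q, 𝒯.D q}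
    (h : ∀ β : ℝ, ∃ z', 𝒯.App P k i z' ∧ 𝒯.Big k i β (z - z')) : 𝒯.App P k i z := by
  intro β
  obtain ⟨z', hz', hB⟩ := h β
  obtain ⟨F, w, hF, hw, hB'⟩ := hz' β
  refine ⟨F, w, hF, hw, ?_⟩
  have e : z - ∑ d ∈ F, w d = (z - z') + (z' - ∑ d ∈ F, w d) := by abel
  rw [e]
  exact 𝒯.Big_add hB hB'

theorem App_uniform {P : Set (∀ q, 𝒯.D q)} {k : G} {i : S.I} {z : ∀ q, 𝒯.D q}
    (h : 𝒯.App P k i z) : ∃ δ : ℝ, 0 < δ ∧ ∀ q, (δ : WithTop ℝ) ≤ 𝒯.val q k i (z q) := by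
  classical
  obtain ⟨F, w, hF, hw, hB⟩ := h 1
  set δ : ℝ := (insert 1 F).min' ⟨1, Finset.mem_insert_self 1 F⟩ with hδ
  have hδ0 : 0 < δ := by
    rw [hδ, Finset.lt_min'_iff]
    intro d hd
    rcases Finset.mem_insert.1 hd with rfl | hd
    · exact one_pos
    · exact hF d hd
  have hδ1 : δ ≤ 1 := Finset.min'_le _ _ (Finset.mem_insert_self 1 F)
  have hδd : ∀ d ∈ F, δ ≤ d := fun d hd => Finset.min'_le _ _ (Finset.mem_insert_of_mem hd)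
  have hsum : 𝒯.Big k i (δ / 2) (∑ d ∈ F, w d) := by
    refine ⟨𝒯.cl_sum fun d hd => 𝒯.Hm_cl (hw d hd), fun q => ?_⟩
    refine 𝒯.val_sum_gt (fun d hd => 𝒯.Hm_cl (hw d hd)) fun d hd => ?_
    rcases 𝒯.Hm_val (hw d hd) q with h0 | h0
    · rw [h0, ((𝒯.val_spec q k i).top 0 (Subfield.zero_mem _)).2 rfl]
      exact WithTop.coe_lt_top _
    · rw [h0]
      have := hδd d hd
      exact WithTop.coe_lt_coe.2 (by linarith)
  have hB2 := 𝒯.Big_add (𝒯.Big_mono (by linarith : δ / 2 ≤ 1) hB) hsum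
  rw [sub_add_cancel] at hB2
  exact ⟨δ / 2, by linarith, fun q => (hB2.2 q).le⟩

private theorem App_neg {k : G} {i : S.I} {z : ∀ q, 𝒯.D q}
    (h : 𝒯.App 𝒯.T k i z) : 𝒯.App 𝒯.T k i (-z) := by
  intro β
  obtain ⟨F, w, hF, hw, hB⟩ := h β
  refine ⟨F, fun d => -w d, hF, ?_, ?_⟩
  · intro d hd
    obtain ⟨a, ha, had, c, hc, hcT, e⟩ := hw d hd
    refine ⟨a, ha, had, -c, 𝒯.cl_neg hc, 𝒯.T_neg hcT, ?_⟩
    show -w d = _
    rw [e, mul_neg]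
  · have e : -z - ∑ d ∈ F, -w d = -(z - ∑ d ∈ F, w d) := by
      rw [Finset.sum_neg_distrib]
      abel
    show 𝒯.Big k i β (-z - ∑ d ∈ F, -w d)
    rw [e]
    exact 𝒯.Big_neg hB

private theorem App_pow [Nonempty ι] {k : G} {i : S.I} {z : ∀ q, 𝒯.D q}
    (h : 𝒯.App 𝒯.T k i z) (n : ℕ) : 𝒯.App 𝒯.T k i (z ^ (n + 1)) := by
  induction n with
  | zero => rwa [zero_add, pow_one]
  | succ n ih =>
    rw [pow_succ]
    exact 𝒯.App_mul_gen 𝒯.T_conjInv (fun c hc c' hc' => 𝒯.T_mul hc hc') ih h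

private theorem App_geomsum [Nonempty ι] {k : G} {i : S.I} {z : ∀ q, 𝒯.D q}
    (h : 𝒯.App 𝒯.T k i z) (n : ℕ) : 𝒯.App 𝒯.T k i (∑ j ∈ Finset.range n, z ^ (j + 1)) := by
  induction n with
  | zero =>
    rw [Finset.sum_range_zero]
    exact 𝒯.App_zero _ _ _
  | succ n ih =>
    rw [Finset.sum_range_succ]
    exact 𝒯.App_add ih (𝒯.App_pow h n)

private theorem withTop_aux {x y : WithTop ℝ} (hx : x < 0) (hy : y ≤ 0) : x + y < 0 := by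
  cases x with
  | top => exact absurd hx (by simp)
  | coe x =>
    cases y with
    | top => exact absurd hy (by simp)
    | coe y =>
      have h1 : x < 0 := by exact_mod_cast hx
      have h2 : y ≤ 0 := by exact_mod_cast hy
      have h3 : x + y < 0 := by linarith
      exact_mod_cast h3

/-- values of `1 + m` when `m` has positive value -/
private theorem val_one_add {q : ι} {k : G} {i : S.I} {m : 𝒯.D q} (hm : m ∈ 𝒯.Dl q (S.Le k i))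
    {δ : ℝ} (hδ : 0 < δ) (hv : (δ : WithTop ℝ) ≤ 𝒯.val q k i m) :
    1 + m ≠ 0 ∧ (0 : WithTop ℝ) ≤ 𝒯.val q k i (1 + m)⁻¹ := by
  have hV := 𝒯.val_spec q k i
  have h1 : 𝒯.val q k i 1 = 0 := hV.const 1 (Subfield.one_mem _) one_ne_zero
  have hm1 : 𝒯.val q k i (-1) = 0 :=
    hV.const (-1) (Subfield.neg_mem _ (Subfield.one_mem _)) (neg_ne_zero.2 one_ne_zero)
  have h1m : (1 : 𝒯.D q) ∈ 𝒯.Dl q (S.Le k i) := Subfield.one_mem _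
  have hneg : 𝒯.val q k i (-m) = 𝒯.val q k i m := by
    have e : -m = (-1) * m := by rw [neg_one_mul]
    rw [e, hV.mul _ (Subfield.neg_mem _ h1m) _ hm, hm1, zero_add]
  have h1add : (1 + m) ∈ 𝒯.Dl q (S.Le k i) := Subfield.add_mem _ h1m hm
  -- the value of `1 + m` is at most `0`
  have hle : 𝒯.val q k i (1 + m) ≤ 0 := by
    have h2 := hV.add (1 + m) h1add (-m) (Subfield.neg_mem _ hm)
    have e : 1 + m + -m = 1 := by abel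
    rw [e, h1, hneg, min_le_iff] at h2
    rcases h2 with h2 | h2
    · exact h2
    · exfalso
      have h3 := hv.trans h2
      have h4 : (δ : ℝ) ≤ 0 := by exact_mod_cast h3
      linarith
  have hne : 1 + m ≠ 0 := by
    intro h0
    rw [h0, (hV.top 0 (Subfield.zero_mem _)).2 rfl] at hle
    exact absurd hle (by simp)
  refine ⟨hne, ?_⟩
  have h3 := hV.mul (1 + m)⁻¹ (Subfield.inv_mem _ h1add) (1 + m) h1add
  rw [inv_mul_cancel₀ hne, h1] at h3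
  by_contra hlt
  rw [not_le] at hlt
  have h4 : 𝒯.val q k i (1 + m)⁻¹ + 𝒯.val q k i (1 + m) < 0 := by
    exact withTop_aux hlt hle
  rw [← h3] at h4
  exact lt_irrefl _ h4

private theorem val_pow_ge {q : ι} {k : G} {i : S.I} {m : 𝒯.D q} (hm : m ∈ 𝒯.Dl q (S.Le k i))
    {δ : ℝ} (hv : (δ : WithTop ℝ) ≤ 𝒯.val q k i m) (n : ℕ) :
    (((n : ℝ) * δ : ℝ) : WithTop ℝ) ≤ 𝒯.val q k i (m ^ n) := by
  have hV := 𝒯.val_spec q k i
  induction n with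
  | zero =>
    rw [pow_zero, hV.const 1 (Subfield.one_mem _) one_ne_zero]
    simp
  | succ n ih =>
    rw [pow_succ, hV.mul _ (Subfield.pow_mem _ hm n) _ hm]
    have e : (((n + 1 : ℕ) : ℝ) * δ : ℝ) = (n : ℝ) * δ + δ := by
      push_cast
      ring
    rw [e, WithTop.coe_add]
    exact add_le_add ih hv

theorem App_geom [Nonempty ι] {k : G} {i : S.I} {m : ∀ q, 𝒯.D q} (h : 𝒯.App 𝒯.T k i m) :
    𝒯.App 𝒯.T k i ((1 + m)⁻¹ - 1) := by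
  obtain ⟨δ, hδ, hv⟩ := 𝒯.App_uniform h
  have hcl : m ∈ 𝒯.cl (S.Le k i) := (𝒯.App_Big h).1
  refine 𝒯.App_closed fun β => ?_
  obtain ⟨K, hK⟩ := exists_nat_gt (β / δ)
  have hK' : β < ((K + 1 : ℕ) : ℝ) * δ := by
    have h1 : β < K * δ := by
      rwa [div_lt_iff₀ hδ] at hK
    push_cast
    nlinarith
  refine ⟨∑ j ∈ Finset.range K, (-m) ^ (j + 1), 𝒯.App_geomsum (𝒯.App_neg h) K, ?_⟩
  have hcl1 : (1 + m)⁻¹ ∈ 𝒯.cl (S.Le k i) := 𝒯.cl_inv (𝒯.cl_add (𝒯.cl_one _) hcl)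
  have e : (1 + m)⁻¹ - 1 - ∑ j ∈ Finset.range K, (-m) ^ (j + 1) = (1 + m)⁻¹ * (-m) ^ (K + 1) := by
    have h1 : (1 + m)⁻¹ * (1 + m) = 1 := by
      funext q
      exact inv_mul_cancel₀ (𝒯.val_one_add (hcl q) hδ (hv q)).1
    have h2 := mul_neg_geom_sum (-m) (K + 1)
    rw [sub_neg_eq_add, Finset.sum_range_succ', pow_zero] at h2
    have h3 : (1 + m)⁻¹ * (1 - (-m) ^ (K + 1)) = ∑ j ∈ Finset.range K, (-m) ^ (j + 1) + 1 := by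
      rw [← h2, ← mul_assoc, h1, one_mul]
    rw [mul_sub, mul_one] at h3
    have h4 : (1 + m)⁻¹ = ∑ j ∈ Finset.range K, (-m) ^ (j + 1) + 1 + (1 + m)⁻¹ * (-m) ^ (K + 1) := by
      rw [← h3]
      abel
    nth_rewrite 1 [h4]
    abel
  have hpow : (-m) ^ (K + 1) ∈ 𝒯.cl (S.Le k i) := by
    intro q
    exact Subfield.pow_mem _ (Subfield.neg_mem _ (hcl q)) _
  rw [e]
  refine ⟨𝒯.cl_mul hcl1 hpow, fun q => ?_⟩
  have hV := 𝒯.val_spec q k i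
  have hmneg : (-m) q ∈ 𝒯.Dl q (S.Le k i) := Subfield.neg_mem _ (hcl q)
  have hvneg : (δ : WithTop ℝ) ≤ 𝒯.val q k i ((-m) q) := by
    have e1 : (-m) q = (-1) * m q := by
      rw [neg_one_mul]
      rfl
    rw [e1, hV.mul _ (Subfield.neg_mem _ (Subfield.one_mem _)) _ (hcl q),
      hV.const (-1) (Subfield.neg_mem _ (Subfield.one_mem _)) (neg_ne_zero.2 one_ne_zero),
      zero_add]
    exact hv q
  show (β : WithTop ℝ) < 𝒯.val q k i ((1 + m)⁻¹ q * ((-m) q) ^ (K + 1))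
  rw [hV.mul _ (hcl1 q) _ (Subfield.pow_mem _ hmneg _)]
  have h5 := 𝒯.val_pow_ge hmneg hvneg (K + 1)
  have h6 := (𝒯.val_one_add (hcl q) hδ (hv q)).2
  calc (β : WithTop ℝ) < ((((K + 1 : ℕ) : ℝ) * δ : ℝ) : WithTop ℝ) := WithTop.coe_lt_coe.2 hK'
    _ = 0 + ((((K + 1 : ℕ) : ℝ) * δ : ℝ) : WithTop ℝ) := by rw [zero_add]
    _ ≤ _ := add_le_add h6 h5

theorem Nrm_inv [Nonempty ι] {P : Set (∀ q, 𝒯.D q)} (hP : P ⊆ 𝒯.T) (hPi : ∀ x ∈ P, x⁻¹ ∈ 𝒯.T)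
    {k : G} {u : ∀ q, 𝒯.D q} (h : 𝒯.Nrm P k u) : 𝒯.Nrm 𝒯.T k u⁻¹ := by
  induction h with
  | scal r hr =>
    have e : (𝒯.ro r)⁻¹ = 𝒯.ro r⁻¹ := by
      funext q
      exact (map_inv₀ (𝒯.ρ q) r).symm
    rw [e]
    exact .scal _ (inv_ne_zero hr)
  | step i u u0 hu h0 hP0 hN hA ih =>
    have hne : ∀ q, u0 q ≠ 0 := (𝒯.Nrm_val hN).1
    have h0i : u0⁻¹ ∈ 𝒯.cl (S.Lt k i) := 𝒯.cl_inv h0
    have hT0 : u0⁻¹ ∈ 𝒯.T := hPi u0 hP0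
    have hm : 𝒯.App 𝒯.T k i (u0⁻¹ * (u - u0)) :=
      𝒯.App_const_mul hA h0i fun c' hc' a => 𝒯.T_mul (𝒯.T_conjInv _ hT0 a) (hP hc')
    refine .step i _ u0⁻¹ (𝒯.cl_inv hu) h0i hT0 ih ?_
    have e : u⁻¹ - u0⁻¹ = ((1 + u0⁻¹ * (u - u0))⁻¹ - 1) * u0⁻¹ := by
      funext q
      show (u q)⁻¹ - (u0 q)⁻¹ = ((1 + (u0 q)⁻¹ * (u q - u0 q))⁻¹ - 1) * (u0 q)⁻¹
      have e1 : 1 + (u0 q)⁻¹ * (u q - u0 q) = (u0 q)⁻¹ * u q := by
        rw [mul_sub, inv_mul_cancel₀ (hne q)]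
        abel
      rw [e1, mul_inv_rev, inv_inv, sub_mul, mul_assoc, mul_inv_cancel₀ (hne q), mul_one, one_mul]
    rw [e]
    exact 𝒯.App_mul_const (𝒯.App_geom hm) h0i fun c' hc' => 𝒯.T_mul hc' hT0

private theorem al_inv_inv (a : A) : (𝒯.al a⁻¹)⁻¹ = 𝒯.al a := by
  funext q
  have h : 𝒯.α q a⁻¹ * 𝒯.α q a = 1 := by rw [← map_mul, inv_mul_cancel, map_one]
  exact inv_eq_of_mul_eq_one_right h

private theorem al_inv' (a : A) : (𝒯.al a)⁻¹ = 𝒯.al a⁻¹ := by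
  have h := 𝒯.al_inv_inv a⁻¹
  rwa [inv_inv] at h

private theorem pi_mul_inv (x y : ∀ q, 𝒯.D q) : (x * y)⁻¹ = y⁻¹ * x⁻¹ := by
  funext q
  exact mul_inv_rev (x q) (y q)

theorem T_inv [Nonempty ι] {x : ∀ q, 𝒯.D q} (hx : x ∈ 𝒯.T) : x⁻¹ ∈ 𝒯.T := by
  set P : Set (∀ q, 𝒯.D q) := {x | x ∈ 𝒯.T ∧ x⁻¹ ∈ 𝒯.T} with hPdef
  have hPT : P ⊆ 𝒯.T := fun _ h => h.1
  have hPi : ∀ x ∈ P, x⁻¹ ∈ 𝒯.T := fun _ h => h.2
  have hPc : 𝒯.ConjInv P := by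
    intro x hx b
    refine ⟨𝒯.T_conjInv x hx.1 b, ?_⟩
    rw [𝒯.pi_mul_inv, 𝒯.pi_mul_inv, 𝒯.al_inv_inv, 𝒯.al_inv', ← mul_assoc]
    exact 𝒯.T_conjInv _ hx.2 b
  have hsub : 𝒯.T ⊆ P := by
    refine 𝒯.T_ind ?_
    intro x hx
    have hx : x ∈ 𝒯.Phi P := 𝒯.Phi_mono Set.inter_subset_left hx
    have hxT : x ∈ 𝒯.T := by
      rw [← 𝒯.T_fix]
      exact 𝒯.Phi_mono hPT hx
    refine ⟨hxT, ?_⟩
    rcases hx.2 with h0 | ⟨hx1, hx2⟩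
    · have e : x⁻¹ = 0 := by
        rw [h0]
        funext q
        exact inv_zero
      rw [e]
      exact 𝒯.T_zero
    rw [← 𝒯.T_fix]
    refine ⟨.inv _ (𝒯.T_gen hxT), Or.inr ⟨fun k => ?_, fun l => ?_⟩⟩
    · obtain ⟨a, ha⟩ := hx2 k
      have h1 := 𝒯.Nrm_conj hPc ha a⁻¹
      have e1 : ((a⁻¹ : A) : G)⁻¹ * ((a : G)⁻¹ * k) = k := by
        rw [Subgroup.coe_inv]; group
      rw [e1, inv_inv, 𝒯.al_mul_inv] at h1
      have h2 := 𝒯.Nrm_inv hPT hPi h1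
      rw [𝒯.pi_mul_inv, 𝒯.al_inv_inv] at h2
      refine ⟨a⁻¹, ?_⟩
      rw [inv_inv]
      exact h2
    · obtain ⟨a, ha⟩ := hx1 l
      have h1 := 𝒯.Nrm_inv hPT hPi ha
      rw [𝒯.pi_mul_inv, 𝒯.al_inv_inv] at h1
      have h2 := 𝒯.Nrm_conj 𝒯.T_conjInv h1 a⁻¹
      rw [inv_inv, ← mul_assoc, mul_assoc (𝒯.al a * x⁻¹), ← 𝒯.al_mul, mul_inv_cancel, 𝒯.al_one,
        mul_one] at h2
      refine ⟨a⁻¹, ?_⟩
      rw [inv_inv]
      exact h2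
  exact (hsub hx).2

end TSet

end Pool.Agent.HFT
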