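import Pool.Agent.HFT.TR

/-! # HFT/TLead: the division ring of a family and its leading positions (helper49)

PROOF. `EC 𝒯` is the ring of the families `x` with `Gen ⊤ x`; it is a division ring by `Gen_nz`.
`gen_iff`: `gen αE ρE B = closure (range ρE ∪ {αE b})`; one way by `Subfield.closure_induction`
(`Gen.ro`, `Gen.al`, `Gen.add`, ..; `1 = ro 1`), the other way by induction on `Gen B x.1` in the form:
`Gen B x → ∀ hx : Gen ⊤ x, ⟨x, hx⟩ ∈ gen αE ρE B` (`Gen_mono` for the parts).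
`leadSys`: `ex`: `Ld_ex`; `ne`: `Ld_ne`; `uq`: `Ld_uq`; `al`: `Ld_al`; `ro`: `Ld_ro`; `mul`: `Ld_mul`;
`mono`: `Ld_mono`; `add`: `Ld_add`; `coset`: `Ld_coset`; `res`: `Ld_res` and `gen_iff`; `supp`: `supp`
and `gen_iff`. -/

set_option autoImplicit false

universe u w

namespace Pool.Agent.HFT

namespace TSet

variable {G : Type u} [Group G] {S : ConradSys G} {R : Type u} [DivisionRing R] {A : Subgroup G}
  {ι : Type} (𝒯 : TSet.{u, w} S R A ι)

/-- the ring of the generated families -/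
def ECring : Subring (∀ q, 𝒯.D q) where
  carrier := {x | 𝒯.Gen ⊤ x}
  mul_mem' hx hy := Gen.mul _ _ hx hy
  one_mem' := by
    have h := Gen.ro (𝒯 := 𝒯) (B := ⊤) 1
    have h1 : 𝒯.ro 1 = 1 := by funext q; exact map_one (𝒯.ρ q)
    rw [h1] at h; exact h
  add_mem' hx hy := Gen.add _ _ hx hy
  zero_mem' := by
    have h := Gen.ro (𝒯 := 𝒯) (B := ⊤) 0
    have h1 : 𝒯.ro 0 = 0 := by funext q; exact map_zero (𝒯.ρ q)
    rw [h1] at h; exact h
  neg_mem' hx := Gen.neg _ hx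

/-- the division ring of a family -/
def EC : Type w := 𝒯.ECring

noncomputable instance : Ring 𝒯.EC := inferInstanceAs (Ring 𝒯.ECring)

/-- the underlying family -/
def EC.fam {𝒯 : TSet.{u, w} S R A ι} (x : 𝒯.EC) : ∀ q, 𝒯.D q := Subtype.val (p := fun x => x ∈ 𝒯.ECring) x

theorem EC.gen {𝒯 : TSet.{u, w} S R A ι} (x : 𝒯.EC) : 𝒯.Gen ⊤ x.fam :=
  Subtype.property (p := fun x => x ∈ 𝒯.ECring) x

/-- the element of `EC` of a generated family -/
def mkE (x : ∀ q, 𝒯.D q) (h : 𝒯.Gen ⊤ x) : 𝒯.EC := (⟨x, h⟩ : 𝒯.ECring)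

@[simp] theorem mkE_fam (x : ∀ q, 𝒯.D q) (h : 𝒯.Gen ⊤ x) : (𝒯.mkE x h).fam = x := rfl

theorem EC.ext' {𝒯 : TSet.{u, w} S R A ι} {x y : 𝒯.EC} (h : x.fam = y.fam) : x = y :=
  Subtype.ext (p := fun x => x ∈ 𝒯.ECring) h

@[simp] theorem EC.fam_add {𝒯 : TSet.{u, w} S R A ι} (x y : 𝒯.EC) :
    (x + y).fam = x.fam + y.fam := rfl

@[simp] theorem EC.fam_mul {𝒯 : TSet.{u, w} S R A ι} (x y : 𝒯.EC) :
    (x * y).fam = x.fam * y.fam := rfl

@[simp] theorem EC.fam_neg {𝒯 : TSet.{u, w} S R A ι} (x : 𝒯.EC) : (-x).fam = -x.fam := rfl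

@[simp] theorem EC.fam_sub {𝒯 : TSet.{u, w} S R A ι} (x y : 𝒯.EC) :
    (x - y).fam = x.fam - y.fam := rfl

@[simp] theorem EC.fam_zero {𝒯 : TSet.{u, w} S R A ι} : (0 : 𝒯.EC).fam = 0 := rfl

@[simp] theorem EC.fam_one {𝒯 : TSet.{u, w} S R A ι} : (1 : 𝒯.EC).fam = 1 := rfl

noncomputable instance [Nonempty ι] : DivisionRing 𝒯.EC :=
  { (inferInstance : Ring 𝒯.EC) with
    inv := fun x => 𝒯.mkE x.fam⁻¹ (Gen.inv _ x.gen)
    exists_pair_ne := ⟨0, 1, fun h => by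
      have h1 : (0 : 𝒯.EC).fam = (1 : 𝒯.EC).fam := by rw [h]
      have h2 := congrFun h1 (Classical.arbitrary ι)
      simp at h2⟩
    mul_inv_cancel := fun x hx => by
      apply EC.ext'
      have h0 : x.fam ≠ 0 := fun h => hx (EC.ext' (by rw [h]; rfl))
      have h1 : ∀ q, x.fam q ≠ 0 := (𝒯.Gen_nz x.gen).resolve_left h0
      show x.fam * x.fam⁻¹ = 1
      funext q
      exact mul_inv_cancel₀ (h1 q)
    inv_zero := by
      apply EC.ext'
      show (0 : ∀ q, 𝒯.D q)⁻¹ = 0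
      funext q; simp
    nnqsmul := _
    nnqsmul_def := fun _ _ => rfl
    qsmul := _
    qsmul_def := fun _ _ => rfl }

@[simp] theorem EC.fam_inv [Nonempty ι] {𝒯 : TSet.{u, w} S R A ι} (x : 𝒯.EC) :
    (x⁻¹).fam = x.fam⁻¹ := rfl

/-- the image of `A` -/
def αE [Nonempty ι] : A →* 𝒯.EC where
  toFun a := 𝒯.mkE (𝒯.al a) (Gen.al a (Subgroup.mem_top _))
  map_one' := by apply EC.ext'; funext q; exact map_one (𝒯.α q)
  map_mul' a b := by apply EC.ext'; funext q; exact map_mul (𝒯.α q) a b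

/-- the image of `R` -/
def ρE [Nonempty ι] : R →+* 𝒯.EC where
  toFun r := 𝒯.mkE (𝒯.ro r) (Gen.ro r)
  map_one' := by apply EC.ext'; funext q; exact map_one (𝒯.ρ q)
  map_mul' a b := by apply EC.ext'; funext q; exact map_mul (𝒯.ρ q) a b
  map_zero' := by apply EC.ext'; funext q; exact map_zero (𝒯.ρ q)
  map_add' a b := by apply EC.ext'; funext q; exact map_add (𝒯.ρ q) a b

theorem αE_fam [Nonempty ι] (a : A) : (𝒯.αE a).fam = 𝒯.al a := rfl

theorem ρE_fam [Nonempty ι] (r : R) : (𝒯.ρE r).fam = 𝒯.ro r := rfl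

theorem commE [Nonempty ι] (r : R) (a : A) : 𝒯.ρE r * 𝒯.αE a = 𝒯.αE a * 𝒯.ρE r := by
  apply EC.ext'; funext q; exact 𝒯.comm q r a

theorem mkE_mem_gen [Nonempty ι] {B : Subgroup G} {x : ∀ q, 𝒯.D q} (h : 𝒯.Gen B x) :
    ∀ hx : 𝒯.Gen ⊤ x, 𝒯.mkE x hx ∈ gen 𝒯.αE 𝒯.ρE B := by
  induction h with
  | ro r =>
    intro hx
    exact Subfield.subset_closure (Or.inl ⟨r, rfl⟩)
  | al a ha =>
    intro hx
    exact Subfield.subset_closure (Or.inr ⟨a, ha, rfl⟩)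
  | add x y hx hy ihx ihy =>
    intro h
    exact add_mem (ihx (𝒯.Gen_mono le_top hx)) (ihy (𝒯.Gen_mono le_top hy))
  | neg x hx ihx =>
    intro h
    exact neg_mem (ihx (𝒯.Gen_mono le_top hx))
  | mul x y hx hy ihx ihy =>
    intro h
    exact mul_mem (ihx (𝒯.Gen_mono le_top hx)) (ihy (𝒯.Gen_mono le_top hy))
  | inv x hx ihx =>
    intro h
    exact inv_mem (ihx (𝒯.Gen_mono le_top hx))

theorem gen_iff [Nonempty ι] {B : Subgroup G} {x : 𝒯.EC} :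
    x ∈ gen 𝒯.αE 𝒯.ρE B ↔ 𝒯.Gen B x.fam := by
  constructor
  · intro hx
    have hx' : x ∈ Subfield.closure
        (Set.range 𝒯.ρE ∪ {x | ∃ b : A, (b : G) ∈ B ∧ 𝒯.αE b = x}) := hx
    clear hx
    induction hx' using Subfield.closure_induction with
    | mem x hx =>
      rcases hx with ⟨r, rfl⟩ | ⟨b, hb, rfl⟩
      · rw [𝒯.ρE_fam]; exact Gen.ro r
      · rw [𝒯.αE_fam]; exact Gen.al b hb
    | one =>
      rw [EC.fam_one, ← 𝒯.ro_one]; exact Gen.ro 1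
    | add x y hx hy ihx ihy =>
      rw [EC.fam_add]; exact Gen.add _ _ ihx ihy
    | neg x hx ihx =>
      rw [EC.fam_neg]; exact Gen.neg _ ihx
    | inv x hx ihx =>
      rw [EC.fam_inv]; exact Gen.inv _ ihx
    | mul x y hx hy ihx ihy =>
      rw [EC.fam_mul]; exact Gen.mul _ _ ihx ihy
  · intro h
    exact 𝒯.mkE_mem_gen h x.gen

/-- the leading positions of `EC 𝒯` -/
def leadSys [Nonempty ι] : LeadSys S R A 𝒯.EC 𝒯.αE 𝒯.ρE where
  Ld x k h := 𝒯.Ld x.fam k h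
  ex := by
    intro x hx k
    exact 𝒯.Ld_ex x.gen (fun h => hx (EC.ext' h)) k
  ne := by
    intro x k h hL h0
    obtain ⟨q⟩ := ‹Nonempty ι›
    apply 𝒯.Ld_ne hL q
    rw [h0]
    rfl
  uq := by
    intro x k h h' h1 h2
    exact 𝒯.Ld_uq h1 h2
  al := by
    intro a k
    exact 𝒯.Ld_al a k
  ro := by
    intro r k hr
    exact 𝒯.Ld_ro hr k
  mul := by
    intro x y k h l h1 h2
    exact 𝒯.Ld_mul x.gen y.gen h1 h2
  mono := by
    intro x k h k' h' h1 h2 hk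
    exact 𝒯.Ld_mono x.gen h1 h2 hk
  add := by
    intro x y k h h' l h1 h2 h3
    exact 𝒯.Ld_add x.gen y.gen h1 h2 h3
  coset := by
    intro x k h k' h' j h1 h2 hk
    exact 𝒯.Ld_coset x.gen h1 h2 hk
  res := by
    intro x k h h1 j
    obtain ⟨a, ha, δ, hδ, h2⟩ := 𝒯.Ld_res x.gen h1 j
    refine ⟨a, ha, 𝒯.mkE δ (𝒯.Gen_mono le_top hδ), 𝒯.mkE_mem_gen hδ _, ?_⟩
    rcases h2 with h2 | ⟨l, h2, h3⟩
    · left
      exact EC.ext' h2
    · right
      exact ⟨l, h2, h3⟩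
  supp := by
    intro x k h B hx h1
    exact 𝒯.supp (𝒯.gen_iff.1 hx) h1

/-- component of `EC` -/
def prE [Nonempty ι] (q : ι) : 𝒯.EC →+* 𝒯.D q where
  toFun x := x.fam q
  map_one' := rfl
  map_mul' _ _ := rfl
  map_zero' := rfl
  map_add' _ _ := rfl

end TSet

namespace TMor

variable {G : Type u} [Group G] {S : ConradSys G} {R : Type u} [DivisionRing R]
    {A' A : Subgroup G} {ι' ι : Type} [Nonempty ι] [Nonempty ι'] {𝒯' : TSet.{u, w} S R A' ι'}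
    {𝒯 : TSet.{u, w} S R A ι} (m : TMor 𝒯' 𝒯)

/-- the ring homomorphism of a morphism of families -/
def mapE : 𝒯'.EC →+* 𝒯.EC where
  toFun x := 𝒯.mkE (m.push x.fam) (m.push_Gen_top x.gen)
  map_one' := by
    apply TSet.EC.ext'; funext q; exact map_one (m.ψ q)
  map_mul' x y := by
    apply TSet.EC.ext'; funext q; exact map_mul (m.ψ q) _ _
  map_zero' := by
    apply TSet.EC.ext'; funext q; exact map_zero (m.ψ q)
  map_add' x y := by
    apply TSet.EC.ext'; funext q; exact map_add (m.ψ q) _ _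

theorem mapE_al (a : A') : m.mapE (𝒯'.αE a) = 𝒯.αE (m.β a) := by
  apply TSet.EC.ext'; exact m.push_al a

theorem mapE_ro (r : R) : m.mapE (𝒯'.ρE r) = 𝒯.ρE r := by
  apply TSet.EC.ext'; exact m.push_ro r

theorem mapE_Ld {x : 𝒯'.EC} {k l : G} (h : 𝒯'.leadSys.Ld x k l) :
    𝒯.leadSys.Ld (m.mapE x) (m.s⁻¹ * k) (m.s⁻¹ * l) := m.push_Ld h

end TMor

end Pool.Agent.HFT
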