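import Pool.Agent.HFT.TF

/-! # HFT/TM: monotonicity of leading positions (helper49)

PROOF. `Ld_step`: let `l0 = b k'` with `Nrm T k' (al b⁻¹ * u0)`. As `Lt k' i = Lt k i` (`coset_Lt`),
`u0 = al b * (al b⁻¹ * u0) ∈ cl (Lt k' i)` and `lead_Lt` gives `b ∈ Lt k' i`. `Nrm.step i` at `k'` for
`al b⁻¹ * u = al b⁻¹ * u0 + al b⁻¹ * (u - u0)` (`App_coset`, `App_left`, `T_al_mul`, `coset_Le`).
`Nrm_mono`: induction on `Nrm T k u`. `scal`: `Ld (ro r) k' k'` and `Ld_uq`: `l = k'`.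
`step i u u0`: (A) `lev (k⁻¹ k') ≤ i`: `u0 ≠ 0` is in `T`, so `Ld u0 k' l0` for some `l0` (`Ld_ex`), and
`Ld u k' l0` by `Ld_step`; `l = l0` by `Ld_uq` and the induction hypothesis applies.
(B) `lev (k⁻¹ k') = i'` with `i < i'`: by `Gen_of_cl` `Gen (Le k i) u`, so by `supp` `l = b k'` with
`b ∈ Le k i`: `k⁻¹ l = (k⁻¹ b k) (k⁻¹ k')` where the first factor has level `≤ i < i'`; so `k⁻¹ l` has
level `i'` and `τ i' (k⁻¹ l) = τ i' (k⁻¹ k')` (`τ_zero`, `τ_mul`, `lev_mul`), and the three statements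
follow (`(k'⁻¹ k)`, `(l⁻¹ k)` are the inverses).
`Ld_mono`, `Ld_coset`: `h = a k` with `Nrm T k (al a⁻¹ * x)` =: u; `Ld u k' (a⁻¹ h')` (`Ld_mul` with
`Ld_al a⁻¹`, all families in question satisfy `Gen ⊤`); `Nrm_mono` gives the comparison of `k` and
`a⁻¹ h'`; translate by `a` (`ltj_left`, `eqj_left`). For `Ld_mono` use that `S.lt k k'` is
`S.ltj j k k'` for `j` the level of `k⁻¹ k'`, and `ltj_lt`. -/

set_option autoImplicit false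

universe u w

namespace Pool.Agent.HFT

namespace TSet

variable {G : Type u} [Group G] {S : ConradSys G} {R : Type u} [DivisionRing R] {A : Subgroup G}
  {ι : Type} (𝒯 : TSet.{u, w} S R A ι)

theorem Ld_step [Nonempty ι] {k k' l0 : G} {i : S.I} (hk : S.lev (k⁻¹ * k') ≤ (i : WithBot S.I))
    {u u0 : ∀ q, 𝒯.D q} (hu : u ∈ 𝒯.cl (S.Le k i)) (h0 : u0 ∈ 𝒯.cl (S.Lt k i)) (hT : u0 ∈ 𝒯.T)
    (hA : 𝒯.App 𝒯.T k i (u - u0)) (h : 𝒯.Ld u0 k' l0) : 𝒯.Ld u k' l0 := by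
  obtain ⟨b, hb, hN⟩ := h
  have hu' : u ∈ 𝒯.cl (S.Le k' i) := by rw [S.coset_Le hk]; exact hu
  have h0' : u0 ∈ 𝒯.cl (S.Lt k' i) := by rw [S.coset_Lt hk]; exact h0
  have hbL : (b : G) ∈ S.Lt k' i := by
    refine 𝒯.lead_Lt hN ?_
    rw [𝒯.al_mul_inv]
    exact h0'
  have hbi : ((b⁻¹ : A) : G) ∈ S.Lt k' i := by
    rw [Subgroup.coe_inv]
    exact inv_mem hbL
  refine ⟨b, hb, Nrm.step i _ (𝒯.al b⁻¹ * u0) ?_ ?_ (𝒯.T_al_mul hT _) hN ?_⟩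
  · exact 𝒯.cl_mul (𝒯.cl_al (S.Lt_le_Le k' i hbi)) hu'
  · exact 𝒯.cl_mul (𝒯.cl_al hbi) h0'
  · rw [← mul_sub]
    exact 𝒯.App_left (𝒯.App_coset hk hA) hbi

private theorem tau_one (i : S.I) : S.τ i 1 = 0 := by
  have h1 : S.lev 1 ≤ (i : WithBot S.I) := by
    rw [(S.lev_bot 1).2 rfl]
    exact bot_le
  have h2 := S.τ_mul i 1 1 h1 h1
  rw [mul_one] at h2
  linarith

private theorem tau_inv {i : S.I} {g : G} (hg : S.lev g ≤ (i : WithBot S.I)) :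
    S.τ i g⁻¹ = -S.τ i g := by
  have h1 := S.τ_mul i g g⁻¹ hg (by rw [S.lev_inv]; exact hg)
  rw [mul_inv_cancel, tau_one] at h1
  linarith

private theorem mono_B {k k' l a : G} {i : S.I} (ha : a ∈ S.Le k i) (hl : l = a * k')
    (hk : (i : WithBot S.I) < S.lev (k⁻¹ * k')) :
    (∀ j, S.ltj j k k' → S.ltj j k l) ∧ (∀ j, S.ltj j k' k → S.ltj j l k) ∧
      (∀ j, S.eqj j k k' → S.eqj j k l) := by
  obtain ⟨i', hi'⟩ := WithBot.ne_bot_iff_exists.1 (ne_bot_of_gt hk)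
  have hc : S.lev (k⁻¹ * a * k) ≤ (i : WithBot S.I) := ha
  have hkl : k⁻¹ * l = (k⁻¹ * a * k) * (k⁻¹ * k') := by rw [hl]; group
  have hlk : l⁻¹ * k = ((k⁻¹ * a * k) * (k⁻¹ * k'))⁻¹ := by rw [← hkl]; group
  have hkk : k'⁻¹ * k = (k⁻¹ * k')⁻¹ := by group
  generalize k⁻¹ * a * k = c at hc hkl hlk
  generalize k⁻¹ * k' = g at hk hi' hkl hlk hkk
  have hii : (i : WithBot S.I) < (i' : WithBot S.I) := by rw [hi']; exact hk
  have hlt : S.lev c < (i' : WithBot S.I) := lt_of_le_of_lt hc hii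
  have hlev : S.lev (c * g) = (i' : WithBot S.I) := by
    apply le_antisymm
    · refine (S.lev_mul c g).trans (max_le hlt.le hi'.ge)
    · by_contra hcon
      rw [not_le] at hcon
      have h1 := S.lev_mul c⁻¹ (c * g)
      rw [inv_mul_cancel_left, S.lev_inv, ← hi'] at h1
      exact absurd h1 (not_le.2 (max_lt hlt hcon))
  have htau : S.τ i' (c * g) = S.τ i' g := by
    rw [S.τ_mul i' c g hlt.le hi'.ge, (S.τ_zero i' c hlt.le).2 hlt, zero_add]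
  have hinj : ∀ i1 : S.I, S.lev g = (i1 : WithBot S.I) → i1 = i' := by
    intro i1 h
    rw [← hi'] at h
    exact (WithBot.coe_injective h).symm
  refine ⟨?_, ?_, ?_⟩
  · rintro j ⟨i1, h1, h2, h3⟩
    have h2' : S.lev g = (i1 : WithBot S.I) := by
      rw [← h2]
      congr 1
      rw [← inv_inv g, ← hkk]
      group
    obtain rfl := hinj i1 h2'
    refine ⟨i1, h1, by rw [hkl]; exact hlev, ?_⟩
    rw [hkl, htau]
    have e : k⁻¹ * k' = g := by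
      rw [← inv_inv g, ← hkk]
      group
    rwa [e] at h3
  · rintro j ⟨i1, h1, h2, h3⟩
    rw [hkk, S.lev_inv] at h2
    obtain rfl := hinj i1 h2
    refine ⟨i1, h1, by rw [hlk, S.lev_inv]; exact hlev, ?_⟩
    rw [hkk, tau_inv hi'.ge] at h3
    rw [hlk, tau_inv hlev.le, htau]
    exact h3
  · intro j h1
    have e : k⁻¹ * k' = g := by
      rw [← inv_inv g, ← hkk]
      group
    have h2 : S.lev (k⁻¹ * k') < (j : WithBot S.I) := h1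
    rw [e, ← hi'] at h2
    show S.lev (k⁻¹ * l) < (j : WithBot S.I)
    rw [hkl, hlev]
    exact h2

theorem Nrm_mono_pos [Nonempty ι] {k : G} {u : ∀ q, 𝒯.D q} (h : 𝒯.Nrm 𝒯.T k u)
    (hT : 𝒯.Gen ⊤ u) {k' l : G} (hl : 𝒯.Ld u k' l) :
    (∀ j, S.ltj j k k' → S.ltj j k l) ∧ (∀ j, S.ltj j k' k → S.ltj j l k) ∧
      (∀ j, S.eqj j k k' → S.eqj j k l) := by
  induction h with
  | scal r hr =>
    have h1 : l = k' := 𝒯.Ld_uq hl (𝒯.Ld_ro hr k')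
    rw [h1]
    exact ⟨fun _ h => h, fun _ h => h, fun _ h => h⟩
  | step i u u0 hu h0 hP hN hA ih =>
    rcases le_or_gt (S.lev (k⁻¹ * k')) (i : WithBot S.I) with hle | hgt
    · have hG0 : 𝒯.Gen ⊤ u0 := 𝒯.T_gen hP
      have hne : u0 ≠ 0 := by
        obtain ⟨q⟩ := ‹Nonempty ι›
        intro h2
        exact (𝒯.Nrm_val hN).1 q (congrFun h2 q)
      obtain ⟨l0, hl0⟩ := 𝒯.Ld_ex hG0 hne k'
      have h1 := 𝒯.Ld_step hle hu h0 hP hA hl0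
      have h2 : l = l0 := 𝒯.Ld_uq hl h1
      rw [h2]
      rw [← h2] at hl0
      rw [← h2]
      exact ih hG0 hl0
    · obtain ⟨a, ha, hla⟩ := 𝒯.supp (𝒯.Gen_of_cl hT hu) hl
      exact mono_B ha hla hgt

private theorem Gen_al_mul {x : ∀ q, 𝒯.D q} (hx : 𝒯.Gen ⊤ x) (a : A) :
    𝒯.Gen ⊤ (𝒯.al a * x) :=
  Gen.mul _ _ (Gen.al a (Subgroup.mem_top _)) hx

private theorem Ld_shift [Nonempty ι] {x : ∀ q, 𝒯.D q} (hx : 𝒯.Gen ⊤ x) (a : A) {k' l' : G}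
    (h' : 𝒯.Ld x k' l') : 𝒯.Ld (𝒯.al a⁻¹ * x) k' ((a : G)⁻¹ * l') := by
  have h1 := 𝒯.Ld_mul (Gen.al a⁻¹ (Subgroup.mem_top _)) hx h' (𝒯.Ld_al a⁻¹ l')
  rwa [Subgroup.coe_inv] at h1

theorem Ld_mono [Nonempty ι] {x : ∀ q, 𝒯.D q} (hx : 𝒯.Gen ⊤ x) {k l k' l' : G}
    (h : 𝒯.Ld x k l) (h' : 𝒯.Ld x k' l') (hk : S.lt k k') : S.lt l l' := by
  obtain ⟨a, hl, hN⟩ := h
  obtain ⟨i, hi, hpos⟩ := hk
  have h1 := (𝒯.Nrm_mono_pos hN (𝒯.Gen_al_mul hx _) (𝒯.Ld_shift hx a h')).1 i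
    ⟨i, le_rfl, hi, hpos⟩
  have h2 := S.ltj_left (a : G) h1
  rw [← hl, mul_inv_cancel_left] at h2
  exact S.ltj_lt h2

theorem Ld_coset [Nonempty ι] {x : ∀ q, 𝒯.D q} (hx : 𝒯.Gen ⊤ x) {k l k' l' : G} {j : S.I}
    (h : 𝒯.Ld x k l) (h' : 𝒯.Ld x k' l') (hk : S.eqj j k k') : S.eqj j l l' := by
  obtain ⟨a, hl, hN⟩ := h
  have h1 := (𝒯.Nrm_mono_pos hN (𝒯.Gen_al_mul hx _) (𝒯.Ld_shift hx a h')).2.2 j hk
  have h2 := S.eqj_left (a : G) h1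
  rwa [← hl, mul_inv_cancel_left] at h2

end TSet

end Pool.Agent.HFT
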