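import Pool.Agent.HFT.TAdd

/-! # HFT/TMul: the set `T` is closed under multiplication (helper49)

PROOF. `App_add`: as `XP_add` (here all coefficients are in `T`, closed under addition by `T_add`,
left invariant).
`App_mul_gen`: let `App P k i z`, `App Q k i z'` with `P, Q ⊆ T` and `c * c' ∈ T` for all
`c ∈ al-conjugates of P` (`P` conjugation invariant), `c' ∈ Q`. For `β` (one may suppose `β ≥ 0`) take
`F, w` and `F', w'` for `β`. As `z, z', ∑ w, ∑ w'` have values `≥ 0` (`> 0`), `z * z' - (∑ w) * (∑ w')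
= (z - ∑ w) * z' + (∑ w) * (z' - ∑ w')` has values `> β`. `(∑ w) (∑ w')` is the sum over `F ×ˢ F'` of
`w d * w' d'`; `al a c al a' c' = al (a a') ((al a'⁻¹ * c * al a') * c')` is in `Hm T k i (d + d')`. Collect the
pairs with equal `d + d'` (finite set of the sums, `Finset.sum_fiberwise`): the sum of elements of
`Hm T k i e` is in `Hm T k i e` (`Hm_add`: `al a c + al a' c' = al a (c + al (a⁻¹a') c')`,
`a⁻¹a' ∈ Lt k i`, `T_add`, `T_al_mul`).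
`App_mul_const`, `App_const_mul`: `z * c` and `c * z` for `c ∈ cl (Lt k i)` (value `≥ 0`):
`al a c₁ c`, and `c al a c₁ = al a (al a⁻¹ c al a) c₁`.
`mul_Nrm` (with `MulHyp`): induction on `hx`, then on `hy`, of the statement
`Nrm T k (x * y) `, where `x ∈ P1 or x ∈ O`... precisely: for `Nrm P1 k x`, `x ∈ O`, `Nrm P2 k y`, `y ∈ T`.
To make the induction work it is done for the pairs `(x, y)` with `x ∈ O ∪ P1`, `y ∈ P2 ∪ T` not both in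
the second kind: say `Good x y := (x ∈ P1 ∧ y ∈ T) ∨ (x ∈ O ∧ y ∈ P2) ∨ (x ∈ O ∧ y ∈ T)`; claim: `Nrm P1 k x →
Nrm P2 k y → Good x y → Nrm T k (x * y)`. Cases:
- `x = ro r`, `y = ro r'`: `ro (r r')`, `scal`.
- `x = ro r`, `y` by `step i y y0`: `x * y0` is normalized by induction (pair `(x, y0)`, `y0 ∈ P2 ⊆ T`: Good
  is kept), `x * y0 ∈ T` by `T_ro`; `App T k i (ro r * (y - y0))` (`App_const_mul` with `T_ro`), `step i`.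
- symmetric case.
- `step i x x0`, `step i' y y0`. If `i = i'`: `x * y = x0 y0 + (x0 (y-y0) + (x-x0) y0 + (x-x0)(y-y0))`;
  `x0 y0` is normalized by induction (`x0 ∈ P1`, `y0 ∈ T`), `x0 y0 ∈ T` by `m1`, and the rest is `App T`
  (`m1`: all coefficients are products of an element of `P1` and an element of `T`).
  If `i' < i`: `y ∈ cl (Le k i') ⊆ cl (Lt k i)`; `x y = x0 y + (x - x0) y`, `x0 y` normalized by induction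
  (`x0 ∈ P1`, `y ∈ T`), in `T` by `m1`, `App T k i ((x-x0) * y)` by `App_mul_const` and `m1`.
  If `i < i'`: `x ∈ cl (Lt k i')`; if `x ∈ P1` then `x y0 ∈ T`, and if `x ∈ O` then `x y0 ∈ T` by `m2`
  (`y0 ∈ P2`); `x y0` is normalized by induction and `App T k i' (x * (y - y0))` by `App_const_mul` with
  `m1` or `m2` (`x al a c = al a (al a⁻¹ x al a) c`, `O` and `P1` are conjugation invariant).
`T_mul`: `P1 := {x ∈ T | ∀ y ∈ T, x * y ∈ T}` is left and right invariant (`x al b * y = x * (al b y)`).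
Let `x ∈ Phi P1`; `P2 := {y ∈ T | ∀ a : A, x * (al a * y) ∈ T}`, left and right invariant. Show
`Phi P2 ⊆ P2`: let `y ∈ Phi P2`, `a₀ : A`, and `x' := x * al a₀ ∈ Phi P1`; to show `z := x' * y ∈ Phi T`.
`O := {v | ∃ a b, v = al a * x * al b}`; `m2`: `al a x al b c' = al a (x (al b c'))`. If `z = 0` clear (if
`x' = 0` or `y = 0` then `z = 0`).
(i) Position `k`: `b` with `Nrm P2 k (al b⁻¹ y)`; then `a` with `Nrm P1 (b k) (al a⁻¹ x')`, conjugated by `b`: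
`Nrm P1 k (al b⁻¹ * (al a⁻¹ * x') * al b)`; the product with `al b⁻¹ y` is `al (a b)⁻¹ * z`, normalized by
`mul_Nrm`.
(ii) Target `h`: `a` with `Nrm P1 (a⁻¹h) (al a⁻¹ x')`, then `b` for `y` and the target `a⁻¹ h`:
`Nrm P2 (b⁻¹a⁻¹h) (al b⁻¹ y)`; conjugate the first one by `b`, multiply: `al (a b)⁻¹ z` is normalized at
`(a b)⁻¹ h`. -/

set_option autoImplicit false

universe u w

namespace Pool.Agent.HFT

namespace TSet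

variable {G : Type u} [Group G] {S : ConradSys G} {R : Type u} [DivisionRing R] {A : Subgroup G}
  {ι : Type} (𝒯 : TSet.{u, w} S R A ι)

theorem Hm_add [Nonempty ι] {k : G} {i : S.I} {d : ℝ} {z z' : ∀ q, 𝒯.D q}
    (h : z ∈ 𝒯.Hm 𝒯.T k i d) (h' : z' ∈ 𝒯.Hm 𝒯.T k i d) : z + z' ∈ 𝒯.Hm 𝒯.T k i d := by
  obtain ⟨a, ha, had, c, hc, hcP, e⟩ := h
  obtain ⟨a', ha', had', c', hc', hcQ, e'⟩ := h'
  have hLe : ((a⁻¹ * a' : A) : G) ∈ S.Le k i := by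
    push_cast
    exact (S.Le k i).mul_mem ((S.Le k i).inv_mem ha) ha'
  have hdeg : S.deg k i ((a⁻¹ * a' : A) : G) = 0 := by
    push_cast
    rw [S.deg_mul ((S.Le k i).inv_mem ha) ha', S.deg_inv ha, had, had']
    ring
  have hLt : ((a⁻¹ * a' : A) : G) ∈ S.Lt k i := (S.deg_zero_iff hLe).1 hdeg
  refine ⟨a, ha, had, c + 𝒯.al (a⁻¹ * a') * c', ?_, ?_, ?_⟩
  · exact 𝒯.cl_add hc (𝒯.cl_mul (𝒯.cl_al hLt) hc')
  · exact 𝒯.T_add hcP (𝒯.T_al_mul hcQ _)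
  · rw [e, e', mul_add, 𝒯.al_mul, mul_assoc, 𝒯.al_mul_inv]

theorem App_add [Nonempty ι] {k : G} {i : S.I} {z z' : ∀ q, 𝒯.D q}
    (h : 𝒯.App 𝒯.T k i z) (h' : 𝒯.App 𝒯.T k i z') : 𝒯.App 𝒯.T k i (z + z') := by
  classical
  intro β
  obtain ⟨F, w, hF, hw, hB⟩ := h β
  obtain ⟨F', w', hF', hw', hB'⟩ := h' β
  refine ⟨F ∪ F', fun d => (if d ∈ F then w d else 0) + (if d ∈ F' then w' d else 0), ?_, ?_, ?_⟩
  · intro d hd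
    rcases Finset.mem_union.1 hd with h | h
    · exact hF d h
    · exact hF' d h
  · intro d hd
    show (if d ∈ F then w d else 0) + (if d ∈ F' then w' d else 0) ∈ 𝒯.Hm 𝒯.T k i d
    by_cases h1 : d ∈ F
    · by_cases h2 : d ∈ F'
      · rw [if_pos h1, if_pos h2]
        exact 𝒯.Hm_add (hw d h1) (hw' d h2)
      · rw [if_pos h1, if_neg h2, add_zero]
        exact hw d h1
    · have h2 : d ∈ F' := by
        rcases Finset.mem_union.1 hd with h | h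
        · exact absurd h h1
        · exact h
      rw [if_neg h1, if_pos h2, zero_add]
      exact hw' d h2
  · have e : ∑ d ∈ F ∪ F', ((if d ∈ F then w d else 0) + (if d ∈ F' then w' d else 0)) =
        ∑ d ∈ F, w d + ∑ d ∈ F', w' d := by
      rw [Finset.sum_add_distrib, Finset.sum_ite_mem, Finset.sum_ite_mem,
        Finset.union_inter_cancel_left, Finset.union_inter_cancel_right]
    rw [e]
    have e2 : z + z' - (∑ d ∈ F, w d + ∑ d ∈ F', w' d) =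
        (z - ∑ d ∈ F, w d) + (z' - ∑ d ∈ F', w' d) := by abel
    rw [e2]
    exact 𝒯.Big_add hB hB'

private theorem top_add_lt {β γ : ℝ} {x y : WithTop ℝ} (hx : (β : WithTop ℝ) < x)
    (hy : (γ : WithTop ℝ) < y) : ((β + γ : ℝ) : WithTop ℝ) < x + y := by
  cases x with
  | top =>
    rw [WithTop.top_add]
    exact WithTop.coe_lt_top _
  | coe x =>
    cases y with
    | top =>
      rw [WithTop.add_top]
      exact WithTop.coe_lt_top _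
    | coe y =>
      rw [← WithTop.coe_add]
      exact WithTop.coe_lt_coe.2 (add_lt_add (WithTop.coe_lt_coe.1 hx) (WithTop.coe_lt_coe.1 hy))

private theorem Big_mul {k : G} {i : S.I} {β γ : ℝ} {z z' : ∀ q, 𝒯.D q} (h : 𝒯.Big k i β z)
    (h' : 𝒯.Big k i γ z') : 𝒯.Big k i (β + γ) (z * z') := by
  refine ⟨𝒯.cl_mul h.1 h'.1, fun q => ?_⟩
  show ((β + γ : ℝ) : WithTop ℝ) < 𝒯.val q k i (z q * z' q)
  rw [(𝒯.val_spec q k i).mul _ (h.1 q) _ (h'.1 q)]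
  exact top_add_lt (h.2 q) (h'.2 q)

/-- elements of `cl (Lt k i)` have values `≥ 0` -/
private theorem val_const_ge {k : G} {i : S.I} {c : ∀ q, 𝒯.D q} (hc : c ∈ 𝒯.cl (S.Lt k i)) (q : ι) :
    (0 : WithTop ℝ) ≤ 𝒯.val q k i (c q) := by
  by_cases h : c q = 0
  · rw [h, ((𝒯.val_spec q k i).top 0 (Subfield.zero_mem _)).2 rfl]
    exact le_top
  · rw [(𝒯.val_spec q k i).const _ (hc q) h]

private theorem Big_mul_const {k : G} {i : S.I} {β : ℝ} {z c : ∀ q, 𝒯.D q} (h : 𝒯.Big k i β z)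
    (hc : c ∈ 𝒯.cl (S.Lt k i)) : 𝒯.Big k i β (z * c) := by
  have hc' := 𝒯.cl_mono (S.Lt_le_Le k i) hc
  refine ⟨𝒯.cl_mul h.1 hc', fun q => ?_⟩
  show (β : WithTop ℝ) < 𝒯.val q k i (z q * c q)
  rw [(𝒯.val_spec q k i).mul _ (h.1 q) _ (hc' q)]
  exact lt_of_lt_of_le (h.2 q) (le_add_of_nonneg_right (𝒯.val_const_ge hc q))

private theorem Big_const_mul {k : G} {i : S.I} {β : ℝ} {z c : ∀ q, 𝒯.D q} (h : 𝒯.Big k i β z)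
    (hc : c ∈ 𝒯.cl (S.Lt k i)) : 𝒯.Big k i β (c * z) := by
  have hc' := 𝒯.cl_mono (S.Lt_le_Le k i) hc
  refine ⟨𝒯.cl_mul hc' h.1, fun q => ?_⟩
  show (β : WithTop ℝ) < 𝒯.val q k i (c q * z q)
  rw [(𝒯.val_spec q k i).mul _ (hc' q) _ (h.1 q)]
  exact lt_of_lt_of_le (h.2 q) (le_add_of_nonneg_left (𝒯.val_const_ge hc q))

/-- conjugation by an element of `Le k i` preserves `cl (Lt k i)` -/
private theorem cl_Lt_conj {k : G} {i : S.I} {c : ∀ q, 𝒯.D q} (hc : c ∈ 𝒯.cl (S.Lt k i)) {a : A}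
    (ha : (a : G) ∈ S.Le k i) : 𝒯.al a⁻¹ * c * 𝒯.al a ∈ 𝒯.cl (S.Lt k i) := by
  intro q
  refine 𝒯.Dl_conj (q := q) (b := a) (fun h hh => ?_) (hc q)
  have h1 := S.Lt_norm hh ((S.Le k i).inv_mem ha)
  rwa [inv_inv] at h1

private theorem Hm_sum [Nonempty ι] {κ : Type*} {s : Finset κ} (hs : s.Nonempty) {k : G} {i : S.I}
    {d : ℝ} {f : κ → ∀ q, 𝒯.D q} (h : ∀ p ∈ s, f p ∈ 𝒯.Hm 𝒯.T k i d) :
    ∑ p ∈ s, f p ∈ 𝒯.Hm 𝒯.T k i d :=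
  Finset.sum_induction_nonempty f (fun z => z ∈ 𝒯.Hm 𝒯.T k i d)
    (fun _ _ h1 h2 => 𝒯.Hm_add h1 h2) hs h

private theorem Hm_mul {P Q : Set (∀ q, 𝒯.D q)} (hPc : 𝒯.ConjInv P)
    (hm : ∀ c ∈ P, ∀ c' ∈ Q, c * c' ∈ 𝒯.T) {k : G} {i : S.I} {d d' : ℝ} {z z' : ∀ q, 𝒯.D q}
    (h : z ∈ 𝒯.Hm P k i d) (h' : z' ∈ 𝒯.Hm Q k i d') : z * z' ∈ 𝒯.Hm 𝒯.T k i (d + d') := by
  obtain ⟨a, ha, had, c, hc, hcP, e⟩ := h
  obtain ⟨a', ha', had', c', hc', hcQ, e'⟩ := h'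
  refine ⟨a * a', ?_, ?_, 𝒯.al a'⁻¹ * c * 𝒯.al a' * c', ?_, ?_, ?_⟩
  · rw [MulMemClass.coe_mul]
    exact (S.Le k i).mul_mem ha ha'
  · rw [MulMemClass.coe_mul, S.deg_mul ha ha', had, had']
  · exact 𝒯.cl_mul (𝒯.cl_Lt_conj hc ha') hc'
  · exact hm _ (hPc c hcP a') _ hcQ
  · rw [e, e', 𝒯.al_mul]
    have h1 : 𝒯.al a * 𝒯.al a' * (𝒯.al a'⁻¹ * c * 𝒯.al a' * c') =
        𝒯.al a * (𝒯.al a' * (𝒯.al a'⁻¹ * (c * 𝒯.al a' * c'))) := by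
      simp only [mul_assoc]
    rw [h1, 𝒯.al_mul_inv]
    simp only [mul_assoc]

theorem App_mul_gen [Nonempty ι] {P Q : Set (∀ q, 𝒯.D q)} (hPc : 𝒯.ConjInv P)
    (hm : ∀ c ∈ P, ∀ c' ∈ Q, c * c' ∈ 𝒯.T) {k : G} {i : S.I} {z z' : ∀ q, 𝒯.D q}
    (h : 𝒯.App P k i z) (h' : 𝒯.App Q k i z') : 𝒯.App 𝒯.T k i (z * z') := by
  classical
  intro β
  obtain ⟨F, w, hF, hw, hB⟩ := h (max β 0)
  obtain ⟨F', w', hF', hw', hB'⟩ := h' (max β 0)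
  have hz := 𝒯.App_Big h
  have hz' := 𝒯.App_Big h'
  have hsw : 𝒯.Big k i 0 (∑ d ∈ F, w d) := by
    have h1 := 𝒯.Big_add hz (𝒯.Big_neg (𝒯.Big_mono (le_max_right β 0) hB))
    have e : z + -(z - ∑ d ∈ F, w d) = ∑ d ∈ F, w d := by abel
    rwa [e] at h1
  refine ⟨(F ×ˢ F').image (fun p => p.1 + p.2), fun e =>
    ∑ p ∈ (F ×ˢ F').filter (fun p => p.1 + p.2 = e), w p.1 * w' p.2, ?_, ?_, ?_⟩
  · intro e he
    obtain ⟨p, hp, rfl⟩ := Finset.mem_image.1 he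
    obtain ⟨h1, h2⟩ := Finset.mem_product.1 hp
    exact add_pos (hF _ h1) (hF' _ h2)
  · intro e he
    obtain ⟨p, hp, hpe⟩ := Finset.mem_image.1 he
    refine 𝒯.Hm_sum ⟨p, Finset.mem_filter.2 ⟨hp, hpe⟩⟩ ?_
    intro p' hp'
    obtain ⟨h1, h2⟩ := Finset.mem_filter.1 hp'
    obtain ⟨h3, h4⟩ := Finset.mem_product.1 h1
    rw [← h2]
    exact 𝒯.Hm_mul hPc hm (hw _ h3) (hw' _ h4)
  · have e1 : ∑ e ∈ (F ×ˢ F').image (fun p => p.1 + p.2),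
        ∑ p ∈ (F ×ˢ F').filter (fun p => p.1 + p.2 = e), w p.1 * w' p.2 =
        (∑ d ∈ F, w d) * ∑ d ∈ F', w' d := by
      rw [Finset.sum_fiberwise_of_maps_to (fun p hp => Finset.mem_image_of_mem _ hp),
        Finset.sum_mul_sum, Finset.sum_product]
    rw [e1]
    have e2 : z * z' - (∑ d ∈ F, w d) * ∑ d ∈ F', w' d =
        (z - ∑ d ∈ F, w d) * z' + (∑ d ∈ F, w d) * (z' - ∑ d ∈ F', w' d) := by
      rw [sub_mul, mul_sub]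
      abel
    rw [e2]
    refine 𝒯.Big_mono (le_max_left β 0) (𝒯.Big_add ?_ ?_)
    · have h1 := 𝒯.Big_mul hB hz'
      rwa [add_zero] at h1
    · have h1 := 𝒯.Big_mul hsw hB'
      rwa [zero_add] at h1

theorem App_mul_const {P : Set (∀ q, 𝒯.D q)} {k : G} {i : S.I} {z c : ∀ q, 𝒯.D q}
    (h : 𝒯.App P k i z) (hc : c ∈ 𝒯.cl (S.Lt k i)) (hm : ∀ c' ∈ P, c' * c ∈ 𝒯.T) :
    𝒯.App 𝒯.T k i (z * c) := by
  intro β
  obtain ⟨F, w, hF, hw, hB⟩ := h β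
  refine ⟨F, fun d => w d * c, hF, ?_, ?_⟩
  · intro d hd
    obtain ⟨a, ha, had, c1, hc1, hcP, e⟩ := hw d hd
    refine ⟨a, ha, had, c1 * c, 𝒯.cl_mul hc1 hc, hm c1 hcP, ?_⟩
    show w d * c = _
    rw [e, mul_assoc]
  · have e1 : z * c - ∑ d ∈ F, w d * c = (z - ∑ d ∈ F, w d) * c := by
      rw [sub_mul, Finset.sum_mul]
    show 𝒯.Big k i β (z * c - ∑ d ∈ F, w d * c)
    rw [e1]
    exact 𝒯.Big_mul_const hB hc

theorem App_const_mul {P : Set (∀ q, 𝒯.D q)} {k : G} {i : S.I} {z c : ∀ q, 𝒯.D q}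
    (h : 𝒯.App P k i z) (hc : c ∈ 𝒯.cl (S.Lt k i))
    (hm : ∀ c' ∈ P, ∀ a : A, 𝒯.al a⁻¹ * c * 𝒯.al a * c' ∈ 𝒯.T) :
    𝒯.App 𝒯.T k i (c * z) := by
  intro β
  obtain ⟨F, w, hF, hw, hB⟩ := h β
  refine ⟨F, fun d => c * w d, hF, ?_, ?_⟩
  · intro d hd
    obtain ⟨a, ha, had, c1, hc1, hcP, e⟩ := hw d hd
    refine ⟨a, ha, had, 𝒯.al a⁻¹ * c * 𝒯.al a * c1, 𝒯.cl_mul (𝒯.cl_Lt_conj hc ha) hc1,
      hm c1 hcP a, ?_⟩
    show c * w d = _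
    have h1 : 𝒯.al a * (𝒯.al a⁻¹ * c * 𝒯.al a * c1) =
        𝒯.al a * (𝒯.al a⁻¹ * (c * 𝒯.al a * c1)) := by
      simp only [mul_assoc]
    rw [e, h1, 𝒯.al_mul_inv, mul_assoc]
  · have e1 : c * z - ∑ d ∈ F, c * w d = c * (z - ∑ d ∈ F, w d) := by
      rw [mul_sub, Finset.mul_sum]
    show 𝒯.Big k i β (c * z - ∑ d ∈ F, c * w d)
    rw [e1]
    exact 𝒯.Big_const_mul hB hc

/-- hypotheses of the induction for products -/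
structure MulHyp (P1 P2 O : Set (∀ q, 𝒯.D q)) : Prop where
  p1 : P1 ⊆ 𝒯.T
  p2 : P2 ⊆ 𝒯.T
  o : O ⊆ 𝒯.T
  conj1 : 𝒯.ConjInv P1
  conjO : 𝒯.ConjInv O
  m1 : ∀ c ∈ P1, ∀ c' ∈ 𝒯.T, c * c' ∈ 𝒯.T
  m2 : ∀ c ∈ O, ∀ c' ∈ P2, c * c' ∈ 𝒯.T

private theorem mul_Nrm_aux [Nonempty ι] {P1 P2 O : Set (∀ q, 𝒯.D q)} (H : 𝒯.MulHyp P1 P2 O) {k : G}
    {x : ∀ q, 𝒯.D q} (hx : 𝒯.Nrm P1 k x) : (x ∈ P1 ∨ x ∈ O) → ∀ {y : ∀ q, 𝒯.D q},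
      𝒯.Nrm P2 k y → y ∈ 𝒯.T → 𝒯.Nrm 𝒯.T k (x * y) := by
  induction hx with
  | scal r hr =>
    intro _ y hy hyT
    induction hy with
    | scal r' hr' =>
      rw [← 𝒯.ro_mul]
      exact .scal _ (mul_ne_zero hr hr')
    | step i y y0 hu h0 hP hN hA ih =>
      have h0T := H.p2 hP
      refine .step i _ (𝒯.ro r * y0) (𝒯.cl_mul (𝒯.cl_ro _ r) hu) (𝒯.cl_mul (𝒯.cl_ro _ r) h0)
        (𝒯.T_ro h0T r).1 (ih h0T) ?_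
      rw [← mul_sub]
      refine 𝒯.App_const_mul hA (𝒯.cl_ro _ r) ?_
      intro c' hc' a
      have e : 𝒯.al a⁻¹ * 𝒯.ro r * 𝒯.al a = 𝒯.ro r := by
        rw [mul_assoc, 𝒯.ro_al, 𝒯.al_inv_mul]
      rw [e]
      exact (𝒯.T_ro (H.p2 hc') r).1
  | step i x x0 hu h0 hP hN hA ih =>
    intro hxg y hy hyT
    have hmx : ∀ c' ∈ P2, ∀ a : A, 𝒯.al a⁻¹ * x * 𝒯.al a * c' ∈ 𝒯.T := by
      intro c' hc' a
      rcases hxg with hxg | hxg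
      · exact H.m1 _ (H.conj1 x hxg a) _ (H.p2 hc')
      · exact H.m2 _ (H.conjO x hxg a) _ hc'
    have hmx' : ∀ c' ∈ P2, x * c' ∈ 𝒯.T := by
      intro c' hc'
      rcases hxg with hxg | hxg
      · exact H.m1 _ hxg _ (H.p2 hc')
      · exact H.m2 _ hxg _ hc'
    induction hy with
    | scal r' hr' =>
      refine .step i _ (x0 * 𝒯.ro r') (𝒯.cl_mul hu (𝒯.cl_ro _ r')) (𝒯.cl_mul h0 (𝒯.cl_ro _ r'))
        (𝒯.T_ro (H.p1 hP) r').2 (ih (Or.inl hP) (.scal r' hr') (𝒯.T_ro_mem r')) ?_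
      rw [← sub_mul]
      exact 𝒯.App_mul_const hA (𝒯.cl_ro _ r') (fun c' hc' => (𝒯.T_ro (H.p1 hc') r').2)
    | step i' y y0 hu' h0' hP' hN' hA' ih' =>
      have hyN : 𝒯.Nrm P2 k y := .step i' y y0 hu' h0' hP' hN' hA'
      rcases lt_trichotomy i i' with hi | hi | hi
      · have hxLt : x ∈ 𝒯.cl (S.Lt k i') := 𝒯.cl_mono (S.Le_le_Lt k hi) hu
        refine .step i' _ (x * y0) (𝒯.cl_mul (𝒯.cl_mono (S.Lt_le_Le k i') hxLt) hu')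
          (𝒯.cl_mul hxLt h0') (hmx' _ hP') (ih' (H.p2 hP')) ?_
        rw [← mul_sub]
        exact 𝒯.App_const_mul hA' hxLt hmx
      · subst hi
        refine .step i _ (x0 * y0) (𝒯.cl_mul hu hu') (𝒯.cl_mul h0 h0')
          (H.m1 _ hP _ (H.p2 hP')) (ih (Or.inl hP) hN' (H.p2 hP')) ?_
        have e : x * y - x0 * y0 = x0 * (y - y0) + (x - x0) * y0 + (x - x0) * (y - y0) := by
          simp only [sub_mul, mul_sub]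
          abel
        rw [e]
        refine 𝒯.App_add (𝒯.App_add ?_ ?_) ?_
        · exact 𝒯.App_const_mul hA' h0 (fun c' hc' a =>
            H.m1 _ (H.conj1 x0 hP a) _ (H.p2 hc'))
        · exact 𝒯.App_mul_const hA h0' (fun c' hc' => H.m1 _ hc' _ (H.p2 hP'))
        · exact 𝒯.App_mul_gen H.conj1 (fun c hc c' hc' => H.m1 c hc c' (H.p2 hc')) hA hA'
      · have hyLt : y ∈ 𝒯.cl (S.Lt k i) := 𝒯.cl_mono (S.Le_le_Lt k hi) hu'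
        refine .step i _ (x0 * y) (𝒯.cl_mul hu (𝒯.cl_mono (S.Lt_le_Le k i) hyLt))
          (𝒯.cl_mul h0 hyLt) (H.m1 _ hP _ hyT) (ih (Or.inl hP) hyN hyT) ?_
        rw [← sub_mul]
        exact 𝒯.App_mul_const hA hyLt (fun c' hc' => H.m1 _ hc' _ hyT)

theorem mul_Nrm [Nonempty ι] {P1 P2 O : Set (∀ q, 𝒯.D q)} (H : 𝒯.MulHyp P1 P2 O) {k : G}
    {x y : ∀ q, 𝒯.D q} (hx : 𝒯.Nrm P1 k x) (hxO : x ∈ O) (hy : 𝒯.Nrm P2 k y) (hyT : y ∈ 𝒯.T) :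
    𝒯.Nrm 𝒯.T k (x * y) := 𝒯.mul_Nrm_aux H hx (Or.inr hxO) hy hyT

/-- the families whose products with all members of `T` are in `T` -/
private def M1 : Set (∀ q, 𝒯.D q) := {x | x ∈ 𝒯.T ∧ ∀ y ∈ 𝒯.T, x * y ∈ 𝒯.T}

/-- the families whose left translates have a product with `x` in `T` -/
private def M2 (x : ∀ q, 𝒯.D q) : Set (∀ q, 𝒯.D q) :=
  {y | y ∈ 𝒯.T ∧ ∀ a : A, x * (𝒯.al a * y) ∈ 𝒯.T}

private theorem M1_conj : 𝒯.ConjInv 𝒯.M1 := by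
  rintro x ⟨hx, hxy⟩ b
  refine ⟨𝒯.T_conjInv x hx b, fun y hy => ?_⟩
  have e : 𝒯.al b⁻¹ * x * 𝒯.al b * y = 𝒯.al b⁻¹ * (x * (𝒯.al b * y)) := by
    simp only [mul_assoc]
  rw [e]
  exact 𝒯.T_al_mul (hxy _ (𝒯.T_al_mul hy b)) b⁻¹

private theorem mulHyp {x : ∀ q, 𝒯.D q} (hx : x ∈ 𝒯.T) :
    𝒯.MulHyp 𝒯.M1 (𝒯.M2 x) {v | ∃ a b : A, v = 𝒯.al a * x * 𝒯.al b} where
  p1 := fun _ h => h.1
  p2 := fun _ h => h.1
  o := by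
    rintro v ⟨a, b, rfl⟩
    exact 𝒯.T_mul_al (𝒯.T_al_mul hx a) b
  conj1 := 𝒯.M1_conj
  conjO := by
    rintro v ⟨a, b, rfl⟩ c
    refine ⟨c⁻¹ * a, b * c, ?_⟩
    rw [𝒯.al_mul, 𝒯.al_mul]
    simp only [mul_assoc]
  m1 := fun c hc c' hc' => hc.2 c' hc'
  m2 := by
    rintro c ⟨a, b, rfl⟩ c' hc'
    have e : 𝒯.al a * x * 𝒯.al b * c' = 𝒯.al a * (x * (𝒯.al b * c')) := by
      simp only [mul_assoc]
    rw [e]
    exact 𝒯.T_al_mul (hc'.2 b) a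

private theorem T_of_Phi' {x : ∀ q, 𝒯.D q} {P : Set (∀ q, 𝒯.D q)} (hP : P ⊆ 𝒯.T)
    (h : x ∈ 𝒯.Phi P) : x ∈ 𝒯.T := by
  rw [← 𝒯.T_fix]
  exact 𝒯.Phi_mono hP h

private theorem mul_main [Nonempty ι] {x y : ∀ q, 𝒯.D q} (hx : x ∈ 𝒯.Phi 𝒯.M1)
    (hy : y ∈ 𝒯.Phi (𝒯.M2 x)) (a0 : A) : x * (𝒯.al a0 * y) ∈ 𝒯.T := by
  have hxT : x ∈ 𝒯.T := 𝒯.T_of_Phi' (fun _ h => h.1) hx
  have hyT : y ∈ 𝒯.T := 𝒯.T_of_Phi' (fun _ h => h.1) hy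
  have H := 𝒯.mulHyp hxT
  have hx' : x * 𝒯.al a0 ∈ 𝒯.Phi 𝒯.M1 := 𝒯.Phi_mul_al 𝒯.M1_conj hx a0
  have hx'T : x * 𝒯.al a0 ∈ 𝒯.T := 𝒯.T_of_Phi' (fun _ h => h.1) hx'
  rw [← mul_assoc]
  generalize hX : x * 𝒯.al a0 = x' at hx' hx'T ⊢
  by_cases hx0 : x' = 0
  · rw [hx0, zero_mul]; exact 𝒯.T_zero
  by_cases hy0 : y = 0
  · rw [hy0, mul_zero]; exact 𝒯.T_zero
  obtain ⟨-, hx1, hx2⟩ : 𝒯.Gen ⊤ x' ∧ ((∀ k : G, ∃ a : A, 𝒯.Nrm 𝒯.M1 k (𝒯.al a⁻¹ * x')) ∧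
    (∀ k : G, ∃ a : A, 𝒯.Nrm 𝒯.M1 ((a : G)⁻¹ * k) (𝒯.al a⁻¹ * x'))) :=
    ⟨hx'.1, hx'.2.resolve_left hx0⟩
  obtain ⟨-, hy1, hy2⟩ : 𝒯.Gen ⊤ y ∧ ((∀ k : G, ∃ a : A, 𝒯.Nrm (𝒯.M2 x) k (𝒯.al a⁻¹ * y)) ∧
    (∀ k : G, ∃ a : A, 𝒯.Nrm (𝒯.M2 x) ((a : G)⁻¹ * k) (𝒯.al a⁻¹ * y))) :=
    ⟨hy.1, hy.2.resolve_left hy0⟩
  have hO : ∀ a b : A, 𝒯.al b⁻¹ * (𝒯.al a⁻¹ * x') * 𝒯.al b ∈
      {v | ∃ a b : A, v = 𝒯.al a * x * 𝒯.al b} := by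
    intro a b
    refine ⟨b⁻¹ * a⁻¹, a0 * b, ?_⟩
    rw [← hX, 𝒯.al_mul, 𝒯.al_mul]
    simp only [mul_assoc]
  have hprod : ∀ a b : A, 𝒯.al b⁻¹ * (𝒯.al a⁻¹ * x') * 𝒯.al b * (𝒯.al b⁻¹ * y) =
      𝒯.al (a * b)⁻¹ * (x' * y) := by
    intro a b
    rw [mul_assoc _ (𝒯.al b), 𝒯.al_mul_inv, mul_inv_rev, 𝒯.al_mul]
    simp only [mul_assoc]
  rw [← 𝒯.T_fix]
  refine ⟨.mul _ _ (𝒯.T_gen hx'T) (𝒯.T_gen hyT), Or.inr ⟨fun k => ?_, fun h => ?_⟩⟩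
  · obtain ⟨b, hb⟩ := hy1 k
    obtain ⟨a, ha⟩ := hx1 ((b : G) * k)
    have ha' := 𝒯.Nrm_conj 𝒯.M1_conj ha b
    rw [inv_mul_cancel_left] at ha'
    refine ⟨a * b, ?_⟩
    rw [← hprod]
    exact 𝒯.mul_Nrm H ha' (hO a b) hb (𝒯.T_al_mul hyT _)
  · obtain ⟨a, ha⟩ := hx2 h
    obtain ⟨b, hb⟩ := hy2 ((a : G)⁻¹ * h)
    have ha' := 𝒯.Nrm_conj 𝒯.M1_conj ha b
    refine ⟨a * b, ?_⟩
    have e : (((a * b : A) : G))⁻¹ * h = (b : G)⁻¹ * ((a : G)⁻¹ * h) := by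
      rw [MulMemClass.coe_mul, mul_inv_rev, mul_assoc]
    rw [← hprod, e]
    exact 𝒯.mul_Nrm H ha' (hO a b) hb (𝒯.T_al_mul hyT _)

theorem T_mul [Nonempty ι] {x y : ∀ q, 𝒯.D q} (hx : x ∈ 𝒯.T) (hy : y ∈ 𝒯.T) :
    x * y ∈ 𝒯.T := by
  have h1 : 𝒯.T ⊆ 𝒯.M1 := by
    refine 𝒯.T_ind ?_
    intro x hx
    have hx : x ∈ 𝒯.Phi 𝒯.M1 := 𝒯.Phi_mono Set.inter_subset_left hx
    refine ⟨𝒯.T_of_Phi' (fun _ h => h.1) hx, fun y hy => ?_⟩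
    have h2 : 𝒯.T ⊆ 𝒯.M2 x := by
      refine 𝒯.T_ind ?_
      intro y hy
      have hy : y ∈ 𝒯.Phi (𝒯.M2 x) := 𝒯.Phi_mono Set.inter_subset_left hy
      exact ⟨𝒯.T_of_Phi' (fun _ h => h.1) hy, fun a => 𝒯.mul_main hx hy a⟩
    have h3 := (h2 hy).2 1
    rwa [𝒯.al_one, one_mul] at h3
  exact (h1 hx).2 y hy

/-- the product of normalized families is normalized -/
theorem Nrm_mul [Nonempty ι] {k : G} {x y : ∀ q, 𝒯.D q} (hx : 𝒯.Nrm 𝒯.T k x)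
    (hy : 𝒯.Nrm 𝒯.T k y) (hxT : x ∈ 𝒯.T) (hyT : y ∈ 𝒯.T) : 𝒯.Nrm 𝒯.T k (x * y) :=
  𝒯.mul_Nrm (P1 := 𝒯.T) (P2 := 𝒯.T) (O := 𝒯.T)
    ⟨fun _ h => h, fun _ h => h, fun _ h => h, 𝒯.T_conjInv, 𝒯.T_conjInv,
      fun _ hc _ hc' => 𝒯.T_mul hc hc', fun _ hc _ hc' => 𝒯.T_mul hc hc'⟩ hx hxT hy hyT

end TSet

end Pool.Agent.HFT
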