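import Pool.Agent.HFT.TA

/-! # HFT/TR: residues (helper49)

PROOF. `App_lead`: `Nrm T k (al b⁻¹ * n)` with `l = b k`. `App` implies `XP`; by `XP_split` there are
`a ∈ Le k i` and `c ∈ cl (Lt k i) ∩ T`, `c ≠ 0`, with `App T k i (al a⁻¹ * n - c)`. All components of `c`
are nonzero (`T_nz`) of value `0`, so `val (al a⁻¹ * n) = 0` and `val n = deg a` in every component.
`App_Big`: `val n > 0`, so `deg a > 0`. By `lead_left` for `n = al b * (al b⁻¹ * n)`: `b ∈ Le k i` and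
`deg b = deg a > 0`.
`Nrm_res`: induction on `Nrm T k u`. `scal`: `δ = ro r`. `step i u u0`: if `i < j` then
`u ∈ cl (Le k i) ⊆ cl (Lt k j)`, `δ = u` (`Gen_of_cl`). If `j ≤ i`: the induction hypothesis for `u0`
gives `δ`. Let `n = u - u0`. If `n = 0` take the same `δ`. Otherwise `Ld n k l1` for some `l1`
(`Ld_ex`), and `ltj j k l1` by `App_lead`, `ltj_of_deg_pos`. If `u0 = δ` then `u - δ = n`: done.
Otherwise `u - δ = n + (u0 - δ)` with `Ld (u0 - δ) k l0`, `ltj j k l0`. If it is zero, `u = δ`.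
Otherwise `Ld (u - δ) k l` for some `l`, and by `Ld_add` not (`l < l1` and `l < l0`), so `l1 ≤ l` or
`l0 ≤ l` (`lt_tri`), and `ltj_of_ltj_of_lt` gives `ltj j k l`.
`Ld_res`: `h = a k`, `Nrm T k (al a⁻¹ * x)`, apply `Nrm_res`; `x - al a * δ = al a * (al a⁻¹ * x - δ)`,
`Ld_mul` with `Ld_al`, and `ltj_left`. -/

set_option autoImplicit false

universe u w

namespace Pool.Agent.HFT

namespace TSet

variable {G : Type u} [Group G] {S : ConradSys G} {R : Type u} [DivisionRing R] {A : Subgroup G}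
  {ι : Type} (𝒯 : TSet.{u, w} S R A ι)

private theorem XP_of_App {P : Set (∀ q, 𝒯.D q)} {k : G} {i : S.I} {z : ∀ q, 𝒯.D q}
    (h : 𝒯.App P k i z) : 𝒯.XP P k i z := by
  intro β
  obtain ⟨F, w, _, h2, h3⟩ := h β
  exact ⟨F, w, h2, h3⟩

private theorem Gen_sub {B : Subgroup G} {x y : ∀ q, 𝒯.D q} (hx : 𝒯.Gen B x) (hy : 𝒯.Gen B y) :
    𝒯.Gen B (x - y) := by
  rw [sub_eq_add_neg]
  exact .add _ _ hx (.neg _ hy)

theorem App_lead [Nonempty ι] {k l : G} {i : S.I} {n : ∀ q, 𝒯.D q} (hA : 𝒯.App 𝒯.T k i n)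
    (h : 𝒯.Ld n k l) : ∃ b : A, l = b * k ∧ (b : G) ∈ S.Le k i ∧ 0 < S.deg k i b := by
  have hne := 𝒯.Ld_ne h
  have hn0 : n ≠ 0 := by
    obtain ⟨q⟩ := ‹Nonempty ι›
    intro h2
    exact hne q (congrFun h2 q)
  obtain ⟨a, c, haLe, hcLt, hcT, hc0, hAc⟩ := 𝒯.XP_split (𝒯.XP_of_App hA) hn0
  have hcn := (𝒯.T_nz hcT).resolve_left hc0
  have hB := 𝒯.App_Big hAc
  have hBn := 𝒯.App_Big hA
  have hval : ∀ q, 𝒯.val q k i (n q) = ((S.deg k i a : ℝ) : WithTop ℝ) := by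
    intro q
    have hv := 𝒯.val_spec q k i
    have h1 : 𝒯.val q k i (c q) = 0 := hv.const _ (hcLt q) (hcn q)
    have h2 := hB.2 q
    have hcLe : c q ∈ 𝒯.Dl q (S.Le k i) := 𝒯.Dl_mono q (S.Lt_le_Le k i) (hcLt q)
    have h3 : 𝒯.val q k i (c q + (𝒯.al a⁻¹ * n - c) q) = 𝒯.val q k i (c q) := by
      apply 𝒯.IsVal_add_eq hv hcLe (hB.1 q)
      rw [h1]
      exact h2
    have h4 : c q + (𝒯.al a⁻¹ * n - c) q = 𝒯.al a⁻¹ q * n q := by
      rw [Pi.sub_apply, Pi.mul_apply, add_sub_cancel]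
    rw [h4, h1] at h3
    have h5 : n q = 𝒯.α q a * (𝒯.al a⁻¹ q * n q) := by
      have h6 := congrFun (𝒯.al_mul_inv a n) q
      exact h6.symm
    have h7 : 𝒯.al a⁻¹ q * n q ∈ 𝒯.Dl q (S.Le k i) := by
      have h8 := 𝒯.cl_mul (𝒯.cl_al (B := S.Le k i) (a := a⁻¹) ((S.Le k i).inv_mem haLe)) hBn.1
      exact h8 q
    have h9 : 𝒯.α q a ∈ 𝒯.Dl q (S.Le k i) := 𝒯.cl_al haLe q
    rw [h5, hv.mul _ h9 _ h7, hv.deg a haLe, h3, add_zero]
  obtain ⟨b, rfl, hb⟩ := h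
  have h1 := 𝒯.lead_left hb (i := i) (d := S.deg k i a) (b := b)
    (by rw [𝒯.al_mul_inv]; exact hBn.1) (fun q => by rw [𝒯.al_mul_inv]; exact hval q)
  refine ⟨b, rfl, h1.1, ?_⟩
  rw [h1.2]
  obtain ⟨q⟩ := ‹Nonempty ι›
  have h2 := hBn.2 q
  rw [hval q] at h2
  exact WithTop.coe_lt_coe.1 h2

theorem Nrm_res [Nonempty ι] {k : G} {u : ∀ q, 𝒯.D q} (h : 𝒯.Nrm 𝒯.T k u) (hu : 𝒯.Gen ⊤ u)
    (j : S.I) : ∃ δ, 𝒯.Gen (S.Lt k j) δ ∧ (u = δ ∨ ∃ l, 𝒯.Ld (u - δ) k l ∧ S.ltj j k l) := by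
  induction h with
  | scal r hr => exact ⟨𝒯.ro r, .ro r, Or.inl rfl⟩
  | step i u u0 huc h0 hP _ hA ih =>
    rcases lt_or_ge i j with hij | hij
    · exact ⟨u, 𝒯.Gen_of_cl hu (𝒯.cl_mono (S.Le_le_Lt k hij) huc), Or.inl rfl⟩
    · have hu0 : 𝒯.Gen ⊤ u0 := 𝒯.T_gen hP
      obtain ⟨δ, hδ, hδ'⟩ := ih hu0
      refine ⟨δ, hδ, ?_⟩
      by_cases hn : u - u0 = 0
      · rw [sub_eq_zero.1 hn]
        exact hδ'
      · have hng : 𝒯.Gen ⊤ (u - u0) := 𝒯.Gen_sub hu hu0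
        obtain ⟨l1, hl1⟩ := 𝒯.Ld_ex hng hn k
        obtain ⟨b, hb1, hb2, hb3⟩ := 𝒯.App_lead hA hl1
        have hj1 : S.ltj j k l1 := by
          rw [hb1]; exact S.ltj_of_deg_pos hb2 hb3 hij
        rcases hδ' with hδ' | ⟨l0, hl0, hj0⟩
        · right
          refine ⟨l1, ?_, hj1⟩
          rw [← hδ']
          exact hl1
        · by_cases hd : u - δ = 0
          · left; exact sub_eq_zero.1 hd
          · right
            have hδg : 𝒯.Gen ⊤ δ := 𝒯.Gen_mono le_top hδ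
            obtain ⟨l, hl⟩ := 𝒯.Ld_ex (𝒯.Gen_sub hu hδg) hd k
            refine ⟨l, hl, ?_⟩
            have e : u - δ = (u - u0) + (u0 - δ) := by rw [sub_add_sub_cancel]
            have hl' := hl
            rw [e] at hl'
            have h3 := 𝒯.Ld_add hng (𝒯.Gen_sub hu0 hδg) hl1 hl0 hl'
            by_cases h4 : S.lt l l1
            · have h5 : ¬ S.lt l l0 := fun h5 => h3 ⟨h4, h5⟩
              rcases S.lt_tri l0 l with h6 | h6 | h6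
              · exact S.ltj_of_ltj_of_lt hj0 h6
              · rw [← h6]; exact hj0
              · exact absurd h6 h5
            · rcases S.lt_tri l1 l with h6 | h6 | h6
              · exact S.ltj_of_ltj_of_lt hj1 h6
              · rw [← h6]; exact hj1
              · exact absurd h6 h4

theorem Ld_res [Nonempty ι] {k h : G} {x : ∀ q, 𝒯.D q} (hx : 𝒯.Gen ⊤ x) (h1 : 𝒯.Ld x k h)
    (j : S.I) : ∃ a : A, h = a * k ∧ ∃ δ, 𝒯.Gen (S.Lt k j) δ ∧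
      (x = 𝒯.al a * δ ∨ ∃ l, 𝒯.Ld (x - 𝒯.al a * δ) k l ∧ S.ltj j h l) := by
  obtain ⟨a, rfl, ha⟩ := h1
  have hg : 𝒯.Gen ⊤ (𝒯.al a⁻¹ * x) := .mul _ _ (.al _ (Subgroup.mem_top _)) hx
  obtain ⟨δ, hδ, hδ'⟩ := 𝒯.Nrm_res ha hg j
  refine ⟨a, rfl, δ, hδ, ?_⟩
  rcases hδ' with h2 | ⟨l, hl, hj⟩
  · left
    rw [← h2, 𝒯.al_mul_inv]
  · right
    refine ⟨a * l, ?_, S.ltj_left (a : G) hj⟩
    have e : x - 𝒯.al a * δ = 𝒯.al a * (𝒯.al a⁻¹ * x - δ) := by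
      rw [mul_sub, 𝒯.al_mul_inv]
    rw [e]
    exact 𝒯.Ld_mul (.al _ (Subgroup.mem_top _)) (𝒯.Gen_sub hg (𝒯.Gen_mono le_top hδ)) hl
      (𝒯.Ld_al a l)

end TSet

end Pool.Agent.HFT
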