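import Pool.Agent.HFT.TZ

/-! # HFT/TS: expansions of sums (helper49)

PROOF. `XP_add`: for `β` take `F, w` for `u` and `F', w'` for `v`; on `F ∪ F'` take
`W d := (if d ∈ F then w d else 0) + (if d ∈ F' then w' d else 0)`. If `d ∈ F ∩ F'`,
`w d = al a * c`, `w' d = al a' * c'` with `a, a'` of the same degree `d`: `W d = al a * (c + al (a⁻¹a') * c')`,
where `a⁻¹a' ∈ Lt k i`, so `al (a⁻¹a') * c' ∈ cl (Lt k i) ∩ Q` (`LeftInv Q`) and `c + .. ∈ T`. If `d` is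
in only one of the sets, `W d ∈ Hm T` because `P, Q ⊆ T`. The remainder is the sum of the two remainders
(`Big_add`).
`XP_two`: `F = {0, d}`, `0 ≠ d`, exact equality (`Big_zero`).
`sum_left`. Let `j_u` be the level of the derivation of `u`: `u = ro r` (no level) or `Nrm.step i_u`;
the same for `w`; and `i_g` the level of `k⁻¹ g k` if `g ≠ 1` (`exists_level`).
If there is no level at all (`u = ro r`, `w = ro r'`, `g = 1`) then `u + w = ro (r + r')`.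
Otherwise let `i` be the largest of the levels. Then `u, w ∈ cl (Le k i)`, `g ∈ Le k i`, and
`u ∈ cl (Lt k i)` unless `i_u = i`; same for `w`, `g` (`Le_le_Lt`, `cl_ro`).
- `i_u = i`: `XP P1 k i u` (`XP_step`). If `i_w = i`: `XP P2 k i w`, `XP P2 k i (al g * w)` (`XP_left`) and
  `XP_add` with `P := P1`, `Q := P2`. If `i_w ≠ i`: `w ∈ cl (Lt k i) ∩ T`, `XP T k i (al g * w)` by
  `XP_const`, `XP_left`, and `XP_add` with `P := P1`, `Q := T` (`s1`; `T` is left invariant).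
- `i_u ≠ i`, `i_w = i`: `XP O k i u` by `XP_const`, and `XP_add` with `P := O`, `Q := P2` (`s2`).
- `i_u, i_w ≠ i`: then `i_g = i` and `deg g ≠ 0`: `XP_two`.
`sum_right`: the same with `XP_right` instead of `XP_left` (in the last case
`w * al g = al g * (al g⁻¹ * w * al g)` and `al g⁻¹ * w * al g ∈ cl (Lt k i) ∩ T`, because `g ∈ Le k i`
normalizes `Lt k i`: `Lt_norm`, `Dl_conj`). -/

set_option autoImplicit false

universe u w

namespace Pool.Agent.HFT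

namespace TSet

variable {G : Type u} [Group G] {S : ConradSys G} {R : Type u} [DivisionRing R] {A : Subgroup G}
  {ι : Type} (𝒯 : TSet.{u, w} S R A ι)

theorem XP_add {P Q : Set (∀ q, 𝒯.D q)} (hP : P ⊆ 𝒯.T) (hQ : Q ⊆ 𝒯.T) (hQl : 𝒯.LeftInv Q)
    (hadd : ∀ c ∈ P, ∀ c' ∈ Q, c + c' ∈ 𝒯.T) {k : G} {i : S.I} {x y : ∀ q, 𝒯.D q}
    (hx : 𝒯.XP P k i x) (hy : 𝒯.XP Q k i y) : 𝒯.XP 𝒯.T k i (x + y) := by
  classical
  intro β
  obtain ⟨F, w, hw, hB⟩ := hx β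
  obtain ⟨F', w', hw', hB'⟩ := hy β
  refine ⟨F ∪ F', fun d => (if d ∈ F then w d else 0) + (if d ∈ F' then w' d else 0), ?_, ?_⟩
  · intro d hd
    show (if d ∈ F then w d else 0) + (if d ∈ F' then w' d else 0) ∈ 𝒯.Hm 𝒯.T k i d
    by_cases h1 : d ∈ F
    · by_cases h2 : d ∈ F'
      · rw [if_pos h1, if_pos h2]
        obtain ⟨a, ha, had, c, hc, hcP, e⟩ := hw d h1
        obtain ⟨a', ha', had', c', hc', hcQ, e'⟩ := hw' d h2
        have hLe : ((a⁻¹ * a' : A) : G) ∈ S.Le k i := by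
          push_cast
          exact (S.Le k i).mul_mem ((S.Le k i).inv_mem ha) ha'
        have hdeg : S.deg k i ((a⁻¹ * a' : A) : G) = 0 := by
          push_cast
          rw [S.deg_mul ((S.Le k i).inv_mem ha) ha', S.deg_inv ha, had, had']
          ring
        have hLt : ((a⁻¹ * a' : A) : G) ∈ S.Lt k i := (S.deg_zero_iff hLe).1 hdeg
        refine ⟨a, ha, had, c + 𝒯.al (a⁻¹ * a') * c', ?_, ?_, ?_⟩
        · exact 𝒯.cl_add hc (𝒯.cl_mul (𝒯.cl_al hLt) hc')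
        · exact hadd c hcP _ (hQl c' hcQ _)
        · rw [e, e', mul_add, 𝒯.al_mul, mul_assoc, 𝒯.al_mul_inv]
      · rw [if_pos h1, if_neg h2, add_zero]
        exact 𝒯.Hm_mono hP (hw d h1)
    · have h2 : d ∈ F' := by
        rcases Finset.mem_union.1 hd with h | h
        · exact absurd h h1
        · exact h
      rw [if_neg h1, if_pos h2, zero_add]
      exact 𝒯.Hm_mono hQ (hw' d h2)
  · have e : ∑ d ∈ F ∪ F', ((if d ∈ F then w d else 0) + (if d ∈ F' then w' d else 0)) =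
        ∑ d ∈ F, w d + ∑ d ∈ F', w' d := by
      rw [Finset.sum_add_distrib, Finset.sum_ite_mem, Finset.sum_ite_mem,
        Finset.union_inter_cancel_left, Finset.union_inter_cancel_right]
    rw [e]
    have e2 : x + y - (∑ d ∈ F, w d + ∑ d ∈ F', w' d) =
        (x - ∑ d ∈ F, w d) + (y - ∑ d ∈ F', w' d) := by abel
    rw [e2]
    exact 𝒯.Big_add hB hB'

theorem XP_two {k : G} {i : S.I} {d : ℝ} (hd : d ≠ 0) {x y : ∀ q, 𝒯.D q}
    (hx : x ∈ 𝒯.cl (S.Lt k i)) (hxT : x ∈ 𝒯.T) (hy : y ∈ 𝒯.Hm 𝒯.T k i d) :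
    𝒯.XP 𝒯.T k i (x + y) := by
  classical
  intro β
  refine ⟨{0, d}, fun e => if e = 0 then x else y, ?_, ?_⟩
  · intro e he
    show (if e = 0 then x else y) ∈ 𝒯.Hm 𝒯.T k i e
    rw [Finset.mem_insert, Finset.mem_singleton] at he
    rcases he with rfl | rfl
    · rw [if_pos rfl]
      refine ⟨1, ?_, ?_, x, hx, hxT, ?_⟩
      · rw [OneMemClass.coe_one]
        exact (S.Le k i).one_mem
      · rw [OneMemClass.coe_one]
        exact S.deg_one k i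
      · rw [𝒯.al_one, one_mul]
    · rw [if_neg hd]
      exact hy
  · have e : ∑ e ∈ ({0, d} : Finset ℝ), (if e = 0 then x else y) = x + y := by
      rw [Finset.sum_pair hd.symm, if_pos rfl, if_neg hd]
    rw [e, sub_self]
    exact 𝒯.Big_zero k i β

/-- hypotheses of the induction for sums -/
structure SumHyp (P1 P2 O : Set (∀ q, 𝒯.D q)) : Prop where
  p1 : P1 ⊆ 𝒯.T
  p2 : P2 ⊆ 𝒯.T
  o : O ⊆ 𝒯.T
  left2 : 𝒯.LeftInv P2
  conj2 : 𝒯.ConjInv P2
  s1 : ∀ c ∈ P1, ∀ c' ∈ 𝒯.T, c + c' ∈ 𝒯.T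
  s2 : ∀ c ∈ O, ∀ c' ∈ P2, c + c' ∈ 𝒯.T

/-- the level of a normalized family -/
private theorem exists_lv {P : Set (∀ q, 𝒯.D q)} {k : G} {u : ∀ q, 𝒯.D q} (h : 𝒯.Nrm P k u) :
    ∃ j : WithBot S.I, (j = ⊥ → ∃ r, u = 𝒯.ro r) ∧
      (∀ i : S.I, j = (i : WithBot S.I) → 𝒯.XP P k i u) ∧
      ∀ i : S.I, j < (i : WithBot S.I) → u ∈ 𝒯.cl (S.Lt k i) := by
  cases h with
  | scal r hr =>
    exact ⟨⊥, fun _ => ⟨r, rfl⟩, fun i hi => absurd hi.symm WithBot.coe_ne_bot,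
      fun i _ => 𝒯.cl_ro _ r⟩
  | step i u u0 hu h0 hP hN hA =>
    refine ⟨(i : WithBot S.I), fun h => absurd h WithBot.coe_ne_bot, fun i' hi' => ?_,
      fun i' hi' => 𝒯.cl_mono (S.Le_le_Lt k (WithBot.coe_lt_coe.1 hi')) hu⟩
    obtain rfl := WithBot.coe_injective hi'
    exact 𝒯.XP_step h0 hP hA

theorem sum_left {P1 P2 O : Set (∀ q, 𝒯.D q)} (H : 𝒯.SumHyp P1 P2 O) {k : G} {x y : ∀ q, 𝒯.D q}
    (hx : 𝒯.Nrm P1 k x) (hxO : x ∈ O) (hy : 𝒯.Nrm P2 k y) (hyT : y ∈ 𝒯.T) (g : A) :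
    (∃ i, 𝒯.XP 𝒯.T k i (x + 𝒯.al g * y)) ∨ ∃ r, x + 𝒯.al g * y = 𝒯.ro r := by
  obtain ⟨jx, hx1, hx2, hx3⟩ := 𝒯.exists_lv hx
  obtain ⟨jy, hy1, hy2, hy3⟩ := 𝒯.exists_lv hy
  obtain ⟨jg, hjg⟩ : ∃ jg, jg = S.lev (k⁻¹ * (g : G) * k) := ⟨_, rfl⟩
  have hTl : 𝒯.LeftInv 𝒯.T := fun c hc b => 𝒯.T_al_mul hc b
  by_cases hm : max (max jx jy) jg = ⊥
  · rw [max_eq_bot, max_eq_bot] at hm
    obtain ⟨⟨h1, h2⟩, h3⟩ := hm
    obtain ⟨r, er⟩ := hx1 h1
    obtain ⟨r', er'⟩ := hy1 h2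
    rw [h3] at hjg
    have h4 := (S.lev_bot _).1 hjg.symm
    have h5 : (g : G) = 1 := by
      have h6 : (g : G) = k * (k⁻¹ * (g : G) * k) * k⁻¹ := by group
      rw [h6, h4]
      group
    have hg1 : g = 1 := Subtype.ext h5
    right
    refine ⟨r + r', ?_⟩
    rw [er, er', hg1, 𝒯.al_one, one_mul, 𝒯.ro_add]
  · obtain ⟨i, hi⟩ := WithBot.ne_bot_iff_exists.1 hm
    have hxi : jx ≤ (i : WithBot S.I) := by
      rw [hi]
      exact le_trans (le_max_left _ _) (le_max_left _ _)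
    have hyi : jy ≤ (i : WithBot S.I) := by
      rw [hi]
      exact le_trans (le_max_right _ _) (le_max_left _ _)
    have hgi : jg ≤ (i : WithBot S.I) := by
      rw [hi]
      exact le_max_right _ _
    have hgLe : (g : G) ∈ S.Le k i := by
      rw [S.mem_Le, ← hjg]
      exact hgi
    rcases hxi.eq_or_lt with hxi | hxi
    · rcases hyi.eq_or_lt with hyi | hyi
      · exact Or.inl ⟨i, 𝒯.XP_add H.p1 H.p2 H.left2 (fun c hc c' hc' => H.s1 c hc c' (H.p2 hc'))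
          (hx2 i hxi) (𝒯.XP_left (hy2 i hyi) hgLe)⟩
      · have hyLt := hy3 i hyi
        exact Or.inl ⟨i, 𝒯.XP_add H.p1 (fun _ h => h) hTl H.s1 (hx2 i hxi) (𝒯.XP_left (𝒯.XP_const hyLt hyT) hgLe)⟩
    · have hxLt := hx3 i hxi
      rcases hyi.eq_or_lt with hyi | hyi
      · exact Or.inl ⟨i, 𝒯.XP_add H.o H.p2 H.left2 H.s2 (𝒯.XP_const hxLt hxO) (𝒯.XP_left (hy2 i hyi) hgLe)⟩
      · have hyLt := hy3 i hyi
        have hgi' : jg = (i : WithBot S.I) := by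
          rcases hgi.eq_or_lt with h | h
          · exact h
          · exfalso
            have h1 : max (max jx jy) jg < (i : WithBot S.I) := max_lt (max_lt hxi hyi) h
            rw [← hi] at h1
            exact absurd h1 (lt_irrefl _)
        have hgn : (g : G) ∉ S.Lt k i := by
          rw [S.mem_Lt, ← hjg, hgi']
          exact lt_irrefl _
        have hd : S.deg k i (g : G) ≠ 0 := fun h => hgn ((S.deg_zero_iff hgLe).1 h)
        exact Or.inl ⟨i, 𝒯.XP_two hd hxLt (H.o hxO) ⟨g, hgLe, rfl, y, hyLt, hyT, rfl⟩⟩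

theorem sum_right {P1 P2 O : Set (∀ q, 𝒯.D q)} (H : 𝒯.SumHyp P1 P2 O) {k : G} {x y : ∀ q, 𝒯.D q}
    (hx : 𝒯.Nrm P1 k x) (hxO : x ∈ O) (hy : 𝒯.Nrm P2 k y) (hyT : y ∈ 𝒯.T) (g : A) :
    (∃ i, 𝒯.XP 𝒯.T k i (x + y * 𝒯.al g)) ∨ ∃ r, x + y * 𝒯.al g = 𝒯.ro r := by
  obtain ⟨jx, hx1, hx2, hx3⟩ := 𝒯.exists_lv hx
  obtain ⟨jy, hy1, hy2, hy3⟩ := 𝒯.exists_lv hy
  obtain ⟨jg, hjg⟩ : ∃ jg, jg = S.lev (k⁻¹ * (g : G) * k) := ⟨_, rfl⟩
  have hTl : 𝒯.LeftInv 𝒯.T := fun c hc b => 𝒯.T_al_mul hc b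
  by_cases hm : max (max jx jy) jg = ⊥
  · rw [max_eq_bot, max_eq_bot] at hm
    obtain ⟨⟨h1, h2⟩, h3⟩ := hm
    obtain ⟨r, er⟩ := hx1 h1
    obtain ⟨r', er'⟩ := hy1 h2
    rw [h3] at hjg
    have h4 := (S.lev_bot _).1 hjg.symm
    have h5 : (g : G) = 1 := by
      have h6 : (g : G) = k * (k⁻¹ * (g : G) * k) * k⁻¹ := by group
      rw [h6, h4]
      group
    have hg1 : g = 1 := Subtype.ext h5
    right
    refine ⟨r + r', ?_⟩
    rw [er, er', hg1, 𝒯.al_one, mul_one, 𝒯.ro_add]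
  · obtain ⟨i, hi⟩ := WithBot.ne_bot_iff_exists.1 hm
    have hxi : jx ≤ (i : WithBot S.I) := by
      rw [hi]
      exact le_trans (le_max_left _ _) (le_max_left _ _)
    have hyi : jy ≤ (i : WithBot S.I) := by
      rw [hi]
      exact le_trans (le_max_right _ _) (le_max_left _ _)
    have hgi : jg ≤ (i : WithBot S.I) := by
      rw [hi]
      exact le_max_right _ _
    have hgLe : (g : G) ∈ S.Le k i := by
      rw [S.mem_Le, ← hjg]
      exact hgi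
    rcases hxi.eq_or_lt with hxi | hxi
    · rcases hyi.eq_or_lt with hyi | hyi
      · exact Or.inl ⟨i, 𝒯.XP_add H.p1 H.p2 H.left2 (fun c hc c' hc' => H.s1 c hc c' (H.p2 hc'))
          (hx2 i hxi) (𝒯.XP_right H.conj2 (hy2 i hyi) hgLe)⟩
      · have hyLt := hy3 i hyi
        exact Or.inl ⟨i, 𝒯.XP_add H.p1 (fun _ h => h) hTl H.s1 (hx2 i hxi) (𝒯.XP_right 𝒯.T_conjInv (𝒯.XP_const hyLt hyT) hgLe)⟩
    · have hxLt := hx3 i hxi
      rcases hyi.eq_or_lt with hyi | hyi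
      · exact Or.inl ⟨i, 𝒯.XP_add H.o H.p2 H.left2 H.s2 (𝒯.XP_const hxLt hxO) (𝒯.XP_right H.conj2 (hy2 i hyi) hgLe)⟩
      · have hyLt := hy3 i hyi
        have hgi' : jg = (i : WithBot S.I) := by
          rcases hgi.eq_or_lt with h | h
          · exact h
          · exfalso
            have h1 : max (max jx jy) jg < (i : WithBot S.I) := max_lt (max_lt hxi hyi) h
            rw [← hi] at h1
            exact absurd h1 (lt_irrefl _)
        have hgn : (g : G) ∉ S.Lt k i := by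
          rw [S.mem_Lt, ← hjg, hgi']
          exact lt_irrefl _
        have hd : S.deg k i (g : G) ≠ 0 := fun h => hgn ((S.deg_zero_iff hgLe).1 h)
        have hc : 𝒯.al g⁻¹ * y * 𝒯.al g ∈ 𝒯.cl (S.Lt k i) := by
          intro q
          refine 𝒯.Dl_conj (q := q) (b := g) (fun h hh => ?_) (hyLt q)
          have h1 := S.Lt_norm hh ((S.Le k i).inv_mem hgLe)
          rwa [inv_inv] at h1
        refine Or.inl ⟨i, 𝒯.XP_two hd hxLt (H.o hxO) ⟨g, hgLe, rfl, 𝒯.al g⁻¹ * y * 𝒯.al g, hc,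
          𝒯.T_conjInv y hyT g, ?_⟩⟩
        rw [mul_assoc, 𝒯.al_mul_inv]

end TSet

end Pool.Agent.HFT
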