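import Pool.Agent.HFT.TB

/-! # HFT/TT: translations (helper49)

PROOF. `Hm_conj`: `al b⁻¹ * (al a * c) * al b = al (b⁻¹ab) * (al b⁻¹ * c * al b)`; membership in
`Le (b⁻¹k) i`, degree: `S.Le_conj`, `S.deg_conj`; `cl (Lt ..)`: `Dl_conj`.
`App_conj`: conjugate the approximating sums, `val_conj` for the remainder (`Big`).
`Nrm_conj`: induction on `Nrm`: `scal`: `ro r` commutes with `al b`; `step`: `Dl_conj`, `App_conj`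
and the induction hypothesis.
`Phi_al_mul`: for `x ∈ Phi P` and `b : A`, `al b * x ∈ Phi P` for every `P` whatsoever: `Gen ⊤` is
closed under products; for the position `k` take `a' = b a` where `a` is given by `x` at `k`:
`al (ba)⁻¹ * (al b * x) = al a⁻¹ * x`; for the target `h` take `a` given by `x` for the target
`b⁻¹ h` and `a' = b a`: `(ba)⁻¹ h = a⁻¹ (b⁻¹ h)`.
`Phi_mul_al`: if `P` is invariant under conjugation then `x ∈ Phi P` implies `x * al b ∈ Phi P`: at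
the position `k` take `a` given by `x` at `b k` and `a' = a b`:
`al (ab)⁻¹ * (x * al b) = al b⁻¹ * (al a⁻¹ * x) * al b`, normalized at `b⁻¹ (b k) = k` by `Nrm_conj`;
for the target `h` take `a` given by `x` for the target `h`, `a' = a b`:
`Nrm (a⁻¹h) (al a⁻¹ x)` conjugated by `b` gives `Nrm (b⁻¹ a⁻¹ h) (al b⁻¹ al a⁻¹ x al b)`.
`T_al_mul`: `T = Phi T` and `Phi_al_mul`. `T_mul_al`: let `P := {x ∈ T | ∀ b, x * al b ∈ T}`. `P` is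
invariant under conjugation (`al b⁻¹ * x * al b * al b' = al b⁻¹ * (x * al (b b'))`, `T_al_mul`), so
by `Phi_mul_al` for `P ∩ T = P`: `x ∈ Phi P` gives `x * al b ∈ Phi P ⊆ Phi T = T`; hence
`Phi (P ∩ T) ⊆ P` and `T_ind`.
`T_ro`: similarly with `P := {x ∈ T | ∀ r, ro r * x ∈ T ∧ x * ro r ∈ T}`; for `r ≠ 0`:
`Nrm P k u → Nrm T k (ro r * u)` and `Nrm P k u → Nrm T k (u * ro r)` by induction on `Nrm`
(`ro r * (al a * c) = al a * (ro r * c)`, `val (ro r) = 0`, `(u - u0) * ro r = u * ro r - u0 * ro r`),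
and `al a⁻¹ * (ro r * x) = ro r * (al a⁻¹ * x)`; `r = 0` gives `0 ∈ T`.
`T_neg`: `-x = ro (-1) * x`.
`P_conj` versions are for the induction proofs of the later files. -/

set_option autoImplicit false

universe u w

namespace Pool.Agent.HFT

namespace TSet

variable {G : Type u} [Group G] {S : ConradSys G} {R : Type u} [DivisionRing R] {A : Subgroup G}
  {ι : Type} (𝒯 : TSet.{u, w} S R A ι)

/-- invariance of a set of families under conjugation by `A` -/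
def ConjInv (P : Set (∀ q, 𝒯.D q)) : Prop := ∀ x ∈ P, ∀ b : A, 𝒯.al b⁻¹ * x * 𝒯.al b ∈ P

/-- invariance of a set of families under left translations by `A` -/
def LeftInv (P : Set (∀ q, 𝒯.D q)) : Prop := ∀ x ∈ P, ∀ b : A, 𝒯.al b * x ∈ P

private theorem wt_lt {e β : ℝ} {x : WithTop ℝ} (h : (β : WithTop ℝ) < x) :
    ((e + β : ℝ) : WithTop ℝ) < (e : WithTop ℝ) + x := by
  cases x with
  | top =>
    rw [WithTop.add_top]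
    exact WithTop.coe_lt_top _
  | coe x =>
    have h4 : β < x := WithTop.coe_lt_coe.1 h
    rw [← WithTop.coe_add]
    apply WithTop.coe_lt_coe.2
    linarith

private theorem al_mem {q : ι} {B : Subgroup G} {b : A} (hb : (b : G) ∈ B) : 𝒯.α q b ∈ 𝒯.Dl q B :=
  𝒯.cl_al hb q

private theorem Big_al {k : G} {i : S.I} {β : ℝ} {z : ∀ q, 𝒯.D q} (h : 𝒯.Big k i β z) {b : A}
    (hb : (b : G) ∈ S.Le k i) : 𝒯.Big k i (S.deg k i b + β) (𝒯.al b * z) := by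
  refine ⟨𝒯.cl_mul (𝒯.cl_al hb) h.1, fun q => ?_⟩
  have hv := 𝒯.val_spec q k i
  show _ < 𝒯.val q k i (𝒯.α q b * z q)
  rw [hv.mul _ (al_mem 𝒯 hb) _ (h.1 q), hv.deg b hb]
  exact wt_lt (h.2 q)

private theorem Big_mal {k : G} {i : S.I} {β : ℝ} {z : ∀ q, 𝒯.D q} (h : 𝒯.Big k i β z) {b : A}
    (hb : (b : G) ∈ S.Le k i) : 𝒯.Big k i (S.deg k i b + β) (z * 𝒯.al b) := by
  refine ⟨𝒯.cl_mul h.1 (𝒯.cl_al hb), fun q => ?_⟩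
  have hv := 𝒯.val_spec q k i
  show _ < 𝒯.val q k i (z q * 𝒯.α q b)
  rw [hv.mul _ (h.1 q) _ (al_mem 𝒯 hb), hv.deg b hb, add_comm (𝒯.val q k i (z q))]
  exact wt_lt (h.2 q)

private theorem val_ro {q : ι} {k : G} {i : S.I} {r : R} (hr : r ≠ 0) : 𝒯.val q k i (𝒯.ρ q r) = 0 :=
  (𝒯.val_spec q k i).const _ (𝒯.cl_ro (S.Lt k i) r q) (𝒯.ro_ne hr q)

private theorem ro_mem {q : ι} (B : Subgroup G) (r : R) : 𝒯.ρ q r ∈ 𝒯.Dl q B := 𝒯.cl_ro B r q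

private theorem Big_ro {k : G} {i : S.I} {β : ℝ} {z : ∀ q, 𝒯.D q} (h : 𝒯.Big k i β z) {r : R}
    (hr : r ≠ 0) : 𝒯.Big k i β (𝒯.ro r * z) ∧ 𝒯.Big k i β (z * 𝒯.ro r) := by
  refine ⟨⟨𝒯.cl_mul (𝒯.cl_ro _ r) h.1, fun q => ?_⟩, ⟨𝒯.cl_mul h.1 (𝒯.cl_ro _ r), fun q => ?_⟩⟩
  · have hv := 𝒯.val_spec q k i
    show _ < 𝒯.val q k i (𝒯.ρ q r * z q)
    rw [hv.mul _ (ro_mem 𝒯 _ r) _ (h.1 q), val_ro 𝒯 hr, zero_add]
    exact h.2 q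
  · have hv := 𝒯.val_spec q k i
    show _ < 𝒯.val q k i (z q * 𝒯.ρ q r)
    rw [hv.mul _ (h.1 q) _ (ro_mem 𝒯 _ r), val_ro 𝒯 hr, add_zero]
    exact h.2 q

private theorem mem_conj_Le {k : G} {i : S.I} {g b : G} (h : g ∈ S.Le k i) : b⁻¹ * g * b ∈ S.Le (b⁻¹ * k) i := by
  rw [S.Le_conj]
  have e : b * (b⁻¹ * g * b) * b⁻¹ = g := by group
  rw [e]
  exact h

private theorem mem_conj_Lt {k : G} {i : S.I} {g b : G} (h : g ∈ S.Lt k i) : b⁻¹ * g * b ∈ S.Lt (b⁻¹ * k) i := by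
  rw [S.Lt_conj]
  have e : b * (b⁻¹ * g * b) * b⁻¹ = g := by group
  rw [e]
  exact h

private theorem cl_conj_Le {k : G} {i : S.I} {x : ∀ q, 𝒯.D q} (h : x ∈ 𝒯.cl (S.Le k i)) (b : A) :
    𝒯.al b⁻¹ * x * 𝒯.al b ∈ 𝒯.cl (S.Le ((b : G)⁻¹ * k) i) := fun q =>
  𝒯.Dl_conj (fun _ hg => mem_conj_Le hg) (h q)

private theorem cl_conj_Lt {k : G} {i : S.I} {x : ∀ q, 𝒯.D q} (h : x ∈ 𝒯.cl (S.Lt k i)) (b : A) :
    𝒯.al b⁻¹ * x * 𝒯.al b ∈ 𝒯.cl (S.Lt ((b : G)⁻¹ * k) i) := fun q =>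
  𝒯.Dl_conj (fun _ hg => mem_conj_Lt hg) (h q)

private theorem conj_sub (b : A) (x y : ∀ q, 𝒯.D q) :
    𝒯.al b⁻¹ * (x - y) * 𝒯.al b = 𝒯.al b⁻¹ * x * 𝒯.al b - 𝒯.al b⁻¹ * y * 𝒯.al b := by
  rw [mul_sub, sub_mul]

private theorem conj_sum (b : A) (F : Finset ℝ) (w : ℝ → ∀ q, 𝒯.D q) :
    𝒯.al b⁻¹ * (∑ d ∈ F, w d) * 𝒯.al b = ∑ d ∈ F, 𝒯.al b⁻¹ * w d * 𝒯.al b := by
  rw [Finset.mul_sum, Finset.sum_mul]

theorem Hm_conj {P : Set (∀ q, 𝒯.D q)} (hP : 𝒯.ConjInv P) {k : G} {i : S.I} {d : ℝ}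
    {z : ∀ q, 𝒯.D q} (h : z ∈ 𝒯.Hm P k i d) (b : A) :
    𝒯.al b⁻¹ * z * 𝒯.al b ∈ 𝒯.Hm P ((b : G)⁻¹ * k) i d := by
  obtain ⟨a, ha, hd, c, hc, hcP, rfl⟩ := h
  refine ⟨b⁻¹ * a * b, ?_, ?_, 𝒯.al b⁻¹ * c * 𝒯.al b, cl_conj_Lt 𝒯 hc b, hP c hcP b, ?_⟩
  · push_cast
    exact mem_conj_Le ha
  · push_cast
    rw [S.deg_conj]
    have e : (b : G) * ((b : G)⁻¹ * a * b) * (b : G)⁻¹ = a := by group
    rw [e, hd]
  · rw [𝒯.al_mul, 𝒯.al_mul]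
    simp only [mul_assoc]
    rw [← mul_assoc (𝒯.al b) (𝒯.al b⁻¹), ← 𝒯.al_mul, mul_inv_cancel, 𝒯.al_one, one_mul]

theorem Big_conj {k : G} {i : S.I} {β : ℝ} {z : ∀ q, 𝒯.D q} (h : 𝒯.Big k i β z) (b : A) :
    𝒯.Big ((b : G)⁻¹ * k) i β (𝒯.al b⁻¹ * z * 𝒯.al b) := by
  refine ⟨cl_conj_Le 𝒯 h.1 b, fun q => ?_⟩
  show _ < 𝒯.val q ((b : G)⁻¹ * k) i (𝒯.α q b⁻¹ * z q * 𝒯.α q b)
  rw [𝒯.val_conj q k i b (h.1 q)]
  exact h.2 q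

theorem App_conj {P : Set (∀ q, 𝒯.D q)} (hP : 𝒯.ConjInv P) {k : G} {i : S.I} {z : ∀ q, 𝒯.D q}
    (h : 𝒯.App P k i z) (b : A) : 𝒯.App P ((b : G)⁻¹ * k) i (𝒯.al b⁻¹ * z * 𝒯.al b) := by
  intro β
  obtain ⟨F, w, h1, h2, h3⟩ := h β
  refine ⟨F, fun d => 𝒯.al b⁻¹ * w d * 𝒯.al b, h1, fun d hd => 𝒯.Hm_conj hP (h2 d hd) b, ?_⟩
  have h4 := 𝒯.Big_conj h3 b
  rw [conj_sub, conj_sum] at h4
  exact h4

theorem Nrm_conj {P : Set (∀ q, 𝒯.D q)} (hP : 𝒯.ConjInv P) {k : G} {u : ∀ q, 𝒯.D q}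
    (h : 𝒯.Nrm P k u) (b : A) : 𝒯.Nrm P ((b : G)⁻¹ * k) (𝒯.al b⁻¹ * u * 𝒯.al b) := by
  induction h with
  | scal r hr =>
    have e : 𝒯.al b⁻¹ * 𝒯.ro r * 𝒯.al b = 𝒯.ro r := by
      rw [mul_assoc, 𝒯.ro_al, ← mul_assoc, ← 𝒯.al_mul, inv_mul_cancel, 𝒯.al_one, one_mul]
    rw [e]
    exact Nrm.scal r hr
  | step i u u0 hu h0 hP' hN hA ih =>
    refine Nrm.step i _ (𝒯.al b⁻¹ * u0 * 𝒯.al b) (cl_conj_Le 𝒯 hu b) (cl_conj_Lt 𝒯 h0 b) (hP _ hP' b) ih ?_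
    rw [← conj_sub]
    exact 𝒯.App_conj hP hA b

theorem Phi_al_mul {P : Set (∀ q, 𝒯.D q)} {x : ∀ q, 𝒯.D q} (h : x ∈ 𝒯.Phi P) (b : A) :
    𝒯.al b * x ∈ 𝒯.Phi P := by
  refine ⟨Gen.mul _ _ (Gen.al b trivial) h.1, ?_⟩
  rcases h.2 with h0 | ⟨h1, h2⟩
  · left
    rw [h0, mul_zero]
  · right
    have e : ∀ a : A, 𝒯.al (b * a)⁻¹ * (𝒯.al b * x) = 𝒯.al a⁻¹ * x := by
      intro a
      rw [mul_inv_rev, 𝒯.al_mul, mul_assoc, 𝒯.al_inv_mul]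
    refine ⟨fun k => ?_, fun k => ?_⟩
    · obtain ⟨a, ha⟩ := h1 k
      refine ⟨b * a, ?_⟩
      rw [e]
      exact ha
    · obtain ⟨a, ha⟩ := h2 ((b : G)⁻¹ * k)
      refine ⟨b * a, ?_⟩
      rw [e]
      have e2 : ((b * a : A) : G)⁻¹ * k = (a : G)⁻¹ * ((b : G)⁻¹ * k) := by
        push_cast
        group
      rw [e2]
      exact ha

theorem Phi_mul_al {P : Set (∀ q, 𝒯.D q)} (hP : 𝒯.ConjInv P) {x : ∀ q, 𝒯.D q} (h : x ∈ 𝒯.Phi P)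
    (b : A) : x * 𝒯.al b ∈ 𝒯.Phi P := by
  refine ⟨Gen.mul _ _ h.1 (Gen.al b trivial), ?_⟩
  rcases h.2 with h0 | ⟨h1, h2⟩
  · left
    rw [h0, zero_mul]
  · right
    have e : ∀ a : A, 𝒯.al (a * b)⁻¹ * (x * 𝒯.al b) = 𝒯.al b⁻¹ * (𝒯.al a⁻¹ * x) * 𝒯.al b := by
      intro a
      rw [mul_inv_rev, 𝒯.al_mul]
      simp only [mul_assoc]
    refine ⟨fun k => ?_, fun k => ?_⟩
    · obtain ⟨a, ha⟩ := h1 ((b : G) * k)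
      refine ⟨a * b, ?_⟩
      rw [e]
      have h3 := 𝒯.Nrm_conj hP ha b
      rwa [inv_mul_cancel_left] at h3
    · obtain ⟨a, ha⟩ := h2 k
      refine ⟨a * b, ?_⟩
      rw [e]
      have e2 : ((a * b : A) : G)⁻¹ * k = (b : G)⁻¹ * ((a : G)⁻¹ * k) := by
        push_cast
        group
      rw [e2]
      exact 𝒯.Nrm_conj hP ha b

theorem T_al_mul {x : ∀ q, 𝒯.D q} (h : x ∈ 𝒯.T) (b : A) : 𝒯.al b * x ∈ 𝒯.T := by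
  rw [← 𝒯.T_fix] at h ⊢
  exact 𝒯.Phi_al_mul h b

theorem T_mul_al {x : ∀ q, 𝒯.D q} (h : x ∈ 𝒯.T) (b : A) : x * 𝒯.al b ∈ 𝒯.T := by
  have key : 𝒯.T ⊆ {x | x ∈ 𝒯.T ∧ ∀ b : A, x * 𝒯.al b ∈ 𝒯.T} := by
    apply 𝒯.T_ind
    intro x hx
    have hconj : 𝒯.ConjInv ({x | x ∈ 𝒯.T ∧ ∀ b : A, x * 𝒯.al b ∈ 𝒯.T} ∩ 𝒯.T) := by
      rintro y ⟨⟨_, hy2⟩, _⟩ b
      have h1 : 𝒯.al b⁻¹ * y * 𝒯.al b ∈ 𝒯.T := by
        rw [mul_assoc]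
        exact 𝒯.T_al_mul (hy2 b) _
      refine ⟨⟨h1, fun b' => ?_⟩, h1⟩
      have e : 𝒯.al b⁻¹ * y * 𝒯.al b * 𝒯.al b' = 𝒯.al b⁻¹ * (y * 𝒯.al (b * b')) := by
        rw [𝒯.al_mul]
        simp only [mul_assoc]
      rw [e]
      exact 𝒯.T_al_mul (hy2 _) _
    have hsub := 𝒯.Phi_mono (P := {x | x ∈ 𝒯.T ∧ ∀ b : A, x * 𝒯.al b ∈ 𝒯.T} ∩ 𝒯.T) (P' := 𝒯.T)
      Set.inter_subset_right
    refine ⟨?_, fun b => ?_⟩
    · rw [← 𝒯.T_fix]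
      exact hsub hx
    · rw [← 𝒯.T_fix]
      exact hsub (𝒯.Phi_mul_al hconj hx b)
  exact (key h).2 b

theorem T_conjInv : 𝒯.ConjInv 𝒯.T := fun _ hx b =>
  𝒯.T_mul_al (𝒯.T_al_mul hx b⁻¹) b

private theorem App_ro {Q : Set (∀ q, 𝒯.D q)} {r : R} (hr : r ≠ 0)
    (hQ : ∀ c ∈ Q, 𝒯.ro r * c ∈ 𝒯.T ∧ c * 𝒯.ro r ∈ 𝒯.T) {k : G} {i : S.I} {z : ∀ q, 𝒯.D q}
    (h : 𝒯.App Q k i z) : 𝒯.App 𝒯.T k i (𝒯.ro r * z) ∧ 𝒯.App 𝒯.T k i (z * 𝒯.ro r) := by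
  refine ⟨fun β => ?_, fun β => ?_⟩
  · obtain ⟨F, w, h1, h2, h3⟩ := h β
    refine ⟨F, fun d => 𝒯.ro r * w d, h1, fun d hd => ?_, ?_⟩
    · obtain ⟨a, ha, hdeg, c, hc, hcQ, hw⟩ := h2 d hd
      refine ⟨a, ha, hdeg, 𝒯.ro r * c, 𝒯.cl_mul (𝒯.cl_ro _ r) hc, (hQ c hcQ).1, ?_⟩
      show 𝒯.ro r * w d = _
      rw [hw, ← mul_assoc, 𝒯.ro_al, mul_assoc]
    · have h4 := (Big_ro 𝒯 h3 hr).1
      rw [mul_sub, Finset.mul_sum] at h4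
      exact h4
  · obtain ⟨F, w, h1, h2, h3⟩ := h β
    refine ⟨F, fun d => w d * 𝒯.ro r, h1, fun d hd => ?_, ?_⟩
    · obtain ⟨a, ha, hdeg, c, hc, hcQ, hw⟩ := h2 d hd
      refine ⟨a, ha, hdeg, c * 𝒯.ro r, 𝒯.cl_mul hc (𝒯.cl_ro _ r), (hQ c hcQ).2, ?_⟩
      show w d * 𝒯.ro r = _
      rw [hw, mul_assoc]
    · have h4 := (Big_ro 𝒯 h3 hr).2
      rw [sub_mul, Finset.sum_mul] at h4
      exact h4

private theorem Nrm_ro {Q : Set (∀ q, 𝒯.D q)} {r : R} (hr : r ≠ 0)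
    (hQ : ∀ c ∈ Q, 𝒯.ro r * c ∈ 𝒯.T ∧ c * 𝒯.ro r ∈ 𝒯.T) {k : G} {u : ∀ q, 𝒯.D q}
    (h : 𝒯.Nrm Q k u) : 𝒯.Nrm 𝒯.T k (𝒯.ro r * u) ∧ 𝒯.Nrm 𝒯.T k (u * 𝒯.ro r) := by
  induction h with
  | scal r' hr' =>
    rw [← 𝒯.ro_mul, ← 𝒯.ro_mul]
    exact ⟨Nrm.scal _ (mul_ne_zero hr hr'), Nrm.scal _ (mul_ne_zero hr' hr)⟩
  | step i u u0 hu h0 hP' hN hA ih =>
    have h1 := App_ro 𝒯 hr hQ hA
    rw [mul_sub, sub_mul] at h1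
    exact ⟨Nrm.step i _ (𝒯.ro r * u0) (𝒯.cl_mul (𝒯.cl_ro _ r) hu) (𝒯.cl_mul (𝒯.cl_ro _ r) h0) (hQ _ hP').1 ih.1 h1.1,
      Nrm.step i _ (u0 * 𝒯.ro r) (𝒯.cl_mul hu (𝒯.cl_ro _ r)) (𝒯.cl_mul h0 (𝒯.cl_ro _ r)) (hQ _ hP').2 ih.2 h1.2⟩

theorem T_ro {x : ∀ q, 𝒯.D q} (h : x ∈ 𝒯.T) (r : R) : 𝒯.ro r * x ∈ 𝒯.T ∧ x * 𝒯.ro r ∈ 𝒯.T := by
  have key : 𝒯.T ⊆ {x | x ∈ 𝒯.T ∧ ∀ r : R, 𝒯.ro r * x ∈ 𝒯.T ∧ x * 𝒯.ro r ∈ 𝒯.T} := by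
    apply 𝒯.T_ind
    intro x hx
    have hsub := 𝒯.Phi_mono
      (P := {x | x ∈ 𝒯.T ∧ ∀ r : R, 𝒯.ro r * x ∈ 𝒯.T ∧ x * 𝒯.ro r ∈ 𝒯.T} ∩ 𝒯.T) (P' := 𝒯.T)
      Set.inter_subset_right
    refine ⟨by
      rw [← 𝒯.T_fix]
      exact hsub hx, fun r => ?_⟩
    by_cases hr : r = 0
    · rw [hr, 𝒯.ro_zero, zero_mul, mul_zero]
      exact ⟨𝒯.T_zero, 𝒯.T_zero⟩
    have hQ : ∀ c ∈ {x | x ∈ 𝒯.T ∧ ∀ r : R, 𝒯.ro r * x ∈ 𝒯.T ∧ x * 𝒯.ro r ∈ 𝒯.T} ∩ 𝒯.T,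
        𝒯.ro r * c ∈ 𝒯.T ∧ c * 𝒯.ro r ∈ 𝒯.T := fun c hc => hc.1.2 r
    have e1 : ∀ a : A, 𝒯.al a⁻¹ * (𝒯.ro r * x) = 𝒯.ro r * (𝒯.al a⁻¹ * x) := by
      intro a
      rw [← mul_assoc, ← 𝒯.ro_al, mul_assoc]
    have e2 : ∀ a : A, 𝒯.al a⁻¹ * (x * 𝒯.ro r) = (𝒯.al a⁻¹ * x) * 𝒯.ro r := by
      intro a
      rw [mul_assoc]
    rw [← 𝒯.T_fix]
    refine ⟨⟨Gen.mul _ _ (Gen.ro r) hx.1, ?_⟩, ⟨Gen.mul _ _ hx.1 (Gen.ro r), ?_⟩⟩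
    · rcases hx.2 with h0 | ⟨h1, h2⟩
      · left
        rw [h0, mul_zero]
      · right
        refine ⟨fun k => ?_, fun k => ?_⟩
        · obtain ⟨a, ha⟩ := h1 k
          exact ⟨a, by rw [e1]; exact (Nrm_ro 𝒯 hr hQ ha).1⟩
        · obtain ⟨a, ha⟩ := h2 k
          exact ⟨a, by rw [e1]; exact (Nrm_ro 𝒯 hr hQ ha).1⟩
    · rcases hx.2 with h0 | ⟨h1, h2⟩
      · left
        rw [h0, zero_mul]
      · right
        refine ⟨fun k => ?_, fun k => ?_⟩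
        · obtain ⟨a, ha⟩ := h1 k
          exact ⟨a, by rw [e2]; exact (Nrm_ro 𝒯 hr hQ ha).2⟩
        · obtain ⟨a, ha⟩ := h2 k
          exact ⟨a, by rw [e2]; exact (Nrm_ro 𝒯 hr hQ ha).2⟩
  exact (key h).2 r

theorem T_neg {x : ∀ q, 𝒯.D q} (h : x ∈ 𝒯.T) : -x ∈ 𝒯.T := by
  have e : -x = 𝒯.ro (-1) * x := by
    funext q
    show - (x q) = 𝒯.ρ q (-1) * x q
    rw [map_neg, map_one, neg_one_mul]
  rw [e]
  exact (𝒯.T_ro h _).1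

theorem T_ro_mem (r : R) : 𝒯.ro r ∈ 𝒯.T := by
  by_cases hr : r = 0
  · rw [hr, 𝒯.ro_zero]
    exact 𝒯.T_zero
  rw [← 𝒯.T_fix]
  have e : 𝒯.al (1 : A)⁻¹ * 𝒯.ro r = 𝒯.ro r := by rw [inv_one, 𝒯.al_one, one_mul]
  refine ⟨Gen.ro r, Or.inr ⟨fun k => ⟨1, ?_⟩, fun k => ⟨1, ?_⟩⟩⟩
  · rw [e]
    exact Nrm.scal r hr
  · rw [e]
    exact Nrm.scal r hr

theorem T_al_mem (a : A) : 𝒯.al a ∈ 𝒯.T := by
  have h := 𝒯.T_al_mul (𝒯.T_ro_mem 1) a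
  rwa [𝒯.ro_one, mul_one] at h

/-- left translations move the approximations along, when the degree is kept: by an element of
degree `0` -/
theorem App_left {P : Set (∀ q, 𝒯.D q)} {k : G} {i : S.I} {z : ∀ q, 𝒯.D q}
    (h : 𝒯.App P k i z) {b : A} (hb : (b : G) ∈ S.Lt k i) : 𝒯.App P k i (𝒯.al b * z) := by
  have hbLe := S.Lt_le_Le k i hb
  have hdeg : S.deg k i b = 0 := (S.deg_zero_iff hbLe).2 hb
  intro β
  obtain ⟨F, w, h1, h2, h3⟩ := h β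
  refine ⟨F, fun d => 𝒯.al b * w d, h1, fun d hd => ?_, ?_⟩
  · obtain ⟨a, ha, hd', c, hc, hcP, hw⟩ := h2 d hd
    refine ⟨b * a, ?_, ?_, c, hc, hcP, ?_⟩
    · push_cast
      exact (S.Le k i).mul_mem hbLe ha
    · push_cast
      rw [S.deg_mul hbLe ha, hdeg, hd', zero_add]
    · show 𝒯.al b * w d = _
      rw [hw, 𝒯.al_mul, mul_assoc]
  · have h4 := Big_al 𝒯 h3 hbLe
    rw [hdeg, zero_add, mul_sub, Finset.mul_sum] at h4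
    exact h4

/-- left translation of a general expansion -/
theorem XP_left {P : Set (∀ q, 𝒯.D q)} {k : G} {i : S.I} {z : ∀ q, 𝒯.D q}
    (h : 𝒯.XP P k i z) {b : A} (hb : (b : G) ∈ S.Le k i) : 𝒯.XP P k i (𝒯.al b * z) := by
  classical
  intro β
  obtain ⟨F, w, h2, h3⟩ := h (β - S.deg k i b)
  refine ⟨F.image (fun d => d + S.deg k i b), fun d => 𝒯.al b * w (d - S.deg k i b), fun e he => ?_, ?_⟩
  · obtain ⟨d, hd, rfl⟩ := Finset.mem_image.1 he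
    obtain ⟨a, ha, hd', c, hc, hcP, hw⟩ := h2 d hd
    refine ⟨b * a, ?_, ?_, c, hc, hcP, ?_⟩
    · push_cast
      exact (S.Le k i).mul_mem hb ha
    · push_cast
      rw [S.deg_mul hb ha, hd', add_comm]
    · show 𝒯.al b * w (d + S.deg k i b - S.deg k i b) = _
      rw [add_sub_cancel_right, hw, 𝒯.al_mul, mul_assoc]
  · have h4 := Big_al 𝒯 h3 hb
    rw [add_sub_cancel, mul_sub, Finset.mul_sum] at h4
    rw [Finset.sum_image (fun x _ y _ hxy => add_left_injective _ hxy)]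
    have e : ∑ d ∈ F, 𝒯.al b * w (d + S.deg k i b - S.deg k i b) = ∑ d ∈ F, 𝒯.al b * w d :=
      Finset.sum_congr rfl (fun d _ => by rw [add_sub_cancel_right])
    rw [e]
    exact h4

/-- right translation of a general expansion -/
theorem XP_right {P : Set (∀ q, 𝒯.D q)} (hP : 𝒯.ConjInv P) {k : G} {i : S.I} {z : ∀ q, 𝒯.D q}
    (h : 𝒯.XP P k i z) {b : A} (hb : (b : G) ∈ S.Le k i) : 𝒯.XP P k i (z * 𝒯.al b) := by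
  classical
  have hmove := (S.coset_move hb).1
  intro β
  obtain ⟨F, w, h2, h3⟩ := h (β - S.deg k i b)
  refine ⟨F.image (fun d => d + S.deg k i b), fun d => w (d - S.deg k i b) * 𝒯.al b, fun e he => ?_, ?_⟩
  · obtain ⟨d, hd, rfl⟩ := Finset.mem_image.1 he
    obtain ⟨a, ha, hd', c, hc, hcP, hw⟩ := h2 d hd
    refine ⟨a * b, ?_, ?_, 𝒯.al b⁻¹ * c * 𝒯.al b, ?_, hP c hcP b, ?_⟩
    · push_cast
      exact (S.Le k i).mul_mem ha hb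
    · push_cast
      rw [S.deg_mul ha hb, hd']
    · have h5 := cl_conj_Lt 𝒯 hc b
      rwa [S.coset_Lt hmove] at h5
    · show w (d + S.deg k i b - S.deg k i b) * 𝒯.al b = _
      rw [add_sub_cancel_right, hw, 𝒯.al_mul]
      simp only [mul_assoc]
      rw [𝒯.al_mul_inv]
  · have h4 := Big_mal 𝒯 h3 hb
    rw [add_sub_cancel, sub_mul, Finset.sum_mul] at h4
    rw [Finset.sum_image (fun x _ y _ hxy => add_left_injective _ hxy)]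
    have e : ∑ d ∈ F, w (d + S.deg k i b - S.deg k i b) * 𝒯.al b = ∑ d ∈ F, w d * 𝒯.al b :=
      Finset.sum_congr rfl (fun d _ => by rw [add_sub_cancel_right])
    rw [e]
    exact h4

/-- a family in `cl (Lt k i) ∩ P` is its own expansion -/
theorem XP_const {P : Set (∀ q, 𝒯.D q)} {k : G} {i : S.I} {z : ∀ q, 𝒯.D q}
    (hz : z ∈ 𝒯.cl (S.Lt k i)) (hP : z ∈ P) : 𝒯.XP P k i z := by
  intro β
  refine ⟨{0}, fun _ => z, fun d hd => ?_, ?_⟩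
  · rw [Finset.mem_singleton.1 hd]
    refine ⟨1, ?_, ?_, z, hz, hP, ?_⟩
    · push_cast
      exact (S.Le k i).one_mem
    · push_cast
      exact S.deg_one k i
    · rw [𝒯.al_one, one_mul]
  · rw [Finset.sum_singleton, sub_self]
    exact 𝒯.Big_zero k i β

/-- the data of `Nrm.step` give an expansion -/
theorem XP_step {P : Set (∀ q, 𝒯.D q)} {k : G} {i : S.I} {u u0 : ∀ q, 𝒯.D q}
    (h0 : u0 ∈ 𝒯.cl (S.Lt k i)) (hP : u0 ∈ P) (hA : 𝒯.App P k i (u - u0)) : 𝒯.XP P k i u := by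
  classical
  intro β
  obtain ⟨F, w, h1, h2, h3⟩ := hA β
  have h0F : (0 : ℝ) ∉ F := fun h => lt_irrefl _ (h1 0 h)
  refine ⟨insert 0 F, fun d => if d = 0 then u0 else w d, fun d hd => ?_, ?_⟩
  · rcases Finset.mem_insert.1 hd with rfl | hd
    · show (if (0 : ℝ) = 0 then u0 else w 0) ∈ _
      rw [if_pos rfl]
      refine ⟨1, ?_, ?_, u0, h0, hP, ?_⟩
      · push_cast
        exact (S.Le k i).one_mem
      · push_cast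
        exact S.deg_one k i
      · rw [𝒯.al_one, one_mul]
    · show (if d = 0 then u0 else w d) ∈ _
      rw [if_neg (h1 d hd).ne']
      exact h2 d hd
  · rw [Finset.sum_insert h0F, if_pos rfl]
    have e : ∑ d ∈ F, (if d = 0 then u0 else w d) = ∑ d ∈ F, w d :=
      Finset.sum_congr rfl (fun d hd => if_neg (h1 d hd).ne')
    rw [e, ← sub_sub]
    exact h3

private theorem Hm_coset {P : Set (∀ q, 𝒯.D q)} {k k' : G} {i : S.I} {d : ℝ}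
    (hk : S.lev (k⁻¹ * k') ≤ (i : WithBot S.I)) {z : ∀ q, 𝒯.D q} (h : z ∈ 𝒯.Hm P k i d) :
    z ∈ 𝒯.Hm P k' i d := by
  obtain ⟨a, ha, hd', c, hc, hcP, hw⟩ := h
  refine ⟨a, ?_, ?_, c, ?_, hcP, hw⟩
  · rw [S.coset_Le hk]
    exact ha
  · rw [S.coset_deg hk ha]
    exact hd'
  · rw [S.coset_Lt hk]
    exact hc

private theorem Big_coset {k k' : G} {i : S.I} {β : ℝ}
    (hk : S.lev (k⁻¹ * k') ≤ (i : WithBot S.I)) {z : ∀ q, 𝒯.D q} (h : 𝒯.Big k i β z) :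
    𝒯.Big k' i β z := by
  refine ⟨?_, fun q => ?_⟩
  · rw [S.coset_Le hk]
    exact h.1
  · rw [𝒯.val_coset q hk (h.1 q)]
    exact h.2 q

/-- expansions at level `i` do not change when `k` moves in its coset of level `i` -/
theorem XP_coset {P : Set (∀ q, 𝒯.D q)} {k k' : G} {i : S.I}
    (hk : S.lev (k⁻¹ * k') ≤ (i : WithBot S.I)) {z : ∀ q, 𝒯.D q} (h : 𝒯.XP P k i z) :
    𝒯.XP P k' i z := by
  intro β
  obtain ⟨F, w, h2, h3⟩ := h β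
  exact ⟨F, w, fun d hd => Hm_coset 𝒯 hk (h2 d hd), Big_coset 𝒯 hk h3⟩

theorem App_coset {P : Set (∀ q, 𝒯.D q)} {k k' : G} {i : S.I}
    (hk : S.lev (k⁻¹ * k') ≤ (i : WithBot S.I)) {z : ∀ q, 𝒯.D q} (h : 𝒯.App P k i z) :
    𝒯.App P k' i z := by
  intro β
  obtain ⟨F, w, h1, h2, h3⟩ := h β
  exact ⟨F, w, h1, fun d hd => Hm_coset 𝒯 hk (h2 d hd), Big_coset 𝒯 hk h3⟩

end TSet

end Pool.Agent.HFT
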