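import Pool.Agent.HFT.TDefs
import Pool.Agent.HFT.Lev
import Pool.Agent.HFT.OV

/-! # HFT/TVal: the valuations of a family (helper49)

PROOF. For fixed `q, k, i` apply `exists_isVgen` to `N := {a : A // (a : G) ∈ S.Le k i}` (the subgroup
`(S.Le k i).subgroupOf A`), `α := 𝒯.α q` restricted, `τ a := S.deg k i a`, `Δ := 𝒯.Dl q (S.Lt k i)`.
`GrData`: `hτ` is `S.deg_mul`; `ind` is `𝒯.jf`; `ker` since degree 0 means in `S.Lt k i`
(`S.deg_zero_iff`); `norm`: conjugation by `α a` maps the generators `ρ r` of `Δ` to themselves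
(`comm`) and `α b`, `b ∈ Lt k i`, to `α (a b a⁻¹)`, again in `Δ` by `S.Lt_norm`; conjugation by a unit
is a ring automorphism, so it maps `Δ` in itself (`Subfield.closure_induction`).
The closure of `Δ ∪ range α` is `𝒯.Dl q (S.Le k i)` (both inclusions by `Subfield.closure_le`;
`Lt_le_Le`). So the generic valuation is an `IsVal`, and conversely `IsVal` gives `IsVgen`, whence
uniqueness.
`val_conj`: `x ↦ α b⁻¹ x α b` maps `Dl q (Le k i)` onto `Dl q (Le (b⁻¹k) i)` and `Dl q (Lt k i)` onto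
`Dl q (Lt (b⁻¹k) i)` (`Le_conj`, `Lt_conj` in `Lev`); the function `x ↦ val q (b⁻¹k) i (α b⁻¹ x α b)`
is an `IsVal` for `(k, i)` (`deg_conj`), so it equals `val q k i` on `Dl q (Le k i)`.
`val_coset`: by `coset_Le`, `coset_Lt`, `coset_deg` the function `val q k' i` is an `IsVal` for
`(k, i)`.
`val_morph`: `x ↦ 𝒯.val q (s⁻¹k) i (ψ x)` is an `IsVal` for `𝒯'`. -/

set_option autoImplicit false

universe u w

namespace Pool.Agent.HFT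

namespace TSet

variable {G : Type u} [Group G] {S : ConradSys G} {R : Type u} [DivisionRing R] {A : Subgroup G}
  {ι : Type} (𝒯 : TSet.{u, w} S R A ι)

private theorem mem_Dl_ro (q : ι) (B : Subgroup G) (r : R) : 𝒯.ρ q r ∈ 𝒯.Dl q B :=
  Subfield.subset_closure (Or.inl ⟨r, rfl⟩)

private theorem mem_Dl_al (q : ι) (B : Subgroup G) (a : A) (ha : (a : G) ∈ B) :
    𝒯.α q a ∈ 𝒯.Dl q B :=
  Subfield.subset_closure (Or.inr ⟨a, ha, rfl⟩)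

private theorem Dl_le (q : ι) {B B' : Subgroup G} (h : B ≤ B') : 𝒯.Dl q B ≤ 𝒯.Dl q B' := by
  refine Subfield.closure_le.2 ?_
  rintro x (⟨r, rfl⟩ | ⟨b, hb, rfl⟩)
  · exact mem_Dl_ro 𝒯 q B' r
  · exact mem_Dl_al 𝒯 q B' b (h hb)

/-- a morphism of families maps the division subrings in each other -/
private theorem Dl_map {A' : Subgroup G} {ι' : Type} (𝒯' : TSet.{u, w} S R A' ι') (q : ι) (q' : ι')
    (s : G) (β : A' →* A) (hβ : ∀ a : A', ((β a : A) : G) = s⁻¹ * a * s) (ψ : 𝒯'.D q' →+* 𝒯.D q)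
    (hα : ∀ a, ψ (𝒯'.α q' a) = 𝒯.α q (β a)) (hρ : ∀ r, ψ (𝒯'.ρ q' r) = 𝒯.ρ q r)
    {B B' : Subgroup G} (hB : ∀ g ∈ B, s⁻¹ * g * s ∈ B') {x : 𝒯'.D q'} (hx : x ∈ 𝒯'.Dl q' B) :
    ψ x ∈ 𝒯.Dl q B' := by
  have h : 𝒯'.Dl q' B ≤ (𝒯.Dl q B').comap ψ := by
    refine Subfield.closure_le.2 ?_
    rintro y (⟨r, rfl⟩ | ⟨b, hb, rfl⟩)
    · show ψ (𝒯'.ρ q' r) ∈ 𝒯.Dl q B'
      rw [hρ]
      exact mem_Dl_ro 𝒯 q B' r
    · show ψ (𝒯'.α q' b) ∈ 𝒯.Dl q B'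
      rw [hα]
      exact mem_Dl_al 𝒯 q B' _ (by rw [hβ]; exact hB _ hb)
  exact h hx

/-- conjugation by `α b⁻¹` -/
private def cj (q : ι) (b : A) : 𝒯.D q →+* 𝒯.D q where
  toFun x := 𝒯.α q b⁻¹ * x * 𝒯.α q b
  map_one' := by rw [mul_one, ← map_mul, inv_mul_cancel, map_one]
  map_zero' := by rw [mul_zero, zero_mul]
  map_add' x y := by rw [mul_add, add_mul]
  map_mul' x y := by
    have h : 𝒯.α q b * 𝒯.α q b⁻¹ = 1 := by rw [← map_mul, mul_inv_cancel, map_one]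
    calc 𝒯.α q b⁻¹ * (x * y) * 𝒯.α q b = 𝒯.α q b⁻¹ * x * 1 * y * 𝒯.α q b := by
          simp only [mul_one, mul_assoc]
      _ = 𝒯.α q b⁻¹ * x * (𝒯.α q b * 𝒯.α q b⁻¹) * y * 𝒯.α q b := by rw [h]
      _ = 𝒯.α q b⁻¹ * x * 𝒯.α q b * (𝒯.α q b⁻¹ * y * 𝒯.α q b) := by simp only [mul_assoc]

private theorem cj_apply (q : ι) (b : A) (x : 𝒯.D q) :
    cj 𝒯 q b x = 𝒯.α q b⁻¹ * x * 𝒯.α q b := rfl

private def be (b : A) : A →* A where
  toFun a := b⁻¹ * a * b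
  map_one' := by group
  map_mul' x y := by group

private theorem cj_al (q : ι) (b a : A) : cj 𝒯 q b (𝒯.α q a) = 𝒯.α q (be b a) := by
  have h : be b a = b⁻¹ * a * b := rfl
  rw [cj_apply, h, map_mul, map_mul]

private theorem cj_ro (q : ι) (b : A) (r : R) : cj 𝒯 q b (𝒯.ρ q r) = 𝒯.ρ q r := by
  rw [cj_apply, mul_assoc, 𝒯.comm, ← mul_assoc, ← map_mul, inv_mul_cancel, map_one, one_mul]

/-- the restriction of `α` -/
private def al' (q : ι) (k : G) (i : S.I) : (S.Le k i).subgroupOf A →* 𝒯.D q :=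
  (𝒯.α q).comp ((S.Le k i).subgroupOf A).subtype

private def ta' (A : Subgroup G) (k : G) (i : S.I) : (S.Le k i).subgroupOf A → ℝ :=
  fun a => S.deg k i ((a : A) : G)

private theorem clo_eq (q : ι) (k : G) (i : S.I) :
    Subfield.closure (((𝒯.Dl q (S.Lt k i) : Subfield (𝒯.D q)) : Set (𝒯.D q)) ∪
      Set.range (al' 𝒯 q k i)) = 𝒯.Dl q (S.Le k i) := by
  apply le_antisymm
  · refine Subfield.closure_le.2 (Set.union_subset (Dl_le 𝒯 q (S.Lt_le_Le k i)) ?_)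
    rintro x ⟨a, rfl⟩
    exact mem_Dl_al 𝒯 q _ (a : A) (Subgroup.mem_subgroupOf.1 a.2)
  · refine Subfield.closure_le.2 ?_
    rintro x (⟨r, rfl⟩ | ⟨b, hb, rfl⟩)
    · exact Subfield.subset_closure (Or.inl (mem_Dl_ro 𝒯 q _ r))
    · exact Subfield.subset_closure (Or.inr ⟨⟨b, Subgroup.mem_subgroupOf.2 hb⟩, rfl⟩)

private theorem isVal_iff (q : ι) (k : G) (i : S.I) (v : 𝒯.D q → WithTop ℝ) :
    𝒯.IsVal q k i v ↔ IsVgen (al' 𝒯 q k i) (ta' A k i) (𝒯.Dl q (S.Lt k i)) v := by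
  constructor
  · intro h
    constructor
    · rw [clo_eq]
      exact h.top
    · rw [clo_eq]
      exact h.mul
    · rw [clo_eq]
      exact h.add
    · exact h.const
    · intro a
      exact h.deg (a : A) (Subgroup.mem_subgroupOf.1 a.2)
  · intro h
    have h1 := h.top
    have h2 := h.mul
    have h3 := h.add
    rw [clo_eq] at h1 h2 h3
    exact ⟨h1, h2, h3, h.const, fun a ha => h.deg ⟨a, Subgroup.mem_subgroupOf.2 ha⟩⟩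

private theorem Dl_conj' {q : ι} {B B' : Subgroup G} {b : A}
    (hB : ∀ g ∈ B, (b : G)⁻¹ * g * b ∈ B') {x : 𝒯.D q} (hx : x ∈ 𝒯.Dl q B) :
    𝒯.α q b⁻¹ * x * 𝒯.α q b ∈ 𝒯.Dl q B' :=
  Dl_map 𝒯 𝒯 q q (b : G) (be b) (fun _ => rfl) (cj 𝒯 q b) (cj_al 𝒯 q b) (cj_ro 𝒯 q b) hB hx

private theorem grData (q : ι) (k : G) (i : S.I) :
    GrData (al' 𝒯 q k i) (ta' A k i) (𝒯.Dl q (S.Lt k i)) := by
  constructor
  · intro a b
    exact S.deg_mul (Subgroup.mem_subgroupOf.1 a.2) (Subgroup.mem_subgroupOf.1 b.2)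
  · intro a x hx
    have h := Dl_conj' 𝒯 (q := q) (B := S.Lt k i) (B' := S.Lt k i) (b := (a : A)⁻¹) ?_ hx
    · rw [inv_inv] at h
      exact h
    · intro g hg
      have h2 := S.Lt_norm hg (Subgroup.mem_subgroupOf.1 a.2)
      have h3 : (((a : A)⁻¹ : A) : G)⁻¹ * g * (((a : A)⁻¹ : A) : G) =
          ((a : A) : G) * g * ((a : A) : G)⁻¹ := by
        rw [Subgroup.coe_inv, inv_inv]
      rw [h3]
      exact h2
  · intro a ha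
    exact mem_Dl_al 𝒯 q _ (a : A) ((S.deg_zero_iff (Subgroup.mem_subgroupOf.1 a.2)).1 ha)
  · intro n a c hinj hc hs
    exact 𝒯.jf q k i n (fun l => (a l : A)) c (fun l => Subgroup.mem_subgroupOf.1 (a l).2) hinj
      hc hs

theorem exists_isVal (q : ι) (k : G) (i : S.I) : ∃ v, 𝒯.IsVal q k i v := by
  obtain ⟨v, hv⟩ := exists_isVgen (grData 𝒯 q k i)
  exact ⟨v, (isVal_iff 𝒯 q k i v).2 hv⟩

theorem IsVal.unique {q : ι} {k : G} {i : S.I} {v v' : 𝒯.D q → WithTop ℝ} (h1 : 𝒯.IsVal q k i v)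
    (h2 : 𝒯.IsVal q k i v') : ∀ x ∈ 𝒯.Dl q (S.Le k i), v x = v' x := by
  have h := IsVgen.unique (grData 𝒯 q k i) ((isVal_iff 𝒯 q k i v).1 h1)
    ((isVal_iff 𝒯 q k i v').1 h2)
  rw [clo_eq] at h
  exact h

theorem val_spec (q : ι) (k : G) (i : S.I) : 𝒯.IsVal q k i (𝒯.val q k i) := by
  unfold val
  rw [dif_pos (exists_isVal 𝒯 q k i)]
  exact (exists_isVal 𝒯 q k i).choose_spec

theorem Dl_conj {q : ι} {B B' : Subgroup G} {b : A} (hB : ∀ g ∈ B, (b : G)⁻¹ * g * b ∈ B')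
    {x : 𝒯.D q} (hx : x ∈ 𝒯.Dl q B) : 𝒯.α q b⁻¹ * x * 𝒯.α q b ∈ 𝒯.Dl q B' :=
  Dl_conj' 𝒯 hB hx

private theorem val_morph' {A' : Subgroup G} {ι' : Type} (𝒯' : TSet.{u, w} S R A' ι') (q : ι)
    (q' : ι') (s : G) (β : A' →* A) (hβ : ∀ a : A', ((β a : A) : G) = s⁻¹ * a * s)
    (ψ : 𝒯'.D q' →+* 𝒯.D q)
    (hα : ∀ a, ψ (𝒯'.α q' a) = 𝒯.α q (β a)) (hρ : ∀ r, ψ (𝒯'.ρ q' r) = 𝒯.ρ q r)
    (k : G) (i : S.I) {x : 𝒯'.D q'} (hx : x ∈ 𝒯'.Dl q' (S.Le k i)) :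
    𝒯.val q (s⁻¹ * k) i (ψ x) = 𝒯'.val q' k i x := by
  have h := val_spec 𝒯 q (s⁻¹ * k) i
  have hcc : ∀ g : G, s * (s⁻¹ * g * s) * s⁻¹ = g := fun g => by group
  have hLe : ∀ {y : 𝒯'.D q'}, y ∈ 𝒯'.Dl q' (S.Le k i) → ψ y ∈ 𝒯.Dl q (S.Le (s⁻¹ * k) i) := by
    intro y hy
    refine Dl_map 𝒯 𝒯' q q' s β hβ ψ hα hρ (fun g hg => ?_) hy
    rw [S.Le_conj, hcc]
    exact hg
  have hLt : ∀ {y : 𝒯'.D q'}, y ∈ 𝒯'.Dl q' (S.Lt k i) → ψ y ∈ 𝒯.Dl q (S.Lt (s⁻¹ * k) i) := by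
    intro y hy
    refine Dl_map 𝒯 𝒯' q q' s β hβ ψ hα hρ (fun g hg => ?_) hy
    rw [S.Lt_conj, hcc]
    exact hg
  have hv : 𝒯'.IsVal q' k i (fun y => 𝒯.val q (s⁻¹ * k) i (ψ y)) := by
    constructor
    · intro y hy
      rw [h.top _ (hLe hy), map_eq_zero]
    · intro y hy z hz
      show 𝒯.val q (s⁻¹ * k) i (ψ (y * z)) = _
      rw [map_mul]
      exact h.mul _ (hLe hy) _ (hLe hz)
    · intro y hy z hz
      show _ ≤ 𝒯.val q (s⁻¹ * k) i (ψ (y + z))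
      rw [map_add]
      exact h.add _ (hLe hy) _ (hLe hz)
    · intro y hy hy0
      exact h.const _ (hLt hy) (fun h0 => hy0 ((map_eq_zero ψ).1 h0))
    · intro a ha
      show 𝒯.val q (s⁻¹ * k) i (ψ (𝒯'.α q' a)) = _
      rw [hα, h.deg (β a) (by rw [hβ, S.Le_conj, hcc]; exact ha), hβ, S.deg_conj, hcc]
  exact IsVal.unique 𝒯' hv (val_spec 𝒯' q' k i) x hx

theorem val_conj (q : ι) (k : G) (i : S.I) (b : A) {x : 𝒯.D q} (hx : x ∈ 𝒯.Dl q (S.Le k i)) :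
    𝒯.val q ((b : G)⁻¹ * k) i (𝒯.α q b⁻¹ * x * 𝒯.α q b) = 𝒯.val q k i x :=
  val_morph' 𝒯 𝒯 q q (b : G) (be b) (fun _ => rfl) (cj 𝒯 q b) (cj_al 𝒯 q b) (cj_ro 𝒯 q b) k i hx

theorem val_coset (q : ι) {k k' : G} {i : S.I} (h : S.lev (k⁻¹ * k') ≤ (i : WithBot S.I))
    {x : 𝒯.D q} (hx : x ∈ 𝒯.Dl q (S.Le k i)) : 𝒯.val q k' i x = 𝒯.val q k i x := by
  have h1 := val_spec 𝒯 q k' i
  have h2 := h1.top
  have h3 := h1.mul
  have h4 := h1.add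
  have h5 := h1.const
  rw [S.coset_Le h] at h2 h3 h4
  rw [S.coset_Lt h] at h5
  have hv : 𝒯.IsVal q k i (𝒯.val q k' i) := by
    refine ⟨h2, h3, h4, h5, fun a ha => ?_⟩
    rw [h1.deg a (by rw [S.coset_Le h]; exact ha), S.coset_deg h ha]
  exact IsVal.unique 𝒯 hv (val_spec 𝒯 q k i) x hx

/-- compatibility of the valuations with a morphism of families -/
theorem val_morph {A' : Subgroup G} {ι' : Type} (𝒯' : TSet.{u, w} S R A' ι') (q : ι) (q' : ι')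
    (s : G) (β : A' →* A) (hβ : ∀ a : A', ((β a : A) : G) = s⁻¹ * a * s) (ψ : 𝒯'.D q' →+* 𝒯.D q)
    (hα : ∀ a, ψ (𝒯'.α q' a) = 𝒯.α q (β a)) (hρ : ∀ r, ψ (𝒯'.ρ q' r) = 𝒯.ρ q r)
    (k : G) (i : S.I) {x : 𝒯'.D q'} (hx : x ∈ 𝒯'.Dl q' (S.Le k i)) :
    𝒯.val q (s⁻¹ * k) i (ψ x) = 𝒯'.val q' k i x :=
  val_morph' 𝒯 𝒯' q q' s β hβ ψ hα hρ k i hx

end TSet

end Pool.Agent.HFT
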