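import Pool.Agent.HFT.TT

/-! # HFT/TZ: families with an expansion have leading positions (helper49)

PROOF.
`lead_left`: induction on `Nrm P k u`, with `z = al b * u`. `scal`: `al b = z * ro r⁻¹ ∈ cl (Le k i)` so
`b ∈ Le k i` (`star_Le`), and `d = val z = deg b + val (ro r) = deg b`. `step i' u u0`:
(a) `i' ≤ i`: `u ∈ cl (Le k i') ⊆ cl (Le k i)`, so `al b = z * u⁻¹ ∈ cl (Le k i)`, `b ∈ Le k i`, and
`val_i (u q) = 0` (`Nrm_val`), so `d = deg b`. (b) `i' > i`: `z ∈ cl (Le k i) ⊆ cl (Lt k i')` is nonzero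
so has value `0` at level `i'`, `al b = z * u⁻¹ ∈ cl (Le k i')`, `b ∈ Le k i'` and
`deg_{i'} b = val z - val u = 0`, so `b ∈ Lt k i'`; then `u = al b⁻¹ * z ∈ cl (Lt k i')`, so
`u - u0 ∈ cl (Lt k i')` is zero (`App_Big`, `eq_zero_of_Big`) and the induction hypothesis for
`u0 = u` applies. Only one component `q` is needed (`Nonempty ι`).
`lead_right`: the same on the other side (`z = u * al b`).
`lead_Lt`: `lead_left` for `z = al b * u ∈ cl (Lt k i)` nonzero: value `0`, so `b ∈ Le k i` of degree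
`0`, i.e. `b ∈ Lt k i`.
`XP_split`: let `XP T k i z`, `z ≠ 0`. Choose `q₀` with `z q₀ ≠ 0` and a real `β₀ ≥ val (z q₀)`.
Take `F, w` for `β₀`. Some `d ∈ F` has `w d ≠ 0` and `d ≤ β₀` (otherwise `val (z q₀) > β₀`); let `d₀` be
the smallest `d ∈ F` with `w d ≠ 0`; then `d₀ ≤ β₀`: otherwise all nonzero `w d` have `d > β₀` and
`val (z q₀) > β₀`. Write `w d₀ = al a * c`, `c ∈ cl (Lt k i) ∩ T`, `c ≠ 0`. For every `β`
take `F', w'` for `max β β₀`: by `Hm_unique` (both are approximations up to `β₀`), `w' d₀ = w d₀`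
(`d₀ ∈ F'`) and `w' d = 0` for `d ∈ F'`, `d < d₀`. So `z - al a * c` is approximated up to `β` by
the sum of the `w' d`, `d ∈ F'`, `d > d₀`; after multiplication by `al a⁻¹` (an element of degree
`-d₀`) this is `App T k i (al a⁻¹ * z - c)` (the approximation for `β` of `al a⁻¹ z - c` is obtained from
the one of `z` for `β + d₀`; `al a⁻¹ * (al a' * c') = al (a⁻¹ a') * c'` has degree `d - d₀ > 0`;
reindex the finite set by `d ↦ d - d₀`).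
`XP_lead`: with `a, c` from `XP_split`, `T c` at the position `k` (`T = Phi T`, `c ≠ 0`) gives `b` with
`Nrm T k (al b⁻¹ * c)`; by `lead_Lt` (`c = al b * (al b⁻¹ * c)`) `b ∈ Lt k i`. Then
`al (a b)⁻¹ * z = al b⁻¹ * c + al b⁻¹ * (al a⁻¹ * z - c)` and `Nrm.step i` applies with
`u0 := al b⁻¹ * c ∈ cl (Lt k i) ∩ T` and `App_left`.
`XP_lead_target`: `lev (k⁻¹ h) ≤ i`, by `XP_coset` one may suppose `h = k`. With `a, c` as before, `T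
(al a * c)` for the target `k` gives `e` with `Nrm T (e⁻¹k) (al e⁻¹ * (al a * c))`. Conjugate by `e⁻¹`
(`Nrm_conj` with `b := e⁻¹`): `Nrm T k (al a * c * al e⁻¹)`. By `lead_right` with
`u := al a * c * al e⁻¹`, `u * al e = al a * c ∈ cl (Le k i)` of value `deg a`: `e ∈ Le k i` and
`deg e = deg a`. So `al e⁻¹ * z = al (e⁻¹ a) * c + al (e⁻¹ a) * (al a⁻¹ * z - c)` with `e⁻¹ a ∈ Lt k i`
(degree `0`); by `coset_move` the levels `Le`, `Lt`, `deg` and `App` at `e⁻¹ k` and at `k` agree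
(`coset_Le`, `coset_Lt`, `App_coset`), so `Nrm.step i` at `e⁻¹k` applies with
`u0 := al (e⁻¹ a) * c`. -/

set_option autoImplicit false

universe u w

namespace Pool.Agent.HFT

namespace TSet

variable {G : Type u} [Group G] {S : ConradSys G} {R : Type u} [DivisionRing R] {A : Subgroup G}
  {ι : Type} (𝒯 : TSet.{u, w} S R A ι)

private theorem al_of_left {B : Subgroup G} {b : A} {u : ∀ q, 𝒯.D q} (hu0 : ∀ q, u q ≠ 0)
    (hu : u ∈ 𝒯.cl B) (hz : 𝒯.al b * u ∈ 𝒯.cl B) : 𝒯.al b ∈ 𝒯.cl B := by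
  have h := 𝒯.cl_mul hz (𝒯.cl_inv hu)
  have e : 𝒯.al b * u * u⁻¹ = 𝒯.al b := by
    funext q
    show 𝒯.al b q * u q * (u q)⁻¹ = 𝒯.al b q
    rw [mul_assoc, mul_inv_cancel₀ (hu0 q), mul_one]
  rwa [e] at h

private theorem al_of_right {B : Subgroup G} {b : A} {u : ∀ q, 𝒯.D q} (hu0 : ∀ q, u q ≠ 0)
    (hu : u ∈ 𝒯.cl B) (hz : u * 𝒯.al b ∈ 𝒯.cl B) : 𝒯.al b ∈ 𝒯.cl B := by
  have h := 𝒯.cl_mul (𝒯.cl_inv hu) hz
  have e : u⁻¹ * (u * 𝒯.al b) = 𝒯.al b := by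
    funext q
    show (u q)⁻¹ * (u q * 𝒯.al b q) = 𝒯.al b q
    rw [← mul_assoc, inv_mul_cancel₀ (hu0 q), one_mul]
  rwa [e] at h

private theorem val_alm {q : ι} {k : G} {i : S.I} {b : A} (hb : (b : G) ∈ S.Le k i) {x : 𝒯.D q}
    (hx : x ∈ 𝒯.Dl q (S.Le k i)) :
    𝒯.val q k i (𝒯.α q b * x) = ((S.deg k i b : ℝ) : WithTop ℝ) + 𝒯.val q k i x := by
  have hv := 𝒯.val_spec q k i
  have h1 : 𝒯.α q b ∈ 𝒯.Dl q (S.Le k i) := 𝒯.cl_al hb q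
  rw [hv.mul _ h1 _ hx, hv.deg b hb]

private theorem val_mal {q : ι} {k : G} {i : S.I} {b : A} (hb : (b : G) ∈ S.Le k i) {x : 𝒯.D q}
    (hx : x ∈ 𝒯.Dl q (S.Le k i)) :
    𝒯.val q k i (x * 𝒯.α q b) = 𝒯.val q k i x + ((S.deg k i b : ℝ) : WithTop ℝ) := by
  have hv := 𝒯.val_spec q k i
  have h1 : 𝒯.α q b ∈ 𝒯.Dl q (S.Le k i) := 𝒯.cl_al hb q
  rw [hv.mul _ hx _ h1, hv.deg b hb]

private theorem lead_auxl {k : G} {u : ∀ q, 𝒯.D q} {i : S.I} {d : ℝ} {b : A} (q : ι)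
    (hu0 : ∀ q, u q ≠ 0) (hu : u ∈ 𝒯.cl (S.Le k i)) (hv0 : 𝒯.val q k i (u q) = 0)
    (hz : 𝒯.al b * u ∈ 𝒯.cl (S.Le k i)) (hd : 𝒯.val q k i ((𝒯.al b * u) q) = (d : WithTop ℝ)) :
    (b : G) ∈ S.Le k i ∧ S.deg k i b = d := by
  have h1 := al_of_left 𝒯 hu0 hu hz
  have hb := 𝒯.star_Le (h1 q)
  refine ⟨hb, ?_⟩
  have hv := 𝒯.val_spec q k i
  have h2 : 𝒯.val q k i ((𝒯.al b * u) q) = ((S.deg k i b : ℝ) : WithTop ℝ) := by
    show 𝒯.val q k i (𝒯.α q b * u q) = _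
    rw [val_alm 𝒯 hb (hu q), hv0, add_zero]
  rw [hd] at h2
  exact (WithTop.coe_injective h2).symm

private theorem lead_auxr {k : G} {u : ∀ q, 𝒯.D q} {i : S.I} {d : ℝ} {b : A} (q : ι)
    (hu0 : ∀ q, u q ≠ 0) (hu : u ∈ 𝒯.cl (S.Le k i)) (hv0 : 𝒯.val q k i (u q) = 0)
    (hz : u * 𝒯.al b ∈ 𝒯.cl (S.Le k i)) (hd : 𝒯.val q k i ((u * 𝒯.al b) q) = (d : WithTop ℝ)) :
    (b : G) ∈ S.Le k i ∧ S.deg k i b = d := by
  have h1 := al_of_right 𝒯 hu0 hu hz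
  have hb := 𝒯.star_Le (h1 q)
  refine ⟨hb, ?_⟩
  have hv := 𝒯.val_spec q k i
  have h2 : 𝒯.val q k i ((u * 𝒯.al b) q) = ((S.deg k i b : ℝ) : WithTop ℝ) := by
    show 𝒯.val q k i (u q * 𝒯.α q b) = _
    rw [val_mal 𝒯 hb (hu q), hv0, zero_add]
  rw [hd] at h2
  exact (WithTop.coe_injective h2).symm

theorem lead_left [Nonempty ι] {P : Set (∀ q, 𝒯.D q)} {k : G} {u : ∀ q, 𝒯.D q}
    (h : 𝒯.Nrm P k u) {i : S.I} {d : ℝ} {b : A} (hz : 𝒯.al b * u ∈ 𝒯.cl (S.Le k i))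
    (hd : ∀ q, 𝒯.val q k i ((𝒯.al b * u) q) = (d : WithTop ℝ)) :
    (b : G) ∈ S.Le k i ∧ S.deg k i b = d := by
  obtain ⟨q⟩ := ‹Nonempty ι›
  induction h generalizing i d b with
  | scal r hr =>
    exact lead_auxl 𝒯 q (fun q => 𝒯.ro_ne hr q) (𝒯.cl_ro _ r)
      ((𝒯.val_spec q k i).const _ (𝒯.cl_ro (S.Lt k i) r q) (𝒯.ro_ne hr q)) hz (hd q)
  | step i' u u0 hu h0 hP hN hA ih =>
    obtain ⟨hu0, huv⟩ := 𝒯.Nrm_val (Nrm.step i' u u0 hu h0 hP hN hA)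
    rcases le_or_gt i' i with hi | hi
    · have hu' := 𝒯.cl_mono (S.Le_le_Le k hi) hu
      exact lead_auxl 𝒯 q hu0 hu' (huv i hu' q) hz (hd q)
    · have hz' : 𝒯.al b * u ∈ 𝒯.cl (S.Lt k i') := 𝒯.cl_mono (S.Le_le_Lt k hi) hz
      have hz'' : 𝒯.al b * u ∈ 𝒯.cl (S.Le k i') := 𝒯.cl_mono (S.Lt_le_Le k i') hz'
      have hz0 : (𝒯.al b * u) q ≠ 0 := mul_ne_zero (𝒯.al_ne b q) (hu0 q)
      have h1 := lead_auxl 𝒯 (d := 0) q hu0 hu (huv i' hu q) hz''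
        ((𝒯.val_spec q k i').const _ (hz' q) hz0)
      have h2 := (S.deg_zero_iff h1.1).1 h1.2
      have h3 : u ∈ 𝒯.cl (S.Lt k i') := by
        have h4 := 𝒯.cl_mul (𝒯.cl_al (a := b⁻¹) (by
          rw [InvMemClass.coe_inv]
          exact (S.Lt k i').inv_mem h2)) hz'
        rwa [𝒯.al_inv_mul] at h4
      have h4 : u - u0 = 0 := 𝒯.eq_zero_of_Big le_rfl (𝒯.cl_sub h3 h0) (𝒯.App_Big hA)
      have h5 : u = u0 := sub_eq_zero.1 h4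
      rw [h5] at hz hd
      exact ih hz hd

theorem lead_right [Nonempty ι] {P : Set (∀ q, 𝒯.D q)} {k : G} {u : ∀ q, 𝒯.D q}
    (h : 𝒯.Nrm P k u) {i : S.I} {d : ℝ} {b : A} (hz : u * 𝒯.al b ∈ 𝒯.cl (S.Le k i))
    (hd : ∀ q, 𝒯.val q k i ((u * 𝒯.al b) q) = (d : WithTop ℝ)) :
    (b : G) ∈ S.Le k i ∧ S.deg k i b = d := by
  obtain ⟨q⟩ := ‹Nonempty ι›
  induction h generalizing i d b with
  | scal r hr =>
    exact lead_auxr 𝒯 q (fun q => 𝒯.ro_ne hr q) (𝒯.cl_ro _ r)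
      ((𝒯.val_spec q k i).const _ (𝒯.cl_ro (S.Lt k i) r q) (𝒯.ro_ne hr q)) hz (hd q)
  | step i' u u0 hu h0 hP hN hA ih =>
    obtain ⟨hu0, huv⟩ := 𝒯.Nrm_val (Nrm.step i' u u0 hu h0 hP hN hA)
    rcases le_or_gt i' i with hi | hi
    · have hu' := 𝒯.cl_mono (S.Le_le_Le k hi) hu
      exact lead_auxr 𝒯 q hu0 hu' (huv i hu' q) hz (hd q)
    · have hz' : u * 𝒯.al b ∈ 𝒯.cl (S.Lt k i') := 𝒯.cl_mono (S.Le_le_Lt k hi) hz
      have hz'' : u * 𝒯.al b ∈ 𝒯.cl (S.Le k i') := 𝒯.cl_mono (S.Lt_le_Le k i') hz'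
      have hz0 : (u * 𝒯.al b) q ≠ 0 := mul_ne_zero (hu0 q) (𝒯.al_ne b q)
      have h1 := lead_auxr 𝒯 (d := 0) q hu0 hu (huv i' hu q) hz''
        ((𝒯.val_spec q k i').const _ (hz' q) hz0)
      have h2 := (S.deg_zero_iff h1.1).1 h1.2
      have h3 : u ∈ 𝒯.cl (S.Lt k i') := by
        have h4 := 𝒯.cl_mul hz' (𝒯.cl_al (a := b⁻¹) (by
          rw [InvMemClass.coe_inv]
          exact (S.Lt k i').inv_mem h2))
        rwa [𝒯.mul_al_inv] at h4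
      have h4 : u - u0 = 0 := 𝒯.eq_zero_of_Big le_rfl (𝒯.cl_sub h3 h0) (𝒯.App_Big hA)
      have h5 : u = u0 := sub_eq_zero.1 h4
      rw [h5] at hz hd
      exact ih hz hd

theorem lead_Lt [Nonempty ι] {P : Set (∀ q, 𝒯.D q)} {k : G} {u : ∀ q, 𝒯.D q}
    (h : 𝒯.Nrm P k u) {i : S.I} {b : A} (hz : 𝒯.al b * u ∈ 𝒯.cl (S.Lt k i)) :
    (b : G) ∈ S.Lt k i := by
  have hu0 := (𝒯.Nrm_val h).1
  have hz' : 𝒯.al b * u ∈ 𝒯.cl (S.Le k i) := 𝒯.cl_mono (S.Lt_le_Le k i) hz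
  have h1 := 𝒯.lead_left h (d := 0) hz' (fun q =>
    (𝒯.val_spec q k i).const _ (hz q) (mul_ne_zero (𝒯.al_ne b q) (hu0 q)))
  exact (S.deg_zero_iff h1.1).1 h1.2

private theorem XP_cl {P : Set (∀ q, 𝒯.D q)} {k : G} {i : S.I} {z : ∀ q, 𝒯.D q}
    (h : 𝒯.XP P k i z) : z ∈ 𝒯.cl (S.Le k i) := by
  obtain ⟨F, w, hw, hB⟩ := h 0
  have h1 := 𝒯.cl_add hB.1 (𝒯.cl_sum (fun d hd => 𝒯.Hm_cl (hw d hd)))
  rwa [sub_add_cancel] at h1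

private theorem al_sum (a : A) (F : Finset ℝ) (w : ℝ → ∀ q, 𝒯.D q) :
    𝒯.al a * ∑ d ∈ F, w d = ∑ d ∈ F, 𝒯.al a * w d := Finset.mul_sum _ _ _

/-- the first component of an expansion -/
theorem XP_split [Nonempty ι] {k : G} {i : S.I} {z : ∀ q, 𝒯.D q} (h : 𝒯.XP 𝒯.T k i z)
    (hz : z ≠ 0) : ∃ (a : A) (c : ∀ q, 𝒯.D q), (a : G) ∈ S.Le k i ∧ c ∈ 𝒯.cl (S.Lt k i) ∧
      c ∈ 𝒯.T ∧ c ≠ 0 ∧ 𝒯.App 𝒯.T k i (𝒯.al a⁻¹ * z - c) := by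
  classical
  have hzcl := XP_cl 𝒯 h
  obtain ⟨q0, hq0⟩ : ∃ q, z q ≠ 0 := by
    by_contra hc
    push Not at hc
    exact hz (funext hc)
  have hv := 𝒯.val_spec q0 k i
  obtain ⟨β0, hβ0⟩ : ∃ β0 : ℝ, 𝒯.val q0 k i (z q0) = (β0 : WithTop ℝ) := by
    have h1 : 𝒯.val q0 k i (z q0) ≠ ⊤ := fun h2 => hq0 ((hv.top _ (hzcl q0)).1 h2)
    exact ⟨_, (WithTop.coe_untop _ h1).symm⟩
  obtain ⟨F, w, hw, hB⟩ := h β0
  have hex : ∃ d ∈ F, w d ≠ 0 ∧ d ≤ β0 := by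
    by_contra hc
    push Not at hc
    have h1 : (β0 : WithTop ℝ) < 𝒯.val q0 k i ((∑ d ∈ F, w d) q0) := by
      refine 𝒯.val_sum_gt (fun d hd => 𝒯.Hm_cl (hw d hd)) (fun d hd => ?_)
      rcases 𝒯.Hm_val (hw d hd) q0 with h2 | h2
      · rw [h2, (hv.top 0 (Subfield.zero_mem _)).2 rfl]
        exact WithTop.coe_lt_top _
      · rw [h2]
        have h3 : w d ≠ 0 := by
          intro h4
          rw [h4] at h2
          have h5 : 𝒯.val q0 k i ((0 : ∀ q, 𝒯.D q) q0) = ⊤ := (hv.top 0 (Subfield.zero_mem _)).2 rfl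
          rw [h5] at h2
          exact absurd h2.symm (WithTop.coe_ne_top)
        exact WithTop.coe_lt_coe.2 (hc d hd h3)
    have h2 := hB.2 q0
    have h3 : z q0 = (z - ∑ d ∈ F, w d) q0 + (∑ d ∈ F, w d) q0 := by
      show z q0 = (z q0 - (∑ d ∈ F, w d) q0) + (∑ d ∈ F, w d) q0
      rw [sub_add_cancel]
    have h4 := hv.add _ (hB.1 q0) _ (𝒯.cl_sum (fun d hd => 𝒯.Hm_cl (hw d hd)) q0)
    rw [← h3, hβ0] at h4
    exact absurd (lt_min h2 h1) (not_lt.2 h4)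
  set F1 : Finset ℝ := F.filter (fun d => w d ≠ 0 ∧ d ≤ β0) with hF1
  have hF1n : F1.Nonempty := by
    obtain ⟨d, hd, h1, h2⟩ := hex
    exact ⟨d, Finset.mem_filter.2 ⟨hd, h1, h2⟩⟩
  set d0 := F1.min' hF1n with hd0
  have hd0m : d0 ∈ F1 := F1.min'_mem hF1n
  obtain ⟨hd0F, hwd0, hd0β⟩ := Finset.mem_filter.1 hd0m
  have hmin : ∀ d ∈ F, d < d0 → w d = 0 := by
    intro d hd hlt
    by_contra hne
    have h1 : d ∈ F1 := Finset.mem_filter.2 ⟨hd, hne, hlt.le.trans hd0β⟩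
    exact absurd (F1.min'_le d h1) (not_le.2 hlt)
  obtain ⟨a, haLe, hadeg, c, hcLt, hcT, hwac⟩ := hw d0 hd0F
  have hc0 : c ≠ 0 := by
    intro h1
    rw [h1, mul_zero] at hwac
    exact hwd0 hwac
  have ha' : ((a⁻¹ : A) : G) ∈ S.Le k i := by
    rw [InvMemClass.coe_inv]
    exact (S.Le k i).inv_mem haLe
  have hadeg' : S.deg k i ((a⁻¹ : A) : G) = - d0 := by
    rw [InvMemClass.coe_inv, S.deg_inv haLe, hadeg]
  refine ⟨a, c, haLe, hcLt, hcT, hc0, ?_⟩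
  intro β
  obtain ⟨F', w', hw', hB'⟩ := h (max (β + d0) β0)
  have huniq := 𝒯.Hm_unique hw hw' hB (𝒯.Big_mono (le_max_right _ _) hB')
  have h1 := huniq d0 hd0β
  rw [if_pos hd0F] at h1
  have hd0F' : d0 ∈ F' := by
    by_contra hc
    rw [if_neg hc] at h1
    exact hwd0 h1
  rw [if_pos hd0F'] at h1
  have hlow : ∀ d ∈ F', d < d0 → w' d = 0 := by
    intro d hd hlt
    have h2 := huniq d (hlt.le.trans hd0β)
    rw [if_pos hd] at h2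
    rw [← h2]
    by_cases hdF : d ∈ F
    · rw [if_pos hdF]
      exact hmin d hdF hlt
    · rw [if_neg hdF]
  set F2 : Finset ℝ := F'.filter (fun d => d0 < d) with hF2
  have hsum : ∑ d ∈ F', w' d = 𝒯.al a * c + ∑ d ∈ F2, w' d := by
    rw [← hwac, h1, hF2, ← Finset.sum_filter_add_sum_filter_not F' (fun d => d0 < d), add_comm]
    congr 1
    rw [Finset.sum_eq_single d0]
    · intro d hd hne
      rw [Finset.mem_filter] at hd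
      exact hlow d hd.1 (lt_of_le_of_ne (not_lt.1 hd.2) hne)
    · intro hd
      exact absurd (Finset.mem_filter.2 ⟨hd0F', lt_irrefl _⟩) hd
  refine ⟨F2.image (fun d => d - d0), fun e => 𝒯.al a⁻¹ * w' (e + d0), ?_, ?_, ?_⟩
  · intro e he
    obtain ⟨d, hd, rfl⟩ := Finset.mem_image.1 he
    have := (Finset.mem_filter.1 hd).2
    linarith
  · intro e he
    obtain ⟨d, hd, rfl⟩ := Finset.mem_image.1 he
    obtain ⟨a2, ha2, hdeg2, c2, hc2, hc2T, hw2⟩ := hw' d (Finset.mem_filter.1 hd).1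
    show 𝒯.al a⁻¹ * w' (d - d0 + d0) ∈ _
    rw [sub_add_cancel]
    refine ⟨a⁻¹ * a2, ?_, ?_, c2, hc2, hc2T, ?_⟩
    · rw [MulMemClass.coe_mul]
      exact (S.Le k i).mul_mem ha' ha2
    · rw [MulMemClass.coe_mul, S.deg_mul ha' ha2, hadeg', hdeg2]
      ring
    · rw [hw2, 𝒯.al_mul, mul_assoc]
  · have hsum2 : ∑ e ∈ F2.image (fun d => d - d0), 𝒯.al a⁻¹ * w' (e + d0) = 𝒯.al a⁻¹ * ∑ d ∈ F2, w' d := by
      rw [Finset.sum_image (fun x _ y _ hxy => sub_left_injective hxy), al_sum]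
      refine Finset.sum_congr rfl fun d _ => ?_
      rw [sub_add_cancel]
    have hrew : 𝒯.al a⁻¹ * z - c - ∑ e ∈ F2.image (fun d => d - d0), 𝒯.al a⁻¹ * w' (e + d0) =
        𝒯.al a⁻¹ * (z - ∑ d ∈ F', w' d) := by
      rw [hsum2, hsum, mul_sub, mul_add, 𝒯.al_inv_mul, sub_sub]
    show 𝒯.Big k i β (𝒯.al a⁻¹ * z - c - ∑ e ∈ F2.image (fun d => d - d0), 𝒯.al a⁻¹ * w' (e + d0))
    rw [hrew]
    refine ⟨𝒯.cl_mul (𝒯.cl_al ha') hB'.1, fun q => ?_⟩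
    have hvq := 𝒯.val_spec q k i
    show (β : WithTop ℝ) < 𝒯.val q k i (𝒯.α q a⁻¹ * (z - ∑ d ∈ F', w' d) q)
    rw [val_alm 𝒯 ha' (hB'.1 q), hadeg']
    have h2 := hB'.2 q
    have h3 : ((β + d0 : ℝ) : WithTop ℝ) < 𝒯.val q k i ((z - ∑ d ∈ F', w' d) q) :=
      lt_of_le_of_lt (WithTop.coe_le_coe.2 (le_max_left _ _)) h2
    cases hx : 𝒯.val q k i ((z - ∑ d ∈ F', w' d) q) with
    | top =>
      rw [WithTop.add_top]
      exact WithTop.coe_lt_top _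
    | coe x =>
      rw [hx] at h3
      have h4 : β + d0 < x := WithTop.coe_lt_coe.1 h3
      rw [← WithTop.coe_add]
      apply WithTop.coe_lt_coe.2
      linarith

theorem XP_lead [Nonempty ι] {k : G} {i : S.I} {z : ∀ q, 𝒯.D q} (h : 𝒯.XP 𝒯.T k i z)
    (hz : z ≠ 0) : ∃ a : A, 𝒯.Nrm 𝒯.T k (𝒯.al a⁻¹ * z) := by
  obtain ⟨a, c, haLe, hcLt, hcT, hc0, hA⟩ := 𝒯.XP_split h hz
  have hzcl := XP_cl 𝒯 h
  have hcPhi : c ∈ 𝒯.Phi 𝒯.T := by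
    rw [𝒯.T_fix]
    exact hcT
  rcases hcPhi.2 with h0 | ⟨h1, -⟩
  · exact absurd h0 hc0
  obtain ⟨b, hb⟩ := h1 k
  have hbLt : (b : G) ∈ S.Lt k i := 𝒯.lead_Lt hb (by
    rw [𝒯.al_mul_inv]
    exact hcLt)
  have hb' : ((b⁻¹ : A) : G) ∈ S.Lt k i := by
    rw [InvMemClass.coe_inv]
    exact (S.Lt k i).inv_mem hbLt
  have ha' : ((a⁻¹ : A) : G) ∈ S.Le k i := by
    rw [InvMemClass.coe_inv]
    exact (S.Le k i).inv_mem haLe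
  refine ⟨a * b, ?_⟩
  have e : 𝒯.al (a * b)⁻¹ * z = 𝒯.al b⁻¹ * (𝒯.al a⁻¹ * z) := by
    rw [mul_inv_rev, 𝒯.al_mul, mul_assoc]
  rw [e]
  refine Nrm.step i _ (𝒯.al b⁻¹ * c) ?_ ?_ (𝒯.T_al_mul hcT _) hb ?_
  · exact 𝒯.cl_mul (𝒯.cl_al (S.Lt_le_Le k i hb')) (𝒯.cl_mul (𝒯.cl_al ha') hzcl)
  · exact 𝒯.cl_mul (𝒯.cl_al hb') hcLt
  · rw [← mul_sub]
    exact 𝒯.App_left hA hb'

theorem XP_lead_target [Nonempty ι] {k : G} {i : S.I} {z : ∀ q, 𝒯.D q} (h : 𝒯.XP 𝒯.T k i z)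
    (hz : z ≠ 0) {l : G} (hl : S.lev (k⁻¹ * l) ≤ (i : WithBot S.I)) :
    ∃ a : A, 𝒯.Nrm 𝒯.T ((a : G)⁻¹ * l) (𝒯.al a⁻¹ * z) := by
  have hl' := 𝒯.XP_coset hl h
  obtain ⟨a, c, haLe, hcLt, hcT, hc0, hA⟩ := 𝒯.XP_split hl' hz
  have hzcl := XP_cl 𝒯 hl'
  have hcn : ∀ q, c q ≠ 0 := by
    rcases 𝒯.T_nz hcT with h1 | h1
    · exact absurd h1 hc0
    · exact h1
  have hacPhi : 𝒯.al a * c ∈ 𝒯.Phi 𝒯.T := by
    rw [𝒯.T_fix]
    exact 𝒯.T_al_mul hcT a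
  rcases hacPhi.2 with h0 | ⟨-, h1⟩
  · exfalso
    obtain ⟨q⟩ := ‹Nonempty ι›
    have h2 : (𝒯.al a * c) q = 0 := by rw [h0]; rfl
    exact mul_ne_zero (𝒯.al_ne a q) (hcn q) h2
  obtain ⟨e, he⟩ := h1 l
  have ha' : ((a⁻¹ : A) : G) ∈ S.Le l i := by
    rw [InvMemClass.coe_inv]
    exact (S.Le l i).inv_mem haLe
  have hconj := 𝒯.Nrm_conj 𝒯.T_conjInv he e⁻¹
  have e1 : ((e⁻¹ : A) : G)⁻¹ * ((e : G)⁻¹ * l) = l := by
    rw [InvMemClass.coe_inv, inv_inv, mul_inv_cancel_left]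
  have e2 : 𝒯.al (e⁻¹)⁻¹ * (𝒯.al e⁻¹ * (𝒯.al a * c)) * 𝒯.al e⁻¹ = 𝒯.al a * c * 𝒯.al e⁻¹ := by
    rw [inv_inv, 𝒯.al_mul_inv]
  rw [e1, e2] at hconj
  have hdeg := 𝒯.lead_right hconj (i := i) (d := S.deg l i a) (b := e) (by
    rw [𝒯.mul_inv_al]
    exact 𝒯.cl_mul (𝒯.cl_al haLe) (𝒯.cl_mono (S.Lt_le_Le l i) hcLt)) (fun q => by
    rw [𝒯.mul_inv_al]
    have hv := 𝒯.val_spec q l i
    show 𝒯.val q l i (𝒯.α q a * c q) = _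
    rw [val_alm 𝒯 haLe (𝒯.cl_mono (S.Lt_le_Le l i) hcLt q), hv.const _ (hcLt q) (hcn q), add_zero])
  have he' : ((e⁻¹ : A) : G) ∈ S.Le l i := by
    rw [InvMemClass.coe_inv]
    exact (S.Le l i).inv_mem hdeg.1
  have hea : ((e⁻¹ * a : A) : G) ∈ S.Lt l i := by
    have h2 : ((e⁻¹ * a : A) : G) ∈ S.Le l i := by
      rw [MulMemClass.coe_mul]
      exact (S.Le l i).mul_mem he' haLe
    rw [← S.deg_zero_iff h2, MulMemClass.coe_mul, S.deg_mul he' haLe, InvMemClass.coe_inv, S.deg_inv hdeg.1,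
      hdeg.2]
    ring
  have hmove := (S.coset_move hdeg.1).1
  have hLe : S.Le ((e : G)⁻¹ * l) i = S.Le l i := S.coset_Le hmove
  have hLt : S.Lt ((e : G)⁻¹ * l) i = S.Lt l i := S.coset_Lt hmove
  refine ⟨e, Nrm.step i _ (𝒯.al e⁻¹ * (𝒯.al a * c)) ?_ ?_ (𝒯.T_al_mul (𝒯.T_al_mul hcT _) _) he ?_⟩
  · rw [hLe]
    exact 𝒯.cl_mul (𝒯.cl_al he') hzcl
  · rw [hLt, ← mul_assoc, ← 𝒯.al_mul]
    exact 𝒯.cl_mul (𝒯.cl_al hea) hcLt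
  · apply 𝒯.App_coset hmove
    have e3 : 𝒯.al e⁻¹ * z - 𝒯.al e⁻¹ * (𝒯.al a * c) = 𝒯.al (e⁻¹ * a) * (𝒯.al a⁻¹ * z - c) := by
      rw [mul_sub, 𝒯.al_mul, mul_assoc, mul_assoc, 𝒯.al_mul_inv]
    rw [e3]
    exact 𝒯.App_left hA hea

end TSet

end Pool.Agent.HFT
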