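import Pool.Agent.HFT.Part

/-! # HFT/VDF: leading forms of vectors and dimensions (helper49)

Vectors `w : X → D` with a label `κ x : G` for every coordinate.

PROOF of `finrank_lfSpan`: induction on `finrank K`. If `K = ⊥`: for `w = 0` the part of `0` is `0`
(`Part_uq`, `Part_zero`), so `lfSpan = ⊥`. Let `K ≠ ⊥`.
`exists_norm`: there are `y ∈ K` and `x0 : X` with `y x0 = 1` and `Ge (κ x) (κ x0) (y x)` for all `x`. Proof: take
`0 ≠ y' ∈ K`; for every `x` with `y' x ≠ 0` choose `l x` with `Ld (y' x) (κ x) (l x)` (`ex`); let `x0` be such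
that `l x0` is minimal for the total order `S.lt` (finitely many `x`): `¬ lt (l x) (l x0)`. Let
`d := (y' x0)⁻¹`, `Ld d (l x0) (κ x0)` (`Ld_inv'`), and `y := d • y'`. For `x` with `y' x ≠ 0`: `Ld d (l x) m` for some
`m` with not `lt m (κ x0)` (`mono`: if `l x0 < l x` then `κ x0 < m`; if `l x0 = l x` then `m = κ x0`), and
`Ld (d * y' x) (κ x) m` (`mul`); `ltj j m (κ x0)` would imply `lt m (κ x0)` (`ltj_lt`).
Put `h0 := κ x0`, and let `μ x` be the part of `y x` at `κ x` in the class of `h0` (`Part_ex`); `μ x0 = 1`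
(`Part_one`, `Part_uq`). `VPart h0 y μ`. Let `K1 := {w ∈ K | w x0 = 0}`; every `w ∈ K` is
`w = w x0 • y + (w - w x0 • y)` with the second vector in `K1`; `K = D y ⊕ K1`, `finrank K = 1 + finrank K1`
(`y ≠ 0`; `Submodule.finrank_sup_add_finrank_inf_eq` with `K1 ⊓ span {y} = ⊥`, since `c • y ∈ K1` gives
`c = c * y x0 = 0`). Claim: `lfSpan K = span {μ} ⊔ lfSpan K1`. `⊇` clear. `⊆`: let `VPart h w z`, `w ∈ K`,
`d := w x0`. `Ge h0 h d` by `Part_Ge` for the coordinate `x0` (`κ x0 = h0`). So there is `δ` with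
`Part h0 h d δ` (`Part_ex`), and by `Part_mul` `Part (κ x) h (d * y x) (δ * μ x)` for all `x`. Hence
`VPart h (w - d • y) (z - δ • μ)` (`Part_add`, `Part_neg`), so `z - δ • μ ∈ lfSpan K1` and
`z ∈ span {μ} ⊔ lfSpan K1`. Finally all elements `z` of `lfSpan K1` have `z x0 = 0` (for the generators:
`Part (κ x0) h 0 (z x0)`, `Part_uq` with `Part_zero`; then `Submodule.span_le` in the kernel of the
coordinate), and `μ x0 = 1`; so `span {μ} ⊓ lfSpan K1 = ⊥` and
`finrank (lfSpan K) = 1 + finrank (lfSpan K1) = 1 + finrank K1 = finrank K`. -/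

set_option autoImplicit false

universe u w

namespace Pool.Agent.HFT

namespace LeadSys

variable {G : Type u} [Group G] {S : ConradSys G} {R : Type u} [DivisionRing R]
  {A : Subgroup G} {D : Type w} [DivisionRing D] {α : A →* D} {ρ : R →+* D}
  (L : LeadSys S R A D α ρ) (j : S.I)

/-- `z` is the part of the vector `w` in the class of `h` -/
def VPart {X : Type} (κ : X → G) (h : G) (w z : X → D) : Prop :=
  ∀ x, L.Part j (κ x) h (w x) (z x)

/-- the span of the parts of the vectors of a subspace -/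
def lfSpan {X : Type} (κ : X → G) (K : Submodule D (X → D)) : Submodule D (X → D) :=
  Submodule.span D {z | ∃ h, ∃ w ∈ K, L.VPart j κ h w z}

variable {L} {j}

theorem exists_norm {X : Type} [Fintype X] (κ : X → G) (K : Submodule D (X → D)) (hK : K ≠ ⊥) :
    ∃ y ∈ K, ∃ x0 : X, y x0 = 1 ∧ ∀ x, L.Ge j (κ x) (κ x0) (y x) := by
  classical
  obtain ⟨y', hy'K, hy'0⟩ := Submodule.exists_mem_ne_zero_of_ne_bot hK
  have hl : ∀ x : X, ∃ l : G, y' x ≠ 0 → L.Ld (y' x) (κ x) l := by
    intro x
    by_cases hx : y' x = 0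
    · exact ⟨1, fun h => absurd hx h⟩
    · obtain ⟨l, hl⟩ := L.ex (y' x) hx (κ x)
      exact ⟨l, fun _ => hl⟩
  choose l hl using hl
  have hmin : ∀ T : Finset X, T.Nonempty → ∃ x0 ∈ T, ∀ x ∈ T, ¬ S.lt (l x) (l x0) := by
    intro T hT
    induction hT using Finset.Nonempty.cons_induction with
    | singleton a =>
      refine ⟨a, Finset.mem_singleton_self a, fun x hx => ?_⟩
      rw [Finset.mem_singleton.mp hx]
      exact S.lt_irrefl _
    | cons a s ha hs ih =>
      obtain ⟨x0, hx0, hm⟩ := ih
      by_cases hlt : S.lt (l a) (l x0)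
      · refine ⟨a, Finset.mem_cons_self a s, fun x hx h => ?_⟩
        rcases Finset.mem_cons.mp hx with rfl | hx
        · exact S.lt_irrefl _ h
        · exact hm x hx (S.lt_trans h hlt)
      · refine ⟨x0, Finset.mem_cons_of_mem hx0, fun x hx => ?_⟩
        rcases Finset.mem_cons.mp hx with rfl | hx
        · exact hlt
        · exact hm x hx
  have hT : (Finset.univ.filter (fun x => y' x ≠ 0)).Nonempty := by
    by_contra hc
    rw [Finset.not_nonempty_iff_eq_empty, Finset.filter_eq_empty_iff] at hc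
    apply hy'0
    funext x
    have := hc (Finset.mem_univ x)
    simpa using this
  obtain ⟨x0, hx0, hm⟩ := hmin _ hT
  have hx0' : y' x0 ≠ 0 := (Finset.mem_filter.mp hx0).2
  have hd := Ld_inv' (hl x0 hx0')
  refine ⟨(y' x0)⁻¹ • y', K.smul_mem _ hy'K, x0, ?_, ?_⟩
  · rw [Pi.smul_apply, smul_eq_mul, inv_mul_cancel₀ hx0']
  · intro x
    rw [Pi.smul_apply, smul_eq_mul]
    by_cases hx : y' x = 0
    · left
      rw [hx, mul_zero]
    · right
      obtain ⟨m, hm1⟩ := L.ex (y' x0)⁻¹ (inv_ne_zero hx0') (l x)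
      refine ⟨m, L.mul (hl x hx) hm1, fun hlt => ?_⟩
      have hlt' := S.ltj_lt hlt
      rcases S.lt_tri (l x0) (l x) with h1 | h1 | h1
      · exact S.lt_asymm hlt' (L.mono hd hm1 h1)
      · rw [← h1] at hm1
        rw [L.uq hm1 hd] at hlt'
        exact S.lt_irrefl _ hlt'
      · exact hm x (Finset.mem_filter.mpr ⟨Finset.mem_univ x, hx⟩) h1

private theorem fr_split {X : Type} [Fintype X] (v : X → D) (x0 : X) (hv : v x0 = 1)
    (M1 : Submodule D (X → D)) (h1 : ∀ z ∈ M1, z x0 = 0) :
    Module.finrank D ↥(Submodule.span D {v} ⊔ M1) = 1 + Module.finrank D M1 := by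
  have hv0 : v ≠ 0 := by
    rintro rfl
    simp at hv
  have hinf : Submodule.span D {v} ⊓ M1 = ⊥ := by
    rw [eq_bot_iff]
    intro z hz
    obtain ⟨hz1, hz2⟩ := Submodule.mem_inf.mp hz
    obtain ⟨c, rfl⟩ := Submodule.mem_span_singleton.mp hz1
    have h2 := h1 _ hz2
    rw [Pi.smul_apply, smul_eq_mul, hv, mul_one] at h2
    rw [h2, zero_smul]
    exact Submodule.zero_mem _
  have h3 := Submodule.finrank_sup_add_finrank_inf_eq (Submodule.span D {v}) M1
  rw [hinf, finrank_bot, finrank_span_singleton hv0, add_zero] at h3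
  exact h3

theorem finrank_lfSpan (hc : ∀ r a, ρ r * α a = α a * ρ r) {X : Type} [Fintype X] (κ : X → G)
    (K : Submodule D (X → D)) :
    Module.finrank D (L.lfSpan j κ K) = Module.finrank D K := by
  suffices H : ∀ n : ℕ, ∀ K : Submodule D (X → D), Module.finrank D K = n →
      Module.finrank D (L.lfSpan j κ K) = n from H _ K rfl
  intro n
  induction n with
  | zero =>
    intro K hK
    have hK0 : K = ⊥ := Submodule.finrank_eq_zero.mp hK
    subst hK0
    have : L.lfSpan j κ (⊥ : Submodule D (X → D)) = ⊥ := by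
      unfold lfSpan
      rw [Submodule.span_eq_bot]
      rintro z ⟨h, w, hw, hz⟩
      rw [Submodule.mem_bot] at hw
      subst hw
      funext x
      exact Part_uq (hz x) (Part_zero (κ x) h)
    rw [this, finrank_bot]
  | succ n ih =>
    intro K hK
    have hK0 : K ≠ ⊥ := by
      rintro rfl
      rw [finrank_bot] at hK
      omega
    obtain ⟨y, hyK, x0, hy1, hyG⟩ := exists_norm (L := L) (j := j) κ K hK0
    choose μ hμ using fun x => Part_ex (hyG x)
    have hμ1 : μ x0 = 1 := by
      have h1 := hμ x0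
      rw [hy1] at h1
      exact Part_uq h1 (Part_one (κ x0))
    set K1 : Submodule D (X → D) := K ⊓ LinearMap.ker (LinearMap.proj (R := D) (φ := fun _ : X => D) x0) with hK1
    have hK1z : ∀ z ∈ K1, z x0 = 0 := by
      intro z hz
      have := (Submodule.mem_inf.mp hz).2
      rw [LinearMap.mem_ker] at this
      exact this
    have hsub : ∀ w ∈ K, w - w x0 • y ∈ K1 := by
      intro w hw
      refine Submodule.mem_inf.mpr ⟨K.sub_mem hw (K.smul_mem _ hyK), ?_⟩
      rw [LinearMap.mem_ker]
      show (w - w x0 • y) x0 = 0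
      rw [Pi.sub_apply, Pi.smul_apply, smul_eq_mul, hy1, mul_one, sub_self]
    have hKeq : Submodule.span D {y} ⊔ K1 = K := by
      apply le_antisymm
      · refine sup_le ?_ inf_le_left
        rw [Submodule.span_le, Set.singleton_subset_iff]
        exact hyK
      · intro w hw
        have h1 : w = w x0 • y + (w - w x0 • y) := by abel
        rw [h1]
        exact Submodule.add_mem_sup
          (Submodule.smul_mem _ _ (Submodule.mem_span_singleton_self y)) (hsub w hw)
    have hLeq : L.lfSpan j κ K = Submodule.span D {μ} ⊔ L.lfSpan j κ K1 := by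
      apply le_antisymm
      · unfold lfSpan
        rw [Submodule.span_le]
        rintro z ⟨h, w, hw, hz⟩
        obtain ⟨δ, hδ⟩ := Part_ex (Part_Ge (hz x0))
        have h2 : L.VPart j κ h (w - w x0 • y) (z - δ • μ) := by
          intro x
          have h3 := Part_mul hc hδ (hμ x)
          have h4 := Part_add (hz x) (Part_neg h3)
          rw [Pi.sub_apply, Pi.sub_apply, Pi.smul_apply, Pi.smul_apply, smul_eq_mul, smul_eq_mul,
            sub_eq_add_neg, sub_eq_add_neg]
          exact h4
        have h5 : z = δ • μ + (z - δ • μ) := by abel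
        rw [h5]
        exact Submodule.add_mem_sup
          (Submodule.smul_mem _ _ (Submodule.mem_span_singleton_self μ))
          (Submodule.subset_span ⟨h, _, hsub w hw, h2⟩)
      · refine sup_le ?_ ?_
        · rw [Submodule.span_le, Set.singleton_subset_iff]
          exact Submodule.subset_span ⟨κ x0, y, hyK, hμ⟩
        · unfold lfSpan
          apply Submodule.span_mono
          rintro z ⟨h, w, hw, hz⟩
          exact ⟨h, w, (Submodule.mem_inf.mp hw).1, hz⟩
    have hLz : ∀ z ∈ L.lfSpan j κ K1, z x0 = 0 := by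
      intro z hz
      have h1 : L.lfSpan j κ K1 ≤
          LinearMap.ker (LinearMap.proj (R := D) (φ := fun _ : X => D) x0) := by
        unfold lfSpan
        rw [Submodule.span_le]
        rintro z ⟨h, w, hw, hz⟩
        have h2 := hz x0
        rw [hK1z w hw] at h2
        show z ∈ LinearMap.ker _
        rw [LinearMap.mem_ker]
        exact Part_uq h2 (Part_zero (κ x0) h)
      have h2 := h1 hz
      rw [LinearMap.mem_ker] at h2
      exact h2
    have hf1 := fr_split y x0 hy1 K1 hK1z
    rw [hKeq, hK] at hf1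
    have hf2 := fr_split μ x0 hμ1 (L.lfSpan j κ K1) hLz
    rw [← hLeq, ih K1 (by omega)] at hf2
    rw [hf2]
    omega

end LeadSys

end Pool.Agent.HFT
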